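import Pool.Agent.LFK.CH2
import Pool.Agent.LF.Cut

/-!
[LEAFK], row CHk: the chart of the sphere adapted to `k` phases.
-/

set_option autoImplicit false

namespace Pool.Agent.LFK

open Set Filter Topology Pool.Agent.MP_6cbfb8_an
open scoped RealInnerProductSpace ContDiff

/-- The chart by the inverse function theorem. -/
theorem ch1_loc {n m k : ℕ} (hn : k + m + 1 = n) {φ : E n → E k} {x0 : E n} (hx0 : ‖x0‖ = 1)
    (hφ : ∀ᶠ x in 𝓝 x0, ContDiffAt ℝ ∞ φ x)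
    (hg : ∀ c : ℝ × E k, fderiv ℝ (Phc φ c) x0 = 0 → c = 0) :
    ∃ (X : E k × E m → E n) (L : E n →L[ℝ] E m),
      X (φ x0, 0) = x0 ∧
      (∀ᶠ p in 𝓝 ((φ x0, 0) : E k × E m), ContDiffAt ℝ ∞ X p ∧ ‖X p‖ = 1 ∧ φ (X p) = p.1 ∧
        L (X p - x0) = p.2) ∧
      ∀ᶠ x in 𝓝 x0, ‖x‖ = 1 → X (φ x, L (x - x0)) = x := by
  have hxx : ⟪x0, x0⟫ = 1 := by
    rw [real_inner_self_eq_norm_sq, hx0, one_pow]
  have hφ0 : ContDiffAt ℝ ∞ φ x0 := hφ.self_of_nhds
  have hφd : DifferentiableAt ℝ φ x0 := hφ0.differentiableAt (by simp)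
  -- the linear functions
  set l1 : E n →ₗ[ℝ] ℝ := ((innerSL ℝ x0 : E n →L[ℝ] ℝ) : E n →ₗ[ℝ] ℝ) with hl1
  set l2 : E n →ₗ[ℝ] E k := ((fderiv ℝ φ x0 : E n →L[ℝ] E k) : E n →ₗ[ℝ] E k) with hl2
  have hl1a : ∀ v, l1 v = ⟪x0, v⟫ := fun v => rfl
  have hl2a : ∀ v, l2 v = fderiv ℝ φ x0 v := fun v => rfl
  set K : Submodule ℝ (E n) := LinearMap.ker (l1.prod l2) with hK
  have hKdim : Module.finrank ℝ K = m := by
    have h1 : K = (LinearMap.range (Tc φ x0))ᗮ := by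
      ext v
      rw [Submodule.mem_orthogonal]
      constructor
      · rintro hv _ ⟨c, rfl⟩
        have h2 : l1.prod l2 v = 0 := hv
        rw [LinearMap.prod_apply] at h2
        simp only [Function.prod, Prod.mk_eq_zero, hl1a, hl2a] at h2
        rw [tc_inner hφd, phc_fderiv hφd, h2.1, h2.2, inner_zero_right, mul_zero, add_zero]
      · intro hv
        have h2 : ∀ c : ℝ × E k, c.1 * ⟪x0, v⟫ + ⟪c.2, fderiv ℝ φ x0 v⟫ = 0 := fun c => by
          rw [← phc_fderiv hφd, ← tc_inner hφd]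
          exact hv _ ⟨c, rfl⟩
        have h3 := h2 (1, 0)
        have h4 := h2 (0, fderiv ℝ φ x0 v)
        simp only [one_mul, inner_zero_left, add_zero] at h3
        simp only [zero_mul, zero_add] at h4
        change l1.prod l2 v = 0
        rw [LinearMap.prod_apply]
        simp only [Function.prod, Prod.mk_eq_zero, hl1a, hl2a]
        exact ⟨h3, inner_self_eq_zero.1 h4⟩
    have h2 : Module.finrank ℝ (LinearMap.range (Tc φ x0)) = k + 1 := by
      rw [LinearMap.finrank_range_of_inj (tc_inj hφd hg), Module.finrank_prod,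
        Module.finrank_self, finrank_euclideanSpace, Fintype.card_fin, add_comm]
    have h3 := (LinearMap.range (Tc φ x0)).finrank_add_finrank_orthogonal
    rw [h2, finrank_euclideanSpace, Fintype.card_fin, ← h1] at h3
    omega
  let e : K ≃ₗᵢ[ℝ] E m := ((stdOrthonormalBasis ℝ K).reindex (finCongr hKdim)).repr
  let L : E n →L[ℝ] E m := (e.toContinuousLinearEquiv : K →L[ℝ] E m).comp K.orthogonalProjectionOnto
  have hLK : ∀ v : E n, v ∈ K → L v = 0 → v = 0 := by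
    intro v hv h
    have h1 : e (K.orthogonalProjectionOnto v) = 0 := h
    rw [Submodule.orthogonalProjectionOnto_mem_subspace_eq_self (K := K) ⟨v, hv⟩] at h1
    have h2 := (map_eq_zero_iff e e.injective).1 h1
    exact congrArg Subtype.val h2
  -- the map
  set F : E n → ℝ × (E k × E m) := fun x => (⟪x, x⟫, (φ x, L (x - x0))) with hF
  have hFs : ∀ᶠ x in 𝓝 x0, ContDiffAt ℝ ∞ F x := by
    filter_upwards [hφ] with x hx
    exact (contDiffAt_id.inner ℝ contDiffAt_id).prodMk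
      (hx.prodMk (L.contDiff.contDiffAt.comp x (contDiffAt_id.sub contDiffAt_const)))
  have hFd : ∀ v, fderiv ℝ F x0 v = (2 * ⟪x0, v⟫, (fderiv ℝ φ x0 v, L v)) := by
    intro v
    have h1 : HasFDerivAt F (((fderivInnerCLM ℝ (x0, x0)).comp ((ContinuousLinearMap.id ℝ (E n)).prod
        (ContinuousLinearMap.id ℝ (E n)))).prod
        ((fderiv ℝ φ x0).prod (L.comp (ContinuousLinearMap.id ℝ (E n))))) x0 := by
      refine HasFDerivAt.prodMk ?_ (HasFDerivAt.prodMk ?_ ?_)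
      · exact (hasFDerivAt_id x0).inner ℝ (hasFDerivAt_id x0)
      · exact (hφ0.differentiableAt (by simp)).hasFDerivAt
      · exact L.hasFDerivAt.comp x0 ((hasFDerivAt_id x0).sub_const x0)
    rw [h1.fderiv]
    simp only [ContinuousLinearMap.prod_apply, ContinuousLinearMap.comp_apply,
      ContinuousLinearMap.id_apply, fderivInnerCLM_apply]
    rw [real_inner_comm v x0]
    ring_nf
  have hinj : Function.Injective (fderiv ℝ F x0 : E n →ₗ[ℝ] ℝ × (E k × E m)) := by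
    rw [← LinearMap.ker_eq_bot, LinearMap.ker_eq_bot']
    intro v hv
    have h1 : fderiv ℝ F x0 v = 0 := hv
    rw [hFd] at h1
    simp only [Prod.mk_eq_zero, mul_eq_zero, OfNat.ofNat_ne_zero, false_or] at h1
    obtain ⟨h2, h3, h4⟩ := h1
    refine hLK v ?_ h4
    rw [hK, LinearMap.mem_ker, LinearMap.prod_apply]
    simp only [Function.prod, hl1a, hl2a, h2, h3]
    rfl
  let e1 : E n ≃ₗ[ℝ] ℝ × (E k × E m) := LinearEquiv.ofInjectiveOfFinrankEq _ hinj (by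
    rw [Module.finrank_prod, Module.finrank_prod, Module.finrank_self, finrank_euclideanSpace,
      finrank_euclideanSpace, finrank_euclideanSpace, Fintype.card_fin, Fintype.card_fin,
      Fintype.card_fin]
    omega)
  let e2 : E n ≃L[ℝ] ℝ × (E k × E m) := e1.toContinuousLinearEquiv
  have he2 : (e2 : E n →L[ℝ] ℝ × (E k × E m)) = fderiv ℝ F x0 := by
    ext v : 1
    rfl
  have hF0 : ContDiffAt ℝ ∞ F x0 := hFs.self_of_nhds
  have hFx0 : F x0 = (1, (φ x0, 0)) := by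
    simp only [hF, hxx, sub_self, map_zero]
  have hFd0 : HasFDerivAt F (e2 : E n →L[ℝ] ℝ × (E k × E m)) x0 := by
    rw [he2]
    exact (hF0.differentiableAt (by simp)).hasFDerivAt
  have hne : (∞ : WithTop ℕ∞) ≠ 0 := by simp
  let Φ : OpenPartialHomeomorph (E n) (ℝ × (E k × E m)) :=
    hF0.toOpenPartialHomeomorph F hFd0 hne
  have hΦ : (Φ : E n → ℝ × (E k × E m)) = F := hF0.toOpenPartialHomeomorph_coe hFd0 hne
  have hsrc : x0 ∈ Φ.source := hF0.mem_toOpenPartialHomeomorph_source hFd0 hne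
  have htgt : ((1, (φ x0, 0)) : ℝ × (E k × E m)) ∈ Φ.target := by
    rw [← hFx0, ← hΦ]
    exact Φ.map_source hsrc
  have hsym : Φ.symm (1, (φ x0, 0)) = x0 := by
    rw [← hFx0, ← hΦ]
    exact Φ.left_inv hsrc
  -- the derivative is invertible near `x0`
  have hder : ∀ᶠ x in 𝓝 x0, ContDiffAt ℝ ∞ F x ∧
      ∃ e3 : E n ≃L[ℝ] ℝ × (E k × E m), (e3 : E n →L[ℝ] ℝ × (E k × E m)) = fderiv ℝ F x := by
    have h1 : ContinuousAt (fderiv ℝ F) x0 :=
      (hF0.fderiv_right (m := 0) (by simp)).continuousAt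
    have h2 : range ((↑) : (E n ≃L[ℝ] ℝ × (E k × E m)) → (E n →L[ℝ] ℝ × (E k × E m))) ∈
        𝓝 (fderiv ℝ F x0) := by
      rw [← he2]
      exact ContinuousLinearEquiv.nhds e2
    filter_upwards [hFs, h1 h2] with x hx hx2
    exact ⟨hx, hx2⟩
  -- the chart
  refine ⟨fun p => Φ.symm (1, p), L, hsym, ?_, ?_⟩
  · have hcont : Tendsto (fun p : E k × E m => Φ.symm (1, p)) (𝓝 (φ x0, 0)) (𝓝 x0) := by
      have h1 : ContinuousAt (fun p : E k × E m => Φ.symm (1, p)) (φ x0, 0) := by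
        refine ContinuousAt.comp (f := fun p : E k × E m => ((1 : ℝ), p)) ?_ (by fun_prop)
        exact Φ.continuousAt_symm htgt
      have h2 := h1.tendsto
      rwa [hsym] at h2
    have htg : ∀ᶠ p : E k × E m in 𝓝 (φ x0, 0), ((1 : ℝ), p) ∈ Φ.target := by
      have h1 : Tendsto (fun p : E k × E m => ((1 : ℝ), p)) (𝓝 (φ x0, 0)) (𝓝 (1, (φ x0, 0))) := by
        have : Continuous fun p : E k × E m => ((1 : ℝ), p) := by fun_prop
        exact this.tendsto _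
      exact h1 (Φ.open_target.mem_nhds htgt)
    filter_upwards [htg, hcont.eventually hder] with p hp1 hp2
    obtain ⟨hp3, e3, he3⟩ := hp2
    have h1 : F (Φ.symm (1, p)) = (1, p) := by
      rw [← hΦ]
      exact Φ.right_inv hp1
    have h2 : ContDiffAt ℝ ∞ Φ.symm (1, p) := by
      refine Φ.contDiffAt_symm hp1 (f₀' := e3) ?_ ?_
      · rw [hΦ, he3]
        exact (hp3.differentiableAt (by simp)).hasFDerivAt
      · rw [hΦ]
        exact hp3
    simp only [hF, Prod.ext_iff] at h1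
    obtain ⟨h3, h4, h5⟩ := h1
    refine ⟨h2.comp p (contDiffAt_const.prodMk contDiffAt_id), ?_, h4, h5⟩
    rw [real_inner_self_eq_norm_sq] at h3
    have h6 := norm_nonneg (Φ.symm (1, p))
    nlinarith
  · have h1 : ∀ᶠ x in 𝓝 x0, x ∈ Φ.source := Φ.open_source.mem_nhds hsrc
    filter_upwards [h1] with x hx hx1
    have h2 : F x = (1, (φ x, L (x - x0))) := by
      simp only [hF, real_inner_self_eq_norm_sq, hx1, one_pow]
    rw [← h2, ← hΦ]
    exact Φ.left_inv hx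

/-- **Row CHk**: the chart `X(t, z)` of the sphere of `E n`, `n = k + m + 1`, with `φ(X(t, z)) = t`,
smooth with bounded derivatives on the whole space. -/
theorem ch1_chart {n m k : ℕ} (hn : k + m + 1 = n) {φ : E n → E k} {x0 : E n} (hx0 : ‖x0‖ = 1)
    (hφ : ∀ᶠ x in 𝓝 x0, ContDiffAt ℝ ∞ φ x)
    (hg : ∀ c : ℝ × E k, fderiv ℝ (Phc φ c) x0 = 0 → c = 0) :
    ∃ (X : E k × E m → E n) (L : E n →L[ℝ] E m) (A : ℕ → ℝ) (δ : ℝ), 0 < δ ∧
      ContDiff ℝ ∞ X ∧ (∀ j, 0 ≤ A j) ∧ (∀ j p, ‖iteratedFDeriv ℝ j X p‖ ≤ A j) ∧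
      X (φ x0, 0) = x0 ∧
      (∀ p, ‖p - (φ x0, 0)‖ ≤ δ → ‖X p‖ = 1 ∧ φ (X p) = p.1 ∧ L (X p - x0) = p.2 ∧
        Function.Injective (fderiv ℝ X p)) ∧
      InjOn X {p | ‖p - (φ x0, 0)‖ ≤ δ} ∧
      ∀ᶠ x in 𝓝 x0, ‖x‖ = 1 → X (φ x, L (x - x0)) = x := by
  have hφ0 : ContDiffAt ℝ ∞ φ x0 := hφ.self_of_nhds
  obtain ⟨X, L, hX0, hX1, hX2⟩ := ch1_loc hn hx0 hφ hg
  have hXc : ContinuousAt X (φ x0, 0) := hX1.self_of_nhds.1.continuousAt
  have hφX : ∀ᶠ p in 𝓝 ((φ x0, 0) : E k × E m), ContDiffAt ℝ ∞ φ (X p) := by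
    have h1 := hXc.tendsto
    rw [hX0] at h1
    exact h1.eventually hφ
  obtain ⟨r, hr, hball⟩ := Metric.eventually_nhds_iff_ball.1 (hX1.and hφX)
  have hball' : ∀ p, ‖p - (φ x0, 0)‖ < r → (ContDiffAt ℝ ∞ X p ∧ ‖X p‖ = 1 ∧ φ (X p) = p.1 ∧
      L (X p - x0) = p.2) ∧ ContDiffAt ℝ ∞ φ (X p) := fun p hp => hball p (by
    rw [Metric.mem_ball, dist_eq_norm]
    exact hp)
  have hopen : ∀ p : E k × E m, ‖p - (φ x0, 0)‖ < r →
      ∀ᶠ q in 𝓝 p, ‖q - ((φ x0, 0) : E k × E m)‖ < r := fun p hp =>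
    (isOpen_lt (by fun_prop) continuous_const).mem_nhds hp
  have himm : ∀ p, ‖p - (φ x0, 0)‖ < r → Function.Injective (fderiv ℝ X p) := by
    intro p hp
    obtain ⟨⟨h1, -, -, -⟩, h2⟩ := hball' p hp
    have hXd : DifferentiableAt ℝ X p := h1.differentiableAt (by simp)
    have hφd : DifferentiableAt ℝ φ (X p) := h2.differentiableAt (by simp)
    have h3 : ∀ u, fderiv ℝ φ (X p) (fderiv ℝ X p u) = u.1 := by
      intro u
      have e1 : (fun q => φ (X q)) =ᶠ[𝓝 p] fun q => q.1 := by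
        filter_upwards [hopen p hp] with q hq using (hball' q hq).1.2.2.1
      have e2 : HasFDerivAt (fun q => φ (X q)) ((fderiv ℝ φ (X p)).comp (fderiv ℝ X p)) p :=
        hφd.hasFDerivAt.comp p hXd.hasFDerivAt
      have e3 : HasFDerivAt (fun q : E k × E m => q.1) ((fderiv ℝ φ (X p)).comp (fderiv ℝ X p)) p :=
        e2.congr_of_eventuallyEq e1.symm
      have e4 := e3.unique hasFDerivAt_fst
      exact congrArg (fun l : E k × E m →L[ℝ] E k => l u) e4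
    have h4 : ∀ u, L (fderiv ℝ X p u) = u.2 := by
      intro u
      have e1 : (fun q => L (X q - x0)) =ᶠ[𝓝 p] fun q => q.2 := by
        filter_upwards [hopen p hp] with q hq using (hball' q hq).1.2.2.2
      have e2 : HasFDerivAt (fun q => L (X q - x0)) (L.comp (fderiv ℝ X p)) p :=
        L.hasFDerivAt.comp p (hXd.hasFDerivAt.sub_const x0)
      have e3 : HasFDerivAt (fun q : E k × E m => q.2) (L.comp (fderiv ℝ X p)) p :=
        e2.congr_of_eventuallyEq e1.symm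
      have e4 := e3.unique hasFDerivAt_snd
      exact congrArg (fun l : E k × E m →L[ℝ] E m => l u) e4
    intro a b hab
    refine Prod.ext ?_ ?_
    · rw [← h3 a, ← h3 b, hab]
    · rw [← h4 a, ← h4 b, hab]
  obtain ⟨Y, A, hY1, hA, hY2, hY3, hY4, -⟩ := LF.cut_off X ((φ x0, 0) : E k × E m) (δ := r / 2)
    (r := r) (by positivity) (by linarith) fun p hp => (hball' p hp).1.1
  have hlt : ∀ p : E k × E m, ‖p - (φ x0, 0)‖ ≤ r / 4 → ‖p - (φ x0, 0)‖ < r / 2 := fun p hp => by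
    linarith
  have hp0 : ‖((φ x0, 0) : E k × E m) - (φ x0, 0)‖ < r / 2 := by
    rw [sub_self, norm_zero]
    positivity
  have hd : ∀ p : E k × E m, ‖p - (φ x0, 0)‖ < r / 2 → fderiv ℝ Y p = fderiv ℝ X p := fun p hp =>
    (hY4 p hp).fderiv_eq
  refine ⟨Y, L, A, r / 4, by positivity, hY1, hA, hY2, ?_, ?_, ?_, ?_⟩
  · rw [hY3 _ hp0.le, hX0]
  · intro p hp
    have h1 := hlt p hp
    obtain ⟨⟨-, h2, h3, h4⟩, -⟩ := hball' p (by linarith)
    rw [hd p h1, hY3 p h1.le]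
    exact ⟨h2, h3, h4, himm p (by linarith)⟩
  · intro p hp q hq hpq
    have hp1 := hlt p hp
    have hq1 := hlt q hq
    rw [hY3 p hp1.le, hY3 q hq1.le] at hpq
    obtain ⟨⟨-, -, h3, h4⟩, -⟩ := hball' p (by linarith)
    obtain ⟨⟨-, -, h5, h6⟩, -⟩ := hball' q (by linarith)
    refine Prod.ext ?_ ?_
    · rw [← h3, ← h5, hpq]
    · rw [← h4, ← h6, hpq]
  · have h1 : Tendsto (fun x => ((φ x, L (x - x0)) : E k × E m)) (𝓝 x0) (𝓝 (φ x0, 0)) := by
      have h2 : ContinuousAt (fun x => ((φ x, L (x - x0)) : E k × E m)) x0 :=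
        hφ0.continuousAt.prodMk (L.continuous.continuousAt.comp (by fun_prop))
      have h3 := h2.tendsto
      simpa using h3
    have hop : ∀ᶠ q in 𝓝 ((φ x0, 0) : E k × E m), ‖q - ((φ x0, 0) : E k × E m)‖ < r / 2 :=
      (isOpen_lt (by fun_prop) continuous_const).mem_nhds hp0
    filter_upwards [hX2, h1.eventually hop] with x hx hx2 hx3
    rw [hY3 _ hx2.le, hx hx3]

/-- **Row CHk**, in the form used by the assembly. -/
theorem ch1 {k m n : ℕ} (hn : k + m + 1 = n) (φ : E n → E k) (x0 : E n) (hx0 : ‖x0‖ = 1)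
    (hφ : ∀ᶠ x in 𝓝 x0, ContDiffAt ℝ ∞ φ x)
    (hgen : ∀ c : ℝ × E k, fderiv ℝ (Phc φ c) x0 = 0 → c = 0) :
    ∃ (X : E k × E m → E n) (A : ℕ → ℝ) (p0 : E k × E m) (δ : ℝ), 0 < δ ∧ ContDiff ℝ ∞ X ∧
      (∀ j p, ‖iteratedFDeriv ℝ j X p‖ ≤ A j) ∧ X p0 = x0 ∧
      (∀ p, ‖p - p0‖ ≤ δ → ‖X p‖ = 1) ∧ (∀ p, ‖p - p0‖ ≤ δ → φ (X p) = p.1) ∧
      (∀ p q, ‖p - p0‖ ≤ δ → ‖q - p0‖ ≤ δ → X p = X q → p = q) ∧
      (∀ p, ‖p - p0‖ ≤ δ → ∀ v, fderiv ℝ X p v = 0 → v = 0) ∧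
      ∀ᶠ x in 𝓝 x0, ‖x‖ = 1 → ∃ p, ‖p - p0‖ < δ ∧ X p = x := by
  obtain ⟨X, L, A, δ, hδ, hX, -, hA, hX0, h1, h2, h3⟩ := ch1_chart hn hx0 hφ hgen
  refine ⟨X, A, (φ x0, 0), δ, hδ, hX, hA, hX0, fun p hp => (h1 p hp).1, fun p hp => (h1 p hp).2.1,
    fun p q hp hq hpq => h2 hp hq hpq, fun p hp v hv => ?_, ?_⟩
  · exact (h1 p hp).2.2.2 (by rw [hv, map_zero])
  · have h4 : Tendsto (fun x => ((φ x, L (x - x0)) : E k × E m)) (𝓝 x0) (𝓝 (φ x0, 0)) := by
      have h5 : ContinuousAt (fun x => ((φ x, L (x - x0)) : E k × E m)) x0 :=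
        hφ.self_of_nhds.continuousAt.prodMk (L.continuous.continuousAt.comp (by fun_prop))
      have h6 := h5.tendsto
      simpa using h6
    have hop : ∀ᶠ q in 𝓝 ((φ x0, 0) : E k × E m), ‖q - ((φ x0, 0) : E k × E m)‖ < δ :=
      (isOpen_lt (by fun_prop) continuous_const).mem_nhds (by
        rw [mem_ofPred_eq, sub_self, norm_zero]
        exact hδ)
    filter_upwards [h3, h4.eventually hop] with x hx hx2 hx3
    exact ⟨_, hx2, hx hx3⟩

end Pool.Agent.LFK
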