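import Pool.Agent.LFK.CV
import Pool.Agent.LF.CH3

/-!
[LEAFK], row CHk: the extension operator of a density which is rough in `k` directions, in a chart.
-/

set_option autoImplicit false

namespace Pool.Agent.LFK

open MeasureTheory Set Metric Filter Topology Pool.Agent.MP_6cbfb8_an
open scoped ContDiff Real

section

variable {U V F : Type*} [NormedAddCommGroup U] [NormedSpace ℝ U] [NormedAddCommGroup V]
  [NormedSpace ℝ V] [NormedAddCommGroup F] [NormedSpace ℝ F]

/-- The derivatives in the second variable. -/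
theorem ch3_slice {X : U × V → F} (hX : ContDiff ℝ ∞ X) (t : U) (k : ℕ) (z : V) :
    ‖iteratedFDeriv ℝ k (fun z => X (t, z)) z‖ ≤ ‖iteratedFDeriv ℝ k X (t, z)‖ := by
  have e1 : (fun z : V => X (t, z)) =
      (fun p => X (((t, 0) : U × V) + p)) ∘ (ContinuousLinearMap.inr ℝ U V) := by
    funext z
    simp
  have h1 : ContDiff ℝ ∞ (fun p => X (((t, 0) : U × V) + p)) :=
    hX.comp (contDiff_const.add contDiff_id)
  rw [e1, ContinuousLinearMap.iteratedFDeriv_comp_right _ h1 z (by exact_mod_cast le_top),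
    iteratedFDeriv_comp_add_left]
  refine (ContinuousMultilinearMap.norm_compContinuousLinearMap_le _ _).trans ?_
  have e2 : ((t, 0) : U × V) + (ContinuousLinearMap.inr ℝ U V) z = (t, z) := by simp
  rw [e2]
  have h2 : ∏ _i : Fin k, ‖ContinuousLinearMap.inr ℝ U V‖ ≤ 1 :=
    Finset.prod_le_one (fun _ _ => norm_nonneg _) fun _ _ => ContinuousLinearMap.norm_inr_le_one ℝ U V
  exact mul_le_of_le_one_right (norm_nonneg _) h2

/-- The derivatives of `G(X(t, z)) K(t, z)` in `z`. -/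
theorem ch3_comp {X : U × V → F} (hX : ContDiff ℝ ∞ X) {K : U × V → ℂ} (hK : ContDiff ℝ ∞ K)
    {A C B : ℕ → ℝ} (hA : ∀ j p, ‖iteratedFDeriv ℝ j X p‖ ≤ A j)
    (hC : ∀ j p, ‖iteratedFDeriv ℝ j K p‖ ≤ C j) {G : F → ℂ} (hG : ContDiff ℝ ∞ G)
    (hB : ∀ j x, ‖iteratedFDeriv ℝ j G x‖ ≤ B j) (t : U) (k : ℕ) (z : V) :
    ‖iteratedFDeriv ℝ k (fun z => G (X (t, z)) * K (t, z)) z‖ ≤
      ∑ i ∈ Finset.range (k + 1), (k.choose i : ℝ) *
        ((i.factorial : ℝ) * (∑ j ∈ Finset.range (i + 1), |B j|) *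
          (1 + ∑ j ∈ Finset.range (i + 1), |A j|) ^ i) * C (k - i) := by
  have hXt : ContDiff ℝ ∞ fun z => X (t, z) := hX.comp (contDiff_const.prodMk contDiff_id)
  have hKt : ContDiff ℝ ∞ fun z => K (t, z) := hK.comp (contDiff_const.prodMk contDiff_id)
  have hGX : ContDiff ℝ ∞ fun z => G (X (t, z)) := hG.comp hXt
  refine (norm_iteratedFDeriv_mul_le hGX hKt z (n := k) (by exact_mod_cast le_top)).trans ?_
  refine Finset.sum_le_sum fun i _ => ?_
  have h1 : ‖iteratedFDeriv ℝ i (fun z => G (X (t, z))) z‖ ≤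
      (i.factorial : ℝ) * (∑ j ∈ Finset.range (i + 1), |B j|) *
          (1 + ∑ j ∈ Finset.range (i + 1), |A j|) ^ i := by
    refine norm_iteratedFDeriv_comp_le (g := G) (f := fun z => X (t, z)) hG hXt
      (by exact_mod_cast le_top) z ?_ ?_
    · intro j hj
      refine (hB j _).trans ((le_abs_self _).trans ?_)
      exact Finset.single_le_sum (f := fun j => |B j|) (fun _ _ => abs_nonneg _)
        (Finset.mem_range.2 (by omega))
    · intro j hj1 hj
      have h2 : |A j| ≤ ∑ j ∈ Finset.range (i + 1), |A j| :=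
        Finset.single_le_sum (f := fun j => |A j|) (fun _ _ => abs_nonneg _)
          (Finset.mem_range.2 (by omega))
      have h3 : 0 ≤ ∑ j ∈ Finset.range (i + 1), |A j| :=
        Finset.sum_nonneg fun _ _ => abs_nonneg _
      calc ‖iteratedFDeriv ℝ j (fun z => X (t, z)) z‖ ≤ A j := (ch3_slice hX t j z).trans (hA j _)
        _ ≤ 1 + ∑ j ∈ Finset.range (i + 1), |A j| := by
            have := le_abs_self (A j)
            linarith
        _ = (1 + ∑ j ∈ Finset.range (i + 1), |A j|) ^ 1 := (pow_one _).symm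
        _ ≤ (1 + ∑ j ∈ Finset.range (i + 1), |A j|) ^ j :=
            pow_le_pow_right₀ (by linarith) hj1
  have h4 : ‖iteratedFDeriv ℝ (k - i) (fun z => K (t, z)) z‖ ≤ C (k - i) :=
    (ch3_slice hK t _ z).trans (hC _ _)
  have h5 : 0 ≤ ‖iteratedFDeriv ℝ i (fun z => G (X (t, z))) z‖ := norm_nonneg _
  gcongr

end

/-- The density in the chart. -/
theorem ch3 {k m n : ℕ} (hn : k + m + 1 = n) (φ : E n → E k) (x0 : E n) (X : E k × E m → E n)
    (p0 : E k × E m) {δ : ℝ} (hδ : 0 < δ) (hX : ContDiff ℝ ∞ X) (A : ℕ → ℝ)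
    (hA : ∀ j p, ‖iteratedFDeriv ℝ j X p‖ ≤ A j) (hx0 : X p0 = x0)
    (h1 : ∀ p, ‖p - p0‖ ≤ δ → ‖X p‖ = 1) (hφ : ∀ p, ‖p - p0‖ ≤ δ → φ (X p) = p.1)
    (hinj : ∀ p q, ‖p - p0‖ ≤ δ → ‖q - p0‖ ≤ δ → X p = X q → p = q)
    (him : ∀ p, ‖p - p0‖ ≤ δ → ∀ v, fderiv ℝ X p v = 0 → v = 0)
    (hnb : ∀ᶠ x in 𝓝 x0, ‖x‖ = 1 → ∃ p, ‖p - p0‖ < δ ∧ X p = x) (δ1 : ℝ) (hδ1 : 0 < δ1) :
    ∃ r, 0 < r ∧ ∀ B : ℕ → ℝ, ∃ B' : ℕ → ℝ, ∀ G : E k → E n → ℂ,
      Measurable (fun q : E k × E n => G q.1 q.2) → (∀ t, ContDiff ℝ ∞ (G t)) →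
      (∀ t j x, ‖iteratedFDeriv ℝ j (G t) x‖ ≤ B j) → (∀ t x, r ≤ ‖x - x0‖ → G t x = 0) →
      ∃ b : E k × E m → ℂ, Measurable b ∧ (∀ t, ContDiff ℝ ∞ (fun z => b (t, z))) ∧
        (∀ t j z, ‖iteratedFDeriv ℝ j (fun z => b (t, z)) z‖ ≤ B' j) ∧
        (∀ p, δ1 ≤ ‖p - p0‖ → b p = 0) ∧
        ∀ ξ, extn (fun x => G (φ x) x) ξ =
          ∫ p, b p * Complex.exp (((-inner ℝ ((2 * π) • ξ) (X p) : ℝ) : ℂ) * Complex.I) := by
  subst hn
  obtain ⟨J, hJ, hcv⟩ := cv rfl X p0 hδ hX h1 hinj him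
  obtain ⟨r0, hr0, hr0'⟩ := Metric.eventually_nhds_iff.1 hnb
  obtain ⟨δ2, hδ2⟩ : ∃ δ2, δ2 = min δ δ1 := ⟨_, rfl⟩
  have h2 : 0 < δ2 := by rw [hδ2]; exact lt_min hδ hδ1
  have h3 : δ2 ≤ δ := by rw [hδ2]; exact min_le_left _ _
  have h4 : δ2 ≤ δ1 := by rw [hδ2]; exact min_le_right _ _
  -- the radius
  obtain ⟨r1, hr1, hr1'⟩ : ∃ r1, 0 < r1 ∧ ∀ p, ‖p - p0‖ ≤ δ → ‖X p - x0‖ < r1 →
      ‖p - p0‖ < δ2 / 3 := by
    rcases (closedBall p0 δ ∩ {p | δ2 / 3 ≤ ‖p - p0‖}).eq_empty_or_nonempty with he | hne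
    · refine ⟨1, one_pos, fun p hp _ => ?_⟩
      by_contra h
      rw [not_lt] at h
      have : p ∈ closedBall p0 δ ∩ {p | δ2 / 3 ≤ ‖p - p0‖} :=
        ⟨by rw [mem_closedBall, dist_eq_norm]; exact hp, h⟩
      rw [he] at this
      exact this
    · have hK : IsCompact (closedBall p0 δ ∩ {p | δ2 / 3 ≤ ‖p - p0‖}) :=
        (isCompact_closedBall p0 δ).inter_right
          (isClosed_le continuous_const (by fun_prop))
      obtain ⟨q, ⟨hq1, hq2⟩, hq3⟩ := hK.exists_isMinOn hne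
        (f := fun p => ‖X p - x0‖) (by have := hX.continuous; fun_prop)
      rw [mem_closedBall, dist_eq_norm] at hq1
      simp only [mem_ofPred_eq] at hq2
      refine ⟨‖X q - x0‖, ?_, fun p hp hlt => ?_⟩
      · rw [norm_pos_iff, sub_ne_zero, ← hx0]
        intro h
        have h5 := hinj q p0 hq1 (by simp [hδ.le]) h
        rw [h5] at hq2
        simp at hq2
        linarith
      · by_contra h
        rw [not_lt] at h
        have h6 := hq3 (a := p) ⟨by rw [mem_closedBall, dist_eq_norm]; exact hp, h⟩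
        simp only [mem_ofPred_eq] at h6
        linarith
  -- the cut-off
  let f : ContDiffBump p0 := ⟨δ2 / 3, δ2 / 2, by linarith, by linarith⟩
  obtain ⟨K, hK⟩ : ∃ K : E k × E m → ℂ, K = fun p => ((f p * J p : ℝ) : ℂ) := ⟨_, rfl⟩
  have hK0 : ∀ p, δ2 / 2 < ‖p - p0‖ → K p = 0 := by
    intro p hp
    have h5 : f p = 0 := f.zero_of_le_dist (by rw [dist_eq_norm]; exact hp.le)
    rw [hK]
    simp only
    rw [h5, zero_mul, Complex.ofReal_zero]
  have hKs : ContDiff ℝ ∞ K := by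
    rw [contDiff_iff_contDiffAt]
    intro p
    rcases lt_or_ge ‖p - p0‖ δ with h | h
    · rw [hK]
      exact Complex.ofRealCLM.contDiff.contDiffAt.comp p (f.contDiffAt.mul (hJ p h))
    · have h5 : K =ᶠ[𝓝 p] fun _ => (0 : ℂ) := by
        have h6 : {q : E k × E m | δ2 / 2 < ‖q - p0‖} ∈ 𝓝 p :=
          (isOpen_lt continuous_const (by fun_prop)).mem_nhds (by
            simp only [mem_ofPred_eq]
            linarith)
        filter_upwards [h6] with q hq using hK0 q hq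
      exact contDiffAt_const.congr_of_eventuallyEq h5
  have hKc : HasCompactSupport K := by
    refine HasCompactSupport.intro (isCompact_closedBall p0 (δ2 / 2)) fun p hp => hK0 p ?_
    rw [Metric.mem_closedBall, dist_eq_norm, not_le] at hp
    exact hp
  obtain ⟨C, hC⟩ := LF.iter_bdd hKs hKc
  refine ⟨min r0 r1, lt_min hr0 hr1, fun B => ⟨fun k => ∑ i ∈ Finset.range (k + 1),
    (k.choose i : ℝ) * ((i.factorial : ℝ) * (∑ j ∈ Finset.range (i + 1), |B j|) *
      (1 + ∑ j ∈ Finset.range (i + 1), |A j|) ^ i) * C (k - i),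
    fun G hGm hGs hGB hG0 => ?_⟩⟩
  refine ⟨fun p => G p.1 (X p) * K p, ?_, fun t => ?_, fun t k z => ?_, fun p hp => ?_,
    fun ξ => ?_⟩
  · have h7 : Measurable fun p : E k × E m => (p.1, X p) :=
      measurable_fst.prodMk hX.continuous.measurable
    exact (hGm.comp h7).mul hKs.continuous.measurable
  · exact ((hGs t).comp (hX.comp (contDiff_const.prodMk contDiff_id))).mul
      (hKs.comp (contDiff_const.prodMk contDiff_id))
  · exact ch3_comp hX hKs hA hC (hGs t) (hGB t) t k z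
  · simp only
    rw [hK0 p (by linarith), mul_zero]
  · have h8 := hcv (fun x => G (φ x) x *
      Complex.exp (((-(2 * π * inner ℝ x ξ) : ℝ) : ℂ) * Complex.I)) ?_
    · unfold extn
      have h12 : ∀ p : E k × E m, p ∉ ball p0 δ → G p.1 (X p) * K p *
          Complex.exp (((-inner ℝ ((2 * π) • ξ) (X p) : ℝ) : ℂ) * Complex.I) = 0 := by
        intro p hp
        rw [mem_ball, dist_eq_norm, not_lt] at hp
        rw [hK0 p (by linarith), mul_zero, zero_mul]
      rw [h8, ← setIntegral_eq_integral_of_forall_compl_eq_zero h12]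
      · refine setIntegral_congr_fun measurableSet_ball fun p hp => ?_
        rw [mem_ball, dist_eq_norm] at hp
        rw [hφ p hp.le]
        have e1 : (-inner ℝ ((2 * π) • ξ) (X p) : ℝ) = -(2 * π * inner ℝ (X p) ξ) := by
          rw [real_inner_smul_left, real_inner_comm]
        rw [e1]
        rcases eq_or_ne (G p.1 (X p)) 0 with h | h
        · rw [h]
          ring
        · have h9 : ‖X p - x0‖ < min r0 r1 := by
            by_contra h'
            exact h (hG0 _ _ (not_lt.1 h'))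
          have h10 := hr1' p hp.le (h9.trans_le (min_le_right _ _))
          have h11 : f p = 1 := f.one_of_mem_closedBall (by
            rw [Metric.mem_closedBall, dist_eq_norm]
            exact h10.le)
          rw [hK]
          simp only
          rw [h11, one_mul]
          ring
    · intro x hx hne
      have h9 : ‖x - x0‖ < min r0 r1 := by
        by_contra h'
        exact hne (by rw [hG0 _ _ (not_lt.1 h'), zero_mul])
      exact hr0' (by rw [dist_eq_norm]; exact h9.trans_le (min_le_left _ _)) hx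

end Pool.Agent.LFK
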