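import Mathlib

/-!
Derivatives of a field of linear maps, evaluated at a vector.
-/

set_option autoImplicit false

namespace Pool.Agent.LFK

open Set Filter Topology Function
open scoped ContDiff

section Abs

variable {P W G : Type*} [NormedAddCommGroup P] [NormedSpace ℝ P]
  [NormedAddCommGroup W] [NormedSpace ℝ W] [NormedAddCommGroup G] [NormedSpace ℝ G]
  {T : P → W →L[ℝ] G}

theorem cm_fderiv (hT : ContDiff ℝ ∞ T) : ContDiff ℝ ∞ (fderiv ℝ T) :=
  hT.fderiv_right (m := ∞) (by simp)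

theorem cm_has (hT : ContDiff ℝ ∞ T) (w : W) (p : P) : HasFDerivAt (fun q => T q w)
    ((ContinuousLinearMap.apply ℝ G w).comp (fderiv ℝ T p)) p :=
  (ContinuousLinearMap.apply ℝ G w).hasFDerivAt.comp p
    (hT.differentiable (by simp) p).hasFDerivAt

theorem cm_M (hT : ContDiff ℝ ∞ T) (w : W) :
    fderiv ℝ (fun q => T q w) = fun p => (ContinuousLinearMap.apply ℝ G w).comp (fderiv ℝ T p) := by
  funext p
  exact (cm_has hT w p).fderiv

theorem cm_M_apply (hT : ContDiff ℝ ∞ T) (w : W) (p u : P) :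
    fderiv ℝ (fun q => T q w) p u = fderiv ℝ T p u w := by
  rw [cm_M hT]
  rfl

theorem cm_has2 (hT : ContDiff ℝ ∞ T) (w : W) (p : P) : HasFDerivAt (fderiv ℝ (fun q => T q w))
    ((ContinuousLinearMap.compL ℝ P (W →L[ℝ] G) G (ContinuousLinearMap.apply ℝ G w)).comp
      (fderiv ℝ (fderiv ℝ T) p)) p := by
  have h0 : ContDiff ℝ ∞ (fderiv ℝ T) := hT.fderiv_right (m := ∞) (by simp)
  rw [cm_M hT]
  exact (ContinuousLinearMap.compL ℝ P (W →L[ℝ] G) G
    (ContinuousLinearMap.apply ℝ G w)).hasFDerivAt.comp p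
      (h0.differentiable (by simp) p).hasFDerivAt

theorem cm_M2 (hT : ContDiff ℝ ∞ T) (w : W) (p : P) : fderiv ℝ (fderiv ℝ (fun q => T q w)) p =
    (ContinuousLinearMap.compL ℝ P (W →L[ℝ] G) G (ContinuousLinearMap.apply ℝ G w)).comp
      (fderiv ℝ (fderiv ℝ T) p) := (cm_has2 hT w p).fderiv

theorem cm_M2_apply (hT : ContDiff ℝ ∞ T) (w : W) (p u v : P) :
    fderiv ℝ (fderiv ℝ (fun q => T q w)) p u v = fderiv ℝ (fderiv ℝ T) p u v w := by
  rw [cm_M2 hT]
  rfl

theorem cm_cont0 (hT : ContDiff ℝ ∞ T) : Continuous fun q : W × P => T q.2 q.1 :=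
  (hT.continuous.comp continuous_snd).clm_apply continuous_fst

theorem cm_cont1 (hT : ContDiff ℝ ∞ T) :
    Continuous fun q : W × P => fderiv ℝ (fun p => T p q.1) q.2 := by
  have h0 : Continuous (fderiv ℝ T) := (hT.fderiv_right (m := ∞) (by simp)).continuous
  have h1 : (fun q : W × P => fderiv ℝ (fun p => T p q.1) q.2) =
      fun q => (ContinuousLinearMap.apply ℝ G q.1).comp (fderiv ℝ T q.2) := by
    funext q
    rw [cm_M hT]
  rw [h1]
  exact ((ContinuousLinearMap.apply ℝ G).continuous.comp continuous_fst).clm_comp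
    (h0.comp continuous_snd)

theorem cm_cont2 (hT : ContDiff ℝ ∞ T) :
    Continuous fun q : W × P => fderiv ℝ (fderiv ℝ (fun p => T p q.1)) q.2 := by
  have h0 : Continuous (fderiv ℝ (fderiv ℝ T)) :=
    ((hT.fderiv_right (m := ∞) (by simp)).fderiv_right (m := ∞) (by simp)).continuous
  have h1 : (fun q : W × P => fderiv ℝ (fderiv ℝ (fun p => T p q.1)) q.2) =
      fun q => (ContinuousLinearMap.compL ℝ P (W →L[ℝ] G) G
        (ContinuousLinearMap.apply ℝ G q.1)).comp (fderiv ℝ (fderiv ℝ T) q.2) := by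
    funext q
    rw [cm_M2 hT]
  rw [h1]
  exact ((ContinuousLinearMap.compL ℝ P (W →L[ℝ] G) G).continuous.comp
    ((ContinuousLinearMap.apply ℝ G).continuous.comp continuous_fst)).clm_comp
    (h0.comp continuous_snd)

theorem cm_L1 (L : W →L[ℝ] G) {g : P → W} (hg : ContDiff ℝ ∞ g) :
    fderiv ℝ (fun q => L (g q)) = fun p => L.comp (fderiv ℝ g p) := by
  funext p
  exact (L.hasFDerivAt.comp p (hg.differentiable (by simp) p).hasFDerivAt).fderiv

theorem cm_L1_apply (L : W →L[ℝ] G) {g : P → W} (hg : ContDiff ℝ ∞ g) (p u : P) :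
    fderiv ℝ (fun q => L (g q)) p u = L (fderiv ℝ g p u) := by
  rw [cm_L1 L hg]
  rfl

theorem cm_L2 (L : W →L[ℝ] G) {g : P → W} (hg : ContDiff ℝ ∞ g) (p : P) :
    fderiv ℝ (fderiv ℝ (fun q => L (g q))) p =
      (ContinuousLinearMap.compL ℝ P W G L).comp (fderiv ℝ (fderiv ℝ g) p) := by
  have h0 : ContDiff ℝ ∞ (fderiv ℝ g) := hg.fderiv_right (m := ∞) (by simp)
  rw [cm_L1 L hg]
  exact ((ContinuousLinearMap.compL ℝ P W G L).hasFDerivAt.comp p
    (h0.differentiable (by simp) p).hasFDerivAt).fderiv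

theorem cm_L2_apply (L : W →L[ℝ] G) {g : P → W} (hg : ContDiff ℝ ∞ g) (p u v : P) :
    fderiv ℝ (fderiv ℝ (fun q => L (g q))) p u v = L (fderiv ℝ (fderiv ℝ g) p u v) := by
  rw [cm_L2 L hg]
  rfl

end Abs

end Pool.Agent.LFK
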