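import Pool.Agent.GNP.P0

/-!
A chart `X(t, z)` of the sphere, `t` in `R^k`, `z` in `R^m`: the gradients of the linear functions
along it, and the hypothesis of general position.
-/

set_option autoImplicit false

namespace Pool.Agent.LFK

open Pool.Agent.MP_6cbfb8_an
open scoped RealInnerProductSpace

variable {k m n : ℕ}

/-- The derivative of the chart in `t`. -/
noncomputable def Xt (X : E k × E m → E n) (p : E k × E m) : E k →L[ℝ] E n :=
  (fderiv ℝ X p).comp (ContinuousLinearMap.inl ℝ (E k) (E m))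

/-- The derivative of the chart in `z`. -/
noncomputable def Xz (X : E k × E m → E n) (p : E k × E m) : E m →L[ℝ] E n :=
  (fderiv ℝ X p).comp (ContinuousLinearMap.inr ℝ (E k) (E m))

/-- The gradient in `t` of `w · X`. -/
noncomputable def Tw (X : E k × E m → E n) (w : E n) (p : E k × E m) : E k :=
  ContinuousLinearMap.adjoint (Xt X p) w

/-- The gradient in `z` of `w · X`. -/
noncomputable def Vw (X : E k × E m → E n) (w : E n) (p : E k × E m) : E m :=
  ContinuousLinearMap.adjoint (Xz X p) w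

/-- The gradient of `w · X`. -/
noncomputable def Gw (X : E k × E m → E n) (w : E n) (p : E k × E m) : E k × E m :=
  (Tw X w p, Vw X w p)

/-- General position at `p0`: for `w ≠ 0` with `V_w(p0) = 0` and `u, v ≠ 0` in the kernel of
`M_w = D V_w(p0)` there is no `d` with `DX d + D²X(u, v) = 0` and `M_w d + D²V_w(u, v) = 0`. -/
def HX (X : E k × E m → E n) (p0 : E k × E m) : Prop :=
  ∀ w : E n, w ≠ 0 → Vw X w p0 = 0 → ∀ u v : E k × E m, u ≠ 0 → v ≠ 0 →
    fderiv ℝ (Vw X w) p0 u = 0 → fderiv ℝ (Vw X w) p0 v = 0 →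
    ∀ d : E k × E m, ¬ (fderiv ℝ X p0 d + fderiv ℝ (fderiv ℝ X) p0 u v = 0 ∧
      fderiv ℝ (Vw X w) p0 d + fderiv ℝ (fderiv ℝ (Vw X w)) p0 u v = 0)

end Pool.Agent.LFK
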