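import Pool.Agent.LFK.H0
import Pool.Agent.LFK.Df0
import Pool.Agent.LFK.COMP0

/-!
Compactness for a smooth chart: the hypothesis of general position at a point holds, with constants,
near the point.
-/

set_option autoImplicit false

namespace Pool.Agent.LFK

open Pool.Agent.MP_6cbfb8_an Set Filter Topology Function
open scoped RealInnerProductSpace ContDiff

variable {k m n : ℕ}

/-- `w ↦ V_w`, linear in the derivative of the chart. -/
noncomputable def vop : ((E k × E m) →L[ℝ] E n) →L[ℝ] (E n →L[ℝ] E m) :=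
  LinearMap.toContinuousLinearMap
    { toFun := fun T => ContinuousLinearMap.adjoint (T.comp (ContinuousLinearMap.inr ℝ (E k) (E m)))
      map_add' := fun T S => by rw [ContinuousLinearMap.add_comp, map_add]
      map_smul' := fun a T => by
        rw [ContinuousLinearMap.smul_comp, map_smulₛₗ]
        simp }

theorem vop_apply (T : (E k × E m) →L[ℝ] E n) (w : E n) : vop T w =
    ContinuousLinearMap.adjoint (T.comp (ContinuousLinearMap.inr ℝ (E k) (E m))) w := rfl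

theorem inner_vop (T : (E k × E m) →L[ℝ] E n) (w : E n) (v : E m) : ⟪v, vop T w⟫ = ⟪T (0, v), w⟫ := by
  rw [vop_apply, ContinuousLinearMap.adjoint_inner_right]
  rfl

/-- `V_w(p) · v = w · DX(p)(0, v)` -/
theorem inner_Vw (X : E k × E m → E n) (w : E n) (p : E k × E m) (v : E m) :
    ⟪v, Vw X w p⟫ = ⟪fderiv ℝ X p (0, v), w⟫ := inner_vop (fderiv ℝ X p) w v

section Smooth

variable {X : E k × E m → E n}

/-- The field `w ↦ V_w` as a function of the point with values in the linear maps. -/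
noncomputable def Vf (X : E k × E m → E n) (p : E k × E m) : E n →L[ℝ] E m := vop (fderiv ℝ X p)

theorem Vf_contDiff (hX : ContDiff ℝ ∞ X) : ContDiff ℝ ∞ (Vf X) :=
  (vop (k := k) (m := m) (n := n)).contDiff.comp (hX.fderiv_right (m := ∞) (by simp))

private theorem Vw_contDiff (hX : ContDiff ℝ ∞ X) (w : E n) : ContDiff ℝ ∞ (Vw X w) := by
  have h1 : Vw X w = fun p => Vf X p w := rfl
  rw [h1]
  exact (Vf_contDiff hX).clm_apply contDiff_const

/-- `M_w u · v = w · D²X(u)(0, v)` -/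
theorem inner_Mw (hX : ContDiff ℝ ∞ X) (w : E n) (p u : E k × E m) (v : E m) :
    ⟪v, fderiv ℝ (Vw X w) p u⟫ = ⟪fderiv ℝ (fderiv ℝ X) p u (0, v), w⟫ := by
  have h1 : fderiv ℝ (Vw X w) p u = fderiv ℝ (Vf X) p u w := cm_M_apply (Vf_contDiff hX) w p u
  have h2 : fderiv ℝ (Vf X) p u = vop (fderiv ℝ (fderiv ℝ X) p u) :=
    cm_L1_apply (vop (k := k) (m := m) (n := n)) (hX.fderiv_right (m := ∞) (by simp)) p u
  rw [h1, h2, inner_vop]

/-- `D²V_w(u, v) · z = w · D³X(u, v)(0, z)` -/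
theorem inner_V2 (hX : ContDiff ℝ ∞ X) (w : E n) (p u v : E k × E m) (z : E m) :
    ⟪z, fderiv ℝ (fderiv ℝ (Vw X w)) p u v⟫ =
      ⟪fderiv ℝ (fderiv ℝ (fderiv ℝ X)) p u v (0, z), w⟫ := by
  have h1 : fderiv ℝ (fderiv ℝ (Vw X w)) p u v = fderiv ℝ (fderiv ℝ (Vf X)) p u v w :=
    cm_M2_apply (Vf_contDiff hX) w p u v
  have h2 : fderiv ℝ (fderiv ℝ (Vf X)) p u v = vop (fderiv ℝ (fderiv ℝ (fderiv ℝ X)) p u v) :=
    cm_L2_apply (vop (k := k) (m := m) (n := n)) (hX.fderiv_right (m := ∞) (by simp)) p u v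
  rw [h1, h2, inner_vop]

theorem continuous_Vw (hX : ContDiff ℝ ∞ X) :
    Continuous fun q : E n × (E k × E m) => Vw X q.1 q.2 := cm_cont0 (Vf_contDiff hX)

theorem continuous_Mw (hX : ContDiff ℝ ∞ X) :
    Continuous fun q : E n × (E k × E m) => fderiv ℝ (Vw X q.1) q.2 := cm_cont1 (Vf_contDiff hX)

theorem continuous_V2 (hX : ContDiff ℝ ∞ X) :
    Continuous fun q : E n × (E k × E m) => fderiv ℝ (fderiv ℝ (Vw X q.1)) q.2 :=
  cm_cont2 (Vf_contDiff hX)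

/-- **Compactness for a smooth chart.** -/
theorem comp (hX : ContDiff ℝ ∞ X) {p0 : E k × E m} (hinj : Injective (fderiv ℝ X p0))
    (hH : HX X p0) :
    ∃ κ : ℝ, 0 < κ ∧ κ ≤ 1 ∧ ∀ (p : E k × E m) (w : E n), ‖p - p0‖ ≤ κ → 1 / 4 ≤ ‖w‖ → ‖w‖ ≤ 8 →
      ‖Vw X w p‖ ≤ κ → (∀ u, κ * ‖u‖ ≤ ‖fderiv ℝ X p u‖) ∧
      ∀ u v, ‖fderiv ℝ (Vw X w) p u‖ ≤ κ * ‖u‖ → ‖fderiv ℝ (Vw X w) p v‖ ≤ κ * ‖v‖ → ∀ d,
        κ * (‖u‖ * ‖v‖ + ‖d‖) ≤ ‖fderiv ℝ X p d + fderiv ℝ (fderiv ℝ X) p u v‖ +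
          ‖fderiv ℝ (Vw X w) p d + fderiv ℝ (fderiv ℝ (Vw X w)) p u v‖ :=
  h0 (V := fun w p => Vw X w p) (M := fun w p => fderiv ℝ (Vw X w) p)
    (V2 := fun w p => fderiv ℝ (fderiv ℝ (Vw X w)) p) (A := fderiv ℝ X)
    (A2 := fderiv ℝ (fderiv ℝ X)) (continuous_Vw hX) (continuous_Mw hX) (continuous_V2 hX)
    (hX.fderiv_right (m := ∞) (by simp)).continuous
    ((hX.fderiv_right (m := ∞) (by simp)).fderiv_right (m := ∞) (by simp)).continuous
    hinj hH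

end Smooth

end Pool.Agent.LFK
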