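import Mathlib

/-!
[LEAFK] row H0: compactness. Everything is abstract: `V w p` is the vector `V_w(p)`, `M w p` its
derivative, `V2 w p` its second derivative, `A p = DX(p)`, `A2 p = D²X(p)`.
-/

set_option autoImplicit false

namespace Pool.Agent.LFK

open Set Filter Topology Function

/-- On a compact set: if `g > 0` wherever `f = 0` (`f ≥ 0`), then `g ≥ κ` wherever `f ≤ κ`. -/
theorem compact_pos {Y : Type*} [TopologicalSpace Y] {K : Set Y} (hK : IsCompact K)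
    {f g : Y → ℝ} (hf : ContinuousOn f K) (hg : ContinuousOn g K) (hf0 : ∀ y ∈ K, 0 ≤ f y)
    (h : ∀ y ∈ K, f y = 0 → 0 < g y) :
    ∃ κ : ℝ, 0 < κ ∧ ∀ y ∈ K, f y ≤ κ → κ ≤ g y := by
  rcases K.eq_empty_or_nonempty with rfl | hne
  · exact ⟨1, one_pos, fun y hy => absurd hy (notMem_empty y)⟩
  have hmax : ContinuousOn (fun y => max (f y) (g y)) K := hf.sup hg
  obtain ⟨y0, hy0, hmin⟩ := hK.exists_isMinOn hne hmax
  have hpos : 0 < max (f y0) (g y0) := by
    rcases eq_or_lt_of_le (hf0 y0 hy0) with h0 | h0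
    · exact lt_max_of_lt_right (h y0 hy0 h0.symm)
    · exact lt_max_of_lt_left h0
  refine ⟨max (f y0) (g y0) / 2, by positivity, fun y hy hfy => ?_⟩
  have h1 : max (f y0) (g y0) ≤ max (f y) (g y) := hmin hy
  rcases le_total (f y) (g y) with h2 | h2
  · rw [max_eq_right h2] at h1
    linarith
  · rw [max_eq_left h2] at h1
    linarith

variable {P W F : Type*} [NormedAddCommGroup P] [NormedSpace ℝ P] [FiniteDimensional ℝ P]
  [NormedAddCommGroup W] [NormedSpace ℝ W] [FiniteDimensional ℝ W]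
  [NormedAddCommGroup F] [NormedSpace ℝ F]

/-- Row H0. -/
theorem h0 {V : W → P → F} {M : W → P → P →L[ℝ] F} {V2 : W → P → P →L[ℝ] P →L[ℝ] F}
    {A : P → P →L[ℝ] W} {A2 : P → P →L[ℝ] P →L[ℝ] W}
    (hV : Continuous fun q : W × P => V q.1 q.2) (hM : Continuous fun q : W × P => M q.1 q.2)
    (hV2 : Continuous fun q : W × P => V2 q.1 q.2) (hA : Continuous A) (hA2 : Continuous A2)
    {p0 : P} (hinj : Injective (A p0))
    (hH : ∀ w, w ≠ 0 → V w p0 = 0 → ∀ u v, u ≠ 0 → v ≠ 0 → M w p0 u = 0 → M w p0 v = 0 →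
      ∀ d, ¬ (A p0 d + A2 p0 u v = 0 ∧ M w p0 d + V2 w p0 u v = 0)) :
    ∃ κ : ℝ, 0 < κ ∧ κ ≤ 1 ∧ ∀ p w, ‖p - p0‖ ≤ κ → 1 / 4 ≤ ‖w‖ → ‖w‖ ≤ 8 → ‖V w p‖ ≤ κ →
      (∀ u, κ * ‖u‖ ≤ ‖A p u‖) ∧
      ∀ u v, ‖M w p u‖ ≤ κ * ‖u‖ → ‖M w p v‖ ≤ κ * ‖v‖ → ∀ d,
        κ * (‖u‖ * ‖v‖ + ‖d‖) ≤ ‖A p d + A2 p u v‖ + ‖M w p d + V2 w p u v‖ := by
  have : ProperSpace P := FiniteDimensional.proper ℝ P
  have : ProperSpace W := FiniteDimensional.proper ℝ W
  -- lower bound of `A` near `p0`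
  obtain ⟨c0, hc0, hlow0⟩ : ∃ c0 : ℝ, 0 < c0 ∧ ∀ u, c0 * ‖u‖ ≤ ‖A p0 u‖ := by
    obtain ⟨K, hK0, hK⟩ := (A p0).toLinearMap.exists_antilipschitzWith
      (LinearMap.ker_eq_bot.2 hinj)
    refine ⟨(K : ℝ)⁻¹, inv_pos.2 (by exact_mod_cast hK0), fun u => ?_⟩
    have h1 := hK.le_mul_dist u 0
    simp only [dist_zero_right, map_zero, ContinuousLinearMap.coe_coe] at h1
    rw [inv_mul_le_iff₀ (by exact_mod_cast hK0)]
    exact h1
  obtain ⟨δ1, hδ1, hlow1⟩ : ∃ δ1 : ℝ, 0 < δ1 ∧ ∀ p, ‖p - p0‖ ≤ δ1 → ∀ u, c0 / 2 * ‖u‖ ≤ ‖A p u‖ := by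
    have h1 : ∀ᶠ p in 𝓝 p0, ‖A p - A p0‖ < c0 / 2 := by
      have h2 : Tendsto (fun p => ‖A p - A p0‖) (𝓝 p0) (𝓝 0) := by
        have := (hA.sub (continuous_const (y := A p0))).norm.tendsto p0
        simpa using this
      exact h2.eventually (gt_mem_nhds (by positivity))
    obtain ⟨ε, hε, h3⟩ := Metric.eventually_nhds_iff.1 h1
    refine ⟨ε / 2, by positivity, fun p hp u => ?_⟩
    have h4 : ‖A p - A p0‖ < c0 / 2 := h3 (by rw [dist_eq_norm]; linarith)
    have h5 : ‖(A p - A p0) u‖ ≤ c0 / 2 * ‖u‖ :=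
      ((A p - A p0).le_opNorm u).trans (mul_le_mul_of_nonneg_right h4.le (norm_nonneg u))
    have h6 := hlow0 u
    have h7 : A p0 u = A p u - (A p - A p0) u := by
      simp
    have h8 : ‖A p0 u‖ ≤ ‖A p u‖ + ‖(A p - A p0) u‖ := by
      rw [h7]
      exact norm_sub_le _ _
    linarith
  -- bound of `A2`
  obtain ⟨A0, hA0, hA2b⟩ : ∃ A0 : ℝ, 0 < A0 ∧ ∀ p, ‖p - p0‖ ≤ 1 → ∀ u v, ‖u‖ = 1 → ‖v‖ = 1 →
      ‖A2 p u v‖ ≤ A0 := by
    have cA2' : Continuous fun y : P × P × P => A2 y.1 y.2.1 y.2.2 :=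
      ((hA2.comp continuous_fst).clm_apply (by fun_prop)).clm_apply (by fun_prop)
    obtain ⟨C, hC⟩ := ((isCompact_closedBall p0 (1 : ℝ)).prod ((isCompact_sphere (0 : P) 1).prod
      (isCompact_sphere (0 : P) 1))).exists_bound_of_continuousOn cA2'.continuousOn
    refine ⟨max C 1, by positivity, fun p hp u v hu hv =>
      (hC (p, u, v) ?_).trans (le_max_left _ _)⟩
    simp only [mem_prod, Metric.mem_closedBall, mem_sphere_iff_norm, sub_zero, dist_eq_norm]
    exact ⟨hp, hu, hv⟩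
  -- the compact set
  set D : ℝ := 2 * (2 * A0 + 1) / c0 with hD
  have hD0 : 0 < D := by positivity
  let K : Set (P × W × P × P × P) := (Metric.closedBall p0 1) ×ˢ
    (Metric.closedBall (0 : W) 8 ∩ {w | 1 / 4 ≤ ‖w‖}) ×ˢ (Metric.sphere (0 : P) 1) ×ˢ
      (Metric.sphere (0 : P) 1) ×ˢ (Metric.closedBall (0 : P) D)
  have hK : IsCompact K := by
    refine (isCompact_closedBall _ _).prod (IsCompact.prod ?_ ((isCompact_sphere _ _).prod
      ((isCompact_sphere _ _).prod (isCompact_closedBall _ _))))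
    exact (isCompact_closedBall _ _).inter_right (isClosed_le continuous_const continuous_norm)
  let f : P × W × P × P × P → ℝ := fun y => ‖y.1 - p0‖ + ‖V y.2.1 y.1‖ + ‖M y.2.1 y.1 y.2.2.1‖ +
    ‖M y.2.1 y.1 y.2.2.2.1‖
  let g : P × W × P × P × P → ℝ := fun y => ‖A y.1 y.2.2.2.2 + A2 y.1 y.2.2.1 y.2.2.2.1‖ +
    ‖M y.2.1 y.1 y.2.2.2.2 + V2 y.2.1 y.1 y.2.2.1 y.2.2.2.1‖
  have cV : Continuous fun y : P × W × P × P × P => V y.2.1 y.1 :=
    hV.comp (by fun_prop : Continuous fun y : P × W × P × P × P => (y.2.1, y.1))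
  have cM : Continuous fun y : P × W × P × P × P => M y.2.1 y.1 :=
    hM.comp (by fun_prop : Continuous fun y : P × W × P × P × P => (y.2.1, y.1))
  have cV2 : Continuous fun y : P × W × P × P × P => V2 y.2.1 y.1 :=
    hV2.comp (by fun_prop : Continuous fun y : P × W × P × P × P => (y.2.1, y.1))
  have cA : Continuous fun y : P × W × P × P × P => A y.1 := hA.comp continuous_fst
  have cA2 : Continuous fun y : P × W × P × P × P => A2 y.1 := hA2.comp continuous_fst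
  have cu : Continuous fun y : P × W × P × P × P => y.2.2.1 := by fun_prop
  have cv : Continuous fun y : P × W × P × P × P => y.2.2.2.1 := by fun_prop
  have cd : Continuous fun y : P × W × P × P × P => y.2.2.2.2 := by fun_prop
  have hfc : Continuous f := by
    refine (((continuous_fst.sub continuous_const).norm.add cV.norm).add
      (cM.clm_apply cu).norm).add (cM.clm_apply cv).norm
  have hgc : Continuous g := by
    refine ((cA.clm_apply cd).add ((cA2.clm_apply cu).clm_apply cv)).norm.add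
      ((cM.clm_apply cd).add ((cV2.clm_apply cu).clm_apply cv)).norm
  obtain ⟨κ0, hκ0, hmain⟩ := compact_pos hK hfc.continuousOn hgc.continuousOn
    (fun y _ => by positivity) (by
      rintro ⟨p, w, u, v, d⟩ hy hf0
      simp only [K, mem_prod, Metric.mem_closedBall, mem_sphere_iff_norm, mem_inter_iff,
        mem_ofPred_eq, sub_zero, dist_zero_right] at hy
      obtain ⟨hp, ⟨hw8, hw4⟩, hu, hv, hd⟩ := hy
      simp only [f] at hf0
      have e1 : ‖p - p0‖ = 0 := by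
        linarith [norm_nonneg (p - p0), norm_nonneg (V w p), norm_nonneg (M w p u),
          norm_nonneg (M w p v)]
      have e2 : ‖V w p‖ = 0 := by
        linarith [norm_nonneg (p - p0), norm_nonneg (V w p), norm_nonneg (M w p u),
          norm_nonneg (M w p v)]
      have e3 : ‖M w p u‖ = 0 := by
        linarith [norm_nonneg (p - p0), norm_nonneg (V w p), norm_nonneg (M w p u),
          norm_nonneg (M w p v)]
      have e4 : ‖M w p v‖ = 0 := by
        linarith [norm_nonneg (p - p0), norm_nonneg (V w p), norm_nonneg (M w p u),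
          norm_nonneg (M w p v)]
      have hpp : p = p0 := sub_eq_zero.1 (norm_eq_zero.1 e1)
      subst hpp
      have hw0 : w ≠ 0 := by
        rintro rfl
        rw [norm_zero] at hw4
        linarith
      have hu0 : u ≠ 0 := by
        rintro rfl
        rw [norm_zero] at hu
        linarith
      have hv0 : v ≠ 0 := by
        rintro rfl
        rw [norm_zero] at hv
        linarith
      have h5 := hH w hw0 (norm_eq_zero.1 e2) u v hu0 hv0 (norm_eq_zero.1 e3)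
        (norm_eq_zero.1 e4) d
      by_contra hcon
      apply h5
      have h6 : ‖A p d + A2 p u v‖ + ‖M w p d + V2 w p u v‖ ≤ 0 := not_lt.1 hcon
      constructor
      · exact norm_eq_zero.1 (le_antisymm (by linarith [norm_nonneg (M w p d + V2 w p u v)])
          (norm_nonneg _))
      · exact norm_eq_zero.1 (le_antisymm (by linarith [norm_nonneg (A p d + A2 p u v)])
          (norm_nonneg _)))
  -- the constant
  set κ : ℝ := min (min (min 1 δ1) (min (c0 / 4) (1 / 2))) (min (κ0 / 4) (κ0 / (1 + D))) with hκ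
  have k1 : κ ≤ 1 := (min_le_left _ _).trans ((min_le_left _ _).trans (min_le_left _ _))
  have k2 : κ ≤ δ1 := (min_le_left _ _).trans ((min_le_left _ _).trans (min_le_right _ _))
  have k3 : κ ≤ c0 / 4 := (min_le_left _ _).trans ((min_le_right _ _).trans (min_le_left _ _))
  have k4 : κ ≤ 1 / 2 := (min_le_left _ _).trans ((min_le_right _ _).trans (min_le_right _ _))
  have k5 : κ ≤ κ0 / 4 := (min_le_right _ _).trans (min_le_left _ _)
  have k6 : κ ≤ κ0 / (1 + D) := (min_le_right _ _).trans (min_le_right _ _)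
  have k0 : 0 < κ := by
    refine lt_min (lt_min (lt_min one_pos hδ1) (lt_min (by positivity) (by positivity)))
      (lt_min (by positivity) (by positivity))
  -- the statement for unit vectors
  have hunit : ∀ p w, ‖p - p0‖ ≤ κ → 1 / 4 ≤ ‖w‖ → ‖w‖ ≤ 8 → ‖V w p‖ ≤ κ → ∀ u v, ‖u‖ = 1 →
      ‖v‖ = 1 → ‖M w p u‖ ≤ κ → ‖M w p v‖ ≤ κ → ∀ d,
        κ * (1 + ‖d‖) ≤ ‖A p d + A2 p u v‖ + ‖M w p d + V2 w p u v‖ := by
    intro p w hp hw4 hw8 hVw u v hu hv hMu hMv d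
    rcases le_or_gt ‖d‖ D with hd | hd
    · have h1 := hmain (p, w, u, v, d) (by
        simp only [K, mem_prod, Metric.mem_closedBall, mem_sphere_iff_norm, mem_inter_iff,
          mem_ofPred_eq, sub_zero, dist_zero_right, dist_eq_norm]
        exact ⟨hp.trans k1, ⟨hw8, hw4⟩, hu, hv, hd⟩) (by
        simp only [f]
        linarith)
      simp only [g] at h1
      refine le_trans ?_ h1
      have h2 : κ * (1 + D) ≤ κ0 := by
        rw [← le_div_iff₀ (by positivity)]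
        exact k6
      nlinarith
    · have h1 : c0 / 2 * ‖d‖ ≤ ‖A p d‖ := hlow1 p (hp.trans k2) d
      have h2 : ‖A2 p u v‖ ≤ A0 := hA2b p (hp.trans k1) u v hu hv
      have h3 : ‖A p d‖ - ‖A2 p u v‖ ≤ ‖A p d + A2 p u v‖ := by
        have := norm_sub_le (A p d + A2 p u v) (A2 p u v)
        rw [add_sub_cancel_right] at this
        linarith
      have h4 : c0 * D = 2 * (2 * A0 + 1) := by
        rw [hD]
        field_simp
      have h5 : c0 * D < c0 * ‖d‖ := mul_lt_mul_of_pos_left hd hc0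
      have h6 : κ * ‖d‖ ≤ c0 / 4 * ‖d‖ := mul_le_mul_of_nonneg_right k3 (norm_nonneg d)
      have h7 := norm_nonneg (M w p d + V2 w p u v)
      nlinarith
  refine ⟨κ, k0, k1, fun p w hp hw4 hw8 hVw => ⟨fun u => ?_, fun u v hMu hMv d => ?_⟩⟩
  · refine le_trans ?_ (hlow1 p (hp.trans k2) u)
    exact mul_le_mul_of_nonneg_right (by linarith) (norm_nonneg u)
  · -- homogeneity
    rcases eq_or_ne u 0 with rfl | hu0
    · have h1 : c0 / 2 * ‖d‖ ≤ ‖A p d‖ := hlow1 p (hp.trans k2) d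
      have h2 : κ * ‖d‖ ≤ c0 / 4 * ‖d‖ := mul_le_mul_of_nonneg_right k3 (norm_nonneg d)
      simp only [map_zero, zero_apply, add_zero, norm_zero, zero_mul, zero_add]
      have h3 := norm_nonneg (M w p d)
      nlinarith [norm_nonneg d]
    rcases eq_or_ne v 0 with rfl | hv0
    · have h1 : c0 / 2 * ‖d‖ ≤ ‖A p d‖ := hlow1 p (hp.trans k2) d
      have h2 : κ * ‖d‖ ≤ c0 / 4 * ‖d‖ := mul_le_mul_of_nonneg_right k3 (norm_nonneg d)
      simp only [map_zero, add_zero, norm_zero, mul_zero, zero_add]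
      have h3 := norm_nonneg (M w p d)
      nlinarith [norm_nonneg d]
    have hu : 0 < ‖u‖ := norm_pos_iff.2 hu0
    have hv : 0 < ‖v‖ := norm_pos_iff.2 hv0
    have hs : ‖(‖u‖⁻¹ • u)‖ = 1 := by
      rw [norm_smul, norm_inv, norm_norm, inv_mul_cancel₀ hu.ne']
    have ht : ‖(‖v‖⁻¹ • v)‖ = 1 := by
      rw [norm_smul, norm_inv, norm_norm, inv_mul_cancel₀ hv.ne']
    have hMs : ‖M w p (‖u‖⁻¹ • u)‖ ≤ κ := by
      rw [map_smul, norm_smul, norm_inv, norm_norm, inv_mul_le_iff₀ hu, mul_comm]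
      exact hMu
    have hMt : ‖M w p (‖v‖⁻¹ • v)‖ ≤ κ := by
      rw [map_smul, norm_smul, norm_inv, norm_norm, inv_mul_le_iff₀ hv, mul_comm]
      exact hMv
    have h1 := hunit p w hp hw4 hw8 hVw _ _ hs ht hMs hMt ((‖u‖⁻¹ * ‖v‖⁻¹) • d)
    have h2 : A p ((‖u‖⁻¹ * ‖v‖⁻¹) • d) + A2 p (‖u‖⁻¹ • u) (‖v‖⁻¹ • v) =
        (‖u‖⁻¹ * ‖v‖⁻¹) • (A p d + A2 p u v) := by
      simp only [map_smul, smul_apply, smul_add, smul_smul, mul_comm]
    have h3 : M w p ((‖u‖⁻¹ * ‖v‖⁻¹) • d) + V2 w p (‖u‖⁻¹ • u) (‖v‖⁻¹ • v) =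
        (‖u‖⁻¹ * ‖v‖⁻¹) • (M w p d + V2 w p u v) := by
      simp only [map_smul, smul_apply, smul_add, smul_smul, mul_comm]
    have hc : 0 < ‖u‖⁻¹ * ‖v‖⁻¹ := by positivity
    rw [h2, h3, norm_smul, norm_smul, norm_smul, Real.norm_of_nonneg hc.le, ← mul_add] at h1
    have h4 : (‖u‖ * ‖v‖) * (κ * (1 + ‖u‖⁻¹ * ‖v‖⁻¹ * ‖d‖)) ≤ (‖u‖ * ‖v‖) *
        (‖u‖⁻¹ * ‖v‖⁻¹ * (‖A p d + A2 p u v‖ + ‖M w p d + V2 w p u v‖)) :=
      mul_le_mul_of_nonneg_left h1 (by positivity)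
    have h5 : (‖u‖ * ‖v‖) * (κ * (1 + ‖u‖⁻¹ * ‖v‖⁻¹ * ‖d‖)) = κ * (‖u‖ * ‖v‖ + ‖d‖) := by
      field_simp
    have h6 : (‖u‖ * ‖v‖) *
        (‖u‖⁻¹ * ‖v‖⁻¹ * (‖A p d + A2 p u v‖ + ‖M w p d + V2 w p u v‖)) =
        ‖A p d + A2 p u v‖ + ‖M w p d + V2 w p u v‖ := by
      field_simp
    rw [h5, h6] at h4
    exact h4

end Pool.Agent.LFK
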