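import Pool.Agent.LFK.KAK2
import Pool.Agent.LFK.H0

/-!
The frame: the gradient of `ξ · X` and `ξ · X` together control `ξ`.
-/

set_option autoImplicit false

namespace Pool.Agent.LFK

open Set Filter Topology Function Module Pool.Agent.MP_6cbfb8_an
open scoped RealInnerProductSpace ContDiff

/-- **The frame.** -/
theorem frame {k m n : ℕ} (hn : n = k + m + 1) {X : E k × E m → E n} (hX : ContDiff ℝ ∞ X)
    {p0 : E k × E m} (himm : Injective (fderiv ℝ X p0)) {δ0 : ℝ} (hδ0 : 0 < δ0)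
    (h1 : ∀ p, ‖p - p0‖ ≤ δ0 → ‖X p‖ = 1) :
    ∃ c : ℝ, 0 < c ∧ c ≤ 1 ∧ ∀ p, ‖p - p0‖ ≤ c → ∀ ξ : E n,
      c * ‖ξ‖ ≤ |⟪ξ, X p⟫| + ‖Gw X ξ p‖ := by
  have hX0 : ‖X p0‖ = 1 := h1 p0 (by simp [hδ0.le])
  -- the tangent plane is orthogonal to `X p0`
  have hperp : ∀ u, ⟪X p0, fderiv ℝ X p0 u⟫ = 0 := fun u => by
    have hd : HasFDerivAt X (fderiv ℝ X p0) p0 := (hX.differentiable (by simp) p0).hasFDerivAt
    have h2 := hd.inner ℝ hd
    have h3 : (fun p => ⟪X p, X p⟫) =ᶠ[𝓝 p0] fun _ => (1 : ℝ) := by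
      refine (Metric.eventually_nhds_iff.2 ⟨δ0, hδ0, fun y hy => ?_⟩)
      simp only
      rw [real_inner_self_eq_norm_sq, h1 y (by rw [← dist_eq_norm]; exact hy.le), one_pow]
    have h4 : HasFDerivAt (fun p => ⟪X p, X p⟫) (0 : (E k × E m) →L[ℝ] ℝ) p0 :=
      (hasFDerivAt_const (1 : ℝ) p0).congr_of_eventuallyEq h3
    have h5 := congrArg (fun L : (E k × E m) →L[ℝ] ℝ => L u) (h2.unique h4)
    simp only [ContinuousLinearMap.comp_apply, ContinuousLinearMap.prod_apply,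
      fderivInnerCLM_apply, zero_apply] at h5
    rw [real_inner_comm (fderiv ℝ X p0 u)] at h5
    linarith [real_inner_comm (X p0) (fderiv ℝ X p0 u)]
  set L : (ℝ × (E k × E m)) →ₗ[ℝ] E n :=
    { toFun := fun x => x.1 • X p0 + fderiv ℝ X p0 x.2
      map_add' := fun x y => by
        rw [Prod.fst_add, Prod.snd_add, add_smul, map_add]; abel
      map_smul' := fun a x => by
        rw [Prod.smul_fst, Prod.smul_snd, map_smul, smul_add, smul_assoc, RingHom.id_apply] } with hL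
  have hinj : Injective L := by
    rw [← LinearMap.ker_eq_bot, LinearMap.ker_eq_bot']
    intro x hx
    have hx' : x.1 • X p0 + fderiv ℝ X p0 x.2 = 0 := hx
    have h2 := congrArg (fun y => ⟪X p0, y⟫) hx'
    simp only [inner_add_right, inner_smul_right, inner_zero_right, hperp] at h2
    rw [real_inner_self_eq_norm_sq, hX0] at h2
    have h3 : x.1 = 0 := by linarith
    rw [h3, zero_smul, zero_add] at hx'
    have h4 : x.2 = 0 := himm (by rw [hx', map_zero])
    exact Prod.ext h3 h4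
  have hdim : finrank ℝ (ℝ × (E k × E m)) = finrank ℝ (E n) := by
    simp only [Module.finrank_prod, Module.finrank_self, finrank_euclideanSpace,
      Fintype.card_fin]
    omega
  have hsurj : Surjective L :=
    (LinearMap.injective_iff_surjective_of_finrank_eq_finrank hdim).1 hinj
  have hGc : Continuous fun x : E n × (E k × E m) => Gw X x.1 x.2 :=
    (kak_contTw hX).prodMk (kak_contVw hX)
  have hF : Continuous fun x : E n × (E k × E m) => |⟪x.1, X x.2⟫| + ‖Gw X x.1 x.2‖ :=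
    (continuous_fst.inner (hX.continuous.comp continuous_snd)).abs.add hGc.norm
  have hf : Continuous fun x : E n × (E k × E m) => ‖x.2 - p0‖ := by fun_prop
  obtain ⟨κ, hκ, h⟩ := compact_pos (K := (Metric.sphere (0 : E n) 1) ×ˢ
    (Metric.closedBall p0 1)) ((isCompact_sphere _ _).prod (isCompact_closedBall _ _))
    hf.continuousOn hF.continuousOn (fun y _ => norm_nonneg _) (fun y hy h0 => by
      obtain ⟨hy1, hy2⟩ := hy
      have hy3 : y.2 = p0 := sub_eq_zero.1 (norm_eq_zero.1 h0)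
      rw [mem_sphere_zero_iff_norm] at hy1
      simp only [hy3]
      by_contra h0
      have p1 := abs_nonneg ⟪y.1, X p0⟫
      have p2 := norm_nonneg (Gw X y.1 p0)
      have q1 : ⟪y.1, X p0⟫ = 0 := abs_eq_zero.1 (by linarith)
      have q2 : Gw X y.1 p0 = 0 := norm_eq_zero.1 (by linarith)
      obtain ⟨x, hx⟩ := hsurj y.1
      have hx' : x.1 • X p0 + fderiv ℝ X p0 x.2 = y.1 := hx
      have q4 : Tw X y.1 p0 = 0 := congrArg Prod.fst q2
      have q5 : Vw X y.1 p0 = 0 := congrArg Prod.snd q2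
      have q3 : ⟪y.1, fderiv ℝ X p0 x.2⟫ = 0 := by
        have q6 : ⟪y.1, fderiv ℝ X p0 (x.2.1, 0)⟫ = 0 := by
          have q7 : ⟪Tw X y.1 p0, x.2.1⟫ = ⟪y.1, fderiv ℝ X p0 (x.2.1, 0)⟫ := by
            rw [Tw, ContinuousLinearMap.adjoint_inner_left]
            rfl
          rw [← q7, q4, inner_zero_left]
        have q8 : ⟪y.1, fderiv ℝ X p0 (0, x.2.2)⟫ = 0 := by
          have q7 : ⟪Vw X y.1 p0, x.2.2⟫ = ⟪y.1, fderiv ℝ X p0 (0, x.2.2)⟫ := by
            rw [Vw, ContinuousLinearMap.adjoint_inner_left]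
            rfl
          rw [← q7, q5, inner_zero_left]
        have q9 : x.2 = (x.2.1, 0) + (0, x.2.2) := by simp
        rw [q9, map_add, inner_add_right, q6, q8, add_zero]
      have h2 : ⟪y.1, y.1⟫ = 0 := by
        calc ⟪y.1, y.1⟫ = ⟪y.1, x.1 • X p0 + fderiv ℝ X p0 x.2⟫ := by rw [hx']
          _ = 0 := by rw [inner_add_right, inner_smul_right, q3, q1, mul_zero, add_zero]
      rw [real_inner_self_eq_norm_sq, hy1] at h2
      norm_num at h2)
  refine ⟨min κ 1, lt_min hκ one_pos, min_le_right _ _, fun p hp ξ => ?_⟩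
  rcases eq_or_ne ξ 0 with rfl | hξ
  · rw [norm_zero, mul_zero]
    positivity
  have hξ' : 0 < ‖ξ‖ := norm_pos_iff.2 hξ
  have h7 := h (‖ξ‖⁻¹ • ξ, p) ⟨by
    rw [mem_sphere_zero_iff_norm, norm_smul, norm_inv, norm_norm, inv_mul_cancel₀ hξ'.ne'], by
    rw [mem_closedBall_iff_norm]
    exact hp.trans (min_le_right _ _)⟩ (hp.trans (min_le_left _ _))
  simp only at h7
  have h8 : Gw X (‖ξ‖⁻¹ • ξ) p = ‖ξ‖⁻¹ • Gw X ξ p := by
    rw [Gw, Gw, Tw, Vw, map_smul, map_smul, Prod.smul_mk]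
    rfl
  rw [inner_smul_left, h8, norm_smul, abs_mul, norm_inv, norm_norm] at h7
  have h9 : |(starRingEnd ℝ) ‖ξ‖⁻¹| = ‖ξ‖⁻¹ := by
    simp
  rw [h9, ← mul_add, inv_mul_eq_div, le_div_iff₀ hξ'] at h7
  exact (mul_le_mul_of_nonneg_right (min_le_left _ _) (norm_nonneg _)).trans h7

end Pool.Agent.LFK
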