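import Pool.Agent.LFK.Df0

/-!
The statement about one pair of points of `R^k`, off the diagonal.
-/

set_option autoImplicit false

namespace Pool.Agent.LFK

open MeasureTheory Set Pool.Agent.MP_6cbfb8_an
open scoped ENNReal Real

/-- The pairs at distance about `ρ` at which both gradients are small. -/
def kS {k m n : ℕ} (X : E k × E m → E n) (t t' : E k) (ρ Λ : ℝ) : Set (E n × E m × E m) :=
  {x | ρ ≤ ‖((t, x.2.1) : E k × E m) - (t', x.2.2)‖ ∧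
    ‖((t, x.2.1) : E k × E m) - (t', x.2.2)‖ ≤ 2 * ρ ∧ ‖Vw X x.1 (t, x.2.1)‖ ≤ Λ ∧
    ‖Vw X x.1 (t', x.2.2)‖ ≤ Λ}

/-- The estimate of one pair of points `t`, `t'`, off the diagonal. -/
def Kak1 {k m n : ℕ} (X : E k × E m → E n) (p0 : E k × E m) (δ C0 : ℝ) : Prop :=
  ∃ C : ℝ, 0 < C ∧ ∀ R Λ ρ : ℝ, 1 ≤ R → √R ≤ Λ → 0 < ρ → 2 * C0 * Λ ≤ R * ρ → ∀ t t' : E k,
    ‖t - p0.1‖ ≤ δ → ‖t' - p0.1‖ ≤ δ → ∀ g g' : E k → ℝ≥0∞, Measurable g → Measurable g' →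
    ∫⁻ τ, g τ ≤ ENNReal.ofReal (√R ^ k)⁻¹ → ∫⁻ τ, g' τ ≤ ENNReal.ofReal (√R ^ k)⁻¹ →
    ∫⁻ ξ in {ξ : E n | R / 2 ≤ ‖ξ‖ ∧ ‖ξ‖ ≤ 4 * R}, ∫⁻ z in Metric.closedBall p0.2 δ,
      ∫⁻ z' in Metric.closedBall p0.2 δ, (kS X t t' ρ Λ).indicator 1 (ξ, z, z') *
        (g (Tw X ξ (t, z)) * g' (Tw X ξ (t', z'))) ≤
      ENNReal.ofReal (C * (Λ / √R) ^ (2 * m) * R * ((R ^ 2 * ρ) ^ k)⁻¹)

end Pool.Agent.LFK
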