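import Pool.Agent.LFK.KAKkb
import Pool.Agent.LFK.KDf

/-!
The integral over one pair of points of `R^k`, off the diagonal.
-/

set_option autoImplicit false
set_option maxSynthPendingDepth 3

namespace Pool.Agent.LFK

open MeasureTheory Set Module Pool.Agent.MP_6cbfb8_an Pool.Agent.GNP Pool.Agent.GNP.LF
open scoped ENNReal NNReal Real RealInnerProductSpace ContDiff

theorem kkh1 (a b : ℕ) : (volume : Measure (E a × E b)).IsAddHaarMeasure := by
  rw [Measure.volume_eq_prod]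
  infer_instance

theorem kkh3 (a b c : ℕ) : (volume : Measure (E a × E b × E c)).IsAddHaarMeasure := by
  have h1 := kkh1 b c
  exact Measure.prod.instIsAddHaarMeasure (volume : Measure (E a)) (volume : Measure (E b × E c))

theorem kkh4 (a b c d : ℕ) : (volume : Measure ((E a × E b) × (E c × E d))).IsAddHaarMeasure := by
  have h1 := kkh1 a b
  have h2 := kkh1 c d
  exact Measure.prod.instIsAddHaarMeasure (volume : Measure (E a × E b))
    (volume : Measure (E c × E d))

/-- Scaling of an integral. -/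
theorem kk_smul {V : Type*} [NormedAddCommGroup V] [NormedSpace ℝ V] [FiniteDimensional ℝ V]
    [MeasurableSpace V] [BorelSpace V] (μ : Measure V) [μ.IsAddHaarMeasure] {r : ℝ} (hr : 0 < r)
    (a : V) (h : V → ℝ≥0∞) : ∫⁻ x, h x ∂μ =
      ENNReal.ofReal (r ^ finrank ℝ V) * ∫⁻ x, h (a + r • x) ∂μ := by
  have h1 : ∫⁻ x, h (a + x) ∂μ = ∫⁻ x, h x ∂μ := lintegral_add_left_eq_self _ _
  have h2 : ∫⁻ x, h (a + r • x) ∂μ = ∫⁻ x, h (a + x) ∂(Measure.map (r • ·) μ) :=
    ((Homeomorph.smulOfNeZero r hr.ne').measurableEmbedding.lintegral_map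
      (fun x => h (a + x))).symm
  rw [h2, Measure.map_addHaar_smul μ hr.ne', lintegral_smul_measure, h1, smul_eq_mul, ← mul_assoc,
    ← ENNReal.ofReal_mul (by positivity), abs_of_pos (by positivity),
    mul_inv_cancel₀ (by positivity), ENNReal.ofReal_one, one_mul]

/-- One function of `k` variables, localised in the other variables. -/
noncomputable def kkG (k m : ℕ) (Λ : ℝ) (g : E k → ℝ≥0∞) (u : E k × E m) : ℝ≥0∞ :=
  g u.1 * (Metric.closedBall (0 : E m) Λ).indicator 1 u.2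

theorem kkG_meas (k m : ℕ) (Λ : ℝ) {g : E k → ℝ≥0∞} (hg : Measurable g) :
    Measurable (kkG k m Λ g) := by
  refine (hg.comp measurable_fst).mul ?_
  exact ((measurable_const (a := (1 : ℝ≥0∞))).indicator
    Metric.isClosed_closedBall.measurableSet).comp measurable_snd

theorem kkG_int (k m : ℕ) {Λ : ℝ} (hΛ : 0 ≤ Λ) {g : E k → ℝ≥0∞} (hg : Measurable g) :
    ∫⁻ u, kkG k m Λ g u = (∫⁻ τ, g τ) *
      (ENNReal.ofReal (Λ ^ m) * volume (Metric.ball (0 : E m) 1)) := by
  have h1 : ∫⁻ u, kkG k m Λ g u = (∫⁻ τ, g τ) *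
      ∫⁻ b : E m, (Metric.closedBall (0 : E m) Λ).indicator 1 b := by
    rw [Measure.volume_eq_prod]
    exact lintegral_prod_mul (μ := volume) (ν := volume) (f := g)
      (g := (Metric.closedBall (0 : E m) Λ).indicator 1) hg.aemeasurable
      ((measurable_const (a := (1 : ℝ≥0∞))).indicator
        Metric.isClosed_closedBall.measurableSet).aemeasurable
  rw [h1, lintegral_indicator_one Metric.isClosed_closedBall.measurableSet,
    Measure.addHaar_closedBall _ _ hΛ, finrank_euclideanSpace_fin]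

theorem kkG_of_le {k m : ℕ} {Λ : ℝ} (g : E k → ℝ≥0∞) {u : E k × E m} (hu : ‖u.2‖ ≤ Λ) :
    kkG k m Λ g u = g u.1 := by
  rw [kkG, indicator_of_mem (mem_closedBall_zero_iff.2 hu)]
  simp

section meas

variable {k m n : ℕ} {X : E k × E m → E n}

theorem kk_contGw (hX : ContDiff ℝ ∞ X) :
    Continuous fun x : E n × (E k × E m) => Gw X x.1 x.2 := by
  have h1 : Continuous (fderiv ℝ X) := hX.continuous_fderiv (by simp)
  have h2 : Continuous fun x : E n × (E k × E m) => Lk k m n (fderiv ℝ X x.2) :=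
    (Lk k m n).continuous.comp (h1.comp continuous_snd)
  exact h2.clm_apply continuous_fst

theorem kk_contVw (hX : ContDiff ℝ ∞ X) :
    Continuous fun x : E n × (E k × E m) => Vw X x.1 x.2 :=
  continuous_snd.comp (kk_contGw hX)

theorem kk_contTw (hX : ContDiff ℝ ∞ X) :
    Continuous fun x : E n × (E k × E m) => Tw X x.1 x.2 :=
  continuous_fst.comp (kk_contGw hX)

theorem kkS_meas (hX : ContDiff ℝ ∞ X) (t t' : E k) (ρ Λ : ℝ) :
    MeasurableSet (kS X t t' ρ Λ) := by
  have h1 : Continuous fun x : E n × E m × E m => Vw X x.1 (t, x.2.1) :=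
    (kk_contVw hX).comp (g := fun x => Vw X x.1 x.2)
      (f := fun x : E n × E m × E m => (x.1, (t, x.2.1))) (by fun_prop)
  have h2 : Continuous fun x : E n × E m × E m => Vw X x.1 (t', x.2.2) :=
    (kk_contVw hX).comp (g := fun x => Vw X x.1 x.2)
      (f := fun x : E n × E m × E m => (x.1, (t', x.2.2))) (by fun_prop)
  have h3 : Continuous fun x : E n × E m × E m =>
      ‖((t, x.2.1) : E k × E m) - (t', x.2.2)‖ := by fun_prop
  exact ((measurableSet_le measurable_const h3.measurable).inter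
    ((measurableSet_le h3.measurable measurable_const).inter
      ((measurableSet_le h1.norm.measurable measurable_const).inter
        (measurableSet_le h2.norm.measurable measurable_const))))

end meas

theorem kkGw_smul {k m n : ℕ} (X : E k × E m → E n) (r : ℝ) (w : E n) (p : E k × E m) :
    Gw X (r • w) p = r • Gw X w p := by
  rw [← Lk_Gw, ← Lk_Gw, map_smul]

/-- **One pair of points, off the diagonal.** -/
theorem kak1k {k m n : ℕ} (hn : n = k + m + 1) {X : E k × E m → E n} (hX : ContDiff ℝ ∞ X)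
    (A : ℕ → ℝ) (hA : ∀ j p, ‖iteratedFDeriv ℝ j X p‖ ≤ A j) {p0 : E k × E m} {δ c C0 : ℝ}
    (hδ1 : δ ≤ 1 / 4) (hc : 0 < c) (hT : Trk X p0 δ c C0) :
    ∃ C : ℝ, 0 < C ∧ ∀ R Λ ρ : ℝ, 0 < R → 0 ≤ Λ → 0 < ρ → C0 * Λ ≤ R * ρ → ∀ t t' : E k,
      ‖t - p0.1‖ ≤ δ → ‖t' - p0.1‖ ≤ δ → ∀ g g' : E k → ℝ≥0∞, Measurable g → Measurable g' →
      ∫⁻ ξ in {ξ : E n | R / 2 ≤ ‖ξ‖ ∧ ‖ξ‖ ≤ 4 * R}, ∫⁻ z in Metric.closedBall p0.2 δ,
        ∫⁻ z' in Metric.closedBall p0.2 δ, (kS X t t' ρ Λ).indicator 1 (ξ, z, z') *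
          (g (Tw X ξ (t, z)) * g' (Tw X ξ (t', z'))) ≤
        ENNReal.ofReal (C * (Λ / √R) ^ (2 * m) * R * ((R * ρ) ^ k)⁻¹) *
          ((∫⁻ τ, g τ) * ∫⁻ τ, g' τ) := by
  -- one bound for all derivatives
  set A0 : ℝ := ∑ j ∈ Finset.range 5, |A j| with hA0
  have hA' : ∀ i p, i ≤ 4 → ‖iteratedFDeriv ℝ i X p‖ ≤ A0 := by
    intro i p hi
    refine (hA i p).trans ((le_abs_self _).trans ?_)
    exact Finset.single_le_sum (f := fun j => |A j|) (fun j _ => abs_nonneg _)
      (Finset.mem_range.2 (by omega))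
  have hh3 := kkh3 n m m
  have hh4 := kkh4 k m k m
  have hh1 := kkh1 k m
  obtain ⟨C1, hC1⟩ := subm_cover (volume : Measure (E n × E m × E m))
    (volume : Measure ((E k × E m) × (E k × E m))) (c / 6) (30 * A0) 4 (by positivity)
  set om : ℝ≥0∞ := volume (Metric.ball (0 : E m) 1) with hom
  have homf : om ≠ ⊤ := measure_ball_lt_top.ne
  refine ⟨C1 * (om.toReal * om.toReal) + 1, by positivity, ?_⟩
  intro R Λ ρ hR hΛ hρ hC0 t t' ht ht' g g' hg hg'
  set B : Set (E m) := Metric.closedBall p0.2 δ with hB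
  have hBm : MeasurableSet B := Metric.isClosed_closedBall.measurableSet
  have hmem : ∀ s : E k, ‖s - p0.1‖ ≤ δ → ∀ z ∈ B, ‖((s, z) : E k × E m) - p0‖ ≤ δ := by
    intro s hs z hz
    rw [Prod.norm_def]
    refine max_le hs ?_
    rw [hB, mem_closedBall_iff_norm] at hz
    exact hz
  set Ann : Set (E n) := {ξ | R / 2 ≤ ‖ξ‖ ∧ ‖ξ‖ ≤ 4 * R} with hAnn
  have hAm : MeasurableSet Ann := (measurableSet_le measurable_const measurable_norm).inter
    (measurableSet_le measurable_norm measurable_const)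
  by_cases hcase : ρ ≤ 1 ∧ ‖t' - t‖ ≤ 2 * ρ
  swap
  · have h0 : ∀ ξ, ∀ z ∈ B, ∀ z' ∈ B, (kS X t t' ρ Λ).indicator 1 (ξ, z, z') *
        (g (Tw X ξ (t, z)) * g' (Tw X ξ (t', z'))) = 0 := by
      intro ξ z hz z' hz'
      have h4 : (ξ, z, z') ∉ kS X t t' ρ Λ := by
        intro h5
        have h6 : ρ ≤ ‖((t, z) : E k × E m) - (t', z')‖ := h5.1
        have h6' : ‖((t, z) : E k × E m) - (t', z')‖ ≤ 2 * ρ := h5.2.1
        have h7 := norm_sub_le_norm_sub_add_norm_sub ((t, z) : E k × E m) p0 (t', z')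
        have h8 := hmem t ht z hz
        have h9 := hmem t' ht' z' hz'
        rw [norm_sub_rev] at h9
        refine hcase ⟨by linarith, ?_⟩
        have h10 : ‖t - t'‖ ≤ ‖((t, z) : E k × E m) - (t', z')‖ :=
          norm_fst_le (((t, z) : E k × E m) - (t', z'))
        rw [norm_sub_rev]
        linarith
      rw [indicator_of_notMem h4, zero_mul]
    have h4 : ∫⁻ ξ in Ann, ∫⁻ z in B, ∫⁻ z' in B, (kS X t t' ρ Λ).indicator 1 (ξ, z, z') *
        (g (Tw X ξ (t, z)) * g' (Tw X ξ (t', z'))) = ∫⁻ ξ in Ann, ∫⁻ z in B, ∫⁻ z' in B, 0 :=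
      lintegral_congr fun ξ => setLIntegral_congr_fun hBm fun z hz =>
        setLIntegral_congr_fun hBm fun z' hz' => h0 ξ z hz z' hz'
    rw [h4]
    simp
  obtain ⟨hρ1, htt⟩ := hcase
  set S : Set (E n × E m × E m) :=
    {x | x.1 ∈ Ann ∧ x.2.1 ∈ B ∧ x.2.2 ∈ B ∧ x ∈ kS X t t' ρ Λ} with hS
  have hSm : MeasurableSet S := by
    refine (measurable_fst hAm).inter ((measurable_snd.fst hBm).inter
      ((measurable_snd.snd hBm).inter (kkS_meas hX t t' ρ Λ)))
  set F : E n × E m × E m → ℝ≥0∞ := S.indicator (fun x => g (Tw X x.1 (t, x.2.1)) *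
    g' (Tw X x.1 (t', x.2.2))) with hF
  set hh : (E k × E m) × (E k × E m) → ℝ≥0∞ := fun q =>
    kkG k m Λ g (R • q.1) * kkG k m Λ g' (R • q.1 + (R * ρ) • q.2) with hhdef
  set G : Set (E n × E m × E m) := {x | (R • x.1, x.2.1, x.2.1 + ρ • x.2.2) ∈ S} with hG
  have hGm : MeasurableSet G := by
    have h4 : Continuous fun x : E n × E m × E m => (R • x.1, x.2.1, x.2.1 + ρ • x.2.2) := by
      fun_prop
    exact h4.measurable hSm
  have hhm : Measurable hh := by
    refine Measurable.mul ?_ ?_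
    · exact (kkG_meas k m Λ hg).comp (by fun_prop)
    · exact (kkG_meas k m Λ hg').comp (by fun_prop)
  have hHc : Continuous (DGk X t t' ρ) := continuous_iff_continuousAt.2 fun x =>
    (DGk_deriv hX t t' hρ x).continuousAt
  -- the integral as the integral of `F`
  have e0 : ∫⁻ ξ in Ann, ∫⁻ z in B, ∫⁻ z' in B, (kS X t t' ρ Λ).indicator 1 (ξ, z, z') *
      (g (Tw X ξ (t, z)) * g' (Tw X ξ (t', z'))) = ∫⁻ ξ, ∫⁻ z, ∫⁻ z', F (ξ, z, z') := by
    rw [← lintegral_indicator hAm]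
    refine lintegral_congr fun ξ => ?_
    by_cases hξ : ξ ∈ Ann
    · rw [indicator_of_mem hξ, ← lintegral_indicator hBm]
      refine lintegral_congr fun z => ?_
      by_cases hz : z ∈ B
      · rw [indicator_of_mem hz, ← lintegral_indicator hBm]
        refine lintegral_congr fun z' => ?_
        by_cases hz' : z' ∈ B
        · rw [indicator_of_mem hz']
          by_cases hk : (ξ, z, z') ∈ kS X t t' ρ Λ
          · have hxS : (ξ, z, z') ∈ S := ⟨hξ, hz, hz', hk⟩
            rw [indicator_of_mem hk, Pi.one_apply, one_mul, hF, indicator_of_mem hxS]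
          · have hxS : (ξ, z, z') ∉ S := fun h => hk h.2.2.2
            rw [indicator_of_notMem hk, zero_mul, hF, indicator_of_notMem hxS]
        · have hxS : (ξ, z, z') ∉ S := fun h => hz' h.2.2.1
          rw [indicator_of_notMem hz', hF, indicator_of_notMem hxS]
      · rw [indicator_of_notMem hz]
        have h4 : ∀ z', F (ξ, z, z') = 0 := fun z' => indicator_of_notMem (fun h => hz h.2.1) _
        simp only [h4, lintegral_zero]
    · rw [indicator_of_notMem hξ]
      have h4 : ∀ z z', F (ξ, z, z') = 0 := fun z z' => indicator_of_notMem (fun h => hξ h.1) _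
      simp only [h4, lintegral_zero]
  -- scaling
  have e1 : ∫⁻ ξ, ∫⁻ z, ∫⁻ z', F (ξ, z, z') = ENNReal.ofReal (R ^ n) * (ENNReal.ofReal (ρ ^ m) *
      ∫⁻ w : E n, ∫⁻ z : E m, ∫⁻ y : E m, F (R • w, z, z + ρ • y)) := by
    have h4 : ∀ (ξ : E n) (z : E m), ∫⁻ z', F (ξ, z, z') =
        ENNReal.ofReal (ρ ^ m) * ∫⁻ y : E m, F (ξ, z, z + ρ • y) := by
      intro ξ z
      have h5 := kk_smul (volume : Measure (E m)) hρ z (fun z' => F (ξ, z, z'))
      rwa [finrank_euclideanSpace_fin] at h5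
    simp only [h4]
    rw [kk_smul (volume : Measure (E n)) hR 0, finrank_euclideanSpace_fin]
    simp only [zero_add]
    congr 1
    rw [← lintegral_const_mul' _ _ ENNReal.ofReal_ne_top]
    refine lintegral_congr fun w => ?_
    rw [lintegral_const_mul' _ _ ENNReal.ofReal_ne_top]
  -- comparison
  have e2 : ∀ x : E n × E m × E m, F (R • x.1, x.2.1, x.2.1 + ρ • x.2.2) ≤
      G.indicator (fun x => hh (DGk X t t' ρ x)) x := by
    intro x
    by_cases hx : x ∈ G
    · have hx' : (R • x.1, x.2.1, x.2.1 + ρ • x.2.2) ∈ S := hx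
      obtain ⟨-, -, -, -, -, h6, h7⟩ := id hx'
      rw [indicator_of_mem hx, hF, indicator_of_mem hx', hhdef]
      simp only at h6 h7 ⊢
      have h8 : R • (DGk X t t' ρ x).1 = Gw X (R • x.1) (t, x.2.1) := by
        rw [DGk_apply, kkGw_smul]
      have h9 : R • (DGk X t t' ρ x).1 + (R * ρ) • (DGk X t t' ρ x).2 =
          Gw X (R • x.1) (t', x.2.1 + ρ • x.2.2) := by
        rw [DGk_apply]
        simp only
        rw [smul_smul, mul_assoc, mul_inv_cancel₀ hρ.ne', mul_one, ← smul_add, add_sub_cancel,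
          kkGw_smul]
      rw [h9, h8, kkG_of_le g (by exact h6), kkG_of_le g' (by exact h7)]
      exact le_rfl
    · have hx' : (R • x.1, x.2.1, x.2.1 + ρ • x.2.2) ∉ S := hx
      rw [indicator_of_notMem hx, hF, indicator_of_notMem hx']
  have e3 : ∫⁻ w : E n, ∫⁻ z : E m, ∫⁻ y : E m, F (R • w, z, z + ρ • y) ≤
      ∫⁻ x in G, hh (DGk X t t' ρ x) := by
    have hm : Measurable (G.indicator (fun x => hh (DGk X t t' ρ x))) :=
      (hhm.comp hHc.measurable).indicator hGm
    rw [← lintegral_indicator hGm, Measure.volume_eq_prod, lintegral_prod _ hm.aemeasurable]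
    refine lintegral_mono fun w => ?_
    have hm2 : Measurable fun q : E m × E m =>
        G.indicator (fun x => hh (DGk X t t' ρ x)) (w, q) := hm.comp (by fun_prop)
    rw [Measure.volume_eq_prod, lintegral_prod _ hm2.aemeasurable]
    exact lintegral_mono fun z => lintegral_mono fun y => e2 (w, z, y)
  have e4 : ∫⁻ x in G, hh (DGk X t t' ρ x) ≤ C1 * ∫⁻ q, hh q := by
    have hconv : Convex ℝ ((Metric.closedBall (0 : E n) 4) ×ˢ
        ((Metric.closedBall p0.2 1) ×ˢ (Metric.closedBall (0 : E m) 2))) :=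
      (convex_closedBall _ _).prod ((convex_closedBall _ _).prod (convex_closedBall _ _))
    refine hC1 (0, p0.2, 0) ((Metric.closedBall (0 : E n) 4) ×ˢ
        ((Metric.closedBall p0.2 1) ×ˢ (Metric.closedBall (0 : E m) 2))) G (DGk X t t' ρ)
        (DGk' X t t' ρ) hconv ?_ hGm ?_ (fun x _ => DGk_deriv hX t t' hρ x) ?_ ?_ hh hhm
    · rintro ⟨w, z, y⟩ ⟨h4, h5, h6⟩
      rw [Metric.mem_closedBall] at h4 h5 h6 ⊢
      simp only at h4 h5 h6
      rw [Prod.dist_eq, Prod.dist_eq]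
      exact max_le h4 (max_le (h5.trans (by norm_num)) (h6.trans (by norm_num)))
    · rintro ⟨w, z, y⟩ hx
      have hx' : (R • w, z, z + ρ • y) ∈ S := hx
      obtain ⟨⟨-, h4⟩, h5, -, -, h6, -, -⟩ := hx'
      simp only at h4 h5 h6
      refine ⟨?_, ?_, ?_⟩
      · rw [mem_closedBall_zero_iff]
        rw [norm_smul, Real.norm_of_nonneg hR.le, mul_comm 4 R] at h4
        exact le_of_mul_le_mul_left h4 hR
      · exact Metric.closedBall_subset_closedBall (by linarith) h5
      · simp only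
        rw [mem_closedBall_zero_iff]
        have h7 : ‖z - (z + ρ • y)‖ ≤ ‖((t, z) : E k × E m) - (t', z + ρ • y)‖ :=
          norm_snd_le (((t, z) : E k × E m) - (t', z + ρ • y))
        have h8 : z - (z + ρ • y) = -(ρ • y) := by abel
        rw [h8, norm_neg, norm_smul, Real.norm_of_nonneg hρ.le] at h7
        have h9 : ρ * ‖y‖ ≤ ρ * 2 := by linarith
        exact le_of_mul_le_mul_left h9 hρ
    · rintro x ⟨h4, -, h6⟩ y ⟨-, -, h6'⟩
      rw [mem_closedBall_zero_iff] at h4 h6 h6'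
      exact DGk_var hX hA' hρ hρ1 htt h6 h6' h4
    · rintro ⟨w, z, y⟩ hx l
      have hx' : (R • w, z, z + ρ • y) ∈ S := hx
      obtain ⟨⟨h3, h4⟩, h5, h5', h6, h7, h8, h9⟩ := hx'
      simp only at h3 h4 h5 h5' h6 h7 h8 h9
      refine DGk_low hX hc.le (w, z, y) (fun a b => ?_) l
      have hVs : ∀ q : E k × E m, ‖Vw X (R • w) q‖ ≤ Λ → ‖Vw X w q‖ ≤ Λ / R := by
        intro q hq
        rw [Vw, map_smul, norm_smul, Real.norm_of_nonneg hR.le, ← Vw] at hq
        rw [le_div_iff₀ hR, mul_comm]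
        exact hq
      have hw : R * ‖w‖ ≤ R * 4 := by
        rw [norm_smul, Real.norm_of_nonneg hR.le] at h4
        linarith
      have hw' : R * (1 / 2) ≤ R * ‖w‖ := by
        rw [norm_smul, Real.norm_of_nonneg hR.le] at h3
        linarith
      have hw1 : ‖w‖ ≤ 4 := le_of_mul_le_mul_left hw hR
      have hw2 : 1 / 2 ≤ ‖w‖ := le_of_mul_le_mul_left hw' hR
      refine hT (t, z) (t', z + ρ • y) w (Λ / R) ρ (hmem t ht z h5) (hmem t' ht' _ h5')
        (by linarith) (by linarith) (hVs _ h8) (hVs _ h9) hρ h6 h7 ?_ a b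
      rw [← mul_div_assoc, div_le_iff₀ hR]
      linarith
  -- the integral of `hh`
  have e5 : ENNReal.ofReal (R ^ (k + m)) * (ENNReal.ofReal ((R * ρ) ^ (k + m)) * ∫⁻ q, hh q) =
      (∫⁻ u, kkG k m Λ g u) * ∫⁻ u, kkG k m Λ g' u := by
    have hfr : finrank ℝ (E k × E m) = k + m := by
      rw [finrank_prod, finrank_euclideanSpace_fin, finrank_euclideanSpace_fin]
    have h4 : ∫⁻ q, hh q = ∫⁻ u : E k × E m, ∫⁻ v : E k × E m, hh (u, v) := by
      rw [Measure.volume_eq_prod (E k × E m) (E k × E m)]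
      exact lintegral_prod _ hhm.aemeasurable
    have h5 : ∀ u : E k × E m, ENNReal.ofReal ((R * ρ) ^ (k + m)) *
        ∫⁻ v : E k × E m, hh (u, v) = kkG k m Λ g (R • u) * ∫⁻ u, kkG k m Λ g' u := by
      intro u
      have h6 := kk_smul (volume : Measure (E k × E m)) (mul_pos hR hρ) (R • u) (kkG k m Λ g')
      rw [hfr] at h6
      rw [h6, hhdef]
      simp only
      have hm : Measurable fun v : E k × E m => kkG k m Λ g' (R • u + (R * ρ) • v) :=
        (kkG_meas k m Λ hg').comp (by fun_prop)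
      rw [lintegral_const_mul _ hm]
      ring
    rw [h4, ← lintegral_const_mul' _ _ ENNReal.ofReal_ne_top]
    simp only [h5]
    have hm : Measurable fun u : E k × E m => kkG k m Λ g (R • u) :=
      (kkG_meas k m Λ hg).comp (by fun_prop)
    rw [lintegral_mul_const _ hm, ← mul_assoc]
    have h6 := kk_smul (volume : Measure (E k × E m)) hR 0 (kkG k m Λ g)
    rw [hfr] at h6
    rw [h6]
    simp only [zero_add]
  have e6 : ENNReal.ofReal (R ^ n) * (ENNReal.ofReal (ρ ^ m)) =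
      ENNReal.ofReal ((√R ^ (2 * m))⁻¹ * R * ((R * ρ) ^ k)⁻¹) *
        (ENNReal.ofReal (R ^ (k + m)) * ENNReal.ofReal ((R * ρ) ^ (k + m))) := by
    rw [← ENNReal.ofReal_mul (by positivity), ← ENNReal.ofReal_mul (by positivity),
      ← ENNReal.ofReal_mul (by positivity)]
    congr 1
    rw [pow_mul, Real.sq_sqrt hR.le, hn, pow_add (R * ρ) k m, mul_pow R ρ m, pow_add R (k + m) 1,
      pow_add R k m, pow_one]
    field_simp
  rw [e0]
  calc ∫⁻ ξ, ∫⁻ z, ∫⁻ z', F (ξ, z, z')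
      = ENNReal.ofReal (R ^ n) * (ENNReal.ofReal (ρ ^ m) *
        ∫⁻ w : E n, ∫⁻ z : E m, ∫⁻ y : E m, F (R • w, z, z + ρ • y)) := e1
    _ ≤ ENNReal.ofReal (R ^ n) * (ENNReal.ofReal (ρ ^ m) * (C1 * ∫⁻ q, hh q)) := by
        gcongr
        exact e3.trans e4
    _ = C1 * (ENNReal.ofReal (R ^ n) * (ENNReal.ofReal (ρ ^ m)) * ∫⁻ q, hh q) := by ring
    _ = C1 * (ENNReal.ofReal ((√R ^ (2 * m))⁻¹ * R * ((R * ρ) ^ k)⁻¹) *
        (ENNReal.ofReal (R ^ (k + m)) * (ENNReal.ofReal ((R * ρ) ^ (k + m)) * ∫⁻ q, hh q))) := by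
        rw [e6]
        ring
    _ = C1 * (ENNReal.ofReal ((√R ^ (2 * m))⁻¹ * R * ((R * ρ) ^ k)⁻¹) *
        (((∫⁻ τ, g τ) * (ENNReal.ofReal (Λ ^ m) * om)) *
        ((∫⁻ τ, g' τ) * (ENNReal.ofReal (Λ ^ m) * om)))) := by
        rw [e5, kkG_int k m hΛ hg, kkG_int k m hΛ hg']
    _ = ENNReal.ofReal (C1 * (om.toReal * om.toReal) * (Λ / √R) ^ (2 * m) * R *
        ((R * ρ) ^ k)⁻¹) * ((∫⁻ τ, g τ) * ∫⁻ τ, g' τ) := by
        have h4 : ENNReal.ofReal (C1 * (om.toReal * om.toReal) * (Λ / √R) ^ (2 * m) * R *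
            ((R * ρ) ^ k)⁻¹) = C1 * (ENNReal.ofReal ((√R ^ (2 * m))⁻¹ * R * ((R * ρ) ^ k)⁻¹) *
            ((ENNReal.ofReal (Λ ^ m) * om) * (ENNReal.ofReal (Λ ^ m) * om))) := by
          have h5 : om = ENNReal.ofReal om.toReal := (ENNReal.ofReal_toReal homf).symm
          conv_rhs => rw [h5]
          rw [← ENNReal.ofReal_coe_nnreal, ← ENNReal.ofReal_mul (by positivity),
            ← ENNReal.ofReal_mul (by positivity), ← ENNReal.ofReal_mul (by positivity),
            ← ENNReal.ofReal_mul (by positivity)]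
          congr 1
          rw [div_pow, two_mul, pow_add Λ]
          ring
        rw [h4]
        ring
    _ ≤ ENNReal.ofReal ((C1 * (om.toReal * om.toReal) + 1) * (Λ / √R) ^ (2 * m) * R *
        ((R * ρ) ^ k)⁻¹) * ((∫⁻ τ, g τ) * ∫⁻ τ, g' τ) := by
        gcongr
        linarith

end Pool.Agent.LFK
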