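import Pool.Agent.LFK.Df0

/-!
Transversality of the map `ξ ↦ (X · ξ, V_ξ(p), V_ξ(p'))` for two points at distance `ρ`: a lower
bound, uniform in `ρ`, of the transposed differential, with the difference divided by `ρ`.
-/

set_option autoImplicit false

namespace Pool.Agent.LFK

open Pool.Agent.MP_6cbfb8_an

/-- The lower bound of the transposed differential for pairs of points at distance about `ρ`. -/
def Trk {k m n : ℕ} (X : E k × E m → E n) (p0 : E k × E m) (δ c C0 : ℝ) : Prop :=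
  ∀ (p p' : E k × E m) (w : E n) (θ ρ : ℝ), ‖p - p0‖ ≤ δ → ‖p' - p0‖ ≤ δ → 1 / 4 ≤ ‖w‖ →
    ‖w‖ ≤ 8 → ‖Vw X w p‖ ≤ θ → ‖Vw X w p'‖ ≤ θ → 0 < ρ → ρ ≤ ‖p - p'‖ → ‖p - p'‖ ≤ 2 * ρ →
    C0 * θ ≤ ρ → ∀ a b : E k × E m,
    c * (‖a‖ + ‖b‖) ≤ ‖fderiv ℝ X p a + ρ⁻¹ • (fderiv ℝ X p' b - fderiv ℝ X p b)‖ +
      ‖fderiv ℝ (Vw X w) p a + ρ⁻¹ • (fderiv ℝ (Vw X w) p' b - fderiv ℝ (Vw X w) p b)‖ +
      ‖fderiv ℝ (Vw X w) p' b‖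

end Pool.Agent.LFK
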