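import Pool.Agent.LFK.TRK1
import Pool.Agent.LFK.TDf
import Pool.Agent.LFK.COMP

/-!
Transversality of a pair of points at distance `ρ`: the lower bound of the transposed differential
follows from general position at the centre.
-/

set_option autoImplicit false

namespace Pool.Agent.LFK

open Pool.Agent.MP_6cbfb8_an Set Filter Topology Function
open scoped RealInnerProductSpace ContDiff

variable {k m n : ℕ}

/-- **Transversality.** General position (in the form of `comp`) gives the lower bound of the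
transposed differential for pairs of points near `p0`, uniformly in the distance. -/
theorem trk {X : E k × E m → E n} (hX : ContDiff ℝ ∞ X) {A : ℕ → ℝ}
    (hA : ∀ j p, ‖iteratedFDeriv ℝ j X p‖ ≤ A j) {p0 : E k × E m} {κ : ℝ} (hκ : 0 < κ)
    (hκ1 : κ ≤ 1)
    (hH : ∀ (p : E k × E m) (w : E n), ‖p - p0‖ ≤ κ → 1 / 4 ≤ ‖w‖ → ‖w‖ ≤ 8 →
      ‖Vw X w p‖ ≤ κ → (∀ u, κ * ‖u‖ ≤ ‖fderiv ℝ X p u‖) ∧
      ∀ u v, ‖fderiv ℝ (Vw X w) p u‖ ≤ κ * ‖u‖ → ‖fderiv ℝ (Vw X w) p v‖ ≤ κ * ‖v‖ → ∀ d,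
        κ * (‖u‖ * ‖v‖ + ‖d‖) ≤ ‖fderiv ℝ X p d + fderiv ℝ (fderiv ℝ X) p u v‖ +
          ‖fderiv ℝ (Vw X w) p d + fderiv ℝ (fderiv ℝ (Vw X w)) p u v‖) :
    ∃ δ0 c : ℝ, 0 < δ0 ∧ δ0 ≤ 1 / 4 ∧ 0 < c ∧ ∀ δ : ℝ, δ ≤ δ0 → Trk X p0 δ c (4 / κ) := by
  obtain ⟨δ0, c, h0, h1, hc, hT⟩ := trk_gen (P := E k × E m) (W := E n) (G := E m)
    (vop (k := k) (m := m) (n := n)) hX hA (p0 := p0) hκ hκ1 hH
  refine ⟨δ0, c, h0, h1, hc, ?_⟩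
  intro δ hδ p p' w θ ρ hp hp' hw hw8 hθ hθ' hρ r1 r2 hC a b
  exact hT p p' w θ ρ (hp.trans hδ) (hp'.trans hδ) hw hw8 hθ hθ' hρ r1 r2 hC a b

/-- General position of the chart at `p0` gives transversality near `p0`. -/
theorem trk_of_HX {X : E k × E m → E n} (hX : ContDiff ℝ ∞ X) {A : ℕ → ℝ}
    (hA : ∀ j p, ‖iteratedFDeriv ℝ j X p‖ ≤ A j) {p0 : E k × E m}
    (hinj : Injective (fderiv ℝ X p0)) (hHX : HX X p0) :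
    ∃ δ0 c C0 : ℝ, 0 < δ0 ∧ δ0 ≤ 1 / 4 ∧ 0 < c ∧ 1 ≤ C0 ∧ ∀ δ : ℝ, δ ≤ δ0 → Trk X p0 δ c C0 := by
  obtain ⟨κ, hκ, hκ1, hH⟩ := comp hX hinj hHX
  obtain ⟨δ0, c, hδ0, hδ1, hc, hT⟩ := trk hX hA hκ hκ1 hH
  refine ⟨δ0, c, 4 / κ, hδ0, hδ1, hc, ?_, hT⟩
  rw [le_div_iff₀ hκ]
  linarith

end Pool.Agent.LFK
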