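import Pool.Agent.LFK.CORBL
import Pool.Agent.LFK.FRAME
import Pool.Agent.LFK.KAKk1
import Pool.Agent.LFK.TRK

/-!
LEAFK row COREBk from the hypotheses of CORE.
-/

set_option autoImplicit false

namespace Pool.Agent.LFK

open MeasureTheory Set Metric Function Pool.Agent.MP_6cbfb8_an
open scoped ENNReal Real ContDiff RealInnerProductSpace

/-- Pairs of points, from general position. -/
theorem kak1_of_gen {k m n : ℕ} (hn : n = k + m + 1) {X : E k × E m → E n} (hX : ContDiff ℝ ∞ X)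
    {A : ℕ → ℝ} (hA : ∀ j p, ‖iteratedFDeriv ℝ j X p‖ ≤ A j) {p0 : E k × E m}
    (hinj : Injective (fderiv ℝ X p0)) (hHX : HX X p0) :
    ∃ δ0 C0 : ℝ, 0 < δ0 ∧ δ0 ≤ 1 / 4 ∧ 0 < C0 ∧ ∀ δ ≤ δ0, Kak1 X p0 δ C0 := by
  obtain ⟨δ0, c, C0, h1, h2, h3, h4, h5⟩ := trk_of_HX hX hA hinj hHX
  exact ⟨δ0, C0, h1, h2, by linarith, fun δ hδ => Kak1.of_mass (by linarith)
    (kak1k hn hX A hA (hδ.trans h2) h3 (h5 δ hδ))⟩

/-- **The square function of the caps of the grid**, from the hypotheses of CORE: for all small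
`δ2`, densities supported in the ball of radius `δ0 ≤ δ2`. -/
theorem coreBk_core {k m n : ℕ} (hn : n = k + m + 1) {X : E k × E m → E n} (hX : ContDiff ℝ ∞ X)
    {A : ℕ → ℝ} (hA : ∀ j p, ‖iteratedFDeriv ℝ j X p‖ ≤ A j) {p0 : E k × E m} {δ : ℝ}
    (hδ : 0 < δ) (h1 : ∀ p, ‖p - p0‖ ≤ δ → ‖X p‖ = 1) (hinj : Injective (fderiv ℝ X p0))
    (hHX : HX X p0) :
    ∃ δ' : ℝ, 0 < δ' ∧ δ' ≤ δ ∧ δ' ≤ 1 / 4 ∧ ∀ δ2 ≤ δ', ∀ δ0 : ℝ, 0 ≤ δ0 → δ0 ≤ δ2 →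
      ∀ ρ : ℝ, 1 ≤ ρ → ∀ (Bθ B : ℕ → ℝ) (N : ℕ),
      ∃ C : ℝ, 0 < C ∧ ∀ R r : ℝ, 1 ≤ R → 0 < r → 1 ≤ r ^ 2 * R → ρ * r ≤ δ2 - δ0 →
      ∀ b : E k × E m → ℂ, Measurable b → (∀ t, ContDiff ℝ ∞ fun z => b (t, z)) →
      (∀ j t z, ‖iteratedFDeriv ℝ j (fun z => b (t, z)) z‖ ≤ B j) →
      (∀ p, δ0 < ‖p - p0‖ → b p = 0) →
      ∀ th : E k × E m → ℝ, ContDiff ℝ ∞ th → (∀ p, ρ < ‖p‖ → th p = 0) →
      (∀ j p, ‖iteratedFDeriv ℝ j th p‖ ≤ Bθ j) → ∀ s : E k × E m,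
      ∫⁻ ξ in {ξ : E n | R / 2 ≤ ‖ξ‖ ∧ ‖ξ‖ ≤ 4 * R},
        (∑' ν : (Fin k → ℤ) × (Fin m → ℤ), ‖∫ p : E k × E m,
          (th (r⁻¹ • (p - r • (((WithLp.toLp 2 fun i => (ν.1 i : ℝ),
            WithLp.toLp 2 fun j => (ν.2 j : ℝ)) : E k × E m) + s))) : ℂ) * b p *
          Complex.exp (((-⟪ξ, X p⟫ : ℝ) : ℂ) * Complex.I)‖ₑ ^ 2) ^ 2 ≤
        ENNReal.ofReal (C * ((r ^ 2 * R) ^ Pk k m * (1 + Real.log R) * R * (R ^ (k + m))⁻¹ +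
          R ^ (n + k + m) * ((r ^ 2 * R) ^ N)⁻¹)) := by
  obtain ⟨δK, C0, hδK, hδK1, hC0, hK⟩ := kak1_of_gen hn hX hA hinj hHX
  obtain ⟨cf, hcf, -, hfr⟩ := frame hn hX hinj hδ h1
  refine ⟨min δ (min δK cf), lt_min hδ (lt_min hδK hcf), min_le_left _ _,
    (min_le_right _ _).trans ((min_le_left _ _).trans hδK1), ?_⟩
  intro δ2 hδ2 δ0 hδ0 hδ02 ρ hρ Bθ B N
  have e1 : δ2 ≤ δ := hδ2.trans (min_le_left _ _)
  have e2 : δ2 ≤ δK := hδ2.trans ((min_le_right _ _).trans (min_le_left _ _))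
  have e3 : δ2 ≤ cf := hδ2.trans ((min_le_right _ _).trans (min_le_right _ _))
  obtain ⟨C, hC, H⟩ := coreBk_grid hn hX hA hδ0 hδ02 (e2.trans hδK1) hC0 hcf (hK δ2 e2)
    (fun p hp => h1 p (hp.trans e1)) (fun p hp => hfr p (hp.trans e3)) hρ Bθ B N
  refine ⟨C, hC, ?_⟩
  intro R r hR hr hQ hρr b hbm hbs hbB hb0
  exact H R r hR hr hQ hρr b hbm hbs hbB
    (fun t z h => hb0 (t, z) (h.trans_le (by rw [Prod.norm_def]; exact le_max_left _ _)))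
    (fun t z h => hb0 (t, z) (h.trans_le (by rw [Prod.norm_def]; exact le_max_right _ _)))

end Pool.Agent.LFK
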