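import Pool.Agent.LFK.FR2

/-!
LEAFK row F4: integration by parts in `(w, z)`.
-/

set_option autoImplicit false
set_option maxSynthPendingDepth 3

namespace Pool.Agent.LFK.FR

open MeasureTheory Set Filter Topology Metric Pool.Agent.MP_6cbfb8_an
open scoped ENNReal Real RealInnerProductSpace ContDiff ComplexConjugate

variable {k m n : ℕ}

/-- Where the cut-off in the direction `u` does not vanish. -/
theorem crit_dir {F : Type*} [NormedAddCommGroup F] [NormedSpace ℝ F]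
    (M : E k × E m →L[ℝ] F) {c r : ℝ} (hr : 0 < r) {u : E k × E m} (hru : r ≤ ‖u‖)
    (h : ‖M (Ub (r⁻¹ • u))‖ ≤ c) : ‖M u‖ ≤ 3 * c * ‖u‖ := by
  set s : ℝ := √(1 + ‖(r⁻¹ • u).1‖ ^ 2 + ‖(r⁻¹ • u).2‖ ^ 2) with hs
  have h0 : 0 < 1 + ‖(r⁻¹ • u).1‖ ^ 2 + ‖(r⁻¹ • u).2‖ ^ 2 := by positivity
  have hs0 : 0 < s := Real.sqrt_pos.2 h0
  have e1 : u = (r * s) • Ub (r⁻¹ • u) := by
    unfold Ub
    rw [← hs, smul_smul, smul_smul]
    have : r * s * s⁻¹ * r⁻¹ = 1 := by field_simp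
    rw [this, one_smul]
  have h1 : s ≤ 1 + ‖(r⁻¹ • u).1‖ + ‖(r⁻¹ • u).2‖ := by
    rw [hs]
    refine Real.sqrt_le_iff.2 ⟨by positivity, ?_⟩
    have a1 := norm_nonneg (r⁻¹ • u).1
    have a2 := norm_nonneg (r⁻¹ • u).2
    nlinarith [mul_nonneg a1 a2]
  have h2 : r * s ≤ 3 * ‖u‖ := by
    have k1 : ‖(r⁻¹ • u).1‖ ≤ r⁻¹ * ‖u‖ := by
      refine (norm_fst_le (r⁻¹ • u)).trans ?_
      rw [norm_smul, norm_inv, Real.norm_of_nonneg hr.le]
    have k2 : ‖(r⁻¹ • u).2‖ ≤ r⁻¹ * ‖u‖ := by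
      refine (norm_snd_le (r⁻¹ • u)).trans ?_
      rw [norm_smul, norm_inv, Real.norm_of_nonneg hr.le]
    calc r * s ≤ r * (1 + r⁻¹ * ‖u‖ + r⁻¹ * ‖u‖) := by
          gcongr
          linarith
      _ = r + 2 * ‖u‖ := by
          field_simp
          ring
      _ ≤ 3 * ‖u‖ := by linarith
  calc ‖M u‖ = ‖M ((r * s) • Ub (r⁻¹ • u))‖ := by rw [← e1]
    _ = (r * s) * ‖M (Ub (r⁻¹ • u))‖ := by
        rw [map_smul, norm_smul, Real.norm_of_nonneg (by positivity)]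
    _ ≤ (3 * ‖u‖) * c := mul_le_mul h2 h (norm_nonneg _) (by positivity)
    _ = _ := by ring

/-- F4 (module FR4). Integration by parts in `(w, z)`. -/
theorem farI {X : E k × E m → E n} {A : ℕ → ℝ} {p0 : E k × E m} {κ : ℝ} (h : Ch X A p0 κ)
    {th : E m → ℝ} (hth : Th th) {η : E n → ℝ} (hη : Et η) {N0 : E k × E m → ℝ} (hN : Nz N0) :
    ∃ δ1 : ℝ, 0 < δ1 ∧ ∀ (B : ℕ → ℝ) (N : ℕ), ∃ C : ℝ, 0 ≤ C ∧
      ∀ (b : E k × E m → ℂ), Dn p0 δ1 B b → ∀ (R r : ℝ), 1 ≤ R → 0 < r → r ≤ 1 → 1 ≤ R * r ^ 2 →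
      ∀ (t : E k) (u v d : E k × E m),
      ‖∫ q : E n × E m, ((η q.1 : ℝ) : ℂ) * G0 X th N0 (κ / 4) b r q.1 (t, q.2) u v d *
        Complex.exp (((-(R * ⟪q.1, sdf X u v d (t, q.2)⟫) : ℝ) : ℂ) * Complex.I)‖ ≤
        C * ((R * r ^ 2)⁻¹) ^ N := by
  have hκ := h.hκ
  obtain ⟨δ, hδ, hfar⟩ := far1 h.hX h.hA h.hκ h.hκ1 fun p w h1 h2 h3 h4 =>
    (h.hH p w h1 h2 h3 h4).2
  refine ⟨min (δ / 8) (κ / 2), by positivity, fun B N => ?_⟩
  set δ1 : ℝ := min (δ / 8) (κ / 2) with hδ1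
  have hδ1a : δ1 ≤ δ / 8 := min_le_left _ _
  have hδ1b : δ1 ≤ κ / 2 := min_le_right _ _
  obtain ⟨C, hC, hbd⟩ := hfar N
  obtain ⟨D, hD⟩ := symA h hth hη hN (κ / 4) (by positivity) δ1 B
  set Bd : ℝ := ∑ j ∈ Finset.range (2 * N + 1), |D j| with hBd
  have hBd0 : 0 ≤ Bd := Finset.sum_nonneg fun j _ => abs_nonneg _
  refine ⟨C * Bd, by positivity, ?_⟩
  intro b hb R r hR hr hr1 hRr t u v d
  obtain ⟨hsm, hder⟩ := hD b hb r t u v d hr hr1
  set Am : E n × E m → ℂ := fun q =>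
    ((η q.1 : ℝ) : ℂ) * G0 X th N0 (κ / 4) b r q.1 (t, q.2) u v d with hAm
  -- where the amplitude does not vanish
  have hne : ∀ q, Am q ≠ 0 → ‖(t, q.2) - p0‖ < δ1 ∧ ‖(t, q.2) - u - p0‖ < δ1 ∧
      ‖(t, q.2) - v - p0‖ < δ1 ∧ ‖(t, q.2) - u - v + d - p0‖ < δ1 ∧ r ≤ ‖u‖ ∧ r ≤ ‖v‖ ∧
      1 / 2 ≤ ‖q.1‖ ∧ ‖q.1‖ ≤ 4 ∧ ‖Vw X q.1 (t, q.2)‖ ≤ κ / 4 ∧
      ‖fderiv ℝ (Vw X q.1) (t, q.2) (Ub (r⁻¹ • u))‖ ≤ κ / 4 ∧
      ‖fderiv ℝ (Vw X q.1) (t, q.2) (Ub (r⁻¹ • v))‖ ≤ κ / 4 := by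
    intro q hq
    simp only [hAm, G0] at hq
    have q1 := left_ne_zero_of_mul hq
    have q2 := right_ne_zero_of_mul hq
    have q3 := left_ne_zero_of_mul q2
    have q4 := right_ne_zero_of_mul q2
    have hη1 : η q.1 ≠ 0 := fun h0 => q1 (by rw [h0, Complex.ofReal_zero])
    have q5 : AA X th (κ / 4) r q.1 (t, q.2) u v * Nf N0 r u v ≠ 0 :=
      fun h0 => q3 (by rw [h0, Complex.ofReal_zero])
    have q6 := left_ne_zero_of_mul q5
    have q7 := right_ne_zero_of_mul q5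
    have hbp : ∀ p, b p ≠ 0 → ‖p - p0‖ < δ1 := by
      intro p hp
      by_contra hcon
      exact hp (hb.2.2.2 p (not_lt.1 hcon))
    unfold Bf at q4
    have q8 := left_ne_zero_of_mul q4
    have q9 := right_ne_zero_of_mul q4
    have hcj : ∀ x : ℂ, conj x ≠ 0 → x ≠ 0 := fun x hx h0 => hx (by rw [h0, map_zero])
    have hNr : ∀ x : E k × E m, 1 - N0 (r⁻¹ • x) ≠ 0 → r ≤ ‖x‖ := by
      intro x hx
      by_contra hcon
      rw [not_le] at hcon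
      refine hx ?_
      rw [hN.2.2.1, sub_self]
      rw [norm_smul, norm_inv, Real.norm_of_nonneg hr.le, inv_mul_le_iff₀ hr, mul_one]
      exact hcon.le
    have hthr : ∀ x : E m, th ((κ / 4)⁻¹ • x) ≠ 0 → ‖x‖ ≤ κ / 4 := by
      intro x hx
      by_contra hcon
      rw [not_le] at hcon
      refine hx (hth.2.2.2.2 _ ?_)
      rw [norm_smul, norm_inv, Real.norm_of_nonneg (by positivity), le_inv_mul_iff₀ (by positivity),
        mul_one]
      exact hcon.le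
    unfold Nf at q7
    unfold AA at q6
    have q10 := left_ne_zero_of_mul q6
    exact ⟨hbp _ (left_ne_zero_of_mul q8), hbp _ (hcj _ (left_ne_zero_of_mul q9)),
      hbp _ (hcj _ (right_ne_zero_of_mul q9)), hbp _ (right_ne_zero_of_mul q8),
      hNr _ (left_ne_zero_of_mul q7), hNr _ (right_ne_zero_of_mul q7),
      (hη.2.2.2.2 _ hη1).1, (hη.2.2.2.2 _ hη1).2, hthr _ (left_ne_zero_of_mul q10),
      hthr _ (right_ne_zero_of_mul q10), hthr _ (right_ne_zero_of_mul q6)⟩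
  by_cases hex : ∃ q, Am q ≠ 0
  swap
  · push Not at hex
    have h0 : ∀ q : E n × E m, ((η q.1 : ℝ) : ℂ) * G0 X th N0 (κ / 4) b r q.1 (t, q.2) u v d *
        Complex.exp (((-(R * ⟪q.1, sdf X u v d (t, q.2)⟫) : ℝ) : ℂ) * Complex.I) = 0 := by
      intro q
      have := hex q
      simp only [hAm] at this
      rw [this, zero_mul]
    simp only [h0, integral_zero, norm_zero]
    positivity
  obtain ⟨q0, hq0⟩ := hex
  obtain ⟨g1, g2, g3, g4, g5, g6, -⟩ := hne q0 hq0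
  have hu : ‖u‖ ≤ 2 * δ1 := by
    have e1 : u = ((t, q0.2) - p0) - ((t, q0.2) - u - p0) := by abel
    rw [e1]
    exact (norm_sub_le _ _).trans (by linarith)
  have hv : ‖v‖ ≤ 2 * δ1 := by
    have e1 : v = ((t, q0.2) - p0) - ((t, q0.2) - v - p0) := by abel
    rw [e1]
    exact (norm_sub_le _ _).trans (by linarith)
  have hd : ‖d‖ ≤ 4 * δ1 := by
    have e1 : d = (((t, q0.2) - p0) - ((t, q0.2) - u - p0)) +
        (((t, q0.2) - u - v + d - p0) - ((t, q0.2) - v - p0)) := by abel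
    rw [e1]
    refine (norm_add_le _ _).trans ?_
    have k1 := norm_sub_le ((t, q0.2) - p0) ((t, q0.2) - u - p0)
    have k2 := norm_sub_le ((t, q0.2) - u - v + d - p0) ((t, q0.2) - v - p0)
    linarith
  have nd := norm_nonneg d
  have hσ : r ^ 2 ≤ ‖u‖ * ‖v‖ + ‖d‖ := by
    have : r * r ≤ ‖u‖ * ‖v‖ := mul_le_mul g5 g6 hr.le (norm_nonneg _)
    nlinarith
  have hR0 : 0 < R := by linarith
  have hRσ : R * r ^ 2 ≤ |(-R)| * (‖u‖ * ‖v‖ + ‖d‖) := by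
    rw [abs_neg, abs_of_pos hR0]
    exact mul_le_mul_of_nonneg_left hσ hR0.le
  have h1 := hbd Bd (-R) t u v d Am hBd0 (by linarith) (hRr.trans hRσ)
    (hsm.of_le (WithTop.coe_le_coe.2 (le_top (a := ((2 * N : ℕ) : ℕ∞)))))
    (fun j hj q => (hder j q).trans ((le_abs_self _).trans
      (Finset.single_le_sum (f := fun j => |D j|) (fun j _ => abs_nonneg _)
        (Finset.mem_range.2 (by omega)))))
    (fun q hq => by
      obtain ⟨k1, -, -, -, k5, k6, k7, k8, k9, k10, k11⟩ := hne q hq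
      refine ⟨by linarith, by linarith, by linarith, by linarith, ?_, ?_⟩
      · refine (crit_dir _ hr k5 k10).trans ?_
        exact mul_le_mul_of_nonneg_right (by linarith) (norm_nonneg _)
      · refine (crit_dir _ hr k6 k11).trans ?_
        exact mul_le_mul_of_nonneg_right (by linarith) (norm_nonneg _))
  have e2 : ∀ q : E n × E m, ((η q.1 : ℝ) : ℂ) * G0 X th N0 (κ / 4) b r q.1 (t, q.2) u v d *
      Complex.exp (((-(R * ⟪q.1, sdf X u v d (t, q.2)⟫) : ℝ) : ℂ) * Complex.I) =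
      Am q * Complex.exp (((-R * ⟪q.1, sdf X u v d (t, q.2)⟫ : ℝ) : ℂ) * Complex.I) := by
    intro q
    rw [neg_mul]
  simp only [e2]
  refine h1.trans (mul_le_mul_of_nonneg_left ?_ (by positivity))
  refine pow_le_pow_left₀ (by positivity) ?_ N
  rw [one_div]
  exact inv_anti₀ (by positivity) hRσ

end Pool.Agent.LFK.FR
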