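import Pool.Agent.LFK.FAR0
import Pool.Agent.LFK.Df0

/-!
LEAFK row FAR2: integration by parts in one of the variables `z_j` alone.
-/

set_option autoImplicit false

namespace Pool.Agent.LFK

open MeasureTheory Set Metric Pool.Agent.MP_6cbfb8_an
open scoped Real ContDiff RealInnerProductSpace

/-- The derivatives along a slice. -/
theorem far2_slice {k m : ℕ} {F : Type*} [NormedAddCommGroup F] [NormedSpace ℝ F]
    {Φ : E k × E m → F} {j : ℕ} (hΦ : ContDiff ℝ j Φ) (t : E k) (z : E m) :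
    ‖iteratedFDeriv ℝ j (fun z => Φ (t, z)) z‖ ≤ ‖iteratedFDeriv ℝ j Φ (t, z)‖ := by
  have h1 : ContDiff ℝ j (fun w => Φ ((t, 0) + w)) := hΦ.comp (contDiff_const.add contDiff_id)
  have h2 : (fun z => Φ (t, z)) =
      (fun w => Φ ((t, 0) + w)) ∘ (ContinuousLinearMap.inr ℝ (E k) (E m)) := by
    funext y; simp
  rw [h2, ContinuousLinearMap.iteratedFDeriv_comp_right _ h1 z le_rfl]
  refine (ContinuousMultilinearMap.norm_compContinuousLinearMap_le _ _).trans ?_
  rw [iteratedFDeriv_comp_add_left, Finset.prod_const, Finset.card_univ, Fintype.card_fin]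
  have h3 : ((t, 0) : E k × E m) + (ContinuousLinearMap.inr ℝ (E k) (E m)) z = (t, z) := by simp
  rw [h3]
  refine mul_le_of_le_one_right (norm_nonneg _) (pow_le_one₀ (norm_nonneg _) ?_)
  exact ContinuousLinearMap.opNorm_le_bound _ zero_le_one fun y => by
    rw [ContinuousLinearMap.inr_apply, Prod.norm_mk, norm_zero, one_mul]
    exact max_le (norm_nonneg _) le_rfl

/-- The gradient of the phase along a slice. -/
theorem far2_grad {k m n : ℕ} {X : E k × E m → E n} (hX : ContDiff ℝ ∞ X) (s : ℝ) (w : E n)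
    (t : E k) (z : E m) :
    ‖fderiv ℝ (fun z => s * ⟪w, X (t, z)⟫) z‖ = |s| * ‖Vw X w (t, z)‖ := by
  have hcomp : (fun z => s * ⟪w, X (t, z)⟫) = (s • innerSL ℝ w) ∘ fun z => X (t, z) := by
    funext z
    simp
  have h1 : HasFDerivAt (fun z : E m => X (t, z)) (Xz X (t, z)) z := by
    have h2 : HasFDerivAt X (fderiv ℝ X (t, z)) (t, z) :=
      (hX.differentiable (by simp) (t, z)).hasFDerivAt
    exact h2.comp z (hasFDerivAt_prodMk_right t z)
  have h3 : fderiv ℝ (fun z => s * ⟪w, X (t, z)⟫) z = s • innerSL ℝ (Vw X w (t, z)) := by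
    rw [hcomp, (((s • innerSL ℝ w).hasFDerivAt).comp z h1).fderiv]
    ext y
    simp only [ContinuousLinearMap.comp_apply, smul_apply, smul_eq_mul, innerSL_apply_apply, Vw,
      ContinuousLinearMap.adjoint_inner_left]
  rw [h3, norm_smul, innerSL_apply_norm, Real.norm_eq_abs]

/-- ROW FAR2. Integration by parts in one variable `z` alone: amplitude at the scale `r`, gradient of
the phase at least `c R a`, `a ≥ r`. -/
theorem far2 (k m n N : ℕ) (c A L : ℝ) (hc : 0 < c) : ∃ C : ℝ, 0 ≤ C ∧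
    ∀ (X : E k × E m → E n), ContDiff ℝ ∞ X →
    (∀ j ≤ 2 * N + 2, ∀ p, ‖iteratedFDeriv ℝ j X p‖ ≤ A) →
    ∀ (R r a ρ Bd s : ℝ) (w : E n) (t : E k) (z0 : E m) (g : E m → ℂ), 0 < r → r ≤ 1 → r ≤ ρ →
    r ≤ a → 1 ≤ R * (a * r) → 0 ≤ Bd → |s| = 1 → ‖w‖ ≤ L → ContDiff ℝ (2 * N : ℕ) g →
    (∀ z, ρ < ‖z - z0‖ → g z = 0) →
    (∀ j ≤ 2 * N, ∀ z, ‖iteratedFDeriv ℝ j g z‖ ≤ Bd * (r ^ j)⁻¹) →
    (∀ z, g z ≠ 0 → c * a ≤ ‖Vw X w (t, z)‖) →
    ‖∫ z, g z * Complex.exp (((s * R * ⟪w, X (t, z)⟫ : ℝ) : ℂ) * Complex.I)‖ ≤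
      C * Bd * ρ ^ m * (1 / (R * (a * r))) ^ N := by
  obtain ⟨C, hC, hfar⟩ := far_l m N c (1 + |L| * |A|) hc
    (by have : 0 ≤ |L| * |A| := by positivity
        linarith)
  refine ⟨C, hC, ?_⟩
  intro X hX hXA R r a ρ Bd s w t z0 g hr hr1 hrρ hra hRar hBd hs hw hg hgs hgb hV
  have ha : 0 < a := hr.trans_le hra
  have hR : 0 < R := by
    by_contra h
    have h1 : R * (a * r) ≤ 0 := mul_nonpos_of_nonpos_of_nonneg (not_lt.1 h) (by positivity)
    linarith
  have hXt : ContDiff ℝ ∞ fun z : E m => X (t, z) := hX.comp (contDiff_const.prodMk contDiff_id)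
  have hF : ContDiff ℝ ∞ fun z : E m => s * R * ⟪w, X (t, z)⟫ :=
    contDiff_const.mul (contDiff_const.inner ℝ hXt)
  have hcomp : (fun z : E m => s * R * ⟪w, X (t, z)⟫) =
      ((s * R) • innerSL ℝ w) ∘ fun z => X (t, z) := by
    funext z
    simp
  have hn : ‖(s * R) • innerSL ℝ w‖ ≤ |L| * R := by
    rw [norm_smul, innerSL_apply_norm, Real.norm_eq_abs, abs_mul, hs, one_mul, abs_of_pos hR,
      mul_comm]
    exact mul_le_mul_of_nonneg_right (hw.trans (le_abs_self L)) hR.le
  have h1 := hfar Bd (R * a) r ρ g (fun z => s * R * ⟪w, X (t, z)⟫) z0 hBd hr hr1 hrρ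
    (by rw [mul_assoc]; exact hRar) hg hF hgs hgb (fun j _ hj z _ => by
      rw [hcomp]
      refine (ContinuousLinearMap.norm_iteratedFDeriv_comp_left _
        (hXt.contDiffAt.of_le (by exact_mod_cast le_top)) le_rfl).trans ?_
      calc ‖(s * R) • innerSL ℝ w‖ * ‖iteratedFDeriv ℝ j (fun z => X (t, z)) z‖ ≤
            |L| * R * |A| :=
            mul_le_mul hn (((far2_slice (hX.of_le (by exact_mod_cast le_top)) t z).trans
              (hXA j hj (t, z))).trans (le_abs_self A)) (norm_nonneg _) (by positivity)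
        _ ≤ (1 + |L| * |A|) * R := by nlinarith
        _ ≤ (1 + |L| * |A|) * (R * a / r) := by
            have h2 : R ≤ R * a / r := by
              rw [le_div_iff₀ hr]
              exact mul_le_mul_of_nonneg_left hra hR.le
            exact mul_le_mul_of_nonneg_left h2 (by positivity))
    (fun z hz => by
      rw [far2_grad hX, abs_mul, hs, one_mul, abs_of_pos hR]
      have h3 := mul_le_mul_of_nonneg_left (hV z hz) hR.le
      linarith)
  rw [mul_assoc R] at h1
  exact h1

/-- Lipschitz bound for `V_w`. -/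
theorem far2_lip {k m n : ℕ} {X : E k × E m → E n} (hX : ContDiff ℝ ∞ X) {A : ℝ}
    (hA : ∀ p, ‖iteratedFDeriv ℝ 2 X p‖ ≤ A) (w : E n) (p q : E k × E m) :
    ‖Vw X w p - Vw X w q‖ ≤ A * ‖w‖ * ‖p - q‖ := by
  have hA0 : 0 ≤ A := (norm_nonneg _).trans (hA p)
  have h3 : ‖fderiv ℝ X p - fderiv ℝ X q‖ ≤ A * ‖p - q‖ := by
    refine (convex_univ (𝕜 := ℝ)).norm_image_sub_le_of_norm_fderiv_le (𝕜 := ℝ)
      (fun z _ => (hX.fderiv_right (m := 1) (by norm_cast)).differentiable (by simp) z)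
      (fun z _ => ?_) (mem_univ _) (mem_univ _)
    have h7 : ‖fderiv ℝ (fderiv ℝ X) z‖ = ‖iteratedFDeriv ℝ 2 X z‖ := by
      rw [← norm_iteratedFDeriv_fderiv, ← norm_iteratedFDeriv_fderiv, norm_iteratedFDeriv_zero]
    rw [h7]
    exact hA z
  have h6 : ‖ContinuousLinearMap.inr ℝ (E k) (E m)‖ ≤ 1 :=
    ContinuousLinearMap.opNorm_le_bound _ zero_le_one fun y => by
      rw [ContinuousLinearMap.inr_apply, Prod.norm_mk, norm_zero, one_mul]
      exact max_le (norm_nonneg _) le_rfl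
  have h4 : ‖Xz X p - Xz X q‖ ≤ A * ‖p - q‖ := by
    unfold Xz
    rw [← ContinuousLinearMap.sub_comp]
    refine (ContinuousLinearMap.opNorm_comp_le _ _).trans ?_
    exact (mul_le_of_le_one_right (norm_nonneg _) h6).trans h3
  unfold Vw
  rw [← sub_apply, ← map_sub]
  refine (ContinuousLinearMap.le_opNorm _ _).trans ?_
  rw [LinearIsometryEquiv.norm_map]
  calc ‖Xz X p - Xz X q‖ * ‖w‖ ≤ A * ‖p - q‖ * ‖w‖ := by gcongr
    _ = A * ‖w‖ * ‖p - q‖ := by ring

/-- FAR, case (ii): the gradients at two caps of radius `c' r` are different, integration by parts in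
one of the two variables. -/
theorem far2_pair (k m n N : ℕ) (c A L : ℝ) (hc : 0 < c) : ∃ C : ℝ, 0 ≤ C ∧
    ∀ (X : E k × E m → E n), ContDiff ℝ ∞ X →
    (∀ j ≤ 2 * N + 2, ∀ p, ‖iteratedFDeriv ℝ j X p‖ ≤ A) →
    ∀ (R r a c' Bd : ℝ) (w : E n) (t1 t3 : E k) (z1 z3 : E m) (g : E m → E m → ℂ), 0 < r → r ≤ 1 →
    0 ≤ c' → c' ≤ 1 → 4 * (A * L * c') ≤ c → r ≤ a → 1 ≤ R * (a * r) → 0 ≤ Bd → ‖w‖ ≤ L →
    Continuous (Function.uncurry g) →
    (∀ y, ContDiff ℝ (2 * N : ℕ) fun x => g x y) → (∀ x, ContDiff ℝ (2 * N : ℕ) (g x)) →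
    (∀ x y, g x y ≠ 0 → ‖x - z1‖ ≤ c' * r ∧ ‖y - z3‖ ≤ c' * r) →
    (∀ j ≤ 2 * N, ∀ x y, ‖iteratedFDeriv ℝ j (fun x => g x y) x‖ ≤ Bd * (r ^ j)⁻¹) →
    (∀ j ≤ 2 * N, ∀ x y, ‖iteratedFDeriv ℝ j (g x) y‖ ≤ Bd * (r ^ j)⁻¹) →
    c * a ≤ ‖Vw X w (t1, z1) - Vw X w (t3, z3)‖ →
    ‖∫ x, ∫ y, g x y * (Complex.exp (((R * ⟪w, X (t1, x)⟫ : ℝ) : ℂ) * Complex.I) *
        Complex.exp (((-R * ⟪w, X (t3, y)⟫ : ℝ) : ℂ) * Complex.I))‖ ≤
      C * Bd * r ^ (2 * m) * (1 / (R * (a * r))) ^ N := by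
  obtain ⟨C, hC, hfar⟩ := far2 k m n N (c / 4) A L (by positivity)
  set vB : ℝ := (volume : Measure (E m)).real (ball 0 1) with hvB
  have hvB0 : 0 ≤ vB := measureReal_nonneg
  refine ⟨C * vB, by positivity, ?_⟩
  intro X hX hXA R r a c' Bd w t1 t3 z1 z3 g hr hr1 hc'0 hc'1 hcc hra hRar hBd hw hgc hg1 hg2 hgs
    hb1 hb2 hV
  have ha : 0 < a := hr.trans_le hra
  have hR : 0 < R := by
    by_contra h
    have h1 : R * (a * r) ≤ 0 := mul_nonpos_of_nonpos_of_nonneg (not_lt.1 h) (by positivity)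
    linarith
  have hA2 : ∀ p, ‖iteratedFDeriv ℝ 2 X p‖ ≤ A := fun p => hXA 2 (by omega) p
  have hA0 : 0 ≤ A := (norm_nonneg _).trans (hA2 (t1, z1))
  have hL0 : 0 ≤ L := (norm_nonneg _).trans hw
  have hXc : Continuous X := hX.continuous
  have hcr : c' * r ≤ r := mul_le_of_le_one_left hr.le hc'1
  -- the gradient on the cap
  have hcap : ∀ (t : E k) (zc z : E m), ‖z - zc‖ ≤ c' * r → c * a / 2 ≤ ‖Vw X w (t, zc)‖ →
      c / 4 * a ≤ ‖Vw X w (t, z)‖ := by
    intro t zc z hz hVz
    have h1 := far2_lip hX hA2 w (t, zc) (t, z)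
    have h2 : ‖((t, zc) : E k × E m) - (t, z)‖ ≤ c' * r := by
      rw [Prod.mk_sub_mk, sub_self, Prod.norm_mk, norm_zero, norm_sub_rev]
      exact max_le (by positivity) hz
    have h3 : ‖Vw X w (t, zc) - Vw X w (t, z)‖ ≤ A * L * (c' * r) := by
      refine h1.trans ?_
      gcongr
    have h4 : A * L * (c' * r) ≤ c / 4 * a := by
      calc A * L * (c' * r) = A * L * c' * r := by ring
        _ ≤ c / 4 * r := by
            refine mul_le_mul_of_nonneg_right ?_ hr.le
            linarith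
        _ ≤ c / 4 * a := mul_le_mul_of_nonneg_left hra (by positivity)
    have h5 : ‖Vw X w (t, zc)‖ ≤ ‖Vw X w (t, z)‖ + ‖Vw X w (t, zc) - Vw X w (t, z)‖ := by
      have := norm_add_le (Vw X w (t, z)) (Vw X w (t, zc) - Vw X w (t, z))
      rwa [add_sub_cancel] at this
    linarith
  set e1 : E m → ℂ := fun x => Complex.exp (((R * ⟪w, X (t1, x)⟫ : ℝ) : ℂ) * Complex.I) with he1
  set e3 : E m → ℂ := fun y => Complex.exp (((-R * ⟪w, X (t3, y)⟫ : ℝ) : ℂ) * Complex.I) with he3
  have he1c : Continuous e1 := by fun_prop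
  have he3c : Continuous e3 := by fun_prop
  have hn1 : ∀ x, ‖e1 x‖ = 1 := fun x => Complex.norm_exp_ofReal_mul_I _
  have hn3 : ∀ x, ‖e3 x‖ = 1 := fun x => Complex.norm_exp_ofReal_mul_I _
  have hfin : C * Bd * r ^ m * (1 / (R * (a * r))) ^ N * (r ^ m * vB) =
      C * vB * Bd * r ^ (2 * m) * (1 / (R * (a * r))) ^ N := by
    rw [two_mul m, pow_add]
    ring
  have hsum : c * a ≤ ‖Vw X w (t1, z1)‖ + ‖Vw X w (t3, z3)‖ := hV.trans (norm_sub_le _ _)
  rcases le_total (c * a / 2) ‖Vw X w (t3, z3)‖ with h3 | h1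
  · -- integration by parts in `y`
    have hin : ∀ x, ‖∫ y, g x y * (e1 x * e3 y)‖ ≤ C * Bd * r ^ m * (1 / (R * (a * r))) ^ N := by
      intro x
      have e : ∫ y, g x y * (e1 x * e3 y) = e1 x * ∫ y, g x y * e3 y := by
        rw [← integral_const_mul]
        refine integral_congr_ae (Filter.Eventually.of_forall fun y => ?_)
        simp only
        ring
      rw [e, norm_mul, hn1, one_mul]
      have h4 := hfar X hX hXA R r a r Bd (-1) w t3 z3 (g x) hr hr1 le_rfl hra hRar hBd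
        (by rw [abs_neg, abs_one]) hw (hg2 x) (fun y hy => by
          by_contra hne
          exact absurd ((hgs x y hne).2.trans hcr) (not_le.2 hy)) (fun j hj y => hb2 j hj x y)
        (fun y hy => hcap t3 z3 y (hgs x y hy).2 h3)
      simpa only [neg_one_mul] using h4
    have hout : ∀ x, x ∉ closedBall z1 r → ∫ y, g x y * (e1 x * e3 y) = 0 := by
      intro x hx
      rw [mem_closedBall_iff_norm, not_le] at hx
      have : ∀ y, g x y * (e1 x * e3 y) = 0 := by
        intro y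
        have : g x y = 0 := by
          by_contra hne
          exact absurd ((hgs x y hne).1.trans hcr) (not_le.2 hx)
        rw [this, zero_mul]
      simp [this]
    rw [← setIntegral_eq_integral_of_forall_compl_eq_zero hout]
    refine (norm_setIntegral_le_of_norm_le_const measure_closedBall_lt_top
      fun x _ => hin x).trans (le_of_eq ?_)
    rw [Measure.addHaar_real_closedBall _ _ hr.le, finrank_euclideanSpace_fin]
    exact hfin
  · -- integration by parts in `x`
    have hint : Integrable (Function.uncurry fun x y : E m => g x y * (e1 x * e3 y))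
        (volume.prod volume) := by
      rw [← Measure.volume_eq_prod]
      refine Continuous.integrable_of_hasCompactSupport ?_ ?_
      · have h5 : Continuous fun q : E m × E m => g q.1 q.2 := hgc
        exact h5.mul ((he1c.comp continuous_fst).mul (he3c.comp continuous_snd))
      · refine HasCompactSupport.intro ((isCompact_closedBall z1 r).prod
          (isCompact_closedBall z3 r)) ?_
        rintro ⟨x, y⟩ h
        simp only [Function.uncurry]
        have : g x y = 0 := by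
          by_contra hne
          have h5 := hgs x y hne
          refine h ⟨?_, ?_⟩
          · rw [mem_closedBall_iff_norm]
            exact h5.1.trans hcr
          · rw [mem_closedBall_iff_norm]
            exact h5.2.trans hcr
        rw [this, zero_mul]
    rw [integral_integral_swap hint]
    have hV1 : c * a / 2 ≤ ‖Vw X w (t1, z1)‖ := by linarith
    have hin : ∀ y, ‖∫ x, g x y * (e1 x * e3 y)‖ ≤ C * Bd * r ^ m * (1 / (R * (a * r))) ^ N := by
      intro y
      have e : ∫ x, g x y * (e1 x * e3 y) = e3 y * ∫ x, g x y * e1 x := by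
        rw [← integral_const_mul]
        refine integral_congr_ae (Filter.Eventually.of_forall fun x => ?_)
        simp only
        ring
      rw [e, norm_mul, hn3, one_mul]
      have h4 := hfar X hX hXA R r a r Bd 1 w t1 z1 (fun x => g x y) hr hr1 le_rfl hra hRar hBd
        abs_one hw (hg1 y) (fun x hx => by
          by_contra hne
          exact absurd ((hgs x y hne).1.trans hcr) (not_le.2 hx)) (fun j hj x => hb1 j hj x y)
        (fun x hx => hcap t1 z1 x (hgs x y hx).1 hV1)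
      simpa only [one_mul] using h4
    have hout : ∀ y, y ∉ closedBall z3 r → ∫ x, g x y * (e1 x * e3 y) = 0 := by
      intro y hy
      rw [mem_closedBall_iff_norm, not_le] at hy
      have : ∀ x, g x y * (e1 x * e3 y) = 0 := by
        intro x
        have : g x y = 0 := by
          by_contra hne
          exact absurd ((hgs x y hne).2.trans hcr) (not_le.2 hy)
        rw [this, zero_mul]
      simp [this]
    rw [← setIntegral_eq_integral_of_forall_compl_eq_zero hout]
    refine (norm_setIntegral_le_of_norm_le_const measure_closedBall_lt_top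
      fun y _ => hin y).trans (le_of_eq ?_)
    rw [Measure.addHaar_real_closedBall _ _ hr.le, finrank_euclideanSpace_fin]
    exact hfin

end Pool.Agent.LFK
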