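import Pool.Agent.LFK.FR3
import Pool.Agent.LFK.FAR2

/-!
LEAFK row F5: integration by parts in one of the variables `z`.
-/

set_option autoImplicit false

namespace Pool.Agent.LFK.FR

open MeasureTheory Set Filter Topology Pool.Agent.MP_6cbfb8_an
open scoped ENNReal Real RealInnerProductSpace ContDiff ComplexConjugate

variable {k m n : ℕ}

theorem f5_ZZ {X : E k × E m → E n} {th : E m → ℝ} (hth : Th th) {c0 r : ℝ} (hc0 : 0 < c0)
    (hr : 0 < r) {w : E n} {p : E k × E m} (h : 1 - ZZ X th c0 r w p ≠ 0) :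
    c0 / 2 * r ≤ ‖Vw X w p‖ := by
  by_contra h1
  rw [not_le] at h1
  apply h
  unfold ZZ
  rw [hth.2.2.2.1, sub_self]
  rw [norm_smul, norm_inv, Real.norm_of_nonneg (by positivity), inv_mul_le_iff₀ (by positivity)]
  linarith

theorem f5_sup {p0 : E k × E m} {δ : ℝ} (hδ : δ ≤ 1) {B : ℕ → ℝ} {b : E k × E m → ℂ}
    (hb : Dn p0 δ B b) {t : E k} {z : E m} (h : b (t, z) ≠ 0) : ‖z - p0.2‖ ≤ 1 := by
  by_contra h1
  rw [not_le] at h1
  apply h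
  refine hb.2.2.2 _ ?_
  have h2 : ‖z - p0.2‖ ≤ ‖((t, z) : E k × E m) - p0‖ := norm_snd_le ((t, z) - p0)
  linarith

/-- F5. Integration by parts in one of the variables `z`. -/
theorem farII {X : E k × E m → E n} {A : ℕ → ℝ} {p0 : E k × E m} {κ : ℝ} (h : Ch X A p0 κ)
    {th : E m → ℝ} (hth : Th th) {N0 : E k × E m → ℝ} (hN : Nz N0)
    (κ' c0 : ℝ) (hκ' : 0 < κ') (hc0 : 0 < c0) (δ : ℝ) (hδ : δ ≤ 1) (B : ℕ → ℝ) (N : ℕ) :
    ∃ C : ℝ, 0 ≤ C ∧ ∀ (b : E k × E m → ℂ), Dn p0 δ B b → ∀ (R r : ℝ), 1 ≤ R → 0 < r →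
      r ≤ 1 → 1 ≤ R * r ^ 2 → ∀ (w : E n) (t : E k) (p1 p2 p3 p4 : E k × E m), ‖w‖ ≤ 8 →
      ‖∫ z, G1 X th N0 κ' c0 b r w (t, z) p2 p3 p4 * ex X (R • w) (t, z)‖ ≤
        C * ((R * r ^ 2)⁻¹) ^ N ∧
      ‖∫ z, G3 X th N0 κ' c0 b r w p1 p2 (t, z) p4 * conj (ex X (R • w) (t, z))‖ ≤
        C * ((R * r ^ 2)⁻¹) ^ N ∧
      ‖∫ z, G4 X th N0 κ' c0 b r w p1 p2 p3 (t, z) * conj (ex X (R • w) (t, z))‖ ≤
        C * ((R * r ^ 2)⁻¹) ^ N := by
  obtain ⟨D, hD⟩ := symB h hth hN κ' c0 hκ' hc0 δ B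
  obtain ⟨C, hC, hfar⟩ := far2 k m n N (c0 / 2) (∑ j ∈ Finset.range (2 * N + 3), |A j|) 8
    (by positivity)
  set Bd : ℝ := ∑ j ∈ Finset.range (2 * N + 1), |D j| with hBd
  have hBd0 : 0 ≤ Bd := Finset.sum_nonneg fun _ _ => abs_nonneg _
  refine ⟨C * Bd, by positivity, ?_⟩
  intro b hb R r hR hr hr1 hRr w t p1 p2 p3 p4 hw
  obtain ⟨⟨s1, b1⟩, ⟨s3, b3⟩, ⟨s4, b4⟩⟩ := hD b hb r w t p1 p2 p3 p4 hr hr1 hw
  have hDj : ∀ j ≤ 2 * N, D j * (r ^ j)⁻¹ ≤ Bd * (r ^ j)⁻¹ := by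
    intro j hj
    refine mul_le_mul_of_nonneg_right ((le_abs_self _).trans ?_) (by positivity)
    exact Finset.single_le_sum (f := fun j => |D j|) (fun _ _ => abs_nonneg _)
      (Finset.mem_range.2 (by omega))
  have hAj : ∀ j ≤ 2 * N + 2, ∀ p, ‖iteratedFDeriv ℝ j X p‖ ≤
      ∑ j ∈ Finset.range (2 * N + 3), |A j| := by
    intro j hj p
    refine ((h.hA j p).trans (le_abs_self _)).trans ?_
    exact Finset.single_le_sum (f := fun j => |A j|) (fun _ _ => abs_nonneg _)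
      (Finset.mem_range.2 (by omega))
  have key : ∀ (s : ℝ) (g : E m → ℂ), |s| = 1 → ContDiff ℝ ∞ g →
      (∀ j z, ‖iteratedFDeriv ℝ j g z‖ ≤ D j * (r ^ j)⁻¹) →
      (∀ z, g z ≠ 0 → b (t, z) ≠ 0) → (∀ z, g z ≠ 0 → 1 - ZZ X th c0 r w (t, z) ≠ 0) →
      ‖∫ z, g z * Complex.exp (((s * R * ⟪w, X (t, z)⟫ : ℝ) : ℂ) * Complex.I)‖ ≤
        C * Bd * ((R * r ^ 2)⁻¹) ^ N := by
    intro s g hs hg hgb hg1 hg2
    have h1 := hfar X h.hX hAj R r r 1 Bd s w t p0.2 g hr hr1 hr1 le_rfl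
      (by rw [← sq]; exact hRr) hBd0 hs hw (contDiff_infty.1 hg (2 * N))
      (fun z hz => by
        by_contra h2
        exact absurd (f5_sup hδ hb (hg1 z h2)) (not_le.2 hz))
      (fun j hj z => (hgb j z).trans (hDj j hj))
      (fun z hz => f5_ZZ hth hc0 hr (hg2 z hz))
    rw [one_pow, mul_one, ← sq, one_div] at h1
    exact h1
  have hex : ∀ z, ex X (R • w) (t, z) =
      Complex.exp (((-1 * R * ⟪w, X (t, z)⟫ : ℝ) : ℂ) * Complex.I) := by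
    intro z
    unfold ex
    congr 3
    rw [real_inner_smul_left]
    ring
  have hex' : ∀ z, conj (ex X (R • w) (t, z)) =
      Complex.exp (((1 * R * ⟪w, X (t, z)⟫ : ℝ) : ℂ) * Complex.I) := by
    intro z
    rw [hex, ← Complex.exp_conj, map_mul, Complex.conj_ofReal, Complex.conj_I]
    congr 1
    push_cast
    ring
  refine ⟨?_, ?_, ?_⟩
  · simp only [hex]
    refine key (-1) _ (by norm_num) s1 b1 (fun z hz h1 => hz ?_) (fun z hz h1 => hz ?_)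
    · simp only [G1, Fa, Bf, h1]
      ring
    · simp only [G1, h1]
      simp
  · simp only [hex']
    refine key 1 _ (by norm_num) s3 b3 (fun z hz h1 => hz ?_) (fun z hz h1 => hz ?_)
    · simp only [G3, Fa, Bf, h1]
      simp
    · simp only [G3, h1]
      simp
  · simp only [hex']
    refine key 1 _ (by norm_num) s4 b4 (fun z hz h1 => hz ?_) (fun z hz h1 => hz ?_)
    · simp only [G4, Fa, Bf, h1]
      simp
    · simp only [G4, h1]
      simp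

end Pool.Agent.LFK.FR
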