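import Pool.Agent.MP_6cbfb8_an.Defs

/-!
[LEAFK] Fubini for bounded measurable functions which vanish off a ball.
-/

set_option autoImplicit false

namespace Pool.Agent.LFK.FR

open MeasureTheory Set Filter Topology
open scoped ENNReal Real

/-- Spaces with a Lebesgue measure. -/
class Leb (α : Type*) [NormedAddCommGroup α] [NormedSpace ℝ α] [MeasureSpace α] : Prop where
  fin : FiniteDimensional ℝ α
  bor : BorelSpace α
  haar : (volume : Measure α).IsAddHaarMeasure

instance (n : ℕ) : Leb (MP_6cbfb8_an.E n) := ⟨inferInstance, inferInstance, inferInstance⟩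

section

variable {α β γ : Type*} [NormedAddCommGroup α] [NormedSpace ℝ α] [MeasureSpace α] [Leb α]
  [NormedAddCommGroup β] [NormedSpace ℝ β] [MeasureSpace β] [Leb β]
  [NormedAddCommGroup γ] [NormedSpace ℝ γ] [MeasureSpace γ] [Leb γ]

theorem leb_sf : SFinite (volume : Measure α) := by
  have := Leb.fin (α := α)
  have := Leb.bor (α := α)
  have := Leb.haar (α := α)
  have : ProperSpace α := FiniteDimensional.proper ℝ α
  infer_instance

instance : Leb (α × β) := by
  have := Leb.fin (α := α)
  have := Leb.bor (α := α)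
  have := Leb.haar (α := α)
  have := Leb.fin (α := β)
  have := Leb.bor (α := β)
  have := Leb.haar (α := β)
  have : ProperSpace α := FiniteDimensional.proper ℝ α
  have : ProperSpace β := FiniteDimensional.proper ℝ β
  have : SecondCountableTopology α := inferInstance
  have : SecondCountableTopology β := inferInstance
  exact ⟨inferInstance, inferInstance, by rw [Measure.volume_eq_prod]; infer_instance⟩

/-- Bounded measurable functions which vanish off a ball. -/
def Nice (f : α → ℂ) : Prop :=
  Measurable f ∧ ∃ C ρ : ℝ, (∀ x, ‖f x‖ ≤ C) ∧ ∀ x, ρ < ‖x‖ → f x = 0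

omit [Leb α] in
theorem Nice.meas {f : α → ℂ} (h : Nice f) : Measurable f := h.1

theorem ball_lt_top (ρ : ℝ) : volume (Metric.closedBall (0 : α) ρ) < ∞ := by
  have := Leb.fin (α := α)
  have := Leb.bor (α := α)
  have := Leb.haar (α := α)
  have : ProperSpace α := FiniteDimensional.proper ℝ α
  exact measure_closedBall_lt_top

theorem Nice.integrable {f : α → ℂ} (h : Nice f) : Integrable f := by
  have := Leb.fin (α := α)
  have := Leb.bor (α := α)
  have := Leb.haar (α := α)
  have : ProperSpace α := FiniteDimensional.proper ℝ α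
  obtain ⟨hm, C, ρ, hC, hρ⟩ := h
  have h1 : IntegrableOn f (Metric.closedBall (0 : α) ρ) :=
    Measure.integrableOn_of_bounded (M := C) (ball_lt_top ρ).ne hm.aestronglyMeasurable
      (Filter.Eventually.of_forall hC)
  refine (integrableOn_iff_integrable_of_support_subset fun x hx => ?_).1 h1
  rw [Metric.mem_closedBall, dist_zero_right]
  by_contra hc
  exact hx (hρ x (not_le.1 hc))

omit [Leb α] [Leb β] in
theorem Nice.left {f : α × β → ℂ} (h : Nice f) (a : α) : Nice fun b => f (a, b) := by
  obtain ⟨hm, C, ρ, hC, hρ⟩ := h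
  exact ⟨hm.comp measurable_prodMk_left, C, ρ, fun b => hC _, fun b hb => hρ _
    (hb.trans_le (norm_snd_le (a, b)))⟩

omit [Leb α] [Leb β] in
theorem Nice.right {f : α × β → ℂ} (h : Nice f) (b : β) : Nice fun a => f (a, b) := by
  obtain ⟨hm, C, ρ, hC, hρ⟩ := h
  exact ⟨hm.comp measurable_prodMk_right, C, ρ, fun a => hC _, fun a ha => hρ _
    (ha.trans_le (norm_fst_le (a, b)))⟩

theorem Nice.integral_prod {f : α × β → ℂ} (h : Nice f) : ∫ x, f x = ∫ a, ∫ b, f (a, b) := by
  have := leb_sf (α := α)
  have := leb_sf (α := β)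
  have h1 := h.integrable
  rw [Measure.volume_eq_prod] at h1 ⊢
  exact MeasureTheory.integral_prod _ h1

theorem Nice.integral_prod' {f : α × β → ℂ} (h : Nice f) : ∫ x, f x = ∫ b, ∫ a, f (a, b) := by
  have := leb_sf (α := α)
  have := leb_sf (α := β)
  have h1 := h.integrable
  rw [Measure.volume_eq_prod] at h1 ⊢
  exact MeasureTheory.integral_prod_symm _ h1

theorem Nice.integrable_left {f : α × β → ℂ} (h : Nice f) : Integrable fun a => ∫ b, f (a, b) := by
  have := leb_sf (α := α)
  have := leb_sf (α := β)
  have h1 := h.integrable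
  rw [Measure.volume_eq_prod] at h1
  exact h1.integral_prod_left

omit [Leb α] in
/-- The integral of a bounded function which vanishes off a ball. -/
theorem norm_int_le [Leb α] {g : α → ℂ} {M ρ : ℝ} (hM : ∀ x, ‖g x‖ ≤ M)
    (h0 : ∀ x, ρ < ‖x‖ → g x = 0) :
    ‖∫ x, g x‖ ≤ M * (volume : Measure α).real (Metric.closedBall 0 ρ) := by
  have := Leb.fin (α := α)
  have := Leb.bor (α := α)
  have h1 : ∫ x, g x = ∫ x in Metric.closedBall (0 : α) ρ, g x := by
    rw [setIntegral_eq_integral_of_forall_compl_eq_zero]
    intro x hx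
    rw [Metric.mem_closedBall, dist_zero_right, not_le] at hx
    exact h0 x hx
  rw [h1]
  exact norm_setIntegral_le_of_norm_le_const (ball_lt_top ρ) fun x _ => hM x

/-- The integral over `(w, (t, z))`: first over `(w, z)`, then over `t`. -/
theorem Nice.integral_mid {f : α × (β × γ) → ℂ} (h : Nice f) :
    ∫ x, f x = ∫ t, ∫ q : α × γ, f (q.1, (t, q.2)) := by
  have := leb_sf (α := α)
  have := leb_sf (α := β)
  have := leb_sf (α := γ)
  -- the measure preserving map
  let e : β × (α × γ) ≃ᵐ α × (β × γ) :=
    (MeasurableEquiv.prodAssoc.symm.trans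
      (MeasurableEquiv.prodCongr MeasurableEquiv.prodComm (MeasurableEquiv.refl γ))).trans
      MeasurableEquiv.prodAssoc
  have he : MeasurePreserving e (volume.prod (volume.prod volume))
      (volume.prod (volume.prod volume)) := by
    have h1 : MeasurePreserving (MeasurableEquiv.prodAssoc : (β × α) × γ ≃ᵐ β × (α × γ)).symm
        (volume.prod (volume.prod volume)) ((volume.prod volume).prod volume) :=
      (measurePreserving_prodAssoc volume volume volume).symm
    have h2 : MeasurePreserving (Prod.map (Prod.swap : β × α → α × β) (id : γ → γ))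
        ((volume.prod volume).prod volume) ((volume.prod volume).prod volume) :=
      Measure.measurePreserving_swap.prod (MeasurePreserving.id _)
    have h3 : MeasurePreserving (MeasurableEquiv.prodAssoc : (α × β) × γ ≃ᵐ α × (β × γ))
        ((volume.prod volume).prod volume) (volume.prod (volume.prod volume)) :=
      measurePreserving_prodAssoc volume volume volume
    exact h3.comp (h2.comp h1)
  have h1 : ∫ x, f x = ∫ y : β × (α × γ), f (e y) := by
    rw [Measure.volume_eq_prod, Measure.volume_eq_prod β γ, Measure.volume_eq_prod β (α × γ),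
      Measure.volume_eq_prod α γ]
    exact (he.integral_comp' f).symm
  have h2 : Nice fun y : β × (α × γ) => f (y.2.1, (y.1, y.2.2)) := by
    obtain ⟨hm, C, ρ, hC, hρ⟩ := h
    refine ⟨hm.comp (measurable_snd.fst.prodMk (measurable_fst.prodMk measurable_snd.snd)), C, ρ,
      fun y => hC _, fun y hy => hρ _ ?_⟩
    obtain ⟨t, w, z⟩ := y
    simp only [Prod.norm_def, lt_max_iff] at hy ⊢
    tauto
  have h3 : ∫ y : β × (α × γ), f (e y) = ∫ y : β × (α × γ), f (y.2.1, (y.1, y.2.2)) := rfl
  rw [h1, h3, h2.integral_prod]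

end

end Pool.Agent.LFK.FR
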