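import Pool.Agent.LFK.FR6a
import Pool.Agent.LFK.NICE

/-!
[LEAFK] The first term of the far part.
-/

set_option autoImplicit false

namespace Pool.Agent.LFK.FR

open MeasureTheory Set Filter Topology Pool.Agent.MP_6cbfb8_an
open scoped ENNReal Real RealInnerProductSpace ContDiff ComplexConjugate

namespace T0

section

variable {α β γ : Type*} [NormedAddCommGroup α] [NormedSpace ℝ α] [MeasureSpace α] [Leb α]
  [NormedAddCommGroup β] [NormedSpace ℝ β] [MeasureSpace β] [Leb β]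
  [NormedAddCommGroup γ] [NormedSpace ℝ γ] [MeasureSpace γ] [Leb γ]

theorem leb_sub (f : α → ℂ) (a : α) : ∫ x, f (a - x) = ∫ x, f x := by
  have := Leb.fin (α := α)
  have := Leb.bor (α := α)
  have := Leb.haar (α := α)
  have : ProperSpace α := FiniteDimensional.proper ℝ α
  exact integral_sub_left_eq_self f volume a

theorem leb_add (f : α → ℂ) (a : α) : ∫ x, f (a + x) = ∫ x, f x := by
  have := Leb.fin (α := α)
  have := Leb.bor (α := α)
  have := Leb.haar (α := α)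
  exact integral_add_left_eq_self f a

theorem int_tri {f : γ × (α × β) → ℂ} (h : Nice f) :
    ∫ x, f x = ∫ a, ∫ b, ∫ c, f (c, (a, b)) := by
  have := leb_sf (α := α)
  have := leb_sf (α := β)
  have := leb_sf (α := γ)
  have h1 := h.integrable
  rw [h.integral_prod']
  rw [Measure.volume_eq_prod] at h1
  have h2 := h1.integral_prod_right
  rw [Measure.volume_eq_prod α β] at h2 ⊢
  exact MeasureTheory.integral_prod _ h2

end

variable {k m n : ℕ}

noncomputable instance instMST (k m : ℕ) :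
    MeasureSpace ((E k × E m) × ((E k × E m) × (E k × E m))) := Measure.prod.measureSpace

noncomputable instance instMSZ (k m n : ℕ) :
    MeasureSpace (((E k × E m) × ((E k × E m) × (E k × E m))) × (E n × (E k × E m))) :=
  Measure.prod.measureSpace

/-- The integrand of the first term, in the variables `((e, u, v), (w, p))`,
`p2 = p + e`, `p3 = p - u`, `p4 = p - v`. -/
noncomputable def Psi (X : E k × E m → E n) (th : E m → ℝ) (η : E n → ℝ) (N0 : E k × E m → ℝ)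
    (κ' : ℝ) (b : E k × E m → ℂ) (R r : ℝ)
    (x : ((E k × E m) × ((E k × E m) × (E k × E m))) × (E n × (E k × E m))) : ℂ :=
  ((η x.2.1 : ℝ) : ℂ) *
    (((AA X th κ' r x.2.1 x.2.2 x.1.2.1 x.1.2.2 * Nf N0 r x.1.2.1 x.1.2.2 : ℝ) : ℂ) *
      Bf b x.2.2 (x.2.2 + x.1.1) (x.2.2 - x.1.2.1) (x.2.2 - x.1.2.2)) *
    Ex X (R • x.2.1) x.2.2 (x.2.2 + x.1.1) (x.2.2 - x.1.2.1) (x.2.2 - x.1.2.2)

theorem bnd {p0 : E k × E m} {δ : ℝ} {B : ℕ → ℝ} {b : E k × E m → ℂ} (hb : Dn p0 δ B b)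
    (p : E k × E m) : ‖b p‖ ≤ B 0 := by
  have h := hb.2.2.1 p.1 0 p.2
  rwa [norm_iteratedFDeriv_zero] at h

theorem zer {p0 : E k × E m} {δ : ℝ} {B : ℕ → ℝ} {b : E k × E m → ℂ} (hb : Dn p0 δ B b)
    {ρ : ℝ} (hρ : ‖p0‖ + δ ≤ ρ) {p : E k × E m} (hp : ρ < ‖p‖) : b p = 0 := by
  refine hb.2.2.2 p ?_
  have h1 : ‖p‖ ≤ ‖p - p0‖ + ‖p0‖ := by
    calc ‖p‖ = ‖(p - p0) + p0‖ := by rw [sub_add_cancel]
      _ ≤ _ := norm_add_le _ _
  linarith

theorem nf_bd {N0 : E k × E m → ℝ} (hN : Nz N0) (r : ℝ) (u v : E k × E m) :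
    |Nf N0 r u v| ≤ 4 := by
  unfold Nf
  rw [abs_mul]
  have h2 : ∀ y, |1 - N0 y| ≤ 2 := fun y => by
    have h3 := abs_le.1 (hN.2.1 y)
    rw [abs_le]
    constructor <;> linarith
  calc |1 - N0 (r⁻¹ • u)| * |1 - N0 (r⁻¹ • v)| ≤ 2 * 2 :=
        mul_le_mul (h2 _) (h2 _) (abs_nonneg _) (by norm_num)
    _ = 4 := by norm_num

theorem psi_zero (X : E k × E m → E n) (th : E m → ℝ) {η : E n → ℝ} (hη : Et η)
    (N0 : E k × E m → ℝ) (κ' : ℝ) {p0 : E k × E m} {δ : ℝ} {B : ℕ → ℝ} {b : E k × E m → ℂ}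
    (hb : Dn p0 δ B b) (R r : ℝ) {ρ : ℝ} (hρ : ‖p0‖ + δ ≤ ρ) (hρ2 : 2 ≤ ρ)
    (x : ((E k × E m) × ((E k × E m) × (E k × E m))) × (E n × (E k × E m)))
    (hx : 2 * ρ < ‖x‖) : Psi X th η N0 κ' b R r x = 0 := by
  obtain ⟨⟨e, u, v⟩, w, p⟩ := x
  have hρ0 : 0 ≤ ρ := by linarith
  have hcase : 2 * ρ < ‖e‖ ∨ 2 * ρ < ‖u‖ ∨ 2 * ρ < ‖v‖ ∨ 2 * ρ < ‖w‖ ∨ 2 * ρ < ‖p‖ := by
    by_contra hcon
    push Not at hcon
    obtain ⟨h1, h2, h3, h4, h5⟩ := hcon
    exact absurd hx (not_lt.2 (max_le (max_le h1 (max_le h2 h3)) (max_le h4 h5)))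
  have hB : Bf b p (p + e) (p - u) (p - v) = 0 ∨ η w = 0 := by
    rcases hcase with h1 | h1 | h1 | h1 | h1
    · left
      unfold Bf
      have h2 : ρ < ‖p‖ ∨ ρ < ‖p + e‖ := by
        by_contra hcon
        push Not at hcon
        have h3 : ‖e‖ ≤ ‖p + e‖ + ‖p‖ := by
          calc ‖e‖ = ‖(p + e) - p‖ := by rw [add_sub_cancel_left]
            _ ≤ _ := norm_sub_le _ _
        linarith [hcon.1, hcon.2]
      rcases h2 with h2 | h2
      · simp [zer hb hρ h2]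
      · simp [zer hb hρ h2]
    · left
      unfold Bf
      have h2 : ρ < ‖p‖ ∨ ρ < ‖p - u‖ := by
        by_contra hcon
        push Not at hcon
        have h3 : ‖u‖ ≤ ‖p‖ + ‖p - u‖ := by
          calc ‖u‖ = ‖p - (p - u)‖ := by rw [sub_sub_cancel]
            _ ≤ _ := norm_sub_le _ _
        linarith [hcon.1, hcon.2]
      rcases h2 with h2 | h2
      · simp [zer hb hρ h2]
      · simp [zer hb hρ h2]
    · left
      unfold Bf
      have h2 : ρ < ‖p‖ ∨ ρ < ‖p - v‖ := by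
        by_contra hcon
        push Not at hcon
        have h3 : ‖v‖ ≤ ‖p‖ + ‖p - v‖ := by
          calc ‖v‖ = ‖p - (p - v)‖ := by rw [sub_sub_cancel]
            _ ≤ _ := norm_sub_le _ _
        linarith [hcon.1, hcon.2]
      rcases h2 with h2 | h2
      · simp [zer hb hρ h2]
      · simp [zer hb hρ h2]
    · right
      by_contra hcon
      have := (hη.2.2.2.2 w hcon).2
      linarith
    · left
      unfold Bf
      have h2 : ρ < ‖p‖ := by linarith
      simp [zer hb hρ h2]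
  unfold Psi
  simp only
  rcases hB with h | h
  · rw [h]
    simp
  · rw [h]
    simp

theorem psi_nice {X : E k × E m → E n} (hX : ContDiff ℝ ∞ X) {th : E m → ℝ} (hth : Th th)
    {η : E n → ℝ} (hη : Et η) {N0 : E k × E m → ℝ} (hN : Nz N0) (κ' : ℝ) {p0 : E k × E m}
    {δ : ℝ} {B : ℕ → ℝ} {b : E k × E m → ℂ} (hb : Dn p0 δ B b) (R r : ℝ) :
    Nice (Psi X th η N0 κ' b R r) := by
  refine ⟨?_, 4 * (B 0 * B 0 * (B 0 * B 0)), 2 * max 2 (‖p0‖ + δ), fun x => ?_, fun x hx =>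
    psi_zero X th hη N0 κ' hb R r (le_max_right _ _) (le_max_left _ _) x hx⟩
  · have hbm := hb.1
    have hXc := hX.continuous
    have hNc := hN.1.continuous
    have haa := aa_cont hX hth κ' r
    have h1 : Measurable fun x : ((E k × E m) × ((E k × E m) × (E k × E m))) ×
        (E n × (E k × E m)) => ((η x.2.1 : ℝ) : ℂ) :=
      Complex.measurable_ofReal.comp (hη.1.continuous.measurable.comp measurable_snd.fst)
    have h2 : Measurable fun x : ((E k × E m) × ((E k × E m) × (E k × E m))) ×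
        (E n × (E k × E m)) => AA X th κ' r x.2.1 x.2.2 x.1.2.1 x.1.2.2 := by
      have h3 : Continuous fun x : ((E k × E m) × ((E k × E m) × (E k × E m))) ×
          (E n × (E k × E m)) => ((x.2.1, x.2.2, x.1.2.1, x.1.2.2) :
          E n × (E k × E m) × (E k × E m) × (E k × E m)) := by fun_prop
      exact (haa.comp h3).measurable
    have h3 : Measurable fun x : ((E k × E m) × ((E k × E m) × (E k × E m))) ×
        (E n × (E k × E m)) => Nf N0 r x.1.2.1 x.1.2.2 := by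
      unfold Nf
      refine Continuous.measurable ?_
      fun_prop
    have h4 : Measurable fun x : ((E k × E m) × ((E k × E m) × (E k × E m))) ×
        (E n × (E k × E m)) =>
        Bf b x.2.2 (x.2.2 + x.1.1) (x.2.2 - x.1.2.1) (x.2.2 - x.1.2.2) := by
      unfold Bf
      exact ((hbm.comp measurable_snd.snd).mul
        (hbm.comp (measurable_snd.snd.add measurable_fst.fst))).mul
        ((Complex.continuous_conj.measurable.comp
          (hbm.comp (measurable_snd.snd.sub measurable_fst.snd.fst))).mul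
          (Complex.continuous_conj.measurable.comp
            (hbm.comp (measurable_snd.snd.sub measurable_fst.snd.snd))))
    have h5 : Measurable fun x : ((E k × E m) × ((E k × E m) × (E k × E m))) ×
        (E n × (E k × E m)) =>
        Ex X (R • x.2.1) x.2.2 (x.2.2 + x.1.1) (x.2.2 - x.1.2.1) (x.2.2 - x.1.2.2) := by
      unfold Ex
      refine Continuous.measurable ?_
      fun_prop
    exact (h1.mul ((Complex.measurable_ofReal.comp (h2.mul h3)).mul h4)).mul h5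
  · have hB : 0 ≤ B 0 := (norm_nonneg _).trans (bnd hb p0)
    have hA := aa_mem X hth κ' r x.2.1 x.2.2 x.1.2.1 x.1.2.2
    unfold Psi Bf
    rw [norm_mul, norm_mul, norm_mul, norm_mul, norm_mul, norm_mul, RCLike.norm_conj,
      RCLike.norm_conj, Complex.norm_real, Complex.norm_real, Real.norm_eq_abs, Real.norm_eq_abs,
      abs_of_nonneg (hη.2.1 _), abs_mul, abs_of_nonneg hA.1]
    have hE : ‖Ex X (R • x.2.1) x.2.2 (x.2.2 + x.1.1) (x.2.2 - x.1.2.1) (x.2.2 - x.1.2.2)‖ = 1 :=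
      Complex.norm_exp_ofReal_mul_I _
    rw [hE, mul_one]
    have hb4 : ‖b x.2.2‖ * ‖b (x.2.2 + x.1.1)‖ * (‖b (x.2.2 - x.1.2.1)‖ *
        ‖b (x.2.2 - x.1.2.2)‖) ≤ B 0 * B 0 * (B 0 * B 0) :=
      mul_le_mul (mul_le_mul (bnd hb _) (bnd hb _) (norm_nonneg _) hB)
        (mul_le_mul (bnd hb _) (bnd hb _) (norm_nonneg _) hB) (by positivity) (by positivity)
    have hk : AA X th κ' r x.2.1 x.2.2 x.1.2.1 x.1.2.2 * |Nf N0 r x.1.2.1 x.1.2.2| ≤ 4 := by
      calc _ ≤ 1 * 4 := mul_le_mul hA.2 (nf_bd hN _ _ _) (abs_nonneg _) zero_le_one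
        _ = 4 := one_mul _
    calc η x.2.1 * (AA X th κ' r x.2.1 x.2.2 x.1.2.1 x.1.2.2 * |Nf N0 r x.1.2.1 x.1.2.2| *
          (‖b x.2.2‖ * ‖b (x.2.2 + x.1.1)‖ * (‖b (x.2.2 - x.1.2.1)‖ *
          ‖b (x.2.2 - x.1.2.2)‖))) ≤ 1 * (4 * (B 0 * B 0 * (B 0 * B 0))) := by
          refine mul_le_mul (hη.2.2.1 _) ?_
            (mul_nonneg (mul_nonneg hA.1 (abs_nonneg _)) (by positivity)) zero_le_one
          exact mul_le_mul hk hb4 (by positivity) (by norm_num)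
      _ = _ := one_mul _

/-- The integrand in the variables `(w, z)`. -/
theorem psi_eq (X : E k × E m → E n) (th : E m → ℝ) (η : E n → ℝ)
    (N0 : E k × E m → ℝ) (κ' : ℝ) (b : E k × E m → ℂ) (R r : ℝ) (e u v : E k × E m) (w : E n)
    (p : E k × E m) : Psi X th η N0 κ' b R r ((e, (u, v)), (w, p)) =
      ((η w : ℝ) : ℂ) * G0 X th N0 κ' b r w p u v (e + u + v) *
        Complex.exp (((-(R * ⟪w, sdf X u v (e + u + v) p⟫) : ℝ) : ℂ) * Complex.I) := by
  have h1 : p - u - v + (e + u + v) = p + e := by abel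
  unfold Psi G0 Ex sdf
  rw [h1, real_inner_smul_left]

/-- The change of variables. -/
theorem psi_cv (X : E k × E m → E n) (th : E m → ℝ) (η : E n → ℝ)
    (N0 : E k × E m → ℝ) (κ' : ℝ) (b : E k × E m → ℂ) (R r : ℝ) (w : E n) (p1 : E k × E m) :
    ∫ p2, ∫ p3, ∫ p4, ((η w : ℝ) : ℂ) * (((AA X th κ' r w p1 (p1 - p3) (p1 - p4) : ℝ) : ℂ) *
      Fa N0 b r p1 p2 p3 p4) * Ex X (R • w) p1 p2 p3 p4 =
    ∫ e, ∫ u, ∫ v, Psi X th η N0 κ' b R r ((e, (u, v)), (w, p1)) := by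
  rw [← leb_add _ p1]
  refine integral_congr_ae (Eventually.of_forall fun e => ?_)
  simp only
  rw [← leb_sub _ p1]
  refine integral_congr_ae (Eventually.of_forall fun u => ?_)
  simp only
  rw [← leb_sub _ p1]
  refine integral_congr_ae (Eventually.of_forall fun v => ?_)
  simp only [Psi, Fa, sub_sub_cancel]
  push_cast
  ring

/-- The order of integration. -/
theorem psi_ord {X : E k × E m → E n} (hX : ContDiff ℝ ∞ X) {th : E m → ℝ} (hth : Th th)
    {η : E n → ℝ} (hη : Et η) {N0 : E k × E m → ℝ} (hN : Nz N0) (κ' : ℝ) {p0 : E k × E m}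
    {δ : ℝ} {B : ℕ → ℝ} {b : E k × E m → ℂ} (hb : Dn p0 δ B b) (R r : ℝ) :
    ∫ w, ∫ p1, ∫ e, ∫ u, ∫ v, Psi X th η N0 κ' b R r ((e, (u, v)), (w, p1)) =
    ∫ τ : (E k × E m) × ((E k × E m) × (E k × E m)), ∫ t, ∫ q : E n × E m,
      Psi X th η N0 κ' b R r (τ, (q.1, (t, q.2))) := by
  have hn := psi_nice hX hth hη hN κ' hb R r
  -- the right side is the integral over the product
  have h1 : ∫ τ : (E k × E m) × ((E k × E m) × (E k × E m)), ∫ t, ∫ q : E n × E m,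
      Psi X th η N0 κ' b R r (τ, (q.1, (t, q.2))) =
      ∫ x, Psi X th η N0 κ' b R r x := by
    rw [hn.integral_prod]
    refine integral_congr_ae (Eventually.of_forall fun τ => ?_)
    exact ((hn.left τ).integral_mid).symm
  rw [h1, int_tri hn]
  -- the inner integral
  have h2 : ∀ y : E n × (E k × E m), ∫ τ, Psi X th η N0 κ' b R r (τ, y) =
      ∫ e, ∫ u, ∫ v, Psi X th η N0 κ' b R r ((e, (u, v)), y) := by
    intro y
    rw [(hn.right y).integral_prod]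
    refine integral_congr_ae (Eventually.of_forall fun e => ?_)
    exact ((hn.right y).left e).integral_prod
  refine integral_congr_ae (Eventually.of_forall fun w => ?_)
  refine integral_congr_ae (Eventually.of_forall fun p1 => ?_)
  exact (h2 (w, p1)).symm

end T0

variable {k m n : ℕ}

/-- The first term. -/
theorem far_T0 {X : E k × E m → E n} {A : ℕ → ℝ} {p0 : E k × E m} {κ : ℝ} (h : Ch X A p0 κ)
    {th : E m → ℝ} (hth : Th th) {η : E n → ℝ} (hη : Et η) {N0 : E k × E m → ℝ} (hN : Nz N0)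
    {δ1 : ℝ} {B : ℕ → ℝ} {N : ℕ} {C : ℝ} (hC : 0 ≤ C)
    (hI : ∀ (b : E k × E m → ℂ), Dn p0 δ1 B b → ∀ (R r : ℝ), 1 ≤ R → 0 < r → r ≤ 1 →
      1 ≤ R * r ^ 2 → ∀ (t : E k) (u v d : E k × E m),
      ‖∫ q : E n × E m, ((η q.1 : ℝ) : ℂ) * G0 X th N0 (κ / 4) b r q.1 (t, q.2) u v d *
        Complex.exp (((-(R * ⟪q.1, sdf X u v d (t, q.2)⟫) : ℝ) : ℂ) * Complex.I)‖ ≤
        C * ((R * r ^ 2)⁻¹) ^ N) :
    ∃ C' : ℝ, 0 ≤ C' ∧ ∀ (b : E k × E m → ℂ), Dn p0 δ1 B b → ∀ (R r : ℝ), 1 ≤ R → 0 < r →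
      r ≤ 1 → 1 ≤ R * r ^ 2 →
      ‖∫ w, ∫ p1, ∫ p2, ∫ p3, ∫ p4, ((η w : ℝ) : ℂ) *
        (((AA X th (κ / 4) r w p1 (p1 - p3) (p1 - p4) : ℝ) : ℂ) * Fa N0 b r p1 p2 p3 p4) *
        Ex X (R • w) p1 p2 p3 p4‖ ≤ C' * ((R * r ^ 2)⁻¹) ^ N := by
  obtain ⟨ρ, hρ⟩ : ∃ ρ, ρ = max 2 (‖p0‖ + δ1) := ⟨_, rfl⟩
  have hρ2 : 2 ≤ ρ := by rw [hρ]; exact le_max_left _ _
  have hρp : ‖p0‖ + δ1 ≤ ρ := by rw [hρ]; exact le_max_right _ _
  refine ⟨C * (volume : Measure (E k)).real (Metric.closedBall 0 ρ) *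
    (volume : Measure ((E k × E m) × ((E k × E m) × (E k × E m)))).real
      (Metric.closedBall 0 (2 * ρ)),
    mul_nonneg (mul_nonneg hC measureReal_nonneg) measureReal_nonneg, ?_⟩
  intro b hb R r hR hr hr1 hRr
  have e1 : ∫ w, ∫ p1, ∫ p2, ∫ p3, ∫ p4, ((η w : ℝ) : ℂ) *
        (((AA X th (κ / 4) r w p1 (p1 - p3) (p1 - p4) : ℝ) : ℂ) * Fa N0 b r p1 p2 p3 p4) *
        Ex X (R • w) p1 p2 p3 p4 =
      ∫ τ : (E k × E m) × ((E k × E m) × (E k × E m)), ∫ t, ∫ q : E n × E m,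
      T0.Psi X th η N0 (κ / 4) b R r (τ, (q.1, (t, q.2))) := by
    rw [← T0.psi_ord h.hX hth hη hN (κ / 4) hb R r]
    refine integral_congr_ae (Eventually.of_forall fun w => ?_)
    refine integral_congr_ae (Eventually.of_forall fun p1 => ?_)
    exact T0.psi_cv X th η N0 (κ / 4) b R r w p1
  rw [e1]
  obtain ⟨Y, hY⟩ : ∃ Y, Y = ((R * r ^ 2)⁻¹) ^ N := ⟨_, rfl⟩
  rw [← hY]
  have e2 : ∀ (τ : (E k × E m) × ((E k × E m) × (E k × E m))) (t : E k),
      ‖∫ q : E n × E m, T0.Psi X th η N0 (κ / 4) b R r (τ, (q.1, (t, q.2)))‖ ≤ C * Y := by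
    intro τ t
    obtain ⟨e, u, v⟩ := τ
    have h2 := hI b hb R r hR hr hr1 hRr t u v (e + u + v)
    rw [← hY] at h2
    simpa only [T0.psi_eq] using h2
  have e3 : ∀ τ : (E k × E m) × ((E k × E m) × (E k × E m)),
      ‖∫ t, ∫ q : E n × E m, T0.Psi X th η N0 (κ / 4) b R r (τ, (q.1, (t, q.2)))‖ ≤
        C * Y * (volume : Measure (E k)).real (Metric.closedBall 0 ρ) := by
    intro τ
    refine norm_int_le (e2 τ) fun t ht => ?_
    have h3 : ∀ q : E n × E m, T0.Psi X th η N0 (κ / 4) b R r (τ, (q.1, (t, q.2))) = 0 := by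
      intro q
      have h4 : b (t, q.2) = 0 := T0.zer hb hρp (ht.trans_le (norm_fst_le (t, q.2)))
      unfold T0.Psi Bf
      simp [h4]
    simp [h3]
  have e4 := norm_int_le (g := fun τ : (E k × E m) × ((E k × E m) × (E k × E m)) =>
    ∫ t, ∫ q : E n × E m, T0.Psi X th η N0 (κ / 4) b R r (τ, (q.1, (t, q.2)))) e3
    (ρ := 2 * ρ) (fun τ hτ => by
      have h3 : ∀ (t : E k) (q : E n × E m),
          T0.Psi X th η N0 (κ / 4) b R r (τ, (q.1, (t, q.2))) = 0 := fun t q =>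
        T0.psi_zero X th hη N0 (κ / 4) hb R r hρp hρ2 _ (hτ.trans_le
          (norm_fst_le (τ, (q.1, (t, q.2)))))
      simp [h3])
  calc _ ≤ _ := e4
    _ = _ := by ring

end Pool.Agent.LFK.FR
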