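import Pool.Agent.LFK.FR6b
import Pool.Agent.LFK.FR6c
import Pool.Agent.LFK.FR4
import Pool.Agent.LFK.FR5

/-!
[LEAFK] Row F6: the far part.
-/

set_option autoImplicit false

namespace Pool.Agent.LFK.FR

open MeasureTheory Set Filter Topology Pool.Agent.MP_6cbfb8_an
open scoped ENNReal Real RealInnerProductSpace ContDiff ComplexConjugate

variable {k m n : ℕ}

/-- F6 (module FR6). The far part. -/
theorem far {X : E k × E m → E n} {A : ℕ → ℝ} {p0 : E k × E m} {κ : ℝ} (h : Ch X A p0 κ)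
    {η : E n → ℝ} (hη : Et η) {N0 : E k × E m → ℝ} (hN : Nz N0) :
    ∃ δ1 : ℝ, 0 < δ1 ∧ ∀ (B : ℕ → ℝ) (N : ℕ), ∃ C : ℝ, 0 ≤ C ∧
      ∀ (b : E k × E m → ℂ), Dn p0 δ1 B b → ∀ (R r : ℝ), 1 ≤ R → 0 < r → r ≤ 1 → 1 ≤ R * r ^ 2 →
      ‖∫ ξ, (∫ p, b p * ex X ξ p) * (∫ p, b p * ex X ξ p *
        (∫ p', ((1 - N0 (r⁻¹ • (p - p')) : ℝ) : ℂ) * conj (b p' * ex X ξ p')) ^ 2) ∂(mu η R)‖ ≤
        C * R ^ n * ((R * r ^ 2)⁻¹) ^ N := by
  obtain ⟨th, hth⟩ := exists_th m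
  have hκ4 : 0 < κ / 4 := by
    have := h.hκ
    positivity
  obtain ⟨δa, hδa, hfarI⟩ := farI h hth hη hN
  obtain ⟨δb, c0, hδb, hc0, hsplit⟩ := split h hth hη hN (κ / 4) hκ4
  obtain ⟨δ1, hδ1⟩ : ∃ δ1, δ1 = min (min δa δb) 1 := ⟨_, rfl⟩
  have hδ10 : 0 < δ1 := by
    rw [hδ1]
    exact lt_min (lt_min hδa hδb) one_pos
  have hδ1a : δ1 ≤ δa := by
    rw [hδ1]
    exact (min_le_left _ _).trans (min_le_left _ _)
  have hδ1b : δ1 ≤ δb := by
    rw [hδ1]
    exact (min_le_left _ _).trans (min_le_right _ _)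
  have hδ11 : δ1 ≤ 1 := by
    rw [hδ1]
    exact min_le_right _ _
  refine ⟨δ1, hδ10, fun B N => ?_⟩
  obtain ⟨CI, hCI0, hCI⟩ := hfarI B N
  obtain ⟨CII, hCII0, hCII⟩ := farII h hth hN (κ / 4) c0 hκ4 hc0 δ1 hδ11 B N
  obtain ⟨C0, hC00, hC0⟩ := far_T0 h hth hη hN (δ1 := δ1) (B := B) (N := N) (C := CI) hCI0
    (fun b hb R r hR hr hr1 hRr t u v d => hCI b (dn_mono hδ1a hb) R r hR hr hr1 hRr t u v d)
  obtain ⟨ρ, hρ⟩ : ∃ ρ, ρ = max 4 (‖p0‖ + δ1) := ⟨_, rfl⟩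
  have hρ4 : 4 ≤ ρ := by rw [hρ]; exact le_max_left _ _
  have hρp : ‖p0‖ + δ1 ≤ ρ := by rw [hρ]; exact le_max_right _ _
  obtain ⟨V1, hV1⟩ : ∃ V1, V1 = vb (E k) ρ * vb (E n) ρ *
      vb ((E k × E m) × ((E k × E m) × (E k × E m))) ρ := ⟨_, rfl⟩
  obtain ⟨V3, hV3⟩ : ∃ V3, V3 = vb (E k) ρ * vb (E k × E m) ρ *
      vb (E k × E m) ρ * vb (E n × (E k × E m)) ρ := ⟨_, rfl⟩
  have hV10 : 0 ≤ V1 := by
    rw [hV1]
    exact mul_nonneg (mul_nonneg (vb_nonneg _ _) (vb_nonneg _ _)) (vb_nonneg _ _)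
  have hV30 : 0 ≤ V3 := by
    rw [hV3]
    exact mul_nonneg (mul_nonneg (mul_nonneg (vb_nonneg _ _) (vb_nonneg _ _)) (vb_nonneg _ _))
      (vb_nonneg _ _)
  refine ⟨C0 + CII * V1 + CII * V3 + CII * V3, by positivity, ?_⟩
  intro b hb R r hR hr hr1 hRr
  obtain ⟨Y, hY⟩ : ∃ Y, Y = ((R * r ^ 2)⁻¹) ^ N := ⟨_, rfl⟩
  have hY0 : 0 ≤ Y := by
    rw [hY]
    positivity
  have hR0 : 0 < R := by linarith
  have hXc := h.hX.continuous
  have haa := aa_cont h.hX hth (κ / 4) r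
  have hzz := zz_cont h.hX hth c0 r
  -- the four factors
  have hNm : Measurable fun x : Om k m n => Nf N0 r (x.1.2 - x.2.2.1) (x.1.2 - x.2.2.2) := by
    unfold Nf
    have := hN.1.continuous
    refine Continuous.measurable ?_
    fun_prop
  have hNb : ∀ a c : E k × E m, |Nf N0 r a c| ≤ 4 := by
    intro a c
    unfold Nf
    rw [abs_mul]
    have h2 : ∀ y, |1 - N0 y| ≤ 2 := fun y => by
      have h3 := abs_le.1 (hN.2.1 y)
      rw [abs_le]
      constructor <;> linarith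
    calc |1 - N0 (r⁻¹ • a)| * |1 - N0 (r⁻¹ • c)| ≤ 2 * 2 :=
          mul_le_mul (h2 _) (h2 _) (abs_nonneg _) (by norm_num)
      _ = 4 := by norm_num
  have ham : Measurable fun x : Om k m n =>
      AA X th (κ / 4) r x.1.1 x.1.2 (x.1.2 - x.2.2.1) (x.1.2 - x.2.2.2) := by
    have h2 : Continuous fun x : Om k m n => ((x.1.1, x.1.2, x.1.2 - x.2.2.1, x.1.2 - x.2.2.2) :
        E n × (E k × E m) × (E k × E m) × (E k × E m)) := by fun_prop
    exact (haa.comp h2).measurable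
  have hz : ∀ g : Om k m n → E k × E m, Continuous g →
      Measurable fun x : Om k m n => ZZ X th c0 r x.1.1 (g x) := by
    intro g hg
    have h2 : Continuous fun x : Om k m n => ((x.1.1, g x) : E n × (E k × E m)) := by fun_prop
    exact (hzz.comp h2).measurable
  have hz1 := hz (fun x => x.1.2) (by fun_prop)
  have hz3 := hz (fun x => x.2.2.1) (by fun_prop)
  have hz4 := hz (fun x => x.2.2.2) (by fun_prop)
  have hA01 := fun (w : E n) (p a c : E k × E m) => aa_mem X hth (κ / 4) r w p a c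
  have hZ01 := fun (w : E n) (p : E k × E m) => zz_mem X hth c0 r w p
  have hab : ∀ x y : ℝ, |x| ≤ 1 → |y| ≤ 4 → |x * y| ≤ 4 := by
    intro x y hx hy
    rw [abs_mul]
    calc |x| * |y| ≤ 1 * 4 := mul_le_mul hx hy (abs_nonneg _) (by norm_num)
      _ = 4 := one_mul _
  have hm1 : ∀ x y : ℝ, 0 ≤ x → x ≤ 1 → 0 ≤ y → y ≤ 1 → 0 ≤ x * y ∧ x * y ≤ 1 := fun x y h1 h2 h3 h4 =>
    ⟨mul_nonneg h1 h3, mul_le_one₀ h2 h3 h4⟩
  have ha1 : ∀ x : ℝ, 0 ≤ x ∧ x ≤ 1 → |x| ≤ 1 := fun x hx => by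
    rw [abs_of_nonneg hx.1]
    exact hx.2
  have hs1 : ∀ x : ℝ, 0 ≤ x ∧ x ≤ 1 → 0 ≤ 1 - x ∧ 1 - x ≤ 1 := fun x hx => by
    constructor <;> linarith [hx.1, hx.2]
  obtain ⟨KA, hKA⟩ : ∃ KA : Om k m n → ℝ, KA = fun x =>
    AA X th (κ / 4) r x.1.1 x.1.2 (x.1.2 - x.2.2.1) (x.1.2 - x.2.2.2) *
      Nf N0 r (x.1.2 - x.2.2.1) (x.1.2 - x.2.2.2) := ⟨_, rfl⟩
  obtain ⟨K1, hK1⟩ : ∃ K1 : Om k m n → ℝ, K1 = fun x =>
    ((1 - AA X th (κ / 4) r x.1.1 x.1.2 (x.1.2 - x.2.2.1) (x.1.2 - x.2.2.2)) *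
      (1 - ZZ X th c0 r x.1.1 x.1.2)) *
      Nf N0 r (x.1.2 - x.2.2.1) (x.1.2 - x.2.2.2) := ⟨_, rfl⟩
  obtain ⟨K3, hK3⟩ : ∃ K3 : Om k m n → ℝ, K3 = fun x =>
    ((1 - AA X th (κ / 4) r x.1.1 x.1.2 (x.1.2 - x.2.2.1) (x.1.2 - x.2.2.2)) *
      ZZ X th c0 r x.1.1 x.1.2 * (1 - ZZ X th c0 r x.1.1 x.2.2.1)) *
      Nf N0 r (x.1.2 - x.2.2.1) (x.1.2 - x.2.2.2) := ⟨_, rfl⟩
  obtain ⟨K4, hK4⟩ : ∃ K4 : Om k m n → ℝ, K4 = fun x =>
    ((1 - AA X th (κ / 4) r x.1.1 x.1.2 (x.1.2 - x.2.2.1) (x.1.2 - x.2.2.2)) *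
      ZZ X th c0 r x.1.1 x.1.2 * ZZ X th c0 r x.1.1 x.2.2.1 *
      (1 - ZZ X th c0 r x.1.1 x.2.2.2)) *
      Nf N0 r (x.1.2 - x.2.2.1) (x.1.2 - x.2.2.2) := ⟨_, rfl⟩
  have nA : Nice (Kf η b X R KA) := by
    refine kf_nice hη hb hXc R (K := KA) (c := 4) (by rw [hKA]; exact ham.mul hNm) fun x => ?_
    rw [hKA]
    exact hab _ _ (ha1 _ (hA01 _ _ _ _)) (hNb _ _)
  have n1 : Nice (Kf η b X R K1) := by
    refine kf_nice hη hb hXc R (K := K1) (c := 4) (by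
      rw [hK1]
      exact ((measurable_const.sub ham).mul (measurable_const.sub hz1)).mul hNm) fun x => ?_
    rw [hK1]
    refine hab _ _ (ha1 _ ?_) (hNb _ _)
    have a1 := hs1 _ (hA01 x.1.1 x.1.2 (x.1.2 - x.2.2.1) (x.1.2 - x.2.2.2))
    have a2 := hs1 _ (hZ01 x.1.1 x.1.2)
    exact hm1 _ _ a1.1 a1.2 a2.1 a2.2
  have n3 : Nice (Kf η b X R K3) := by
    refine kf_nice hη hb hXc R (K := K3) (c := 4) (by
      rw [hK3]
      exact (((measurable_const.sub ham).mul hz1).mul (measurable_const.sub hz3)).mul hNm)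
      fun x => ?_
    rw [hK3]
    refine hab _ _ (ha1 _ ?_) (hNb _ _)
    have a1 := hs1 _ (hA01 x.1.1 x.1.2 (x.1.2 - x.2.2.1) (x.1.2 - x.2.2.2))
    have a2 := hZ01 x.1.1 x.1.2
    have a3 := hs1 _ (hZ01 x.1.1 x.2.2.1)
    have a4 := hm1 _ _ a1.1 a1.2 a2.1 a2.2
    exact hm1 _ _ a4.1 a4.2 a3.1 a3.2
  have n4 : Nice (Kf η b X R K4) := by
    refine kf_nice hη hb hXc R (K := K4) (c := 4) (by
      rw [hK4]
      exact ((((measurable_const.sub ham).mul hz1).mul hz3).mul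
        (measurable_const.sub hz4)).mul hNm) fun x => ?_
    rw [hK4]
    refine hab _ _ (ha1 _ ?_) (hNb _ _)
    have a1 := hs1 _ (hA01 x.1.1 x.1.2 (x.1.2 - x.2.2.1) (x.1.2 - x.2.2.2))
    have a2 := hZ01 x.1.1 x.1.2
    have a3 := hZ01 x.1.1 x.2.2.1
    have a5 := hs1 _ (hZ01 x.1.1 x.2.2.2)
    have a4 := hm1 _ _ a1.1 a1.2 a2.1 a2.2
    have a6 := hm1 _ _ a4.1 a4.2 a3.1 a3.2
    exact hm1 _ _ a6.1 a6.2 a5.1 a5.2
  have hsp : ∀ x : Om k m n, Kf η b X R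
      (fun x => Nf N0 r (x.1.2 - x.2.2.1) (x.1.2 - x.2.2.2)) x =
      Kf η b X R KA x + Kf η b X R K1 x + Kf η b X R K3 x + Kf η b X R K4 x := by
    intro x
    have e1 := hsplit δ1 hδ10 hδ1b B b hb r x.1.1 x.1.2 x.2.1 x.2.2.1 x.2.2.2 hr hr1
    have e2 : x.1.2 - (x.1.2 - x.2.2.1) - (x.1.2 - x.2.2.2) + (x.1.2 + x.2.1 - x.2.2.1 - x.2.2.2) =
        x.2.1 := by abel
    unfold G0 at e1
    rw [e2, sub_sub_cancel, sub_sub_cancel] at e1
    unfold G1 G3 G4 Fa at e1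
    have e3 := congrArg (fun y => y * Ex X (R • x.1.1) x.1.2 x.2.1 x.2.2.1 x.2.2.2) e1
    rw [hKA, hK1, hK3, hK4]
    unfold Kf
    simp only
    refine e3.trans ?_
    push_cast
    ring
  have hw8 : ∀ w : E n, 8 < ‖w‖ → η w = 0 := by
    intro w hw
    by_contra hc
    linarith [(hη.2.2.2.2 w hc).2]
  have hη1 : ∀ w, ‖((η w : ℝ) : ℂ)‖ ≤ 1 := by
    intro w
    rw [Complex.norm_real, Real.norm_of_nonneg (hη.2.1 _)]
    exact hη.2.2.1 _
  have hCY : 0 ≤ CII * Y := mul_nonneg hCII0 hY0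
  -- inner integrals
  have i1 : ∀ (w : E n) (t : E k) q, ‖∫ z, Kf η b X R K1 ((w, (t, z)), q)‖ ≤ CII * Y := by
    rintro w t ⟨p2, p3, p4⟩
    rcases le_or_gt ‖w‖ 8 with hw | hw
    · have e1 : ∫ z, Kf η b X R K1 ((w, (t, z)), (p2, (p3, p4))) = (((η w : ℝ) : ℂ) *
          (ex X (R • w) p2 * (conj (ex X (R • w) p3) * conj (ex X (R • w) p4)))) *
          ∫ z, G1 X th N0 (κ / 4) c0 b r w (t, z) p2 p3 p4 * ex X (R • w) (t, z) := by
        rw [← integral_const_mul]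
        refine integral_congr_ae (Filter.Eventually.of_forall fun z => ?_)
        simp only
        rw [hK1]
        unfold Kf G1 Fa
        simp only
        rw [Ex_eq]
        push_cast
        ring
      rw [e1, norm_mul, norm_mul, norm_mul, norm_mul, RCLike.norm_conj, RCLike.norm_conj, ex_norm,
        ex_norm, ex_norm, mul_one, mul_one, mul_one]
      have e2 := (hCII b hb R r hR hr hr1 hRr w t 0 p2 p3 p4 hw).1
      rw [← hY] at e2
      calc ‖((η w : ℝ) : ℂ)‖ * _ ≤ 1 * (CII * Y) :=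
            mul_le_mul (hη1 w) e2 (norm_nonneg _) (by norm_num)
        _ = _ := one_mul _
    · have e1 : ∀ z, Kf η b X R K1 ((w, (t, z)), (p2, (p3, p4))) = 0 := by
        intro z
        unfold Kf
        simp [hw8 w hw]
      simp only [e1, integral_zero, norm_zero]
      exact hCY
  have i3 : ∀ (x : E n × (E k × E m)) (p2 p4 : E k × E m) (t : E k),
      ‖∫ z, Kf η b X R K3 (x, (p2, ((t, z), p4)))‖ ≤ CII * Y := by
    rintro ⟨w, p1⟩ p2 p4 t
    rcases le_or_gt ‖w‖ 8 with hw | hw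
    · have e1 : ∫ z, Kf η b X R K3 ((w, p1), (p2, ((t, z), p4))) = (((η w : ℝ) : ℂ) *
          (ex X (R • w) p1 * (ex X (R • w) p2 * conj (ex X (R • w) p4)))) *
          ∫ z, G3 X th N0 (κ / 4) c0 b r w p1 p2 (t, z) p4 * conj (ex X (R • w) (t, z)) := by
        rw [← integral_const_mul]
        refine integral_congr_ae (Filter.Eventually.of_forall fun z => ?_)
        simp only
        rw [hK3]
        unfold Kf G3 Fa
        simp only
        rw [Ex_eq]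
        push_cast
        ring
      rw [e1, norm_mul, norm_mul, norm_mul, norm_mul, RCLike.norm_conj, ex_norm,
        ex_norm, ex_norm, mul_one, mul_one, mul_one]
      have e2 := (hCII b hb R r hR hr hr1 hRr w t p1 p2 0 p4 hw).2.1
      rw [← hY] at e2
      calc ‖((η w : ℝ) : ℂ)‖ * _ ≤ 1 * (CII * Y) :=
            mul_le_mul (hη1 w) e2 (norm_nonneg _) (by norm_num)
        _ = _ := one_mul _
    · have e1 : ∀ z, Kf η b X R K3 ((w, p1), (p2, ((t, z), p4))) = 0 := by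
        intro z
        unfold Kf
        simp [hw8 w hw]
      simp only [e1, integral_zero, norm_zero]
      exact hCY
  have i4 : ∀ (x : E n × (E k × E m)) (p2 p3 : E k × E m) (t : E k),
      ‖∫ z, Kf η b X R K4 (x, (p2, (p3, (t, z))))‖ ≤ CII * Y := by
    rintro ⟨w, p1⟩ p2 p3 t
    rcases le_or_gt ‖w‖ 8 with hw | hw
    · have e1 : ∫ z, Kf η b X R K4 ((w, p1), (p2, (p3, (t, z)))) = (((η w : ℝ) : ℂ) *
          (ex X (R • w) p1 * (ex X (R • w) p2 * conj (ex X (R • w) p3)))) *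
          ∫ z, G4 X th N0 (κ / 4) c0 b r w p1 p2 p3 (t, z) * conj (ex X (R • w) (t, z)) := by
        rw [← integral_const_mul]
        refine integral_congr_ae (Filter.Eventually.of_forall fun z => ?_)
        simp only
        rw [hK4]
        unfold Kf G4 Fa
        simp only
        rw [Ex_eq]
        push_cast
        ring
      rw [e1, norm_mul, norm_mul, norm_mul, norm_mul, RCLike.norm_conj, ex_norm,
        ex_norm, ex_norm, mul_one, mul_one, mul_one]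
      have e2 := (hCII b hb R r hR hr hr1 hRr w t p1 p2 p3 0 hw).2.2
      rw [← hY] at e2
      calc ‖((η w : ℝ) : ℂ)‖ * _ ≤ 1 * (CII * Y) :=
            mul_le_mul (hη1 w) e2 (norm_nonneg _) (by norm_num)
        _ = _ := one_mul _
    · have e1 : ∀ z, Kf η b X R K4 ((w, p1), (p2, (p3, (t, z)))) = 0 := by
        intro z
        unfold Kf
        simp [hw8 w hw]
      simp only [e1, integral_zero, norm_zero]
      exact hCY
  have kz := fun K : Om k m n → ℝ => kf_zero hη hb X R K hρp hρ4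
  -- the four terms
  have t1 : ‖∫ x, Kf η b X R K1 x‖ ≤ CII * V1 * Y := by
    refine (bnd1 n1 i1 (kz K1)).trans (le_of_eq ?_)
    rw [hV1]
    ring
  have t3 : ‖∫ x, Kf η b X R K3 x‖ ≤ CII * V3 * Y := by
    refine (bnd3 n3 i3 (kz K3)).trans (le_of_eq ?_)
    rw [hV3]
    ring
  have t4 : ‖∫ x, Kf η b X R K4 x‖ ≤ CII * V3 * Y := by
    refine (bnd4 n4 i4 (kz K4)).trans (le_of_eq ?_)
    rw [hV3]
    ring
  have t0 : ‖∫ x, Kf η b X R KA x‖ ≤ C0 * Y := by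
    rw [om_iter nA]
    have e1 := hC0 b hb R r hR hr hr1 hRr
    rw [← hY] at e1
    refine le_trans (le_of_eq ?_) e1
    congr 1
    refine integral_congr_ae (Filter.Eventually.of_forall fun w => ?_)
    refine integral_congr_ae (Filter.Eventually.of_forall fun p1 => ?_)
    refine integral_congr_ae (Filter.Eventually.of_forall fun p2 => ?_)
    refine integral_congr_ae (Filter.Eventually.of_forall fun p3 => ?_)
    refine integral_congr_ae (Filter.Eventually.of_forall fun p4 => ?_)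
    simp only
    rw [hKA]
    unfold Kf Fa
    simp only
    push_cast
    ring
  have hfin : ‖∫ x : Om k m n, Kf η b X R
      (fun x => Nf N0 r (x.1.2 - x.2.2.1) (x.1.2 - x.2.2.2)) x‖ ≤
      (C0 + CII * V1 + CII * V3 + CII * V3) * Y := by
    have a1 : Integrable fun x => Kf η b X R KA x + Kf η b X R K1 x :=
      nA.integrable.add n1.integrable
    have a2 : Integrable fun x => Kf η b X R KA x + Kf η b X R K1 x + Kf η b X R K3 x :=
      a1.add n3.integrable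
    rw [integral_congr_ae (Filter.Eventually.of_forall hsp)]
    rw [integral_add a2 n4.integrable, integral_add a1 n3.integrable,
      integral_add nA.integrable n1.integrable]
    calc ‖_ + _ + _ + _‖ ≤ C0 * Y + CII * V1 * Y + CII * V3 * Y + CII * V3 * Y :=
          (norm_add_le _ _).trans (add_le_add ((norm_add_le _ _).trans (add_le_add
            ((norm_add_le _ _).trans (add_le_add t0 t1)) t3)) t4)
      _ = _ := by ring
  refine (far_red hη hb hXc hN hR0 r).trans ?_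
  rw [← hY]
  calc R ^ n * _ ≤ R ^ n * ((C0 + CII * V1 + CII * V3 + CII * V3) * Y) :=
        mul_le_mul_of_nonneg_left hfin (by positivity)
    _ = _ := by ring

end Pool.Agent.LFK.FR
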