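import Pool.Agent.LFK.Df0
import Pool.Agent.LFK.CH1

/-!
[LEAFK], row CHk: general position in a chart, in terms of the gradient `Vw`.
-/

set_option autoImplicit false

namespace Pool.Agent.LFK

open Set Pool.Agent.MP_6cbfb8_an
open scoped RealInnerProductSpace ContDiff

variable {k m n : ℕ}

theorem vw_inner (X : E k × E m → E n) (w : E n) (p : E k × E m) (z : E m) :
    ⟪Vw X w p, z⟫ = ⟪w, fderiv ℝ X p (0, z)⟫ := by
  rw [Vw, ContinuousLinearMap.adjoint_inner_left]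
  rfl

theorem vw_contDiff {X : E k × E m → E n} (hX : ContDiff ℝ ∞ X) (w : E n) :
    ContDiff ℝ ∞ (Vw X w) := by
  rw [contDiff_euclidean]
  intro i
  have h1 : (fun p => Vw X w p i) =
      fun p => ⟪w, fderiv ℝ X p (0, EuclideanSpace.single i (1 : ℝ))⟫ := by
    funext p
    rw [← vw_inner, real_inner_comm, EuclideanSpace.inner_single_left]
    simp
  rw [h1]
  exact contDiff_const.inner ℝ ((hX.fderiv_right (m := ∞) (by simp)).clm_apply contDiff_const)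

theorem vw_fderiv {X : E k × E m → E n} (hX : ContDiff ℝ ∞ X) (w : E n) (p u : E k × E m)
    (z : E m) : ⟪fderiv ℝ (Vw X w) p u, z⟫ = ⟪w, fderiv ℝ (fderiv ℝ X) p u (0, z)⟫ := by
  have hV : DifferentiableAt ℝ (Vw X w) p := (vw_contDiff hX w).differentiable (by simp) p
  have hD : DifferentiableAt ℝ (fderiv ℝ X) p :=
    (hX.fderiv_right (m := ∞) (by simp)).differentiable (by simp) p
  have h1 : (fun p => ⟪Vw X w p, z⟫) = fun p => ⟪w, fderiv ℝ X p (0, z)⟫ := by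
    funext p
    exact vw_inner X w p z
  have h2 : HasFDerivAt (fun p => ⟪Vw X w p, z⟫)
      ((fderivInnerCLM ℝ (Vw X w p, z)).comp ((fderiv ℝ (Vw X w) p).prod 0)) p :=
    hV.hasFDerivAt.inner ℝ (hasFDerivAt_const z p)
  have h3 : HasFDerivAt (fun p => ⟪w, fderiv ℝ X p (0, z)⟫)
      ((innerSL ℝ w).comp ((fderiv ℝ X p).comp (0 : E k × E m →L[ℝ] E k × E m) +
        (fderiv ℝ (fderiv ℝ X) p).flip (0, z))) p :=
    (innerSL ℝ w).hasFDerivAt.comp p (hD.hasFDerivAt.clm_apply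
      (hasFDerivAt_const ((0, z) : E k × E m) p))
  rw [h1] at h2
  have h4 := congrArg (fun L : E k × E m →L[ℝ] ℝ => L u) (h2.unique h3)
  simpa using h4

theorem vw_fderiv2 {X : E k × E m → E n} (hX : ContDiff ℝ ∞ X) (w : E n) (p u v : E k × E m)
    (z : E m) : ⟪fderiv ℝ (fderiv ℝ (Vw X w)) p u v, z⟫ =
      ⟪w, fderiv ℝ (fderiv ℝ (fderiv ℝ X)) p u v (0, z)⟫ := by
  have hV : DifferentiableAt ℝ (fderiv ℝ (Vw X w)) p :=
    ((vw_contDiff hX w).fderiv_right (m := ∞) (by simp)).differentiable (by simp) p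
  have hD : DifferentiableAt ℝ (fderiv ℝ (fderiv ℝ X)) p :=
    ((hX.fderiv_right (m := ∞) (by simp)).fderiv_right (m := ∞) (by simp)).differentiable
      (by simp) p
  have h1 : (fun p => ⟪fderiv ℝ (Vw X w) p v, z⟫) =
      fun p => ⟪w, fderiv ℝ (fderiv ℝ X) p v (0, z)⟫ := by
    funext p
    exact vw_fderiv hX w p v z
  have h2 : HasFDerivAt (fun p => ⟪fderiv ℝ (Vw X w) p v, z⟫)
      ((fderivInnerCLM ℝ (fderiv ℝ (Vw X w) p v, z)).comp
        (((fderiv ℝ (Vw X w) p).comp (0 : E k × E m →L[ℝ] E k × E m) +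
          (fderiv ℝ (fderiv ℝ (Vw X w)) p).flip v).prod 0)) p :=
    (hV.hasFDerivAt.clm_apply (hasFDerivAt_const v p)).inner ℝ (hasFDerivAt_const z p)
  have h3 := (innerSL ℝ w).hasFDerivAt.comp p ((hD.hasFDerivAt.clm_apply
      (hasFDerivAt_const v p)).clm_apply (hasFDerivAt_const ((0, z) : E k × E m) p))
  have h3' : HasFDerivAt (fun p => ⟪w, fderiv ℝ (fderiv ℝ X) p v (0, z)⟫) _ p := h3
  rw [h1] at h2
  have h4 := congrArg (fun L : E k × E m →L[ℝ] ℝ => L u) (h2.unique h3')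
  simpa using h4

/-- The last conclusion of `ch1`, in terms of `Vw` (hypothesis `hH` of `h0`). -/
theorem vw_hH {X : E k × E m → E n} (hX : ContDiff ℝ ∞ X) {p0 : E k × E m}
    (hN : ∀ w : E n, w ≠ 0 → (∀ z : E m, ⟪w, fderiv ℝ X p0 (0, z)⟫ = 0) →
        ∀ u v : E k × E m, u ≠ 0 → v ≠ 0 →
        (∀ z : E m, ⟪w, fderiv ℝ (fderiv ℝ X) p0 u (0, z)⟫ = 0) →
        (∀ z : E m, ⟪w, fderiv ℝ (fderiv ℝ X) p0 v (0, z)⟫ = 0) → ∀ d : E k × E m,
        fderiv ℝ X p0 d + fderiv ℝ (fderiv ℝ X) p0 u v = 0 →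
        ∃ z : E m, ⟪w, fderiv ℝ (fderiv ℝ X) p0 d (0, z)⟫ +
          ⟪w, fderiv ℝ (fderiv ℝ (fderiv ℝ X)) p0 u v (0, z)⟫ ≠ 0) :
    ∀ w : E n, w ≠ 0 → Vw X w p0 = 0 → ∀ u v : E k × E m, u ≠ 0 → v ≠ 0 →
      fderiv ℝ (Vw X w) p0 u = 0 → fderiv ℝ (Vw X w) p0 v = 0 → ∀ d : E k × E m,
      ¬ (fderiv ℝ X p0 d + fderiv ℝ (fderiv ℝ X) p0 u v = 0 ∧
        fderiv ℝ (Vw X w) p0 d + fderiv ℝ (fderiv ℝ (Vw X w)) p0 u v = 0) := by
  rintro w hw hV u v hu hv hMu hMv d ⟨hd, hd2⟩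
  obtain ⟨z, hz⟩ := hN w hw (fun z => by rw [← vw_inner, hV, inner_zero_left]) u v hu hv
    (fun z => by rw [← vw_fderiv hX, hMu, inner_zero_left])
    (fun z => by rw [← vw_fderiv hX, hMv, inner_zero_left]) d hd
  apply hz
  rw [← vw_fderiv hX, ← vw_fderiv2 hX, ← inner_add_left, hd2, inner_zero_left]

end Pool.Agent.LFK
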