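import Mathlib.MeasureTheory.Group.FundamentalDomain
import Mathlib.MeasureTheory.Integral.Prod
import Mathlib.MeasureTheory.Integral.MeanInequalities
import Mathlib.Analysis.Convolution
import Mathlib.MeasureTheory.Group.Prod

/-!
The near part of the fourth power integral: pointwise algebra.
-/

set_option autoImplicit false

namespace Pool.Agent.LFK.NR

open MeasureTheory Set Function
open scoped ENNReal ComplexConjugate

section pw
variable {P : Type*} [AddCommGroup P] [MeasurableSpace P] [MeasurableAdd₂ P] [MeasurableNeg P]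
  {vol : Measure P} [SFinite vol] [vol.IsAddLeftInvariant] [vol.IsNegInvariant]

lemma int1 {G : P → ℂ} (hG : Integrable G vol) {a : P → ℝ} (ha : Integrable a vol) :
    Integrable (fun z : P × P => G z.2 * (a (z.2 - z.1) : ℂ)) (vol.prod vol) := by
  have h1 : Integrable (fun x : P => ((a (-x) : ℝ) : ℂ)) vol := (ha.comp_neg).ofReal
  have h2 := hG.convolution_integrand (ContinuousLinearMap.mul ℝ ℂ) h1
  simpa only [ContinuousLinearMap.mul_apply', neg_sub] using h2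

lemma integrable_conj {X : Type*} [MeasurableSpace X] {m : Measure X} {G : X → ℂ}
    (hG : Integrable G m) : Integrable (fun p => conj (G p)) m :=
  (Complex.conjCLE : ℂ →L[ℝ] ℂ).integrable_comp hG

lemma swap2 {G h : P → ℂ} (hG : Integrable G vol) {a : P → ℝ} (ha : Integrable a vol)
    (hh : Measurable h) {Bh : ℝ} (hhb : ∀ q, ‖h q‖ ≤ Bh) :
    ∫ p, G p * (∫ q, (a (p - q) : ℂ) * h q ∂vol) ∂vol =
      ∫ q, (∫ p, G p * (a (p - q) : ℂ) ∂vol) * h q ∂vol := by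
  have h1 : Integrable (uncurry fun q p => G p * (a (p - q) : ℂ) * h q) (vol.prod vol) := by
    refine (int1 hG ha).mul_bdd (c := Bh) ?_ ?_
    · exact (hh.comp measurable_fst).aestronglyMeasurable
    · exact Filter.Eventually.of_forall fun z => hhb z.1
  calc ∫ p, G p * (∫ q, (a (p - q) : ℂ) * h q ∂vol) ∂vol
      = ∫ p, ∫ q, G p * (a (p - q) : ℂ) * h q ∂vol ∂vol := by
        refine integral_congr_ae (Filter.Eventually.of_forall fun p => ?_)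
        change G p * (∫ q, (a (p - q) : ℂ) * h q ∂vol) = _
        rw [← integral_const_mul]
        refine integral_congr_ae (Filter.Eventually.of_forall fun q => ?_)
        change G p * ((a (p - q) : ℂ) * h q) = _
        ring
    _ = ∫ q, ∫ p, G p * (a (p - q) : ℂ) * h q ∂vol ∂vol := (integral_integral_swap h1).symm
    _ = _ := by
        refine integral_congr_ae (Filter.Eventually.of_forall fun q => ?_)
        exact integral_mul_const _ _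

variable {G : P → ℂ} {a c : P → ℝ} {N : P → ℝ} {vi : ℝ}

/-- the reproducing property of `N` -/
lemma mform (hG : Integrable G vol) (ham : Measurable a) {Ba : ℝ} (hab : ∀ x, |a x| ≤ Ba)
    (hc : Integrable c vol)
    (hN : ∀ p p', N (p - p') = vi * ∫ q, a (p - q) * c (p' - q) ∂vol) (p : P) :
    ∫ p', (N (p - p') : ℂ) * conj (G p') ∂vol =
      vi * ∫ q, (a (p - q) : ℂ) * conj (∫ p', G p' * (c (p' - q) : ℂ) ∂vol) ∂vol := by
  have hG' : Integrable (fun p => conj (G p)) vol := integrable_conj hG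
  have h1 : Integrable (uncurry fun q p' => conj (G p') * (c (p' - q) : ℂ) * (a (p - q) : ℂ))
      (vol.prod vol) := by
    refine (int1 hG' hc).mul_bdd (c := Ba) ?_ ?_
    · exact (Complex.measurable_ofReal.comp (ham.comp (measurable_const.sub measurable_fst))).aestronglyMeasurable
    · exact Filter.Eventually.of_forall fun z => by
        rw [Complex.norm_real]; exact hab _
  calc ∫ p', (N (p - p') : ℂ) * conj (G p') ∂vol
      = ∫ p', ∫ q, (vi : ℂ) * (conj (G p') * (c (p' - q) : ℂ) * (a (p - q) : ℂ)) ∂vol ∂vol := by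
        refine integral_congr_ae (Filter.Eventually.of_forall fun p' => ?_)
        change (N (p - p') : ℂ) * conj (G p') =
          ∫ q, (vi : ℂ) * (conj (G p') * (c (p' - q) : ℂ) * (a (p - q) : ℂ)) ∂vol
        rw [hN, integral_const_mul, Complex.ofReal_mul, ← integral_complex_ofReal,
          mul_assoc, ← integral_mul_const]
        congr 1
        refine integral_congr_ae (Filter.Eventually.of_forall fun q => ?_)
        change ((a (p - q) * c (p' - q) : ℝ) : ℂ) * conj (G p') = _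
        push_cast
        ring
    _ = (vi : ℂ) * ∫ p', ∫ q, conj (G p') * (c (p' - q) : ℂ) * (a (p - q) : ℂ) ∂vol ∂vol := by
        rw [← integral_const_mul]
        refine integral_congr_ae (Filter.Eventually.of_forall fun p' => ?_)
        exact integral_const_mul _ _
    _ = (vi : ℂ) * ∫ q, ∫ p', conj (G p') * (c (p' - q) : ℂ) * (a (p - q) : ℂ) ∂vol ∂vol := by
        rw [integral_integral_swap h1]
    _ = _ := by
        congr 1
        refine integral_congr_ae (Filter.Eventually.of_forall fun q => ?_)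
        change ∫ p', conj (G p') * (c (p' - q) : ℂ) * (a (p - q) : ℂ) ∂vol =
          (a (p - q) : ℂ) * conj (∫ p', G p' * (c (p' - q) : ℂ) ∂vol)
        rw [integral_mul_const, mul_comm]
        congr 1
        rw [← integral_conj]
        refine integral_congr_ae (Filter.Eventually.of_forall fun p' => ?_)
        change conj (G p') * (c (p' - q) : ℂ) = conj (G p' * (c (p' - q) : ℂ))
        rw [map_mul, Complex.conj_ofReal]

/-- `∫ G M` and `∫ G M^2` in terms of the pieces. -/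
lemma qform (hG : Integrable G vol) (ha : Integrable a vol) (ham : Measurable a) {Ba : ℝ}
    (hab : ∀ x, |a x| ≤ Ba) (hc : Integrable c vol) (hcm : Measurable c) {Bc : ℝ}
    (hcb : ∀ x, |c x| ≤ Bc)
    (hfcm : Measurable fun q => ∫ p', G p' * (c (p' - q) : ℂ) ∂vol)
    (hN : ∀ p p', N (p - p') = vi * ∫ q, a (p - q) * c (p' - q) ∂vol) :
    ∫ p, G p * (∫ p', (N (p - p') : ℂ) * conj (G p') ∂vol) ∂vol =
      vi * ∫ q, (∫ p, G p * (a (p - q) : ℂ) ∂vol) *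
        conj (∫ p', G p' * (c (p' - q) : ℂ) ∂vol) ∂vol := by
  set h : P → ℂ := fun q => conj (∫ p', G p' * (c (p' - q) : ℂ) ∂vol) with hh
  have hhm : Measurable h := (Complex.continuous_conj.measurable).comp hfcm
  have hhb : ∀ q, ‖h q‖ ≤ ∫ p', ‖G p'‖ * Bc ∂vol := by
    intro q
    rw [hh]
    simp only [RCLike.norm_conj]
    refine norm_integral_le_of_norm_le (hG.norm.mul_const _) (Filter.Eventually.of_forall fun p' => ?_)
    rw [norm_mul, Complex.norm_real]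
    exact mul_le_mul_of_nonneg_left (hcb _) (norm_nonneg _)
  calc ∫ p, G p * (∫ p', (N (p - p') : ℂ) * conj (G p') ∂vol) ∂vol
      = ∫ p, (vi : ℂ) * (G p * ∫ q, (a (p - q) : ℂ) * h q ∂vol) ∂vol := by
        refine integral_congr_ae (Filter.Eventually.of_forall fun p => ?_)
        change G p * (∫ p', (N (p - p') : ℂ) * conj (G p') ∂vol) =
          (vi : ℂ) * (G p * ∫ q, (a (p - q) : ℂ) * h q ∂vol)
        rw [mform hG ham hab hc hN]
        ring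
    _ = _ := by rw [integral_const_mul, swap2 hG ha hhm hhb]

lemma yform (hG : Integrable G vol) (ha : Integrable a vol) (ham : Measurable a) {Ba : ℝ}
    (hab : ∀ x, |a x| ≤ Ba) (hc : Integrable c vol) (hcm : Measurable c) {Bc : ℝ}
    (hcb : ∀ x, |c x| ≤ Bc)
    (hfcm : Measurable fun q => ∫ p', G p' * (c (p' - q) : ℂ) ∂vol)
    (hNm : Measurable fun p => ∫ p', (N (p - p') : ℂ) * conj (G p') ∂vol)
    (hNb : ∀ x, |N x| ≤ 1)
    (hN : ∀ p p', N (p - p') = vi * ∫ q, a (p - q) * c (p' - q) ∂vol) :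
    ∫ p, G p * (∫ p', (N (p - p') : ℂ) * conj (G p') ∂vol) ^ 2 ∂vol =
      vi * vi * ∫ q, (∫ q', (∫ p, G p * (a (p - q) : ℂ) * (a (p - q') : ℂ) ∂vol) *
        conj (∫ p', G p' * (c (p' - q') : ℂ) ∂vol) ∂vol) *
        conj (∫ p', G p' * (c (p' - q) : ℂ) ∂vol) ∂vol := by
  set h : P → ℂ := fun q => conj (∫ p', G p' * (c (p' - q) : ℂ) ∂vol) with hh
  have hhm : Measurable h := (Complex.continuous_conj.measurable).comp hfcm
  have hhb : ∀ q, ‖h q‖ ≤ ∫ p', ‖G p'‖ * Bc ∂vol := by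
    intro q
    rw [hh]
    simp only [RCLike.norm_conj]
    refine norm_integral_le_of_norm_le (hG.norm.mul_const _) (Filter.Eventually.of_forall fun p' => ?_)
    rw [norm_mul, Complex.norm_real]
    exact mul_le_mul_of_nonneg_left (hcb _) (norm_nonneg _)
  set M : P → ℂ := fun p => ∫ p', (N (p - p') : ℂ) * conj (G p') ∂vol with hM
  have hMb : ∀ p, ‖M p‖ ≤ ∫ p', ‖G p'‖ ∂vol := by
    intro p
    refine norm_integral_le_of_norm_le hG.norm (Filter.Eventually.of_forall fun p' => ?_)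
    rw [norm_mul, Complex.norm_real, RCLike.norm_conj]
    exact mul_le_of_le_one_left (norm_nonneg _) (hNb _)
  have hMK : ∀ p, M p = vi * ∫ q, (a (p - q) : ℂ) * h q ∂vol := fun p => mform hG ham hab hc hN p
  have hGM : Integrable (fun p => G p * M p) vol :=
    hG.mul_bdd (c := ∫ p', ‖G p'‖ ∂vol) hNm.aestronglyMeasurable
      (Filter.Eventually.of_forall hMb)
  have hGa : ∀ q, Integrable (fun p => G p * (a (p - q) : ℂ)) vol := fun q =>
    hG.mul_bdd (c := Ba) (Complex.measurable_ofReal.comp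
      (ham.comp (measurable_id.sub_const q))).aestronglyMeasurable
      (Filter.Eventually.of_forall fun p => by rw [Complex.norm_real]; exact hab _)
  calc ∫ p, G p * M p ^ 2 ∂vol
      = ∫ p, (vi : ℂ) * ((G p * M p) * ∫ q, (a (p - q) : ℂ) * h q ∂vol) ∂vol := by
        refine integral_congr_ae (Filter.Eventually.of_forall fun p => ?_)
        change G p * M p ^ 2 = (vi : ℂ) * ((G p * M p) * ∫ q, (a (p - q) : ℂ) * h q ∂vol)
        rw [sq]
        nth_rewrite 2 [hMK p]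
        ring
    _ = (vi : ℂ) * ∫ q, (∫ p, G p * M p * (a (p - q) : ℂ) ∂vol) * h q ∂vol := by
        rw [integral_const_mul, swap2 hGM ha hhm hhb]
    _ = (vi : ℂ) * ∫ q, (vi : ℂ) * ((∫ q', (∫ p, G p * (a (p - q) : ℂ) * (a (p - q') : ℂ) ∂vol) *
        h q' ∂vol) * h q) ∂vol := by
        congr 1
        refine integral_congr_ae (Filter.Eventually.of_forall fun q => ?_)
        change (∫ p, G p * M p * (a (p - q) : ℂ) ∂vol) * h q = (vi : ℂ) * ((∫ q', (∫ p, G p *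
          (a (p - q) : ℂ) * (a (p - q') : ℂ) ∂vol) * h q' ∂vol) * h q)
        rw [← mul_assoc]
        congr 1
        rw [← swap2 (hGa q) ha hhm hhb, ← integral_const_mul]
        refine integral_congr_ae (Filter.Eventually.of_forall fun p => ?_)
        change G p * M p * (a (p - q) : ℂ) = (vi : ℂ) * (G p * (a (p - q) : ℂ) *
          ∫ q', (a (p - q') : ℂ) * h q' ∂vol)
        rw [hMK p]
        ring
    _ = _ := by
        rw [integral_const_mul, mul_assoc]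

/-- expansion of the far part -/
lemma farexp (hG : Integrable G vol)
    (hNm : Measurable fun p => ∫ p', (N (p - p') : ℂ) * conj (G p') ∂vol)
    (hNN : Measurable N) (hNb : ∀ x, |N x| ≤ 1) :
    ∫ p, G p * (∫ p', ((1 - N (p - p') : ℝ) : ℂ) * conj (G p') ∂vol) ^ 2 ∂vol =
      (∫ p, G p ∂vol) * conj (∫ p, G p ∂vol) ^ 2 -
        2 * conj (∫ p, G p ∂vol) * (∫ p, G p * (∫ p', (N (p - p') : ℂ) * conj (G p') ∂vol) ∂vol) +
        ∫ p, G p * (∫ p', (N (p - p') : ℂ) * conj (G p') ∂vol) ^ 2 ∂vol := by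
  set A : ℂ := ∫ p, G p ∂vol with hA
  set M : P → ℂ := fun p => ∫ p', (N (p - p') : ℂ) * conj (G p') ∂vol with hM
  have hG' : Integrable (fun p => conj (G p)) vol := integrable_conj hG
  have hMb : ∀ p, ‖M p‖ ≤ ∫ p', ‖G p'‖ ∂vol := by
    intro p
    refine norm_integral_le_of_norm_le hG.norm (Filter.Eventually.of_forall fun p' => ?_)
    rw [norm_mul, Complex.norm_real, RCLike.norm_conj]
    exact mul_le_of_le_one_left (norm_nonneg _) (hNb _)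
  have hGM : Integrable (fun p => G p * M p) vol :=
    hG.mul_bdd (c := ∫ p', ‖G p'‖ ∂vol) hNm.aestronglyMeasurable
      (Filter.Eventually.of_forall hMb)
  have hGM2 : Integrable (fun p => G p * M p ^ 2) vol := by
    have h1 := hGM.mul_bdd (c := ∫ p', ‖G p'‖ ∂vol) hNm.aestronglyMeasurable
      (Filter.Eventually.of_forall hMb)
    refine h1.congr (Filter.Eventually.of_forall fun p => ?_)
    change G p * M p * M p = G p * M p ^ 2
    ring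
  have h1 : ∀ p, ∫ p', ((1 - N (p - p') : ℝ) : ℂ) * conj (G p') ∂vol = conj A - M p := by
    intro p
    have h2 : Integrable (fun p' => (N (p - p') : ℂ) * conj (G p')) vol :=
      hG'.bdd_mul (c := 1) (Complex.measurable_ofReal.comp
        (hNN.comp (measurable_const.sub measurable_id))).aestronglyMeasurable
        (Filter.Eventually.of_forall fun p' => by rw [Complex.norm_real]; exact hNb _)
    rw [hA, ← integral_conj, hM]
    simp only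
    rw [← integral_sub hG' h2]
    refine integral_congr_ae (Filter.Eventually.of_forall fun p' => ?_)
    change ((1 - N (p - p') : ℝ) : ℂ) * conj (G p') = conj (G p') - (N (p - p') : ℂ) * conj (G p')
    push_cast
    ring
  simp only [h1]
  have e1 : ∀ p, G p * (conj A - M p) ^ 2 =
      conj A ^ 2 * G p - 2 * conj A * (G p * M p) + G p * M p ^ 2 := fun p => by ring
  simp only [e1]
  have i1 : Integrable (fun p => conj A ^ 2 * G p) vol := hG.const_mul _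
  have i2 : Integrable (fun p => 2 * conj A * (G p * M p)) vol := hGM.const_mul _
  have i3 : Integrable (fun p => conj A ^ 2 * G p - 2 * conj A * (G p * M p)) vol := i1.sub i2
  rw [integral_add i3 hGM2, integral_sub i1 i2, integral_const_mul, integral_const_mul]
  ring

end pw

/-! ## Averages over the lattice shifts, elementary inequalities -/

section avg
variable {P : Type*} [AddCommGroup P] [MeasurableSpace P] [MeasurableAdd₂ P] [MeasurableNeg P]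
  {vol : Measure P} [vol.IsAddLeftInvariant] {L : AddSubgroup P} [Countable L] {Fd : Set P}

/-- the normalised measure on the fundamental domain -/
noncomputable def kap (vol : Measure P) (Fd : Set P) : Measure P := (vol Fd)⁻¹ • vol.restrict Fd

lemma kap_univ (h0 : vol Fd ≠ 0) (h1 : vol Fd ≠ ∞) : kap vol Fd univ = 1 := by
  rw [kap, Measure.smul_apply, Measure.restrict_apply_univ, smul_eq_mul,
    ENNReal.inv_mul_cancel h0 h1]

lemma avg_eq (hF : IsAddFundamentalDomain L Fd vol) {g : P → ℝ≥0∞} (hg : Measurable g) :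
    (vol Fd)⁻¹ * ∫⁻ q, g q ∂vol = ∫⁻ s, ∑' ν : L, g ((ν : P) + s) ∂(kap vol Fd) := by
  rw [kap, lintegral_smul_measure, hF.lintegral_eq_tsum'' g, lintegral_tsum]
  · rfl
  · intro ν
    exact (hg.comp (measurable_const.add measurable_id)).aemeasurable

end avg

lemma jensen {S : Type*} [MeasurableSpace S] {κ : Measure S} {g : S → ℝ≥0∞} (hg : AEMeasurable g κ)
    {p : ℝ} (hp : 1 < p) :
    (∫⁻ s, g s ∂κ) ^ p ≤ (κ univ) ^ (p - 1) * ∫⁻ s, g s ^ p ∂κ := by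
  have hpq : p.HolderConjugate (Real.conjExponent p) := Real.HolderConjugate.conjExponent hp
  have h1 := ENNReal.lintegral_mul_le_Lp_mul_Lq κ hpq hg (aemeasurable_const (b := (1:ℝ≥0∞)))
  have h2 : ∫⁻ s, (g * (fun _ : S => (1:ℝ≥0∞)) : S → ℝ≥0∞) s ∂κ = ∫⁻ s, g s ∂κ := by
    simp only [Pi.mul_apply, mul_one]
  have h3 : ∫⁻ _s : S, ((1:ℝ≥0∞)) ^ (Real.conjExponent p) ∂κ = κ univ := by
    simp only [ENNReal.one_rpow, lintegral_one]
  rw [h2, h3] at h1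
  have hp0 : 0 < p := by linarith
  calc (∫⁻ s, g s ∂κ) ^ p
      ≤ ((∫⁻ s, g s ^ p ∂κ) ^ (1 / p) * (κ univ) ^ (1 / Real.conjExponent p)) ^ p :=
        ENNReal.rpow_le_rpow h1 hp0.le
    _ = (κ univ) ^ (p - 1) * ∫⁻ s, g s ^ p ∂κ := by
        rw [ENNReal.mul_rpow_of_nonneg _ _ hp0.le, ← ENNReal.rpow_mul, ← ENNReal.rpow_mul,
          one_div_mul_cancel hp0.ne', ENNReal.rpow_one, mul_comm]
        congr 2
        rw [Real.conjExponent]
        field_simp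

lemma add_rpow3 (x y z : ℝ≥0∞) {p : ℝ} (hp : 0 ≤ p) :
    (x + y + z) ^ p ≤ 3 ^ p * (x ^ p + y ^ p + z ^ p) := by
  have h1 : x + y + z ≤ 3 * max (max x y) z := by
    calc x + y + z ≤ max (max x y) z + max (max x y) z + max (max x y) z := by
          gcongr
          · exact (le_max_left x y).trans (le_max_left _ _)
          · exact (le_max_right x y).trans (le_max_left _ _)
          · exact le_max_right _ _
      _ = 3 * max (max x y) z := by ring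
  calc (x + y + z) ^ p ≤ (3 * max (max x y) z) ^ p := ENNReal.rpow_le_rpow h1 hp
    _ = 3 ^ p * (max (max x y) z) ^ p := ENNReal.mul_rpow_of_nonneg _ _ hp
    _ ≤ 3 ^ p * (x ^ p + y ^ p + z ^ p) := by
        gcongr
        rcases le_total (max x y) z with h | h
        · rw [max_eq_right h]; exact le_add_self
        · rw [max_eq_left h]
          rcases le_total x y with h' | h'
          · rw [max_eq_right h']; exact le_add_self.trans le_self_add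
          · rw [max_eq_left h']; exact le_self_add.trans le_self_add

lemma mul_le_sq (x y : ℝ≥0∞) : x * y ≤ x ^ (2:ℕ) + y ^ (2:ℕ) := by
  rcases le_total x y with h | h
  · calc x * y ≤ y * y := by gcongr
      _ = y ^ 2 := (sq y).symm
      _ ≤ _ := le_add_self
  · calc x * y ≤ x * x := by gcongr
      _ = x ^ 2 := (sq x).symm
      _ ≤ _ := le_self_add

lemma mul_le_cube (x y z : ℝ≥0∞) : x * y * z ≤ x ^ (3:ℕ) + y ^ (3:ℕ) + z ^ (3:ℕ) := by
  have key : ∀ m : ℝ≥0∞, x ≤ m → y ≤ m → z ≤ m → x * y * z ≤ m ^ (3:ℕ) := by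
    intro m hx hy hz
    calc x * y * z ≤ m * m * m := by gcongr
      _ = m ^ 3 := by ring
  rcases le_total x y with h1 | h1
  · rcases le_total y z with h2 | h2
    · exact (key z (h1.trans h2) h2 le_rfl).trans le_add_self
    · exact (key y h1 le_rfl h2).trans (le_add_self.trans le_self_add)
  · rcases le_total x z with h2 | h2
    · exact (key z h2 (h1.trans h2) le_rfl).trans le_add_self
    · exact (key x le_rfl h1 h2).trans (le_self_add.trans le_self_add)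

lemma tsum_cube {ι : Type*} (f : ι → ℝ≥0∞) :
    ∑' i, f i ^ (3:ℕ) ≤ (∑' i, f i ^ (2:ℕ)) ^ (3 / 2 : ℝ) := by
  set S : ℝ≥0∞ := ∑' i, f i ^ (2:ℕ) with hS
  have h1 : ∀ i, f i ≤ S ^ (1 / 2 : ℝ) := by
    intro i
    have h2 : f i ^ (2:ℕ) ≤ S := ENNReal.le_tsum i
    calc f i = (f i ^ (2:ℕ)) ^ (1 / 2 : ℝ) := by
          rw [← ENNReal.rpow_natCast, ← ENNReal.rpow_mul]; norm_num
      _ ≤ S ^ (1 / 2 : ℝ) := ENNReal.rpow_le_rpow h2 (by norm_num)
  calc ∑' i, f i ^ (3:ℕ) ≤ ∑' i, f i ^ (2:ℕ) * S ^ (1 / 2 : ℝ) := by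
        refine ENNReal.tsum_le_tsum fun i => ?_
        rw [pow_succ]
        gcongr
        exact h1 i
    _ = S * S ^ (1 / 2 : ℝ) := by rw [ENNReal.tsum_mul_right]
    _ = S ^ (3 / 2 : ℝ) := by
        nth_rewrite 1 [← ENNReal.rpow_one S]
        rw [← ENNReal.rpow_add_of_nonneg _ _ (by norm_num) (by norm_num)]
        norm_num

lemma root_le {F x : ℝ≥0∞} {θ : ℝ} (hF : F ≠ ∞) (h1 : θ < 1) (h : F ≤ x * F ^ θ) :
    F ^ (1 - θ) ≤ x := by
  rcases eq_or_ne F 0 with h2 | h2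
  · rw [h2, ENNReal.zero_rpow_of_pos (by linarith)]
    simp
  · have h3 : F ^ θ ≠ 0 := (ENNReal.rpow_pos (pos_iff_ne_zero.2 h2) hF).ne'
    have h4 : F ^ θ ≠ ∞ := ENNReal.rpow_ne_top_of_ne_zero h2 hF
    refine (ENNReal.mul_le_mul_iff_left h3 h4).1 ?_
    rw [← ENNReal.rpow_add _ _ h2 hF]
    simpa using h

/-- the final algebra -/
lemma final_alg {F Y c ε : ℝ≥0∞} (hF : F ≠ ∞)
    (h : F ≤ ε + 2 * (F ^ (1 / 2 : ℝ) * (8 * Y) ^ (1 / 2 : ℝ)) +
      F ^ (1 / 4 : ℝ) * (c * Y) ^ (3 / 4 : ℝ)) :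
    F ≤ 3 * ε + (288 + 81 * c) * Y := by
  set T1 : ℝ≥0∞ := 2 * (F ^ (1 / 2 : ℝ) * (8 * Y) ^ (1 / 2 : ℝ)) with hT1
  set T2 : ℝ≥0∞ := F ^ (1 / 4 : ℝ) * (c * Y) ^ (3 / 4 : ℝ) with hT2
  have key : F ≤ 3 * ε ∨ F ≤ 3 * T1 ∨ F ≤ 3 * T2 := by
    by_contra hcon
    push Not at hcon
    obtain ⟨h1, h2, h3⟩ := hcon
    have h4 : 3 * F ≤ 3 * ε + 3 * T1 + 3 * T2 := by
      calc 3 * F ≤ 3 * (ε + T1 + T2) := by gcongr
        _ = 3 * ε + 3 * T1 + 3 * T2 := by ring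
    have h5 : 3 * ε + 3 * T1 + 3 * T2 < F + F + F :=
      ENNReal.add_lt_add (ENNReal.add_lt_add h1 h2) h3
    have h6 : F + F + F = 3 * F := by ring
    rw [h6] at h5
    exact absurd h4 (not_le.2 h5)
  rcases key with h1 | h1 | h1
  · exact h1.trans le_self_add
  · have h2 : F ≤ (6 * (8 * Y) ^ (1 / 2 : ℝ)) * F ^ (1 / 2 : ℝ) := by
      calc F ≤ 3 * T1 := h1
        _ = _ := by rw [hT1]; ring
    have h3 := root_le hF (by norm_num) h2
    have h4 := ENNReal.rpow_le_rpow h3 (show (0:ℝ) ≤ 2 by norm_num)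
    rw [← ENNReal.rpow_mul, ENNReal.mul_rpow_of_nonneg _ _ (by norm_num), ← ENNReal.rpow_mul,
      show (1 - 1 / 2 : ℝ) * 2 = 1 by norm_num, show (1 / 2 : ℝ) * 2 = 1 by norm_num,
      ENNReal.rpow_one, ENNReal.rpow_one, ENNReal.rpow_ofNat] at h4
    calc F ≤ 6 ^ 2 * (8 * Y) := h4
      _ = 288 * Y := by ring
      _ ≤ (288 + 81 * c) * Y := by gcongr; exact le_self_add
      _ ≤ _ := le_add_self
  · have h2 : F ≤ (3 * (c * Y) ^ (3 / 4 : ℝ)) * F ^ (1 / 4 : ℝ) := by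
      calc F ≤ 3 * T2 := h1
        _ = _ := by rw [hT2]; ring
    have h3 := root_le hF (by norm_num) h2
    have h4 := ENNReal.rpow_le_rpow h3 (show (0:ℝ) ≤ 4 / 3 by norm_num)
    rw [← ENNReal.rpow_mul, ENNReal.mul_rpow_of_nonneg _ _ (by norm_num), ← ENNReal.rpow_mul,
      show (1 - 1 / 4 : ℝ) * (4 / 3) = 1 by norm_num, show (3 / 4 : ℝ) * (4 / 3) = 1 by norm_num,
      ENNReal.rpow_one, ENNReal.rpow_one] at h4
    have h5 : (3:ℝ≥0∞) ^ (4 / 3 : ℝ) ≤ 81 := by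
      calc (3:ℝ≥0∞) ^ (4 / 3 : ℝ) ≤ 3 ^ (4:ℝ) :=
            ENNReal.rpow_le_rpow_of_exponent_le (by norm_num) (by norm_num)
        _ = 81 := by rw [ENNReal.rpow_ofNat]; norm_num
    calc F ≤ 3 ^ (4 / 3 : ℝ) * (c * Y) := h4
      _ ≤ 81 * (c * Y) := by gcongr
      _ = 81 * c * Y := by ring
      _ ≤ (288 + 81 * c) * Y := by gcongr; exact le_add_self
      _ ≤ _ := le_add_self

/-! ## The near part -/

section main
variable {P Ξ : Type*} [AddCommGroup P] [MeasurableSpace P] [MeasurableAdd₂ P] [MeasurableNeg P]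
  [MeasurableSpace Ξ]

/-- the piece `T (b θ(. - q))` -/
noncomputable def pc (vol : Measure P) (e : Ξ → P → ℂ) (b : P → ℂ) (θ : P → ℝ) (q : P) (ξ : Ξ) : ℂ :=
  ∫ p, b p * e ξ p * (θ (p - q) : ℂ) ∂vol

/-- the square function of the pieces along the shifted lattice -/
noncomputable def sqf (vol : Measure P) (L : AddSubgroup P) (e : Ξ → P → ℂ) (b : P → ℂ) (θ : P → ℝ)
    (s : P) (ξ : Ξ) : ℝ≥0∞ :=
  ∑' ν : L, ‖pc vol e b θ ((ν : P) + s) ξ‖ₑ ^ (2:ℕ)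

variable {vol : Measure P} [SFinite vol]

omit [AddCommGroup P] [MeasurableAdd₂ P] [MeasurableNeg P] [MeasurableSpace Ξ] in
lemma meas_int {X : Type*} [MeasurableSpace X] {f : X → P → ℂ} (hf : Measurable (uncurry f)) :
    Measurable fun x => ∫ p, f x p ∂vol :=
  (hf.stronglyMeasurable.integral_prod_right).measurable

lemma meas_pc {e : Ξ → P → ℂ} (hem : Measurable (uncurry e)) {b : P → ℂ} (hbm : Measurable b)
    {U X : Type*} [MeasurableSpace U] [MeasurableSpace X] {θ : U → P → ℝ}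
    (hθ : Measurable (uncurry θ)) {u : X → U} {q : X → P} {ξ : X → Ξ} (hu : Measurable u)
    (hq : Measurable q) (hξ : Measurable ξ) :
    Measurable fun x => pc vol e b (θ (u x)) (q x) (ξ x) := by
  unfold pc
  refine meas_int (f := fun x p => b p * e (ξ x) p * (θ (u x) (p - q x) : ℂ)) ?_
  exact ((hbm.comp measurable_snd).mul
    (hem.comp ((hξ.comp measurable_fst).prodMk measurable_snd))).mul
    (Complex.measurable_ofReal.comp (hθ.comp ((hu.comp measurable_fst).prodMk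
      (measurable_snd.sub (hq.comp measurable_fst)))))

lemma meas_sqf {L : AddSubgroup P} [Countable L] {e : Ξ → P → ℂ} (hem : Measurable (uncurry e))
    {b : P → ℂ} (hbm : Measurable b)
    {U X : Type*} [MeasurableSpace U] [MeasurableSpace X] {θ : U → P → ℝ}
    (hθ : Measurable (uncurry θ)) {u : X → U} {s : X → P} {ξ : X → Ξ} (hu : Measurable u)
    (hs : Measurable s) (hξ : Measurable ξ) :
    Measurable fun x => sqf vol L e b (θ (u x)) (s x) (ξ x) := by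
  unfold sqf
  refine Measurable.tsum fun ν => ?_
  exact (meas_pc hem hbm hθ hu (measurable_const.add hs) hξ).enorm.pow_const 2

variable [vol.IsAddLeftInvariant]

/-- bound of the quadratic piece -/
lemma q_bound {L : AddSubgroup P} [Countable L] {Fd : Set P} (hF : IsAddFundamentalDomain L Fd vol)
    {e : Ξ → P → ℂ} (hem : Measurable (uncurry e))
    {b : P → ℂ} (hbm : Measurable b) {a c : P → ℝ} (ham : Measurable a) (hcm : Measurable c) (ξ : Ξ) :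
    (vol Fd)⁻¹ * ∫⁻ q, ‖pc vol e b a q ξ‖ₑ * ‖pc vol e b c q ξ‖ₑ ∂vol ≤
      ∫⁻ s, (sqf vol L e b a s ξ + sqf vol L e b c s ξ) ∂(kap vol Fd) := by
  have hma : Measurable fun q => pc vol e b a q ξ :=
    meas_pc (U := Unit) (u := fun _ => ()) (θ := fun _ => a) hem hbm (ham.comp measurable_snd) measurable_const
      measurable_id measurable_const
  have hmc : Measurable fun q => pc vol e b c q ξ :=
    meas_pc (U := Unit) (u := fun _ => ()) (θ := fun _ => c) hem hbm (hcm.comp measurable_snd) measurable_const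
      measurable_id measurable_const
  calc (vol Fd)⁻¹ * ∫⁻ q, ‖pc vol e b a q ξ‖ₑ * ‖pc vol e b c q ξ‖ₑ ∂vol
      ≤ (vol Fd)⁻¹ * ∫⁻ q, (‖pc vol e b a q ξ‖ₑ ^ (2:ℕ) + ‖pc vol e b c q ξ‖ₑ ^ (2:ℕ)) ∂vol := by
        gcongr with q
        exact mul_le_sq _ _
    _ = ∫⁻ s, ∑' ν : L, (‖pc vol e b a ((ν : P) + s) ξ‖ₑ ^ (2:ℕ) +
          ‖pc vol e b c ((ν : P) + s) ξ‖ₑ ^ (2:ℕ)) ∂(kap vol Fd) :=
        avg_eq hF ((hma.enorm.pow_const 2).add (hmc.enorm.pow_const 2))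
    _ = _ := by
        refine lintegral_congr fun s => ?_
        rw [ENNReal.tsum_add]
        rfl

/-- bound of the cubic piece for one difference `u` -/
lemma y_bound {L : AddSubgroup P} [Countable L] {Fd : Set P} (hF : IsAddFundamentalDomain L Fd vol)
    {e : Ξ → P → ℂ} (hem : Measurable (uncurry e))
    {b : P → ℂ} (hbm : Measurable b) {t c : P → ℝ} (htm : Measurable t) (hcm : Measurable c) (u : P)
    (ξ : Ξ) :
    (vol Fd)⁻¹ * ∫⁻ q, ‖pc vol e b t q ξ‖ₑ * ‖pc vol e b c (q + u) ξ‖ₑ * ‖pc vol e b c q ξ‖ₑ ∂vol ≤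
      ∫⁻ s, (sqf vol L e b t s ξ ^ (3 / 2 : ℝ) + sqf vol L e b c (s + u) ξ ^ (3 / 2 : ℝ) +
        sqf vol L e b c s ξ ^ (3 / 2 : ℝ)) ∂(kap vol Fd) := by
  have hmt : Measurable fun q => pc vol e b t q ξ :=
    meas_pc (U := Unit) (u := fun _ => ()) (θ := fun _ => t) hem hbm (htm.comp measurable_snd) measurable_const
      measurable_id measurable_const
  have hmc : Measurable fun q => pc vol e b c q ξ :=
    meas_pc (U := Unit) (u := fun _ => ()) (θ := fun _ => c) hem hbm (hcm.comp measurable_snd) measurable_const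
      measurable_id measurable_const
  have hmc' : Measurable fun q => pc vol e b c (q + u) ξ := hmc.comp (measurable_id.add_const u)
  calc (vol Fd)⁻¹ * ∫⁻ q, ‖pc vol e b t q ξ‖ₑ * ‖pc vol e b c (q + u) ξ‖ₑ *
        ‖pc vol e b c q ξ‖ₑ ∂vol
      ≤ (vol Fd)⁻¹ * ∫⁻ q, (‖pc vol e b t q ξ‖ₑ ^ (3:ℕ) + ‖pc vol e b c (q + u) ξ‖ₑ ^ (3:ℕ) +
          ‖pc vol e b c q ξ‖ₑ ^ (3:ℕ)) ∂vol := by
        gcongr with q
        exact mul_le_cube _ _ _
    _ = ∫⁻ s, ∑' ν : L, (‖pc vol e b t ((ν : P) + s) ξ‖ₑ ^ (3:ℕ) +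
          ‖pc vol e b c ((ν : P) + s + u) ξ‖ₑ ^ (3:ℕ) +
          ‖pc vol e b c ((ν : P) + s) ξ‖ₑ ^ (3:ℕ)) ∂(kap vol Fd) :=
        avg_eq hF (((hmt.enorm.pow_const 3).add (hmc'.enorm.pow_const 3)).add
          (hmc.enorm.pow_const 3))
    _ ≤ _ := by
        refine lintegral_mono fun s => ?_
        rw [ENNReal.tsum_add, ENNReal.tsum_add]
        refine add_le_add (add_le_add (tsum_cube _) ?_) (tsum_cube _)
        refine (tsum_cube _).trans (le_of_eq ?_)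
        unfold sqf
        simp only [add_assoc]

end main

section main2
variable {P Ξ : Type*} [AddCommGroup P] [MeasurableSpace P] [MeasurableAdd₂ P] [MeasurableNeg P]
  [MeasurableSpace Ξ]

/-- the integrand of the cubic bound -/
noncomputable def RR (vol : Measure P) (L : AddSubgroup P) (e : Ξ → P → ℂ) (b : P → ℂ) (a c : P → ℝ)
    (u s : P) (ξ : Ξ) : ℝ≥0∞ :=
  sqf vol L e b (fun x => a x * a (x - u)) s ξ ^ (3 / 2 : ℝ) + sqf vol L e b c (s + u) ξ ^ (3 / 2 : ℝ) +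
    sqf vol L e b c s ξ ^ (3 / 2 : ℝ)

variable {vol : Measure P} [SFinite vol] [vol.IsAddLeftInvariant]

lemma meas_RR {L : AddSubgroup P} [Countable L] {e : Ξ → P → ℂ} (hem : Measurable (uncurry e))
    {b : P → ℂ} (hbm : Measurable b) {a c : P → ℝ} (ham : Measurable a) (hcm : Measurable c)
    {X : Type*} [MeasurableSpace X] {u s : X → P} {ξ : X → Ξ} (hu : Measurable u)
    (hs : Measurable s) (hξ : Measurable ξ) :
    Measurable fun x => RR vol L e b a c (u x) (s x) (ξ x) := by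
  unfold RR
  have h1 : Measurable fun x => sqf vol L e b (fun y => a y * a (y - u x)) (s x) (ξ x) := by
    refine meas_sqf (U := P) (θ := fun v y => a y * a (y - v)) hem hbm ?_ hu hs hξ
    exact (ham.comp measurable_snd).mul (ham.comp (measurable_snd.sub measurable_fst))
  have h2 : Measurable fun x => sqf vol L e b c (s x + u x) (ξ x) :=
    meas_sqf (U := Unit) (u := fun _ => ()) (θ := fun _ => c) hem hbm (hcm.comp measurable_snd) measurable_const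
      (hs.add hu) hξ
  have h3 : Measurable fun x => sqf vol L e b c (s x) (ξ x) :=
    meas_sqf (U := Unit) (u := fun _ => ()) (θ := fun _ => c) hem hbm (hcm.comp measurable_snd) measurable_const
      hs hξ
  exact ((h1.pow_const _).add (h2.pow_const _)).add (h3.pow_const _)

lemma RR_bound {L : AddSubgroup P} [Countable L] {μ : Measure Ξ} {e : Ξ → P → ℂ}
    (hem : Measurable (uncurry e)) {b : P → ℂ} (hbm : Measurable b) {a c : P → ℝ}
    (ham : Measurable a) (hcm : Measurable c) {Y : ℝ≥0∞} {u s : P}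
    (h1 : ∫⁻ ξ, sqf vol L e b (fun x => a x * a (x - u)) s ξ ^ (2:ℕ) ∂μ ≤ Y)
    (h2 : ∫⁻ ξ, sqf vol L e b c (s + u) ξ ^ (2:ℕ) ∂μ ≤ Y)
    (h3 : ∫⁻ ξ, sqf vol L e b c s ξ ^ (2:ℕ) ∂μ ≤ Y) :
    ∫⁻ ξ, RR vol L e b a c u s ξ ^ (4 / 3 : ℝ) ∂μ ≤ 27 * Y := by
  have hp : ∀ x : ℝ≥0∞, (x ^ (3 / 2 : ℝ)) ^ (4 / 3 : ℝ) = x ^ (2:ℕ) := by
    intro x
    rw [← ENNReal.rpow_mul, ← ENNReal.rpow_natCast]
    norm_num
  have m1 : Measurable fun ξ => sqf vol L e b (fun y => a y * a (y - u)) s ξ :=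
    meas_sqf (U := Unit) (u := fun _ => ()) (θ := fun _ y => a y * a (y - u)) hem hbm
      ((ham.mul (ham.comp (measurable_id.sub_const u))).comp measurable_snd) measurable_const
      measurable_const measurable_id
  have m2 : Measurable fun ξ => sqf vol L e b c (s + u) ξ :=
    meas_sqf (U := Unit) (u := fun _ => ()) (θ := fun _ => c) hem hbm (hcm.comp measurable_snd) measurable_const
      measurable_const measurable_id
  have h33 : (3:ℝ≥0∞) ^ (4 / 3 : ℝ) ≤ 9 := by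
    calc (3:ℝ≥0∞) ^ (4 / 3 : ℝ) ≤ 3 ^ (2:ℝ) :=
          ENNReal.rpow_le_rpow_of_exponent_le (by norm_num) (by norm_num)
      _ = 9 := by rw [ENNReal.rpow_ofNat]; norm_num
  calc ∫⁻ ξ, RR vol L e b a c u s ξ ^ (4 / 3 : ℝ) ∂μ
      ≤ ∫⁻ ξ, 9 * (sqf vol L e b (fun x => a x * a (x - u)) s ξ ^ (2:ℕ) +
          sqf vol L e b c (s + u) ξ ^ (2:ℕ) + sqf vol L e b c s ξ ^ (2:ℕ)) ∂μ := by
        refine lintegral_mono fun ξ => ?_
        refine (add_rpow3 _ _ _ (by norm_num)).trans ?_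
        rw [hp, hp, hp]
        gcongr
    _ = 9 * ((∫⁻ ξ, sqf vol L e b (fun x => a x * a (x - u)) s ξ ^ (2:ℕ) ∂μ +
          ∫⁻ ξ, sqf vol L e b c (s + u) ξ ^ (2:ℕ) ∂μ) + ∫⁻ ξ, sqf vol L e b c s ξ ^ (2:ℕ) ∂μ) := by
        rw [lintegral_const_mul' _ _ (by norm_num), lintegral_add_left, lintegral_add_left]
        · exact m1.pow_const 2
        · exact (m1.pow_const 2).add (m2.pow_const 2)
    _ ≤ 9 * ((Y + Y) + Y) := by gcongr
    _ = 27 * Y := by ring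

/-- the cubic form as an integral over the differences `u ∈ W` -/
lemma y_total {L : AddSubgroup P} [Countable L] {Fd : Set P} (hF : IsAddFundamentalDomain L Fd vol)
    {e : Ξ → P → ℂ} (hem : Measurable (uncurry e))
    {b : P → ℂ} (hbm : Measurable b) {a c : P → ℝ} (ham : Measurable a) (hcm : Measurable c)
    {W : Set P} (hWm : MeasurableSet W) (hW : ∀ u x, a x * a (x - u) ≠ 0 → u ∈ W) (ξ : Ξ) :
    (vol Fd)⁻¹ * ((vol Fd)⁻¹ * ∫⁻ q, ∫⁻ q', ‖∫ p, b p * e ξ p * (a (p - q) : ℂ) * (a (p - q') : ℂ) ∂vol‖ₑ *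
        ‖pc vol e b c q' ξ‖ₑ * ‖pc vol e b c q ξ‖ₑ ∂vol ∂vol) ≤
      (vol Fd)⁻¹ * ∫⁻ u in W, ∫⁻ s, RR vol L e b a c u s ξ ∂(kap vol Fd) ∂vol := by
  have e1 : ∀ q u, ∫ p, b p * e ξ p * (a (p - q) : ℂ) * (a (p - (q + u)) : ℂ) ∂vol =
      pc vol e b (fun x => a x * a (x - u)) q ξ := by
    intro q u
    unfold pc
    refine integral_congr_ae (Filter.Eventually.of_forall fun p => ?_)
    change b p * e ξ p * (a (p - q) : ℂ) * (a (p - (q + u)) : ℂ) =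
      b p * e ξ p * ((a (p - q) * a (p - q - u) : ℝ) : ℂ)
    rw [sub_add_eq_sub_sub]
    push_cast
    ring
  have mt : Measurable fun z : P × P => pc vol e b (fun x => a x * a (x - z.1)) z.2 ξ := by
    refine meas_pc (U := P) (θ := fun v y => a y * a (y - v)) hem hbm ?_ measurable_fst measurable_snd
      measurable_const
    exact (ham.comp measurable_snd).mul (ham.comp (measurable_snd.sub measurable_fst))
  have mc : Measurable fun q => pc vol e b c q ξ :=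
    meas_pc (U := Unit) (u := fun _ => ()) (θ := fun _ => c) hem hbm (hcm.comp measurable_snd) measurable_const
      measurable_id measurable_const
  have m1 : Measurable fun z : P × P => ‖pc vol e b (fun x => a x * a (x - z.1)) z.2 ξ‖ₑ *
      ‖pc vol e b c (z.2 + z.1) ξ‖ₑ * ‖pc vol e b c z.2 ξ‖ₑ :=
    (mt.enorm.mul (mc.comp (measurable_snd.add measurable_fst)).enorm).mul
      (mc.comp measurable_snd).enorm
  calc (vol Fd)⁻¹ * ((vol Fd)⁻¹ * ∫⁻ q, ∫⁻ q', ‖∫ p, b p * e ξ p * (a (p - q) : ℂ) *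
        (a (p - q') : ℂ) ∂vol‖ₑ * ‖pc vol e b c q' ξ‖ₑ * ‖pc vol e b c q ξ‖ₑ ∂vol ∂vol)
      = (vol Fd)⁻¹ * ((vol Fd)⁻¹ * ∫⁻ q, ∫⁻ u, ‖pc vol e b (fun x => a x * a (x - u)) q ξ‖ₑ *
          ‖pc vol e b c (q + u) ξ‖ₑ * ‖pc vol e b c q ξ‖ₑ ∂vol ∂vol) := by
        congr 2
        refine lintegral_congr fun q => ?_
        rw [← lintegral_add_left_eq_self _ q]
        refine lintegral_congr fun u => ?_
        rw [e1]
    _ = (vol Fd)⁻¹ * ((vol Fd)⁻¹ * ∫⁻ u, ∫⁻ q, ‖pc vol e b (fun x => a x * a (x - u)) q ξ‖ₑ *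
          ‖pc vol e b c (q + u) ξ‖ₑ * ‖pc vol e b c q ξ‖ₑ ∂vol ∂vol) := by
        rw [lintegral_lintegral_swap]
        exact (m1.comp measurable_swap).aemeasurable
    _ = (vol Fd)⁻¹ * ∫⁻ u, (vol Fd)⁻¹ * ∫⁻ q, ‖pc vol e b (fun x => a x * a (x - u)) q ξ‖ₑ *
          ‖pc vol e b c (q + u) ξ‖ₑ * ‖pc vol e b c q ξ‖ₑ ∂vol ∂vol := by
        congr 1
        rw [lintegral_const_mul]
        exact Measurable.lintegral_prod_right' (f := fun z : P × P =>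
          ‖pc vol e b (fun x => a x * a (x - z.1)) z.2 ξ‖ₑ *
          ‖pc vol e b c (z.2 + z.1) ξ‖ₑ * ‖pc vol e b c z.2 ξ‖ₑ) m1
    _ ≤ (vol Fd)⁻¹ * ∫⁻ u, W.indicator (fun u => ∫⁻ s, RR vol L e b a c u s ξ ∂(kap vol Fd)) u ∂vol := by
        gcongr with u
        by_cases hu : u ∈ W
        · rw [indicator_of_mem hu]
          refine (y_bound hF hem hbm (t := fun x => a x * a (x - u))
            (ham.mul (ham.comp (measurable_id.sub_const u))) hcm u ξ).trans (le_of_eq ?_)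
          rfl
        · rw [indicator_of_notMem hu]
          have h0 : ∀ q, pc vol e b (fun x => a x * a (x - u)) q ξ = 0 := by
            intro q
            unfold pc
            have h1 : ∀ x, a x * a (x - u) = 0 := fun x => by
              by_contra hx
              exact hu (hW u x hx)
            simp only [h1, Complex.ofReal_zero, mul_zero, integral_zero]
          simp only [h0, enorm_zero, zero_mul, lintegral_zero, mul_zero, le_refl]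
    _ = _ := by rw [lintegral_indicator hWm]

variable [vol.IsNegInvariant]

lemma enorm_vi {Fd : Set P} (h0 : vol Fd ≠ 0) (h1 : vol Fd ≠ ∞) :
    ‖((((vol Fd).toReal)⁻¹ : ℝ) : ℂ)‖ₑ = (vol Fd)⁻¹ := by
  have h2 : 0 < (vol Fd).toReal := ENNReal.toReal_pos h0 h1
  rw [← ofReal_norm, Complex.norm_real, Real.norm_eq_abs, abs_of_pos (inv_pos.2 h2),
    ENNReal.ofReal_inv_of_pos h2, ENNReal.ofReal_toReal h1]

end main2

/-! ### The two abstract steps -/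

section abs
variable {Ξ : Type*} [MeasurableSpace Ξ] {μ : Measure Ξ}

/-- the fourth power integral, from the pointwise identity -/
lemma four_le [IsFiniteMeasure μ] {A FF Q YY : Ξ → ℂ} (hAm : Measurable A) (hQm : Measurable Q)
    (hYm : Measurable YY) {B1 : ℝ} (hB10 : 0 ≤ B1) (hAb : ∀ ξ, ‖A ξ‖ ≤ B1)
    (hQb : ∀ ξ, ‖Q ξ‖ ≤ B1 * B1) (hYb : ∀ ξ, ‖YY ξ‖ ≤ B1 * (B1 * B1))
    (hid : ∀ ξ, ((‖A ξ‖ ^ 4 : ℝ) : ℂ) =
      A ξ * FF ξ + (2 * (A ξ * conj (A ξ)) * Q ξ - A ξ * YY ξ))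
    {ε : ℝ≥0∞} (hfar : ‖∫ ξ, A ξ * FF ξ ∂μ‖ₑ ≤ ε) :
    ∫⁻ ξ, ‖A ξ‖ₑ ^ (4:ℕ) ∂μ ≠ ∞ ∧ ∫⁻ ξ, ‖A ξ‖ₑ ^ (4:ℕ) ∂μ ≤
      ε + ∫⁻ ξ, (2 * (‖A ξ‖ₑ ^ (2:ℕ) * ‖Q ξ‖ₑ) + ‖A ξ‖ₑ * ‖YY ξ‖ₑ) ∂μ := by
  have i4 : Integrable (fun ξ => ((‖A ξ‖ ^ 4 : ℝ) : ℂ)) μ := by
    refine Integrable.of_bound (Complex.measurable_ofReal.comp
      (hAm.norm.pow_const 4)).aestronglyMeasurable (B1 ^ 4) (Filter.Eventually.of_forall fun ξ => ?_)
    rw [Complex.norm_real, norm_pow, norm_norm]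
    exact pow_le_pow_left₀ (norm_nonneg _) (hAb ξ) 4
  have iQ : Integrable (fun ξ => 2 * (A ξ * conj (A ξ)) * Q ξ) μ := by
    refine Integrable.of_bound (((measurable_const.mul (hAm.mul
      (Complex.continuous_conj.measurable.comp hAm))).mul hQm)).aestronglyMeasurable
      (2 * (B1 * B1) * (B1 * B1)) (Filter.Eventually.of_forall fun ξ => ?_)
    rw [norm_mul, norm_mul, norm_mul, RCLike.norm_conj, Complex.norm_ofNat]
    have h1 := hAb ξ
    have h2 := hQb ξ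
    gcongr
  have iY : Integrable (fun ξ => A ξ * YY ξ) μ := by
    refine Integrable.of_bound (hAm.mul hYm).aestronglyMeasurable (B1 * (B1 * (B1 * B1)))
      (Filter.Eventually.of_forall fun ξ => ?_)
    rw [norm_mul]
    have h1 := hAb ξ
    have h2 := hYb ξ
    gcongr
  have iR : Integrable (fun ξ => 2 * (A ξ * conj (A ξ)) * Q ξ - A ξ * YY ξ) μ := iQ.sub iY
  have iF : Integrable (fun ξ => A ξ * FF ξ) μ := by
    refine (i4.sub iR).congr (Filter.Eventually.of_forall fun ξ => ?_)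
    change ((‖A ξ‖ ^ 4 : ℝ) : ℂ) - (2 * (A ξ * conj (A ξ)) * Q ξ - A ξ * YY ξ) = A ξ * FF ξ
    rw [hid ξ]
    ring
  constructor
  · have h2 : ∫⁻ ξ, ‖A ξ‖ₑ ^ (4:ℕ) ∂μ ≤ ∫⁻ _ξ : Ξ, ENNReal.ofReal B1 ^ (4:ℕ) ∂μ := by
      refine lintegral_mono fun ξ => ?_
      have h3 : ‖A ξ‖ₑ ≤ ENNReal.ofReal B1 := by
        rw [← ofReal_norm]
        exact ENNReal.ofReal_le_ofReal (hAb ξ)
      exact pow_le_pow_left₀ zero_le h3 4
    refine ne_top_of_le_ne_top ?_ h2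
    rw [lintegral_const]
    exact ENNReal.mul_ne_top (ENNReal.pow_ne_top ENNReal.ofReal_ne_top) (measure_ne_top _ _)
  · have h2 : ∫⁻ ξ, ‖A ξ‖ₑ ^ (4:ℕ) ∂μ = ‖∫ ξ, ((‖A ξ‖ ^ 4 : ℝ) : ℂ) ∂μ‖ₑ := by
      have h3 : Integrable (fun ξ => ‖A ξ‖ ^ 4) μ := by
        refine i4.norm.congr (Filter.Eventually.of_forall fun ξ => ?_)
        change ‖((‖A ξ‖ ^ 4 : ℝ) : ℂ)‖ = ‖A ξ‖ ^ 4
        rw [Complex.norm_real, norm_pow, norm_norm]
      rw [integral_complex_ofReal, ← ofReal_norm, Complex.norm_real, Real.norm_eq_abs,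
        abs_of_nonneg (integral_nonneg fun ξ => by positivity),
        ofReal_integral_eq_lintegral_ofReal h3 (Filter.Eventually.of_forall fun ξ => by positivity)]
      refine lintegral_congr fun ξ => ?_
      rw [ENNReal.ofReal_pow (norm_nonneg _), ofReal_norm]
    have h4 : ∫ ξ, ((‖A ξ‖ ^ 4 : ℝ) : ℂ) ∂μ =
        ∫ ξ, A ξ * FF ξ ∂μ + ∫ ξ, (2 * (A ξ * conj (A ξ)) * Q ξ - A ξ * YY ξ) ∂μ := by
      rw [← integral_add iF iR]
      exact integral_congr_ae (Filter.Eventually.of_forall fun ξ => hid ξ)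
    rw [h2, h4]
    refine (enorm_add_le _ _).trans (add_le_add hfar ?_)
    refine (enorm_integral_le_lintegral_enorm _).trans (lintegral_mono fun ξ => ?_)
    refine enorm_sub_le.trans (le_of_eq ?_)
    have h5 : ‖(2:ℂ)‖ₑ = 2 := by
      rw [← ofReal_norm, Complex.norm_ofNat, ENNReal.ofReal_ofNat]
    rw [enorm_mul, enorm_mul, enorm_mul, enorm_mul, RCLike.enorm_conj, h5]
    ring

/-- Hölder and the final algebra -/
lemma concl {A Q YY : Ξ → ℂ} (hAm : Measurable A) (hQm : Measurable Q)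
    {gQ gY : Ξ → ℝ≥0∞} (mgQ : Measurable gQ) (mgY : Measurable gY) (hQg : ∀ ξ, ‖Q ξ‖ₑ ≤ gQ ξ)
    (hYg : ∀ ξ, ‖YY ξ‖ₑ ≤ gY ξ) {Y ε c : ℝ≥0∞} (hQ2 : ∫⁻ ξ, gQ ξ ^ (2:ℝ) ∂μ ≤ 8 * Y)
    (hY2 : ∫⁻ ξ, gY ξ ^ (4 / 3 : ℝ) ∂μ ≤ c * Y)
    (hFtop : ∫⁻ ξ, ‖A ξ‖ₑ ^ (4:ℕ) ∂μ ≠ ∞)
    (hF : ∫⁻ ξ, ‖A ξ‖ₑ ^ (4:ℕ) ∂μ ≤
      ε + ∫⁻ ξ, (2 * (‖A ξ‖ₑ ^ (2:ℕ) * ‖Q ξ‖ₑ) + ‖A ξ‖ₑ * ‖YY ξ‖ₑ) ∂μ) :
    ∫⁻ ξ, ‖A ξ‖ₑ ^ (4:ℕ) ∂μ ≤ 3 * ε + (288 + 81 * c) * Y := by
  have hH1 : ∫⁻ ξ, ‖A ξ‖ₑ ^ (2:ℕ) * ‖Q ξ‖ₑ ∂μ ≤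
      (∫⁻ ξ, ‖A ξ‖ₑ ^ (4:ℕ) ∂μ) ^ (1 / 2 : ℝ) * (8 * Y) ^ (1 / 2 : ℝ) := by
    calc ∫⁻ ξ, ‖A ξ‖ₑ ^ (2:ℕ) * ‖Q ξ‖ₑ ∂μ
        ≤ ∫⁻ ξ, ((fun ξ => ‖A ξ‖ₑ ^ (2:ℕ)) * gQ) ξ ∂μ := by
          refine lintegral_mono fun ξ => ?_
          change _ ≤ ‖A ξ‖ₑ ^ (2:ℕ) * gQ ξ
          gcongr
          exact hQg ξ
      _ ≤ (∫⁻ ξ, (‖A ξ‖ₑ ^ (2:ℕ)) ^ (2:ℝ) ∂μ) ^ (1 / 2 : ℝ) *
            (∫⁻ ξ, gQ ξ ^ (2:ℝ) ∂μ) ^ (1 / 2 : ℝ) :=
          ENNReal.lintegral_mul_le_Lp_mul_Lq μ Real.HolderConjugate.two_two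
            (hAm.enorm.pow_const 2).aemeasurable mgQ.aemeasurable
      _ ≤ _ := by
          have h2 : ∫⁻ ξ, (‖A ξ‖ₑ ^ (2:ℕ)) ^ (2:ℝ) ∂μ = ∫⁻ ξ, ‖A ξ‖ₑ ^ (4:ℕ) ∂μ := by
            refine lintegral_congr fun ξ => ?_
            rw [ENNReal.rpow_ofNat, ← pow_mul]
          rw [h2]
          gcongr
  have hH2 : ∫⁻ ξ, ‖A ξ‖ₑ * ‖YY ξ‖ₑ ∂μ ≤
      (∫⁻ ξ, ‖A ξ‖ₑ ^ (4:ℕ) ∂μ) ^ (1 / 4 : ℝ) * (c * Y) ^ (3 / 4 : ℝ) := by
    have hconj : (4:ℝ).HolderConjugate (4 / 3) := by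
      rw [Real.holderConjugate_iff]; norm_num
    calc ∫⁻ ξ, ‖A ξ‖ₑ * ‖YY ξ‖ₑ ∂μ
        ≤ ∫⁻ ξ, ((fun ξ => ‖A ξ‖ₑ) * gY) ξ ∂μ := by
          refine lintegral_mono fun ξ => ?_
          change _ ≤ ‖A ξ‖ₑ * gY ξ
          gcongr
          exact hYg ξ
      _ ≤ (∫⁻ ξ, ‖A ξ‖ₑ ^ (4:ℝ) ∂μ) ^ (1 / 4 : ℝ) *
            (∫⁻ ξ, gY ξ ^ (4 / 3 : ℝ) ∂μ) ^ (1 / (4 / 3) : ℝ) :=
          ENNReal.lintegral_mul_le_Lp_mul_Lq μ hconj hAm.enorm.aemeasurable mgY.aemeasurable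
      _ ≤ _ := by
          have h2 : ∫⁻ ξ, ‖A ξ‖ₑ ^ (4:ℝ) ∂μ = ∫⁻ ξ, ‖A ξ‖ₑ ^ (4:ℕ) ∂μ := by
            refine lintegral_congr fun ξ => ?_
            rw [ENNReal.rpow_ofNat]
          rw [h2, show (1 / (4 / 3) : ℝ) = 3 / 4 by norm_num]
          gcongr
  refine final_alg hFtop ?_
  calc ∫⁻ ξ, ‖A ξ‖ₑ ^ (4:ℕ) ∂μ
      ≤ ε + ∫⁻ ξ, (2 * (‖A ξ‖ₑ ^ (2:ℕ) * ‖Q ξ‖ₑ) + ‖A ξ‖ₑ * ‖YY ξ‖ₑ) ∂μ := hF
    _ = ε + (2 * ∫⁻ ξ, ‖A ξ‖ₑ ^ (2:ℕ) * ‖Q ξ‖ₑ ∂μ + ∫⁻ ξ, ‖A ξ‖ₑ * ‖YY ξ‖ₑ ∂μ) := by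
        have hm : Measurable fun ξ => 2 * (‖A ξ‖ₑ ^ (2:ℕ) * ‖Q ξ‖ₑ) :=
          ((hAm.enorm.pow_const 2).mul hQm.enorm).const_mul 2
        rw [lintegral_add_left hm, lintegral_const_mul' _ _ (by norm_num)]
    _ ≤ ε + (2 * ((∫⁻ ξ, ‖A ξ‖ₑ ^ (4:ℕ) ∂μ) ^ (1 / 2 : ℝ) * (8 * Y) ^ (1 / 2 : ℝ)) +
          (∫⁻ ξ, ‖A ξ‖ₑ ^ (4:ℕ) ∂μ) ^ (1 / 4 : ℝ) * (c * Y) ^ (3 / 4 : ℝ)) := by gcongr
    _ = _ := by ring

end abs

section abs2
variable {S Ξ : Type*} [MeasurableSpace S] [MeasurableSpace Ξ] {μ : Measure Ξ} [SFinite μ]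

lemma sq_add_le (x y : ℝ≥0∞) : (x + y) ^ (2:ℝ) ≤ 4 * (x ^ (2:ℕ) + y ^ (2:ℕ)) := by
  rw [ENNReal.rpow_ofNat]
  rcases le_total x y with h | h
  · calc (x + y) ^ 2 ≤ (y + y) ^ 2 := by gcongr
      _ = 4 * y ^ 2 := by ring
      _ ≤ _ := by gcongr; exact le_add_self
  · calc (x + y) ^ 2 ≤ (x + x) ^ 2 := by gcongr
      _ = 4 * x ^ 2 := by ring
      _ ≤ _ := by gcongr; exact le_self_add

lemma gQ_abs {κ : Measure S} [SFinite κ] (hκ : κ univ = 1) {SA SC : Ξ → S → ℝ≥0∞}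
    (mA : Measurable (uncurry SA)) (mC : Measurable (uncurry SC)) {Y : ℝ≥0∞}
    (hYa : ∀ s, ∫⁻ ξ, SA ξ s ^ (2:ℕ) ∂μ ≤ Y) (hYc : ∀ s, ∫⁻ ξ, SC ξ s ^ (2:ℕ) ∂μ ≤ Y) :
    ∫⁻ ξ, (∫⁻ s, (SA ξ s + SC ξ s) ∂κ) ^ (2:ℝ) ∂μ ≤ 8 * Y := by
  have hsw : AEMeasurable (uncurry fun ξ s => (SA ξ s + SC ξ s) ^ (2:ℝ)) (μ.prod κ) :=
    ((mA.add mC).pow_const (2:ℝ)).aemeasurable
  calc ∫⁻ ξ, (∫⁻ s, (SA ξ s + SC ξ s) ∂κ) ^ (2:ℝ) ∂μ
      ≤ ∫⁻ ξ, ∫⁻ s, (SA ξ s + SC ξ s) ^ (2:ℝ) ∂κ ∂μ := by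
        refine lintegral_mono fun ξ => ?_
        have hm : Measurable fun s => SA ξ s + SC ξ s := mA.of_uncurry_left.add mC.of_uncurry_left
        have h2 := jensen (κ := κ) hm.aemeasurable (p := 2) (by norm_num)
        rw [hκ, ENNReal.one_rpow, one_mul] at h2
        exact h2
    _ = ∫⁻ s, ∫⁻ ξ, (SA ξ s + SC ξ s) ^ (2:ℝ) ∂μ ∂κ := lintegral_lintegral_swap hsw
    _ ≤ ∫⁻ _s : S, 8 * Y ∂κ := by
        refine lintegral_mono fun s => ?_
        have hm : Measurable fun ξ => SA ξ s ^ (2:ℕ) := mA.of_uncurry_right.pow_const 2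
        calc ∫⁻ ξ, (SA ξ s + SC ξ s) ^ (2:ℝ) ∂μ
            ≤ ∫⁻ ξ, 4 * (SA ξ s ^ (2:ℕ) + SC ξ s ^ (2:ℕ)) ∂μ :=
              lintegral_mono fun ξ => sq_add_le _ _
          _ = 4 * (∫⁻ ξ, SA ξ s ^ (2:ℕ) ∂μ + ∫⁻ ξ, SC ξ s ^ (2:ℕ) ∂μ) := by
              rw [lintegral_const_mul' _ _ (by norm_num), lintegral_add_left hm]
          _ ≤ 4 * (Y + Y) := by
              gcongr
              · exact hYa s
              · exact hYc s
          _ = 8 * Y := by ring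
    _ = 8 * Y := by rw [lintegral_const, hκ, mul_one]

lemma gY_abs {lam : Measure S} [SFinite lam] {Cw : ℝ≥0∞} (hlam : lam univ ≤ Cw)
    {R : Ξ → S → ℝ≥0∞} (mR : Measurable (uncurry R)) {Z : ℝ≥0∞}
    (hin : ∫⁻ z, ∫⁻ ξ, R ξ z ^ (4 / 3 : ℝ) ∂μ ∂lam ≤ Z) :
    ∫⁻ ξ, (∫⁻ z, R ξ z ∂lam) ^ (4 / 3 : ℝ) ∂μ ≤ Cw ^ (1 / 3 : ℝ) * Z := by
  have hsw : AEMeasurable (uncurry fun ξ z => R ξ z ^ (4 / 3 : ℝ)) (μ.prod lam) :=
    (mR.pow_const (4 / 3 : ℝ)).aemeasurable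
  have hm : Measurable fun ξ => ∫⁻ z, R ξ z ^ (4 / 3 : ℝ) ∂lam :=
    Measurable.lintegral_prod_right' (f := fun z : Ξ × S => R z.1 z.2 ^ (4 / 3 : ℝ))
      (mR.pow_const (4 / 3 : ℝ))
  calc ∫⁻ ξ, (∫⁻ z, R ξ z ∂lam) ^ (4 / 3 : ℝ) ∂μ
      ≤ ∫⁻ ξ, Cw ^ (1 / 3 : ℝ) * ∫⁻ z, R ξ z ^ (4 / 3 : ℝ) ∂lam ∂μ := by
        refine lintegral_mono fun ξ => ?_
        have hm : Measurable (R ξ) := mR.of_uncurry_left
        refine (jensen (κ := lam) hm.aemeasurable (p := 4 / 3) (by norm_num)).trans ?_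
        rw [show (4 / 3 - 1 : ℝ) = 1 / 3 by norm_num]
        gcongr
    _ = Cw ^ (1 / 3 : ℝ) * ∫⁻ ξ, ∫⁻ z, R ξ z ^ (4 / 3 : ℝ) ∂lam ∂μ := lintegral_const_mul _ hm
    _ = Cw ^ (1 / 3 : ℝ) * ∫⁻ z, ∫⁻ ξ, R ξ z ^ (4 / 3 : ℝ) ∂μ ∂lam := by
        rw [lintegral_lintegral_swap hsw]
    _ ≤ Cw ^ (1 / 3 : ℝ) * Z := by gcongr

lemma prod_eq {vol κ : Measure S} [SFinite vol] [SFinite κ] (k : ℝ≥0∞) (W : Set S)
    {R : S → S → ℝ≥0∞} (h1 : Measurable (uncurry R)) :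
    k * ∫⁻ u in W, ∫⁻ s, R u s ∂κ ∂vol =
      ∫⁻ z : S × S, uncurry R z ∂((k • vol.restrict W).prod κ) := by
  rw [lintegral_prod _ h1.aemeasurable, lintegral_smul_measure]
  rfl

lemma prod_mass {vol κ : Measure S} [SFinite vol] [SFinite κ] (hκ : κ univ = 1)
    {V : ℝ≥0∞} (h0 : V ≠ 0) (h1 : V ≠ ∞) {W : Set S} {Cw : ℝ≥0∞} (hCw : vol W ≤ Cw * V) :
    ((V⁻¹ • vol.restrict W).prod κ) univ ≤ Cw := by
  rw [← univ_prod_univ, Measure.prod_prod, hκ, mul_one, Measure.smul_apply,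
    Measure.restrict_apply_univ, smul_eq_mul]
  calc V⁻¹ * vol W ≤ V⁻¹ * (Cw * V) := by gcongr
    _ = Cw * (V⁻¹ * V) := by ring
    _ = Cw := by rw [ENNReal.inv_mul_cancel h0 h1, mul_one]

lemma prod_le {vol κ : Measure S} [SFinite vol] [SFinite κ] (hκ : κ univ = 1)
    {V : ℝ≥0∞} (h0 : V ≠ 0) (h1 : V ≠ ∞) {W : Set S} (hWm : MeasurableSet W) {Cw : ℝ≥0∞}
    (hCw : vol W ≤ Cw * V) {F : S → S → ℝ≥0∞} (mF : Measurable (uncurry F)) {Z : ℝ≥0∞}
    (hF : ∀ u ∈ W, ∀ s, F u s ≤ Z) :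
    ∫⁻ z : S × S, uncurry F z ∂((V⁻¹ • vol.restrict W).prod κ) ≤ Z * Cw := by
  rw [← prod_eq V⁻¹ W mF]
  calc V⁻¹ * ∫⁻ u in W, ∫⁻ s, F u s ∂κ ∂vol
      ≤ V⁻¹ * ∫⁻ _u in W, Z ∂vol := by
        refine mul_le_mul_right (setLIntegral_mono' hWm fun u hu => ?_) _
        calc ∫⁻ s, F u s ∂κ ≤ ∫⁻ _s : S, Z ∂κ := lintegral_mono fun s => hF u hu s
          _ = Z := by rw [lintegral_const, hκ, mul_one]
    _ = V⁻¹ * (Z * vol W) := by rw [lintegral_const, Measure.restrict_apply_univ]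
    _ ≤ V⁻¹ * (Z * (Cw * V)) := by gcongr
    _ = Z * Cw * (V⁻¹ * V) := by ring
    _ = Z * Cw := by rw [ENNReal.inv_mul_cancel h0 h1, mul_one]

lemma pow_43 (Cw Y : ℝ≥0∞) : Cw ^ (1 / 3 : ℝ) * (27 * Y * Cw) = 27 * Cw ^ (4 / 3 : ℝ) * Y := by
  have h : Cw ^ (4 / 3 : ℝ) = Cw ^ (1 / 3 : ℝ) * Cw := by
    have h2 := ENNReal.rpow_add_of_nonneg (x := Cw) (1 / 3) 1 (by norm_num) (by norm_num)
    rw [ENNReal.rpow_one] at h2
    rw [← h2]
    norm_num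
  rw [h]
  ring

/-- everything about the second majorant, abstractly -/
lemma gYY {vol κ : Measure S} [SFinite vol] [SFinite κ] (hκ : κ univ = 1)
    {V : ℝ≥0∞} (h0 : V ≠ 0) (h1 : V ≠ ∞) {W : Set S} (hWm : MeasurableSet W) {Cw : ℝ≥0∞}
    (hCw : vol W ≤ Cw * V) {R : Ξ → S → S → ℝ≥0∞}
    (mR : Measurable fun z : Ξ × (S × S) => R z.1 z.2.1 z.2.2) {Y : ℝ≥0∞}
    (hR : ∀ u ∈ W, ∀ s, ∫⁻ ξ, R ξ u s ^ (4 / 3 : ℝ) ∂μ ≤ 27 * Y) :
    (Measurable fun ξ => V⁻¹ * ∫⁻ u in W, ∫⁻ s, R ξ u s ∂κ ∂vol) ∧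
    ∫⁻ ξ, (V⁻¹ * ∫⁻ u in W, ∫⁻ s, R ξ u s ∂κ ∂vol) ^ (4 / 3 : ℝ) ∂μ ≤
      27 * Cw ^ (4 / 3 : ℝ) * Y := by
  have mR1 : ∀ ξ, Measurable (uncurry (R ξ)) := fun ξ => by
    have hg : Measurable fun z : S × S => ((ξ, z) : Ξ × (S × S)) :=
      measurable_const.prodMk measurable_id
    exact mR.comp hg
  have mF : Measurable (uncurry fun u s => ∫⁻ ξ, R ξ u s ^ (4 / 3 : ℝ) ∂μ) :=
    Measurable.lintegral_prod_left' (f := fun z : Ξ × (S × S) => R z.1 z.2.1 z.2.2 ^ (4 / 3 : ℝ))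
      (mR.pow_const (4 / 3 : ℝ))
  have e1 : ∀ ξ, V⁻¹ * ∫⁻ u in W, ∫⁻ s, R ξ u s ∂κ ∂vol =
      ∫⁻ z : S × S, uncurry (R ξ) z ∂((V⁻¹ • vol.restrict W).prod κ) := fun ξ =>
    prod_eq V⁻¹ W (mR1 ξ)
  have mU : Measurable (uncurry fun (ξ : Ξ) (z : S × S) => uncurry (R ξ) z) := mR
  constructor
  · simp only [e1]
    exact Measurable.lintegral_prod_right' (f := fun z : Ξ × (S × S) => R z.1 z.2.1 z.2.2) mR
  · simp only [e1]
    refine (gY_abs (prod_mass hκ h0 h1 hCw) mU (Z := 27 * Y * Cw) ?_).trans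
      (le_of_eq (pow_43 Cw Y))
    exact prod_le hκ h0 h1 hWm hCw mF hR

end abs2

section main3
variable {P Ξ : Type*} [AddCommGroup P] [MeasurableSpace P] [MeasurableAdd₂ P] [MeasurableNeg P]
  [MeasurableSpace Ξ] {vol : Measure P} [SFinite vol] [vol.IsAddLeftInvariant]
  {L : AddSubgroup P} [Countable L] {Fd : Set P}

lemma mS {e : Ξ → P → ℂ} (hem : Measurable (uncurry e)) {b : P → ℂ} (hbm : Measurable b)
    {θ : P → ℝ} (hθ : Measurable θ) : Measurable fun z : Ξ × P => sqf vol L e b θ z.2 z.1 :=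
  meas_sqf (U := Unit) (u := fun _ => ()) (θ := fun _ => θ) hem hbm (hθ.comp measurable_snd)
    measurable_const measurable_snd measurable_fst

lemma sfk : SFinite (kap vol Fd) := by unfold kap; infer_instance

lemma gQ_bound (h0 : vol Fd ≠ 0) (h1 : vol Fd ≠ ∞) {μ : Measure Ξ} [SFinite μ]
    {e : Ξ → P → ℂ} (hem : Measurable (uncurry e)) {b : P → ℂ} (hbm : Measurable b)
    {a c : P → ℝ} (ham : Measurable a) (hcm : Measurable c) {Y : ℝ≥0∞}
    (hYa : ∀ s, ∫⁻ ξ, sqf vol L e b a s ξ ^ (2:ℕ) ∂μ ≤ Y)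
    (hYc : ∀ s, ∫⁻ ξ, sqf vol L e b c s ξ ^ (2:ℕ) ∂μ ≤ Y) :
    ∫⁻ ξ, (∫⁻ s, (sqf vol L e b a s ξ + sqf vol L e b c s ξ) ∂(kap vol Fd)) ^ (2:ℝ) ∂μ ≤ 8 * Y := by
  have := sfk (vol := vol) (Fd := Fd)
  have ma : Measurable (uncurry fun (ξ : Ξ) (s : P) => sqf vol L e b a s ξ) := mS hem hbm ham
  have mc : Measurable (uncurry fun (ξ : Ξ) (s : P) => sqf vol L e b c s ξ) := mS hem hbm hcm
  exact gQ_abs (kap_univ h0 h1) ma mc hYa hYc

lemma mgQ {e : Ξ → P → ℂ} (hem : Measurable (uncurry e)) {b : P → ℂ} (hbm : Measurable b)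
    {a c : P → ℝ} (ham : Measurable a) (hcm : Measurable c) :
    Measurable fun ξ => ∫⁻ s, (sqf vol L e b a s ξ + sqf vol L e b c s ξ) ∂(kap vol Fd) := by
  have := sfk (vol := vol) (Fd := Fd)
  exact Measurable.lintegral_prod_right' (f := fun z : Ξ × P =>
    sqf vol L e b a z.2 z.1 + sqf vol L e b c z.2 z.1) ((mS hem hbm ham).add (mS hem hbm hcm))

lemma mR {e : Ξ → P → ℂ} (hem : Measurable (uncurry e)) {b : P → ℂ} (hbm : Measurable b)
    {a c : P → ℝ} (ham : Measurable a) (hcm : Measurable c) :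
    Measurable fun z : Ξ × (P × P) => RR vol L e b a c z.2.1 z.2.2 z.1 :=
  meas_RR hem hbm ham hcm (measurable_fst.comp measurable_snd)
    (measurable_snd.comp measurable_snd) measurable_fst

lemma gY_bound (h0 : vol Fd ≠ 0) (h1 : vol Fd ≠ ∞) {μ : Measure Ξ} [SFinite μ]
    {e : Ξ → P → ℂ} (hem : Measurable (uncurry e)) {b : P → ℂ} (hbm : Measurable b)
    {a c : P → ℝ} (ham : Measurable a) (hcm : Measurable c) {W : Set P} (hWm : MeasurableSet W)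
    {Cw : ℝ≥0∞} (hCw : vol W ≤ Cw * vol Fd) {Y : ℝ≥0∞}
    (hYc : ∀ s, ∫⁻ ξ, sqf vol L e b c s ξ ^ (2:ℕ) ∂μ ≤ Y)
    (hYw : ∀ u ∈ W, ∀ s, ∫⁻ ξ, sqf vol L e b (fun x => a x * a (x - u)) s ξ ^ (2:ℕ) ∂μ ≤ Y) :
    (Measurable fun ξ =>
      (vol Fd)⁻¹ * ∫⁻ u in W, ∫⁻ s, RR vol L e b a c u s ξ ∂(kap vol Fd) ∂vol) ∧
    ∫⁻ ξ, ((vol Fd)⁻¹ * ∫⁻ u in W, ∫⁻ s, RR vol L e b a c u s ξ ∂(kap vol Fd) ∂vol) ^ (4 / 3 : ℝ) ∂μ
      ≤ 27 * Cw ^ (4 / 3 : ℝ) * Y := by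
  have := sfk (vol := vol) (Fd := Fd)
  have hR : ∀ u ∈ W, ∀ s, ∫⁻ ξ, RR vol L e b a c u s ξ ^ (4 / 3 : ℝ) ∂μ ≤ 27 * Y :=
    fun u hu s => RR_bound hem hbm ham hcm (hYw u hu s) (hYc (s + u)) (hYc s)
  exact gYY (R := fun ξ u s => RR vol L e b a c u s ξ) (kap_univ h0 h1) h0 h1 hWm hCw
    (mR hem hbm ham hcm) hR

variable [vol.IsNegInvariant]

/-- the pointwise facts -/
lemma near_pw (hF : IsAddFundamentalDomain L Fd vol)
    (h0 : vol Fd ≠ 0) (h1 : vol Fd ≠ ∞) {e : Ξ → P → ℂ} (hem : Measurable (uncurry e))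
    {b : P → ℂ} (hbm : Measurable b)
    {a c : P → ℝ} (ham : Measurable a) (hai : Integrable a vol) {Ba : ℝ} (hab : ∀ x, |a x| ≤ Ba)
    (hcm : Measurable c) (hci : Integrable c vol) {Bc : ℝ} (hcb : ∀ x, |c x| ≤ Bc)
    {N : P → ℝ} (hNb : ∀ x, |N x| ≤ 1)
    (hN : ∀ p p', N (p - p') = ((vol Fd).toReal)⁻¹ * ∫ q, a (p - q) * c (p' - q) ∂vol)
    {W : Set P} (hWm : MeasurableSet W) (hW : ∀ u x, a x * a (x - u) ≠ 0 → u ∈ W) (ξ : Ξ)
    (hG : Integrable (fun p => b p * e ξ p) vol)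
    (hMm : Measurable fun p => ∫ p', (N (p - p') : ℂ) * conj (b p' * e ξ p') ∂vol) :
    ‖∫ p, b p * e ξ p * (∫ p', (N (p - p') : ℂ) * conj (b p' * e ξ p') ∂vol) ∂vol‖ₑ ≤
        ∫⁻ s, (sqf vol L e b a s ξ + sqf vol L e b c s ξ) ∂(kap vol Fd) ∧
      ‖∫ p, b p * e ξ p * (∫ p', (N (p - p') : ℂ) * conj (b p' * e ξ p') ∂vol) ^ 2 ∂vol‖ₑ ≤
        (vol Fd)⁻¹ * ∫⁻ u in W, ∫⁻ s, RR vol L e b a c u s ξ ∂(kap vol Fd) ∂vol := by
  have hGm : Measurable fun p => b p * e ξ p :=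
    hbm.mul (hem.comp (measurable_const.prodMk measurable_id))
  have hfc : Measurable fun q => ∫ p', b p' * e ξ p' * (c (p' - q) : ℂ) ∂vol :=
    meas_int (f := fun q p' => b p' * e ξ p' * (c (p' - q) : ℂ))
      ((hGm.comp measurable_snd).mul
        (Complex.measurable_ofReal.comp (hcm.comp (measurable_snd.sub measurable_fst))))
  constructor
  · have h2 := qform hG hai ham hab hci hcm hcb hfc hN
    rw [h2, enorm_mul, enorm_vi h0 h1]
    refine le_trans (mul_le_mul_right ?_ _) (q_bound hF hem hbm ham hcm ξ)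
    refine (enorm_integral_le_lintegral_enorm _).trans (le_of_eq ?_)
    refine lintegral_congr fun q => ?_
    rw [enorm_mul, RCLike.enorm_conj]
    rfl
  · have h2 := yform hG hai ham hab hci hcm hcb hfc hMm hNb hN
    rw [h2, enorm_mul, enorm_mul, enorm_vi h0 h1, mul_assoc]
    refine le_trans (mul_le_mul_right (mul_le_mul_right ?_ _) _)
      (y_total hF hem hbm ham hcm hWm hW ξ)
    refine (enorm_integral_le_lintegral_enorm _).trans (lintegral_mono fun q => ?_)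
    rw [enorm_mul, RCLike.enorm_conj, lintegral_mul_const' _ _ enorm_ne_top]
    refine mul_le_mul_left ?_ _
    refine (enorm_integral_le_lintegral_enorm _).trans (le_of_eq ?_)
    refine lintegral_congr fun q' => ?_
    rw [enorm_mul, RCLike.enorm_conj]
    rfl

/-- **NEAR.** -/
theorem near_abs (hF : IsAddFundamentalDomain L Fd vol)
    (h0 : vol Fd ≠ 0) (h1 : vol Fd ≠ ∞) {μ : Measure Ξ} [IsFiniteMeasure μ]
    {e : Ξ → P → ℂ} (hem : Measurable (uncurry e)) (he : ∀ ξ p, ‖e ξ p‖ ≤ 1)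
    {b : P → ℂ} (hbm : Measurable b) (hbi : Integrable b vol)
    {a c : P → ℝ} (ham : Measurable a) (hai : Integrable a vol) {Ba : ℝ} (hab : ∀ x, |a x| ≤ Ba)
    (hcm : Measurable c) (hci : Integrable c vol) {Bc : ℝ} (hcb : ∀ x, |c x| ≤ Bc)
    {N : P → ℝ} (hNm : Measurable N) (hNb : ∀ x, |N x| ≤ 1)
    (hN : ∀ p p', N (p - p') = ((vol Fd).toReal)⁻¹ * ∫ q, a (p - q) * c (p' - q) ∂vol)
    {W : Set P} (hWm : MeasurableSet W) (hW : ∀ u x, a x * a (x - u) ≠ 0 → u ∈ W)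
    {Cw : ℝ≥0∞} (hCw : vol W ≤ Cw * vol Fd) {Y ε : ℝ≥0∞}
    (hYa : ∀ s, ∫⁻ ξ, sqf vol L e b a s ξ ^ (2:ℕ) ∂μ ≤ Y)
    (hYc : ∀ s, ∫⁻ ξ, sqf vol L e b c s ξ ^ (2:ℕ) ∂μ ≤ Y)
    (hYw : ∀ u ∈ W, ∀ s, ∫⁻ ξ, sqf vol L e b (fun x => a x * a (x - u)) s ξ ^ (2:ℕ) ∂μ ≤ Y)
    (hfar : ‖∫ ξ, (∫ p, b p * e ξ p ∂vol) * (∫ p, b p * e ξ p *
      (∫ p', ((1 - N (p - p') : ℝ) : ℂ) * conj (b p' * e ξ p') ∂vol) ^ 2 ∂vol) ∂μ‖ₑ ≤ ε) :
    ∫⁻ ξ, ‖∫ p, b p * e ξ p ∂vol‖ₑ ^ (4:ℕ) ∂μ ≤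
      3 * ε + (288 + 2187 * Cw ^ (4 / 3 : ℝ)) * Y := by
  have hGm : Measurable fun z : Ξ × P => b z.2 * e z.1 z.2 := (hbm.comp measurable_snd).mul hem
  have hAm : Measurable fun ξ => ∫ p, b p * e ξ p ∂vol :=
    meas_int (f := fun ξ p => b p * e ξ p) hGm
  have hMm : Measurable fun z : Ξ × P =>
      ∫ p', (N (z.2 - p') : ℂ) * conj (b p' * e z.1 p') ∂vol := by
    refine meas_int (f := fun (z : Ξ × P) p' => (N (z.2 - p') : ℂ) * conj (b p' * e z.1 p')) ?_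
    refine (Complex.measurable_ofReal.comp (hNm.comp
      ((measurable_snd.comp measurable_fst).sub measurable_snd))).mul ?_
    exact Complex.continuous_conj.measurable.comp (hGm.comp
      ((measurable_fst.comp measurable_fst).prodMk measurable_snd))
  have hMm1 : ∀ ξ, Measurable fun p => ∫ p', (N (p - p') : ℂ) * conj (b p' * e ξ p') ∂vol :=
    fun ξ => hMm.comp (measurable_const.prodMk measurable_id)
  have hQm : Measurable fun ξ => ∫ p, b p * e ξ p *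
      (∫ p', (N (p - p') : ℂ) * conj (b p' * e ξ p') ∂vol) ∂vol :=
    meas_int (f := fun ξ p => b p * e ξ p *
      (∫ p', (N (p - p') : ℂ) * conj (b p' * e ξ p') ∂vol)) (hGm.mul hMm)
  have hYm : Measurable fun ξ => ∫ p, b p * e ξ p *
      (∫ p', (N (p - p') : ℂ) * conj (b p' * e ξ p') ∂vol) ^ 2 ∂vol :=
    meas_int (f := fun ξ p => b p * e ξ p *
      (∫ p', (N (p - p') : ℂ) * conj (b p' * e ξ p') ∂vol) ^ 2) (hGm.mul (hMm.pow_const 2))
  have hGi : ∀ ξ, Integrable (fun p => b p * e ξ p) vol := fun ξ =>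
    hbi.mul_bdd (c := 1) (hem.comp (measurable_const.prodMk measurable_id)).aestronglyMeasurable
      (Filter.Eventually.of_forall fun p => he ξ p)
  have hB10 : 0 ≤ ∫ p, ‖b p‖ ∂vol := integral_nonneg fun p => norm_nonneg _
  have hGn : ∀ ξ p, ‖b p * e ξ p‖ ≤ ‖b p‖ := fun ξ p => by
    rw [norm_mul]
    exact mul_le_of_le_one_right (norm_nonneg _) (he ξ p)
  have hAb : ∀ ξ, ‖∫ p, b p * e ξ p ∂vol‖ ≤ ∫ p, ‖b p‖ ∂vol := fun ξ =>
    norm_integral_le_of_norm_le hbi.norm (Filter.Eventually.of_forall fun p => hGn ξ p)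
  have hMb : ∀ ξ p, ‖∫ p', (N (p - p') : ℂ) * conj (b p' * e ξ p') ∂vol‖ ≤ ∫ p, ‖b p‖ ∂vol := by
    intro ξ p
    refine norm_integral_le_of_norm_le hbi.norm (Filter.Eventually.of_forall fun p' => ?_)
    rw [norm_mul, Complex.norm_real, RCLike.norm_conj]
    exact (mul_le_of_le_one_left (norm_nonneg _) (hNb _)).trans (hGn ξ p')
  have hQb : ∀ ξ, ‖∫ p, b p * e ξ p * (∫ p', (N (p - p') : ℂ) * conj (b p' * e ξ p') ∂vol) ∂vol‖ ≤
      (∫ p, ‖b p‖ ∂vol) * ∫ p, ‖b p‖ ∂vol := by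
    intro ξ
    refine (norm_integral_le_of_norm_le (hbi.norm.mul_const (∫ p, ‖b p‖ ∂vol))
      (Filter.Eventually.of_forall fun p => ?_)).trans (le_of_eq (integral_mul_const _ _))
    rw [norm_mul]
    exact mul_le_mul (hGn ξ p) (hMb ξ p) (norm_nonneg _) (norm_nonneg _)
  have hYb : ∀ ξ, ‖∫ p, b p * e ξ p *
      (∫ p', (N (p - p') : ℂ) * conj (b p' * e ξ p') ∂vol) ^ 2 ∂vol‖ ≤
      (∫ p, ‖b p‖ ∂vol) * ((∫ p, ‖b p‖ ∂vol) * ∫ p, ‖b p‖ ∂vol) := by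
    intro ξ
    refine (norm_integral_le_of_norm_le (hbi.norm.mul_const ((∫ p, ‖b p‖ ∂vol) * ∫ p, ‖b p‖ ∂vol))
      (Filter.Eventually.of_forall fun p => ?_)).trans (le_of_eq (integral_mul_const _ _))
    rw [norm_mul, norm_pow, sq]
    exact mul_le_mul (hGn ξ p) (mul_le_mul (hMb ξ p) (hMb ξ p) (norm_nonneg _) hB10)
      (mul_nonneg (norm_nonneg _) (norm_nonneg _)) (norm_nonneg _)
  have hpw := fun ξ => near_pw hF h0 h1 hem hbm ham hai hab hcm hci hcb hNb hN hWm hW ξ (hGi ξ)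
    (hMm1 ξ)
  obtain ⟨hFtop, hFle⟩ := four_le (μ := μ) hAm hQm hYm hB10 hAb hQb hYb (FF := fun ξ =>
    ∫ p, b p * e ξ p * (∫ p', ((1 - N (p - p') : ℝ) : ℂ) * conj (b p' * e ξ p') ∂vol) ^ 2 ∂vol)
    (fun ξ => by
      have h3 : (∫ p, b p * e ξ p ∂vol) * conj (∫ p, b p * e ξ p ∂vol) =
          ((‖∫ p, b p * e ξ p ∂vol‖ ^ 2 : ℝ) : ℂ) := by
        rw [Complex.mul_conj, Complex.normSq_eq_norm_sq]
      have h4 : ((‖∫ p, b p * e ξ p ∂vol‖ ^ 4 : ℝ) : ℂ) =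
          ((∫ p, b p * e ξ p ∂vol) * conj (∫ p, b p * e ξ p ∂vol)) ^ 2 := by
        rw [h3]
        push_cast
        ring
      rw [h4, farexp (hGi ξ) (hMm1 ξ) hNm hNb]
      ring) hfar
  have hgY := gY_bound h0 h1 (μ := μ) hem hbm ham hcm hWm hCw hYc hYw
  refine (concl hAm hQm (mgQ (Fd := Fd) hem hbm ham hcm) hgY.1
    (fun ξ => (hpw ξ).1) (fun ξ => (hpw ξ).2)
    (gQ_bound h0 h1 hem hbm ham hcm hYa hYc) hgY.2 hFtop hFle).trans (le_of_eq ?_)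
  ring

end main3

end Pool.Agent.LFK.NR
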