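import Pool.Agent.LFK.Tb
import Pool.Agent.LFK.NEARb
import Pool.Agent.LFK.NICE
import Mathlib.Analysis.Calculus.BumpFunction.Normed
import Mathlib.Analysis.Calculus.BumpFunction.FiniteDimension
import Mathlib.Analysis.Calculus.ContDiff.Convolution

/-!
[LEAFK] NEAR on the grid `r Z^(k+m)`.
-/

set_option autoImplicit false

namespace Pool.Agent.LFK

open MeasureTheory Set Filter Topology Function Metric Pool.Agent.MP_6cbfb8_an
open scoped ENNReal Real RealInnerProductSpace ContDiff ComplexConjugate Pointwise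

/-- The points of the grid. -/
noncomputable def gpt {k m : ℕ} (ν : (Fin k → ℤ) × (Fin m → ℤ)) : E k × E m :=
  (WithLp.toLp 2 fun i => (ν.1 i : ℝ), WithLp.toLp 2 fun j => (ν.2 j : ℝ))

namespace NI

variable {k m : ℕ}

/-- The grid. -/
noncomputable def gm (k m : ℕ) (r : ℝ) : (Fin k → ℤ) × (Fin m → ℤ) →+ E k × E m where
  toFun ν := r • gpt ν
  map_zero' := by
    ext i
    · simp [gpt]
    · simp [gpt]
  map_add' ν ν' := by
    ext i
    · simp [gpt, mul_add]
    · simp [gpt, mul_add]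

theorem gm_apply (r : ℝ) (ν : (Fin k → ℤ) × (Fin m → ℤ)) : gm k m r ν = r • gpt ν := rfl

theorem gm_inj {r : ℝ} (hr : 0 < r) : Injective (gm k m r) := by
  intro ν ν' h
  rw [gm_apply, gm_apply] at h
  have h1 : (gpt ν : E k × E m) = gpt ν' := smul_right_injective _ hr.ne' h
  have h2 := congrArg Prod.fst h1
  have h3 := congrArg Prod.snd h1
  refine Prod.ext (funext fun i => ?_) (funext fun j => ?_)
  · have h4 := congrArg (fun x : E k => x i) h2
    simpa [gpt] using h4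
  · have h4 := congrArg (fun x : E m => x j) h3
    simpa [gpt] using h4

/-- The cell. -/
def cell (k m : ℕ) (r : ℝ) : Set (E k × E m) :=
  {p | (∀ i, p.1 i ∈ Ico 0 r) ∧ ∀ j, p.2 j ∈ Ico 0 r}

theorem cell_meas (r : ℝ) : MeasurableSet (cell k m r) := by
  have h1 : cell k m r = (⋂ i, {p : E k × E m | p.1 i ∈ Ico 0 r}) ∩
      ⋂ j, {p : E k × E m | p.2 j ∈ Ico 0 r} := by
    ext p
    simp [cell]
  rw [h1]
  refine MeasurableSet.inter (MeasurableSet.iInter fun i => ?_) (MeasurableSet.iInter fun j => ?_)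
  · have h2 : Continuous fun p : E k × E m => p.1 i := by fun_prop
    exact h2.measurable measurableSet_Ico
  · have h2 : Continuous fun p : E k × E m => p.2 j := by fun_prop
    exact h2.measurable measurableSet_Ico

theorem fl {r x : ℝ} (hr : 0 < r) {z : ℤ} (h : r * (z : ℝ) + x ∈ Ico 0 r) : z = -⌊r⁻¹ * x⌋ := by
  have h1 : ⌊r⁻¹ * x⌋ = -z := by
    rw [Int.floor_eq_iff]
    have e1 : x = r * (r⁻¹ * x) := by field_simp
    rw [e1] at h
    obtain ⟨h2, h3⟩ := h
    have h4 : 0 ≤ r * ((z : ℝ) + r⁻¹ * x) := by linarith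
    have h5 : r * ((z : ℝ) + r⁻¹ * x) < r * 1 := by linarith
    have h6 := nonneg_of_mul_nonneg_right h4 hr
    have h7 := lt_of_mul_lt_mul_left h5 hr.le
    push_cast
    constructor <;> linarith
  rw [h1, neg_neg]

theorem fl' {r x : ℝ} (hr : 0 < r) : r * ((-⌊r⁻¹ * x⌋ : ℤ) : ℝ) + x ∈ Ico 0 r := by
  have h1 := Int.floor_le (r⁻¹ * x)
  have h2 := Int.lt_floor_add_one (r⁻¹ * x)
  have e1 : x = r * (r⁻¹ * x) := by field_simp
  have e2 : r * ((-⌊r⁻¹ * x⌋ : ℤ) : ℝ) + x = r * (r⁻¹ * x - ⌊r⁻¹ * x⌋) := by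
    push_cast
    nth_rw 2 [e1]
    ring
  rw [e2]
  constructor
  · exact mul_nonneg hr.le (by linarith)
  · nlinarith

theorem cell_fd {r : ℝ} (hr : 0 < r) :
    IsAddFundamentalDomain (gm k m r).range (cell k m r) (volume : Measure (E k × E m)) := by
  refine IsAddFundamentalDomain.mk' (cell_meas r).nullMeasurableSet fun x => ?_
  refine ⟨⟨gm k m r (fun i => -⌊r⁻¹ * x.1 i⌋, fun j => -⌊r⁻¹ * x.2 j⌋), ⟨_, rfl⟩⟩, ?_, ?_⟩
  · refine ⟨fun i => ?_, fun j => ?_⟩
    · exact fl' hr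
    · exact fl' hr
  · rintro ⟨_, ν, rfl⟩ ⟨h1, h2⟩
    congr 1
    congr 1
    refine Prod.ext (funext fun i => ?_) (funext fun j => ?_)
    · exact fl hr (h1 i)
    · exact fl hr (h2 j)

theorem cell_smul {r : ℝ} (hr : 0 < r) : cell k m r = r • cell k m 1 := by
  have h1 : ∀ x : ℝ, x ∈ Ico 0 r ↔ r⁻¹ * x ∈ Ico (0 : ℝ) 1 := by
    intro x
    rw [mem_Ico, mem_Ico]
    constructor
    · rintro ⟨h2, h3⟩
      refine ⟨by positivity, ?_⟩
      rw [inv_mul_lt_iff₀ hr, mul_one]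
      exact h3
    · rintro ⟨h2, h3⟩
      rw [inv_mul_lt_iff₀ hr, mul_one] at h3
      refine ⟨?_, h3⟩
      by_contra hc
      have := mul_neg_of_pos_of_neg (inv_pos.2 hr) (not_le.1 hc)
      linarith
  ext p
  rw [mem_smul_set_iff_inv_smul_mem₀ hr.ne']
  constructor
  · rintro ⟨h2, h3⟩
    exact ⟨fun i => (h1 _).1 (h2 i), fun j => (h1 _).1 (h3 j)⟩
  · rintro ⟨h2, h3⟩
    exact ⟨fun i => (h1 _).2 (h2 i), fun j => (h1 _).2 (h3 j)⟩

theorem en_le {d : ℕ} {x : E d} (h : ∀ i, x i ∈ Ico (0 : ℝ) 1) : ‖x‖ ≤ √d := by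
  rw [EuclideanSpace.norm_eq]
  refine Real.sqrt_le_sqrt ?_
  calc ∑ i, ‖x i‖ ^ 2 ≤ ∑ _i : Fin d, (1 : ℝ) := by
        refine Finset.sum_le_sum fun i _ => ?_
        have h1 := h i
        rw [Real.norm_of_nonneg h1.1]
        exact pow_le_one₀ h1.1 h1.2.le
    _ = d := by simp

theorem cell_top : volume (cell k m 1) ≠ ⊤ := by
  have h1 : cell k m 1 ⊆ closedBall (0 : E k × E m) (max (√k) (√m)) := by
    rintro p ⟨h2, h3⟩
    rw [mem_closedBall, dist_zero_right, Prod.norm_def]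
    exact max_le_max (en_le h2) (en_le h3)
  exact ((measure_mono h1).trans_lt (FR.ball_lt_top _)).ne

theorem cell_pos : volume (cell k m 1) ≠ 0 := by
  have hh := FR.Leb.haar (α := E k × E m)
  have h1 : ball (((WithLp.toLp 2 fun _ => (1 / 2 : ℝ)), WithLp.toLp 2 fun _ => (1 / 2 : ℝ)) :
      E k × E m) (1 / 2) ⊆ cell k m 1 := by
    intro p hp
    rw [mem_ball, dist_eq_norm, Prod.norm_def, max_lt_iff] at hp
    obtain ⟨h2, h3⟩ := hp
    have h4 : ∀ {d : ℕ} {x : E d}, ‖x - WithLp.toLp 2 fun _ => (1 / 2 : ℝ)‖ < 1 / 2 →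
        ∀ i, x i ∈ Ico (0 : ℝ) 1 := by
      intro d x hx i
      have h5 := (PiLp.norm_apply_le (x - WithLp.toLp 2 fun _ => (1 / 2 : ℝ)) i).trans_lt hx
      have h6 : ‖x i - 1 / 2‖ < 1 / 2 := by simpa using h5
      rw [Real.norm_eq_abs, abs_lt] at h6
      exact ⟨by linarith, by linarith⟩
    exact ⟨h4 h2, h4 h3⟩
  have h2 : 0 < volume (ball (((WithLp.toLp 2 fun _ => (1 / 2 : ℝ)),
      WithLp.toLp 2 fun _ => (1 / 2 : ℝ)) : E k × E m) (1 / 2)) :=
    measure_ball_pos _ _ (by norm_num)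
  exact (h2.trans_le (measure_mono h1)).ne'

theorem exists_bd {f : E k × E m → ℝ} (hf : ContDiff ℝ ∞ f) (hc : HasCompactSupport f) :
    ∃ A : ℕ → ℝ, (∀ j, 0 ≤ A j) ∧ ∀ j p, ‖iteratedFDeriv ℝ j f p‖ ≤ A j := by
  have h1 : ∀ j : ℕ, ∃ C : ℝ, ∀ p, ‖iteratedFDeriv ℝ j f p‖ ≤ C := fun j =>
    (hc.iteratedFDeriv j).exists_bound_of_continuous
      (hf.continuous_iteratedFDeriv (by exact_mod_cast le_top))
  choose C hC using h1
  exact ⟨C, fun j => (norm_nonneg _).trans (hC j 0), hC⟩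

theorem sqf_eq {Ξ : Type} [MeasurableSpace Ξ] (e : Ξ → E k × E m → ℂ) (b : E k × E m → ℂ)
    (th : E k × E m → ℝ) {r : ℝ} (hr : 0 < r) (s : E k × E m) (ξ : Ξ) :
    NR.sqf volume (gm k m r).range e b (fun x => th (r⁻¹ • x)) s ξ =
      ∑' ν : (Fin k → ℤ) × (Fin m → ℤ),
        ‖∫ p, (th (r⁻¹ • (p - r • (gpt ν + r⁻¹ • s))) : ℂ) * b p * e ξ p‖ₑ ^ 2 := by
  unfold NR.sqf NR.pc
  rw [← (AddMonoidHom.ofInjective (gm_inj (k := k) (m := m) hr)).toEquiv.tsum_eq]
  refine tsum_congr fun ν => ?_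
  congr 2
  refine integral_congr_ae (Filter.Eventually.of_forall fun p => ?_)
  have h1 : (((AddMonoidHom.ofInjective (gm_inj (k := k) (m := m) hr)).toEquiv ν :
      (gm k m r).range) : E k × E m) = r • gpt ν := rfl
  simp only
  rw [h1, smul_add, smul_inv_smul₀ hr.ne']
  ring

end NI

open NI in
/-- NEAR on the grid. -/
theorem near_grid (k m : ℕ) : ∃ (ρ : ℝ) (Bth : ℕ → ℝ) (N0 : E k × E m → ℝ) (C : ℝ), 1 ≤ ρ ∧
    0 < C ∧ ContDiff ℝ ∞ N0 ∧ (∀ d, ‖d‖ ≤ 1 → N0 d = 1) ∧ (∀ d, 6 < ‖d‖ → N0 d = 0) ∧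
    (∀ d, 0 ≤ N0 d ∧ N0 d ≤ 1) ∧
    ∀ {Ξ : Type} [MeasurableSpace Ξ] (μ : Measure Ξ) [IsFiniteMeasure μ] (e : Ξ → E k × E m → ℂ),
      Measurable (uncurry e) → (∀ ξ p, ‖e ξ p‖ ≤ 1) → ∀ b : E k × E m → ℂ, Measurable b →
      Integrable b → ∀ r : ℝ, 0 < r → ∀ Y eps : ℝ≥0∞,
      (∀ th : E k × E m → ℝ, ContDiff ℝ ∞ th → (∀ p, ρ < ‖p‖ → th p = 0) →
        (∀ j p, ‖iteratedFDeriv ℝ j th p‖ ≤ Bth j) → ∀ s : E k × E m,
        ∫⁻ ξ, (∑' ν : (Fin k → ℤ) × (Fin m → ℤ),
          ‖∫ p, (th (r⁻¹ • (p - r • (gpt ν + s))) : ℂ) * b p * e ξ p‖ₑ ^ 2) ^ 2 ∂μ ≤ Y) →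
      (‖∫ ξ, (∫ p, b p * e ξ p) * (∫ p, b p * e ξ p *
        (∫ p', ((1 - N0 (r⁻¹ • (p - p')) : ℝ) : ℂ) * conj (b p' * e ξ p')) ^ 2) ∂μ‖ₑ) ≤ eps →
      ∫⁻ ξ, ‖∫ p, b p * e ξ p‖ₑ ^ 4 ∂μ ≤ 3 * eps + ENNReal.ofReal C * Y := by
  have hh := FR.Leb.haar (α := E k × E m)
  have hneg : (volume : Measure (E k × E m)).IsNegInvariant := by
    have : (volume : Measure (E k × E m)).Regular := by infer_instance
    exact Measure.IsAddHaarMeasure.isNegInvariant_of_regular _
  -- the two bumps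
  let f : ContDiffBump (0 : E k × E m) := ⟨1 / 2, 1, by norm_num, by norm_num⟩
  let g : ContDiffBump (0 : E k × E m) := ⟨2, 5, by norm_num, by norm_num⟩
  obtain ⟨φ, hφ⟩ : ∃ φ : E k × E m → ℝ, φ = f.normed volume := ⟨_, rfl⟩
  obtain ⟨γ, hγ⟩ : ∃ γ : E k × E m → ℝ, γ = fun x => g x := ⟨_, rfl⟩
  have hφs : ContDiff ℝ ∞ φ := by rw [hφ]; exact f.contDiff_normed
  have hφc : HasCompactSupport φ := by rw [hφ]; exact f.hasCompactSupport_normed
  have hφ0 : ∀ x, 0 ≤ φ x := by rw [hφ]; exact f.nonneg_normed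
  have hφ1 : ∫ x, φ x = 1 := by rw [hφ]; exact f.integral_normed
  have hφz : ∀ x, φ x ≠ 0 → ‖x‖ < 1 := by
    intro x hx
    have h1 : x ∈ Function.support (f.normed (volume : Measure (E k × E m))) := by
      rw [hφ] at hx
      exact hx
    rw [f.support_normed_eq, mem_ball, dist_zero_right] at h1
    exact h1
  have hφi : Integrable φ := hφs.continuous.integrable_of_hasCompactSupport hφc
  have hγs : ContDiff ℝ ∞ γ := by rw [hγ]; exact g.contDiff
  have hγc : HasCompactSupport γ := by rw [hγ]; exact g.hasCompactSupport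
  have hγ0 : ∀ x, 0 ≤ γ x := by rw [hγ]; exact fun x => g.nonneg
  have hγ1 : ∀ x, γ x ≤ 1 := by rw [hγ]; exact fun x => g.le_one
  have hγi : Integrable γ := hγs.continuous.integrable_of_hasCompactSupport hγc
  have hγo : ∀ x, ‖x‖ ≤ 2 → γ x = 1 := by
    intro x hx
    rw [hγ]
    exact g.one_of_mem_closedBall (by rwa [mem_closedBall, dist_zero_right])
  have hγz : ∀ x, 5 ≤ ‖x‖ → γ x = 0 := by
    intro x hx
    rw [hγ]
    exact g.zero_of_le_dist (by rwa [dist_zero_right])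
  obtain ⟨V1, hV1⟩ : ∃ V1, V1 = (volume (cell k m 1)).toReal := ⟨_, rfl⟩
  have hV10 : 0 < V1 := by
    rw [hV1]
    exact ENNReal.toReal_pos cell_pos cell_top
  obtain ⟨α, hα⟩ : ∃ α : E k × E m → ℝ, α = fun x => V1 * φ x := ⟨_, rfl⟩
  have hαs : ContDiff ℝ ∞ α := by
    rw [hα]
    exact contDiff_const.mul hφs
  have hαz : ∀ x, 1 ≤ ‖x‖ → α x = 0 := by
    intro x hx
    rw [hα]
    simp only
    have h1 : φ x = 0 := by
      by_contra hc
      linarith [hφz x hc]
    rw [h1, mul_zero]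
  have hαc : HasCompactSupport α := by
    refine HasCompactSupport.of_support_subset_isCompact (isCompact_closedBall (0 : E k × E m) 1)
      fun x hx => ?_
    rw [mem_closedBall, dist_zero_right]
    by_contra hc
    exact hx (hαz x (not_le.1 hc).le)
  obtain ⟨Aα, hAα0, hAα⟩ := exists_bd hαs hαc
  obtain ⟨Aγ, hAγ0, hAγ⟩ := exists_bd hγs hγc
  obtain ⟨N0, hN0⟩ : ∃ N0 : E k × E m → ℝ, N0 = fun d => ∫ u, φ u * γ (u - d) := ⟨_, rfl⟩
  have hγu : ∀ d, Measurable fun u => γ (u - d) := fun d =>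
    (hγs.continuous.comp (continuous_id.sub continuous_const)).measurable
  have hint : ∀ d, Integrable fun u => φ u * γ (u - d) := fun d =>
    hφi.mul_bdd (c := 1) (hγu d).aestronglyMeasurable (Filter.Eventually.of_forall fun u => by
      rw [Real.norm_of_nonneg (hγ0 _)]
      exact hγ1 _)
  have hN0s : ContDiff ℝ ∞ N0 := by
    have hγ' : ContDiff ℝ ∞ fun x => γ (-x) := hγs.comp contDiff_neg
    have hγc' : HasCompactSupport fun x => γ (-x) := hγc.comp_homeomorph (Homeomorph.neg _)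
    have h1 := hγc'.contDiff_convolution_right (ContinuousLinearMap.mul ℝ ℝ)
      (hφi.locallyIntegrable) hγ'
    have h2 : N0 = MeasureTheory.convolution φ (fun x => γ (-x)) (ContinuousLinearMap.mul ℝ ℝ)
        volume := by
      rw [hN0]
      funext d
      unfold MeasureTheory.convolution
      refine integral_congr_ae (Filter.Eventually.of_forall fun u => ?_)
      simp
    rw [h2]
    exact h1
  have hN01 : ∀ d, 0 ≤ N0 d ∧ N0 d ≤ 1 := by
    intro d
    rw [hN0]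
    simp only
    refine ⟨integral_nonneg fun u => mul_nonneg (hφ0 _) (hγ0 _), ?_⟩
    rw [← hφ1]
    exact integral_mono (hint d) hφi fun u => mul_le_of_le_one_right (hφ0 _) (hγ1 _)
  obtain ⟨Cw, hCw⟩ : ∃ Cw : ℝ≥0∞, Cw = volume (closedBall (0 : E k × E m) 2) /
      volume (cell k m 1) := ⟨_, rfl⟩
  have hCwt : Cw ≠ ⊤ := by
    rw [hCw]
    exact ENNReal.div_ne_top (FR.ball_lt_top _).ne cell_pos
  obtain ⟨K, hK⟩ : ∃ K : ℝ≥0∞, K = 288 + 2187 * Cw ^ (4 / 3 : ℝ) := ⟨_, rfl⟩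
  have hKt : K ≠ ⊤ := by
    rw [hK]
    exact ENNReal.add_ne_top.2 ⟨by norm_num, ENNReal.mul_ne_top (by norm_num)
      (ENNReal.rpow_ne_top_of_nonneg (by norm_num) hCwt)⟩
  have hK0 : K ≠ 0 := by
    rw [hK]
    intro h0
    have h1 := (add_eq_zero.1 h0).1
    norm_num at h1
  refine ⟨5, fun j => Aα j + Aγ j + ∑ i ∈ Finset.range (j + 1), (j.choose i : ℝ) * Aα i *
    Aα (j - i), N0, K.toReal, by norm_num, ENNReal.toReal_pos hK0 hKt, hN0s, ?_, ?_, ?_, ?_⟩
  · intro d hd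
    rw [hN0]
    simp only
    rw [← hφ1]
    refine integral_congr_ae (Filter.Eventually.of_forall fun u => ?_)
    simp only
    by_cases hu : φ u = 0
    · rw [hu, zero_mul]
    · rw [hγo _ (by linarith [norm_sub_le u d, hφz u hu]), mul_one]
  · intro d hd
    rw [hN0]
    simp only
    have h1 : ∀ u, φ u * γ (u - d) = 0 := by
      intro u
      by_cases hu : φ u = 0
      · rw [hu, zero_mul]
      · rw [hγz _ ?_, mul_zero]
        have h2 : ‖d‖ ≤ ‖u - d‖ + ‖u‖ := by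
          calc ‖d‖ = ‖u - (u - d)‖ := by rw [sub_sub_cancel]
            _ ≤ ‖u‖ + ‖u - d‖ := norm_sub_le _ _
            _ = _ := add_comm _ _
        linarith [hφz u hu]
    simp [h1]
  · exact hN01
  · intro Ξ _ μ _ e hem he b hbm hbi r hr Y eps hY hfar
    obtain ⟨D, hD⟩ : ∃ D, D = Module.finrank ℝ (E k × E m) := ⟨_, rfl⟩
    have hrD : 0 < r ^ D := by positivity
    have hvol : volume (cell k m r) = ENNReal.ofReal (r ^ D) * volume (cell k m 1) := by
      rw [cell_smul hr, Measure.addHaar_smul, ← hD, abs_of_pos hrD]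
    have hvolr : (volume (cell k m r)).toReal = r ^ D * V1 := by
      rw [hvol, ENNReal.toReal_mul, ENNReal.toReal_ofReal hrD.le, hV1]
    have hcount : Countable (gm k m r).range := by
      have h1 : Countable ((Fin k → ℤ) × (Fin m → ℤ)) := inferInstance
      exact (AddMonoidHom.ofInjective (gm_inj (k := k) (m := m) hr)).toEquiv.symm.injective.countable
    have hsm : Measurable fun x : E k × E m => r⁻¹ • x := measurable_const_smul _
    have hAB : ∀ j, 0 ≤ ∑ i ∈ Finset.range (j + 1), (j.choose i : ℝ) * Aα i * Aα (j - i) :=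
      fun j => Finset.sum_nonneg fun i _ => mul_nonneg (mul_nonneg (Nat.cast_nonneg _) (hAα0 i))
        (hAα0 _)
    have hci : ∀ h : E k × E m → ℝ, Integrable h → Integrable fun x => h (r⁻¹ • x) := fun h hh' =>
      hh'.comp_smul (inv_ne_zero hr.ne')
    have hmain := NR.near_abs (P := E k × E m) (Ξ := Ξ) (vol := volume) (cell_fd (k := k) (m := m) hr)
      (Y := Y) (ε := eps) (Cw := Cw) (W := closedBall 0 (2 * r))
      (a := fun x => α (r⁻¹ • x)) (c := fun x => γ (r⁻¹ • x)) (N := fun x => N0 (r⁻¹ • x))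
      (Ba := Aα 0) (Bc := 1) (μ := μ) (e := e) (b := b)
      (by rw [hvol]; exact mul_ne_zero (by positivity) cell_pos)
      (by rw [hvol]; exact ENNReal.mul_ne_top ENNReal.ofReal_ne_top cell_top)
      hem he hbm hbi (hαs.continuous.measurable.comp hsm)
      (hci α (hαs.continuous.integrable_of_hasCompactSupport hαc))
      (fun x => by simpa using hAα 0 (r⁻¹ • x))
      (hγs.continuous.measurable.comp hsm) (hci γ hγi)
      (fun x => by rw [abs_of_nonneg (hγ0 _)]; exact hγ1 _)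
      (hN0s.continuous.measurable.comp hsm) ?_ ?_ isClosed_closedBall.measurableSet ?_ ?_ ?_ ?_ ?_ hfar
    · refine hmain.trans (le_of_eq ?_)
      rw [ENNReal.ofReal_toReal hKt, hK]
    · -- `|N| ≤ 1`
      intro x
      rw [abs_of_nonneg (hN01 _).1]
      exact (hN01 _).2
    · -- the reproducing formula
      intro p p'
      have e1 : ∫ q, α (r⁻¹ • (p - q)) * γ (r⁻¹ • (p' - q)) =
          ∫ y, α (r⁻¹ • y) * γ (r⁻¹ • y - r⁻¹ • (p - p')) := by
        rw [← integral_sub_left_eq_self (fun y => α (r⁻¹ • y) * γ (r⁻¹ • y - r⁻¹ • (p - p')))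
          (volume : Measure (E k × E m)) p]
        refine integral_congr_ae (Filter.Eventually.of_forall fun q => ?_)
        simp only
        rw [← smul_sub]
        congr 3
        abel
      have e2 : ∫ y, α (r⁻¹ • y) * γ (r⁻¹ • y - r⁻¹ • (p - p')) =
          r ^ D * ∫ u, α u * γ (u - r⁻¹ • (p - p')) := by
        have e3 := Measure.integral_comp_inv_smul_of_nonneg (volume : Measure (E k × E m))
          (fun u => α u * γ (u - r⁻¹ • (p - p'))) hr.le
        rw [e3, ← hD, smul_eq_mul]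
      have e4 : ∫ u, α u * γ (u - r⁻¹ • (p - p')) = V1 * N0 (r⁻¹ • (p - p')) := by
        rw [hN0, hα, ← integral_const_mul]
        refine integral_congr_ae (Filter.Eventually.of_forall fun u => ?_)
        simp only
        ring
      rw [e1, e2, e4, hvolr]
      field_simp
    · intro u x hx
      rw [mem_closedBall, dist_zero_right]
      have h1 : ‖r⁻¹ • x‖ < 1 := by
        by_contra hc
        exact hx (by rw [hαz _ (not_lt.1 hc), zero_mul])
      have h2 : ‖r⁻¹ • (x - u)‖ < 1 := by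
        by_contra hc
        exact hx (by rw [hαz _ (not_lt.1 hc), mul_zero])
      have h3 : ∀ y : E k × E m, ‖r⁻¹ • y‖ < 1 → ‖y‖ ≤ r := by
        intro y hy
        rw [norm_smul, norm_inv, Real.norm_of_nonneg hr.le, inv_mul_lt_iff₀ hr, mul_one] at hy
        exact hy.le
      calc ‖u‖ = ‖x - (x - u)‖ := by rw [sub_sub_cancel]
        _ ≤ ‖x‖ + ‖x - u‖ := norm_sub_le _ _
        _ ≤ 2 * r := by linarith [h3 _ h1, h3 _ h2]
    · rw [hvol, mul_comm 2 r, Measure.addHaar_closedBall_mul _ _ hr.le, ← hD, hCw,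
        mul_left_comm, ENNReal.div_mul_cancel cell_pos cell_top]
      norm_num
    · intro s
      simp_rw [sqf_eq e b α hr s]
      refine hY α hαs (fun p hp => hαz p (by linarith)) (fun j p => ?_) (r⁻¹ • s)
      exact (hAα j p).trans (by linarith [hAγ0 j, hAB j])
    · intro s
      simp_rw [sqf_eq e b γ hr s]
      refine hY γ hγs (fun p hp => hγz p hp.le) (fun j p => ?_) (r⁻¹ • s)
      exact (hAγ j p).trans (by linarith [hAα0 j, hAB j])
    · intro u _ s
      have h1 : (fun x : E k × E m => α (r⁻¹ • x) * α (r⁻¹ • (x - u))) =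
          fun x => (fun y => α y * α (y - r⁻¹ • u)) (r⁻¹ • x) := by
        funext x
        simp only
        rw [smul_sub]
      rw [h1]
      simp_rw [sqf_eq e b (fun y => α y * α (y - r⁻¹ • u)) hr s]
      have h2 : ContDiff ℝ ∞ fun y => α (y - r⁻¹ • u) := hαs.comp (contDiff_id.sub contDiff_const)
      refine hY (fun y => α y * α (y - r⁻¹ • u)) (hαs.mul h2)
        (fun p hp => by
          rw [hαz p (by linarith), zero_mul]) (fun j p => ?_) (r⁻¹ • s)
      have h3 := norm_iteratedFDeriv_mul_le hαs h2 p (n := j) (by exact_mod_cast le_top)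
      refine h3.trans ?_
      have h4 : ∀ i, ‖iteratedFDeriv ℝ i (fun y => α (y - r⁻¹ • u)) p‖ ≤ Aα i := by
        intro i
        rw [iteratedFDeriv_comp_sub]
        exact hAα i _
      calc ∑ i ∈ Finset.range (j + 1), (j.choose i : ℝ) * ‖iteratedFDeriv ℝ i α p‖ *
            ‖iteratedFDeriv ℝ (j - i) (fun y => α (y - r⁻¹ • u)) p‖
          ≤ ∑ i ∈ Finset.range (j + 1), (j.choose i : ℝ) * Aα i * Aα (j - i) := by
            refine Finset.sum_le_sum fun i _ => ?_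
            have := hAα0 i
            gcongr
            · exact hAα i p
            · exact h4 _
        _ ≤ _ := by linarith [hAα0 j, hAγ0 j]

end Pool.Agent.LFK
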