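import Pool.Agent.LFK.COREa
import Pool.Agent.LFK.CORBC
import Pool.Agent.LFK.HH
import Pool.Agent.LFK.COMP
import Pool.Agent.LFK.FR6
import Pool.Agent.LFK.NI

/-!
**CORE for `k` rough directions.**
-/

set_option autoImplicit false

namespace Pool.Agent.LFK

open MeasureTheory Set Filter Topology Function Pool.Agent.MP_6cbfb8_an
open scoped ENNReal Real RealInnerProductSpace ContDiff ComplexConjugate

theorem core_ex_meas {k m n : ℕ} {X : E k × E m → E n} (hX : Continuous X) :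
    Measurable (uncurry (FR.ex X)) := by
  have h : Continuous fun x : E n × (E k × E m) =>
      Complex.exp (((-⟪x.1, X x.2⟫ : ℝ) : ℂ) * Complex.I) := by
    have h1 : Continuous fun x : E n × (E k × E m) => ⟪x.1, X x.2⟫ :=
      continuous_fst.inner (hX.comp continuous_snd)
    fun_prop
  exact h.measurable

theorem core_ex_norm {k m n : ℕ} (X : E k × E m → E n) (ξ : E n) (p : E k × E m) :
    ‖FR.ex X ξ p‖ ≤ 1 := by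
  unfold FR.ex
  rw [Complex.norm_exp_ofReal_mul_I]

/-- The scale. -/
theorem core_scale {δ ρ e : ℝ} (hδ : 0 < δ) (hρ : 1 ≤ ρ) (he : e ≤ 1 / 4) :
    ∃ R0 : ℝ, 1 ≤ R0 ∧ ∀ R : ℝ, R0 ≤ R → ρ * R ^ (-(1 / 2 : ℝ) + e) ≤ δ / 2 := by
  refine ⟨max 1 ((2 * ρ / δ) ^ (4 : ℕ)), le_max_left _ _, fun R hR => ?_⟩
  have hR1 : 1 ≤ R := (le_max_left _ _).trans hR
  have hR2 : (2 * ρ / δ) ^ (4 : ℕ) ≤ R := (le_max_right _ _).trans hR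
  have hR0 : 0 < R := by linarith
  have h1 : R ^ (-(1 / 2 : ℝ) + e) ≤ R ^ (-(1 / 4 : ℝ)) :=
    Real.rpow_le_rpow_of_exponent_le hR1 (by linarith)
  have h2 : 2 * ρ / δ ≤ R ^ (1 / 4 : ℝ) := by
    calc 2 * ρ / δ = ((2 * ρ / δ) ^ (4 : ℕ)) ^ (1 / 4 : ℝ) := by
          rw [← Real.rpow_natCast, ← Real.rpow_mul (by positivity)]
          norm_num
      _ ≤ R ^ (1 / 4 : ℝ) := Real.rpow_le_rpow (by positivity) hR2 (by norm_num)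
  have h3 : R ^ (-(1 / 4 : ℝ)) = (R ^ (1 / 4 : ℝ))⁻¹ := Real.rpow_neg hR0.le _
  have h4 : 0 < R ^ (1 / 4 : ℝ) := Real.rpow_pos_of_pos hR0 _
  calc ρ * R ^ (-(1 / 2 : ℝ) + e) ≤ ρ * (R ^ (1 / 4 : ℝ))⁻¹ := by
        rw [← h3]
        gcongr
    _ ≤ δ / 2 := by
        rw [← div_eq_mul_inv, div_le_iff₀ h4]
        rw [div_le_iff₀ hδ] at h2
        linarith

/-- **CORE.** -/
theorem core {k m n : ℕ} (hk : 1 ≤ k) (hm : 1 ≤ m) (hn : k + m + 1 = n) (X : E k × E m → E n)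
    (A : ℕ → ℝ) (p0 : E k × E m) {δ : ℝ}
    (hδ : 0 < δ) (hX : ContDiff ℝ ∞ X) (hA : ∀ j p, ‖iteratedFDeriv ℝ j X p‖ ≤ A j)
    (h1 : ∀ p, ‖p - p0‖ ≤ δ → ‖X p‖ = 1)
    (him : ∀ v, fderiv ℝ X p0 v = 0 → v = 0)
    (hH : ∀ w : E n, w ≠ 0 → (∀ z : E m, ⟪w, fderiv ℝ X p0 (0, z)⟫ = 0) →
      ∀ u v : E k × E m, u ≠ 0 → v ≠ 0 →
      (∀ z : E m, ⟪w, fderiv ℝ (fderiv ℝ X) p0 u (0, z)⟫ = 0) →
      (∀ z : E m, ⟪w, fderiv ℝ (fderiv ℝ X) p0 v (0, z)⟫ = 0) →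
      ∀ d : E k × E m, fderiv ℝ X p0 d + fderiv ℝ (fderiv ℝ X) p0 u v = 0 →
      ∃ z : E m, ⟪w, fderiv ℝ (fderiv ℝ X) p0 d (0, z)⟫ +
        ⟪w, fderiv ℝ (fderiv ℝ (fderiv ℝ X)) p0 u v (0, z)⟫ ≠ 0) :
    ∃ δ1 : ℝ, 0 < δ1 ∧ δ1 ≤ δ ∧ ∀ (B : ℕ → ℝ) (ε : ℝ), 0 < ε → ∃ C : ℝ,
      ∀ b : E k × E m → ℂ, Measurable b → (∀ t, ContDiff ℝ ∞ fun z => b (t, z)) →
        (∀ t j z, ‖iteratedFDeriv ℝ j (fun z => b (t, z)) z‖ ≤ B j) →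
        (∀ p, δ1 ≤ ‖p - p0‖ → b p = 0) →
        ∀ R : ℝ, 1 ≤ R → ∫⁻ ξ in {ξ : E n | R ≤ ‖ξ‖ ∧ ‖ξ‖ ≤ 2 * R}, ‖Tb X b ξ‖ₑ ^ (4 : ℝ) ≤
          ENNReal.ofReal (C * R ^ (-((n : ℝ) - 2) + ε)) := by
  have hinj : Injective (fderiv ℝ X p0) := by
    intro x y hxy
    exact sub_eq_zero.1 (him (x - y) (by rw [map_sub, hxy, sub_self]))
  have hHX : HX X p0 := vw_hH hX hH
  obtain ⟨κ, hκ, hκ1, hκH⟩ := comp hX hinj hHX
  have hch : FR.Ch X A p0 κ := ⟨hκ, hκ1, hX, hA, hκH⟩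
  obtain ⟨η, hη⟩ := exists_Et n
  obtain ⟨ρ, Bth, N0, Cn, hρ, hCn, hN0, hN1, hN6, hN01, hng⟩ := near_grid k m
  have hNz : FR.Nz N0 := ⟨hN0, fun x => by
    rw [abs_of_nonneg (hN01 x).1]; exact (hN01 x).2, hN1, fun x hx => hN6 x (by linarith)⟩
  obtain ⟨δF, hδF, hfar⟩ := FR.far hch hη hNz
  obtain ⟨δ', hδ'0, hδ'δ, hδ'4, hcb⟩ := coreBk_core hn.symm hX hA hδ h1 hinj hHX
  have hδ1 : 0 < min (δ' / 2) δF := lt_min (by linarith) hδF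
  have hδ1' : min (δ' / 2) δF ≤ δ' / 2 := min_le_left _ _
  refine ⟨min (δ' / 2) δF, hδ1, by linarith, ?_⟩
  intro B ε hε
  obtain ⟨e, N, Ce, he0, he1, hCe, hexp⟩ := ck_exp (Pk k m) (n + k + m) (k + m - 1) ε hε
  have hn1 : k + m - 1 + 1 = k + m := by omega
  have hn2 : k + m - 1 + 2 = n := by omega
  rw [hn1, hn2] at hexp
  obtain ⟨CK, hCK, hK⟩ := hcb δ' le_rfl _ hδ1.le (by linarith) ρ hρ Bth B N
  obtain ⟨CF, hCF, hF⟩ := hfar B N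
  obtain ⟨R0, hR0, hsc⟩ := core_scale hδ'0 hρ he1
  obtain ⟨Cs, hCs, hsm⟩ := ck_small (n := n) X p0 (min (δ' / 2) δF) (max (B 0) 0) R0 ε hR0 hε
    (le_max_right _ _)
  refine ⟨Cs + (3 * CF + Cn * (CK * (Ce + 1))), ?_⟩
  intro b hbm hbs hbB hb0 R hR
  have hRp : 0 < R := by linarith
  have hbn : ∀ p, ‖b p‖ ≤ max (B 0) 0 := fun p => by
    have h2 := hbB p.1 0 p.2
    rw [norm_iteratedFDeriv_zero] at h2
    exact h2.trans (le_max_left _ _)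
  have hpow : (0 : ℝ) < R ^ (-((n : ℝ) - 2) + ε) := Real.rpow_pos_of_pos hRp _
  have h4 : ∀ ξ, ‖Tb X b ξ‖ₑ ^ (4 : ℝ) = ‖Tb X b ξ‖ₑ ^ 4 := fun ξ => by
    rw [← ENNReal.rpow_natCast]
    norm_num
  simp only [h4]
  rcases le_total R R0 with hRR | hRR
  · refine (hsm b hbm hbn hb0 R hR hRR).trans (ENNReal.ofReal_le_ofReal ?_)
    have h5 : 0 ≤ (3 * CF + Cn * (CK * (Ce + 1))) * R ^ (-((n : ℝ) - 2) + ε) := by positivity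
    rw [add_mul]
    linarith
  -- large `R`
  set r : ℝ := R ^ (-(1 / 2 : ℝ) + e) with hr
  have hr0 : 0 < r := Real.rpow_pos_of_pos hRp _
  have hr1 : r ≤ 1 := Real.rpow_le_one_of_one_le_of_nonpos hR (by linarith)
  have hr2 : r ^ 2 * R = R ^ (2 * e) := by
    rw [hr, ← Real.rpow_natCast, ← Real.rpow_mul hRp.le]
    nth_rewrite 2 [← Real.rpow_one R]
    rw [← Real.rpow_add hRp]
    congr 1
    push_cast
    ring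
  have hQ : 1 ≤ r ^ 2 * R := by
    rw [hr2]
    exact Real.one_le_rpow hR (by linarith)
  have hQ' : 1 ≤ R * r ^ 2 := by rw [mul_comm]; exact hQ
  have hρr : ρ * r ≤ δ' - min (δ' / 2) δF := by
    have h5 := hsc R hRR
    rw [hr]
    linarith
  have hfin := ck_mu_fin hη hRp hR
  have hbi := (ck_int hbm hbn hb0).1
  obtain ⟨e1, e2⟩ := hexp R hR
  rw [← hr2] at e1 e2
  have hY : ∀ th : E k × E m → ℝ, ContDiff ℝ ∞ th → (∀ p, ρ < ‖p‖ → th p = 0) →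
      (∀ j p, ‖iteratedFDeriv ℝ j th p‖ ≤ Bth j) → ∀ s : E k × E m,
      ∫⁻ ξ, (∑' ν : (Fin k → ℤ) × (Fin m → ℤ),
        ‖∫ p, (th (r⁻¹ • (p - r • (gpt ν + s))) : ℂ) * b p * FR.ex X ξ p‖ₑ ^ 2) ^ 2
          ∂(FR.mu η R) ≤ ENNReal.ofReal (CK * (Ce + 1) * R ^ (-((n : ℝ) - 2) + ε)) := by
    intro th hth1 hth2 hth3 s
    refine (lintegral_mono' (ck_mu_le hη hRp) le_rfl).trans ?_
    refine (hK R r hR hr0 hQ hρr b hbm hbs (fun j t z => hbB t j z)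
      (fun p hp => hb0 p hp.le) th hth1 hth2 hth3 s).trans (ENNReal.ofReal_le_ofReal ?_)
    calc CK * ((r ^ 2 * R) ^ Pk k m * (1 + Real.log R) * R * (R ^ (k + m))⁻¹ +
          R ^ (n + k + m) * ((r ^ 2 * R) ^ N)⁻¹) ≤
        CK * (Ce * R ^ (-((n : ℝ) - 2) + ε) + R ^ (-((n : ℝ) - 2) + ε)) := by gcongr
      _ = _ := by ring
  have hE : ‖∫ ξ, (∫ p, b p * FR.ex X ξ p) * (∫ p, b p * FR.ex X ξ p *
      (∫ p', ((1 - N0 (r⁻¹ • (p - p')) : ℝ) : ℂ) * conj (b p' * FR.ex X ξ p')) ^ 2)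
        ∂(FR.mu η R)‖ₑ ≤ ENNReal.ofReal (CF * R ^ (-((n : ℝ) - 2) + ε)) := by
    rw [← ofReal_norm]
    refine ENNReal.ofReal_le_ofReal ?_
    refine (hF b ⟨hbm, hbs, hbB, fun p hp => hb0 p ((min_le_right _ _).trans hp)⟩ R r hR hr0 hr1
      hQ').trans ?_
    have h6 : ((R * r ^ 2)⁻¹) ^ N = ((r ^ 2 * R) ^ N)⁻¹ := by
      rw [mul_comm, inv_pow]
    have h7 : R ^ n ≤ R ^ (n + k + m) := pow_le_pow_right₀ hR (by omega)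
    have h8 : (0 : ℝ) ≤ ((r ^ 2 * R) ^ N)⁻¹ := by positivity
    calc CF * R ^ n * ((R * r ^ 2)⁻¹) ^ N = CF * (R ^ n * ((r ^ 2 * R) ^ N)⁻¹) := by
          rw [h6, mul_assoc]
      _ ≤ CF * (R ^ (n + k + m) * ((r ^ 2 * R) ^ N)⁻¹) := by gcongr
      _ ≤ CF * R ^ (-((n : ℝ) - 2) + ε) := by gcongr
  have hmain := hng (FR.mu η R) (FR.ex X) (core_ex_meas hX.continuous) (core_ex_norm X) b hbm hbi r
    hr0 _ _ hY hE
  calc ∫⁻ ξ in {ξ : E n | R ≤ ‖ξ‖ ∧ ‖ξ‖ ≤ 2 * R}, ‖Tb X b ξ‖ₑ ^ 4 ≤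
      ∫⁻ ξ, ‖Tb X b ξ‖ₑ ^ 4 ∂(FR.mu η R) := lintegral_mono' (ck_le_mu hη hRp) le_rfl
    _ = ∫⁻ ξ, ‖∫ p, b p * FR.ex X ξ p‖ₑ ^ 4 ∂(FR.mu η R) := rfl
    _ ≤ 3 * ENNReal.ofReal (CF * R ^ (-((n : ℝ) - 2) + ε)) + ENNReal.ofReal Cn *
        ENNReal.ofReal (CK * (Ce + 1) * R ^ (-((n : ℝ) - 2) + ε)) := hmain
    _ = ENNReal.ofReal (3 * (CF * R ^ (-((n : ℝ) - 2) + ε)) + Cn *
        (CK * (Ce + 1) * R ^ (-((n : ℝ) - 2) + ε))) := by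
        rw [ENNReal.ofReal_add (by positivity) (by positivity),
          ENNReal.ofReal_mul (p := 3) (by norm_num), ENNReal.ofReal_mul (p := Cn) hCn.le,
          ENNReal.ofReal_ofNat]
    _ ≤ _ := by
        refine ENNReal.ofReal_le_ofReal ?_
        have h9 : 0 ≤ Cs * R ^ (-((n : ℝ) - 2) + ε) := by positivity
        calc _ ≤ Cs * R ^ (-((n : ℝ) - 2) + ε) + (3 * (CF * R ^ (-((n : ℝ) - 2) + ε)) + Cn *
            (CK * (Ce + 1) * R ^ (-((n : ℝ) - 2) + ε))) := le_add_of_nonneg_left h9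
          _ = _ := by ring

end Pool.Agent.LFK
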