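import Pool.Agent.LF.LPT
import Pool.Agent.LFK.Clk
import Pool.Agent.LFK.CH1
import Pool.Agent.LFK.CH3
import Pool.Agent.LFK.CORE

/-!
Densities `g(x) = G(φ(x), x)` on the unit sphere of `R^n`, `φ : R^n → R^k`, with `G` only measurable
in the first variable and smooth in the second: the Fourier transform of `g σ` is in `L^p`,
`p > 2n/(n-1)`, if `g` is supported near a point where the foliation `φ = const` is in general
position.
-/

set_option autoImplicit false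

namespace Pool.Agent.LFK

open MeasureTheory Set Filter Topology Pool.Agent.MP_6cbfb8_an
open scoped ENNReal Real RealInnerProductSpace ContDiff

/-- Change of variables `ξ ↦ c ξ` on a measurable set. -/
theorem asm_scale {n : ℕ} (c : ℝ) (hc : 0 < c) (f : E n → ℝ≥0∞) (A : Set (E n)) :
    ∫⁻ ξ in (fun ξ => c • ξ) ⁻¹' A, f (c • ξ) =
      ENNReal.ofReal ((c ^ n)⁻¹) * ∫⁻ ξ in A, f ξ := by
  have h1 : Measure.map (fun ξ : E n => c • ξ) volume =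
      ENNReal.ofReal ((c ^ n)⁻¹) • (volume : Measure (E n)) := by
    have h := Measure.map_addHaar_smul (volume : Measure (E n)) hc.ne'
    rw [finrank_euclideanSpace_fin, abs_of_pos (by positivity)] at h
    exact h
  have he : MeasurableEmbedding (fun ξ : E n => c • ξ) :=
    (Homeomorph.smulOfNeZero c hc.ne').measurableEmbedding
  rw [← he.lintegral_map, ← he.restrict_map, h1, Measure.restrict_smul, lintegral_smul_measure,
    smul_eq_mul]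

/-- The integral over the chart is a measurable bounded function of the frequency. -/
theorem asm_meas {k m n : ℕ} (X : E k × E m → E n) (hX : Continuous X) (b : E k × E m → ℂ)
    (hb : Measurable b) : Measurable fun ξ : E n => Tb X b ((2 * π) • ξ) := by
  have h1 : Measurable fun q : E n × (E k × E m) =>
      b q.2 * Complex.exp (((-⟪(2 * π) • q.1, X q.2⟫ : ℝ) : ℂ) * Complex.I) := by
    refine (hb.comp measurable_snd).mul (Continuous.measurable ?_)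
    fun_prop
  exact (h1.stronglyMeasurable.integral_prod_right').measurable

theorem asm_bound {k m n : ℕ} (X : E k × E m → E n) (b : E k × E m → ℂ) (p0 : E k × E m)
    {δ1 B0 : ℝ} (hb : ∀ p, ‖b p‖ ≤ B0) (hs : ∀ p, δ1 ≤ ‖p - p0‖ → b p = 0) (ξ : E n) :
    ‖Tb X b ξ‖ ≤ B0 * (volume : Measure (E k × E m)).real (Metric.closedBall p0 δ1) := by
  have h1 : ∫ p, b p * Complex.exp (((-⟪ξ, X p⟫ : ℝ) : ℂ) * Complex.I) =
      ∫ p in Metric.closedBall p0 δ1,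
        b p * Complex.exp (((-⟪ξ, X p⟫ : ℝ) : ℂ) * Complex.I) := by
    rw [setIntegral_eq_integral_of_forall_compl_eq_zero]
    intro p hp
    rw [Metric.mem_closedBall, not_le, dist_eq_norm] at hp
    rw [hs p hp.le, zero_mul]
  rw [Tb, h1]
  refine norm_setIntegral_le_of_norm_le_const measure_closedBall_lt_top fun p _ => ?_
  rw [norm_mul, Complex.norm_exp_ofReal_mul_I, mul_one]
  exact hb p

/-- **The sphere.** -/
theorem leaf_at {k m n : ℕ} (hk : 1 ≤ k) (hm : 1 ≤ m) (hn : k + m + 1 = n) (φ : E n → E k)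
    (x0 : E n) (hx0 : ‖x0‖ = 1) (hφ : ∀ᶠ x in 𝓝 x0, ContDiffAt ℝ ∞ φ x) (hgen : Gen φ x0) :
    ∃ r : ℝ, 0 < r ∧ ∀ p : ℝ, 2 * (n : ℝ) / (n - 1) < p → ∃ η : ℝ, 0 < η ∧ ∀ B : ℕ → ℝ, ∃ C D : ℝ,
      ∀ G : E k → E n → ℂ, Measurable (fun q : E k × E n => G q.1 q.2) →
        (∀ t, ContDiff ℝ ∞ (G t)) → (∀ t j x, ‖iteratedFDeriv ℝ j (G t) x‖ ≤ B j) →
        (∀ t x, r ≤ ‖x - x0‖ → G t x = 0) →
        (∀ ξ, ‖extn (fun x => G (φ x) x) ξ‖ ≤ D) ∧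
        ∀ R : ℝ, 1 ≤ R → ∫⁻ ξ in {ξ | R ≤ ‖ξ‖}, ‖extn (fun x => G (φ x) x) ξ‖ₑ ^ p ≤
          ENNReal.ofReal (C * R ^ (-η)) := by
  obtain ⟨X, A, p0, δ, hδ, hX, hA, hp0, h1, h2, hinj, him, hnb⟩ := ch1 hn φ x0 hx0 hφ hgen.1
  have him0 : ∀ v, fderiv ℝ X p0 v = 0 → v = 0 := him p0 (by simpa using hδ.le)
  have hnear : ∀ᶠ q in 𝓝 p0, ‖q - p0‖ ≤ δ := by
    filter_upwards [Metric.closedBall_mem_nhds p0 hδ] with q hq
    rwa [Metric.mem_closedBall, dist_eq_norm] at hq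
  have hφ3 : ContDiffAt ℝ 3 φ (X p0) := by
    rw [hp0]
    exact hφ.self_of_nhds.of_le (WithTop.coe_le_coe.2 (le_top : (3 : ℕ∞) ≤ ⊤))
  have hinj0 : Function.Injective (fderiv ℝ X p0) :=
    (injective_iff_map_eq_zero (fderiv ℝ X p0)).2 him0
  have hgen' : Gen φ (X p0) := by rwa [hp0]
  obtain ⟨δ1, hδ1, -, hcore⟩ := core hk hm hn X A p0 hδ hX hA h1 him0
    (fun w hw hV u v hu hv hMu hMv d hd => gen_N3 hn
      (hX.contDiffAt.of_le (WithTop.coe_le_coe.2 (le_top : (3 : ℕ∞) ≤ ⊤))) hφ3 (hnear.mono h1) (hnear.mono h2)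
      hinj0 hgen' hw hV hu hv hMu hMv d hd)
  obtain ⟨r, hr, hch3⟩ := ch3 hn φ x0 X p0 hδ hX A hA hp0 h1 h2 hinj him hnb δ1 hδ1
  refine ⟨r, hr, fun p hp => ?_⟩
  obtain ⟨ε, η, hε, hη, hlp⟩ := LF.lp_tail n (by omega) p hp
  refine ⟨η, hη, fun B => ?_⟩
  obtain ⟨B', hB'⟩ := hch3 B
  obtain ⟨C1, hC1⟩ := hcore B' ε hε
  obtain ⟨C, -, H⟩ := hlp (((2 * π) ^ n)⁻¹ * (|C1| * (2 * π) ^ (-((n : ℝ) - 2) + ε)))
    (B' 0 * (volume : Measure (E k × E m)).real (Metric.closedBall p0 δ1))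
  refine ⟨C, B' 0 * (volume : Measure (E k × E m)).real (Metric.closedBall p0 δ1),
    fun G hG1 hG2 hG3 hG4 => ?_⟩
  obtain ⟨b, hb1, hb2, hb3, hb4, hb5⟩ := hB' G hG1 hG2 hG3 hG4
  replace hb5 : ∀ ξ, extn (fun x => G (φ x) x) ξ = Tb X b ((2 * π) • ξ) := hb5
  have hext : (fun ξ => extn (fun x => G (φ x) x) ξ) = fun ξ : E n =>
      Tb X b ((2 * π) • ξ) := funext hb5
  have hb0 : ∀ p, ‖b p‖ ≤ B' 0 := by
    intro p
    have h3 := hb3 p.1 0 p.2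
    rwa [norm_iteratedFDeriv_zero] at h3
  have hsup : ∀ ξ, ‖extn (fun x => G (φ x) x) ξ‖ ≤
      B' 0 * (volume : Measure (E k × E m)).real (Metric.closedBall p0 δ1) := by
    intro ξ
    rw [hb5]
    exact asm_bound X b p0 hb0 hb4 _
  refine ⟨hsup, H (fun ξ => extn (fun x => G (φ x) x) ξ) ?_ hsup ?_⟩
  · rw [hext]
    exact asm_meas X hX.continuous b hb1
  · intro R hR
    have h2π : 0 < 2 * π := by positivity
    have h2π1 : 1 ≤ 2 * π := by linarith [Real.pi_gt_three]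
    have hset : {ξ : E n | R ≤ ‖ξ‖ ∧ ‖ξ‖ ≤ 2 * R} = (fun ξ => (2 * π) • ξ) ⁻¹'
        {ξ : E n | 2 * π * R ≤ ‖ξ‖ ∧ ‖ξ‖ ≤ 2 * (2 * π * R)} := by
      ext ξ
      simp only [mem_ofPred_eq, mem_preimage, norm_smul, Real.norm_of_nonneg h2π.le]
      rw [mul_le_mul_iff_right₀ h2π, show 2 * (2 * π * R) = 2 * π * (2 * R) by ring,
        mul_le_mul_iff_right₀ h2π]
    have h4 := hC1 b hb1 hb2 hb3 hb4 (2 * π * R)
      (by nlinarith)
    simp_rw [hb5]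
    rw [hset, asm_scale (2 * π) h2π (fun η : E n => ‖Tb X b η‖ₑ ^ (4 : ℝ))]
    refine (mul_le_mul_right h4 _).trans ?_
    rw [← ENNReal.ofReal_mul (by positivity)]
    refine ENNReal.ofReal_le_ofReal ?_
    rw [Real.mul_rpow h2π.le (by linarith), mul_assoc ((2 * π) ^ n)⁻¹, mul_assoc |C1|]
    refine mul_le_mul_of_nonneg_left ?_ (by positivity)
    exact mul_le_mul_of_nonneg_right (le_abs_self C1) (by positivity)

/-- From the tails to the whole space. -/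
theorem of_tail {n : ℕ} {F : E n → ℂ} {p D C η : ℝ} (hp : 0 ≤ p) (hD : ∀ ξ, ‖F ξ‖ ≤ D)
    (hC : ∀ R : ℝ, 1 ≤ R → ∫⁻ ξ in {ξ | R ≤ ‖ξ‖}, ‖F ξ‖ₑ ^ p ≤ ENNReal.ofReal (C * R ^ (-η))) :
    ∫⁻ ξ, ‖F ξ‖ₑ ^ p ≤ ENNReal.ofReal D ^ p * volume (Metric.ball (0 : E n) 1) +
      ENNReal.ofReal C := by
  have h1 : (univ : Set (E n)) ⊆ Metric.ball 0 1 ∪ {ξ | 1 ≤ ‖ξ‖} := by
    intro ξ _
    rcases lt_or_ge ‖ξ‖ 1 with h | h
    · exact Or.inl (by rwa [mem_ball_zero_iff])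
    · exact Or.inr h
  calc ∫⁻ ξ, ‖F ξ‖ₑ ^ p = ∫⁻ ξ in univ, ‖F ξ‖ₑ ^ p := by rw [Measure.restrict_univ]
    _ ≤ ∫⁻ ξ in Metric.ball 0 1 ∪ {ξ | 1 ≤ ‖ξ‖}, ‖F ξ‖ₑ ^ p := lintegral_mono_set h1
    _ ≤ (∫⁻ ξ in Metric.ball 0 1, ‖F ξ‖ₑ ^ p) + ∫⁻ ξ in {ξ | 1 ≤ ‖ξ‖}, ‖F ξ‖ₑ ^ p :=
        lintegral_union_le _ _ _
    _ ≤ _ := by
        refine add_le_add ?_ ?_
        · calc ∫⁻ ξ in Metric.ball 0 1, ‖F ξ‖ₑ ^ p
              ≤ ∫⁻ _ in Metric.ball (0 : E n) 1, ENNReal.ofReal D ^ p := by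
                refine lintegral_mono fun ξ => ENNReal.rpow_le_rpow ?_ hp
                rw [← ofReal_norm]
                exact ENNReal.ofReal_le_ofReal (hD ξ)
            _ = _ := by rw [setLIntegral_const]
        · have h2 := hC 1 le_rfl
          rwa [Real.one_rpow, mul_one] at h2

/-- **The sphere**, for functions which vanish on the sphere outside a neighbourhood of `x0`. -/
theorem leaf_tail {k m n : ℕ} (hk : 1 ≤ k) (hm : 1 ≤ m) (hn : k + m + 1 = n) (φ : E n → E k)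
    (x0 : E n) (hx0 : ‖x0‖ = 1) (hφ : ∀ᶠ x in 𝓝 x0, ContDiffAt ℝ ∞ φ x) (hgen : Gen φ x0) :
    ∃ U : Set (E n), IsOpen U ∧ x0 ∈ U ∧ ∀ p : ℝ, 2 * (n : ℝ) / (n - 1) < p →
      ∃ η : ℝ, 0 < η ∧ ∀ B : ℕ → ℝ, ∃ C D : ℝ, ∀ G : E k → E n → ℂ, Clk U B G →
        (∀ ξ, ‖extn (fun x => G (φ x) x) ξ‖ ≤ D) ∧
        ∀ R : ℝ, 1 ≤ R → ∫⁻ ξ in {ξ | R ≤ ‖ξ‖}, ‖extn (fun x => G (φ x) x) ξ‖ₑ ^ p ≤
          ENNReal.ofReal (C * R ^ (-η)) := by
  obtain ⟨r, hr, H⟩ := leaf_at hk hm hn φ x0 hx0 hφ hgen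
  let χ : ContDiffBump x0 := ⟨r / 2, r, half_pos hr, half_lt_self hr⟩
  have hχ : ContDiff ℝ ∞ (χ : E n → ℝ) := χ.contDiff
  have hb : ∀ j : ℕ, ∃ A : ℝ, ∀ x, ‖iteratedFDeriv ℝ j (χ : E n → ℝ) x‖ ≤ A := fun j =>
    (χ.hasCompactSupport.iteratedFDeriv (𝕜 := ℝ) j).exists_bound_of_continuous
      (hχ.continuous_iteratedFDeriv (by exact_mod_cast le_top))
  choose D hD using hb
  refine ⟨Metric.ball x0 (r / 2), Metric.isOpen_ball, Metric.mem_ball_self (half_pos hr),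
    fun p hp => ?_⟩
  obtain ⟨η, hη, H⟩ := H p hp
  refine ⟨η, hη, fun B => ?_⟩
  obtain ⟨C, D', H'⟩ := H (fun j => ∑ i ∈ Finset.range (j + 1), (j.choose i : ℝ) * D i * B (j - i))
  refine ⟨C, D', fun G hG => ?_⟩
  obtain ⟨hG1, hG2, hG3, hG4⟩ := hG
  have h := H' (fun t x => χ x • G t x) ?_ (fun t => hχ.smul (hG2 t)) ?_ ?_
  · have he : ∀ ξ, extn (fun x => G (φ x) x) ξ = extn (fun x => χ x • G (φ x) x) ξ := by
      intro ξ
      unfold extn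
      refine integral_congr_ae (Eventually.of_forall fun x => ?_)
      simp only
      congr 1
      by_cases hx : (x : E n) ∈ Metric.ball x0 (r / 2)
      · rw [χ.one_of_mem_closedBall (Metric.ball_subset_closedBall hx), one_smul]
      · rw [hG4 _ _ (by simp) hx, smul_zero]
    simp_rw [he]
    exact h
  · exact (hχ.continuous.measurable.comp measurable_snd).smul hG1
  · intro t j x
    refine (norm_iteratedFDeriv_smul_le hχ (hG2 t) x (n := j) (by exact_mod_cast le_top)).trans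
      (Finset.sum_le_sum fun i _ => ?_)
    have h1 := hD i x
    have h2 := hG3 (j - i) t x
    have h3 : 0 ≤ D i := (norm_nonneg _).trans h1
    gcongr
  · intro t x hx
    rw [χ.zero_of_le_dist (by rwa [dist_eq_norm]), zero_smul]

/-- **The sphere**, for functions which vanish on the sphere outside a neighbourhood of `x0`. -/
theorem leaf_cl {k m n : ℕ} (hk : 1 ≤ k) (hm : 1 ≤ m) (hn : k + m + 1 = n) (φ : E n → E k)
    (x0 : E n) (hx0 : ‖x0‖ = 1) (hφ : ∀ᶠ x in 𝓝 x0, ContDiffAt ℝ ∞ φ x) (hgen : Gen φ x0) :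
    ∃ U : Set (E n), IsOpen U ∧ x0 ∈ U ∧ ∀ p : ℝ, 2 * (n : ℝ) / (n - 1) < p → ∀ B : ℕ → ℝ,
      ∃ C : ℝ≥0∞, C ≠ ⊤ ∧ ∀ G : E k → E n → ℂ, Clk U B G →
        ∫⁻ ξ, ‖extn (fun x => G (φ x) x) ξ‖ₑ ^ p ≤ C := by
  obtain ⟨U, hU, hxU, H⟩ := leaf_tail hk hm hn φ x0 hx0 hφ hgen
  refine ⟨U, hU, hxU, fun p hp B => ?_⟩
  obtain ⟨η, hη, H⟩ := H p hp
  obtain ⟨C, D, H⟩ := H B
  have hp0 : 0 ≤ p := by
    have hn3 : (3 : ℝ) ≤ n := by exact_mod_cast (show 3 ≤ n by omega)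
    refine le_of_lt (lt_trans ?_ hp)
    exact div_pos (by linarith) (by linarith)
  refine ⟨_, ?_, fun G hG => of_tail hp0 (H G hG).1 (H G hG).2⟩
  exact ENNReal.add_ne_top.2 ⟨ENNReal.mul_ne_top
    (ENNReal.rpow_ne_top_of_nonneg hp0 ENNReal.ofReal_ne_top) measure_ball_lt_top.ne,
    ENNReal.ofReal_ne_top⟩

end Pool.Agent.LFK
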