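import Pool.Agent.LF.CH2

/-!
[LEAFK], row CHk: phases with values in `E k` in general position at a point of the sphere, and
what it means in a chart of the sphere adapted to the phases.
-/

set_option autoImplicit false

namespace Pool.Agent.LFK

open Set Filter Topology Pool.Agent.MP_6cbfb8_an
open scoped RealInnerProductSpace ContDiff

/-- The function `c_0 |x|² / 2 + c · φ(x)`. -/
noncomputable def Phc {n k : ℕ} (φ : E n → E k) (c : ℝ × E k) (x : E n) : ℝ :=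
  c.1 / 2 * ‖x‖ ^ 2 + ⟪c.2, φ x⟫

/-- The phases `φ = (φ_1, .., φ_k)` are in general position at the point `x0` of the sphere. -/
def Gen {n k : ℕ} (φ : E n → E k) (x0 : E n) : Prop :=
  (∀ c : ℝ × E k, fderiv ℝ (Phc φ c) x0 = 0 → c = 0) ∧
  ∀ (c c1 c2 c3 : ℝ × E k) (a b : E n), c ≠ 0 → a ≠ 0 → b ≠ 0 → ⟪a, x0⟫ = 0 → ⟪b, x0⟫ = 0 →
    ⟪a, b⟫ = 0 →
    (∀ y, fderiv ℝ (fderiv ℝ (Phc φ c)) x0 a y + fderiv ℝ (Phc φ c1) x0 y = 0) →
    (∀ y, fderiv ℝ (fderiv ℝ (Phc φ c)) x0 b y + fderiv ℝ (Phc φ c2) x0 y = 0) →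
    ∃ y, fderiv ℝ (fderiv ℝ (fderiv ℝ (Phc φ c))) x0 a b y +
      fderiv ℝ (fderiv ℝ (Phc φ c1)) x0 b y + fderiv ℝ (fderiv ℝ (Phc φ c2)) x0 a y +
      fderiv ℝ (Phc φ c3) x0 y ≠ 0

section

variable {P F : Type*} [NormedAddCommGroup P] [NormedSpace ℝ P] [NormedAddCommGroup F]
  [NormedSpace ℝ F]

/-- The first two derivatives of `f(X)`, if it is affine. -/
theorem aff_second {X : P → F} {f : F → ℝ} {p : P} (hX : ContDiffAt ℝ 2 X p)
    (hf : ContDiffAt ℝ 2 f (X p)) (l : P →L[ℝ] ℝ) (c0 : ℝ)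
    (h1 : ∀ᶠ q in 𝓝 p, f (X q) = c0 + l q) (u v : P) :
    fderiv ℝ f (X p) (fderiv ℝ X p v) = l v ∧
      fderiv ℝ (fderiv ℝ f) (X p) (fderiv ℝ X p u) (fderiv ℝ X p v) +
        fderiv ℝ f (X p) (fderiv ℝ (fderiv ℝ X) p u v) = 0 := by
  have hd : ∀ᶠ q in 𝓝 p, DifferentiableAt ℝ X q := by
    filter_upwards [hX.eventually (by simp)] with q hq
    exact hq.differentiableAt (by norm_num)
  have hdf : ∀ᶠ q in 𝓝 p, DifferentiableAt ℝ f (X q) := by
    have : ∀ᶠ y in 𝓝 (X p), DifferentiableAt ℝ f y := by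
      filter_upwards [hf.eventually (by simp)] with q hq
      exact hq.differentiableAt (by norm_num)
    exact hX.continuousAt.eventually this
  have h2 : ∀ᶠ q in 𝓝 p, fderiv ℝ f (X q) (fderiv ℝ X q v) = l v := by
    filter_upwards [h1.eventually_nhds, hd, hdf] with q hq hdq hdfq
    have e1 : (fun r => f (X r)) =ᶠ[𝓝 q] fun r => c0 + l r := hq
    have e2 : HasFDerivAt (fun r => f (X r)) ((fderiv ℝ f (X q)).comp (fderiv ℝ X q)) q :=
      hdfq.hasFDerivAt.comp q hdq.hasFDerivAt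
    have e3 : HasFDerivAt (fun r => c0 + l r) l q := l.hasFDerivAt.const_add c0
    have e4 := (e2.congr_of_eventuallyEq e1.symm).unique e3
    exact congrArg (fun L : P →L[ℝ] ℝ => L v) e4
  refine ⟨h2.self_of_nhds, ?_⟩
  have hdX : HasFDerivAt X (fderiv ℝ X p) p := hd.self_of_nhds.hasFDerivAt
  have hdd : HasFDerivAt (fderiv ℝ X) (fderiv ℝ (fderiv ℝ X) p) p :=
    ((hX.fderiv_right (m := 1) (by norm_num)).differentiableAt (by norm_num)).hasFDerivAt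
  have hddf : HasFDerivAt (fderiv ℝ f) (fderiv ℝ (fderiv ℝ f) (X p)) (X p) :=
    ((hf.fderiv_right (m := 1) (by norm_num)).differentiableAt (by norm_num)).hasFDerivAt
  have e1 := (hddf.comp p hdX).clm_apply (hdd.clm_apply (hasFDerivAt_const v p))
  have e2 : HasFDerivAt (fun q => fderiv ℝ f (X q) (fderiv ℝ X q v)) (0 : P →L[ℝ] ℝ) p :=
    (hasFDerivAt_const (l v) p).congr_of_eventuallyEq h2
  have e3 := congrArg (fun L : P →L[ℝ] ℝ => L u) (e1.unique e2)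
  simp only [_root_.add_apply, ContinuousLinearMap.comp_apply, ContinuousLinearMap.flip_apply,
    _root_.zero_apply, map_zero, zero_add, Function.comp_apply] at e3
  linarith

/-- The third derivative of `f(X)`, if it is affine. -/
theorem aff_third {X : P → F} {f : F → ℝ} {p : P} (hX : ContDiffAt ℝ 3 X p)
    (hf : ContDiffAt ℝ 3 f (X p)) (l : P →L[ℝ] ℝ) (c0 : ℝ)
    (h1 : ∀ᶠ q in 𝓝 p, f (X q) = c0 + l q) (u v z : P) :
    fderiv ℝ (fderiv ℝ (fderiv ℝ f)) (X p) (fderiv ℝ X p u) (fderiv ℝ X p v) (fderiv ℝ X p z) +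
      fderiv ℝ (fderiv ℝ f) (X p) (fderiv ℝ (fderiv ℝ X) p u v) (fderiv ℝ X p z) +
      fderiv ℝ (fderiv ℝ f) (X p) (fderiv ℝ X p v) (fderiv ℝ (fderiv ℝ X) p u z) +
      fderiv ℝ (fderiv ℝ f) (X p) (fderiv ℝ X p u) (fderiv ℝ (fderiv ℝ X) p v z) +
      fderiv ℝ f (X p) (fderiv ℝ (fderiv ℝ (fderiv ℝ X)) p u v z) = 0 := by
  have hX2 : ContDiffAt ℝ 2 X p := hX.of_le (by norm_num)
  have hf2 : ContDiffAt ℝ 2 f (X p) := hf.of_le (by norm_num)
  have h2 : ∀ᶠ q in 𝓝 p, fderiv ℝ (fderiv ℝ f) (X q) (fderiv ℝ X q v) (fderiv ℝ X q z) +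
      fderiv ℝ f (X q) (fderiv ℝ (fderiv ℝ X) q v z) = 0 := by
    have hXe : ∀ᶠ q in 𝓝 p, ContDiffAt ℝ 2 X q := hX2.eventually (by simp)
    have hfe : ∀ᶠ q in 𝓝 p, ContDiffAt ℝ 2 f (X q) :=
      hX.continuousAt.eventually (hf2.eventually (by simp))
    filter_upwards [h1.eventually_nhds, hXe, hfe] with q hq hdq hdfq
    exact (aff_second hdq hdfq l c0 hq v z).2
  have hdX : HasFDerivAt X (fderiv ℝ X p) p := (hX.differentiableAt (by norm_num)).hasFDerivAt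
  have hd1 : ContDiffAt ℝ 2 (fderiv ℝ X) p := hX.fderiv_right (m := 2) (by norm_num)
  have hd2 : ContDiffAt ℝ 1 (fderiv ℝ (fderiv ℝ X)) p := hd1.fderiv_right (m := 1) (by norm_num)
  have hX1 : HasFDerivAt (fderiv ℝ X) (fderiv ℝ (fderiv ℝ X) p) p :=
    (hd1.differentiableAt (by norm_num)).hasFDerivAt
  have hX2' : HasFDerivAt (fderiv ℝ (fderiv ℝ X)) (fderiv ℝ (fderiv ℝ (fderiv ℝ X)) p) p :=
    (hd2.differentiableAt (by norm_num)).hasFDerivAt
  have hf1 : ContDiffAt ℝ 2 (fderiv ℝ f) (X p) := hf.fderiv_right (m := 2) (by norm_num)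
  have hf2' : ContDiffAt ℝ 1 (fderiv ℝ (fderiv ℝ f)) (X p) :=
    hf1.fderiv_right (m := 1) (by norm_num)
  have hF1 : HasFDerivAt (fderiv ℝ f) (fderiv ℝ (fderiv ℝ f) (X p)) (X p) :=
    (hf1.differentiableAt (by norm_num)).hasFDerivAt
  have hF2 : HasFDerivAt (fderiv ℝ (fderiv ℝ f)) (fderiv ℝ (fderiv ℝ (fderiv ℝ f)) (X p)) (X p) :=
    (hf2'.differentiableAt (by norm_num)).hasFDerivAt
  have e1 := (((hF2.comp p hdX).clm_apply (hX1.clm_apply (hasFDerivAt_const v p))).clm_apply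
    (hX1.clm_apply (hasFDerivAt_const z p))).add ((hF1.comp p hdX).clm_apply
      ((hX2'.clm_apply (hasFDerivAt_const v p)).clm_apply (hasFDerivAt_const z p)))
  have e2 : HasFDerivAt (fun q => fderiv ℝ (fderiv ℝ f) (X q) (fderiv ℝ X q v)
      (fderiv ℝ X q z) + fderiv ℝ f (X q) (fderiv ℝ (fderiv ℝ X) q v z)) (0 : P →L[ℝ] ℝ) p :=
    (hasFDerivAt_const (0 : ℝ) p).congr_of_eventuallyEq h2
  have e3 := congrArg (fun L : P →L[ℝ] ℝ => L u) (e1.unique e2)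
  simp only [_root_.add_apply, ContinuousLinearMap.comp_apply, ContinuousLinearMap.flip_apply,
    _root_.zero_apply, map_zero, zero_add, Function.comp_apply] at e3
  linarith

end

theorem phc_contDiffAt {n k : ℕ} {φ : E n → E k} {x : E n} {N : WithTop ℕ∞}
    (hφ : ContDiffAt ℝ N φ x) (c : ℝ × E k) : ContDiffAt ℝ N (Phc φ c) x := by
  unfold Phc
  exact (contDiffAt_const.mul (contDiff_norm_sq ℝ).contDiffAt).add (contDiffAt_const.inner ℝ hφ)

theorem phc_fderiv {n k : ℕ} {φ : E n → E k} {x : E n} (hφ : DifferentiableAt ℝ φ x)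
    (c : ℝ × E k) (y : E n) :
    fderiv ℝ (Phc φ c) x y = c.1 * ⟪x, y⟫ + ⟪c.2, fderiv ℝ φ x y⟫ := by
  have h1 : HasFDerivAt (fun x : E n => c.1 / 2 * ‖x‖ ^ 2) ((c.1 / 2) • (2 • (innerSL ℝ x))) x :=
    (hasStrictFDerivAt_norm_sq x).hasFDerivAt.const_mul (c.1 / 2)
  have h2 : HasFDerivAt (fun x : E n => ⟪c.2, φ x⟫) ((innerSL ℝ c.2).comp (fderiv ℝ φ x)) x :=
    (innerSL ℝ c.2).hasFDerivAt.comp x hφ.hasFDerivAt
  have h3 : HasFDerivAt (Phc φ c) ((c.1 / 2) • (2 • (innerSL ℝ x)) +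
      (innerSL ℝ c.2).comp (fderiv ℝ φ x)) x := h1.add h2
  rw [h3.fderiv]
  simp
  ring

/-- The gradient of `Phc φ c`. -/
noncomputable def Tc {n k : ℕ} (φ : E n → E k) (x : E n) : ℝ × E k →ₗ[ℝ] E n :=
  (LinearMap.toSpanSingleton ℝ (E n) x).comp (LinearMap.fst ℝ ℝ (E k)) +
    ((ContinuousLinearMap.adjoint (fderiv ℝ φ x) : E k →L[ℝ] E n) : E k →ₗ[ℝ] E n).comp
      (LinearMap.snd ℝ ℝ (E k))

theorem tc_inner {n k : ℕ} {φ : E n → E k} {x : E n} (hφ : DifferentiableAt ℝ φ x)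
    (c : ℝ × E k) (y : E n) : ⟪Tc φ x c, y⟫ = fderiv ℝ (Phc φ c) x y := by
  rw [phc_fderiv hφ]
  simp [Tc, inner_add_left, inner_smul_left, ContinuousLinearMap.adjoint_inner_left]

theorem tc_inj {n k : ℕ} {φ : E n → E k} {x : E n} (hφ : DifferentiableAt ℝ φ x)
    (hg : ∀ c : ℝ × E k, fderiv ℝ (Phc φ c) x = 0 → c = 0) : Function.Injective (Tc φ x) := by
  rw [← LinearMap.ker_eq_bot, LinearMap.ker_eq_bot']
  intro c hc
  apply hg
  ext y
  rw [← tc_inner hφ, hc, inner_zero_left]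
  rfl

/-- Vectors orthogonal to the leaf are gradients of the functions `Phc φ c`. -/
theorem tc_surj {n k m : ℕ} (hn : k + m + 1 = n) {φ : E n → E k} {x : E n}
    (hφ : DifferentiableAt ℝ φ x) (hg : ∀ c : ℝ × E k, fderiv ℝ (Phc φ c) x = 0 → c = 0)
    (Z : Submodule ℝ (E n)) (hZ : Module.finrank ℝ Z = m)
    (hZ0 : ∀ z ∈ Z, ∀ c, fderiv ℝ (Phc φ c) x z = 0) (w : E n) (hw : ∀ z ∈ Z, ⟪w, z⟫ = 0) :
    ∃ c, Tc φ x c = w := by
  have h1 : LinearMap.range (Tc φ x) ≤ Zᗮ := by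
    rintro _ ⟨c, rfl⟩
    rw [Submodule.mem_orthogonal]
    intro z hz
    rw [real_inner_comm, tc_inner hφ, hZ0 z hz]
  have h2 : Module.finrank ℝ (LinearMap.range (Tc φ x)) = k + 1 := by
    rw [LinearMap.finrank_range_of_inj (tc_inj hφ hg), Module.finrank_prod, Module.finrank_self,
      finrank_euclideanSpace, Fintype.card_fin, add_comm]
  have h3 := Z.finrank_add_finrank_orthogonal
  rw [hZ, finrank_euclideanSpace, Fintype.card_fin] at h3
  have h4 : LinearMap.range (Tc φ x) = Zᗮ := Submodule.eq_of_le_of_finrank_eq h1 (by omega)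
  have h5 : w ∈ Zᗮ := by
    rw [Submodule.mem_orthogonal]
    intro z hz
    rw [real_inner_comm]
    exact hw z hz
  rw [← h4] at h5
  exact h5

/-- **General position in a chart.** -/
theorem gen_N3 {k m n : ℕ} (hn : k + m + 1 = n) {X : E k × E m → E n} {φ : E n → E k}
    {p : E k × E m} (hX : ContDiffAt ℝ 3 X p) (hφ : ContDiffAt ℝ 3 φ (X p))
    (h1 : ∀ᶠ q in 𝓝 p, ‖X q‖ = 1) (h2 : ∀ᶠ q in 𝓝 p, φ (X q) = q.1)
    (himm : Function.Injective (fderiv ℝ X p)) (hg : Gen φ (X p)) {w : E n} (hw : w ≠ 0)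
    (hV : ∀ z : E m, ⟪w, fderiv ℝ X p (0, z)⟫ = 0) {u v : E k × E m} (hu : u ≠ 0) (hv : v ≠ 0)
    (hMu : ∀ z : E m, ⟪w, fderiv ℝ (fderiv ℝ X) p u (0, z)⟫ = 0)
    (hMv : ∀ z : E m, ⟪w, fderiv ℝ (fderiv ℝ X) p v (0, z)⟫ = 0) (d : E k × E m)
    (hd : fderiv ℝ X p d + fderiv ℝ (fderiv ℝ X) p u v = 0) :
    ∃ z : E m, ⟪w, fderiv ℝ (fderiv ℝ X) p d (0, z)⟫ +
      ⟪w, fderiv ℝ (fderiv ℝ (fderiv ℝ X)) p u v (0, z)⟫ ≠ 0 := by
  obtain ⟨hg1, hg2⟩ := hg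
  have hX2 : ContDiffAt ℝ 2 X p := hX.of_le (by norm_num)
  have hφd : DifferentiableAt ℝ φ (X p) := hφ.differentiableAt (by norm_num)
  have hf3 : ∀ c, ContDiffAt ℝ 3 (Phc φ c) (X p) := fun c => phc_contDiffAt hφ c
  have hf2 : ∀ c, ContDiffAt ℝ 2 (Phc φ c) (X p) := fun c => (hf3 c).of_le (by norm_num)
  -- the functions are affine in the chart
  have haff : ∀ c : ℝ × E k, ∀ᶠ q in 𝓝 p, Phc φ c (X q) = c.1 / 2 +
      ((innerSL ℝ c.2).comp (ContinuousLinearMap.fst ℝ (E k) (E m))) q := by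
    intro c
    filter_upwards [h1, h2] with q hq1 hq2
    unfold Phc
    rw [hq1, hq2]
    simp
  have hs := fun (c : ℝ × E k) (u v : E k × E m) => aff_second hX2 (hf2 c) _ _ (haff c) u v
  have ht := fun (c : ℝ × E k) (u v z : E k × E m) => aff_third hX (hf3 c) _ _ (haff c) u v z
  have hsph := fun u v : E k × E m => LF.sphere_second hX2 h1 u v
  -- the tangent space of the leaf
  set Z : Submodule ℝ (E n) := LinearMap.range
    ((fderiv ℝ X p : E k × E m →ₗ[ℝ] E n).comp (LinearMap.inr ℝ (E k) (E m))) with hZ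
  have hZdim : Module.finrank ℝ Z = m := by
    rw [hZ, LinearMap.finrank_range_of_inj, finrank_euclideanSpace, Fintype.card_fin]
    intro a b hab
    have h3 : fderiv ℝ X p (0, a) = fderiv ℝ X p (0, b) := hab
    exact (Prod.ext_iff.1 (himm h3)).2
  have hZmem : ∀ z : E m, fderiv ℝ X p (0, z) ∈ Z := fun z => ⟨z, rfl⟩
  have hZ0 : ∀ z ∈ Z, ∀ c, fderiv ℝ (Phc φ c) (X p) z = 0 := by
    rintro _ ⟨z, rfl⟩ c
    have h3 := (hs c 0 (0, z)).1
    simp only [ContinuousLinearMap.comp_apply, ContinuousLinearMap.coe_fst', map_zero] at h3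
    exact h3
  have key : ∀ w : E n, (∀ z : E m, ⟪w, fderiv ℝ X p (0, z)⟫ = 0) →
      ∃ c, ∀ y, ⟪w, y⟫ = fderiv ℝ (Phc φ c) (X p) y := by
    intro w hw
    obtain ⟨c, hc⟩ := tc_surj hn hφd hg1 Z hZdim hZ0 w (by
      rintro _ ⟨z, rfl⟩
      exact hw z)
    exact ⟨c, fun y => by rw [← hc, tc_inner hφd]⟩
  have key2 : ∀ l : E n →L[ℝ] ℝ, (∀ z : E m, l (fderiv ℝ X p (0, z)) = 0) →
      ∃ c, ∀ y, l y + fderiv ℝ (Phc φ c) (X p) y = 0 := by
    intro l hl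
    obtain ⟨c, hc⟩ := key ((InnerProductSpace.toDual ℝ (E n)).symm (-l)) (fun z => by
      rw [InnerProductSpace.toDual_symm_apply, _root_.neg_apply, hl, neg_zero])
    refine ⟨c, fun y => ?_⟩
    rw [← hc, InnerProductSpace.toDual_symm_apply, _root_.neg_apply, add_neg_cancel]
  obtain ⟨c, hc⟩ := key w hV
  have hc0 : c ≠ 0 := by
    rintro rfl
    apply hw
    have h3 : ⟪w, w⟫ = 0 := by
      rw [hc, ← tc_inner hφd, map_zero, inner_zero_left]
    exact inner_self_eq_zero.1 h3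
  have hAu : fderiv ℝ X p u ≠ 0 := fun h => hu (himm (by rw [h, map_zero]))
  have hAv : fderiv ℝ X p v ≠ 0 := fun h => hv (himm (by rw [h, map_zero]))
  obtain ⟨c1, hc1⟩ := key2 (fderiv ℝ (fderiv ℝ (Phc φ c)) (X p) (fderiv ℝ X p u)) (fun z => by
    have h3 := (hs c u (0, z)).2
    rw [← hc, hMu, add_zero] at h3
    exact h3)
  obtain ⟨c2, hc2⟩ := key2 (fderiv ℝ (fderiv ℝ (Phc φ c)) (X p) (fderiv ℝ X p v)) (fun z => by
    have h3 := (hs c v (0, z)).2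
    rw [← hc, hMv, add_zero] at h3
    exact h3)
  have hau : ⟪fderiv ℝ X p u, X p⟫ = 0 := by
    rw [real_inner_comm]
    exact (hsph u u).1
  have hav : ⟪fderiv ℝ X p v, X p⟫ = 0 := by
    rw [real_inner_comm]
    exact (hsph v v).1
  have hab : ⟪fderiv ℝ X p u, fderiv ℝ X p v⟫ = 0 := by
    have h3 := (hsph u v).2
    have h4 := congrArg (fun y => ⟪X p, y⟫) hd
    simp only [inner_add_right, inner_zero_right] at h4
    have h5 := (hsph d d).1
    linarith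
  by_contra hcon
  push Not at hcon
  obtain ⟨c3, hc3⟩ := key2 (fderiv ℝ (fderiv ℝ (fderiv ℝ (Phc φ c))) (X p) (fderiv ℝ X p u)
      (fderiv ℝ X p v) + fderiv ℝ (fderiv ℝ (Phc φ c1)) (X p) (fderiv ℝ X p v) +
      fderiv ℝ (fderiv ℝ (Phc φ c2)) (X p) (fderiv ℝ X p u)) (fun z => by
    have e1 := ht c u v (0, z)
    have e2 := hcon z
    rw [hc, hc] at e2
    have e3 := (hs c d (0, z)).2
    have e4 := hc2 (fderiv ℝ (fderiv ℝ X) p u (0, z))
    have e5 := (hs c2 u (0, z)).2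
    have e6 := hc1 (fderiv ℝ (fderiv ℝ X) p v (0, z))
    have e7 := (hs c1 v (0, z)).2
    have e8 : fderiv ℝ X p d = -fderiv ℝ (fderiv ℝ X) p u v := eq_neg_of_add_eq_zero_left hd
    rw [e8, map_neg, _root_.neg_apply] at e3
    simp only [_root_.add_apply]
    linarith)
  obtain ⟨y, hy⟩ := hg2 c c1 c2 c3 _ _ hc0 hAu hAv hau hav hab hc1 hc2
  exact hy (hc3 y)

end Pool.Agent.LFK
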