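import Pool.Agent.LFK.CORB2

/-!
LEAFK row COREBk: the square function of the caps of a grid of mesh `r`.
-/

set_option autoImplicit false

namespace Pool.Agent.LFK

open MeasureTheory Set Metric Pool.Agent.MP_6cbfb8_an
open scoped ENNReal Real ContDiff RealInnerProductSpace

/-- The power of `r ^ 2 * R` which is lost. -/
def Pk (k m : ℕ) : ℕ := 9 * k + 7 * m + 4

/-- **The square function of the caps of a grid of mesh `r`**, any shift, any cut-off. -/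
theorem coreBk {k m n : ℕ} (hn : n = k + m + 1) {X : E k × E m → E n} (hX : ContDiff ℝ ∞ X)
    {A : ℕ → ℝ} (hXA : ∀ j p, ‖iteratedFDeriv ℝ j X p‖ ≤ A j) {p0 : E k × E m}
    {δ δ0 C0 cf : ℝ} (hδ00 : 0 ≤ δ0) (hδδ : δ0 ≤ δ) (hδ1 : δ ≤ 1 / 4) (hC0 : 0 < C0)
    (hcf : 0 < cf) (hK : Kak1 X p0 δ C0) (hX1 : ∀ p, ‖p - p0‖ ≤ δ → ‖X p‖ = 1)
    (hfr : ∀ p, ‖p - p0‖ ≤ δ → ∀ ξ, cf * ‖ξ‖ ≤ |⟪ξ, X p⟫| + ‖Gw X ξ p‖)
    {ρ : ℝ} (hρ : 1 ≤ ρ) (Bθ B : ℕ → ℝ) (N : ℕ) :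
    ∃ C : ℝ, 0 < C ∧ ∀ R r : ℝ, 1 ≤ R → 0 < r → 1 ≤ r ^ 2 * R → ρ * r ≤ δ - δ0 →
      ∀ b : E k × E m → ℂ, Measurable b → (∀ t, ContDiff ℝ ∞ fun z => b (t, z)) →
      (∀ j t z, ‖iteratedFDeriv ℝ j (fun z => b (t, z)) z‖ ≤ B j) →
      (∀ t z, δ0 < ‖t - p0.1‖ → b (t, z) = 0) → (∀ t z, δ0 < ‖z - p0.2‖ → b (t, z) = 0) →
      ∀ th : E k × E m → ℝ, ContDiff ℝ ∞ th → (∀ p, ρ < ‖p‖ → th p = 0) →
      (∀ j p, ‖iteratedFDeriv ℝ j th p‖ ≤ Bθ j) →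
      ∀ (ι κ : Type) (t : ι → E k) (zc : κ → E m), (∀ i j, i ≠ j → r ≤ ‖t i - t j‖) →
      (∀ i j, i ≠ j → r ≤ ‖zc i - zc j‖) →
      ∫⁻ ξ in {ξ : E n | R / 2 ≤ ‖ξ‖ ∧ ‖ξ‖ ≤ 4 * R},
        (∑' c : ι × κ, ‖∫ p : E k × E m, (th (r⁻¹ • (p - (t c.1, zc c.2))) : ℂ) * b p *
          Complex.exp (((-⟪ξ, X p⟫ : ℝ) : ℂ) * Complex.I)‖ₑ ^ 2) ^ 2 ≤
        ENNReal.ofReal (C * ((r ^ 2 * R) ^ Pk k m * (1 + Real.log R) * R * (R ^ (k + m))⁻¹ +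
          R ^ (n + k + m) * ((r ^ 2 * R) ^ N)⁻¹)) := by
  classical
  obtain ⟨Ck, hCk, hkak⟩ := kak hn hX (hδ00.trans hδδ) hδ1 hC0 hcf hK hX1 hfr
  obtain ⟨Cd, hCd, hdom⟩ := domk k m n A Bθ B ρ δ0 hρ
  obtain ⟨Cs, hCs, hsm⟩ := capk_small k m n N A Bθ B ρ hρ
  set A2 : ℝ := |A 2| with hA2d
  have hA2 : 0 ≤ A2 := abs_nonneg _
  have hVL : ∀ ξ t z z', ‖Vw X ξ (t, z) - Vw X ξ (t, z')‖ ≤ A2 * ‖ξ‖ * ‖z - z'‖ := by
    intro ξ t z z'
    refine (Vw_lip hX (fun p => (hXA 2 p).trans (le_abs_self _)) ξ (t, z) (t, z')).trans ?_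
    rw [Prod.mk_sub_mk, sub_self, Prod.norm_mk, norm_zero, max_eq_right (norm_nonneg _)]
  set Mo : ℕ := ⌈(2 * ρ + 1) ^ m⌉₊ with hMo
  set c1 : ℝ := 1 + 4 * A2 * ρ with hc1
  have hρ0 : 0 < ρ := by linarith
  have hc11 : 1 ≤ c1 := by
    have : 0 ≤ 4 * A2 * ρ := by positivity
    linarith
  set vn : ℝ := (volume (ball (0 : E n) 1)).toReal with hvn
  have hvn0 : 0 ≤ vn := ENNReal.toReal_nonneg
  refine ⟨2 * (Cd * Mo) ^ 2 * Ck * c1 ^ (2 * m + k) + 2 * 4 ^ (k + m) * Cs ^ 4 * 4 ^ n * vn + 1,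
    by positivity, ?_⟩
  intro R r hR hr hQ hρr b hbm hbs hbB hb1 hb2 th hth hth0 hB' ι κ t zc ht hzc
  set Q : ℝ := r ^ 2 * R with hQd
  have hR0 : 0 < R := by linarith
  have hQ0 : 0 < Q := by linarith
  have hs : 0 < √R := Real.sqrt_pos.2 hR0
  have hsR : √R * √R = R := Real.mul_self_sqrt hR0.le
  have hr1 : r ≤ 1 := by nlinarith
  have hlR : 0 ≤ Real.log R := Real.log_nonneg hR
  have hrs : 1 ≤ r * √R := by
    have h1 : (1 : ℝ) ≤ (r * √R) ^ 2 := by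
      rw [mul_pow, Real.sq_sqrt hR0.le]
      exact hQ
    have h2 : 0 ≤ r * √R := by positivity
    nlinarith
  have hQs : Q = (r * √R) ^ 2 := by rw [mul_pow, Real.sq_sqrt hR0.le]
  have hrinv : 1 / √R ≤ r := by
    rw [div_le_iff₀ hs]
    exact hrs
  -- the caps
  set F : ι × κ → E n → ℝ≥0∞ := fun c ξ => ‖∫ p : E k × E m,
    (th (r⁻¹ • (p - (t c.1, zc c.2))) : ℂ) * b p *
      Complex.exp (((-⟪ξ, X p⟫ : ℝ) : ℂ) * Complex.I)‖ₑ ^ 2 with hF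
  obtain ⟨sI, hsI, hcI⟩ := fin_sep t hr ht p0.1 δ (hδ00.trans hδδ)
  obtain ⟨sJ, hsJ, hcJ⟩ := fin_sep zc hr hzc p0.2 δ (hδ00.trans hδδ)
  have hts : ∀ ξ, ∑' c, F c ξ = ∑ c : ↥(sI ×ˢ sJ), F c ξ := by
    intro ξ
    rw [tsum_eq_sum (s := sI ×ˢ sJ), ← Finset.sum_coe_sort]
    intro c hc
    have h1 : ¬ (‖t c.1 - p0.1‖ ≤ δ ∧ ‖zc c.2 - p0.2‖ ≤ δ) := by
      rw [Finset.mem_product, hsI, hsJ] at hc
      exact hc
    simp only [hF]
    rw [cap_zero hr hρr hb1 hb2 hth0 (t c.1, zc c.2) h1 ξ]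
    simp
  -- the domination
  choose GG hGm hGi hGs hGd using fun i : ↥sI =>
    hdom X hX hXA b p0.2 hbm hbs hbB hb2 R r (t i) hR0 hQ hr hr1
  set Λ0 : ℝ := Q ^ 3 / r with hΛ0
  set Λ : ℝ := c1 * (Q ^ 3 / r) with hΛ
  have hΛ00 : 0 < Λ0 := by positivity
  have hΛsR : √R ≤ Λ := by
    have h1 : √R ≤ Q ^ 3 / r := by
      rw [le_div_iff₀ hr]
      have h2 : √R * r ≤ Q := by
        rw [hQs]
        nlinarith
      exact h2.trans (by nlinarith [one_le_pow₀ hQ (n := 2)])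
    exact h1.trans (le_mul_of_one_le_left (by positivity) hc11)
  have hRr : R * r = Q / r := by
    rw [hQd]
    field_simp
  have hΛΛ : Λ0 + 4 * A2 * R * (ρ * r) ≤ Λ := by
    have h1 : 4 * A2 * R * (ρ * r) = 4 * A2 * ρ * (Q / r) := by
      rw [← hRr]
      ring
    have h2 : Q / r ≤ Q ^ 3 / r := by
      gcongr
      exact le_self_pow₀ hQ (by norm_num)
    rw [h1, hΛ, hΛ0, hc1, add_mul, one_mul]
    gcongr
  have hk := hkak R hR ↥sI (fun i => t i) GG Λ hΛsR (fun i => (hsI _).1 i.2)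
    (fun i j hij => hrinv.trans (ht _ _ fun h => hij (Subtype.ext h))) hGm hGi hGs
  have key := coreBfin (κ := ↥(sI ×ˢ sJ)) (r2 := ρ * r) (cd := Cd * Q ^ (3 * k + 2) * r ^ m)
    (e := Cs * (Q ^ N)⁻¹) (Mo := Mo) hX hδδ hA2 hR0.le hVL hΛΛ (fun i : ↥sI => t i)
    (fun c => zc c.1.2) (fun c => ⟨c.1.1, (Finset.mem_product.1 c.2).1⟩) GG hGm hk
    (fun c ξ => ∫ p : E k × E m, (th (r⁻¹ • (p - (t c.1.1, zc c.1.2))) : ℂ) * b p *
      Complex.exp (((-⟪ξ, X p⟫ : ℝ) : ℂ) * Complex.I)) ?_ ?_ ?_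
  rotate_left
  · -- the overlap
    intro i z
    set S : Finset κ := sJ.filter fun j => ‖zc j - z‖ ≤ ρ * r with hS
    have h1 : ({c : ↥(sI ×ˢ sJ) | (⟨c.1.1, (Finset.mem_product.1 c.2).1⟩ : ↥sI) = i ∧
        ‖z - zc c.1.2‖ ≤ ρ * r} : Set ↥(sI ×ˢ sJ)).ncard ≤ S.card := by
      rw [← Set.ncard_coe_finset]
      refine Set.ncard_le_ncard_of_injOn (fun c => c.1.2) ?_ ?_ (Finset.finite_toSet _)
      · rintro c ⟨_, h2⟩
        rw [hS, Finset.coe_filter]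
        exact ⟨(Finset.mem_product.1 c.2).2, by rwa [norm_sub_rev]⟩
      · rintro c ⟨h2, _⟩ c' ⟨h3, _⟩ h4
        refine Subtype.ext (Prod.ext ?_ h4)
        have h5 := h2.trans h3.symm
        exact congrArg Subtype.val h5
    refine h1.trans ?_
    have h2 := ks_card_sep zc hr hzc z (ρ * r) (by positivity) S fun j hj =>
      (Finset.mem_filter.1 hj).2
    have h3 : 2 * (ρ * r) / r + 1 = 2 * ρ + 1 := by field_simp
    rw [h3] at h2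
    exact_mod_cast h2.trans (Nat.le_ceil _)
  · -- the domination
    intro c ξ hξ
    exact hGd ⟨c.1.1, (Finset.mem_product.1 c.2).1⟩ th hth hth0 hB' (zc c.1.2) ξ hξ
  · -- the non-stationary caps
    intro c ξ hξ hV
    exact hsm X hX hXA b hbs hbB th hth hth0 hB' R r (t c.1.1, zc c.1.2) hQ hr hr1 ξ hξ hV
  refine le_trans (le_of_eq (lintegral_congr fun ξ => congrArg (· ^ 2) (hts ξ))) (key.trans ?_)
  -- the number of caps
  have hcard : (Fintype.card ↥(sI ×ˢ sJ) : ℝ) ≤ (2 * √R) ^ (k + m) := by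
    have h1 : 2 * δ / r + 1 ≤ 2 * √R := by
      have h2 : 1 / r ≤ √R := by
        rw [div_le_iff₀ hr, mul_comm]
        exact hrs
      have h3 : 2 * δ / r = 2 * δ * (1 / r) := by ring
      have h4 : 0 ≤ δ := hδ00.trans hδδ
      have h5 : 1 ≤ √R := Real.one_le_sqrt.2 hR
      have h6 : 2 * δ * (1 / r) ≤ 1 * √R :=
        mul_le_mul (by linarith) h2 (by positivity) (by norm_num)
      rw [h3]
      linarith
    have h0 : 0 ≤ 2 * δ / r + 1 := by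
      have h4 : 0 ≤ δ := hδ00.trans hδδ
      positivity
    rw [Fintype.card_coe, Finset.card_product, Nat.cast_mul, pow_add]
    exact mul_le_mul (hcI.trans (pow_le_pow_left₀ h0 h1 k)) (hcJ.trans (pow_le_pow_left₀ h0 h1 m))
      (Nat.cast_nonneg _) (by positivity)
  have hcardE : (Fintype.card ↥(sI ×ˢ sJ) : ℝ≥0∞) ≤ ENNReal.ofReal ((2 * √R) ^ (k + m)) := by
    rw [← ENNReal.ofReal_natCast]
    exact ENNReal.ofReal_le_ofReal hcard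
  -- the volume
  have hvol : volume {ξ : E n | R / 2 ≤ ‖ξ‖ ∧ ‖ξ‖ ≤ 4 * R} ≤
      ENNReal.ofReal ((4 * R) ^ n * vn) := by
    refine (measure_mono (t := closedBall (0 : E n) (4 * R)) fun ξ hξ => ?_).trans ?_
    · rw [mem_closedBall_zero_iff]
      exact hξ.2
    · rw [Measure.addHaar_closedBall _ _ (by positivity), finrank_euclideanSpace_fin,
        ENNReal.ofReal_mul (by positivity), hvn, ENNReal.ofReal_toReal measure_ball_lt_top.ne]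
  have hΛx : Λ / √R ≤ c1 * Q ^ 3 := by
    rw [hΛ, mul_div_assoc, div_div]
    gcongr
    exact div_le_self (by positivity) hrs
  have hx0 : 0 ≤ Λ / √R := by positivity
  have hr2m : r ^ (2 * m) = Q ^ m * (R ^ m)⁻¹ := by
    rw [hQd, mul_pow, ← pow_mul]
    field_simp
  have hm1 : 2 * (ENNReal.ofReal (Cd * Q ^ (3 * k + 2) * r ^ m) * (Mo : ℝ≥0∞)) ^ 2 *
      ENNReal.ofReal (Ck * (Λ / √R) ^ (2 * m + k) * (1 + Real.log R) * R * (R ^ k)⁻¹) ≤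
      ENNReal.ofReal (2 * (Cd * Mo) ^ 2 * Ck * c1 ^ (2 * m + k) *
        (Q ^ Pk k m * (1 + Real.log R) * R * (R ^ (k + m))⁻¹)) := by
    rw [← ENNReal.ofReal_natCast Mo, ← ENNReal.ofReal_mul (by positivity),
      ← ENNReal.ofReal_pow (by positivity),
      show (2 : ℝ≥0∞) = ENNReal.ofReal 2 by norm_num, ← ENNReal.ofReal_mul (by norm_num),
      ← ENNReal.ofReal_mul (by positivity)]
    refine ENNReal.ofReal_le_ofReal ?_
    calc 2 * (Cd * Q ^ (3 * k + 2) * r ^ m * Mo) ^ 2 *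
          (Ck * (Λ / √R) ^ (2 * m + k) * (1 + Real.log R) * R * (R ^ k)⁻¹) ≤
          2 * (Cd * Q ^ (3 * k + 2) * r ^ m * Mo) ^ 2 *
          (Ck * (c1 * Q ^ 3) ^ (2 * m + k) * (1 + Real.log R) * R * (R ^ k)⁻¹) := by gcongr
      _ = 2 * (Cd * Mo) ^ 2 * Ck * c1 ^ (2 * m + k) * ((Q ^ (3 * k + 2)) ^ 2 * r ^ (2 * m) *
          (Q ^ 3) ^ (2 * m + k) * (1 + Real.log R) * R * (R ^ k)⁻¹) := by
          rw [mul_pow c1, mul_comm 2 m, pow_mul r m 2]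
          ring
      _ = _ := by
          rw [hr2m, Pk, ← pow_mul, ← pow_mul, pow_add R k m, mul_inv]
          have h1 : Q ^ (9 * k + 7 * m + 4) = Q ^ ((3 * k + 2) * 2) * Q ^ m *
              Q ^ (3 * (2 * m + k)) := by
            rw [← pow_add, ← pow_add]
            congr 1
            ring
          rw [h1]
          ring
  have hm2 : 2 * ((Fintype.card ↥(sI ×ˢ sJ) : ℝ≥0∞) *
      ENNReal.ofReal ((Cs * (Q ^ N)⁻¹) ^ 2)) ^ 2 *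
        volume {ξ : E n | R / 2 ≤ ‖ξ‖ ∧ ‖ξ‖ ≤ 4 * R} ≤
      ENNReal.ofReal (2 * 4 ^ (k + m) * Cs ^ 4 * 4 ^ n * vn *
        (R ^ (n + k + m) * (Q ^ N)⁻¹)) := by
    refine (mul_le_mul' (mul_le_mul' le_rfl (pow_le_pow_left' (mul_le_mul' hcardE le_rfl) 2))
      hvol).trans ?_
    rw [← ENNReal.ofReal_mul (by positivity), ← ENNReal.ofReal_pow (by positivity),
      show (2 : ℝ≥0∞) = ENNReal.ofReal 2 by norm_num, ← ENNReal.ofReal_mul (by norm_num),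
      ← ENNReal.ofReal_mul (by positivity)]
    refine ENNReal.ofReal_le_ofReal ?_
    have h1 : (Q ^ N)⁻¹ ≤ 1 := inv_le_one_of_one_le₀ (one_le_pow₀ hQ)
    have h2 : 0 < (Q ^ N)⁻¹ := by positivity
    have h3 : ((Q ^ N)⁻¹) ^ 4 ≤ (Q ^ N)⁻¹ := pow_le_of_le_one h2.le h1 (by norm_num)
    have h4 : ((2 * √R) ^ (k + m)) ^ 2 = 4 ^ (k + m) * R ^ (k + m) := by
      rw [← pow_mul, mul_comm (k + m) 2, pow_mul, mul_pow, Real.sq_sqrt hR0.le, mul_pow]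
      norm_num
    calc 2 * ((2 * √R) ^ (k + m) * (Cs * (Q ^ N)⁻¹) ^ 2) ^ 2 * ((4 * R) ^ n * vn)
        = 2 * ((2 * √R) ^ (k + m)) ^ 2 * Cs ^ 4 * ((Q ^ N)⁻¹) ^ 4 * (4 * R) ^ n * vn := by ring
      _ ≤ 2 * ((2 * √R) ^ (k + m)) ^ 2 * Cs ^ 4 * (Q ^ N)⁻¹ * (4 * R) ^ n * vn := by gcongr
      _ = _ := by
          rw [h4, mul_pow 4 R n, pow_add, pow_add, pow_add]
          ring
  refine (add_le_add hm1 hm2).trans ?_
  rw [← ENNReal.ofReal_add (by positivity) (by positivity)]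
  refine ENNReal.ofReal_le_ofReal ?_
  set a1 : ℝ := 2 * (Cd * Mo) ^ 2 * Ck * c1 ^ (2 * m + k) with ha1
  set a2 : ℝ := 2 * 4 ^ (k + m) * Cs ^ 4 * 4 ^ n * vn with ha2
  have h1 : 0 ≤ a1 := by positivity
  have h2 : 0 ≤ a2 := by positivity
  have h3 : 0 ≤ Q ^ Pk k m * (1 + Real.log R) * R * (R ^ (k + m))⁻¹ := by positivity
  have h4 : 0 ≤ R ^ (n + k + m) * (Q ^ N)⁻¹ := by positivity
  have h5 : ∀ x y : ℝ, 0 ≤ x → 0 ≤ y → a1 * x + a2 * y ≤ (a1 + a2 + 1) * (x + y) := by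
    intro x y hx hy
    nlinarith [mul_nonneg h1 hy, mul_nonneg h2 hx]
  exact h5 _ _ h3 h4

end Pool.Agent.LFK
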