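import Pool.Agent.LF.NSP0
import Pool.Agent.LFK.Df0

/-!
LEAFK row NSPk: non-stationary phase in `z` with a parameter `t` in `R^k`, for one cap.
-/

set_option autoImplicit false

namespace Pool.Agent.LFK

open MeasureTheory Set Metric Pool.Agent.MP_6cbfb8_an
open Pool.Agent.LF (nsp_core)
open scoped Real ContDiff RealInnerProductSpace


/-- The derivatives along a slice. -/
theorem nsp_slice {k m : ℕ} {Φ : E k × E m → ℝ} {j : ℕ} (hΦ : ContDiff ℝ j Φ) (t : E k) (z : E m) :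
    ‖iteratedFDeriv ℝ j (fun z => Φ (t, z)) z‖ ≤ ‖iteratedFDeriv ℝ j Φ (t, z)‖ := by
  have h1 : ContDiff ℝ j (fun w => Φ ((t, 0) + w)) := hΦ.comp (contDiff_const.add contDiff_id)
  have h2 : (fun z => Φ (t, z)) =
      (fun w => Φ ((t, 0) + w)) ∘ (ContinuousLinearMap.inr ℝ (E k) (E m)) := by
    funext y; simp
  rw [h2, ContinuousLinearMap.iteratedFDeriv_comp_right _ h1 z le_rfl]
  refine (ContinuousMultilinearMap.norm_compContinuousLinearMap_le _ _).trans ?_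
  rw [iteratedFDeriv_comp_add_left, Finset.prod_const, Finset.card_univ, Fintype.card_fin]
  have h3 : ((t, 0) : E k × E m) + (ContinuousLinearMap.inr ℝ (E k) (E m)) z = (t, z) := by simp
  rw [h3]
  refine mul_le_of_le_one_right (norm_nonneg _) (pow_le_one₀ (norm_nonneg _) ?_)
  exact ContinuousLinearMap.opNorm_le_bound _ zero_le_one fun y => by
    rw [ContinuousLinearMap.inr_apply, Prod.norm_mk, norm_zero, one_mul]
    exact max_le (norm_nonneg _) le_rfl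

theorem nsp_slice_fderiv {k m : ℕ} {Φ : E k × E m → ℝ} (hΦ : ContDiff ℝ ∞ Φ) (t : E k) (z : E m) :
    fderiv ℝ (fun z => Φ (t, z)) z =
      (fderiv ℝ Φ (t, z)).comp (ContinuousLinearMap.inr ℝ (E k) (E m)) := by
  have h1 : HasFDerivAt Φ (fderiv ℝ Φ (t, z)) (t, z) :=
    (hΦ.differentiable (by simp) (t, z)).hasFDerivAt
  have h2 : HasFDerivAt (fun z : E m => (t, z)) (ContinuousLinearMap.inr ℝ (E k) (E m)) z :=
    hasFDerivAt_prodMk_right t z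
  exact (h1.comp z h2).fderiv

/-- Non-stationary phase in `z`, uniformly in the parameter `t`. -/
theorem nsp_abs (k m N : ℕ) (ρ : ℝ) (hρ : 1 ≤ ρ) : ∃ C : ℝ, 0 ≤ C ∧ ∀ (M Bd R : ℝ)
    (b : E k × E m → ℂ) (Φ : E k × E m → ℝ) (tc : E k) (zc : E m), 1 ≤ M → 0 ≤ Bd → 1 ≤ R →
    ContDiff ℝ ∞ Φ → (∀ j, 2 ≤ j → j ≤ N + 2 → ∀ p, ‖iteratedFDeriv ℝ j Φ p‖ ≤ M * R) →
    (∀ t, ContDiff ℝ N fun z => b (t, z)) → (∀ t z, ρ / √R < ‖t - tc‖ → b (t, z) = 0) →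
    (∀ t z, ρ / √R < ‖z - zc‖ → b (t, z) = 0) →
    (∀ j ≤ N, ∀ t z, ‖iteratedFDeriv ℝ j (fun z => b (t, z)) z‖ ≤ Bd * √R ^ j) →
    ‖∫ p, b p * Complex.exp ((Φ p : ℂ) * Complex.I)‖ ≤
      C * Bd * M ^ (2 * N) * (1 / √R) ^ (m + k) *
        (1 / (1 + ‖(fderiv ℝ Φ (tc, zc)).comp (ContinuousLinearMap.inr ℝ (E k) (E m))‖ / √R)) ^ N := by
  obtain ⟨C, hC, hcore⟩ := nsp_core m N ρ hρ
  set vb : ℝ := (volume : Measure (E k)).real (ball 0 1) with hvb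
  refine ⟨C * (2 * ρ) ^ N * (vb * ρ ^ k), by positivity, ?_⟩
  intro M Bd R b Φ tc zc hM hBd hR hΦ hΦb hbN hbt hbz hbd
  have hR0 : (0 : ℝ) < √R := Real.sqrt_pos.2 (by linarith)
  have hR1 : (1 : ℝ) ≤ √R := Real.one_le_sqrt.2 hR
  set l : ℝ := 1 / √R with hl
  have hl0 : 0 < l := by positivity
  have hl1 : l ≤ 1 := by rw [hl, div_le_one hR0]; exact hR1
  have hl2 : (l ^ 2)⁻¹ = R := by
    rw [hl, one_div, inv_pow, Real.sq_sqrt (by linarith), inv_inv]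
  have hlj : ∀ j : ℕ, (l ^ j)⁻¹ = √R ^ j := by
    intro j
    rw [hl, one_div, inv_pow, inv_inv]
  have hρl : ρ / √R = ρ * l := by rw [hl, mul_one_div]
  set x : ℝ := ‖(fderiv ℝ Φ (tc, zc)).comp (ContinuousLinearMap.inr ℝ (E k) (E m))‖ with hx
  have hx0 : 0 ≤ x := norm_nonneg _
  have hxl : x / √R = l * x := by rw [hl]; ring
  rw [hxl]
  have hρM : 1 ≤ ρ * M := one_le_mul_of_one_le_of_one_le hρ hM
  by_cases hint : Integrable (fun p : E k × E m => b p * Complex.exp ((Φ p : ℂ) * Complex.I))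
  swap
  · rw [integral_undef hint, norm_zero]
    positivity
  rw [Measure.volume_eq_prod] at hint ⊢
  rw [integral_prod _ hint]
  -- the bound for one `t`
  have hone : ∀ t, ‖t - tc‖ ≤ ρ * l → ‖∫ z, b (t, z) * Complex.exp ((Φ (t, z) : ℂ) * Complex.I)‖ ≤
      C * Bd * M ^ N * l ^ m * ((2 * ρ * M) ^ N * (1 / (1 + l * x)) ^ N) := by
    intro t ht
    have hΦt : ContDiff ℝ ∞ fun z : E m => Φ (t, z) :=
      hΦ.comp (contDiff_const.prodMk contDiff_id)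
    have h1 := hcore Bd M l (fun z => b (t, z)) (fun z => Φ (t, z)) zc hBd hM hl0 hl1 (hbN t) hΦt
      (fun z hz => hbz t z (by rwa [hρl])) (fun j hj z => by rw [hlj]; exact hbd j hj t z)
      (fun j hj1 hj2 z _ => by
        rw [hl2]
        exact (nsp_slice (hΦ.of_le (by exact_mod_cast le_top)) t z).trans (hΦb j hj1 hj2 (t, z)))
    refine h1.trans ?_
    have h2 : x ≤ ‖fderiv ℝ (fun z => Φ (t, z)) zc‖ + M * R * (ρ * l) := by
      have h3 : ‖fderiv ℝ Φ (tc, zc) - fderiv ℝ Φ (t, zc)‖ ≤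
          M * R * ‖((tc, zc) : E k × E m) - (t, zc)‖ := by
        refine (convex_univ (𝕜 := ℝ)).norm_image_sub_le_of_norm_fderiv_le (𝕜 := ℝ)
          (fun z _ => (hΦ.fderiv_right (m := 1) (by norm_cast)).differentiable (by simp) z)
          (fun z _ => ?_) (mem_univ _) (mem_univ _)
        have h7 : ‖fderiv ℝ (fderiv ℝ Φ) z‖ = ‖iteratedFDeriv ℝ 2 Φ z‖ := by
          rw [← norm_iteratedFDeriv_fderiv, ← norm_iteratedFDeriv_fderiv, norm_iteratedFDeriv_zero]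
        rw [h7]
        exact hΦb 2 le_rfl (by omega) z
      have h4 : ‖((tc, zc) : E k × E m) - (t, zc)‖ = ‖t - tc‖ := by
        rw [Prod.mk_sub_mk, sub_self, Prod.norm_mk, norm_zero, norm_sub_rev]
        exact max_eq_left (norm_nonneg _)
      rw [h4] at h3
      have h5 : (fderiv ℝ Φ (tc, zc)).comp (ContinuousLinearMap.inr ℝ (E k) (E m)) =
          fderiv ℝ (fun z => Φ (t, z)) zc +
            (fderiv ℝ Φ (tc, zc) - fderiv ℝ Φ (t, zc)).comp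
              (ContinuousLinearMap.inr ℝ (E k) (E m)) := by
        rw [nsp_slice_fderiv hΦ, ← ContinuousLinearMap.add_comp, add_sub_cancel]
      rw [hx, h5]
      refine (norm_add_le _ _).trans (add_le_add le_rfl ?_)
      refine (ContinuousLinearMap.opNorm_comp_le _ _).trans ?_
      have h6 : ‖ContinuousLinearMap.inr ℝ (E k) (E m)‖ ≤ 1 :=
        ContinuousLinearMap.opNorm_le_bound _ zero_le_one fun y => by
          rw [ContinuousLinearMap.inr_apply, Prod.norm_mk, norm_zero, one_mul]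
          exact max_le (norm_nonneg _) le_rfl
      refine (mul_le_of_le_one_right (norm_nonneg _) h6).trans (h3.trans ?_)
      have : 0 ≤ M * R := by positivity
      exact mul_le_mul_of_nonneg_left ht this
    have h8 : l * (M * R * (ρ * l)) = ρ * M := by
      have : l * l * R = 1 := by
        rw [← hl2, ← sq]
        exact mul_inv_cancel₀ (by positivity)
      calc l * (M * R * (ρ * l)) = ρ * M * (l * l * R) := by ring
        _ = ρ * M := by rw [this, mul_one]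
    set y : ℝ := ‖fderiv ℝ (fun z => Φ (t, z)) zc‖ with hy
    have hy0 : 0 ≤ y := norm_nonneg _
    have h9 : 1 + l * x ≤ 2 * ρ * M * (1 + l * y) := by
      have h10 : l * x ≤ l * y + ρ * M := by
        rw [← h8, ← mul_add]
        exact mul_le_mul_of_nonneg_left h2 hl0.le
      have h11 : 0 ≤ l * y := by positivity
      nlinarith
    have h12 : 1 / (1 + l * y) ≤ 2 * ρ * M * (1 / (1 + l * x)) := by
      rw [mul_one_div, div_le_div_iff₀ (by positivity) (by positivity), one_mul]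
      exact h9
    have h13 : (1 / (1 + l * y)) ^ N ≤ (2 * ρ * M) ^ N * (1 / (1 + l * x)) ^ N := by
      rw [← mul_pow]
      exact pow_le_pow_left₀ (by positivity) h12 N
    exact mul_le_mul_of_nonneg_left h13 (by positivity)
  -- the integral over `t`
  have hout : ∀ t, t ∉ closedBall tc (ρ * l) →
      ∫ z, b (t, z) * Complex.exp ((Φ (t, z) : ℂ) * Complex.I) = 0 := by
    intro t ht
    rw [mem_closedBall, dist_eq_norm, not_le] at ht
    have : ∀ z : E m, b (t, z) * Complex.exp ((Φ (t, z) : ℂ) * Complex.I) = 0 := by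
      intro z
      rw [hbt t z (by rwa [hρl]), zero_mul]
    simp [this]
  rw [← setIntegral_eq_integral_of_forall_compl_eq_zero hout]
  refine (norm_setIntegral_le_of_norm_le_const measure_closedBall_lt_top
    fun t ht => hone t (by rwa [mem_closedBall, dist_eq_norm] at ht)).trans (le_of_eq ?_)
  have hvol : (volume : Measure (E k)).real (closedBall tc (ρ * l)) = vb * (ρ * l) ^ k := by
    rw [measureReal_def, Measure.addHaar_closedBall _ _ (by positivity), ENNReal.toReal_mul,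
      ENNReal.toReal_ofReal (by positivity), finrank_euclideanSpace_fin, hvb, measureReal_def]
    ring
  rw [hvol, pow_add l m k, mul_pow ρ l k, mul_pow (2 * ρ) M, two_mul N, pow_add M N N]
  ring

/-- The derivatives of order at least two of an affine function. -/
theorem nsp_affine {P : Type*} [NormedAddCommGroup P] [NormedSpace ℝ P] (L : P →L[ℝ] ℝ) (c : ℝ)
    {j : ℕ} (hj : 2 ≤ j) (p : P) : iteratedFDeriv ℝ j (fun p => L p + c) p = 0 := by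
  obtain ⟨i, rfl⟩ : ∃ i, j = i + 2 := ⟨j - 2, by omega⟩
  have h8 : ‖iteratedFDeriv ℝ (i + 2) (fun p => L p + c) p‖ = 0 := by
    rw [← norm_iteratedFDeriv_fderiv]
    have h9 : fderiv ℝ (fun p => L p + c) = fun _ => L := by
      funext y
      exact (L.hasFDerivAt.add_const c).fderiv
    rw [h9, iteratedFDeriv_const_of_ne (by omega)]
    simp
  exact norm_eq_zero.1 h8

/-- Non-stationary phase for a cap, the amplitude modulated at the scale of the cap. -/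
theorem nsp_l (k m n N : ℕ) (ρ A L : ℝ) (hρ : 1 ≤ ρ) : ∃ C : ℝ, 0 ≤ C ∧
    ∀ (X : E k × E m → E n), ContDiff ℝ ∞ X → (∀ j ≤ N + 2, ∀ p, ‖iteratedFDeriv ℝ j X p‖ ≤ A) →
    ∀ (b : E k × E m → ℂ) (tc : E k) (zc : E m) (R Bd : ℝ), 1 ≤ R → 0 ≤ Bd →
    (∀ t, ContDiff ℝ N fun z => b (t, z)) → (∀ t z, ρ / √R < ‖t - tc‖ → b (t, z) = 0) →
    (∀ t z, ρ / √R < ‖z - zc‖ → b (t, z) = 0) →
    (∀ j ≤ N, ∀ t z, ‖iteratedFDeriv ℝ j (fun z => b (t, z)) z‖ ≤ Bd * √R ^ j) →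
    ∀ (κ : ℝ) (ξ : E n) (l1 : E k) (l2 : E m), |κ| * ‖ξ‖ ≤ L * R →
      ‖∫ p, b p * Complex.exp (((κ * ⟪ξ, X p⟫ + √R * (⟪l1, p.1 - tc⟫ + ⟪l2, p.2 - zc⟫) : ℝ) : ℂ) *
          Complex.I)‖ ≤
        C * Bd * (1 / √R) ^ (m + k) * (1 + ‖l2‖) ^ N *
          (1 / (1 + |κ| * ‖Vw X ξ (tc, zc)‖ / √R)) ^ N := by
  obtain ⟨C, hC, habs⟩ := nsp_abs k m N ρ hρ
  refine ⟨C * (1 + |L| * |A|) ^ (2 * N), by positivity, ?_⟩
  intro X hX hXb b tc zc R Bd hR hBd hbN hbt hbz hbd κ ξ l1 l2 hξ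
  have hs : 0 < √R := Real.sqrt_pos.2 (by linarith)
  have hM : 1 ≤ 1 + |L| * |A| := by
    have : 0 ≤ |L| * |A| := by positivity
    linarith
  have hΦ1 : ContDiff ℝ ∞ fun p => κ * ⟪ξ, X p⟫ := contDiff_const.mul (contDiff_const.inner ℝ hX)
  set Λ : E k × E m →L[ℝ] ℝ := √R • ((innerSL ℝ l1).comp (ContinuousLinearMap.fst ℝ (E k) (E m)) +
    (innerSL ℝ l2).comp (ContinuousLinearMap.snd ℝ (E k) (E m))) with hΛ
  set c0 : ℝ := -(√R * (⟪l1, tc⟫ + ⟪l2, zc⟫)) with hc0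
  have hphase : (fun p : E k × E m =>
      κ * ⟪ξ, X p⟫ + √R * (⟪l1, p.1 - tc⟫ + ⟪l2, p.2 - zc⟫)) =
      fun p => κ * ⟪ξ, X p⟫ + (Λ p + c0) := by
    funext p
    rw [hΛ, hc0]
    simp only [smul_apply, add_apply, ContinuousLinearMap.comp_apply, innerSL_apply_apply,
      ContinuousLinearMap.coe_fst', ContinuousLinearMap.coe_snd', smul_eq_mul, inner_sub_right]
    ring
  have hΦ2 : ContDiff ℝ ∞ fun p => Λ p + c0 := Λ.contDiff.add contDiff_const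
  have hΦ : ContDiff ℝ ∞ fun p : E k × E m =>
      κ * ⟪ξ, X p⟫ + √R * (⟪l1, p.1 - tc⟫ + ⟪l2, p.2 - zc⟫) := by
    rw [hphase]
    exact hΦ1.add hΦ2
  have hcomp : (fun p => κ * ⟪ξ, X p⟫) = (κ • innerSL ℝ ξ) ∘ X := by
    funext p
    simp
  have hnorm : ‖κ • innerSL ℝ ξ‖ ≤ |L| * R := by
    rw [norm_smul, innerSL_apply_norm, Real.norm_eq_abs]
    exact hξ.trans (mul_le_mul_of_nonneg_right (le_abs_self L) (by linarith))
  have h1 := habs (1 + |L| * |A|) Bd R b (fun p : E k × E m =>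
      κ * ⟪ξ, X p⟫ + √R * (⟪l1, p.1 - tc⟫ + ⟪l2, p.2 - zc⟫)) tc zc hM hBd hR hΦ
    (fun j hj2 hj p => by
      have hj' : ((j : ℕ) : ℕ∞ω) ≤ ∞ := by exact_mod_cast le_top
      rw [hphase, fun_iteratedFDeriv_add_apply (hΦ1.of_le hj').contDiffAt
        (hΦ2.of_le hj').contDiffAt, nsp_affine Λ c0 hj2 p, add_zero, hcomp]
      refine (ContinuousLinearMap.norm_iteratedFDeriv_comp_left _
        (hX.contDiffAt.of_le (by exact_mod_cast le_top)) le_rfl).trans ?_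
      calc ‖κ • innerSL ℝ ξ‖ * ‖iteratedFDeriv ℝ j X p‖ ≤ |L| * R * |A| :=
            mul_le_mul hnorm ((hXb j hj p).trans (le_abs_self A)) (norm_nonneg _) (by positivity)
        _ ≤ (1 + |L| * |A|) * R := by nlinarith)
    hbN hbt hbz hbd
  set V : E m := Vw X ξ (tc, zc) with hV
  have h2 : (fderiv ℝ (fun p : E k × E m =>
      κ * ⟪ξ, X p⟫ + √R * (⟪l1, p.1 - tc⟫ + ⟪l2, p.2 - zc⟫)) (tc, zc)).comp
      (ContinuousLinearMap.inr ℝ (E k) (E m)) = κ • innerSL ℝ V + √R • innerSL ℝ l2 := by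
    have h4 : HasFDerivAt (fun p => κ * ⟪ξ, X p⟫)
        ((κ • innerSL ℝ ξ).comp (fderiv ℝ X (tc, zc))) (tc, zc) := by
      rw [hcomp]
      exact ((κ • innerSL ℝ ξ).hasFDerivAt).comp _
        ((hX.differentiable (by simp)) (tc, zc)).hasFDerivAt
    have h5 : HasFDerivAt (fun p => κ * ⟪ξ, X p⟫ + (Λ p + c0))
        ((κ • innerSL ℝ ξ).comp (fderiv ℝ X (tc, zc)) + Λ) (tc, zc) :=
      h4.add (Λ.hasFDerivAt.add_const c0 : HasFDerivAt (fun p => Λ p + c0) Λ (tc, zc))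
    rw [hphase, h5.fderiv]
    ext y
    simp only [ContinuousLinearMap.comp_apply, smul_apply, smul_eq_mul, add_apply,
      innerSL_apply_apply, hV, Vw, ContinuousLinearMap.adjoint_inner_left, Xz, hΛ,
      ContinuousLinearMap.coe_fst', ContinuousLinearMap.coe_snd', ContinuousLinearMap.inr_apply,
      inner_zero_right, zero_add]
  rw [h2] at h1
  refine h1.trans ?_
  have hx : |κ| * ‖V‖ - √R * ‖l2‖ ≤ ‖κ • innerSL ℝ V + √R • innerSL ℝ l2‖ := by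
    have h6 := norm_sub_le (κ • innerSL ℝ V + √R • innerSL ℝ l2) (√R • innerSL ℝ l2)
    rw [add_sub_cancel_right, norm_smul, norm_smul, innerSL_apply_norm, innerSL_apply_norm,
      Real.norm_eq_abs, Real.norm_eq_abs, abs_of_pos hs] at h6
    linarith
  set x : ℝ := ‖κ • innerSL ℝ V + √R • innerSL ℝ l2‖ with hxd
  have hx0 : 0 ≤ x := norm_nonneg _
  have hkey : 1 / (1 + x / √R) ≤ (1 + ‖l2‖) * (1 / (1 + |κ| * ‖V‖ / √R)) := by
    rw [mul_one_div, div_le_div_iff₀ (by positivity) (by positivity), one_mul]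
    have h7 : |κ| * ‖V‖ / √R ≤ x / √R + ‖l2‖ := by
      rw [div_add' _ _ _ hs.ne', div_le_div_iff_of_pos_right hs]
      linarith
    have h8 : 0 ≤ x / √R := by positivity
    have h9 := norm_nonneg l2
    nlinarith
  have hpow : (1 / (1 + x / √R)) ^ N ≤
      (1 + ‖l2‖) ^ N * (1 / (1 + |κ| * ‖V‖ / √R)) ^ N := by
    rw [← mul_pow]
    exact pow_le_pow_left₀ (by positivity) hkey N
  calc C * Bd * (1 + |L| * |A|) ^ (2 * N) * (1 / √R) ^ (m + k) * (1 / (1 + x / √R)) ^ N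
      ≤ C * Bd * (1 + |L| * |A|) ^ (2 * N) * (1 / √R) ^ (m + k) *
          ((1 + ‖l2‖) ^ N * (1 / (1 + |κ| * ‖V‖ / √R)) ^ N) := by gcongr
    _ = _ := by ring

/-- Non-stationary phase for a cap. -/
theorem nsp (k m n N : ℕ) (ρ A L : ℝ) (hρ : 1 ≤ ρ) : ∃ C : ℝ, 0 ≤ C ∧ ∀ (X : E k × E m → E n),
    ContDiff ℝ ∞ X → (∀ j ≤ N + 2, ∀ p, ‖iteratedFDeriv ℝ j X p‖ ≤ A) →
    ∀ (b : E k × E m → ℂ) (tc : E k) (zc : E m) (R Bd : ℝ), 1 ≤ R → 0 ≤ Bd →
    (∀ t, ContDiff ℝ N fun z => b (t, z)) → (∀ t z, ρ / √R < ‖t - tc‖ → b (t, z) = 0) →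
    (∀ t z, ρ / √R < ‖z - zc‖ → b (t, z) = 0) →
    (∀ j ≤ N, ∀ t z, ‖iteratedFDeriv ℝ j (fun z => b (t, z)) z‖ ≤ Bd * √R ^ j) →
    ∀ (κ : ℝ) (ξ : E n), |κ| * ‖ξ‖ ≤ L * R →
      ‖∫ p, b p * Complex.exp (((κ * ⟪ξ, X p⟫ : ℝ) : ℂ) * Complex.I)‖ ≤
        C * Bd * (1 / √R) ^ (m + k) * (1 / (1 + |κ| * ‖Vw X ξ (tc, zc)‖ / √R)) ^ N := by
  obtain ⟨C, hC, h⟩ := nsp_l k m n N ρ A L hρ
  refine ⟨C, hC, ?_⟩
  intro X hX hXb b tc zc R Bd hR hBd hbN hbt hbz hbd κ ξ hξ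
  have h1 := h X hX hXb b tc zc R Bd hR hBd hbN hbt hbz hbd κ ξ 0 0 hξ
  simpa using h1

/-- The form used for a packet: `V` larger than `K √R` at the centre, the packet modulated. -/
theorem nsp_far (k m n N : ℕ) (ρ A L : ℝ) (hρ : 1 ≤ ρ) : ∃ C : ℝ, 0 ≤ C ∧
    ∀ (X : E k × E m → E n), ContDiff ℝ ∞ X → (∀ j ≤ N + 2, ∀ p, ‖iteratedFDeriv ℝ j X p‖ ≤ A) →
    ∀ (b : E k × E m → ℂ) (tc : E k) (zc : E m) (R Bd K : ℝ), 1 ≤ R → 0 ≤ Bd → 0 < K →
    (∀ t, ContDiff ℝ N fun z => b (t, z)) → (∀ t z, ρ / √R < ‖t - tc‖ → b (t, z) = 0) →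
    (∀ t z, ρ / √R < ‖z - zc‖ → b (t, z) = 0) →
    (∀ j ≤ N, ∀ t z, ‖iteratedFDeriv ℝ j (fun z => b (t, z)) z‖ ≤ Bd * √R ^ j) →
    ∀ (ξ : E n) (l1 : E k) (l2 : E m), ‖ξ‖ ≤ L * R → K * √R ≤ ‖Vw X ξ (tc, zc)‖ →
      ‖∫ p, b p * Complex.exp (((√R * (⟪l1, p.1 - tc⟫ + ⟪l2, p.2 - zc⟫) : ℝ) : ℂ) * Complex.I) *
          Complex.exp (((-⟪ξ, X p⟫ : ℝ) : ℂ) * Complex.I)‖ ≤
        C * Bd * (1 + ‖l2‖) ^ N * (K ^ N)⁻¹ := by
  obtain ⟨C, hC, h⟩ := nsp_l k m n N ρ A L hρ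
  refine ⟨C, hC, ?_⟩
  intro X hX hXb b tc zc R Bd K hR hBd hK hbN hbt hbz hbd ξ l1 l2 hξ hV
  have hs : 0 < √R := Real.sqrt_pos.2 (by linarith)
  have hs1 : 1 ≤ √R := Real.one_le_sqrt.2 hR
  have h1 := h X hX hXb b tc zc R Bd hR hBd hbN hbt hbz hbd (-1) ξ l1 l2 (by simpa using hξ)
  have e1 : ∫ p, b p * Complex.exp (((√R * (⟪l1, p.1 - tc⟫ + ⟪l2, p.2 - zc⟫) : ℝ) : ℂ) *
      Complex.I) * Complex.exp (((-⟪ξ, X p⟫ : ℝ) : ℂ) * Complex.I) =
      ∫ p, b p * Complex.exp ((((-1) * ⟪ξ, X p⟫ +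
        √R * (⟪l1, p.1 - tc⟫ + ⟪l2, p.2 - zc⟫) : ℝ) : ℂ) * Complex.I) := by
    refine integral_congr_ae (Filter.Eventually.of_forall fun p => ?_)
    simp only
    rw [mul_assoc, ← Complex.exp_add]
    congr 2
    push_cast
    ring
  rw [e1]
  refine h1.trans ?_
  have h3 : K ≤ |(-1 : ℝ)| * ‖Vw X ξ (tc, zc)‖ / √R := by
    rw [abs_neg, abs_one, one_mul, le_div_iff₀ hs]
    exact hV
  have h4 : 1 / (1 + |(-1 : ℝ)| * ‖Vw X ξ (tc, zc)‖ / √R) ≤ 1 / K := by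
    refine one_div_le_one_div_of_le hK ?_
    linarith
  have h5 : 0 ≤ 1 / (1 + |(-1 : ℝ)| * ‖Vw X ξ (tc, zc)‖ / √R) := by positivity
  have h6 : (1 / √R) ^ (m + k) ≤ 1 := pow_le_one₀ (by positivity) (by rwa [div_le_one hs])
  calc C * Bd * (1 / √R) ^ (m + k) * (1 + ‖l2‖) ^ N *
        (1 / (1 + |(-1 : ℝ)| * ‖Vw X ξ (tc, zc)‖ / √R)) ^ N ≤
        C * Bd * 1 * (1 + ‖l2‖) ^ N * (1 / K) ^ N := by gcongr
    _ = C * Bd * (1 + ‖l2‖) ^ N * (K ^ N)⁻¹ := by rw [one_div, inv_pow, mul_one]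

end Pool.Agent.LFK
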