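import Pool.Agent.LFK.DOMK4
import Pool.Agent.LFK.NSP
import Pool.Agent.LF.COREB0
import Pool.Agent.LFK.KAK3

/-!
LEAFK row COREBk: the caps of a grid of mesh `r`, the non-stationary ones, and the square function
of a finite family.
-/

set_option autoImplicit false

namespace Pool.Agent.LFK

open MeasureTheory Set Metric Pool.Agent.MP_6cbfb8_an
open scoped ENNReal Real ContDiff RealInnerProductSpace

/-- Bounds of the derivatives of a cap along the leaves. -/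
theorem bck_bound (k m N : ℕ) (Bθ B : ℕ → ℝ) : ∃ Bd : ℝ, 0 ≤ Bd ∧
    ∀ th : E k × E m → ℝ, ContDiff ℝ ∞ th → (∀ j p, ‖iteratedFDeriv ℝ j th p‖ ≤ Bθ j) →
      ∀ b : E k × E m → ℂ, (∀ t, ContDiff ℝ ∞ fun z => b (t, z)) →
      (∀ j t z, ‖iteratedFDeriv ℝ j (fun z => b (t, z)) z‖ ≤ B j) →
      ∀ (q : E k × E m) (r : ℝ), 0 < r → r ≤ 1 →
        (∀ t, ContDiff ℝ ∞ fun z => ((th (r⁻¹ • ((t, z) - q)) : ℝ) : ℂ) * b (t, z)) ∧
        ∀ j ≤ N, ∀ t z, ‖iteratedFDeriv ℝ j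
          (fun z => ((th (r⁻¹ • ((t, z) - q)) : ℝ) : ℂ) * b (t, z)) z‖ ≤ Bd * (1 / r) ^ j := by
  refine ⟨∑ j ∈ Finset.range (N + 1), ∑ i ∈ Finset.range (j + 1),
    (j.choose i : ℝ) * |Bθ i| * |B (j - i)|, by positivity, ?_⟩
  intro th hth hB' b hb hB q r hr hr1
  have h1r : 1 ≤ 1 / r := by rwa [one_le_div hr]
  have hF : ContDiff ℝ ∞ fun p : E k × E m => th (r⁻¹ • (p - q)) :=
    hth.comp ((contDiff_id.sub contDiff_const).const_smul r⁻¹)
  have huc : ∀ t, ContDiff ℝ ∞ fun z : E m => th (r⁻¹ • ((t, z) - q)) := fun t =>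
    hF.comp (contDiff_const.prodMk contDiff_id)
  have e1 : ∀ t, (fun z => ((th (r⁻¹ • ((t, z) - q)) : ℝ) : ℂ) * b (t, z)) =
      fun z => th (r⁻¹ • ((t, z) - q)) • b (t, z) := fun t => by
    funext z
    rw [Complex.real_smul]
  have hub : ∀ t i x, ‖iteratedFDeriv ℝ i (fun z : E m => th (r⁻¹ • ((t, z) - q))) x‖ ≤
      |Bθ i| * (1 / r) ^ i := by
    intro t i x
    refine (nsp_slice (Φ := fun p : E k × E m => th (r⁻¹ • (p - q)))
      (hF.of_le (by exact_mod_cast le_top)) t x).trans ?_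
    refine (LF.caps_scale hth hr q i (hB' i) (t, x)).trans ?_
    rw [one_div, inv_pow, ← div_eq_mul_inv]
    gcongr
    exact le_abs_self _
  refine ⟨fun t => ?_, fun j hj t z => ?_⟩
  · rw [e1]
    exact (huc t).smul (hb t)
  rw [e1]
  refine (norm_iteratedFDeriv_smul_le (huc t) (hb t) z (n := j)
    (by exact_mod_cast le_top)).trans ?_
  calc ∑ i ∈ Finset.range (j + 1), (j.choose i : ℝ) *
        ‖iteratedFDeriv ℝ i (fun z : E m => th (r⁻¹ • ((t, z) - q))) z‖ *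
        ‖iteratedFDeriv ℝ (j - i) (fun z => b (t, z)) z‖ ≤
        ∑ i ∈ Finset.range (j + 1), (j.choose i : ℝ) * |Bθ i| * |B (j - i)| * (1 / r) ^ j := by
        refine Finset.sum_le_sum fun i hi => ?_
        have hij : i ≤ j := Nat.lt_succ_iff.1 (Finset.mem_range.1 hi)
        have h5 : ‖iteratedFDeriv ℝ (j - i) (fun z => b (t, z)) z‖ ≤
            |B (j - i)| * (1 / r) ^ (j - i) := by
          refine (hB (j - i) t z).trans ((le_abs_self _).trans ?_)
          exact le_mul_of_one_le_right (abs_nonneg _) (one_le_pow₀ h1r)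
        calc (j.choose i : ℝ) *
              ‖iteratedFDeriv ℝ i (fun z : E m => th (r⁻¹ • ((t, z) - q))) z‖ *
              ‖iteratedFDeriv ℝ (j - i) (fun z => b (t, z)) z‖ ≤
              (j.choose i : ℝ) * (|Bθ i| * (1 / r) ^ i) * (|B (j - i)| * (1 / r) ^ (j - i)) :=
              mul_le_mul (mul_le_mul_of_nonneg_left (hub t i z) (Nat.cast_nonneg _)) h5
                (norm_nonneg _) (by positivity)
          _ = (j.choose i : ℝ) * |Bθ i| * |B (j - i)| * ((1 / r) ^ i * (1 / r) ^ (j - i)) := by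
              ring
          _ = (j.choose i : ℝ) * |Bθ i| * |B (j - i)| * (1 / r) ^ j := by
              rw [← pow_add, Nat.add_sub_cancel' hij]
    _ = (∑ i ∈ Finset.range (j + 1), (j.choose i : ℝ) * |Bθ i| * |B (j - i)|) * (1 / r) ^ j := by
        rw [Finset.sum_mul]
    _ ≤ _ := by
        gcongr
        refine Finset.single_le_sum (f := fun j => ∑ i ∈ Finset.range (j + 1),
          (j.choose i : ℝ) * |Bθ i| * |B (j - i)|) (fun j _ => by positivity) ?_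
        exact Finset.mem_range.2 (by omega)

/-- The gradient of the phase along the leaves. -/
theorem phase_inr {k m n : ℕ} {X : E k × E m → E n} (hX : ContDiff ℝ ∞ X) (ξ : E n)
    (q : E k × E m) :
    ‖(fderiv ℝ (fun p => -⟪ξ, X p⟫) q).comp (ContinuousLinearMap.inr ℝ (E k) (E m))‖ =
      ‖Vw X ξ q‖ := by
  have h1 : HasFDerivAt (fun p => -⟪ξ, X p⟫) (-((innerSL ℝ ξ).comp (fderiv ℝ X q))) q :=
    (((innerSL ℝ ξ).hasFDerivAt).comp q ((hX.differentiable (by simp)) q).hasFDerivAt).neg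
  have h2 : (fderiv ℝ (fun p => -⟪ξ, X p⟫) q).comp (ContinuousLinearMap.inr ℝ (E k) (E m)) =
      -(innerSL ℝ (Vw X ξ q)) := by
    rw [h1.fderiv]
    ext y
    simp only [ContinuousLinearMap.comp_apply, neg_apply, innerSL_apply_apply, Vw,
      ContinuousLinearMap.adjoint_inner_left, Xz, ContinuousLinearMap.inr_apply]
  rw [h2, norm_neg, innerSL_apply_norm]

/-- A cap of radius `ρ r` at a frequency whose gradient along the leaves is large. -/
theorem capk_small (k m n N : ℕ) (A Bθ B : ℕ → ℝ) (ρ : ℝ) (hρ : 1 ≤ ρ) : ∃ C : ℝ, 0 ≤ C ∧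
    ∀ X : E k × E m → E n, ContDiff ℝ ∞ X → (∀ j p, ‖iteratedFDeriv ℝ j X p‖ ≤ A j) →
    ∀ b : E k × E m → ℂ, (∀ t, ContDiff ℝ ∞ fun z => b (t, z)) →
    (∀ j t z, ‖iteratedFDeriv ℝ j (fun z => b (t, z)) z‖ ≤ B j) →
    ∀ th : E k × E m → ℝ, ContDiff ℝ ∞ th → (∀ p, ρ < ‖p‖ → th p = 0) →
    (∀ j p, ‖iteratedFDeriv ℝ j th p‖ ≤ Bθ j) →
    ∀ (R r : ℝ) (q : E k × E m), 1 ≤ r ^ 2 * R → 0 < r → r ≤ 1 → ∀ ξ : E n, ‖ξ‖ ≤ 4 * R →
      (r ^ 2 * R) ^ 3 / r ≤ ‖Vw X ξ q‖ →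
      ‖∫ p : E k × E m, (th (r⁻¹ • (p - q)) : ℂ) * b p *
        Complex.exp (((-⟪ξ, X p⟫ : ℝ) : ℂ) * Complex.I)‖ ≤ C * ((r ^ 2 * R) ^ N)⁻¹ := by
  obtain ⟨C, hC, habs⟩ := nsp_abs k m N ρ hρ
  obtain ⟨Bd, hBd, hbd⟩ := bck_bound k m N Bθ B
  set A1 : ℝ := 1 + 4 * ∑ j ∈ Finset.range (N + 3), |A j| with hA1
  have hs0 : 0 ≤ ∑ j ∈ Finset.range (N + 3), |A j| := Finset.sum_nonneg fun j _ => abs_nonneg _
  have hA11 : 1 ≤ A1 := by linarith
  refine ⟨C * Bd * A1 ^ (2 * N), by positivity, ?_⟩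
  intro X hX hXA b hb hB th hth hth0 hB' R r q hQ hr hr1 ξ hξ hV
  set Q : ℝ := r ^ 2 * R with hQd
  have hQ0 : 0 < Q := by linarith
  have hR' : (1 : ℝ) ≤ (r ^ 2)⁻¹ := by
    rw [one_le_inv₀ (by positivity)]
    exact pow_le_one₀ hr.le hr1
  have hsR' : √((r ^ 2)⁻¹) = r⁻¹ := sqrt_inv_sq hr
  have hM : 1 ≤ A1 * Q := one_le_mul_of_one_le_of_one_le hA11 hQ
  have hΦ : ContDiff ℝ ∞ fun p => -⟪ξ, X p⟫ := (contDiff_const.inner ℝ hX).neg
  obtain ⟨hs, hd⟩ := hbd th hth hB' b hb hB q r hr hr1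
  have hRQ : R = Q * (r ^ 2)⁻¹ := by
    rw [hQd]
    field_simp
  have h1 := habs (A1 * Q) Bd (r ^ 2)⁻¹ (fun p => ((th (r⁻¹ • (p - q)) : ℝ) : ℂ) * b p)
    (fun p => -⟪ξ, X p⟫) q.1 q.2 hM hBd hR' hΦ (fun j _ hj p => by
      have hcomp : (fun p => -⟪ξ, X p⟫) = (-(innerSL ℝ ξ)) ∘ X := by
        funext p
        simp
      rw [hcomp]
      refine (ContinuousLinearMap.norm_iteratedFDeriv_comp_left _
        (hX.contDiffAt.of_le (by exact_mod_cast le_top)) le_rfl).trans ?_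
      rw [norm_neg, innerSL_apply_norm]
      have h2 : ‖iteratedFDeriv ℝ j X p‖ ≤ ∑ j ∈ Finset.range (N + 3), |A j| :=
        (hXA j p).trans ((le_abs_self _).trans (Finset.single_le_sum (f := fun j => |A j|)
          (fun j _ => abs_nonneg _) (Finset.mem_range.2 (by omega))))
      calc ‖ξ‖ * ‖iteratedFDeriv ℝ j X p‖ ≤
            (4 * R) * ∑ j ∈ Finset.range (N + 3), |A j| :=
            mul_le_mul hξ h2 (norm_nonneg _) ((norm_nonneg _).trans hξ)
        _ = (4 * ∑ j ∈ Finset.range (N + 3), |A j|) * (Q * (r ^ 2)⁻¹) := by rw [← hRQ]; ring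
        _ ≤ A1 * (Q * (r ^ 2)⁻¹) :=
            mul_le_mul_of_nonneg_right (by linarith) (by positivity)
        _ = _ := by ring)
    (fun t => (hs t).of_le (by exact_mod_cast le_top))
    (fun t z h => by
      rw [hsR', div_inv_eq_mul] at h
      have h3 : th (r⁻¹ • ((t, z) - q)) = 0 := by
        refine hth0 _ ?_
        rw [norm_smul, norm_inv, Real.norm_of_nonneg hr.le, lt_inv_mul_iff₀ hr, mul_comm]
        refine h.trans_le ?_
        rw [Prod.norm_def]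
        exact le_max_left _ _
      simp [h3])
    (fun t z h => by
      rw [hsR', div_inv_eq_mul] at h
      have h3 : th (r⁻¹ • ((t, z) - q)) = 0 := by
        refine hth0 _ ?_
        rw [norm_smul, norm_inv, Real.norm_of_nonneg hr.le, lt_inv_mul_iff₀ hr, mul_comm]
        refine h.trans_le ?_
        rw [Prod.norm_def]
        exact le_max_right _ _
      simp [h3])
    (fun j hj t z => by
      have h4 := hd j hj t z
      rw [one_div] at h4
      rw [hsR']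
      exact h4)
  rw [Prod.mk.eta, phase_inr hX ξ q, hsR', one_div, inv_inv, div_inv_eq_mul] at h1
  refine h1.trans ?_
  have h5 : Q ^ 3 ≤ 1 + ‖Vw X ξ q‖ * r := by
    rw [div_le_iff₀ hr] at hV
    linarith
  have h6 : (1 / (1 + ‖Vw X ξ q‖ * r)) ^ N ≤ (1 / Q ^ 3) ^ N :=
    pow_le_pow_left₀ (by positivity) (one_div_le_one_div_of_le (by positivity) h5) N
  have h7 : r ^ (m + k) ≤ 1 := pow_le_one₀ hr.le hr1
  calc C * Bd * (A1 * Q) ^ (2 * N) * r ^ (m + k) * (1 / (1 + ‖Vw X ξ q‖ * r)) ^ N ≤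
        C * Bd * (A1 * Q) ^ (2 * N) * 1 * (1 / Q ^ 3) ^ N := by gcongr
    _ = C * Bd * A1 ^ (2 * N) * (Q ^ (2 * N) * (1 / Q ^ 3) ^ N) := by
        rw [mul_pow]
        ring
    _ = _ := by
        congr 1
        rw [one_div, inv_pow, ← pow_mul, ← div_eq_mul_inv, div_eq_iff (by positivity),
          inv_mul_eq_div, eq_div_iff (by positivity), ← pow_add]
        congr 1
        ring

end Pool.Agent.LFK
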