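import Pool.Agent.LFK.CORB1

/-!
LEAFK row COREBk: the square function of the caps of a grid.
-/

set_option autoImplicit false

namespace Pool.Agent.LFK

open MeasureTheory Set Metric Pool.Agent.MP_6cbfb8_an
open scoped ENNReal Real ContDiff RealInnerProductSpace

/-- The gradient along the leaves is Lipschitz. -/
theorem Vw_lip {k m n : ℕ} {X : E k × E m → E n} (hX : ContDiff ℝ ∞ X) {A2 : ℝ}
    (hA : ∀ p, ‖iteratedFDeriv ℝ 2 X p‖ ≤ A2) (ξ : E n) (p p' : E k × E m) :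
    ‖Vw X ξ p - Vw X ξ p'‖ ≤ A2 * ‖ξ‖ * ‖p - p'‖ := by
  have h1 : ‖fderiv ℝ X p - fderiv ℝ X p'‖ ≤ A2 * ‖p - p'‖ := by
    refine (convex_univ (𝕜 := ℝ)).norm_image_sub_le_of_norm_fderiv_le (𝕜 := ℝ)
      (fun z _ => (hX.fderiv_right (m := 1) (by norm_cast)).differentiable (by simp) z)
      (fun z _ => ?_) (mem_univ _) (mem_univ _)
    have h7 : ‖fderiv ℝ (fderiv ℝ X) z‖ = ‖iteratedFDeriv ℝ 2 X z‖ := by
      rw [← norm_iteratedFDeriv_fderiv, ← norm_iteratedFDeriv_fderiv, norm_iteratedFDeriv_zero]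
    rw [h7]
    exact hA z
  have h2 : Vw X ξ p - Vw X ξ p' = ContinuousLinearMap.adjoint
      ((fderiv ℝ X p - fderiv ℝ X p').comp (ContinuousLinearMap.inr ℝ (E k) (E m))) ξ := by
    rw [Vw, Vw, Xz, Xz, ContinuousLinearMap.sub_comp, map_sub, sub_apply]
  rw [h2]
  refine (ContinuousLinearMap.le_opNorm _ _).trans ?_
  rw [LinearIsometryEquiv.norm_map]
  have h3 : ‖(fderiv ℝ X p - fderiv ℝ X p').comp (ContinuousLinearMap.inr ℝ (E k) (E m))‖ ≤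
      A2 * ‖p - p'‖ := by
    refine (ContinuousLinearMap.opNorm_comp_le _ _).trans ?_
    exact (mul_le_of_le_one_right (norm_nonneg _)
      (ContinuousLinearMap.norm_inr_le_one ..)).trans h1
  calc _ ≤ A2 * ‖p - p'‖ * ‖ξ‖ := mul_le_mul_of_nonneg_right h3 (norm_nonneg _)
    _ = _ := by ring

/-- The square function of a finite family of caps. -/
theorem coreBfin {k m n : ℕ} {X : E k × E m → E n} (hX : ContDiff ℝ ∞ X) {p0 : E k × E m}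
    {δ δ0 R Λ0 Λ e A2 r2 cd : ℝ} {Mo : ℕ} {Y : ℝ≥0∞} (hδ : δ0 ≤ δ)
    (hA2 : 0 ≤ A2) (hR : 0 ≤ R)
    (hVL : ∀ ξ t z z', ‖Vw X ξ (t, z) - Vw X ξ (t, z')‖ ≤ A2 * ‖ξ‖ * ‖z - z'‖)
    (hΛ : Λ0 + 4 * A2 * R * r2 ≤ Λ) {ι κ : Type} [Fintype ι] [Fintype κ] (t : ι → E k)
    (zc : κ → E m) (pr : κ → ι) (g : ι → E k → ℝ≥0∞) (hgm : ∀ i, Measurable (g i))
    (hkak : ∫⁻ ξ in {ξ : E n | R / 2 ≤ ‖ξ‖ ∧ ‖ξ‖ ≤ 4 * R},
      (∑ i, ∫⁻ z in closedBall p0.2 δ,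
        ({z | ‖Vw X ξ (t i, z)‖ ≤ Λ}.indicator fun z => g i (Tw X ξ (t i, z))) z) ^ 2 ≤ Y)
    (f : κ → E n → ℂ)
    (hov : ∀ i z, ({c | pr c = i ∧ ‖z - zc c‖ ≤ r2} : Set κ).ncard ≤ Mo)
    (hdom : ∀ c ξ, ‖ξ‖ ≤ 4 * R → ‖f c ξ‖ₑ ^ 2 ≤ ENNReal.ofReal cd *
      ∫⁻ z in closedBall (zc c) r2 ∩ closedBall p0.2 δ0, g (pr c) (Tw X ξ (t (pr c), z)))
    (hnsp : ∀ c ξ, ‖ξ‖ ≤ 4 * R → Λ0 ≤ ‖Vw X ξ (t (pr c), zc c)‖ → ‖f c ξ‖ ≤ e) :
    ∫⁻ ξ in {ξ : E n | R / 2 ≤ ‖ξ‖ ∧ ‖ξ‖ ≤ 4 * R}, (∑ c, ‖f c ξ‖ₑ ^ 2) ^ 2 ≤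
      2 * (ENNReal.ofReal cd * Mo) ^ 2 * Y + 2 * (Fintype.card κ * ENNReal.ofReal (e ^ 2)) ^ 2 *
        volume {ξ : E n | R / 2 ≤ ‖ξ‖ ∧ ‖ξ‖ ≤ 4 * R} := by
  classical
  set An : Set (E n) := {ξ | R / 2 ≤ ‖ξ‖ ∧ ‖ξ‖ ≤ 4 * R} with hAn
  have hAnm : MeasurableSet An :=
    (measurableSet_le measurable_const measurable_norm).inter
      (measurableSet_le measurable_norm measurable_const)
  set w : ι → E n → E m → ℝ≥0∞ := fun i ξ =>
    {z | ‖Vw X ξ (t i, z)‖ ≤ Λ}.indicator fun z => g i (Tw X ξ (t i, z)) with hw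
  have hVc : ∀ ξ t, Continuous fun z => Vw X ξ (t, z) := fun ξ t =>
    (kak_contVw hX).comp (g := fun x => Vw X x.1 x.2)
      (f := fun z : E m => (ξ, (t, z))) (by fun_prop)
  have hTc : ∀ ξ t, Continuous fun z => Tw X ξ (t, z) := fun ξ t =>
    (kak_contTw hX).comp (g := fun x => Tw X x.1 x.2)
      (f := fun z : E m => (ξ, (t, z))) (by fun_prop)
  have hwm : ∀ i ξ, Measurable (w i ξ) := by
    intro i ξ
    refine ((hgm i).comp (hTc ξ (t i)).measurable).indicator ?_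
    exact (isClosed_le (hVc ξ (t i)).norm continuous_const).measurableSet
  set G : κ → Set (E m) := fun c => closedBall (zc c) r2 ∩ closedBall p0.2 δ0 with hGd
  have hGmeas : ∀ c, MeasurableSet (G c) := fun c =>
    measurableSet_closedBall.inter measurableSet_closedBall
  have hGB : ∀ c, G c ⊆ closedBall p0.2 δ := fun c =>
    inter_subset_right.trans (closedBall_subset_closedBall hδ)
  have hM : ∀ i z, ({c | pr c = i ∧ z ∈ G c} : Set κ).ncard ≤ Mo := by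
    intro i z
    refine le_trans (Set.ncard_le_ncard ?_ (Set.toFinite _)) (hov i z)
    rintro c ⟨h1, h2, _⟩
    refine ⟨h1, ?_⟩
    rwa [mem_closedBall, dist_eq_norm] at h2
  have hF : ∀ c, ∀ ξ ∈ An, ‖f c ξ‖ₑ ^ 2 ≤
      (ENNReal.ofReal cd * ∫⁻ z in G c, w (pr c) ξ z) + ENNReal.ofReal (e ^ 2) := by
    intro c ξ hξ
    by_cases hV : Λ0 ≤ ‖Vw X ξ (t (pr c), zc c)‖
    · refine le_trans ?_ le_add_self
      rw [← ofReal_norm, ← ENNReal.ofReal_pow (norm_nonneg _)]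
      exact ENNReal.ofReal_le_ofReal (pow_le_pow_left₀ (norm_nonneg _) (hnsp c ξ hξ.2 hV) 2)
    · refine le_trans ?_ le_self_add
      push Not at hV
      refine (hdom c ξ hξ.2).trans (le_of_eq ?_)
      congr 1
      refine setLIntegral_congr_fun (hGmeas c) fun z hz => ?_
      have h2 : ‖Vw X ξ (t (pr c), z)‖ ≤ Λ := by
        have h3 := hVL ξ (t (pr c)) z (zc c)
        have h4 : ‖z - zc c‖ ≤ r2 := by
          have := hz.1
          rwa [mem_closedBall, dist_eq_norm] at this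
        have h5 : A2 * ‖ξ‖ * ‖z - zc c‖ ≤ 4 * A2 * R * r2 := by
          calc A2 * ‖ξ‖ * ‖z - zc c‖ ≤ A2 * (4 * R) * r2 := by
                gcongr
                exact hξ.2
            _ = 4 * A2 * R * r2 := by ring
        have h6 : ‖Vw X ξ (t (pr c), z)‖ ≤ ‖Vw X ξ (t (pr c), zc c)‖ +
            ‖Vw X ξ (t (pr c), z) - Vw X ξ (t (pr c), zc c)‖ := by
          have := norm_add_le (Vw X ξ (t (pr c), zc c))
            (Vw X ξ (t (pr c), z) - Vw X ξ (t (pr c), zc c))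
          simpa using this
        linarith
      simp only [hw]
      rw [indicator_of_mem (show z ∈ {z | ‖Vw X ξ (t (pr c), z)‖ ≤ Λ} from h2)]
  have key := LF.corb_abs (volume : Measure (E m)) (volume : Measure (E n)) An hAnm pr G
    (closedBall p0.2 δ) w (fun c ξ => ‖f c ξ‖ₑ ^ 2) Mo (ENNReal.ofReal cd)
    (ENNReal.ofReal (e ^ 2)) ENNReal.ofReal_ne_top hGmeas hGB measurableSet_closedBall hwm hM hF
  refine key.trans (add_le_add_left ?_ _)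
  gcongr

/-- The caps which do not meet the support. -/
theorem cap_zero {k m n : ℕ} {X : E k × E m → E n} {b : E k × E m → ℂ} {p0 : E k × E m}
    {δ δ0 ρ r : ℝ} (hr : 0 < r) (hρ : ρ * r ≤ δ - δ0)
    (hb1 : ∀ t z, δ0 < ‖t - p0.1‖ → b (t, z) = 0)
    (hb2 : ∀ t z, δ0 < ‖z - p0.2‖ → b (t, z) = 0) {th : E k × E m → ℝ}
    (hth : ∀ p, ρ < ‖p‖ → th p = 0) (q : E k × E m)
    (hq : ¬ (‖q.1 - p0.1‖ ≤ δ ∧ ‖q.2 - p0.2‖ ≤ δ)) (ξ : E n) :
    ∫ p : E k × E m, (th (r⁻¹ • (p - q)) : ℂ) * b p *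
        Complex.exp (((-⟪ξ, X p⟫ : ℝ) : ℂ) * Complex.I) = 0 := by
  have h1 : ∀ p : E k × E m, (th (r⁻¹ • (p - q)) : ℂ) * b p *
      Complex.exp (((-⟪ξ, X p⟫ : ℝ) : ℂ) * Complex.I) = 0 := by
    intro p
    by_cases h2 : b p = 0
    · rw [h2]
      ring
    have h3 : ‖p.1 - p0.1‖ ≤ δ0 := by
      by_contra h4
      exact h2 (hb1 p.1 p.2 (not_le.1 h4))
    have h5 : ‖p.2 - p0.2‖ ≤ δ0 := by
      by_contra h4
      exact h2 (hb2 p.1 p.2 (not_le.1 h4))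
    have h6 : th (r⁻¹ • (p - q)) = 0 := by
      refine hth _ ?_
      rw [norm_smul, norm_inv, Real.norm_of_nonneg hr.le, lt_inv_mul_iff₀ hr, mul_comm]
      by_contra h7
      rw [not_lt] at h7
      have h8 : ‖p.1 - q.1‖ ≤ ρ * r := le_trans (by rw [Prod.norm_def]; exact le_max_left _ _) h7
      have h9 : ‖p.2 - q.2‖ ≤ ρ * r := le_trans (by rw [Prod.norm_def]; exact le_max_right _ _) h7
      refine hq ⟨?_, ?_⟩
      · calc ‖q.1 - p0.1‖ = ‖(p.1 - p0.1) - (p.1 - q.1)‖ := by congr 1; abel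
          _ ≤ ‖p.1 - p0.1‖ + ‖p.1 - q.1‖ := norm_sub_le _ _
          _ ≤ δ := by linarith
      · calc ‖q.2 - p0.2‖ = ‖(p.2 - p0.2) - (p.2 - q.2)‖ := by congr 1; abel
          _ ≤ ‖p.2 - p0.2‖ + ‖p.2 - q.2‖ := norm_sub_le _ _
          _ ≤ δ := by linarith
    rw [h6]
    simp
  rw [integral_congr_ae (Filter.Eventually.of_forall h1), integral_zero]

/-- Separated points in a ball are finitely many. -/
theorem fin_sep {k : ℕ} {ι : Type} (t : ι → E k) {h : ℝ} (hh : 0 < h)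
    (hsep : ∀ i j, i ≠ j → h ≤ ‖t i - t j‖) (a : E k) (l : ℝ) (hl : 0 ≤ l) :
    ∃ s : Finset ι, (∀ i, i ∈ s ↔ ‖t i - a‖ ≤ l) ∧ (s.card : ℝ) ≤ (2 * l / h + 1) ^ k := by
  have hfin : {i | ‖t i - a‖ ≤ l}.Finite := by
    by_contra hinf
    obtain ⟨s, hs, hc⟩ := Set.Infinite.exists_subset_card_eq hinf
      (⌈(2 * l / h + 1) ^ k⌉₊ + 1)
    have h1 := ks_card_sep t hh hsep a l hl s fun i hi => hs hi
    rw [hc] at h1
    push_cast at h1
    have h2 := Nat.le_ceil ((2 * l / h + 1) ^ k)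
    linarith
  refine ⟨hfin.toFinset, fun i => by simp, ?_⟩
  exact ks_card_sep t hh hsep a l hl _ fun i hi => by simpa using hi

end Pool.Agent.LFK
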