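import Pool.Agent.LFK.CORB

/-!
LEAFK row COREBk: the square function of the caps of a grid of mesh `r`, lattice form.
-/

set_option autoImplicit false

namespace Pool.Agent.LFK

open MeasureTheory Set Metric Pool.Agent.MP_6cbfb8_an
open scoped ENNReal Real ContDiff RealInnerProductSpace

/-- **The square function of the caps of a lattice of mesh `r`**, any shift, any cut-off. -/
theorem coreBk_lat {k m n : ℕ} (hn : n = k + m + 1) {X : E k × E m → E n} (hX : ContDiff ℝ ∞ X)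
    {A : ℕ → ℝ} (hXA : ∀ j p, ‖iteratedFDeriv ℝ j X p‖ ≤ A j) {p0 : E k × E m}
    {δ δ0 C0 cf : ℝ} (hδ00 : 0 ≤ δ0) (hδδ : δ0 ≤ δ) (hδ1 : δ ≤ 1 / 4) (hC0 : 0 < C0)
    (hcf : 0 < cf) (hK : Kak1 X p0 δ C0) (hX1 : ∀ p, ‖p - p0‖ ≤ δ → ‖X p‖ = 1)
    (hfr : ∀ p, ‖p - p0‖ ≤ δ → ∀ ξ, cf * ‖ξ‖ ≤ |⟪ξ, X p⟫| + ‖Gw X ξ p‖)
    {ρ : ℝ} (hρ : 1 ≤ ρ) (Bθ B : ℕ → ℝ) (N : ℕ) :
    ∃ C : ℝ, 0 < C ∧ ∀ R r : ℝ, 1 ≤ R → 0 < r → 1 ≤ r ^ 2 * R → ρ * r ≤ δ - δ0 →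
      ∀ b : E k × E m → ℂ, Measurable b → (∀ t, ContDiff ℝ ∞ fun z => b (t, z)) →
      (∀ j t z, ‖iteratedFDeriv ℝ j (fun z => b (t, z)) z‖ ≤ B j) →
      (∀ t z, δ0 < ‖t - p0.1‖ → b (t, z) = 0) → (∀ t z, δ0 < ‖z - p0.2‖ → b (t, z) = 0) →
      ∀ th : E k × E m → ℝ, ContDiff ℝ ∞ th → (∀ p, ρ < ‖p‖ → th p = 0) →
      (∀ j p, ‖iteratedFDeriv ℝ j th p‖ ≤ Bθ j) →
      ∀ L : AddSubgroup (E k × E m), (∀ x ∈ L, x.1 ≠ 0 → r ≤ ‖x.1‖) →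
      (∀ x ∈ L, x.2 ≠ 0 → r ≤ ‖x.2‖) → ∀ s : E k × E m,
      ∫⁻ ξ in {ξ : E n | R / 2 ≤ ‖ξ‖ ∧ ‖ξ‖ ≤ 4 * R},
        (∑' ν : L, ‖∫ p : E k × E m, b p * Complex.exp (((-⟪ξ, X p⟫ : ℝ) : ℂ) * Complex.I) *
          (th (r⁻¹ • (p - ((ν : E k × E m) + s))) : ℂ)‖ₑ ^ (2 : ℕ)) ^ (2 : ℕ) ≤
        ENNReal.ofReal (C * ((r ^ 2 * R) ^ Pk k m * (1 + Real.log R) * R * (R ^ (k + m))⁻¹ +
          R ^ (n + k + m) * ((r ^ 2 * R) ^ N)⁻¹)) := by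
  obtain ⟨C, hC, H⟩ := coreBk hn hX hXA hδ00 hδδ hδ1 hC0 hcf hK hX1 hfr hρ Bθ B N
  refine ⟨C, hC, ?_⟩
  intro R r hR hr hQ hρr b hbm hbs hbB hb1 hb2 th hth hth0 hB' L hL1 hL2 s
  set S1 : Set (E k) := {x | ∃ y ∈ L, y.1 = x} with hS1
  set S2 : Set (E m) := {x | ∃ y ∈ L, y.2 = x} with hS2
  have h := H R r hR hr hQ hρr b hbm hbs hbB hb1 hb2 th hth hth0 hB' ↥S1 ↥S2
    (fun i => (i : E k) + s.1) (fun j => (j : E m) + s.2) (by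
      rintro ⟨i, x, hx, rfl⟩ ⟨j, y, hy, rfl⟩ hij
      rw [add_sub_add_right_eq_sub]
      refine hL1 (x - y) (L.sub_mem hx hy) fun h0 => hij (Subtype.ext ?_)
      exact sub_eq_zero.1 h0) (by
      rintro ⟨i, x, hx, rfl⟩ ⟨j, y, hy, rfl⟩ hij
      rw [add_sub_add_right_eq_sub]
      refine hL2 (x - y) (L.sub_mem hx hy) fun h0 => hij (Subtype.ext ?_)
      exact sub_eq_zero.1 h0)
  refine le_trans (lintegral_mono fun ξ => ?_) h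
  refine pow_le_pow_left' ?_ 2
  set e : L → ↥S1 × ↥S2 := fun ν => (⟨(ν : E k × E m).1, ν, ν.2, rfl⟩,
    ⟨(ν : E k × E m).2, ν, ν.2, rfl⟩) with he
  have hinj : Function.Injective e := by
    intro ν ν' h1
    have h2 := congrArg (fun x => (x.1 : E k)) h1
    have h3 := congrArg (fun x => (x.2 : E m)) h1
    exact Subtype.ext (Prod.ext h2 h3)
  refine le_trans (le_of_eq ?_) (ENNReal.tsum_comp_le_tsum_of_injective hinj _)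
  refine tsum_congr fun ν => ?_
  congr 2
  refine integral_congr_ae (Filter.Eventually.of_forall fun p => ?_)
  simp only [he]
  have h4 : (((ν : E k × E m).1 + s.1, (ν : E k × E m).2 + s.2) : E k × E m) =
      (ν : E k × E m) + s := rfl
  rw [h4]
  ring

/-- Integer points are separated. -/
theorem int_sep {k : ℕ} {r : ℝ} (hr : 0 < r) (s : E k) (ν ν' : Fin k → ℤ) (h : ν ≠ ν') :
    r ≤ ‖r • ((WithLp.toLp 2 fun i => (ν i : ℝ) : E k) + s) -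
      r • ((WithLp.toLp 2 fun i => (ν' i : ℝ) : E k) + s)‖ := by
  obtain ⟨i, hi⟩ := Function.ne_iff.1 h
  rw [← smul_sub, add_sub_add_right_eq_sub, norm_smul, Real.norm_of_nonneg hr.le]
  refine le_mul_of_one_le_right hr.le ?_
  have h1 := PiLp.norm_apply_le ((WithLp.toLp 2 fun i => (ν i : ℝ) : E k) -
    (WithLp.toLp 2 fun i => (ν' i : ℝ) : E k)) i
  refine le_trans ?_ h1
  have h2 : ((WithLp.toLp 2 fun i => (ν i : ℝ) : E k) -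
      (WithLp.toLp 2 fun i => (ν' i : ℝ) : E k)) i = ((ν i - ν' i : ℤ) : ℝ) := by
    simp
  rw [h2, Real.norm_eq_abs, ← Int.cast_abs]
  exact_mod_cast Int.one_le_abs (sub_ne_zero.2 hi)

/-- **The square function of the caps of the grid `r (ν + s)`**. -/
theorem coreBk_grid {k m n : ℕ} (hn : n = k + m + 1) {X : E k × E m → E n} (hX : ContDiff ℝ ∞ X)
    {A : ℕ → ℝ} (hXA : ∀ j p, ‖iteratedFDeriv ℝ j X p‖ ≤ A j) {p0 : E k × E m}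
    {δ δ0 C0 cf : ℝ} (hδ00 : 0 ≤ δ0) (hδδ : δ0 ≤ δ) (hδ1 : δ ≤ 1 / 4) (hC0 : 0 < C0)
    (hcf : 0 < cf) (hK : Kak1 X p0 δ C0) (hX1 : ∀ p, ‖p - p0‖ ≤ δ → ‖X p‖ = 1)
    (hfr : ∀ p, ‖p - p0‖ ≤ δ → ∀ ξ, cf * ‖ξ‖ ≤ |⟪ξ, X p⟫| + ‖Gw X ξ p‖)
    {ρ : ℝ} (hρ : 1 ≤ ρ) (Bθ B : ℕ → ℝ) (N : ℕ) :
    ∃ C : ℝ, 0 < C ∧ ∀ R r : ℝ, 1 ≤ R → 0 < r → 1 ≤ r ^ 2 * R → ρ * r ≤ δ - δ0 →
      ∀ b : E k × E m → ℂ, Measurable b → (∀ t, ContDiff ℝ ∞ fun z => b (t, z)) →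
      (∀ j t z, ‖iteratedFDeriv ℝ j (fun z => b (t, z)) z‖ ≤ B j) →
      (∀ t z, δ0 < ‖t - p0.1‖ → b (t, z) = 0) → (∀ t z, δ0 < ‖z - p0.2‖ → b (t, z) = 0) →
      ∀ th : E k × E m → ℝ, ContDiff ℝ ∞ th → (∀ p, ρ < ‖p‖ → th p = 0) →
      (∀ j p, ‖iteratedFDeriv ℝ j th p‖ ≤ Bθ j) → ∀ s : E k × E m,
      ∫⁻ ξ in {ξ : E n | R / 2 ≤ ‖ξ‖ ∧ ‖ξ‖ ≤ 4 * R},
        (∑' ν : (Fin k → ℤ) × (Fin m → ℤ), ‖∫ p : E k × E m,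
          (th (r⁻¹ • (p - r • (((WithLp.toLp 2 fun i => (ν.1 i : ℝ),
            WithLp.toLp 2 fun j => (ν.2 j : ℝ)) : E k × E m) + s))) : ℂ) * b p *
          Complex.exp (((-⟪ξ, X p⟫ : ℝ) : ℂ) * Complex.I)‖ₑ ^ 2) ^ 2 ≤
        ENNReal.ofReal (C * ((r ^ 2 * R) ^ Pk k m * (1 + Real.log R) * R * (R ^ (k + m))⁻¹ +
          R ^ (n + k + m) * ((r ^ 2 * R) ^ N)⁻¹)) := by
  obtain ⟨C, hC, H⟩ := coreBk hn hX hXA hδ00 hδδ hδ1 hC0 hcf hK hX1 hfr hρ Bθ B N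
  refine ⟨C, hC, ?_⟩
  intro R r hR hr hQ hρr b hbm hbs hbB hb1 hb2 th hth hth0 hB' s
  exact H R r hR hr hQ hρr b hbm hbs hbB hb1 hb2 th hth hth0 hB' (Fin k → ℤ) (Fin m → ℤ)
    (fun ν => r • ((WithLp.toLp 2 fun i => (ν i : ℝ) : E k) + s.1))
    (fun ν => r • ((WithLp.toLp 2 fun i => (ν i : ℝ) : E m) + s.2))
    (fun ν ν' h => int_sep hr s.1 ν ν' h) (fun ν ν' h => int_sep hr s.2 ν ν' h)

end Pool.Agent.LFK
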