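import Mathlib.Analysis.Calculus.ContDiff.Bounds
import Mathlib.Analysis.Calculus.MeanValue

/-!
Second differences of smooth functions.
-/

set_option autoImplicit false

namespace Pool.Agent.LFK

open Set

variable {P F : Type*} [NormedAddCommGroup P] [NormedSpace ℝ P] [NormedAddCommGroup F]
  [NormedSpace ℝ F]

/-- The second difference. -/
def sdf (G : P → F) (a b d p : P) : F := G p + G (p - a - b + d) - G (p - a) - G (p - b)

/-- Lipschitz bound from the bound of the derivative. -/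
theorem sd_lip {G : P → F} (hG : Differentiable ℝ G) {A : ℝ} (hA : ∀ p, ‖fderiv ℝ G p‖ ≤ A)
    (p q : P) : ‖G p - G q‖ ≤ A * ‖p - q‖ :=
  Convex.norm_image_sub_le_of_norm_fderiv_le (𝕜 := ℝ) (s := univ) (fun x _ => hG x)
    (fun x _ => hA x) convex_univ (mem_univ _) (mem_univ _)

/-- The mixed second difference. -/
theorem sd_mixed {G : P → F} (hG : Differentiable ℝ G) (hG' : Differentiable ℝ (fderiv ℝ G))
    {A : ℝ} (hA : ∀ p, ‖fderiv ℝ (fderiv ℝ G) p‖ ≤ A) (a b p : P) :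
    ‖G p - G (p - a) - G (p - b) + G (p - a - b)‖ ≤ A * (‖a‖ * ‖b‖) := by
  have hd : ∀ x, HasFDerivAt (fun y => G y - G (y - b)) (fderiv ℝ G x - fderiv ℝ G (x - b)) x := by
    intro x
    have h1 := (hG x).hasFDerivAt
    have h2 : HasFDerivAt (fun y => G (y - b)) (fderiv ℝ G (x - b)) x := by
      have h3 := (hG (x - b)).hasFDerivAt.comp x ((hasFDerivAt_id x).sub_const b)
      simpa [Function.comp_def] using h3
    exact h1.sub h2
  have hb : ∀ x, ‖fderiv ℝ (fun y => G y - G (y - b)) x‖ ≤ A * ‖b‖ := by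
    intro x
    rw [(hd x).fderiv]
    have := sd_lip hG' hA x (x - b)
    rwa [sub_sub_cancel] at this
  have h4 := sd_lip (fun x => (hd x).differentiableAt) hb p (p - a)
  rw [sub_sub_cancel] at h4
  have e1 : G p - G (p - a) - G (p - b) + G (p - a - b) =
      G p - G (p - b) - (G (p - a) - G (p - a - b)) := by abel
  rw [e1]
  refine h4.trans (le_of_eq ?_)
  ring

/-- The mixed second difference, expansion. -/
theorem sd_mixed_exp {G : P → F} (hG : Differentiable ℝ G) (hG' : Differentiable ℝ (fderiv ℝ G))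
    {A : ℝ} (hA0 : 0 ≤ A)
    (hA : ∀ p q, ‖fderiv ℝ (fderiv ℝ G) p - fderiv ℝ (fderiv ℝ G) q‖ ≤ A * ‖p - q‖) (a b p : P) :
    ‖G p - G (p - a) - G (p - b) + G (p - a - b) - fderiv ℝ (fderiv ℝ G) p b a‖ ≤
      A * (‖a‖ * ‖b‖ * (‖a‖ + ‖b‖)) := by
  -- first step: the first derivative
  have h1 : ∀ x, ‖x - p‖ ≤ ‖a‖ → ‖fderiv ℝ G x - fderiv ℝ G (x - b) -
      fderiv ℝ (fderiv ℝ G) p b‖ ≤ A * (‖a‖ + ‖b‖) * ‖b‖ := by
    intro x hx
    have h2 := Convex.norm_image_sub_le_of_norm_hasFDerivWithin_le (𝕜 := ℝ)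
      (f := fun y => fderiv ℝ G y - fderiv ℝ (fderiv ℝ G) p y)
      (f' := fun y => fderiv ℝ (fderiv ℝ G) y - fderiv ℝ (fderiv ℝ G) p)
      (s := Metric.closedBall p (‖a‖ + ‖b‖)) (C := A * (‖a‖ + ‖b‖))
      (fun y _ => (((hG' y).hasFDerivAt).sub
        (fderiv ℝ (fderiv ℝ G) p).hasFDerivAt).hasFDerivWithinAt)
      (fun y hy => (hA y p).trans (mul_le_mul_of_nonneg_left (by
        rw [← dist_eq_norm]
        exact Metric.mem_closedBall.1 hy) hA0))
      (convex_closedBall _ _) (x := x - b) (y := x)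
      (by
        rw [Metric.mem_closedBall, dist_eq_norm]
        have : x - b - p = (x - p) - b := by abel
        rw [this]
        exact (norm_sub_le _ _).trans (by linarith))
      (by
        rw [Metric.mem_closedBall, dist_eq_norm]
        linarith [norm_nonneg b])
    have e1 : fderiv ℝ G x - fderiv ℝ (fderiv ℝ G) p x -
        (fderiv ℝ G (x - b) - fderiv ℝ (fderiv ℝ G) p (x - b)) =
        fderiv ℝ G x - fderiv ℝ G (x - b) - fderiv ℝ (fderiv ℝ G) p b := by
      rw [map_sub]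
      abel
    have e2 : x - (x - b) = b := by abel
    rw [e1, e2] at h2
    exact h2
  -- second step
  have hd : ∀ x, HasFDerivAt (fun y => G y - G (y - b) - fderiv ℝ (fderiv ℝ G) p b y)
      (fderiv ℝ G x - fderiv ℝ G (x - b) - fderiv ℝ (fderiv ℝ G) p b) x := by
    intro x
    have h1 := (hG x).hasFDerivAt
    have h2 : HasFDerivAt (fun y => G (y - b)) (fderiv ℝ G (x - b)) x := by
      have h3 := (hG (x - b)).hasFDerivAt.comp x ((hasFDerivAt_id x).sub_const b)
      simpa [Function.comp_def] using h3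
    exact (h1.sub h2).sub (fderiv ℝ (fderiv ℝ G) p b).hasFDerivAt
  have h3 := Convex.norm_image_sub_le_of_norm_hasFDerivWithin_le (𝕜 := ℝ)
    (f := fun y => G y - G (y - b) - fderiv ℝ (fderiv ℝ G) p b y)
    (f' := fun x => fderiv ℝ G x - fderiv ℝ G (x - b) - fderiv ℝ (fderiv ℝ G) p b)
    (s := Metric.closedBall p ‖a‖) (C := A * (‖a‖ + ‖b‖) * ‖b‖)
    (fun y _ => (hd y).hasFDerivWithinAt)
    (fun y hy => h1 y (by
      rw [← dist_eq_norm]
      exact Metric.mem_closedBall.1 hy))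
    (convex_closedBall _ _) (x := p - a) (y := p)
    (by
      rw [Metric.mem_closedBall, dist_eq_norm]
      simp)
    (by simp)
  have e3 : G p - G (p - b) - fderiv ℝ (fderiv ℝ G) p b p -
      (G (p - a) - G (p - a - b) - fderiv ℝ (fderiv ℝ G) p b (p - a)) =
      G p - G (p - a) - G (p - b) + G (p - a - b) - fderiv ℝ (fderiv ℝ G) p b a := by
    rw [map_sub]
    abel
  have e4 : p - (p - a) = a := by abel
  rw [e3, e4] at h3
  refine h3.trans (le_of_eq ?_)
  ring

/-- The bound of the second difference. -/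
theorem sdf_le {G : P → F} (hG : Differentiable ℝ G) (hG' : Differentiable ℝ (fderiv ℝ G))
    {A1 A2 : ℝ} (h1 : ∀ p, ‖fderiv ℝ G p‖ ≤ A1) (h2 : ∀ p, ‖fderiv ℝ (fderiv ℝ G) p‖ ≤ A2)
    (a b d p : P) : ‖sdf G a b d p‖ ≤ A2 * (‖a‖ * ‖b‖) + A1 * ‖d‖ := by
  have e1 : sdf G a b d p = (G p - G (p - a) - G (p - b) + G (p - a - b)) +
      (G (p - a - b + d) - G (p - a - b)) := by
    unfold sdf
    abel
  rw [e1]
  refine (norm_add_le _ _).trans (add_le_add (sd_mixed hG hG' h2 a b p) ?_)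
  have := sd_lip hG h1 (p - a - b + d) (p - a - b)
  rwa [add_sub_cancel_left] at this

/-- The expansion of the second difference. -/
theorem sdf_exp {G : P → F} (hG : Differentiable ℝ G) (hG' : Differentiable ℝ (fderiv ℝ G))
    {A2 A3 : ℝ} (hA3 : 0 ≤ A3) (h2 : ∀ p, ‖fderiv ℝ (fderiv ℝ G) p‖ ≤ A2)
    (h3 : ∀ p q, ‖fderiv ℝ (fderiv ℝ G) p - fderiv ℝ (fderiv ℝ G) q‖ ≤ A3 * ‖p - q‖)
    (a b d p : P) :
    ‖sdf G a b d p - (fderiv ℝ (fderiv ℝ G) p b a + fderiv ℝ G p d)‖ ≤
      A3 * (‖a‖ * ‖b‖ * (‖a‖ + ‖b‖)) + A2 * ((‖a‖ + ‖b‖ + ‖d‖) * ‖d‖) := by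
  have hA2 : 0 ≤ A2 := le_trans (norm_nonneg (fderiv ℝ (fderiv ℝ G) p)) (h2 p)
  have e1 : sdf G a b d p - (fderiv ℝ (fderiv ℝ G) p b a + fderiv ℝ G p d) =
      (G p - G (p - a) - G (p - b) + G (p - a - b) - fderiv ℝ (fderiv ℝ G) p b a) +
      (G (p - a - b + d) - G (p - a - b) - fderiv ℝ G p d) := by
    unfold sdf
    abel
  rw [e1]
  refine (norm_add_le _ _).trans (add_le_add (sd_mixed_exp hG hG' hA3 h3 a b p) ?_)
  have h4 := Convex.norm_image_sub_le_of_norm_hasFDerivWithin_le (𝕜 := ℝ)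
    (f := fun y => G y - fderiv ℝ G p y) (f' := fun y => fderiv ℝ G y - fderiv ℝ G p)
    (s := Metric.closedBall p (‖a‖ + ‖b‖ + ‖d‖)) (C := A2 * (‖a‖ + ‖b‖ + ‖d‖))
    (fun y _ => (((hG y).hasFDerivAt).sub (fderiv ℝ G p).hasFDerivAt).hasFDerivWithinAt)
    (fun y hy => (sd_lip hG' h2 y p).trans (mul_le_mul_of_nonneg_left (by
      rw [← dist_eq_norm]
      exact Metric.mem_closedBall.1 hy) hA2))
    (convex_closedBall _ _) (x := p - a - b) (y := p - a - b + d)
    (by
      rw [Metric.mem_closedBall, dist_eq_norm]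
      have e2 : p - a - b - p = -a - b := by abel
      rw [e2]
      refine (norm_sub_le _ _).trans ?_
      rw [norm_neg]
      linarith [norm_nonneg d])
    (by
      rw [Metric.mem_closedBall, dist_eq_norm]
      have e2 : p - a - b + d - p = -a - b + d := by abel
      rw [e2]
      refine (norm_add_le _ _).trans ?_
      have := norm_sub_le (-a) b
      rw [norm_neg] at this
      linarith)
  have e3 : G (p - a - b + d) - fderiv ℝ G p (p - a - b + d) -
      (G (p - a - b) - fderiv ℝ G p (p - a - b)) =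
      G (p - a - b + d) - G (p - a - b) - fderiv ℝ G p d := by
    rw [map_add (fderiv ℝ G p) (p - a - b) d]
    abel
  rw [e3, add_sub_cancel_left] at h4
  refine h4.trans (le_of_eq ?_)
  ring

end Pool.Agent.LFK
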