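import Pool.Agent.LFK.Df0
import Pool.Agent.LFK.SD

/-!
LEAFK, the far part: cut-off functions and amplitudes.
-/

set_option autoImplicit false

namespace Pool.Agent.LFK.FR

open MeasureTheory Set Filter Topology Pool.Agent.MP_6cbfb8_an
open scoped ENNReal Real RealInnerProductSpace ContDiff ComplexConjugate

variable {k m n : ℕ}

/-- The hypotheses on the chart (the conclusion of `LFK.comp`). -/
structure Ch (X : E k × E m → E n) (A : ℕ → ℝ) (p0 : E k × E m) (κ : ℝ) : Prop where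
  hκ : 0 < κ
  hκ1 : κ ≤ 1
  hX : ContDiff ℝ ∞ X
  hA : ∀ j p, ‖iteratedFDeriv ℝ j X p‖ ≤ A j
  hH : ∀ p w, ‖p - p0‖ ≤ κ → 1 / 4 ≤ ‖w‖ → ‖w‖ ≤ 8 → ‖Vw X w p‖ ≤ κ →
    (∀ u, κ * ‖u‖ ≤ ‖fderiv ℝ X p u‖) ∧
    ∀ u v, ‖fderiv ℝ (Vw X w) p u‖ ≤ κ * ‖u‖ → ‖fderiv ℝ (Vw X w) p v‖ ≤ κ * ‖v‖ →
      ∀ d, κ * (‖u‖ * ‖v‖ + ‖d‖) ≤ ‖fderiv ℝ X p d + fderiv ℝ (fderiv ℝ X) p u v‖ +
        ‖fderiv ℝ (Vw X w) p d + fderiv ℝ (fderiv ℝ (Vw X w)) p u v‖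

/-- Densities supported near `p0`, smooth in `z` only. -/
def Dn (p0 : E k × E m) (δ : ℝ) (B : ℕ → ℝ) (b : E k × E m → ℂ) : Prop :=
  Measurable b ∧ (∀ t, ContDiff ℝ ∞ fun z => b (t, z)) ∧
    (∀ t j z, ‖iteratedFDeriv ℝ j (fun z => b (t, z)) z‖ ≤ B j) ∧ ∀ p, δ ≤ ‖p - p0‖ → b p = 0

/-- Cut-off functions of the annulus. -/
def Et (η : E n → ℝ) : Prop :=
  ContDiff ℝ ∞ η ∧ (∀ x, 0 ≤ η x) ∧ (∀ x, η x ≤ 1) ∧ (∀ x, 1 ≤ ‖x‖ → ‖x‖ ≤ 2 → η x = 1) ∧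
    ∀ x, η x ≠ 0 → 1 / 2 ≤ ‖x‖ ∧ ‖x‖ ≤ 4

/-- Cut-off functions of the unit ball of `R^m`. -/
def Th (th : E m → ℝ) : Prop :=
  ContDiff ℝ ∞ th ∧ (∀ x, 0 ≤ th x) ∧ (∀ x, th x ≤ 1) ∧ (∀ x, ‖x‖ ≤ 1 / 2 → th x = 1) ∧
    ∀ x, 1 ≤ ‖x‖ → th x = 0

/-- The cut-off function of the differences. -/
def Nz (N0 : E k × E m → ℝ) : Prop :=
  ContDiff ℝ ∞ N0 ∧ (∀ x, |N0 x| ≤ 1) ∧ (∀ x, ‖x‖ ≤ 1 → N0 x = 1) ∧ ∀ x, 8 ≤ ‖x‖ → N0 x = 0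

/-- `x / √(1 + |x|²)`. -/
noncomputable def Ub (x : E k × E m) : E k × E m := (√(1 + ‖x.1‖ ^ 2 + ‖x.2‖ ^ 2))⁻¹ • x

/-- The cut-off at scale one: `w · X` is nearly critical at `p` and nearly degenerate in the
directions `a`, `b`. -/
noncomputable def AA (X : E k × E m → E n) (th : E m → ℝ) (κ r : ℝ) (w : E n)
    (p a b : E k × E m) : ℝ :=
  th (κ⁻¹ • Vw X w p) * th (κ⁻¹ • fderiv ℝ (Vw X w) p (Ub (r⁻¹ • a))) *
    th (κ⁻¹ • fderiv ℝ (Vw X w) p (Ub (r⁻¹ • b)))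

/-- The cut-off at scale `r`: `w · X` is nearly critical at `p`. -/
noncomputable def ZZ (X : E k × E m → E n) (th : E m → ℝ) (c0 r : ℝ) (w : E n)
    (p : E k × E m) : ℝ := th ((c0 * r)⁻¹ • Vw X w p)

/-- The two cut-offs `1 - N`. -/
noncomputable def Nf (N0 : E k × E m → ℝ) (r : ℝ) (a b : E k × E m) : ℝ :=
  (1 - N0 (r⁻¹ • a)) * (1 - N0 (r⁻¹ • b))

/-- The product of the four densities. -/
noncomputable def Bf (b : E k × E m → ℂ) (p1 p2 p3 p4 : E k × E m) : ℂ :=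
  b p1 * b p2 * (conj (b p3) * conj (b p4))

/-- The amplitude of the far part. -/
noncomputable def Fa (N0 : E k × E m → ℝ) (b : E k × E m → ℂ) (r : ℝ)
    (p1 p2 p3 p4 : E k × E m) : ℂ :=
  ((Nf N0 r (p1 - p3) (p1 - p4) : ℝ) : ℂ) * Bf b p1 p2 p3 p4

/-- The exponential. -/
noncomputable def ex (X : E k × E m → E n) (ξ : E n) (p : E k × E m) : ℂ :=
  Complex.exp (((-⟪ξ, X p⟫ : ℝ) : ℂ) * Complex.I)

/-- The exponential of the far part. -/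
noncomputable def Ex (X : E k × E m → E n) (ξ : E n) (p1 p2 p3 p4 : E k × E m) : ℂ :=
  Complex.exp (((-⟪ξ, X p1 + X p2 - X p3 - X p4⟫ : ℝ) : ℂ) * Complex.I)

/-- The amplitude of the first kind, in the variables `p = p1`, `a = p1 - p3`, `b = p1 - p4`,
`d = p1 + p2 - p3 - p4`. -/
noncomputable def G0 (X : E k × E m → E n) (th : E m → ℝ) (N0 : E k × E m → ℝ) (κ : ℝ)
    (b : E k × E m → ℂ) (r : ℝ) (w : E n) (p u v d : E k × E m) : ℂ :=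
  ((AA X th κ r w p u v * Nf N0 r u v : ℝ) : ℂ) * Bf b p (p - u - v + d) (p - u) (p - v)

/-- The amplitude which is nonstationary in `z1`. -/
noncomputable def G1 (X : E k × E m → E n) (th : E m → ℝ) (N0 : E k × E m → ℝ) (κ c0 : ℝ)
    (b : E k × E m → ℂ) (r : ℝ) (w : E n) (p1 p2 p3 p4 : E k × E m) : ℂ :=
  (((1 - AA X th κ r w p1 (p1 - p3) (p1 - p4)) * (1 - ZZ X th c0 r w p1) : ℝ) : ℂ) *
    Fa N0 b r p1 p2 p3 p4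

/-- The amplitude which is nonstationary in `z3`. -/
noncomputable def G3 (X : E k × E m → E n) (th : E m → ℝ) (N0 : E k × E m → ℝ) (κ c0 : ℝ)
    (b : E k × E m → ℂ) (r : ℝ) (w : E n) (p1 p2 p3 p4 : E k × E m) : ℂ :=
  (((1 - AA X th κ r w p1 (p1 - p3) (p1 - p4)) * ZZ X th c0 r w p1 *
    (1 - ZZ X th c0 r w p3) : ℝ) : ℂ) * Fa N0 b r p1 p2 p3 p4

/-- The amplitude which is nonstationary in `z4`. -/
noncomputable def G4 (X : E k × E m → E n) (th : E m → ℝ) (N0 : E k × E m → ℝ) (κ c0 : ℝ)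
    (b : E k × E m → ℂ) (r : ℝ) (w : E n) (p1 p2 p3 p4 : E k × E m) : ℂ :=
  (((1 - AA X th κ r w p1 (p1 - p3) (p1 - p4)) * ZZ X th c0 r w p1 * ZZ X th c0 r w p3 *
    (1 - ZZ X th c0 r w p4) : ℝ) : ℂ) * Fa N0 b r p1 p2 p3 p4

/-- The measure `η(ξ / R) dξ`. -/
noncomputable def mu (η : E n → ℝ) (R : ℝ) : Measure (E n) :=
  volume.withDensity fun ξ => ENNReal.ofReal (η (R⁻¹ • ξ))

end Pool.Agent.LFK.FR
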