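import Pool.Agent.LFK.Tb
import Pool.Agent.LFK.FARdf

/-!
CORE for `k` rough directions: the annulus, bounded `R`, the frame, the exponents.
-/

set_option autoImplicit false

namespace Pool.Agent.LFK

open MeasureTheory Set Metric Function Filter Topology Pool.Agent.MP_6cbfb8_an
open scoped ENNReal Real RealInnerProductSpace ContDiff

/-- The volume of the annulus. -/
theorem ck_vol (n : ℕ) : ∃ Cv : ℝ, 0 ≤ Cv ∧ ∀ R : ℝ, 1 ≤ R →
    volume {ξ : E n | R / 2 ≤ ‖ξ‖ ∧ ‖ξ‖ ≤ 4 * R} ≤ ENNReal.ofReal (Cv * R ^ n) := by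
  have hf : volume (ball (0 : E n) 1) ≠ ⊤ := measure_ball_lt_top.ne
  refine ⟨4 ^ n * (volume (ball (0 : E n) 1)).toReal, by positivity, fun R hR => ?_⟩
  calc volume {ξ : E n | R / 2 ≤ ‖ξ‖ ∧ ‖ξ‖ ≤ 4 * R} ≤ volume (closedBall (0 : E n) (4 * R)) := by
        refine measure_mono fun ξ hξ => ?_
        rw [mem_closedBall, dist_zero_right]
        exact hξ.2
    _ = ENNReal.ofReal ((4 * R) ^ n) * volume (ball (0 : E n) 1) := by
        rw [Measure.addHaar_closedBall _ _ (by positivity), finrank_euclideanSpace_fin]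
    _ = ENNReal.ofReal (4 ^ n * (volume (ball (0 : E n) 1)).toReal * R ^ n) := by
        conv_lhs => rw [← ENNReal.ofReal_toReal hf]
        rw [← ENNReal.ofReal_mul (by positivity)]
        congr 1
        ring

theorem ck_int {k m : ℕ} {b : E k × E m → ℂ} (hb : Measurable b) {B0 δ : ℝ} {p0 : E k × E m}
    (hB : ∀ p, ‖b p‖ ≤ B0) (hs : ∀ p, δ ≤ ‖p - p0‖ → b p = 0) :
    Integrable b ∧ ∫ p, ‖b p‖ ≤ B0 * (volume : Measure (E k × E m)).real (closedBall p0 δ) := by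
  have hv : volume (closedBall p0 δ) ≠ ⊤ := (isCompact_closedBall p0 δ).measure_lt_top.ne
  have h1 : (closedBall p0 δ).indicator b = b := by
    funext p
    by_cases hp : p ∈ closedBall p0 δ
    · rw [indicator_of_mem hp]
    · rw [indicator_of_notMem hp, hs p]
      rw [mem_closedBall, dist_eq_norm, not_le] at hp
      exact hp.le
  have h2 : IntegrableOn b (closedBall p0 δ) :=
    Measure.integrableOn_of_bounded (M := B0) hv hb.aestronglyMeasurable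
      (Filter.Eventually.of_forall hB)
  have h3 : Integrable b := by
    rw [← h1]
    exact h2.integrable_indicator measurableSet_closedBall
  refine ⟨h3, ?_⟩
  have h4 : ∫ p, ‖b p‖ = ∫ p in closedBall p0 δ, ‖b p‖ := by
    rw [setIntegral_eq_integral_of_forall_compl_eq_zero]
    intro p hp
    rw [mem_closedBall, dist_eq_norm, not_le] at hp
    rw [hs p hp.le, norm_zero]
  rw [h4]
  refine (le_abs_self _).trans ?_
  rw [← Real.norm_eq_abs]
  refine norm_setIntegral_le_of_norm_le_const (isCompact_closedBall p0 δ).measure_lt_top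
    fun p _ => ?_
  rw [norm_norm]
  exact hB p

theorem ck_norm_le {k m n : ℕ} (X : E k × E m → E n) (b : E k × E m → ℂ) (ξ : E n) :
    ‖Tb X b ξ‖ ≤ ∫ p, ‖b p‖ := by
  unfold Tb
  refine (norm_integral_le_integral_norm _).trans (le_of_eq ?_)
  refine integral_congr_ae (Filter.Eventually.of_forall fun p => ?_)
  simp only
  rw [norm_mul, Complex.norm_exp_ofReal_mul_I, mul_one]

/-- The bound for bounded `R`. -/
theorem ck_small {k m n : ℕ} (X : E k × E m → E n) (p0 : E k × E m)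
    (δ B0 R0 ε : ℝ) (hR0 : 1 ≤ R0) (hε : 0 < ε) (hB0 : 0 ≤ B0) : ∃ Cs : ℝ, 0 ≤ Cs ∧
    ∀ b : E k × E m → ℂ, Measurable b → (∀ p, ‖b p‖ ≤ B0) → (∀ p, δ ≤ ‖p - p0‖ → b p = 0) →
      ∀ R : ℝ, 1 ≤ R → R ≤ R0 →
        ∫⁻ ξ in {ξ : E n | R ≤ ‖ξ‖ ∧ ‖ξ‖ ≤ 2 * R}, ‖Tb X b ξ‖ₑ ^ 4 ≤
          ENNReal.ofReal (Cs * R ^ (-((n : ℝ) - 2) + ε)) := by
  obtain ⟨Cv, hCv, hvol⟩ := ck_vol n
  set S : ℝ := B0 * (volume : Measure (E k × E m)).real (closedBall p0 δ) with hS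
  have hS0 : 0 ≤ S := by positivity
  refine ⟨S ^ 4 * (Cv * R0 ^ n) * R0 ^ n, by positivity, ?_⟩
  intro b hbm hbB hb0 R hR hRR
  have hRp : 0 < R := by linarith
  have hbi := ck_int hbm hbB hb0
  have h1 : ∀ ξ, ‖Tb X b ξ‖ₑ ≤ ENNReal.ofReal S := by
    intro ξ
    rw [← ofReal_norm]
    exact ENNReal.ofReal_le_ofReal ((ck_norm_le X b ξ).trans hbi.2)
  have h2 : volume {ξ : E n | R ≤ ‖ξ‖ ∧ ‖ξ‖ ≤ 2 * R} ≤ ENNReal.ofReal (Cv * R0 ^ n) := by
    refine (measure_mono ?_).trans ((hvol R hR).trans (ENNReal.ofReal_le_ofReal ?_))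
    · intro ξ hξ
      exact ⟨by linarith [hξ.1], by linarith [hξ.2]⟩
    · gcongr
  have h3 : (1 : ℝ) ≤ R0 ^ n * R ^ (-((n : ℝ) - 2) + ε) := by
    have h4 : R ^ (-(n : ℝ)) ≤ R ^ (-((n : ℝ) - 2) + ε) :=
      Real.rpow_le_rpow_of_exponent_le hR (by linarith)
    have h5 : R ^ (-(n : ℝ)) = (R ^ n)⁻¹ := by
      rw [Real.rpow_neg hRp.le, Real.rpow_natCast]
    calc (1 : ℝ) = R ^ n * (R ^ n)⁻¹ := by
          rw [mul_inv_cancel₀ (by positivity)]
      _ ≤ R0 ^ n * R ^ (-((n : ℝ) - 2) + ε) := by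
          rw [← h5]
          gcongr
  calc ∫⁻ ξ in {ξ : E n | R ≤ ‖ξ‖ ∧ ‖ξ‖ ≤ 2 * R}, ‖Tb X b ξ‖ₑ ^ 4 ≤
      ∫⁻ _ in {ξ : E n | R ≤ ‖ξ‖ ∧ ‖ξ‖ ≤ 2 * R}, ENNReal.ofReal S ^ 4 := by
        refine lintegral_mono fun ξ => ?_
        gcongr
        exact h1 ξ
    _ = ENNReal.ofReal S ^ 4 * volume {ξ : E n | R ≤ ‖ξ‖ ∧ ‖ξ‖ ≤ 2 * R} :=
        setLIntegral_const _ _
    _ ≤ ENNReal.ofReal S ^ 4 * ENNReal.ofReal (Cv * R0 ^ n) := by gcongr
    _ = ENNReal.ofReal (S ^ 4 * (Cv * R0 ^ n)) := by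
        rw [← ENNReal.ofReal_pow hS0, ← ENNReal.ofReal_mul (by positivity)]
    _ ≤ _ := by
        refine ENNReal.ofReal_le_ofReal ?_
        have h6 : 0 ≤ S ^ 4 * (Cv * R0 ^ n) := by positivity
        calc S ^ 4 * (Cv * R0 ^ n) = S ^ 4 * (Cv * R0 ^ n) * 1 := (mul_one _).symm
          _ ≤ S ^ 4 * (Cv * R0 ^ n) * (R0 ^ n * R ^ (-((n : ℝ) - 2) + ε)) := by gcongr
          _ = _ := by ring

/-- The exponents. -/
theorem ck_exp (P D n : ℕ) (ε : ℝ) (hε : 0 < ε) : ∃ (e : ℝ) (N : ℕ) (C : ℝ), 0 < e ∧ e ≤ 1 / 4 ∧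
    0 ≤ C ∧ ∀ R : ℝ, 1 ≤ R →
      (R ^ (2 * e)) ^ P * (1 + Real.log R) * R * (R ^ (n + 1))⁻¹ ≤
        C * R ^ (-(((n + 2 : ℕ) : ℝ) - 2) + ε) ∧
      R ^ D * ((R ^ (2 * e)) ^ N)⁻¹ ≤ R ^ (-(((n + 2 : ℕ) : ℝ) - 2) + ε) := by
  set e : ℝ := min (1 / 4) (ε / (4 * (P + 1))) with he
  have hP : (0 : ℝ) ≤ P := Nat.cast_nonneg P
  have he0 : 0 < e := lt_min (by norm_num) (by positivity)
  have he1 : e ≤ 1 / 4 := min_le_left _ _
  have heP : 2 * e * P ≤ ε / 2 := by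
    have h1 : e * (4 * (P + 1)) ≤ ε := by
      rw [← le_div_iff₀ (by positivity)]
      exact min_le_right _ _
    nlinarith
  obtain ⟨N, hN⟩ := exists_nat_ge (((D : ℝ) + n) / (2 * e))
  have hN' : (D : ℝ) + n ≤ 2 * e * N := by
    rw [div_le_iff₀ (by positivity)] at hN
    linarith
  refine ⟨e, N, 1 + 2 / ε, he0, he1, by positivity, fun R hR => ?_⟩
  have hR0 : 0 < R := by linarith
  have hlog : 1 + Real.log R ≤ (1 + 2 / ε) * R ^ (ε / 2) := by
    have h1 := Real.log_le_rpow_div hR0.le (half_pos hε)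
    have h2 : (1 : ℝ) ≤ R ^ (ε / 2) := Real.one_le_rpow hR (by linarith)
    have h3 : R ^ (ε / 2) / (ε / 2) = 2 / ε * R ^ (ε / 2) := by
      field_simp
    rw [h3] at h1
    nlinarith
  have hlog0 : 0 ≤ 1 + Real.log R := by linarith [Real.log_nonneg hR]
  constructor
  · have h1 : (R ^ (2 * e)) ^ P ≤ R ^ (ε / 2) := by
      rw [← Real.rpow_natCast, ← Real.rpow_mul hR0.le]
      exact Real.rpow_le_rpow_of_exponent_le hR heP
    have h2 : R * (R ^ (n + 1))⁻¹ = R ^ (-(n : ℝ)) := by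
      rw [Real.rpow_neg hR0.le, Real.rpow_natCast, pow_succ]
      field_simp
    calc (R ^ (2 * e)) ^ P * (1 + Real.log R) * R * (R ^ (n + 1))⁻¹
        = (R ^ (2 * e)) ^ P * (1 + Real.log R) * (R * (R ^ (n + 1))⁻¹) := by ring
      _ ≤ R ^ (ε / 2) * ((1 + 2 / ε) * R ^ (ε / 2)) * (R * (R ^ (n + 1))⁻¹) := by
          gcongr
      _ = (1 + 2 / ε) * (R ^ (ε / 2) * R ^ (ε / 2) * R ^ (-(n : ℝ))) := by rw [h2]; ring
      _ = (1 + 2 / ε) * R ^ (-(((n + 2 : ℕ) : ℝ) - 2) + ε) := by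
          rw [← Real.rpow_add hR0, ← Real.rpow_add hR0]
          congr 2
          push_cast
          ring
  · rw [← Real.rpow_natCast R D, ← Real.rpow_natCast (R ^ (2 * e)) N, ← Real.rpow_mul hR0.le,
      ← Real.rpow_neg hR0.le, ← Real.rpow_add hR0]
    refine Real.rpow_le_rpow_of_exponent_le hR ?_
    push_cast
    linarith

/-- A cut-off function of the annulus. -/
theorem exists_Et (n : ℕ) : ∃ η : E n → ℝ, FR.Et η := by
  have hs : IsClosed ({x : E n | ‖x‖ ≤ 1 / 2} ∪ {x | 4 ≤ ‖x‖}) :=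
    (isClosed_le continuous_norm continuous_const).union
      (isClosed_le continuous_const continuous_norm)
  have ht : IsClosed {x : E n | 1 ≤ ‖x‖ ∧ ‖x‖ ≤ 2} :=
    (isClosed_le continuous_const continuous_norm).inter
      (isClosed_le continuous_norm continuous_const)
  obtain ⟨f, hf0, hf1, hf⟩ := exists_contMDiffMap_zero_one_of_isClosed (n := (⊤ : ℕ∞))
    (modelWithCornersSelf ℝ (E n)) hs ht (disjoint_left.2 fun x hx hx' => by
      rcases hx with h | h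
      · have h1 : ‖x‖ ≤ 1 / 2 := h
        have h2 : 1 ≤ ‖x‖ := hx'.1
        linarith
      · have h1 : 4 ≤ ‖x‖ := h
        have h2 : ‖x‖ ≤ 2 := hx'.2
        linarith)
  refine ⟨fun x => f x, f.contMDiff.contDiff, fun x => (hf x).1, fun x => (hf x).2,
    fun x h1 h2 => hf1 ⟨h1, h2⟩, fun x hx => ⟨?_, ?_⟩⟩
  · by_contra h
    push Not at h
    exact hx (hf0 (Or.inl h.le))
  · by_contra h
    push Not at h
    exact hx (hf0 (Or.inr h.le))

section mu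

variable {n : ℕ} {η : E n → ℝ} (hη : FR.Et η) {R : ℝ} (hR : 0 < R)

include hη hR

theorem ck_mu_le : FR.mu η R ≤
    (volume : Measure (E n)).restrict {ξ : E n | R / 2 ≤ ‖ξ‖ ∧ ‖ξ‖ ≤ 4 * R} := by
  have hm : MeasurableSet {ξ : E n | R / 2 ≤ ‖ξ‖ ∧ ‖ξ‖ ≤ 4 * R} :=
    (measurableSet_le measurable_const measurable_norm).inter
      (measurableSet_le measurable_norm measurable_const)
  rw [← withDensity_indicator_one hm]
  refine withDensity_mono (Filter.Eventually.of_forall fun ξ => ?_)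
  by_cases h : ξ ∈ {ξ : E n | R / 2 ≤ ‖ξ‖ ∧ ‖ξ‖ ≤ 4 * R}
  · simp only
    rw [indicator_of_mem h, Pi.one_apply]
    exact ENNReal.ofReal_le_one.2 (hη.2.2.1 _)
  · have h0 : η (R⁻¹ • ξ) = 0 := by
      by_contra hne
      have h1 := hη.2.2.2.2 _ hne
      rw [norm_smul, norm_inv, Real.norm_of_nonneg hR.le, inv_mul_eq_div, le_div_iff₀ hR,
        div_le_iff₀ hR] at h1
      exact h ⟨by linarith [h1.1], h1.2⟩
    simp only [h0, ENNReal.ofReal_zero]
    exact zero_le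

theorem ck_le_mu :
    (volume : Measure (E n)).restrict {ξ : E n | R ≤ ‖ξ‖ ∧ ‖ξ‖ ≤ 2 * R} ≤ FR.mu η R := by
  have hm : MeasurableSet {ξ : E n | R ≤ ‖ξ‖ ∧ ‖ξ‖ ≤ 2 * R} :=
    (measurableSet_le measurable_const measurable_norm).inter
      (measurableSet_le measurable_norm measurable_const)
  rw [← withDensity_indicator_one hm]
  refine withDensity_mono (Filter.Eventually.of_forall fun ξ => ?_)
  by_cases h : ξ ∈ {ξ : E n | R ≤ ‖ξ‖ ∧ ‖ξ‖ ≤ 2 * R}
  · have h1 : η (R⁻¹ • ξ) = 1 := by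
      refine hη.2.2.2.1 _ ?_ ?_
      · rw [norm_smul, norm_inv, Real.norm_of_nonneg hR.le, inv_mul_eq_div, le_div_iff₀ hR]
        linarith [h.1]
      · rw [norm_smul, norm_inv, Real.norm_of_nonneg hR.le, inv_mul_eq_div, div_le_iff₀ hR]
        exact h.2
    simp only [h1]
    rw [indicator_of_mem h, Pi.one_apply, ENNReal.ofReal_one]
  · simp only
    rw [indicator_of_notMem h]
    exact zero_le

theorem ck_mu_fin (hR1 : 1 ≤ R) : IsFiniteMeasure (FR.mu η R) := by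
  obtain ⟨Cv, hCv, hvol⟩ := ck_vol n
  refine ⟨lt_of_le_of_lt (ck_mu_le hη hR univ) ?_⟩
  rw [Measure.restrict_apply_univ]
  exact lt_of_le_of_lt (hvol R hR1) ENNReal.ofReal_lt_top

end mu

/-- **The frame.** -/
theorem ck_frame {k m n : ℕ} (hn : k + m + 1 = n) {X : E k × E m → E n} (hX : ContDiff ℝ ∞ X)
    {p0 : E k × E m} (himm : Injective (fderiv ℝ X p0)) {δ0 : ℝ} (hδ0 : 0 < δ0)
    (h1 : ∀ p, ‖p - p0‖ ≤ δ0 → ‖X p‖ = 1) :
    ∃ c > 0, ∃ δ > 0, ∀ p, ‖p - p0‖ ≤ δ → ∀ ξ : E n,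
      c * ‖ξ‖ ≤ |⟪ξ, X p⟫| + ‖Gw X ξ p‖ := by
  have hX0 : ‖X p0‖ = 1 := h1 p0 (by simp [hδ0.le])
  have hperp : ∀ u, ⟪X p0, fderiv ℝ X p0 u⟫ = 0 := fun u => by
    have hd : HasFDerivAt X (fderiv ℝ X p0) p0 := (hX.differentiable (by simp) p0).hasFDerivAt
    have h2 := hd.inner ℝ hd
    have h3 : (fun p => ⟪X p, X p⟫) =ᶠ[𝓝 p0] fun _ => (1 : ℝ) := by
      refine (Metric.eventually_nhds_iff.2 ⟨δ0, hδ0, fun y hy => ?_⟩)
      simp only
      rw [real_inner_self_eq_norm_sq, h1 y (by rw [← dist_eq_norm]; exact hy.le), one_pow]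
    have h4 : HasFDerivAt (fun p => ⟪X p, X p⟫) (0 : (E k × E m) →L[ℝ] ℝ) p0 :=
      (hasFDerivAt_const (1 : ℝ) p0).congr_of_eventuallyEq h3
    have h5 := congrArg (fun L : (E k × E m) →L[ℝ] ℝ => L u) (h2.unique h4)
    simp only [ContinuousLinearMap.comp_apply, ContinuousLinearMap.prod_apply,
      fderivInnerCLM_apply, zero_apply] at h5
    rw [real_inner_comm (fderiv ℝ X p0 u)] at h5
    linarith [real_inner_comm (X p0) (fderiv ℝ X p0 u)]
  set L : (ℝ × (E k × E m)) →ₗ[ℝ] E n :=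
    { toFun := fun x => x.1 • X p0 + fderiv ℝ X p0 x.2
      map_add' := fun x y => by
        rw [Prod.fst_add, Prod.snd_add, add_smul, map_add]; abel
      map_smul' := fun a x => by
        rw [Prod.smul_fst, Prod.smul_snd, map_smul, smul_add, smul_assoc, RingHom.id_apply] } with hL
  have hinj : Injective L := by
    rw [← LinearMap.ker_eq_bot, LinearMap.ker_eq_bot']
    intro x hx
    have hx' : x.1 • X p0 + fderiv ℝ X p0 x.2 = 0 := hx
    have h2 := congrArg (fun y => ⟪X p0, y⟫) hx'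
    simp only [inner_add_right, inner_smul_right, inner_zero_right, hperp] at h2
    rw [real_inner_self_eq_norm_sq, hX0] at h2
    have h3 : x.1 = 0 := by linarith
    rw [h3, zero_smul, zero_add] at hx'
    have h4 : x.2 = 0 := himm (by rw [hx', map_zero])
    exact Prod.ext h3 h4
  have hdim : Module.finrank ℝ (ℝ × (E k × E m)) = Module.finrank ℝ (E n) := by
    simp only [Module.finrank_prod, Module.finrank_self, finrank_euclideanSpace,
      Fintype.card_fin]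
    omega
  have hsurj : Surjective L := (LinearMap.injective_iff_surjective_of_finrank_eq_finrank hdim).1 hinj
  have hfd : Continuous (fderiv ℝ X) := (hX.fderiv_right (m := ∞) (by simp)).continuous
  have hF : Continuous fun x : (E k × E m) × E n => |⟪x.2, X x.1⟫| + ‖Gw X x.2 x.1‖ := by
    have c1 : Continuous fun x : (E k × E m) × E n => fderiv ℝ X x.1 :=
      hfd.comp continuous_fst
    have c2 : Continuous fun x : (E k × E m) × E n => Tw X x.2 x.1 := by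
      exact ((ContinuousLinearMap.adjoint (𝕜 := ℝ) (E := E k) (F := E n)).continuous.comp
        (c1.clm_comp continuous_const)).clm_apply continuous_snd
    have c3 : Continuous fun x : (E k × E m) × E n => Vw X x.2 x.1 := by
      exact ((ContinuousLinearMap.adjoint (𝕜 := ℝ) (E := E m) (F := E n)).continuous.comp
        (c1.clm_comp continuous_const)).clm_apply continuous_snd
    exact (continuous_snd.inner (hX.continuous.comp continuous_fst)).abs.add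
      (c2.prodMk c3).norm
  have hpos : ∀ ξ ∈ sphere (0 : E n) 1, 0 < |⟪ξ, X p0⟫| + ‖Gw X ξ p0‖ := by
    intro ξ hξ
    rw [mem_sphere_zero_iff_norm] at hξ
    by_contra h0
    have p1 := abs_nonneg ⟪ξ, X p0⟫
    have p2 := norm_nonneg (Gw X ξ p0)
    have q1 : ⟪ξ, X p0⟫ = 0 := abs_eq_zero.1 (by linarith)
    have q2 : Gw X ξ p0 = 0 := norm_eq_zero.1 (by linarith)
    have q3 : Tw X ξ p0 = 0 := congrArg Prod.fst q2
    have q4 : Vw X ξ p0 = 0 := congrArg Prod.snd q2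
    obtain ⟨x, hx⟩ := hsurj ξ
    have hx' : x.1 • X p0 + fderiv ℝ X p0 x.2 = ξ := hx
    have q5 : ⟪ξ, fderiv ℝ X p0 (x.2.1, 0)⟫ = 0 := by
      have e1 : fderiv ℝ X p0 (x.2.1, 0) = Xt X p0 x.2.1 := rfl
      rw [e1, ← ContinuousLinearMap.adjoint_inner_left]
      have e2 : ContinuousLinearMap.adjoint (Xt X p0) ξ = Tw X ξ p0 := rfl
      rw [e2, q3, inner_zero_left]
    have q6 : ⟪ξ, fderiv ℝ X p0 (0, x.2.2)⟫ = 0 := by
      have e1 : fderiv ℝ X p0 (0, x.2.2) = Xz X p0 x.2.2 := rfl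
      rw [e1, ← ContinuousLinearMap.adjoint_inner_left]
      have e2 : ContinuousLinearMap.adjoint (Xz X p0) ξ = Vw X ξ p0 := rfl
      rw [e2, q4, inner_zero_left]
    have q7 : ⟪ξ, fderiv ℝ X p0 x.2⟫ = 0 := by
      have e3 : x.2 = (x.2.1, 0) + (0, x.2.2) := by
        ext <;> simp
      rw [e3, map_add, inner_add_right, q5, q6, add_zero]
    have h2 : ⟪ξ, ξ⟫ = 0 := by
      calc ⟪ξ, ξ⟫ = ⟪ξ, x.1 • X p0 + fderiv ℝ X p0 x.2⟫ := by rw [hx']
        _ = 0 := by rw [inner_add_right, inner_smul_right, q7, q1, mul_zero, add_zero]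
    rw [real_inner_self_eq_norm_sq, hξ] at h2
    norm_num at h2
  -- compactness
  obtain ⟨c, hc, h5⟩ : ∃ c > 0, ∀ ξ ∈ sphere (0 : E n) 1, c < |⟪ξ, X p0⟫| + ‖Gw X ξ p0‖ := by
    rcases (sphere (0 : E n) 1).eq_empty_or_nonempty with he | hne
    · exact ⟨1, one_pos, fun ξ hξ => by rw [he] at hξ; exact absurd hξ (notMem_empty _)⟩
    · have hc0 : ContinuousOn (fun ξ : E n => |⟪ξ, X p0⟫| + ‖Gw X ξ p0‖) (sphere 0 1) :=
        (hF.comp (f := fun ξ : E n => (p0, ξ)) (by fun_prop)).continuousOn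
      obtain ⟨ξ0, hξ0, hmin⟩ := (isCompact_sphere (0 : E n) 1).exists_isMinOn hne hc0
      have h6 := hpos ξ0 hξ0
      exact ⟨(|⟪ξ0, X p0⟫| + ‖Gw X ξ0 p0‖) / 2, half_pos h6, fun ξ hξ =>
        lt_of_lt_of_le (half_lt_self h6) (hmin hξ)⟩
  have h6 : ∀ᶠ p in 𝓝 p0, ∀ ξ ∈ sphere (0 : E n) 1, c < |⟪ξ, X p⟫| + ‖Gw X ξ p‖ := by
    refine (isCompact_sphere (0 : E n) 1).eventually_forall_of_forall_eventually
      fun ξ hξ => ?_
    have h7 := (isOpen_lt continuous_const hF).mem_nhds (x := (p0, ξ)) (h5 ξ hξ)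
    exact h7
  obtain ⟨δ, hδ, h7⟩ := Metric.eventually_nhds_iff.1 h6
  refine ⟨c, hc, δ / 2, half_pos hδ, fun p hp ξ => ?_⟩
  have h8 := h7 (y := p) (by rw [dist_eq_norm]; linarith)
  rcases eq_or_ne ξ 0 with rfl | hξ
  · rw [norm_zero, mul_zero]
    positivity
  have hξ' : 0 < ‖ξ‖ := norm_pos_iff.2 hξ
  have h9 := h8 (‖ξ‖⁻¹ • ξ) (by
    rw [mem_sphere_zero_iff_norm, norm_smul, norm_inv, norm_norm, inv_mul_cancel₀ hξ'.ne'])
  have e1 : Gw X (‖ξ‖⁻¹ • ξ) p = ‖ξ‖⁻¹ • Gw X ξ p := by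
    unfold Gw Tw Vw
    rw [map_smul, map_smul]
    rfl
  rw [e1, norm_smul, norm_inv, norm_norm, real_inner_smul_left, abs_mul,
    abs_of_pos (inv_pos.2 hξ'), ← mul_add, inv_mul_eq_div, lt_div_iff₀ hξ'] at h9
  exact h9.le

end Pool.Agent.LFK
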