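import Pool.Agent.MP_6cbfb8_an.Defs

/-!
Change of variables for the surface measure of the unit sphere, in a chart `E k × E m → S^(k+m)`.
-/

set_option autoImplicit false

namespace Pool.Agent.LFK

open MeasureTheory Set Metric Pool.Agent.MP_6cbfb8_an
open scoped ENNReal Real ContDiff Topology

namespace CV

variable {k m d : ℕ}

/-- the derivative of `(r, p) ↦ r X(p)` at `r = 1` -/
noncomputable def Lp (X : E k × E m → E (d + 1)) (p : E k × E m) : ℝ × (E k × E m) →L[ℝ] E (d + 1) :=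
  (ContinuousLinearMap.fst ℝ ℝ (E k × E m)).smulRight (X p) +
    (fderiv ℝ X p).comp (ContinuousLinearMap.snd ℝ ℝ (E k × E m))

theorem Lp_apply (X : E k × E m → E (d + 1)) (p : E k × E m) (v : ℝ × (E k × E m)) :
    Lp X p v = v.1 • X p + fderiv ℝ X p v.2 := by
  simp [Lp]

/-- the linear coordinates -/
noncomputable def ee (hkm : k + m = d) : E (d + 1) ≃L[ℝ] ℝ × (E k × E m) :=
  ContinuousLinearEquiv.ofFinrankEq (by simp; omega)

/-- the determinant -/
noncomputable def dt (hkm : k + m = d) (X : E k × E m → E (d + 1)) (p : E k × E m) : ℝ :=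
  LinearMap.det ((Lp X p : ℝ × (E k × E m) →ₗ[ℝ] E (d + 1)) ∘ₗ
    ((ee hkm : E (d + 1) ≃L[ℝ] ℝ × (E k × E m)).toLinearEquiv : E (d + 1) →ₗ[ℝ] ℝ × (E k × E m)))

theorem dt_contDiff (hkm : k + m = d) (X : E k × E m → E (d + 1)) (hX : ContDiff ℝ ∞ X) :
    ContDiff ℝ ∞ (dt hkm X) := by
  have h1 : ∀ p, dt hkm X p = Matrix.det (Matrix.of fun i j : Fin (d + 1) =>
      (Lp X p (ee hkm (EuclideanSpace.single j 1))) i) := by
    intro p
    unfold dt
    rw [← LinearMap.det_toMatrix (EuclideanSpace.basisFun (Fin (d + 1)) ℝ).toBasis]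
    congr 1
  have h2 : dt hkm X = fun p => Matrix.det (Matrix.of fun i j : Fin (d + 1) =>
      (Lp X p (ee hkm (EuclideanSpace.single j 1))) i) := funext h1
  rw [h2]
  simp only [Matrix.det_apply]
  refine ContDiff.sum fun σ _ => ?_
  refine ContDiff.const_smul _ ?_
  refine contDiff_prod fun i _ => ?_
  simp only [Matrix.of_apply]
  have h3 : ContDiff ℝ ∞ fun p => Lp X p (ee hkm (EuclideanSpace.single i 1)) := by
    simp only [Lp_apply]
    have h4 : ContDiff ℝ ∞ fun p => ((ee hkm) (EuclideanSpace.single i 1)).1 • X p :=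
      hX.const_smul _
    refine ContDiff.add h4 ?_
    exact (hX.fderiv_right (m := ∞) (by simp)).clm_apply contDiff_const
  exact (contDiff_piLp_apply (p := 2) (i := σ i)).comp h3

theorem dt_ne (hkm : k + m = d) (X : E k × E m → E (d + 1)) (hX : ContDiff ℝ ∞ X)
    (p0 : E k × E m) {δ : ℝ}
    (h1 : ∀ p, ‖p - p0‖ ≤ δ → ‖X p‖ = 1)
    (him : ∀ p, ‖p - p0‖ ≤ δ → ∀ v, fderiv ℝ X p v = 0 → v = 0) (p : E k × E m)
    (hp : ‖p - p0‖ < δ) : dt hkm X p ≠ 0 := by
  -- orthogonality of `X` and its derivative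
  have ho : ∀ v, inner ℝ (X p) (fderiv ℝ X p v) = 0 := by
    intro v
    have hd : HasFDerivAt X (fderiv ℝ X p) p :=
      (hX.differentiable (by simp) p).hasFDerivAt
    have h3 := hd.inner ℝ hd
    have h4 : (fun q => inner ℝ (X q) (X q)) =ᶠ[𝓝 p] fun _ => (1:ℝ) := by
      have : ∀ᶠ q in 𝓝 p, ‖q - p0‖ < δ :=
        (continuous_id.sub continuous_const).norm.continuousAt.eventually_lt
          continuousAt_const hp
      filter_upwards [this] with q hq
      rw [real_inner_self_eq_norm_sq, h1 q hq.le]; norm_num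
    have h5 : HasFDerivAt (fun q => inner ℝ (X q) (X q)) (0 : (E k × E m) →L[ℝ] ℝ) p :=
      (hasFDerivAt_const (1:ℝ) p).congr_of_eventuallyEq h4
    have h6 := h3.unique h5
    have h7 := congrArg (fun L : (E k × E m) →L[ℝ] ℝ => L v) h6
    simp only [ContinuousLinearMap.comp_apply, ContinuousLinearMap.prod_apply,
      fderivInnerCLM_apply, zero_apply] at h7
    rw [real_inner_comm (X p) (fderiv ℝ X p v)] at h7
    linarith
  have hinj : Function.Injective ((Lp X p : ℝ × (E k × E m) →ₗ[ℝ] E (d + 1)) ∘ₗ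
    ((ee hkm : E (d + 1) ≃L[ℝ] ℝ × (E k × E m)).toLinearEquiv :
      E (d + 1) →ₗ[ℝ] ℝ × (E k × E m))) := by
    rw [LinearMap.coe_comp]
    refine Function.Injective.comp ?_ (ee hkm).toLinearEquiv.injective
    refine (injective_iff_map_eq_zero (Lp X p : ℝ × (E k × E m) →ₗ[ℝ] E (d + 1))).2 fun v hv => ?_
    have hv' : v.1 • X p + fderiv ℝ X p v.2 = 0 := by
      rw [← Lp_apply]; exact hv
    have h8 : v.1 = 0 := by
      have := congrArg (fun z => inner ℝ (X p) z) hv'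
      simp only [inner_add_right, inner_smul_right, ho, inner_zero_right,
        real_inner_self_eq_norm_sq, h1 p hp.le] at this
      linarith
    rw [h8, zero_smul, zero_add] at hv'
    exact Prod.ext h8 (him p hp.le _ hv')
  intro h0
  have h9 := LinearMap.bot_lt_ker_of_det_eq_zero h0
  rw [LinearMap.ker_eq_bot.2 hinj] at h9
  exact lt_irrefl _ h9

/-- the scaling of the second factor -/
noncomputable def sc (r : ℝ) : ℝ × (E k × E m) →L[ℝ] ℝ × (E k × E m) :=
  (ContinuousLinearMap.fst ℝ ℝ (E k × E m)).prod (r • ContinuousLinearMap.snd ℝ ℝ (E k × E m))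

theorem det_sc (hkm : k + m = d) (r : ℝ) :
    LinearMap.det ((sc (k := k) (m := m) r).toLinearMap) = r ^ d := by
  have h : (sc (k := k) (m := m) r).toLinearMap =
      LinearMap.prodMap (LinearMap.id : ℝ →ₗ[ℝ] ℝ)
        (r • (LinearMap.id : E k × E m →ₗ[ℝ] E k × E m)) := by
    refine LinearMap.ext fun v => ?_
    simp [sc]
  rw [h, LinearMap.det_prodMap, LinearMap.det_id, one_mul, LinearMap.det_smul, LinearMap.det_id,
    mul_one]
  congr 1
  simp [hkm]

/-- the cone over the chart -/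
noncomputable def Ph (X : E k × E m → E (d + 1)) (v : ℝ × (E k × E m)) : E (d + 1) := v.1 • X v.2

theorem Ph_deriv (X : E k × E m → E (d + 1)) (hX : ContDiff ℝ ∞ X) (v : ℝ × (E k × E m)) :
    HasFDerivAt (Ph X) ((Lp X v.2).comp (sc v.1)) v := by
  have hd : HasFDerivAt X (fderiv ℝ X v.2) v.2 :=
    (hX.differentiable (by simp) v.2).hasFDerivAt
  have h1 : HasFDerivAt (fun w : ℝ × (E k × E m) => w.1)
      (ContinuousLinearMap.fst ℝ ℝ (E k × E m)) v := hasFDerivAt_fst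
  have h2 : HasFDerivAt (fun w : ℝ × (E k × E m) => X w.2)
      ((fderiv ℝ X v.2).comp (ContinuousLinearMap.snd ℝ ℝ (E k × E m))) v :=
    hd.comp v hasFDerivAt_snd
  have h3 := h1.smul h2
  refine h3.congr_fderiv ?_
  refine ContinuousLinearMap.ext fun w => ?_
  simp [Lp_apply, sc, add_comm]

end CV

open CV

/-- **Change of variables** for the surface measure of the unit sphere. -/
theorem cv {k m d : ℕ} (hkm : k + m = d) (X : E k × E m → E (d + 1)) (p0 : E k × E m) {δ : ℝ}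
    (hδ : 0 < δ)
    (hX : ContDiff ℝ ∞ X) (h1 : ∀ p, ‖p - p0‖ ≤ δ → ‖X p‖ = 1)
    (hinj : ∀ p q, ‖p - p0‖ ≤ δ → ‖q - p0‖ ≤ δ → X p = X q → p = q)
    (him : ∀ p, ‖p - p0‖ ≤ δ → ∀ v, fderiv ℝ X p v = 0 → v = 0) :
    ∃ J : E k × E m → ℝ, (∀ p, ‖p - p0‖ < δ → ContDiffAt ℝ ∞ J p) ∧
      ∀ f : E (d + 1) → ℂ, (∀ x, ‖x‖ = 1 → f x ≠ 0 → ∃ p, ‖p - p0‖ < δ ∧ X p = x) →
        ∫ x : S (d + 1), f x ∂(sm (d + 1)) = ∫ p in Metric.ball p0 δ, f (X p) * (J p : ℂ) := by
  classical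
  -- the constant of the linear coordinates
  obtain ⟨c, hc0, hc⟩ : ∃ c : ℝ, 0 < c ∧ ∀ (T : Set (ℝ × (E k × E m))), MeasurableSet T →
      ∀ H : ℝ × (E k × E m) → ℂ,
      ∫ v in T, H v = (c : ℂ) * ∫ y in (ee hkm) ⁻¹' T, H (ee hkm y) := by
    let ν : Measure (ℝ × (E k × E m)) := (volume : Measure (E (d + 1))).map (ee hkm)
    have : ν.IsAddHaarMeasure := (ee hkm).isAddHaarMeasure_map volume
    have i1 : (volume : Measure (E k × E m)).IsAddHaarMeasure := by
      rw [Measure.volume_eq_prod]; infer_instance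
    have i2 : (volume : Measure (ℝ × (E k × E m))).IsAddHaarMeasure := by
      rw [Measure.volume_eq_prod]; infer_instance
    obtain ⟨c', hc', hν⟩ : ∃ c' : NNReal, 0 < c' ∧
        (volume : Measure (ℝ × (E k × E m))) = c' • ν :=
      ⟨_, Measure.addHaarScalarFactor_pos_of_isAddHaarMeasure _ _,
        Measure.isAddLeftInvariant_eq_smul (volume : Measure (ℝ × (E k × E m))) ν⟩
    refine ⟨(c' : ℝ), ?_, ?_⟩
    · exact_mod_cast hc'
    · intro T hT H
      rw [hν]
      rw [Measure.restrict_smul]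
      rw [MeasureTheory.integral_smul_nnreal_measure]
      have h3 : ∫ v in T, H v ∂ν = ∫ y in (ee hkm) ⁻¹' T, H (ee hkm y) :=
        (ee hkm).toHomeomorph.measurableEmbedding.setIntegral_map _ _
      rw [h3]
      rfl
  -- the radial constants
  obtain ⟨I1, hI1⟩ : ∃ I1 : ℝ, I1 = ∫ r in Ioo (0:ℝ) 1, r ^ d := ⟨_, rfl⟩
  obtain ⟨I2, hI2, hI2'⟩ : ∃ I2 : ℝ, I2 ≠ 0 ∧
      ∫ r : Ioi (0:ℝ), (if (r : ℝ) < 1 then (1:ℂ) else 0) ∂(Measure.volumeIoiPow (d)) = I2 := by
    obtain ⟨o, ho⟩ : ∃ o : Ioi (0:ℝ), (o : ℝ) = 1 := ⟨⟨1, mem_Ioi.2 zero_lt_one⟩, rfl⟩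
    refine ⟨(Measure.volumeIoiPow (d)).real (Iio o), ?_, ?_⟩
    · rw [Measure.real, Measure.volumeIoiPow_apply_Iio, ho, ENNReal.toReal_ofReal (by positivity)]
      positivity
    · have h3 : (fun r : Ioi (0:ℝ) => if (r : ℝ) < 1 then (1:ℂ) else 0) =
          (Iio o).indicator fun _ => (1:ℂ) := by
        ext r
        by_cases hr : (r : ℝ) < 1
        · rw [if_pos hr, indicator_of_mem]
          rw [mem_Iio, ← Subtype.coe_lt_coe, ho]; exact hr
        · rw [if_neg hr, indicator_of_notMem]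
          rw [mem_Iio, ← Subtype.coe_lt_coe, ho]; exact hr
      rw [h3, integral_indicator measurableSet_Iio]
      simp
  refine ⟨fun p => c⁻¹ * I1 * I2⁻¹ * |dt hkm X p|, ?_, ?_⟩
  · intro p hp
    have h3 := dt_ne hkm X hX p0 h1 him p hp
    refine ContDiffAt.mul contDiffAt_const ?_
    exact (contDiffAt_abs h3).comp p (dt_contDiff hkm X hX).contDiffAt
  intro f hf
  obtain ⟨g, hg⟩ : ∃ g : E (d + 1) → ℂ, g = fun y => f (‖y‖⁻¹ • y) := ⟨_, rfl⟩
  obtain ⟨T, hT⟩ : ∃ T : Set (ℝ × (E k × E m)), T = Ioo (0:ℝ) 1 ×ˢ Metric.ball p0 δ := ⟨_, rfl⟩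
  have hTm : MeasurableSet T := by
    rw [hT]; exact measurableSet_Ioo.prod measurableSet_ball
  obtain ⟨s, hs⟩ : ∃ s : Set (E (d + 1)), s = (ee hkm) ⁻¹' T := ⟨_, rfl⟩
  have hsm : MeasurableSet s := by
    rw [hs]; exact (ee hkm).continuous.measurable hTm
  have hmem : ∀ v ∈ T, 0 < v.1 ∧ v.1 < 1 ∧ ‖v.2 - p0‖ < δ := by
    intro v hv
    rw [hT] at hv
    exact ⟨hv.1.1, hv.1.2, by rw [← dist_eq_norm]; exact hv.2⟩
  have hnorm : ∀ v ∈ T, ‖Ph X v‖ = v.1 := by
    intro v hv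
    obtain ⟨a1, a2, a3⟩ := hmem v hv
    rw [Ph, norm_smul, h1 _ a3.le, mul_one, Real.norm_eq_abs, abs_of_pos a1]
  have hgP : ∀ v ∈ T, g (Ph X v) = f (X v.2) := by
    intro v hv
    obtain ⟨a1, a2, a3⟩ := hmem v hv
    rw [hg]
    simp only
    rw [hnorm v hv, Ph, smul_smul, inv_mul_cancel₀ a1.ne', one_smul]
  -- the map
  obtain ⟨Ψ, hΨ⟩ : ∃ Ψ : E (d + 1) → E (d + 1), Ψ = fun y => Ph X (ee hkm y) := ⟨_, rfl⟩
  obtain ⟨Ψ', hΨ'⟩ : ∃ Ψ' : E (d + 1) → E (d + 1) →L[ℝ] E (d + 1),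
      Ψ' = fun y => ((Lp X (ee hkm y).2).comp (sc (ee hkm y).1)).comp
        ((ee hkm : E (d + 1) ≃L[ℝ] ℝ × (E k × E m)) : E (d + 1) →L[ℝ] ℝ × (E k × E m)) := ⟨_, rfl⟩
  have hder : ∀ y ∈ s, HasFDerivWithinAt Ψ (Ψ' y) s y := by
    intro y _
    rw [hΨ, hΨ']
    have h3 : HasFDerivAt (fun z : E (d + 1) => ee hkm z)
        ((ee hkm : E (d + 1) ≃L[ℝ] ℝ × (E k × E m)) : E (d + 1) →L[ℝ] ℝ × (E k × E m)) y :=
      (ee hkm).hasFDerivAt
    exact ((Ph_deriv X hX (ee hkm y)).comp y h3).hasFDerivWithinAt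
  have hΨinj : InjOn Ψ s := by
    intro y hy z hz hyz
    rw [hs] at hy hz
    rw [hΨ] at hyz
    simp only at hyz
    obtain ⟨a1, a2, a3⟩ := hmem _ hy
    obtain ⟨b1, b2, b3⟩ := hmem _ hz
    have h3 : (ee hkm y).1 = (ee hkm z).1 := by
      rw [← hnorm _ hy, ← hnorm _ hz, hyz]
    have h4 : X (ee hkm y).2 = X (ee hkm z).2 := by
      have h5 := hyz
      unfold Ph at h5
      rw [h3] at h5
      exact smul_right_injective _ b1.ne' h5
    exact (ee hkm).injective (Prod.ext h3 (hinj _ _ a3.le b3.le h4))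
  have hdet : ∀ y ∈ s, |(Ψ' y).det| = (ee hkm y).1 ^ d * |dt hkm X (ee hkm y).2| := by
    intro y hy
    rw [hs] at hy
    obtain ⟨a1, a2, a3⟩ := hmem _ hy
    have h3 : ((Ψ' y : E (d + 1) →L[ℝ] E (d + 1)) : E (d + 1) →ₗ[ℝ] E (d + 1)) =
        ((Lp X (ee hkm y).2 : ℝ × (E k × E m) →ₗ[ℝ] E (d + 1)) ∘ₗ
          ((ee hkm).toLinearEquiv : E (d + 1) →ₗ[ℝ] ℝ × (E k × E m))) ∘ₗ
        (((ee hkm).toLinearEquiv.symm : ℝ × (E k × E m) →ₗ[ℝ] E (d + 1)) ∘ₗ
          (sc (k := k) (m := m) (ee hkm y).1).toLinearMap ∘ₗ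
          ((ee hkm).toLinearEquiv.symm.symm : E (d + 1) →ₗ[ℝ] ℝ × (E k × E m))) := by
      rw [hΨ']
      ext z
      simp
    rw [ContinuousLinearMap.det, h3, LinearMap.det_comp, LinearMap.det_conj, det_sc hkm]
    change |dt hkm X (ee hkm y).2 * _| = _
    rw [abs_mul, abs_of_pos (pow_pos a1 (d)), mul_comm]
  -- the integral over the image, computed in the chart
  have hA : ∫ y in Ψ '' s, g y =
      ((c⁻¹ * I1 : ℝ) : ℂ) * ∫ p in Metric.ball p0 δ, f (X p) * ((|dt hkm X p| : ℝ) : ℂ) := by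
    rw [integral_image_eq_integral_abs_det_fderiv_smul volume hsm hder hΨinj g]
    have h3 : ∫ y in s, |(Ψ' y).det| • g (Ψ y) =
        ∫ y in (ee hkm) ⁻¹' T, (fun v : ℝ × (E k × E m) =>
          (((v.1 : ℝ) : ℂ) ^ d) * (f (X v.2) * ((|dt hkm X v.2| : ℝ) : ℂ))) (ee hkm y) := by
      rw [← hs]
      refine setIntegral_congr_fun hsm fun y hy => ?_
      simp only
      rw [hdet y hy, hΨ]
      simp only
      rw [hgP _ (by rw [hs] at hy; exact hy), Complex.real_smul]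
      push_cast
      ring
    rw [h3]
    have h4 := hc T hTm (fun v : ℝ × (E k × E m) =>
          (((v.1 : ℝ) : ℂ) ^ d) * (f (X v.2) * ((|dt hkm X v.2| : ℝ) : ℂ)))
    have h5 : ∫ v in T, (fun v : ℝ × (E k × E m) =>
          (((v.1 : ℝ) : ℂ) ^ d) * (f (X v.2) * ((|dt hkm X v.2| : ℝ) : ℂ))) v =
        (I1 : ℂ) * ∫ p in Metric.ball p0 δ, f (X p) * ((|dt hkm X p| : ℝ) : ℂ) := by
      rw [hT, Measure.volume_eq_prod]
      have h6 := setIntegral_prod_mul (μ := (volume : Measure ℝ))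
        (ν := (volume : Measure (E k × E m))) (fun r : ℝ => ((r : ℝ) : ℂ) ^ d)
        (fun p : E k × E m => f (X p) * ((|dt hkm X p| : ℝ) : ℂ)) (Ioo (0:ℝ) 1) (Metric.ball p0 δ)
      refine h6.trans ?_
      congr 1
      have h7 := integral_ofReal (𝕜 := ℂ) (f := fun r : ℝ => r ^ d)
        (μ := (volume : Measure ℝ).restrict (Ioo 0 1))
      rw [hI1]
      refine Eq.trans ?_ h7
      refine integral_congr_ae (Filter.Eventually.of_forall fun r => ?_)
      simp
    have hc' : (c : ℂ) ≠ 0 := by exact_mod_cast hc0.ne'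
    have h7 : ∫ y in (ee hkm) ⁻¹' T, (fun v : ℝ × (E k × E m) =>
          (((v.1 : ℝ) : ℂ) ^ d) * (f (X v.2) * ((|dt hkm X v.2| : ℝ) : ℂ))) (ee hkm y) =
        (c : ℂ)⁻¹ * ∫ v in T, (fun v : ℝ × (E k × E m) =>
          (((v.1 : ℝ) : ℂ) ^ d) * (f (X v.2) * ((|dt hkm X v.2| : ℝ) : ℂ))) v := by
      rw [h4, ← mul_assoc, inv_mul_cancel₀ hc', one_mul]
    rw [h7, h5]
    push_cast
    ring
  -- the integral over the image, computed in polar coordinates
  have hB : ∫ y in Ψ '' s, g y = (I2 : ℂ) * ∫ x : S (d + 1), f x ∂(sm (d + 1)) := by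
    have h3 : ∫ y in Ψ '' s, g y = ∫ y in ({0}ᶜ : Set (E (d + 1))),
        (if ‖y‖ < 1 then (1:ℂ) else 0) * g y := by
      have h4 : ∫ y in ({0}ᶜ : Set (E (d + 1))), (if ‖y‖ < 1 then (1:ℂ) else 0) * g y =
          ∫ y in Ψ '' s, (if ‖y‖ < 1 then (1:ℂ) else 0) * g y := by
        refine setIntegral_eq_of_subset_of_forall_sdiff_eq_zero
          (measurableSet_singleton _).compl ?_ ?_
        · rintro y ⟨z, hz, rfl⟩
          rw [hs] at hz
          obtain ⟨a1, a2, a3⟩ := hmem _ hz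
          have h5 : ‖Ψ z‖ = (ee hkm z).1 := by rw [hΨ]; exact hnorm _ hz
          intro h6
          have h7 : Ψ z = 0 := h6
          rw [h7, norm_zero] at h5
          linarith
        · rintro y ⟨hy0, hy1⟩
          by_cases hy : ‖y‖ < 1
          · have hy0' : 0 < ‖y‖ := norm_pos_iff.2 hy0
            by_contra hne
            have h5 : f (‖y‖⁻¹ • y) ≠ 0 := by
              intro h6
              apply hne
              rw [hg]
              simp only
              rw [h6, mul_zero]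
            obtain ⟨p, hp, hXp⟩ := hf _ (by
              rw [norm_smul, norm_inv, norm_norm, inv_mul_cancel₀ hy0'.ne']) h5
            apply hy1
            refine ⟨(ee hkm).symm (‖y‖, p), ?_, ?_⟩
            · rw [hs, mem_preimage, ContinuousLinearEquiv.apply_symm_apply, hT]
              exact ⟨⟨hy0', hy⟩, by rw [Metric.mem_ball, dist_eq_norm]; exact hp⟩
            · rw [hΨ]
              simp only [ContinuousLinearEquiv.apply_symm_apply, Ph]
              rw [hXp, smul_smul, mul_inv_cancel₀ hy0'.ne', one_smul]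
          · rw [if_neg hy, zero_mul]
      rw [h4]
      have himg : MeasurableSet (Ψ '' s) :=
        measurable_image_of_fderivWithin hsm hder hΨinj
      refine setIntegral_congr_fun himg fun y hy => ?_
      obtain ⟨z, hz, rfl⟩ := hy
      rw [hs] at hz
      obtain ⟨a1, a2, a3⟩ := hmem _ hz
      have h5 : ‖Ψ z‖ = (ee hkm z).1 := by rw [hΨ]; exact hnorm _ hz
      rw [if_pos (by rw [h5]; exact a2), one_mul]
    rw [h3, ← integral_subtype_comap (measurableSet_singleton _).compl]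
    have hmp := Measure.measurePreserving_homeomorphUnitSphereProd
      (volume : Measure (E (d + 1)))
    have h8 := hmp.integral_comp (homeomorphUnitSphereProd (E (d + 1))).measurableEmbedding
      (fun z : S (d + 1) × Ioi (0:ℝ) => f z.1 * (if (z.2 : ℝ) < 1 then (1:ℂ) else 0))
    have h9 : ∀ y : ({0}ᶜ : Set (E (d + 1))),
        (if ‖(y : E (d + 1))‖ < 1 then (1:ℂ) else 0) * g y =
        (fun z : S (d + 1) × Ioi (0:ℝ) => f z.1 * (if (z.2 : ℝ) < 1 then (1:ℂ) else 0))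
          (homeomorphUnitSphereProd (E (d + 1)) y) := by
      intro y
      simp only [homeomorphUnitSphereProd_apply_fst_coe, homeomorphUnitSphereProd_apply_snd_coe]
      rw [hg, mul_comm]
    refine (integral_congr_ae (Filter.Eventually.of_forall h9)).trans ?_
    refine h8.trans ?_
    have h10 : Module.finrank ℝ (E (d + 1)) - 1 = d := by simp
    rw [h10]
    have h11 := integral_prod_mul (μ := sm (d + 1)) (ν := Measure.volumeIoiPow (d))
      (fun x : S (d + 1) => f x) (fun r : Ioi (0:ℝ) => if (r : ℝ) < 1 then (1:ℂ) else 0)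
    refine h11.trans ?_
    rw [hI2', mul_comm]
  have hI2c : (I2 : ℂ) ≠ 0 := by exact_mod_cast hI2
  have h12 : ∫ x : S (d + 1), f x ∂(sm (d + 1)) = (I2 : ℂ)⁻¹ * (((c⁻¹ * I1 : ℝ) : ℂ) *
      ∫ p in Metric.ball p0 δ, f (X p) * ((|dt hkm X p| : ℝ) : ℂ)) := by
    rw [← hA, hB, ← mul_assoc, inv_mul_cancel₀ hI2c, one_mul]
  rw [h12, ← mul_assoc, ← integral_const_mul]
  refine integral_congr_ae (Filter.Eventually.of_forall fun p => ?_)
  simp only
  push_cast
  ring

end Pool.Agent.LFK
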