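import Pool.Agent.LFK.CH2
import Pool.Agent.LF.CH1

/-!
[LEAFK]: for one function the condition of LEAF implies general position.
-/

set_option autoImplicit false

namespace Pool.Agent.LFK

open Set Pool.Agent.MP_6cbfb8_an Module
open scoped RealInnerProductSpace ContDiff

variable {n : ℕ}

/-- Linear algebra: if `a, b` are orthogonal to each other and to `x0` and `B(z, a) = B(z, b) = 0` for
all `z` in a hyperplane `l = 0` of the orthogonal complement of `x0`, then there is `z ≠ 0` in that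
hyperplane with `B(z, w) = 0` for all `w` orthogonal to `x0`. -/
theorem cyc_lin (B : E n →L[ℝ] E n →L[ℝ] ℝ) (l : E n →L[ℝ] ℝ) {x0 a b : E n} (hx0 : x0 ≠ 0)
    (ha : a ≠ 0) (hb : b ≠ 0) (hax : ⟪a, x0⟫ = 0) (hbx : ⟪b, x0⟫ = 0) (hab : ⟪a, b⟫ = 0)
    (hBa : ∀ z, ⟪z, x0⟫ = 0 → l z = 0 → B z a = 0) (hBb : ∀ z, ⟪z, x0⟫ = 0 → l z = 0 → B z b = 0) :
    ∃ z, z ≠ 0 ∧ ⟪z, x0⟫ = 0 ∧ l z = 0 ∧ ∀ w, ⟪w, x0⟫ = 0 → B z w = 0 := by
  -- the orthogonal complement of the three vectors
  set U : Submodule ℝ (E n) := (Submodule.span ℝ (Set.range ![x0, a, b]))ᗮ with hU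
  have hli : LinearIndependent ℝ ![x0, a, b] := by
    refine linearIndependent_of_ne_zero_of_inner_eq_zero (𝕜 := ℝ) ?_ ?_
    · intro i
      fin_cases i
      · exact hx0
      · exact ha
      · exact hb
    · intro i j hij
      fin_cases i <;> fin_cases j <;> simp_all [real_inner_comm]
  have hUdim : finrank ℝ U + 3 = n := by
    have h1 := (Submodule.span ℝ (Set.range ![x0, a, b])).finrank_add_finrank_orthogonal
    rw [finrank_span_eq_card hli, Fintype.card_fin, finrank_euclideanSpace, Fintype.card_fin] at h1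
    rw [hU]
    omega
  -- the hyperplane
  set L : E n →ₗ[ℝ] (ℝ × ℝ) := ((innerSL ℝ x0 : E n →L[ℝ] ℝ) : E n →ₗ[ℝ] ℝ).prod (l : E n →ₗ[ℝ] ℝ)
    with hL
  have hLdim : n ≤ finrank ℝ (LinearMap.ker L) + 2 := by
    have h1 := LinearMap.finrank_range_add_finrank_ker L
    have h2 : finrank ℝ (LinearMap.range L) ≤ 2 := by
      refine (Submodule.finrank_le _).trans ?_
      simp
    rw [finrank_euclideanSpace, Fintype.card_fin] at h1
    omega
  -- the map into the dual of `U`
  set T : LinearMap.ker L →ₗ[ℝ] Dual ℝ U :=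
    { toFun := fun z => ((B (z : E n) : E n →L[ℝ] ℝ) : E n →ₗ[ℝ] ℝ).comp U.subtype
      map_add' := fun z z' => by ext u; simp
      map_smul' := fun c z => by ext u; simp } with hT
  have hker : LinearMap.ker T ≠ ⊥ := by
    apply LinearMap.ker_ne_bot_of_finrank_lt
    rw [Subspace.dual_finrank_eq]
    omega
  obtain ⟨z, hz, hz0⟩ := Submodule.exists_mem_ne_zero_of_ne_bot hker
  have hzL : L (z : E n) = 0 := LinearMap.mem_ker.1 z.2
  have hz1 : ⟪(z : E n), x0⟫ = 0 := by
    have := (Prod.ext_iff.1 hzL).1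
    rw [real_inner_comm]
    exact this
  have hz2 : l (z : E n) = 0 := by
    have := (Prod.ext_iff.1 hzL).2
    exact this
  refine ⟨z, fun h => hz0 (Subtype.ext h), hz1, hz2, fun w hw => ?_⟩
  have hTz : ∀ u ∈ U, B (z : E n) u = 0 := by
    intro u hu
    have h1 : T z ⟨u, hu⟩ = 0 := by
      rw [LinearMap.mem_ker.1 hz]
      rfl
    exact h1
  have haa : ⟪a, a⟫ ≠ 0 := inner_self_ne_zero.2 ha
  have hbb : ⟪b, b⟫ ≠ 0 := inner_self_ne_zero.2 hb
  obtain ⟨u, hu⟩ : ∃ u : E n, u = w - (⟪a, w⟫ / ⟪a, a⟫) • a - (⟪b, w⟫ / ⟪b, b⟫) • b := ⟨_, rfl⟩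
  have huU : u ∈ U := by
    rw [hU, Submodule.mem_orthogonal]
    intro y hy
    have h0 : ⟪x0, w⟫ = 0 := by rw [real_inner_comm]; exact hw
    have h1 : ⟪x0, a⟫ = 0 := by rw [real_inner_comm]; exact hax
    have h2 : ⟪x0, b⟫ = 0 := by rw [real_inner_comm]; exact hbx
    have h3 : ⟪b, a⟫ = 0 := by rw [real_inner_comm]; exact hab
    induction hy using Submodule.span_induction with
    | mem y hy =>
      obtain ⟨i, rfl⟩ := hy
      rw [hu]
      fin_cases i
      · simp [inner_sub_right, inner_smul_right, h0, h1, h2]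
      · simp only [Fin.mk_one, Matrix.cons_val_one, Matrix.cons_val_zero, inner_sub_right,
          inner_smul_right, hab]
        field_simp
        ring
      · simp only [Fin.reduceFinMk, Matrix.cons_val, inner_sub_right, inner_smul_right, h3]
        field_simp
        ring
    | zero => exact inner_zero_left _
    | add y y' _ _ hy hy' => rw [inner_add_left, hy, hy', add_zero]
    | smul c y _ hy => rw [inner_smul_left, hy, mul_zero]
  have hw' : w = u + (⟪a, w⟫ / ⟪a, a⟫) • a + (⟪b, w⟫ / ⟪b, b⟫) • b := by rw [hu]; abel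
  rw [hw', map_add, map_add, map_smul, map_smul, hTz u huU, hBa _ hz1 hz2, hBb _ hz1 hz2]
  simp

/-- **For one function the condition `Cyc` of LEAF implies general position.** -/
theorem gen_of_cyc (hn : 2 ≤ n) {φ : E n → E 1} {x0 : E n} (hx0 : ‖x0‖ = 1)
    (hφ : ContDiffAt ℝ 2 φ x0) (hc : LF.Cyc (fun x => φ x 0) x0) : Gen φ x0 := by
  obtain ⟨f, hf⟩ : ∃ f : E n → ℝ, f = fun x => φ x 0 := ⟨_, rfl⟩
  rw [← hf] at hc
  have hx0' : x0 ≠ 0 := by
    intro h
    rw [h, norm_zero] at hx0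
    exact zero_ne_one hx0
  have hf2 : ContDiffAt ℝ 2 f x0 := by
    rw [hf]
    exact contDiffAt_euclidean.1 hφ 0
  have hP : ∀ c : ℝ × E 1, Phc φ c = fun x => c.1 / 2 * ‖x‖ ^ 2 + c.2 0 * f x := by
    intro c
    funext x
    unfold Phc
    rw [hf, PiLp.inner_apply]
    simp [mul_comm]
  have hd : ∀ᶠ x in nhds x0, DifferentiableAt ℝ f x := by
    filter_upwards [hf2.eventually (by simp)] with q hq
    exact hq.differentiableAt (by norm_num)
  obtain ⟨I, hI⟩ : ∃ I : E n →L[ℝ] E n →L[ℝ] ℝ, ∀ x y, I x y = ⟪x, y⟫ :=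
    ⟨innerSL ℝ, fun x y => rfl⟩
  have hP1 : ∀ c : ℝ × E 1, ∀ x, DifferentiableAt ℝ f x → fderiv ℝ (Phc φ c) x =
      c.1 • I x + c.2 0 • fderiv ℝ f x := by
    intro c x hx
    have h1 : HasFDerivAt (fun x : E n => c.1 / 2 * ‖x‖ ^ 2) ((c.1 / 2) • (2 • (innerSL ℝ x))) x :=
      (hasStrictFDerivAt_norm_sq x).hasFDerivAt.const_mul (c.1 / 2)
    have h2 : HasFDerivAt (fun x : E n => c.2 0 * f x) (c.2 0 • fderiv ℝ f x) x :=
      hx.hasFDerivAt.const_mul (c.2 0)
    have h12 : HasFDerivAt (fun x : E n => c.1 / 2 * ‖x‖ ^ 2 + c.2 0 * f x)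
        ((c.1 / 2) • (2 • (innerSL ℝ x)) + c.2 0 • fderiv ℝ f x) x := h1.add h2
    rw [hP c, h12.fderiv]
    ext y
    simp [hI]
    ring
  have hP2 : ∀ c : ℝ × E 1, ∀ a y, fderiv ℝ (fderiv ℝ (Phc φ c)) x0 a y =
      c.1 * ⟪a, y⟫ + c.2 0 * fderiv ℝ (fderiv ℝ f) x0 a y := by
    intro c a y
    have h1 : fderiv ℝ (Phc φ c) =ᶠ[nhds x0] fun x => c.1 • I x + c.2 0 • fderiv ℝ f x := by
      filter_upwards [hd] with x hx
      exact hP1 c x hx
    have h2 : HasFDerivAt (fun x : E n => c.1 • I x) (c.1 • I) x0 := I.hasFDerivAt.const_smul c.1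
    have h3 : HasFDerivAt (fun x : E n => c.2 0 • fderiv ℝ f x)
        (c.2 0 • fderiv ℝ (fderiv ℝ f) x0) x0 :=
      ((hf2.fderiv_right (m := 1) (by norm_num)).differentiableAt (by norm_num)).hasFDerivAt.const_smul
        (c.2 0)
    have h23 : HasFDerivAt (fun x : E n => c.1 • I x + c.2 0 • fderiv ℝ f x)
        (c.1 • I + c.2 0 • fderiv ℝ (fderiv ℝ f) x0) x0 := h2.add h3
    rw [h1.fderiv_eq, h23.fderiv]
    simp [hI]
  have hsymm : ∀ a b, fderiv ℝ (fderiv ℝ f) x0 a b = fderiv ℝ (fderiv ℝ f) x0 b a := by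
    intro a b
    exact (hf2.isSymmSndFDerivAt (by simp)).eq a b
  have hd0 : DifferentiableAt ℝ f x0 := hd.self_of_nhds
  obtain ⟨g, hg1, hg2⟩ := LF.cyc_grad hn hx0 hf2 hc
  refine ⟨?_, ?_⟩
  · intro c h0
    have h1 : ∀ y, c.1 * ⟪x0, y⟫ + c.2 0 * fderiv ℝ f x0 y = 0 := by
      intro y
      have := congrArg (fun L : E n →L[ℝ] ℝ => L y) h0
      rw [hP1 c x0 hd0] at this
      simpa [hI] using this
    have h2 := h1 g
    rw [real_inner_comm, hg1, mul_zero, zero_add] at h2
    have h3 : c.2 0 = 0 := (mul_eq_zero.1 h2).resolve_right hg2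
    have h4 := h1 x0
    rw [h3, zero_mul, add_zero, real_inner_self_eq_norm_sq, hx0, one_pow, mul_one] at h4
    refine Prod.ext h4 ?_
    ext i
    fin_cases i
    exact h3
  · intro c c1 c2 c3 a b hc0 ha hb hax hbx hab e1 e2
    exfalso
    have f1 : ∀ y, ⟪y, x0⟫ = 0 → c.1 * ⟪a, y⟫ + c.2 0 * fderiv ℝ (fderiv ℝ f) x0 a y +
        c1.2 0 * fderiv ℝ f x0 y = 0 := by
      intro y hy
      have h1 := e1 y
      have hy' : ⟪x0, y⟫ = 0 := by rw [real_inner_comm]; exact hy
      rw [hP2, hP1 c1 x0 hd0] at h1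
      simp only [_root_.add_apply, _root_.smul_apply, hI, smul_eq_mul] at h1
      rw [hy'] at h1
      linarith
    have f2 : ∀ y, ⟪y, x0⟫ = 0 → c.1 * ⟪b, y⟫ + c.2 0 * fderiv ℝ (fderiv ℝ f) x0 b y +
        c2.2 0 * fderiv ℝ f x0 y = 0 := by
      intro y hy
      have h1 := e2 y
      have hy' : ⟪x0, y⟫ = 0 := by rw [real_inner_comm]; exact hy
      rw [hP2, hP1 c2 x0 hd0] at h1
      simp only [_root_.add_apply, _root_.smul_apply, hI, smul_eq_mul] at h1
      rw [hy'] at h1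
      linarith
    have haa : 0 < ⟪a, a⟫ := real_inner_self_pos.2 ha
    have hbb : 0 < ⟪b, b⟫ := real_inner_self_pos.2 hb
    rcases eq_or_ne (c.2 0) 0 with h0 | h0
    · have hc1 : c.1 ≠ 0 := by
        intro h
        apply hc0
        refine Prod.ext h ?_
        ext i
        fin_cases i
        exact h0
      have g1 := f1 a hax
      have g2 := f2 a hax
      have g3 := f2 b hbx
      rw [h0] at g1 g2 g3
      have hba : ⟪b, a⟫ = 0 := by rw [real_inner_comm]; exact hab
      rw [hba] at g2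
      simp only [zero_mul, add_zero, mul_zero, zero_add] at g1 g2 g3
      rcases mul_eq_zero.1 g2 with h | h
      · rw [h, zero_mul, add_zero] at g3
        rcases mul_eq_zero.1 g3 with h' | h'
        · exact hc1 h'
        · exact hbb.ne' h'
      · rw [h, mul_zero, add_zero] at g1
        rcases mul_eq_zero.1 g1 with h' | h'
        · exact hc1 h'
        · exact haa.ne' h'
    · obtain ⟨z, hz0, hz1, hz2, hz3⟩ := cyc_lin
        (c.1 • I + c.2 0 • fderiv ℝ (fderiv ℝ f) x0)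
        (fderiv ℝ f x0) hx0' ha hb hax hbx hab
        (fun z hz hlz => by
          have h1 := f1 z hz
          rw [hlz, mul_zero, add_zero] at h1
          simp only [_root_.add_apply, _root_.smul_apply, hI, smul_eq_mul]
          rw [real_inner_comm a z, hsymm z a]
          exact h1)
        (fun z hz hlz => by
          have h1 := f2 z hz
          rw [hlz, mul_zero, add_zero] at h1
          simp only [_root_.add_apply, _root_.smul_apply, hI, smul_eq_mul]
          rw [real_inner_comm b z, hsymm z b]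
          exact h1)
      obtain ⟨w, hw1, hw2⟩ := hc z hz0 hz1 hz2 (-(c.1 / c.2 0))
      apply hw2
      have h1 := hz3 w hw1
      simp only [_root_.add_apply, _root_.smul_apply, hI, smul_eq_mul] at h1
      field_simp
      linarith

end Pool.Agent.LFK
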