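import Pool.Agent.LEAF.DOM4
import Pool.Agent.LF.NSP0

/-!
Domination of the caps of a density which is rough in `k` variables.
-/

namespace Pool.Agent.LFK

open MeasureTheory Set Metric FourierTransform
open Pool.Agent.MP_6cbfb8_an Pool.Agent.LEAF Pool.Agent.LF Pool.Agent.GNP
open scoped ENNReal Real RealInnerProductSpace ContDiff

/-! ### The windowed transform -/

/-- The windowed transform. -/
noncomputable def Psk {k : ℕ} (ρ : ℝ) (g : E k → ℂ) (R : ℝ) (t0 τ : E k) : ℂ :=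
  ∫ t in closedBall t0 (ρ / √R), g t * Complex.exp (((-⟪t - t0, τ⟫ : ℝ) : ℂ) * Complex.I)

theorem Psk_def {k : ℕ} (ρ : ℝ) (g : E k → ℂ) (R : ℝ) (t0 τ : E k) : Psk ρ g R t0 τ =
    ∫ t in closedBall t0 (ρ / √R), g t *
      Complex.exp (((-⟪t - t0, τ⟫ : ℝ) : ℂ) * Complex.I) := rfl

/-- The volume of the unit ball. -/
noncomputable def vk (k : ℕ) : ℝ := (volume (ball (0 : E k) 1)).toReal

theorem vk_nonneg (k : ℕ) : 0 ≤ vk k := ENNReal.toReal_nonneg

theorem vol_win {k : ℕ} {ρ : ℝ} (hρ : 0 ≤ ρ) (R : ℝ) (t0 : E k) :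
    volume (closedBall t0 (ρ / √R)) = ENNReal.ofReal (ρ ^ k * vk k * (1 / √R) ^ k) := by
  rw [Measure.addHaar_closedBall _ _ (by positivity), finrank_euclideanSpace, Fintype.card_fin,
    ← ENNReal.ofReal_toReal (measure_ball_lt_top (x := (0 : E k)) (r := 1)).ne,
    ← ENNReal.ofReal_mul (by positivity)]
  congr 1
  rw [div_pow, one_div, inv_pow, vk]
  ring

theorem Psk_bound {k : ℕ} {ρ : ℝ} (hρ : 0 ≤ ρ) {g : E k → ℂ} {B R : ℝ} (hB : 0 ≤ B)
    (hg : ∀ t, ‖g t‖ ≤ B) (t0 τ : E k) :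
    ‖Psk ρ g R t0 τ‖ₑ ≤ ENNReal.ofReal (B * (ρ ^ k * vk k * (1 / √R) ^ k)) := by
  rw [Psk_def]
  refine (enorm_integral_le_lintegral_enorm _).trans ?_
  calc ∫⁻ t in closedBall t0 (ρ / √R),
        ‖g t * Complex.exp (((-⟪t - t0, τ⟫ : ℝ) : ℂ) * Complex.I)‖ₑ
      ≤ ∫⁻ _ in closedBall t0 (ρ / √R), ENNReal.ofReal B := by
        refine lintegral_mono fun t => ?_
        rw [← ofReal_norm, norm_mul, norm_ei, mul_one]
        exact ENNReal.ofReal_le_ofReal (hg t)
    _ = _ := by rw [setLIntegral_const, vol_win hρ, ← ENNReal.ofReal_mul hB]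

/-- Plancherel in `τ`. -/
theorem Psk_planch {k : ℕ} {ρ : ℝ} (hρ : 0 ≤ ρ) {g : E k → ℂ} {B R : ℝ} (hB : 0 ≤ B)
    (hgm : Measurable g) (hg : ∀ t, ‖g t‖ ≤ B) (t0 : E k) :
    ∫⁻ τ : E k, ‖Psk ρ g R t0 τ‖ₑ ^ 2 ≤
      ENNReal.ofReal ((2 * π) ^ k * (B ^ 2 * (ρ ^ k * vk k * (1 / √R) ^ k))) := by
  have hπ : (0 : ℝ) < 2 * π := by positivity
  set W : Set (E k) := closedBall t0 (ρ / √R) with hW
  set Ψ : E k → E k := fun t => (2 * π)⁻¹ • (t - t0) with hΨ
  have hΨm : Measurable Ψ := by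
    simp only [hΨ]
    fun_prop
  have hA : ∀ φ : E k → ℝ≥0∞, Measurable φ →
      ∫⁻ t in W, φ (Ψ t) ≤ ENNReal.ofReal ((2 * π) ^ k) * ∫⁻ x, φ x := by
    intro φ hφ
    refine (setLIntegral_le_lintegral _ _).trans (le_of_eq ?_)
    have h1 : ∫⁻ t, φ (Ψ t) = ∫⁻ t, φ ((2 * π)⁻¹ • t) :=
      lintegral_sub_right_eq_self (fun t => φ ((2 * π)⁻¹ • t)) t0
    rw [h1]
    have h2 : ∫⁻ t : E k, φ ((2 * π)⁻¹ • t) =
        ∫⁻ x, φ x ∂(Measure.map (fun t : E k => (2 * π)⁻¹ • t) volume) :=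
      (lintegral_map hφ (measurable_const_smul _)).symm
    rw [h2, Measure.map_addHaar_smul volume (inv_ne_zero hπ.ne'), lintegral_smul_measure,
      finrank_euclideanSpace, Fintype.card_fin, ← inv_pow, inv_inv,
      abs_of_pos (pow_pos hπ k), smul_eq_mul]
  have hgi : Integrable g (volume.restrict W) := by
    refine Measure.integrableOn_of_bounded (M := B) ?_ hgm.aestronglyMeasurable
      (Filter.Eventually.of_forall hg)
    exact measure_closedBall_lt_top.ne
  have key := Pool.Agent.MP_6cbfb8_an.bessel (volume.restrict W) Ψ hΨm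
    (ENNReal.ofReal ((2 * π) ^ k)) ENNReal.ofReal_ne_top hA g hgi
  have e1 : ∀ τ : E k, ‖Psk ρ g R t0 τ‖ₑ ^ 2 =
      ‖∫ t in W, g t *
        Complex.exp (((-(2 * π * inner ℝ (Ψ t) τ) : ℝ) : ℂ) * Complex.I)‖ₑ ^ (2 : ℝ) := by
    intro τ
    rw [ENNReal.rpow_two, Psk_def]
    congr 2
    refine integral_congr_ae (Filter.Eventually.of_forall fun t => ?_)
    simp only
    congr 3
    simp only [hΨ]
    rw [real_inner_smul_left]
    congr 2
    field_simp
  simp only [e1]
  refine key.trans ?_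
  calc ENNReal.ofReal ((2 * π) ^ k) * ∫⁻ t in W, ‖g t‖ₑ ^ (2 : ℝ)
      ≤ ENNReal.ofReal ((2 * π) ^ k) * ∫⁻ _ in W, ENNReal.ofReal (B ^ 2) := by
        refine mul_le_mul' le_rfl (lintegral_mono fun t => ?_)
        rw [← ofReal_norm, ENNReal.rpow_two, ← ENNReal.ofReal_pow (norm_nonneg _)]
        exact ENNReal.ofReal_le_ofReal (pow_le_pow_left₀ (norm_nonneg _) (hg t) 2)
    _ = _ := by
        rw [setLIntegral_const, hW, vol_win hρ, ← ENNReal.ofReal_mul (by positivity),
          ← ENNReal.ofReal_mul (by positivity)]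

/-! ### The Fourier transform in the smooth variables -/

/-- The Fourier transform in the smooth variables. -/
noncomputable def bhk {α : Type*} {m : ℕ} (b : α → E m → ℂ) (η : E m) (t : α) : ℂ := 𝓕 (b t) η

theorem bhk_def {α : Type*} {m : ℕ} (b : α → E m → ℂ) (η : E m) (t : α) :
    bhk b η t = 𝓕 (b t) η := rfl

theorem bhk_eq {α : Type*} {m : ℕ} (b : α → E m → ℂ) (η : E m) (t : α) : bhk b η t =
      ∫ v, Complex.exp (((-2 * π * ⟪v, η⟫ : ℝ) : ℂ) * Complex.I) * b t v := by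
  unfold bhk
  rw [Real.fourier_eq']
  rfl

theorem measurable_bhk {α : Type*} [MeasurableSpace α] {m : ℕ} {b : α → E m → ℂ}
    (hb : Measurable (Function.uncurry b)) :
    Measurable fun p : E m × α => bhk b p.1 p.2 := by
  have h0 : Measurable fun q : (E m × α) × E m => b q.1.2 q.2 := by
    have e1 : Measurable fun q : (E m × α) × E m => ((q.1.2, q.2) : α × E m) := by fun_prop
    exact hb.comp e1
  have h1 : Measurable fun q : (E m × α) × E m =>
      Complex.exp (((-2 * π * ⟪q.2, q.1.1⟫ : ℝ) : ℂ) * Complex.I) * b q.1.2 q.2 := by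
    refine Measurable.mul ?_ h0
    fun_prop
  have h2 := h1.stronglyMeasurable.integral_prod_right' (ν := (volume : Measure (E m)))
  have h3 : (fun p : E m × α => bhk b p.1 p.2) = fun p =>
      ∫ v, Complex.exp (((-2 * π * ⟪v, p.1⟫ : ℝ) : ℂ) * Complex.I) * b p.2 v := by
    funext p
    exact bhk_eq b p.1 p.2
  rw [h3]
  exact h2.measurable

attribute [local irreducible] bhk Psk

/-- `measurable_bhk`, composed. -/
theorem measurable_bhk' {α γ : Type*} [MeasurableSpace α] [MeasurableSpace γ] {m : ℕ}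
    {b : α → E m → ℂ} (hb : Measurable (Function.uncurry b)) {f : γ → E m} {g : γ → α}
    (hf : Measurable f) (hg : Measurable g) : Measurable fun a => bhk b (f a) (g a) := by
  have h1 : Measurable fun a => ((f a, g a) : E m × α) := hf.prodMk hg
  have h2 := (measurable_bhk hb).comp h1
  exact h2

theorem measurable_Psk {k m : ℕ} {b : E k → E m → ℂ} (hb : Measurable (Function.uncurry b))
    (ρ R : ℝ) (t0 : E k) : Measurable fun p : E k × E m => Psk ρ (bhk b p.2) R t0 p.1 := by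
  have hF : Measurable fun q : (E k × E m) × E k =>
      bhk b q.1.2 q.2 * Complex.exp (((-⟪q.2 - t0, q.1.1⟫ : ℝ) : ℂ) * Complex.I) := by
    refine Measurable.mul ?_ (by fun_prop)
    exact measurable_bhk' hb (measurable_snd.comp measurable_fst) measurable_snd
  have h1 := hF.stronglyMeasurable.integral_prod_right'
    (ν := (volume : Measure (E k)).restrict (closedBall t0 (ρ / √R)))
  have h2 : (fun p : E k × E m => Psk ρ (bhk b p.2) R t0 p.1) = fun p =>
      ∫ t in closedBall t0 (ρ / √R), bhk b p.2 t *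
        Complex.exp (((-⟪t - t0, p.1⟫ : ℝ) : ℂ) * Complex.I) := by
    funext p
    exact Psk_def _ _ _ _ _
  rw [h2]
  exact h1.measurable

/-- `measurable_Psk`, composed. -/
theorem measurable_Psk' {k m : ℕ} {γ : Type*} [MeasurableSpace γ] {b : E k → E m → ℂ}
    (hb : Measurable (Function.uncurry b)) (ρ R : ℝ) (t0 : E k) {f : γ → E m} {g : γ → E k}
    (hf : Measurable f) (hg : Measurable g) :
    Measurable fun a => Psk ρ (bhk b (f a)) R t0 (g a) := by
  have h1 : Measurable fun a => ((g a, f a) : E k × E m) := hg.prodMk hf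
  have h2 := (measurable_Psk hb ρ R t0).comp h1
  exact h2

theorem measurable_Psk1 {k : ℕ} {g : E k → ℂ} (hg : Measurable g) (ρ R : ℝ) (t0 : E k) :
    Measurable fun τ : E k => Psk ρ g R t0 τ := by
  have hF : Measurable fun q : E k × E k =>
      g q.2 * Complex.exp (((-⟪q.2 - t0, q.1⟫ : ℝ) : ℂ) * Complex.I) := by
    refine Measurable.mul (hg.comp measurable_snd) (by fun_prop)
  have h1 := hF.stronglyMeasurable.integral_prod_right'
    (ν := (volume : Measure (E k)).restrict (closedBall t0 (ρ / √R)))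
  have h2 : (fun τ : E k => Psk ρ g R t0 τ) = fun τ =>
      ∫ t in closedBall t0 (ρ / √R), g t *
        Complex.exp (((-⟪t - t0, τ⟫ : ℝ) : ℂ) * Complex.I) := by
    funext τ
    exact Psk_def _ _ _ _ _
  rw [h2]
  exact h1.measurable

/-- Inversion for the windowed transforms. -/
theorem Psk_inv {k m : ℕ} {b : E k → E m → ℂ} {C : ℝ} (hb : Measurable (Function.uncurry b))
    (hC : ∀ t η, ‖𝓕 (b t) η‖ ≤ C * (wt m η)⁻¹)
    (hinv : ∀ t z, b t z =
      ∫ η, Complex.exp (((2 * π * ⟪η, z⟫ : ℝ) : ℂ) * Complex.I) * 𝓕 (b t) η)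
    (ρ R : ℝ) (t0 τ : E k) (z : E m) :
    Psk ρ (fun t => b t z) R t0 τ =
      ∫ η, Complex.exp (((2 * π * ⟪η, z⟫ : ℝ) : ℂ) * Complex.I) *
        Psk ρ (bhk b η) R t0 τ := by
  set μ : Measure (E k) := volume.restrict (closedBall t0 (ρ / √R)) with hμ
  have : IsFiniteMeasure μ := ⟨by
    rw [hμ, Measure.restrict_apply_univ]
    exact measure_closedBall_lt_top⟩
  set F : E k × E m → ℂ := fun q =>
    Complex.exp (((2 * π * ⟪q.2, z⟫ : ℝ) : ℂ) * Complex.I) * (bhk b q.2 q.1 *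
      Complex.exp (((-⟪q.1 - t0, τ⟫ : ℝ) : ℂ) * Complex.I)) with hF
  have hFm : Measurable F := by
    refine Measurable.mul (by fun_prop) (Measurable.mul ?_ (by fun_prop))
    exact measurable_bhk' hb measurable_snd measurable_fst
  have hFi : Integrable F (μ.prod volume) := by
    have h1 : Integrable (fun q : E k × E m => (1 : ℝ) * (C * (wt m q.2)⁻¹))
        (μ.prod volume) := (integrable_const (1 : ℝ)).mul_prod ((wt_integrable m).const_mul C)
    refine h1.mono' hFm.aestronglyMeasurable (Filter.Eventually.of_forall fun q => ?_)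
    rw [hF]
    simp only
    rw [norm_mul, norm_mul, norm_ei, norm_ei, one_mul, one_mul, mul_one, bhk_def]
    exact hC q.1 q.2
  calc Psk ρ (fun t => b t z) R t0 τ
      = ∫ t, ∫ η, F (t, η) ∂volume ∂μ := by
        rw [Psk_def]
        refine integral_congr_ae (Filter.Eventually.of_forall fun t => ?_)
        simp only
        rw [hinv t z, ← integral_mul_const]
        refine integral_congr_ae (Filter.Eventually.of_forall fun η => ?_)
        simp only [hF, bhk_def]
        ring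
    _ = ∫ η, ∫ t, F (t, η) ∂μ ∂volume := integral_integral_swap hFi
    _ = _ := by
        refine integral_congr_ae (Filter.Eventually.of_forall fun η => ?_)
        simp only [hF, Psk_def]
        rw [integral_const_mul]

theorem Psk_z {k m : ℕ} {b : E k → E m → ℂ} {C : ℝ} (hb : Measurable (Function.uncurry b))
    (hC : ∀ t η, ‖𝓕 (b t) η‖ ≤ C * (wt m η)⁻¹)
    (hinv : ∀ t z, b t z =
      ∫ η, Complex.exp (((2 * π * ⟪η, z⟫ : ℝ) : ℂ) * Complex.I) * 𝓕 (b t) η)
    (ρ R : ℝ) (t0 τ : E k) (z : E m) :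
    ‖Psk ρ (fun t => b t z) R t0 τ‖ₑ ^ 2 ≤ ENNReal.ofReal (Wm m) *
      ∫⁻ η, ENNReal.ofReal (wt m η) * ‖Psk ρ (bhk b η) R t0 τ‖ₑ ^ 2 := by
  have hPm : Measurable fun η => Psk ρ (bhk b η) R t0 τ :=
    measurable_Psk' hb ρ R t0 measurable_id measurable_const
  have h1 : ‖Psk ρ (fun t => b t z) R t0 τ‖ₑ ≤ ∫⁻ η,
      ENNReal.ofReal (√((wt m η)⁻¹)) * (ENNReal.ofReal (√(wt m η)) *
        ‖Psk ρ (bhk b η) R t0 τ‖ₑ) := by
    rw [Psk_inv hb hC hinv]
    refine (enorm_integral_le_lintegral_enorm _).trans (le_of_eq ?_)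
    refine lintegral_congr fun η => ?_
    have hw := wt_pos m η
    rw [enorm_mul, ← ofReal_norm (Complex.exp _), norm_ei, ENNReal.ofReal_one, one_mul,
      ← mul_assoc, ← ENNReal.ofReal_mul (Real.sqrt_nonneg _),
      ← Real.sqrt_mul (inv_pos.2 hw).le, inv_mul_cancel₀ hw.ne', Real.sqrt_one,
      ENNReal.ofReal_one, one_mul]
  have hm1 : Measurable fun η : E m => ENNReal.ofReal (√((wt m η)⁻¹)) :=
    ((continuous_wt m).measurable.inv.sqrt).ennreal_ofReal
  have hm2 : Measurable fun η : E m => ENNReal.ofReal (√(wt m η)) *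
      ‖Psk ρ (bhk b η) R t0 τ‖ₑ := ((continuous_wt m).measurable.sqrt.ennreal_ofReal).mul hPm.enorm
  refine (pow_le_pow_left' h1 2).trans ((cs_mul volume hm1.aemeasurable
    hm2.aemeasurable).trans (le_of_eq ?_))
  congr 1
  · rw [← Wm_eq]
    refine lintegral_congr fun η => ?_
    rw [← ENNReal.ofReal_pow (Real.sqrt_nonneg _), Real.sq_sqrt (inv_pos.2 (wt_pos m η)).le]
  · refine lintegral_congr fun η => ?_
    rw [mul_pow, ← ENNReal.ofReal_pow (Real.sqrt_nonneg _), Real.sq_sqrt (wt_pos m η).le]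

end Pool.Agent.LFK
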