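import Pool.Agent.LFK.DOMK

/-!
Domination of the caps of a density which is rough in `k` variables, part 2.
-/

namespace Pool.Agent.LFK

open MeasureTheory Set Metric FourierTransform
open Pool.Agent.MP_6cbfb8_an Pool.Agent.LEAF Pool.Agent.LF Pool.Agent.GNP Pool.Agent.GPH
open scoped ENNReal Real RealInnerProductSpace ContDiff

attribute [local irreducible] bhk Psk

/-! ### The remainder of the phase -/

/-- The amplitude on the window: the cut-off times the remainder of the phase. -/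
noncomputable def Hk {k : ℕ} (θ : E k → ℝ) (Φ : E k → ℝ) (t0 : E k) (R : ℝ) (u : E k) : ℂ :=
  (θ u : ℂ) * ee (nsp_r Φ t0 (1 / √R) u)

theorem iter_ofReal {k : ℕ} {θ : E k → ℝ} (hθ : ContDiff ℝ ∞ θ) (j : ℕ) (u : E k) :
    ‖iteratedFDeriv ℝ j (fun u => (θ u : ℂ)) u‖ = ‖iteratedFDeriv ℝ j θ u‖ := by
  have h1 : ContDiffAt ℝ j θ u := (hθ.of_le (by exact_mod_cast le_top)).contDiffAt
  exact Complex.ofRealLI.norm_iteratedFDeriv_comp_left h1 le_rfl

/-- Decay of the Fourier transform and inversion, with finitely many derivatives. -/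
theorem four_decay3 (m : ℕ) (r : ℝ) : ∃ C : ℝ, 0 ≤ C ∧
    ∀ (f : E m → ℂ) (z0 : E m) (β : ℝ), 0 ≤ β → ContDiff ℝ ∞ f →
      (∀ z, r < ‖z - z0‖ → f z = 0) → (∀ j ≤ m + 1, ∀ z, ‖iteratedFDeriv ℝ j f z‖ ≤ β) →
      (∀ η, ‖𝓕 f η‖ ≤ C * β * (wt m η)⁻¹) ∧
      ∀ z, f z = ∫ η, Complex.exp (((2 * π * ⟪η, z⟫ : ℝ) : ℂ) * Complex.I) * 𝓕 f η := by
  set v0 : ℝ := volume.real (Metric.closedBall (0 : E m) r) with hv0
  have hv00 : 0 ≤ v0 := measureReal_nonneg
  refine ⟨2 ^ m * ((m + 2) * v0 + 2 ^ (m + 1) * ((m + 2) * v0)), by positivity,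
    fun f z0 β hβ hf hsupp hB => ?_⟩
  set S : ℝ := (m + 2) * v0 * β with hS
  have hS0 : 0 ≤ S := by positivity
  have hcs : HasCompactSupport f :=
    HasCompactSupport.intro (isCompact_closedBall z0 r) fun z hz => hsupp z (by
      rw [Metric.mem_closedBall, dist_eq_norm, not_le] at hz
      exact hz)
  have hfN : ContDiff ℝ ((⊤ : ℕ∞) : WithTop ℕ∞) f := hf
  have hcont : ∀ n : ℕ, Continuous (iteratedFDeriv ℝ n f) := fun n =>
    hf.continuous_iteratedFDeriv (by exact_mod_cast le_top)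
  have hint : ∀ n : ℕ, Integrable (iteratedFDeriv ℝ n f) := fun n =>
    (hcont n).integrable_of_hasCompactSupport (hcs.iteratedFDeriv n)
  have hfi : Integrable f := hf.continuous.integrable_of_hasCompactSupport hcs
  have hInt : ∀ n : ℕ, n ≤ m + 1 → ∫ v, ‖iteratedFDeriv ℝ n f v‖ ≤ β * v0 := by
    intro n hn
    have h1 : ∀ v, ‖iteratedFDeriv ℝ n f v‖ ≤
        indicator (Metric.closedBall z0 r) (fun _ => β) v := by
      intro v
      by_cases hv : v ∈ Metric.closedBall z0 r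
      · rw [indicator_of_mem hv]
        exact hB n hn v
      · rw [indicator_of_notMem hv]
        have h2 : v ∉ tsupport f := by
          intro h3
          apply hv
          refine (closure_minimal ?_ Metric.isClosed_closedBall) h3
          intro w hw
          by_contra h4
          rw [Metric.mem_closedBall, dist_eq_norm, not_le] at h4
          exact hw (hsupp w h4)
        have h3 : iteratedFDeriv ℝ n f v = 0 := by
          by_contra h4
          exact h2 (support_iteratedFDeriv_subset n h4)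
        rw [h3, norm_zero]
    have h2 : Integrable (indicator (Metric.closedBall z0 r) (fun _ => β)) :=
      (integrable_indicator_iff Metric.isClosed_closedBall.measurableSet).2
        (integrableOn_const measure_closedBall_lt_top.ne)
    refine (integral_mono (hint n).norm h2 h1).trans (le_of_eq ?_)
    rw [integral_indicator Metric.isClosed_closedBall.measurableSet, setIntegral_const,
      smul_eq_mul, mul_comm, hv0, measureReal_def, measureReal_def,
      Measure.addHaar_closedBall_center]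
  have hkey : ∀ (n : ℕ) (w : E m), n ≤ m + 1 → ‖w‖ ^ n * ‖𝓕 f w‖ ≤ 2 ^ n * S := by
    intro n w hn
    have h1 := Real.pow_mul_norm_iteratedFDeriv_fourier_le (K := 0) (N := ⊤) hfN
      (fun k n hk _ => by
        have hk0 : k = 0 := by
          have : ((k : ℕ∞)) ≤ 0 := hk
          exact Nat.le_zero.1 (by exact_mod_cast this)
        subst hk0
        simpa using (hint n).norm) (k := 0) (n := n) le_rfl le_top w
    rw [norm_iteratedFDeriv_zero] at h1
    refine h1.trans ?_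
    simp only [pow_zero, one_mul, Nat.cast_zero, mul_zero, zero_add]
    refine mul_le_mul_of_nonneg_left ?_ (by positivity)
    rw [Finset.range_one, Finset.singleton_product, Finset.sum_map]
    simp only [Function.Embedding.coeFn_mk, pow_zero, one_mul]
    refine (Finset.sum_le_sum fun j hj => hInt j (by
      have := Finset.mem_range.1 hj
      omega)).trans ?_
    rw [Finset.sum_const, Finset.card_range, nsmul_eq_mul, hS]
    push_cast
    have h2 : (n : ℝ) + 1 ≤ m + 2 := by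
      have : (n : ℝ) ≤ m + 1 := by exact_mod_cast hn
      linarith
    calc ((n : ℝ) + 1) * (β * v0) ≤ (m + 2) * (β * v0) := by gcongr
      _ = _ := by ring
  have hdec : ∀ η, ‖𝓕 f η‖ ≤ 2 ^ m * ((m + 2) * v0 + 2 ^ (m + 1) * ((m + 2) * v0)) * β *
      (wt m η)⁻¹ := by
    intro η
    rw [← div_eq_mul_inv, le_div_iff₀ (wt_pos m η)]
    have h0 := hkey 0 η (by omega)
    have h1 := hkey (m + 1) η le_rfl
    have h2 := add_pow_le (zero_le_one' ℝ) (norm_nonneg η) (m + 1)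
    rw [Nat.add_sub_cancel, one_pow] at h2
    unfold Pool.Agent.LEAF.wt
    calc ‖𝓕 f η‖ * (1 + ‖η‖) ^ (m + 1)
        ≤ ‖𝓕 f η‖ * (2 ^ m * (1 + ‖η‖ ^ (m + 1))) :=
          mul_le_mul_of_nonneg_left h2 (norm_nonneg _)
      _ = 2 ^ m * (‖η‖ ^ 0 * ‖𝓕 f η‖ + ‖η‖ ^ (m + 1) * ‖𝓕 f η‖) := by ring
      _ ≤ 2 ^ m * (2 ^ 0 * S + 2 ^ (m + 1) * S) := by gcongr
      _ = _ := by
          rw [hS]
          ring
  refine ⟨hdec, fun z => ?_⟩
  have hFc : Continuous (𝓕 f) := VectorFourier.fourierIntegral_continuous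
    Real.continuous_fourierChar (L := innerₗ (E m)) continuous_inner hfi
  have hFi : Integrable (𝓕 f) := by
    refine ((wt_integrable m).const_mul (2 ^ m * ((m + 2) * v0 +
      2 ^ (m + 1) * ((m + 2) * v0)) * β)).mono'
      hFc.aestronglyMeasurable (Filter.Eventually.of_forall hdec)
  have h1 := congrFun (hf.continuous.fourierInv_fourier_eq hfi hFi) z
  rw [Real.fourierInv_eq'] at h1
  rw [← h1]
  refine integral_congr_ae (Filter.Eventually.of_forall fun η => ?_)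
  simp only [smul_eq_mul]

/-- Decay and inversion for the amplitude on the window. -/
theorem Hk_four (k : ℕ) (A Bθ : ℕ → ℝ) (ρ : ℝ) (hρ : 1 ≤ ρ) : ∃ C : ℝ, 0 ≤ C ∧
    ∀ θ : E k → ℝ, ContDiff ℝ ∞ θ → (∀ u, ρ < ‖u‖ → θ u = 0) →
    (∀ j u, ‖iteratedFDeriv ℝ j θ u‖ ≤ Bθ j) → ∀ (Φ : E k → ℝ) (t0 : E k) (R κ : ℝ), 1 ≤ R →
      1 ≤ κ → ContDiff ℝ ∞ Φ → (∀ j t, ‖iteratedFDeriv ℝ j Φ t‖ ≤ κ * R * A j) →
      ContDiff ℝ ∞ (Hk θ Φ t0 R) ∧
      (∀ η, ‖𝓕 (Hk θ Φ t0 R) η‖ ≤ C * κ ^ (k + 1) * (wt k η)⁻¹) ∧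
      ∀ u, Hk θ Φ t0 R u =
        ∫ η, Complex.exp (((2 * π * ⟪η, u⟫ : ℝ) : ℂ) * Complex.I) * 𝓕 (Hk θ Φ t0 R) η := by
  set N : ℕ := k + 1 with hN
  set Bd : ℝ := ∑ i ∈ Finset.range (N + 1), |Bθ i| with hBd
  set M : ℝ := 1 + ∑ i ∈ Finset.range (N + 3), |A i| with hM
  set BH : ℝ := 2 ^ N * Bd * (N.factorial * (ρ * M) ^ N) with hBH
  have hBd0 : 0 ≤ Bd := Finset.sum_nonneg fun i _ => abs_nonneg _
  have hM1 : 1 ≤ M := by
    have : 0 ≤ ∑ i ∈ Finset.range (N + 3), |A i| := Finset.sum_nonneg fun i _ => abs_nonneg _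
    simp only [hM]
    linarith
  have hBH0 : 0 ≤ BH := by
    simp only [hBH]
    positivity
  obtain ⟨C, hC, H⟩ := four_decay3 k ρ
  refine ⟨C * BH, by positivity, fun θ hθ hθs hθB Φ t0 R κ hR hκ hΦ hΦB => ?_⟩
  have hR0 : 0 < R := by linarith
  have hκ0 : 0 < κ := by linarith
  have hsR : 0 < √R := Real.sqrt_pos.2 hR0
  have hl : 0 < 1 / √R := by positivity
  have hl1 : 1 / √R ≤ 1 := by
    rw [div_le_one hsR]
    exact Real.one_le_sqrt.2 hR
  have hl2 : ((1 / √R) ^ 2)⁻¹ = R := by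
    rw [div_pow, one_pow, one_div, inv_inv, Real.sq_sqrt hR0.le]
  have hθc : ContDiff ℝ ∞ fun u => (θ u : ℂ) := Complex.ofRealCLM.contDiff.comp hθ
  have hrc : ContDiff ℝ ∞ (nsp_r Φ t0 (1 / √R)) := nsp_r_cd hΦ t0 _
  have hHc : ContDiff ℝ ∞ (Hk θ Φ t0 R) := hθc.mul (contDiff_ee.comp hrc)
  have hHs : ∀ u, ρ < ‖u - 0‖ → Hk θ Φ t0 R u = 0 := by
    intro u hu
    rw [sub_zero] at hu
    unfold Hk
    rw [hθs u hu, Complex.ofReal_zero, zero_mul]
  have hβ0 : 0 ≤ BH * κ ^ N := by positivity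
  have hHB : ∀ j ≤ N, ∀ u, ‖iteratedFDeriv ℝ j (Hk θ Φ t0 R) u‖ ≤ BH * κ ^ N := by
    intro j hjN u
    by_cases hu : ‖u‖ ≤ ρ
    · have hκM : 1 ≤ κ * M := one_le_mul_of_one_le_of_one_le hκ hM1
      have h0 : ‖iteratedFDeriv ℝ j (Hk θ Φ t0 R) u‖ ≤
          2 ^ N * Bd * (N.factorial * (ρ * (κ * M)) ^ N) := by
        refine deriv_amp N (fun u => (θ u : ℂ)) (nsp_r Φ t0 (1 / √R))
          (hθc.of_le (by exact_mod_cast le_top)) (hrc.of_le (by exact_mod_cast le_top)) u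
          Bd (ρ * (κ * M)) hBd0 (one_le_mul_of_one_le_of_one_le hρ hκM) ?_ ?_ j hjN
        · intro i hi
          rw [iter_ofReal hθ]
          refine (hθB i u).trans ((le_abs_self _).trans ?_)
          exact Finset.single_le_sum (f := fun i => |Bθ i|) (fun i _ => abs_nonneg _)
            (Finset.mem_range.2 (by omega))
        · intro i hi1 hi
          refine nsp_r_bd (N := N) hΦ hl hl1 hρ hκM (fun i' _ hi' z _ => ?_) i hi1 hi u hu
          rw [hl2]
          refine (hΦB i' z).trans ?_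
          have h1 : |A i'| ≤ ∑ i ∈ Finset.range (N + 3), |A i| :=
            Finset.single_le_sum (f := fun i => |A i|) (fun i _ => abs_nonneg _)
              (Finset.mem_range.2 (by omega))
          have h2 : A i' ≤ M := by
            simp only [hM]
            linarith [le_abs_self (A i')]
          calc κ * R * A i' ≤ κ * R * M := by gcongr
            _ = κ * M * R := by ring
      refine h0.trans (le_of_eq ?_)
      rw [hBH, mul_pow ρ (κ * M), mul_pow κ M, mul_pow ρ M]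
      ring
    · have h2 : u ∉ tsupport (Hk θ Φ t0 R) := by
        intro h3
        apply hu
        have h4 : u ∈ closedBall (0 : E k) ρ := by
          refine (closure_minimal ?_ isClosed_closedBall) h3
          intro w hw
          by_contra h5
          rw [mem_closedBall, dist_eq_norm, not_le] at h5
          exact hw (hHs w h5)
        rw [mem_closedBall, dist_eq_norm, sub_zero] at h4
        exact h4
      have h3 : iteratedFDeriv ℝ j (Hk θ Φ t0 R) u = 0 := by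
        by_contra h4
        exact h2 (support_iteratedFDeriv_subset j h4)
      rw [h3, norm_zero]
      exact hβ0
  obtain ⟨h1, h2⟩ := H (Hk θ Φ t0 R) 0 (BH * κ ^ N) hβ0 hHc hHs hHB
  refine ⟨hHc, fun η => (h1 η).trans (le_of_eq ?_), h2⟩
  ring

/-- Domination in the rough variables. -/
theorem dom_tk (k : ℕ) (A Bθ : ℕ → ℝ) (ρ : ℝ) (hρ : 1 ≤ ρ) : ∃ C : ℝ, 0 ≤ C ∧
    ∀ θ : E k → ℝ, ContDiff ℝ ∞ θ → (∀ u, ρ < ‖u‖ → θ u = 0) →
    (∀ j u, ‖iteratedFDeriv ℝ j θ u‖ ≤ Bθ j) →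
    ∀ (Φ : E k → ℝ) (R κ B : ℝ) (t0 τ lt : E k) (g : E k → ℂ), 1 ≤ R → 1 ≤ κ →
      ContDiff ℝ ∞ Φ → (∀ j t, ‖iteratedFDeriv ℝ j Φ t‖ ≤ κ * R * A j) →
      (∀ v, fderiv ℝ Φ t0 v = -⟪v, τ⟫) → Measurable g → (∀ t, ‖g t‖ ≤ B) →
      ‖∫ t, g t * (θ (√R • (t - t0)) : ℂ) *
        Complex.exp (((√R * ⟪lt, t - t0⟫ : ℝ) : ℂ) * Complex.I) * ee (Φ t)‖ₑ ^ 2 ≤
        ENNReal.ofReal (C * κ ^ (2 * (k + 1))) * ∫⁻ ζ, ENNReal.ofReal ((wt k ζ)⁻¹) *
          ‖Psk ρ g R t0 (τ - √R • lt - (2 * π * √R) • ζ)‖ₑ ^ 2 := by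
  obtain ⟨C0, hC0, H⟩ := Hk_four k A Bθ ρ hρ
  refine ⟨C0 ^ 2 * Wm k, mul_nonneg (sq_nonneg _) (Wm_nonneg k), ?_⟩
  intro θ hθ hθs hθB Φ R κ B t0 τ lt g hR hκ hΦ hΦB hΦd hgm hg
  obtain ⟨hHc, hdec, hinv⟩ := H θ hθ hθs hθB Φ t0 R κ hR hκ hΦ hΦB
  have hκ0 : 0 < κ := by linarith
  obtain ⟨C, hCe⟩ : ∃ C : ℝ, C = C0 * κ ^ (k + 1) := ⟨_, rfl⟩
  have hC : 0 ≤ C := by rw [hCe]; positivity
  rw [← hCe] at hdec
  have hCC : C0 ^ 2 * Wm k * κ ^ (2 * (k + 1)) = C ^ 2 * Wm k := by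
    rw [hCe, mul_pow, ← pow_mul, mul_comm (k + 1) 2]
    ring
  rw [hCC]
  have hR0 : 0 < R := by linarith
  have hsR : 0 < √R := Real.sqrt_pos.2 hR0
  have hρ0 : 0 ≤ ρ := by linarith
  set W : Set (E k) := closedBall t0 (ρ / √R) with hW
  set μ : Measure (E k) := volume.restrict W with hμ
  have hμf : IsFiniteMeasure μ := ⟨by
    rw [hμ, Measure.restrict_apply_univ]
    exact measure_closedBall_lt_top⟩
  obtain ⟨τ1, hτ1⟩ : ∃ τ1 : E k, τ1 = τ - √R • lt := ⟨_, rfl⟩
  rw [← hτ1]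
  -- the Fourier transform of the amplitude
  set Q : E k → ℂ := 𝓕 (Hk θ Φ t0 R) with hQ
  have hHcs : HasCompactSupport (Hk θ Φ t0 R) :=
    HasCompactSupport.intro (isCompact_closedBall (0 : E k) ρ) fun u hu => by
      rw [mem_closedBall, dist_eq_norm, sub_zero, not_le] at hu
      unfold Hk
      rw [hθs u hu, Complex.ofReal_zero, zero_mul]
  have hQc : Continuous Q := VectorFourier.fourierIntegral_continuous
    Real.continuous_fourierChar (L := innerₗ (E k)) continuous_inner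
    (hHc.continuous.integrable_of_hasCompactSupport hHcs)
  -- the integrand
  have e1 : ∀ t, g t * (θ (√R • (t - t0)) : ℂ) *
      Complex.exp (((√R * ⟪lt, t - t0⟫ : ℝ) : ℂ) * Complex.I) * ee (Φ t) =
      ee (Φ t0) * (g t * Complex.exp (((-⟪t - t0, τ1⟫ : ℝ) : ℂ) * Complex.I) *
        Hk θ Φ t0 R (√R • (t - t0))) := by
    intro t
    have e2 : t0 + (1 / √R) • (√R • (t - t0)) = t := by
      rw [smul_smul, one_div, inv_mul_cancel₀ hsR.ne', one_smul, add_sub_cancel]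
    have e3 : nsp_r Φ t0 (1 / √R) (√R • (t - t0)) = Φ t - Φ t0 + ⟪t - t0, τ⟫ := by
      unfold nsp_r
      rw [e2, map_smul, hΦd, smul_eq_mul, ← mul_assoc, one_div, inv_mul_cancel₀ hsR.ne', one_mul]
      ring
    have e4 : ⟪t - t0, τ1⟫ = ⟪t - t0, τ⟫ - √R * ⟪lt, t - t0⟫ := by
      rw [hτ1, inner_sub_right, real_inner_smul_right, real_inner_comm lt (t - t0)]
    unfold Hk ee
    rw [e3, e4]
    have e5 : Complex.exp ((Φ t : ℂ) * Complex.I) *
        Complex.exp (((√R * ⟪lt, t - t0⟫ : ℝ) : ℂ) * Complex.I) =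
        Complex.exp ((Φ t0 : ℂ) * Complex.I) *
        (Complex.exp (((-(⟪t - t0, τ⟫ - √R * ⟪lt, t - t0⟫) : ℝ) : ℂ) * Complex.I) *
        Complex.exp (((Φ t - Φ t0 + ⟪t - t0, τ⟫ : ℝ) : ℂ) * Complex.I)) := by
      rw [← Complex.exp_add, ← Complex.exp_add, ← Complex.exp_add]
      congr 1
      push_cast
      ring
    linear_combination (g t * (θ (√R • (t - t0)) : ℂ)) * e5
  set F : E k × E k → ℂ := fun q =>
    g q.1 * Complex.exp (((-⟪q.1 - t0, τ1⟫ : ℝ) : ℂ) * Complex.I) *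
      (Complex.exp (((2 * π * ⟪q.2, √R • (q.1 - t0)⟫ : ℝ) : ℂ) * Complex.I) * Q q.2) with hF
  have hFm : Measurable F := by
    refine Measurable.mul (Measurable.mul (hgm.comp measurable_fst) (by fun_prop))
      (Measurable.mul (by fun_prop) (hQc.measurable.comp measurable_snd))
  have hFi : Integrable F (μ.prod volume) := by
    have h1 : Integrable (fun q : E k × E k => (B : ℝ) * (C * (wt k q.2)⁻¹))
        (μ.prod volume) := (integrable_const (B : ℝ)).mul_prod ((wt_integrable k).const_mul C)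
    refine h1.mono' hFm.aestronglyMeasurable (Filter.Eventually.of_forall fun q => ?_)
    simp only [hF]
    rw [norm_mul, norm_mul, norm_mul, norm_ei, norm_ei, one_mul, mul_one]
    exact mul_le_mul (hg q.1) (hdec q.2) (norm_nonneg _) ((norm_nonneg _).trans (hg q.1))
  have e6 : ∫ t, g t * Complex.exp (((-⟪t - t0, τ1⟫ : ℝ) : ℂ) * Complex.I) *
        Hk θ Φ t0 R (√R • (t - t0)) =
      ∫ ζ, Q ζ * Psk ρ g R t0 (τ1 - (2 * π * √R) • ζ) := by
    have h1 : ∫ t, g t * Complex.exp (((-⟪t - t0, τ1⟫ : ℝ) : ℂ) * Complex.I) *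
        Hk θ Φ t0 R (√R • (t - t0)) =
        ∫ t in W, g t * Complex.exp (((-⟪t - t0, τ1⟫ : ℝ) : ℂ) * Complex.I) *
        Hk θ Φ t0 R (√R • (t - t0)) := by
      rw [← integral_indicator isClosed_closedBall.measurableSet]
      refine integral_congr_ae (Filter.Eventually.of_forall fun t => ?_)
      simp only
      by_cases ht : t ∈ W
      · rw [indicator_of_mem ht]
      · rw [indicator_of_notMem ht]
        rw [hW, mem_closedBall, dist_eq_norm, not_le, div_lt_iff₀ hsR] at ht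
        have h2 : ρ < ‖√R • (t - t0)‖ := by
          rw [norm_smul, Real.norm_of_nonneg hsR.le, mul_comm]
          exact ht
        unfold Hk
        rw [hθs _ h2, Complex.ofReal_zero, zero_mul, mul_zero]
    rw [h1]
    calc ∫ t in W, g t * Complex.exp (((-⟪t - t0, τ1⟫ : ℝ) : ℂ) * Complex.I) *
          Hk θ Φ t0 R (√R • (t - t0))
        = ∫ t, ∫ ζ, F (t, ζ) ∂volume ∂μ := by
          refine integral_congr_ae (Filter.Eventually.of_forall fun t => ?_)
          simp only [hF]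
          rw [hinv (√R • (t - t0)), ← integral_const_mul]
      _ = ∫ ζ, ∫ t, F (t, ζ) ∂μ ∂volume := integral_integral_swap hFi
      _ = _ := by
          refine integral_congr_ae (Filter.Eventually.of_forall fun ζ => ?_)
          simp only [hF, Psk_def]
          rw [← integral_const_mul]
          refine integral_congr_ae (Filter.Eventually.of_forall fun t => ?_)
          simp only
          have e7 : Complex.exp (((-⟪t - t0, τ1⟫ : ℝ) : ℂ) * Complex.I) *
              Complex.exp (((2 * π * ⟪ζ, √R • (t - t0)⟫ : ℝ) : ℂ) * Complex.I) =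
              Complex.exp (((-⟪t - t0, τ1 - (2 * π * √R) • ζ⟫ : ℝ) : ℂ) * Complex.I) := by
            rw [← Complex.exp_add, ← add_mul, ← Complex.ofReal_add]
            congr 3
            rw [inner_sub_right (t - t0) τ1, real_inner_smul_right, real_inner_smul_right,
              real_inner_comm ζ (t - t0)]
            ring
          rw [← e7]
          ring
  simp only [e1]
  rw [integral_const_mul, e6, enorm_mul]
  have e8 : ‖ee (Φ t0)‖ₑ = 1 := by
    unfold ee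
    rw [← ofReal_norm, norm_ei, ENNReal.ofReal_one]
  rw [e8, one_mul]
  -- Cauchy-Schwarz
  set P : E k → ℝ≥0∞ := fun ζ => ‖Psk ρ g R t0 (τ1 - (2 * π * √R) • ζ)‖ₑ with hP
  have hPm : Measurable P := by
    have h1 : Measurable fun ζ : E k => τ1 - (2 * π * √R) • ζ := by fun_prop
    exact ((measurable_Psk1 hgm ρ R t0).comp h1).enorm
  have hwm : Measurable fun ζ : E k => ENNReal.ofReal (√((wt k ζ)⁻¹)) :=
    ((continuous_wt k).measurable.inv.sqrt).ennreal_ofReal
  have h3 : ‖∫ ζ, Q ζ * Psk ρ g R t0 (τ1 - (2 * π * √R) • ζ)‖ₑ ≤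
      ENNReal.ofReal C * ∫⁻ ζ, ENNReal.ofReal (√((wt k ζ)⁻¹)) *
        (ENNReal.ofReal (√((wt k ζ)⁻¹)) * P ζ) := by
    refine (enorm_integral_le_lintegral_enorm _).trans ?_
    rw [← lintegral_const_mul' _ _ ENNReal.ofReal_ne_top]
    refine lintegral_mono fun ζ => ?_
    have hw := wt_pos k ζ
    simp only
    rw [enorm_mul, ← mul_assoc (ENNReal.ofReal (√((wt k ζ)⁻¹))),
      ← ENNReal.ofReal_mul (Real.sqrt_nonneg _), Real.mul_self_sqrt (inv_pos.2 hw).le,
      ← mul_assoc, ← ENNReal.ofReal_mul hC]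
    refine mul_le_mul' ?_ le_rfl
    rw [← ofReal_norm]
    exact ENNReal.ofReal_le_ofReal (hdec ζ)
  calc ‖∫ ζ, Q ζ * Psk ρ g R t0 (τ1 - (2 * π * √R) • ζ)‖ₑ ^ 2
      ≤ (ENNReal.ofReal C * ∫⁻ ζ, ENNReal.ofReal (√((wt k ζ)⁻¹)) *
        (ENNReal.ofReal (√((wt k ζ)⁻¹)) * P ζ)) ^ 2 := pow_le_pow_left' h3 2
    _ = ENNReal.ofReal (C ^ 2) * (∫⁻ ζ, ENNReal.ofReal (√((wt k ζ)⁻¹)) *
        (ENNReal.ofReal (√((wt k ζ)⁻¹)) * P ζ)) ^ 2 := by
        rw [mul_pow, ENNReal.ofReal_pow hC]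
    _ ≤ ENNReal.ofReal (C ^ 2) * ((∫⁻ ζ, ENNReal.ofReal (√((wt k ζ)⁻¹)) ^ 2) *
        ∫⁻ ζ, (ENNReal.ofReal (√((wt k ζ)⁻¹)) * P ζ) ^ 2) :=
        mul_le_mul' le_rfl (cs_mul volume hwm.aemeasurable (hwm.mul hPm).aemeasurable)
    _ = ENNReal.ofReal (C ^ 2) * (ENNReal.ofReal (Wm k) *
        ∫⁻ ζ, ENNReal.ofReal ((wt k ζ)⁻¹) * P ζ ^ 2) := by
        congr 2
        · rw [← Wm_eq]
          refine lintegral_congr fun η => ?_
          rw [← ENNReal.ofReal_pow (Real.sqrt_nonneg _), Real.sq_sqrt (inv_pos.2 (wt_pos k η)).le]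
        · refine lintegral_congr fun η => ?_
          rw [mul_pow, ← ENNReal.ofReal_pow (Real.sqrt_nonneg _),
            Real.sq_sqrt (inv_pos.2 (wt_pos k η)).le]
    _ = _ := by
        rw [← mul_assoc, ← ENNReal.ofReal_mul (sq_nonneg _)]

end Pool.Agent.LFK
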