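import Pool.Agent.LFK.DOMK2

/-!
Domination of the caps of a density which is rough in `k` variables, part 3.
-/

namespace Pool.Agent.LFK

open MeasureTheory Set Metric FourierTransform
open Pool.Agent.MP_6cbfb8_an Pool.Agent.LF Pool.Agent.GPH
open Pool.Agent.LEAF hiding wt
open scoped ENNReal Real RealInnerProductSpace ContDiff

attribute [local irreducible] bhk Psk

/-! ### The dominating function -/

/-- The dominating function. -/
noncomputable def GGk {k m : ℕ} (c : ℝ) (b : E k → E m → ℂ) (ρ R : ℝ) (t0 τ : E k) : ℝ≥0∞ :=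
  ENNReal.ofReal c * ∫⁻ ζ : E k, ENNReal.ofReal ((LEAF.wt k ζ)⁻¹) *
    ∫⁻ η : E m, ENNReal.ofReal (LEAF.wt m η) *
      ‖Psk ρ (bhk b η) R t0 (τ - (2 * π * √R) • ζ)‖ₑ ^ 2

theorem wtinv_meas (k : ℕ) : Measurable fun ζ : E k => ENNReal.ofReal ((LEAF.wt k ζ)⁻¹) :=
  ((LEAF.continuous_wt k).measurable.inv).ennreal_ofReal

theorem measurable_GGk_aux {k m : ℕ} {b : E k → E m → ℂ} (hb : Measurable (Function.uncurry b))
    (ρ R : ℝ) (t0 : E k) : Measurable fun p : E k × E k => ∫⁻ η : E m,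
      ENNReal.ofReal (LEAF.wt m η) * ‖Psk ρ (bhk b η) R t0 (p.1 - (2 * π * √R) • p.2)‖ₑ ^ 2 := by
  have h1 : Measurable fun q : (E k × E k) × E m => ENNReal.ofReal (LEAF.wt m q.2) *
      ‖Psk ρ (bhk b q.2) R t0 (q.1.1 - (2 * π * √R) • q.1.2)‖ₑ ^ 2 := by
    refine (((LEAF.continuous_wt m).measurable.comp measurable_snd).ennreal_ofReal).mul ?_
    refine Measurable.pow_const (Measurable.enorm ?_) 2
    refine measurable_Psk' hb ρ R t0 measurable_snd ?_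
    fun_prop
  exact h1.lintegral_prod_right' (ν := (volume : Measure (E m)))

theorem measurable_GGk {k m : ℕ} (c : ℝ) {b : E k → E m → ℂ}
    (hb : Measurable (Function.uncurry b)) (ρ R : ℝ) (t0 : E k) :
    Measurable (GGk c b ρ R t0) := by
  unfold GGk
  refine Measurable.const_mul ?_ _
  have h1 : Measurable fun p : E k × E k => ENNReal.ofReal ((LEAF.wt k p.2)⁻¹) * ∫⁻ η : E m,
      ENNReal.ofReal (LEAF.wt m η) * ‖Psk ρ (bhk b η) R t0 (p.1 - (2 * π * √R) • p.2)‖ₑ ^ 2 :=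
    ((wtinv_meas k).comp measurable_snd).mul (measurable_GGk_aux hb ρ R t0)
  exact h1.lintegral_prod_right' (ν := (volume : Measure (E k)))

theorem GGk_le {k m : ℕ} {c C ρ R : ℝ} (hc : 0 ≤ c) (hC0 : 0 ≤ C) (hρ : 0 ≤ ρ)
    {b : E k → E m → ℂ} (hC : ∀ t η, ‖𝓕 (b t) η‖ ≤ C * (LEAF.wt m η)⁻¹) (t0 τ : E k) :
    GGk c b ρ R t0 τ ≤
      ENNReal.ofReal (c * Wm k * Wm m * (C * (ρ ^ k * vk k * (1 / √R) ^ k)) ^ 2) := by
  set V : ℝ := ρ ^ k * vk k * (1 / √R) ^ k with hV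
  have hvk := vk_nonneg k
  have hV0 : 0 ≤ V := by positivity
  have hWk := Wm_nonneg k
  have hWm := Wm_nonneg m
  have h1 : ∀ (ζ : E k) (η : E m), ENNReal.ofReal (LEAF.wt m η) *
      ‖Psk ρ (bhk b η) R t0 (τ - (2 * π * √R) • ζ)‖ₑ ^ 2 ≤
        ENNReal.ofReal ((C * V) ^ 2) * ENNReal.ofReal ((LEAF.wt m η)⁻¹) := by
    intro ζ η
    have hw := LEAF.wt_pos m η
    have h2 : ‖Psk ρ (bhk b η) R t0 (τ - (2 * π * √R) • ζ)‖ₑ ≤
        ENNReal.ofReal (C * (LEAF.wt m η)⁻¹ * V) :=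
      Psk_bound hρ (by positivity) (fun t => by rw [bhk_def]; exact hC t η) _ _
    calc ENNReal.ofReal (LEAF.wt m η) * ‖Psk ρ (bhk b η) R t0 (τ - (2 * π * √R) • ζ)‖ₑ ^ 2
        ≤ ENNReal.ofReal (LEAF.wt m η) * ENNReal.ofReal (C * (LEAF.wt m η)⁻¹ * V) ^ 2 :=
          mul_le_mul' le_rfl (pow_le_pow_left' h2 2)
      _ = _ := by
          rw [← ENNReal.ofReal_pow (by positivity), ← ENNReal.ofReal_mul hw.le,
            ← ENNReal.ofReal_mul (by positivity)]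
          congr 1
          field_simp
  unfold GGk
  calc ENNReal.ofReal c * ∫⁻ ζ : E k, ENNReal.ofReal ((LEAF.wt k ζ)⁻¹) *
        ∫⁻ η : E m, ENNReal.ofReal (LEAF.wt m η) *
          ‖Psk ρ (bhk b η) R t0 (τ - (2 * π * √R) • ζ)‖ₑ ^ 2
      ≤ ENNReal.ofReal c * ∫⁻ ζ : E k, ENNReal.ofReal ((LEAF.wt k ζ)⁻¹) *
        ∫⁻ η : E m, ENNReal.ofReal ((C * V) ^ 2) * ENNReal.ofReal ((LEAF.wt m η)⁻¹) :=
        mul_le_mul' le_rfl (lintegral_mono fun ζ => mul_le_mul' le_rfl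
          (lintegral_mono fun η => h1 ζ η))
    _ = ENNReal.ofReal c * (ENNReal.ofReal (Wm k) *
        (ENNReal.ofReal ((C * V) ^ 2) * ENNReal.ofReal (Wm m))) := by
        rw [lintegral_mul_const _ (wtinv_meas k), Wm_eq,
          lintegral_const_mul' _ _ ENNReal.ofReal_ne_top, Wm_eq]
    _ = _ := by
        rw [← ENNReal.ofReal_mul (by positivity), ← ENNReal.ofReal_mul (by positivity),
          ← ENNReal.ofReal_mul (by positivity)]
        congr 1
        ring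

theorem GGk_int {k m : ℕ} {c C ρ R : ℝ} (hc : 0 ≤ c) (hC0 : 0 ≤ C) (hρ : 0 ≤ ρ)
    {b : E k → E m → ℂ} (hb : Measurable (Function.uncurry b))
    (hC : ∀ t η, ‖𝓕 (b t) η‖ ≤ C * (LEAF.wt m η)⁻¹) (t0 : E k) :
    ∫⁻ τ, GGk c b ρ R t0 τ ≤ ENNReal.ofReal (c * Wm k * Wm m *
      ((2 * π) ^ k * (C ^ 2 * (ρ ^ k * vk k * (1 / √R) ^ k)))) := by
  set V : ℝ := ρ ^ k * vk k * (1 / √R) ^ k with hV
  have hvk := vk_nonneg k
  have hV0 : 0 ≤ V := by positivity
  have hWk := Wm_nonneg k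
  have hWm := Wm_nonneg m
  have haux := measurable_GGk_aux hb ρ R t0
  have h1 : ∀ ζ : E k, ∫⁻ τ : E k, ∫⁻ η : E m, ENNReal.ofReal (LEAF.wt m η) *
      ‖Psk ρ (bhk b η) R t0 (τ - (2 * π * √R) • ζ)‖ₑ ^ 2 ≤
        ENNReal.ofReal ((2 * π) ^ k * (C ^ 2 * V)) * ENNReal.ofReal (Wm m) := by
    intro ζ
    have hsw : Measurable fun p : E k × E m => ENNReal.ofReal (LEAF.wt m p.2) *
        ‖Psk ρ (bhk b p.2) R t0 (p.1 - (2 * π * √R) • ζ)‖ₑ ^ 2 := by
      refine (((LEAF.continuous_wt m).measurable.comp measurable_snd).ennreal_ofReal).mul ?_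
      refine Measurable.pow_const (Measurable.enorm ?_) 2
      refine measurable_Psk' hb ρ R t0 measurable_snd ?_
      fun_prop
    have hsw' := lintegral_lintegral_swap (μ := (volume : Measure (E k)))
      (ν := (volume : Measure (E m)))
      (f := fun τ η => ENNReal.ofReal (LEAF.wt m η) *
        ‖Psk ρ (bhk b η) R t0 (τ - (2 * π * √R) • ζ)‖ₑ ^ 2) hsw.aemeasurable
    rw [hsw']
    calc ∫⁻ η : E m, ∫⁻ τ : E k, ENNReal.ofReal (LEAF.wt m η) *
          ‖Psk ρ (bhk b η) R t0 (τ - (2 * π * √R) • ζ)‖ₑ ^ 2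
        ≤ ∫⁻ η : E m, ENNReal.ofReal ((2 * π) ^ k * (C ^ 2 * V)) *
            ENNReal.ofReal ((LEAF.wt m η)⁻¹) := by
          refine lintegral_mono fun η => ?_
          have hw := LEAF.wt_pos m η
          simp only
          rw [lintegral_const_mul' _ _ ENNReal.ofReal_ne_top]
          have hbm : Measurable (bhk b η) := measurable_bhk' hb measurable_const measurable_id
          have h2 : ∫⁻ τ : E k, ‖Psk ρ (bhk b η) R t0 (τ - (2 * π * √R) • ζ)‖ₑ ^ 2 =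
              ∫⁻ τ : E k, ‖Psk ρ (bhk b η) R t0 τ‖ₑ ^ 2 :=
            lintegral_sub_right_eq_self (fun τ => ‖Psk ρ (bhk b η) R t0 τ‖ₑ ^ 2) _
          rw [h2]
          have h3 : ∫⁻ τ : E k, ‖Psk ρ (bhk b η) R t0 τ‖ₑ ^ 2 ≤
              ENNReal.ofReal ((2 * π) ^ k * ((C * (LEAF.wt m η)⁻¹) ^ 2 * V)) :=
            Psk_planch hρ (by positivity) hbm (fun t => by rw [bhk_def]; exact hC t η) t0
          calc ENNReal.ofReal (LEAF.wt m η) * ∫⁻ τ : E k, ‖Psk ρ (bhk b η) R t0 τ‖ₑ ^ 2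
              ≤ ENNReal.ofReal (LEAF.wt m η) *
                  ENNReal.ofReal ((2 * π) ^ k * ((C * (LEAF.wt m η)⁻¹) ^ 2 * V)) :=
                mul_le_mul' le_rfl h3
            _ = _ := by
                rw [← ENNReal.ofReal_mul hw.le, ← ENNReal.ofReal_mul (by positivity)]
                congr 1
                field_simp
      _ = _ := by rw [lintegral_const_mul' _ _ ENNReal.ofReal_ne_top, Wm_eq]
  unfold GGk
  rw [lintegral_const_mul' _ _ ENNReal.ofReal_ne_top]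
  have hsw2 : Measurable fun p : E k × E k => ENNReal.ofReal ((LEAF.wt k p.2)⁻¹) * ∫⁻ η : E m,
      ENNReal.ofReal (LEAF.wt m η) * ‖Psk ρ (bhk b η) R t0 (p.1 - (2 * π * √R) • p.2)‖ₑ ^ 2 :=
    ((wtinv_meas k).comp measurable_snd).mul haux
  have h2 := lintegral_lintegral_swap (μ := (volume : Measure (E k)))
    (ν := (volume : Measure (E k)))
    (f := fun τ ζ => ENNReal.ofReal ((LEAF.wt k ζ)⁻¹) * ∫⁻ η : E m,
      ENNReal.ofReal (LEAF.wt m η) *
        ‖Psk ρ (bhk b η) R t0 (τ - (2 * π * √R) • ζ)‖ₑ ^ 2) hsw2.aemeasurable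
  rw [h2]
  calc ENNReal.ofReal c * ∫⁻ ζ : E k, ∫⁻ τ : E k, ENNReal.ofReal ((LEAF.wt k ζ)⁻¹) *
        ∫⁻ η : E m, ENNReal.ofReal (LEAF.wt m η) *
          ‖Psk ρ (bhk b η) R t0 (τ - (2 * π * √R) • ζ)‖ₑ ^ 2
      ≤ ENNReal.ofReal c * ∫⁻ ζ : E k, ENNReal.ofReal ((LEAF.wt k ζ)⁻¹) *
          (ENNReal.ofReal ((2 * π) ^ k * (C ^ 2 * V)) * ENNReal.ofReal (Wm m)) := by
        refine mul_le_mul' le_rfl (lintegral_mono fun ζ => ?_)
        simp only
        rw [lintegral_const_mul' _ _ ENNReal.ofReal_ne_top]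
        exact mul_le_mul' le_rfl (h1 ζ)
    _ = ENNReal.ofReal c * (ENNReal.ofReal (Wm k) *
          (ENNReal.ofReal ((2 * π) ^ k * (C ^ 2 * V)) * ENNReal.ofReal (Wm m))) := by
        rw [lintegral_mul_const _ (wtinv_meas k), Wm_eq]
    _ = _ := by
        rw [← ENNReal.ofReal_mul (by positivity), ← ENNReal.ofReal_mul (by positivity),
          ← ENNReal.ofReal_mul (by positivity)]
        congr 1
        ring

/-! ### Slices -/

theorem iter_slice {k m : ℕ} {G : Type*} [NormedAddCommGroup G] [NormedSpace ℝ G]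
    {F : E k × E m → G} (hF : ContDiff ℝ ∞ F) (j : ℕ) (y : E m) (u : E k) :
    ‖iteratedFDeriv ℝ j (fun u => F (u, y)) u‖ ≤ ‖iteratedFDeriv ℝ j F (u, y)‖ := by
  have h1 : ContDiff ℝ j (fun p : E k × E m => F (p + (0, y))) :=
    (hF.of_le (by exact_mod_cast le_top)).comp (contDiff_id.add contDiff_const)
  have h2 : (fun u => F (u, y)) = (fun p : E k × E m => F (p + (0, y))) ∘
      (ContinuousLinearMap.inl ℝ (E k) (E m)) := by
    funext u
    simp
  rw [h2, ContinuousLinearMap.iteratedFDeriv_comp_right _ h1 u le_rfl]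
  refine (ContinuousMultilinearMap.norm_compContinuousLinearMap_le _ _).trans ?_
  rw [iteratedFDeriv_comp_add_right, Finset.prod_const, Finset.card_univ, Fintype.card_fin]
  have h3 : ContinuousLinearMap.inl ℝ (E k) (E m) u + (0, y) = (u, y) := by simp
  rw [h3]
  have h4 : ‖ContinuousLinearMap.inl ℝ (E k) (E m)‖ ≤ 1 := ContinuousLinearMap.norm_inl_le_one ..
  calc ‖iteratedFDeriv ℝ j F (u, y)‖ * ‖ContinuousLinearMap.inl ℝ (E k) (E m)‖ ^ j
      ≤ ‖iteratedFDeriv ℝ j F (u, y)‖ * 1 ^ j := by gcongr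
    _ = _ := by rw [one_pow, mul_one]

/-- The phase in the rough variables. -/
noncomputable def Phz {k m n : ℕ} (X : E k × E m → E n) (ξ : E n) (z : E m) (t : E k) : ℝ :=
  -⟪ξ, X (t, z)⟫

theorem Phz_smooth {k m n : ℕ} {X : E k × E m → E n} (hX : ContDiff ℝ ∞ X) (ξ : E n)
    (z : E m) : ContDiff ℝ ∞ (Phz X ξ z) := by
  unfold Phz
  exact (contDiff_const.inner ℝ (hX.comp (contDiff_id.prodMk contDiff_const))).neg

theorem Phz_iter {k m n : ℕ} {X : E k × E m → E n} (hX : ContDiff ℝ ∞ X) (ξ : E n) (z : E m)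
    (j : ℕ) (t : E k) :
    ‖iteratedFDeriv ℝ j (Phz X ξ z) t‖ ≤ ‖ξ‖ * ‖iteratedFDeriv ℝ j X (t, z)‖ := by
  have h1 : Phz X ξ z = ⇑(-(innerSL ℝ ξ)) ∘ fun t => X (t, z) := by
    funext t
    simp [Phz]
  have h2 : ContDiff ℝ ∞ fun t => X (t, z) := hX.comp (contDiff_id.prodMk contDiff_const)
  have h3 : ContDiffAt ℝ j (fun t => X (t, z)) t :=
    (h2.of_le (by exact_mod_cast le_top)).contDiffAt
  rw [h1, ContinuousLinearMap.iteratedFDeriv_comp_left _ h3 le_rfl]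
  refine (ContinuousLinearMap.norm_compContinuousMultilinearMap_le _ _).trans ?_
  rw [norm_neg, innerSL_apply_norm]
  exact mul_le_mul_of_nonneg_left (iter_slice hX j z t) (norm_nonneg _)

theorem Phz_fderiv {k m n : ℕ} {X : E k × E m → E n} (hX : ContDiff ℝ ∞ X) (ξ : E n) (z : E m)
    (t0 v : E k) : fderiv ℝ (Phz X ξ z) t0 v = -⟪v, ContinuousLinearMap.adjoint
      ((fderiv ℝ X (t0, z)).comp (ContinuousLinearMap.inl ℝ (E k) (E m))) ξ⟫ := by
  have h1 : HasFDerivAt X (fderiv ℝ X (t0, z)) (t0, z) :=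
    (hX.differentiable (by norm_num) (t0, z)).hasFDerivAt
  have h2 : HasFDerivAt (fun t : E k => ((t, z) : E k × E m))
      (ContinuousLinearMap.inl ℝ (E k) (E m)) t0 := hasFDerivAt_prodMk_left t0 z
  have h3 : HasFDerivAt (fun t => X (t, z))
      ((fderiv ℝ X (t0, z)).comp (ContinuousLinearMap.inl ℝ (E k) (E m))) t0 := h1.comp t0 h2
  have h4 : HasFDerivAt (Phz X ξ z) ((-(innerSL ℝ ξ)).comp
      ((fderiv ℝ X (t0, z)).comp (ContinuousLinearMap.inl ℝ (E k) (E m)))) t0 := by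
    have h5 := (-(innerSL ℝ ξ)).hasFDerivAt.comp t0 h3
    have h6 : Phz X ξ z = ⇑(-(innerSL ℝ ξ)) ∘ fun t => X (t, z) := by
      funext t
      simp [Phz]
    rw [h6]
    exact h5
  rw [h4.fderiv, ContinuousLinearMap.adjoint_inner_right]
  simp [real_inner_comm]

end Pool.Agent.LFK
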