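import Pool.Agent.LFK.DOMK3

/-!
Domination of the caps of a density which is rough in `k` variables: the result.
-/

namespace Pool.Agent.LFK

open MeasureTheory Set Metric FourierTransform
open Pool.Agent.MP_6cbfb8_an Pool.Agent.LF Pool.Agent.GPH
open Pool.Agent.LEAF hiding wt
open scoped ENNReal Real RealInnerProductSpace ContDiff

attribute [local irreducible] bhk Psk

theorem sqrt_inv_sq {r : ℝ} (hr : 0 < r) : √((r ^ 2)⁻¹) = r⁻¹ := by
  rw [Real.sqrt_inv, Real.sqrt_sq hr.le]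

/-- The domination for one value of the smooth variables. -/
theorem domk_pt (k m n : ℕ) (A Bθ B : ℕ → ℝ) (ρ δ0 : ℝ) (hρ : 1 ≤ ρ) : ∃ C : ℝ, 0 < C ∧
    ∀ (X : E k × E m → E n), ContDiff ℝ ∞ X → (∀ j p, ‖iteratedFDeriv ℝ j X p‖ ≤ A j) →
    ∀ (b : E k × E m → ℂ) (z0 : E m), Measurable b → (∀ t, ContDiff ℝ ∞ fun z => b (t, z)) →
    (∀ j t z, ‖iteratedFDeriv ℝ j (fun z => b (t, z)) z‖ ≤ B j) →
    (∀ t z, δ0 < ‖z - z0‖ → b (t, z) = 0) →
    ∀ (R r : ℝ) (qt : E k), 1 ≤ r ^ 2 * R → 0 < r → r ≤ 1 →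
      ∃ GG : E k → ℝ≥0∞, Measurable GG ∧ ∫⁻ τ, GG τ ≤ ENNReal.ofReal (r ^ k) ∧
        (∀ τ, GG τ ≤ ENNReal.ofReal ((r ^ k) ^ 2)) ∧
        ∀ θ : E k → ℝ, ContDiff ℝ ∞ θ → (∀ u, ρ < ‖u‖ → θ u = 0) →
        (∀ j u, ‖iteratedFDeriv ℝ j θ u‖ ≤ Bθ j) → ∀ (z : E m) (ξ : E n), ‖ξ‖ ≤ 4 * R →
          ‖∫ t, b (t, z) * (θ (r⁻¹ • (t - qt)) : ℂ) * ee (Phz X ξ z t)‖ₑ ^ 2 ≤
            ENNReal.ofReal (C * (r ^ 2 * R) ^ (2 * (k + 1))) *
              GG (ContinuousLinearMap.adjoint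
                ((fderiv ℝ X (qt, z)).comp (ContinuousLinearMap.inl ℝ (E k) (E m))) ξ) := by
  obtain ⟨C1, hC1, H1⟩ := dom_tk k (fun j => 4 * A j) Bθ ρ hρ
  obtain ⟨C2, hC2, H2⟩ := four_decay m B δ0
  have hWk := Wm_nonneg k
  have hWm := Wm_nonneg m
  have hvk := vk_nonneg k
  have hρ0 : 0 ≤ ρ := by linarith
  set V0 : ℝ := ρ ^ k * vk k with hV0
  have hV00 : 0 ≤ V0 := by positivity
  -- the normalising constant
  set N0 : ℝ := 1 + Wm k * Wm m * (C2 * V0) ^ 2 + Wm k * Wm m * ((2 * π) ^ k * (C2 ^ 2 * V0))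
    with hN0
  have hN1 : 0 ≤ Wm k * Wm m * (C2 * V0) ^ 2 := by positivity
  have hN2 : 0 ≤ Wm k * Wm m * ((2 * π) ^ k * (C2 ^ 2 * V0)) := by positivity
  have hN00 : 0 < N0 := by
    rw [hN0]
    linarith
  refine ⟨C1 * Wm m * N0 + 1, by positivity, ?_⟩
  intro X hX hXA b z0 hbm hbs hbB hb0 R r qt hκ hr hr1
  have hbm' : Measurable (Function.uncurry fun t z => b (t, z)) := hbm
  have hC : ∀ t η, ‖𝓕 (fun z => b (t, z)) η‖ ≤ C2 * (LEAF.wt m η)⁻¹ := fun t η =>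
    (H2 (fun z => b (t, z)) z0 (hbs t) (hb0 t) (fun j z => hbB j t z)).1 η
  have hinv : ∀ t z, b (t, z) = ∫ η, Complex.exp (((2 * π * ⟪η, z⟫ : ℝ) : ℂ) * Complex.I) *
      𝓕 (fun z => b (t, z)) η := fun t z =>
    (H2 (fun z => b (t, z)) z0 (hbs t) (hb0 t) (fun j z => hbB j t z)).2 z
  set R' : ℝ := (r ^ 2)⁻¹ with hR'
  have hR'1 : 1 ≤ R' := by
    rw [hR', one_le_inv₀ (by positivity)]
    exact pow_le_one₀ hr.le hr1
  have hsR : √R' = r⁻¹ := sqrt_inv_sq hr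
  have hsR2 : 1 / √R' = r := by rw [hsR, one_div, inv_inv]
  have hRR : r ^ 2 * R * R' = R := by
    rw [hR']
    field_simp
  have hR0 : 0 ≤ R := by
    by_contra h
    rw [not_le] at h
    nlinarith [sq_nonneg r, mul_nonneg (sq_nonneg r) (neg_nonneg.2 h.le)]
  refine ⟨GGk N0⁻¹ (fun t z => b (t, z)) ρ R' qt, measurable_GGk _ hbm' ρ R' qt, ?_, fun τ => ?_,
    ?_⟩
  · refine (GGk_int (inv_pos.2 hN00).le hC2 hρ0 hbm' hC qt).trans (ENNReal.ofReal_le_ofReal ?_)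
    rw [hsR2]
    calc N0⁻¹ * Wm k * Wm m * ((2 * π) ^ k * (C2 ^ 2 * (ρ ^ k * vk k * r ^ k)))
        = N0⁻¹ * (Wm k * Wm m * ((2 * π) ^ k * (C2 ^ 2 * V0))) * r ^ k := by
          rw [hV0]
          ring
      _ ≤ N0⁻¹ * N0 * r ^ k := by
          gcongr
          rw [hN0]
          linarith
      _ = r ^ k := by rw [inv_mul_cancel₀ hN00.ne', one_mul]
  · refine (GGk_le (inv_pos.2 hN00).le hC2 hρ0 hC qt τ).trans (ENNReal.ofReal_le_ofReal ?_)
    rw [hsR2]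
    calc N0⁻¹ * Wm k * Wm m * (C2 * (ρ ^ k * vk k * r ^ k)) ^ 2
        = N0⁻¹ * (Wm k * Wm m * (C2 * V0) ^ 2) * (r ^ k) ^ 2 := by
          rw [hV0]
          ring
      _ ≤ N0⁻¹ * N0 * (r ^ k) ^ 2 := by
          gcongr
          rw [hN0]
          linarith
      _ = (r ^ k) ^ 2 := by rw [inv_mul_cancel₀ hN00.ne', one_mul]
  intro θ hθ hθs hθB z ξ hξ
  set τ : E k := ContinuousLinearMap.adjoint
    ((fderiv ℝ X (qt, z)).comp (ContinuousLinearMap.inl ℝ (E k) (E m))) ξ with hτ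
  have hgm : Measurable fun t => b (t, z) := hbm.comp (measurable_id.prodMk measurable_const)
  have hg : ∀ t, ‖b (t, z)‖ ≤ B 0 := by
    intro t
    have h1 := hbB 0 t z
    rwa [norm_iteratedFDeriv_zero] at h1
  have hΦB : ∀ j t, ‖iteratedFDeriv ℝ j (Phz X ξ z) t‖ ≤ r ^ 2 * R * R' * (4 * A j) := by
    intro j t
    refine (Phz_iter hX ξ z j t).trans ?_
    rw [hRR]
    have hA0 : 0 ≤ A j := (norm_nonneg _).trans (hXA j (t, z))
    calc ‖ξ‖ * ‖iteratedFDeriv ℝ j X (t, z)‖ ≤ 4 * R * A j :=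
          mul_le_mul hξ (hXA j _) (norm_nonneg _) (by positivity)
      _ = R * (4 * A j) := by ring
  have h1 := H1 θ hθ hθs hθB (Phz X ξ z) R' (r ^ 2 * R) (B 0) qt τ 0 (fun t => b (t, z)) hR'1 hκ
    (Phz_smooth hX ξ z) hΦB (fun v => Phz_fderiv hX ξ z qt v) hgm hg
  simp only [inner_zero_left, mul_zero, Complex.ofReal_zero, zero_mul, Complex.exp_zero, mul_one,
    smul_zero, sub_zero] at h1
  rw [hsR] at h1
  refine h1.trans ?_
  have h2 : ∫⁻ ζ : E k, ENNReal.ofReal ((LEAF.wt k ζ)⁻¹) *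
      ‖Psk ρ (fun t => b (t, z)) R' qt (τ - (2 * π * r⁻¹) • ζ)‖ₑ ^ 2 ≤
      ENNReal.ofReal (Wm m) * ∫⁻ ζ : E k, ENNReal.ofReal ((LEAF.wt k ζ)⁻¹) *
        ∫⁻ η : E m, ENNReal.ofReal (LEAF.wt m η) *
          ‖Psk ρ (bhk (fun t z => b (t, z)) η) R' qt (τ - (2 * π * r⁻¹) • ζ)‖ₑ ^ 2 := by
    rw [← lintegral_const_mul' _ _ ENNReal.ofReal_ne_top]
    refine lintegral_mono fun ζ => ?_
    simp only
    rw [mul_left_comm]
    exact mul_le_mul' le_rfl (Psk_z (b := fun t z => b (t, z)) hbm' hC hinv ρ R' qt _ z)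
  refine (mul_le_mul' le_rfl h2).trans ?_
  unfold GGk
  rw [hsR, ← mul_assoc, ← mul_assoc, ← ENNReal.ofReal_mul (by positivity),
    ← ENNReal.ofReal_mul (by positivity)]
  refine mul_le_mul' (ENNReal.ofReal_le_ofReal ?_) le_rfl
  have h3 : 0 ≤ (r ^ 2 * R) ^ (2 * (k + 1)) := by positivity
  have h4 : 0 ≤ C1 * Wm m := by positivity
  calc C1 * (r ^ 2 * R) ^ (2 * (k + 1)) * Wm m
      = (C1 * Wm m * N0) * (r ^ 2 * R) ^ (2 * (k + 1)) * N0⁻¹ := by
        field_simp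
    _ ≤ (C1 * Wm m * N0 + 1) * (r ^ 2 * R) ^ (2 * (k + 1)) * N0⁻¹ := by
        gcongr
        linarith

theorem Tw_cont {k m n : ℕ} {X : E k × E m → E n} (hX : ContDiff ℝ ∞ X) (ξ : E n) (qt : E k) :
    Continuous fun z : E m => ContinuousLinearMap.adjoint
      ((fderiv ℝ X (qt, z)).comp (ContinuousLinearMap.inl ℝ (E k) (E m))) ξ := by
  have h1 : Continuous fun z : E m => fderiv ℝ X (qt, z) :=
    (hX.continuous_fderiv (by norm_num)).comp (by fun_prop)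
  have h2 : Continuous fun z : E m =>
      (fderiv ℝ X (qt, z)).comp (ContinuousLinearMap.inl ℝ (E k) (E m)) :=
    h1.clm_comp continuous_const
  exact (ContinuousLinearMap.adjoint.continuous.comp h2).clm_apply continuous_const

/-- DOMk: domination of the caps of a density which is rough in `k` variables. -/
theorem domk (k m n : ℕ) (A Bθ B : ℕ → ℝ) (ρ δ0 : ℝ) (hρ : 1 ≤ ρ) : ∃ C : ℝ, 0 < C ∧
    ∀ (X : E k × E m → E n), ContDiff ℝ ∞ X → (∀ j p, ‖iteratedFDeriv ℝ j X p‖ ≤ A j) →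
    ∀ (b : E k × E m → ℂ) (z0 : E m), Measurable b → (∀ t, ContDiff ℝ ∞ fun z => b (t, z)) →
    (∀ j t z, ‖iteratedFDeriv ℝ j (fun z => b (t, z)) z‖ ≤ B j) →
    (∀ t z, δ0 < ‖z - z0‖ → b (t, z) = 0) →
    ∀ (R r : ℝ) (qt : E k), 0 < R → 1 ≤ r ^ 2 * R → 0 < r → r ≤ 1 →
      ∃ GG : E k → ℝ≥0∞, Measurable GG ∧ ∫⁻ τ, GG τ ≤ ENNReal.ofReal ((√R ^ k)⁻¹) ∧
        (∀ τ, GG τ ≤ ENNReal.ofReal ((R ^ k)⁻¹)) ∧
        ∀ th : E k × E m → ℝ, ContDiff ℝ ∞ th → (∀ p, ρ < ‖p‖ → th p = 0) →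
        (∀ j p, ‖iteratedFDeriv ℝ j th p‖ ≤ Bθ j) → ∀ (qz : E m) (ξ : E n), ‖ξ‖ ≤ 4 * R →
          ‖∫ p : E k × E m, (th (r⁻¹ • (p - (qt, qz))) : ℂ) * b p *
            Complex.exp (((-⟪ξ, X p⟫ : ℝ) : ℂ) * Complex.I)‖ₑ ^ 2 ≤
            ENNReal.ofReal (C * (r ^ 2 * R) ^ (3 * k + 2) * r ^ m) *
              ∫⁻ z in closedBall qz (ρ * r) ∩ closedBall z0 δ0,
                GG (ContinuousLinearMap.adjoint
                  ((fderiv ℝ X (qt, z)).comp (ContinuousLinearMap.inl ℝ (E k) (E m))) ξ) := by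
  obtain ⟨C1, hC1, H⟩ := domk_pt k m n A Bθ B ρ δ0 hρ
  have hρ0 : 0 ≤ ρ := by linarith
  set v1 : ℝ := (volume (ball (0 : E m) 1)).toReal with hv1
  have hv10 : 0 ≤ v1 := ENNReal.toReal_nonneg
  refine ⟨ρ ^ m * v1 * C1 + 1, by positivity, ?_⟩
  intro X hX hXA b z0 hbm hbs hbB hb0 R r qt hR0 hκ hr hr1
  obtain ⟨G0, hG0m, hG01, hG02, hG03⟩ := H X hX hXA b z0 hbm hbs hbB hb0 R r qt hκ hr hr1
  set κ : ℝ := r ^ 2 * R with hκd
  have hκ0 : 0 < κ := by positivity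
  have hsR : 0 < √R := Real.sqrt_pos.2 hR0
  have hsR' : √((r ^ 2)⁻¹) = r⁻¹ := sqrt_inv_sq hr
  have hrR : 1 ≤ r * √R := by
    have h1 : (1 : ℝ) ≤ (r * √R) ^ 2 := by rw [mul_pow, Real.sq_sqrt hR0.le]; exact hκ
    have h2 : 0 ≤ r * √R := by positivity
    nlinarith
  have hκs : κ = (r * √R) ^ 2 := by rw [mul_pow, Real.sq_sqrt hR0.le]
  have hκk : 0 < κ ^ k := by positivity
  refine ⟨fun τ => ENNReal.ofReal ((κ ^ k)⁻¹) * G0 τ, hG0m.const_mul _, ?_, fun τ => ?_, ?_⟩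
  · rw [lintegral_const_mul _ hG0m]
    refine (mul_le_mul' le_rfl hG01).trans ?_
    rw [← ENNReal.ofReal_mul (by positivity)]
    refine ENNReal.ofReal_le_ofReal ?_
    rw [hκs, ← pow_mul, inv_mul_le_iff₀ (by positivity)]
    have h1 : r ^ k * √R ^ k ≤ (r * √R) ^ (2 * k) := by
      rw [← mul_pow]
      exact pow_le_pow_right₀ hrR (by omega)
    rw [← div_eq_mul_inv, le_div_iff₀ (by positivity)]
    exact h1
  · refine (mul_le_mul' le_rfl (hG02 τ)).trans ?_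
    rw [← ENNReal.ofReal_mul (by positivity)]
    refine ENNReal.ofReal_le_ofReal (le_of_eq ?_)
    rw [hκd, mul_pow]
    field_simp
    rw [← pow_mul, ← pow_mul, mul_comm]
  intro th hth hths hthB qz ξ hξ
  set Tz : E m → E k := fun z => ContinuousLinearMap.adjoint
    ((fderiv ℝ X (qt, z)).comp (ContinuousLinearMap.inl ℝ (E k) (E m))) ξ with hTz
  have hTzm : Measurable Tz := (Tw_cont hX ξ qt).measurable
  set J : E m → ℂ := fun z => ∫ t, b (t, z) * (th (r⁻¹ • (t - qt), r⁻¹ • (z - qz)) : ℂ) *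
    ee (Phz X ξ z t) with hJd
  have hJ : ∀ z, ‖J z‖ₑ ^ 2 ≤
      ENNReal.ofReal (C1 * κ ^ (2 * (k + 1))) * G0 (Tz z) := by
    intro z
    refine hG03 (fun u => th (u, r⁻¹ • (z - qz))) ?_ ?_ ?_ z ξ hξ
    · exact hth.comp (contDiff_id.prodMk contDiff_const)
    · intro u hu
      refine hths _ (hu.trans_le ?_)
      rw [Prod.norm_mk]
      exact le_max_left _ _
    · intro j u
      exact (iter_slice hth j _ u).trans (hthB j _)
  have hJq : ∀ z, ρ * r < ‖z - qz‖ → J z = 0 := by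
    intro z hz
    have h1 : ∀ t, th (r⁻¹ • (t - qt), r⁻¹ • (z - qz)) = 0 := by
      intro t
      refine hths _ ?_
      rw [Prod.norm_mk]
      refine lt_of_lt_of_le ?_ (le_max_right _ _)
      rw [norm_smul, norm_inv, Real.norm_of_nonneg hr.le, inv_mul_eq_div, lt_div_iff₀ hr]
      exact hz
    simp only [hJd, h1, Complex.ofReal_zero, mul_zero, zero_mul, integral_zero]
  have hJ0 : ∀ z, δ0 < ‖z - z0‖ → J z = 0 := by
    intro z hz
    simp only [hJd, hb0 _ z hz, zero_mul, integral_zero]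
  set F : E k × E m → ℂ := fun p => (th (r⁻¹ • (p - (qt, qz))) : ℂ) * b p *
    Complex.exp (((-⟪ξ, X p⟫ : ℝ) : ℂ) * Complex.I) with hF
  have hFm : Measurable F := by
    have h1 : Measurable fun p : E k × E m => th (r⁻¹ • (p - (qt, qz))) := by
      have h2 : Continuous fun p : E k × E m => th (r⁻¹ • (p - (qt, qz))) :=
        hth.continuous.comp (by fun_prop)
      exact h2.measurable
    have h4 : Measurable fun p : E k × E m =>
        Complex.exp (((-⟪ξ, X p⟫ : ℝ) : ℂ) * Complex.I) := by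
      have h5 : Continuous fun p : E k × E m =>
          Complex.exp (((-⟪ξ, X p⟫ : ℝ) : ℂ) * Complex.I) := by
        have h6 : Continuous fun p : E k × E m => -⟪ξ, X p⟫ :=
          (continuous_const.inner hX.continuous).neg
        exact Complex.continuous_exp.comp ((Complex.continuous_ofReal.comp h6).mul
          continuous_const)
      exact h5.measurable
    exact ((Complex.measurable_ofReal.comp h1).mul hbm).mul h4
  have hFi : Integrable F ((volume : Measure (E k)).prod (volume : Measure (E m))) := by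
    set T : Set (E k × E m) := closedBall qt (ρ * r) ×ˢ closedBall qz (ρ * r) with hT
    have h1 : IntegrableOn F T ((volume : Measure (E k)).prod (volume : Measure (E m))) := by
      refine Measure.integrableOn_of_bounded (M := |Bθ 0| * |B 0|) ?_ hFm.aestronglyMeasurable
        (Filter.Eventually.of_forall fun p => ?_)
      · rw [Measure.prod_prod]
        exact ENNReal.mul_ne_top measure_closedBall_lt_top.ne measure_closedBall_lt_top.ne
      · simp only [hF]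
        have h2 : ‖b p‖ ≤ B 0 := by
          have h3 := hbB 0 p.1 p.2
          rwa [norm_iteratedFDeriv_zero] at h3
        have h4 : |th (r⁻¹ • (p - (qt, qz)))| ≤ Bθ 0 := by
          have h3 := hthB 0 (r⁻¹ • (p - (qt, qz)))
          rwa [norm_iteratedFDeriv_zero, Real.norm_eq_abs] at h3
        rw [norm_mul, norm_ei, mul_one, norm_mul, Complex.norm_real, Real.norm_eq_abs]
        exact mul_le_mul (h4.trans (le_abs_self _)) (h2.trans (le_abs_self _)) (norm_nonneg _)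
          (abs_nonneg _)
    refine (integrableOn_iff_integrable_of_support_subset ?_).1 h1
    intro p hp
    by_contra h2
    apply hp
    rw [hT, mem_prod, not_and_or, mem_closedBall, dist_eq_norm, not_le, mem_closedBall,
      dist_eq_norm, not_le] at h2
    simp only [hF]
    have h3 : th (r⁻¹ • (p - (qt, qz))) = 0 := by
      refine hths _ ?_
      rw [norm_smul, norm_inv, Real.norm_of_nonneg hr.le, inv_mul_eq_div, lt_div_iff₀ hr,
        Prod.norm_def]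
      rcases h2 with h2 | h2
      · exact lt_of_lt_of_le h2 (le_max_left _ _)
      · exact lt_of_lt_of_le h2 (le_max_right _ _)
    rw [h3, Complex.ofReal_zero, zero_mul, zero_mul]
  -- the cut-off at the ball
  set χ : E m → ℝ := (closedBall qz (ρ * r)).indicator fun _ => (1 : ℝ) with hχ
  have hχJ : ∀ z, (χ z : ℂ) * J z = J z := by
    intro z
    by_cases hz : z ∈ closedBall qz (ρ * r)
    · simp only [hχ, indicator_of_mem hz, Complex.ofReal_one, one_mul]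
    · have h1 := hz
      rw [mem_closedBall, dist_eq_norm, not_le] at h1
      rw [hJq z h1, mul_zero]
  have h1 : ∫ p, F p = ∫ z, (χ z : ℂ) * J z := by
    simp only [hχJ]
    rw [Measure.volume_eq_prod, integral_prod_symm F hFi]
    refine integral_congr_ae (Filter.Eventually.of_forall fun z => ?_)
    simp only [hJd, hF]
    refine integral_congr_ae (Filter.Eventually.of_forall fun t => ?_)
    simp only [ee, Phz]
    have h2 : r⁻¹ • ((t, z) - (qt, qz)) = (r⁻¹ • (t - qt), r⁻¹ • (z - qz)) := by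
      rw [Prod.mk_sub_mk, Prod.smul_mk]
    rw [h2]
    ring
  have hGm : Measurable fun z => ENNReal.ofReal (C1 * κ ^ (2 * (k + 1))) * G0 (Tz z) :=
    (hG0m.comp hTzm).const_mul _
  have h2 := dom_z (C1 := ρ ^ m * v1) (C2 := ρ) (R := (r ^ 2)⁻¹) (by positivity) hρ0 J
    (fun z => ENNReal.ofReal (C1 * κ ^ (2 * (k + 1))) * G0 (Tz z)) hGm hJ qz z0 δ0 χ
    (fun z => by
      by_cases hz : z ∈ closedBall qz (ρ * r)
      · simp only [hχ, indicator_of_mem hz, abs_one, le_refl]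
      · simp only [hχ, indicator_of_notMem hz, abs_zero, zero_le_one])
    (fun z hz => by
      rw [hsR', div_inv_eq_mul] at hz
      have h3 : z ∉ closedBall qz (ρ * r) := by
        rw [mem_closedBall, dist_eq_norm, not_le]
        exact hz
      simp only [hχ, indicator_of_notMem h3]) hJ0 le_rfl
  rw [h1]
  refine h2.trans ?_
  have h8 : ∫⁻ z in closedBall qz (ρ * r) ∩ closedBall z0 δ0,
      ENNReal.ofReal (C1 * κ ^ (2 * (k + 1))) * G0 (Tz z) =
      ENNReal.ofReal (C1 * κ ^ (2 * (k + 1))) *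
      ∫⁻ z in closedBall qz (ρ * r) ∩ closedBall z0 δ0, G0 (Tz z) :=
    lintegral_const_mul _ (hG0m.comp hTzm)
  rw [hsR', div_inv_eq_mul, div_inv_eq_mul, one_mul, h8]
  have h7 : ∫⁻ z in closedBall qz (ρ * r) ∩ closedBall z0 δ0,
      (fun τ => ENNReal.ofReal ((κ ^ k)⁻¹) * G0 τ) (Tz z) = ENNReal.ofReal ((κ ^ k)⁻¹) *
      ∫⁻ z in closedBall qz (ρ * r) ∩ closedBall z0 δ0, G0 (Tz z) :=
    lintegral_const_mul _ (hG0m.comp hTzm)
  refine le_trans ?_ (mul_le_mul' le_rfl h7.ge)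
  rw [← mul_assoc, ← mul_assoc,
    ← ENNReal.ofReal_mul (by positivity), ← ENNReal.ofReal_mul (by positivity)]
  refine mul_le_mul' (ENNReal.ofReal_le_ofReal ?_) le_rfl
  have h5 : κ ^ (3 * k + 2) = κ ^ (2 * (k + 1)) * κ ^ k := by
    rw [← pow_add]
    congr 1
    omega
  have h6 : 0 ≤ r ^ m := by positivity
  rw [h5]
  calc ρ ^ m * v1 * r ^ m * (C1 * κ ^ (2 * (k + 1)))
      = (ρ ^ m * v1 * C1) * (κ ^ (2 * (k + 1)) * κ ^ k) * r ^ m * (κ ^ k)⁻¹ := by
        field_simp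
    _ ≤ (ρ ^ m * v1 * C1 + 1) * (κ ^ (2 * (k + 1)) * κ ^ k) * r ^ m * (κ ^ k)⁻¹ := by
        gcongr
        linarith

end Pool.Agent.LFK
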