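import Pool.Agent.LFK.CH2

/-!
[LEAFK], row EX2: two separable cubic phases in general position at the point `(1, …, 1) / √n` of the
sphere, for every `n ≥ 10`. First part: plane points in general position and the algebraic system;
second part: the points `(t, t^4)`; third part: the derivatives of the phases.
-/

set_option autoImplicit false

namespace Pool.Agent.LFK

open Finset Pool.Agent.MP_6cbfb8_an
open scoped RealInnerProductSpace ContDiff

namespace EX

section Algebra

variable {n : ℕ}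

/-- A cubic polynomial function of two variables. -/
def Cub (F : ℝ → ℝ → ℝ) : Prop :=
  ∃ f0 f1 f2 f3 f4 f5 f6 f7 f8 f9 : ℝ, ∀ x y, F x y = f0 + f1 * x + f2 * y + f3 * x ^ 2 +
    f4 * (x * y) + f5 * y ^ 2 + f6 * x ^ 3 + f7 * (x ^ 2 * y) + f8 * (x * y ^ 2) + f9 * y ^ 3

/-- Points of the plane in general position. -/
structure GenPts (p q : Fin n → ℝ) : Prop where
  cub : ∀ F, Cub F → (∀ i, F (p i) (q i) = 0) → ∀ x y, F x y = 0
  aff : ∀ a0 a1 a2 : ℝ, ¬ (a0 = 0 ∧ a1 = 0 ∧ a2 = 0) → ∀ i j k, i ≠ j → i ≠ k → j ≠ k →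
    a0 + a1 * p i + a2 * q i = 0 → a0 + a1 * p j + a2 * q j = 0 → a0 + a1 * p k + a2 * q k = 0 →
    False
  lin : ∀ a1 a2 : ℝ, ¬ (a1 = 0 ∧ a2 = 0) → ∀ i j, i ≠ j →
    a1 * p i + a2 * q i = 0 → a1 * p j + a2 * q j = 0 → False
  ne : ∀ i j, i ≠ j → p i ≠ p j

theorem Cub.add {F G : ℝ → ℝ → ℝ} (hF : Cub F) (hG : Cub G) : Cub fun x y => F x y + G x y := by
  obtain ⟨f0, f1, f2, f3, f4, f5, f6, f7, f8, f9, hf⟩ := hF
  obtain ⟨g0, g1, g2, g3, g4, g5, g6, g7, g8, g9, hg⟩ := hG
  exact ⟨f0 + g0, f1 + g1, f2 + g2, f3 + g3, f4 + g4, f5 + g5, f6 + g6, f7 + g7, f8 + g8, f9 + g9,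
    fun x y => by simp only [hf, hg]; ring⟩

theorem Cub.smul {F : ℝ → ℝ → ℝ} (c : ℝ) (hF : Cub F) : Cub fun x y => c * F x y := by
  obtain ⟨f0, f1, f2, f3, f4, f5, f6, f7, f8, f9, hf⟩ := hF
  exact ⟨c * f0, c * f1, c * f2, c * f3, c * f4, c * f5, c * f6, c * f7, c * f8, c * f9,
    fun x y => by simp only [hf]; ring⟩

theorem cub_mul3 (a0 a1 a2 b0 b1 b2 d0 d1 d2 : ℝ) :
    Cub fun x y => (a0 + a1 * x + a2 * y) * (b0 + b1 * x + b2 * y) * (d0 + d1 * x + d2 * y) :=
  ⟨a0 * b0 * d0, a1 * b0 * d0 + a0 * b1 * d0 + a0 * b0 * d1, a2 * b0 * d0 + a0 * b2 * d0 + a0 * b0 * d2,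
    a1 * b1 * d0 + a1 * b0 * d1 + a0 * b1 * d1,
    a1 * b2 * d0 + a2 * b1 * d0 + a1 * b0 * d2 + a2 * b0 * d1 + a0 * b1 * d2 + a0 * b2 * d1,
    a2 * b2 * d0 + a2 * b0 * d2 + a0 * b2 * d2,
    a1 * b1 * d1, a1 * b1 * d2 + a1 * b2 * d1 + a2 * b1 * d1,
    a1 * b2 * d2 + a2 * b1 * d2 + a2 * b2 * d1, a2 * b2 * d2, fun x y => by ring⟩

/-- The equations at the points. -/
structure Sys (p q : Fin n → ℝ) (c0 c1 c2 u0 u1 u2 v0 v1 v2 w0 w1 w2 : ℝ) (a b : Fin n → ℝ) :
    Prop where
  e1 : ∀ i, (c0 + 3 * (c1 * p i + c2 * q i)) * a i = -(u0 + u1 * p i + u2 * q i)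
  e2 : ∀ i, (c0 + 3 * (c1 * p i + c2 * q i)) * b i = -(v0 + v1 * p i + v2 * q i)
  e3 : ∀ i, (u0 + 3 * (u1 * p i + u2 * q i)) * b i + (v0 + 3 * (v1 * p i + v2 * q i)) * a i +
    (w0 + w1 * p i + w2 * q i) + 3 * (c1 * p i + c2 * q i) * a i * b i = 0
  sa : ∑ i, a i = 0
  sb : ∑ i, b i = 0
  sab : ∑ i, a i * b i = 0

theorem Sys.symm {p q : Fin n → ℝ} {c0 c1 c2 u0 u1 u2 v0 v1 v2 w0 w1 w2 : ℝ} {a b : Fin n → ℝ}
    (h : Sys p q c0 c1 c2 u0 u1 u2 v0 v1 v2 w0 w1 w2 a b) :
    Sys p q c0 c1 c2 v0 v1 v2 u0 u1 u2 w0 w1 w2 b a where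
  e1 := h.e2
  e2 := h.e1
  e3 := fun i => by linear_combination h.e3 i
  sa := h.sb
  sb := h.sa
  sab := by
    rw [← h.sab]
    exact Finset.sum_congr rfl fun i _ => mul_comm _ _

/-- The polynomial identity. -/
theorem Sys.ident {p q : Fin n → ℝ} (hg : GenPts p q)
    {c0 c1 c2 u0 u1 u2 v0 v1 v2 w0 w1 w2 : ℝ} {a b : Fin n → ℝ}
    (h : Sys p q c0 c1 c2 u0 u1 u2 v0 v1 v2 w0 w1 w2 a b) (x y : ℝ) :
    (c0 + 3 * (c1 * x + c2 * y)) ^ 2 * (w0 + w1 * x + w2 * y) +
      3 * (c1 * x + c2 * y) * (u0 + u1 * x + u2 * y) * (v0 + v1 * x + v2 * y) =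
    (c0 + 3 * (c1 * x + c2 * y)) * ((u0 + 3 * (u1 * x + u2 * y)) * (v0 + v1 * x + v2 * y) +
      (v0 + 3 * (v1 * x + v2 * y)) * (u0 + u1 * x + u2 * y)) := by
  have hc := ((cub_mul3 c0 (3 * c1) (3 * c2) c0 (3 * c1) (3 * c2) w0 w1 w2).add
    ((cub_mul3 0 c1 c2 u0 u1 u2 v0 v1 v2).smul 3)).add
    (((cub_mul3 c0 (3 * c1) (3 * c2) u0 (3 * u1) (3 * u2) v0 v1 v2).add
      (cub_mul3 c0 (3 * c1) (3 * c2) v0 (3 * v1) (3 * v2) u0 u1 u2)).smul (-1))
  have h0 := hg.cub _ hc (fun i => by
    have h1 := h.e1 i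
    have h2 := h.e2 i
    have h3 := h.e3 i
    linear_combination (c0 + 3 * (c1 * p i + c2 * q i)) ^ 2 * h3 -
      (u0 + 3 * (u1 * p i + u2 * q i)) * (c0 + 3 * (c1 * p i + c2 * q i)) * h2 -
      (v0 + 3 * (v1 * p i + v2 * q i)) * (c0 + 3 * (c1 * p i + c2 * q i)) * h1 -
      3 * (c1 * p i + c2 * q i) * ((c0 + 3 * (c1 * p i + c2 * q i)) * b i) * h1 +
      3 * (c1 * p i + c2 * q i) * (u0 + u1 * p i + u2 * q i) * h2) x y
  linear_combination h0

/-- Division by a nonzero affine function. -/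
theorem div_aff {c0 c1 c2 : ℝ} (hc : ¬ (c1 = 0 ∧ c2 = 0)) {Q : ℝ → ℝ → ℝ}
    (hQ : Continuous fun z : ℝ × ℝ => Q z.1 z.2)
    (h : ∀ x y, (c0 + 3 * (c1 * x + c2 * y)) * Q x y = 0) (x y : ℝ) : Q x y = 0 := by
  have hpos : 0 < c1 ^ 2 + c2 ^ 2 := by
    rcases eq_or_ne c1 0 with h1 | h1
    · have h2 : c2 ≠ 0 := fun h2 => hc ⟨h1, h2⟩
      positivity
    · positivity
  by_cases h0 : c0 + 3 * (c1 * x + c2 * y) = 0
  · have hcont : Continuous fun τ : ℝ => Q (x + τ * c1) (y + τ * c2) :=
      hQ.comp (by fun_prop : Continuous fun τ : ℝ => (x + τ * c1, y + τ * c2))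
    have hz : (fun τ : ℝ => Q (x + τ * c1) (y + τ * c2)) = fun _ => 0 := by
      refine Continuous.ext_on (dense_compl_singleton (0 : ℝ)) hcont continuous_const ?_
      intro τ hτ
      have hτ0 : τ ≠ 0 := hτ
      have h1 := h (x + τ * c1) (y + τ * c2)
      have h2 : c0 + 3 * (c1 * (x + τ * c1) + c2 * (y + τ * c2)) = 3 * τ * (c1 ^ 2 + c2 ^ 2) := by
        linear_combination h0
      rw [h2] at h1
      rcases mul_eq_zero.1 h1 with h3 | h3
      · exfalso
        exact (mul_ne_zero (mul_ne_zero three_ne_zero hτ0) hpos.ne') h3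
      · exact h3
    have := congrFun hz 0
    simpa using this
  · exact (mul_eq_zero.1 (h x y)).resolve_left h0

/-- An affine function which vanishes at two points of a line is a multiple of its equation. -/
theorem mult_of_two {c0 c1 c2 v0 v1 v2 : ℝ} (hc : ¬ (c1 = 0 ∧ c2 = 0)) {x y x' y' : ℝ}
    (hne : ¬ (x = x' ∧ y = y'))
    (h1 : c0 + 3 * (c1 * x + c2 * y) = 0) (h1' : c0 + 3 * (c1 * x' + c2 * y') = 0)
    (h2 : v0 + v1 * x + v2 * y = 0) (h2' : v0 + v1 * x' + v2 * y' = 0) :
    ∃ s, v0 = -s * c0 ∧ v1 = -s * (3 * c1) ∧ v2 = -s * (3 * c2) := by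
  have hpos : 0 < c1 ^ 2 + c2 ^ 2 := by
    rcases eq_or_ne c1 0 with h1 | h1
    · have h2 : c2 ≠ 0 := fun h2 => hc ⟨h1, h2⟩
      positivity
    · positivity
  have hd : 0 < (x - x') ^ 2 + (y - y') ^ 2 := by
    rcases eq_or_ne (x - x') 0 with h3 | h3
    · have h4 : y - y' ≠ 0 := fun h4 => hne ⟨sub_eq_zero.1 h3, sub_eq_zero.1 h4⟩
      positivity
    · positivity
  have hc' : c1 * (x - x') + c2 * (y - y') = 0 := by linear_combination (h1 - h1') / 3
  have hv' : v1 * (x - x') + v2 * (y - y') = 0 := by linear_combination h2 - h2'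
  have hcross : v1 * c2 - v2 * c1 = 0 := by
    have e1 : (v1 * c2 - v2 * c1) * (x - x') = 0 := by linear_combination c2 * hv' - v2 * hc'
    have e2 : (v1 * c2 - v2 * c1) * (y - y') = 0 := by linear_combination v1 * hc' - c1 * hv'
    by_contra hne'
    have e3 := (mul_eq_zero.1 e1).resolve_left hne'
    have e4 := (mul_eq_zero.1 e2).resolve_left hne'
    rw [e3, e4] at hd
    norm_num at hd
  refine ⟨-((v1 * c1 + v2 * c2) / (3 * (c1 ^ 2 + c2 ^ 2))), ?_, ?_, ?_⟩
  · have e1 : v1 = (v1 * c1 + v2 * c2) / (c1 ^ 2 + c2 ^ 2) * c1 := by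
      field_simp
      linear_combination c2 * hcross
    have e2 : v2 = (v1 * c1 + v2 * c2) / (c1 ^ 2 + c2 ^ 2) * c2 := by
      field_simp
      linear_combination -c1 * hcross
    have e3 : -(-((v1 * c1 + v2 * c2) / (3 * (c1 ^ 2 + c2 ^ 2)))) =
        (v1 * c1 + v2 * c2) / (c1 ^ 2 + c2 ^ 2) / 3 := by
      field_simp
    rw [e3]
    set κ := (v1 * c1 + v2 * c2) / (c1 ^ 2 + c2 ^ 2) with hκ
    linear_combination h2 - κ / 3 * h1 - x * e1 - y * e2
  · field_simp
    linear_combination c2 * hcross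
  · field_simp
    linear_combination -c1 * hcross

theorem sq_add_sq_pos {c1 c2 : ℝ} (hc : ¬ (c1 = 0 ∧ c2 = 0)) : 0 < c1 ^ 2 + c2 ^ 2 := by
  rcases eq_or_ne c1 0 with h1 | h1
  · have h2 : c2 ≠ 0 := fun h2 => hc ⟨h1, h2⟩
    positivity
  · positivity

/-- An affine function which vanishes on a line. -/
theorem mult_of_line {c0 c1 c2 v0 v1 v2 : ℝ} (hc : ¬ (c1 = 0 ∧ c2 = 0))
    (h : ∀ x y, c0 + 3 * (c1 * x + c2 * y) = 0 → v0 + v1 * x + v2 * y = 0) :
    ∃ s, v0 = -s * c0 ∧ v1 = -s * (3 * c1) ∧ v2 = -s * (3 * c2) := by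
  have hpos := sq_add_sq_pos hc
  have hP : ∀ τ : ℝ, c0 + 3 * (c1 * (-(c0 / 3) * c1 / (c1 ^ 2 + c2 ^ 2) - τ * c2) +
      c2 * (-(c0 / 3) * c2 / (c1 ^ 2 + c2 ^ 2) + τ * c1)) = 0 := by
    intro τ
    field_simp
    ring
  refine mult_of_two hc ?_ (hP 0) (hP 1) (h _ _ (hP 0)) (h _ _ (hP 1))
  rintro ⟨h1, h2⟩
  apply hc
  constructor
  · linear_combination -h2
  · linear_combination h1

/-- Two affine functions whose product vanishes on a line. -/
theorem prod_line {c0 c1 c2 u0 u1 u2 v0 v1 v2 : ℝ} (hc : ¬ (c1 = 0 ∧ c2 = 0))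
    (h : ∀ x y, c0 + 3 * (c1 * x + c2 * y) = 0 →
      (u0 + u1 * x + u2 * y) * (v0 + v1 * x + v2 * y) = 0) :
    (∃ s, u0 = -s * c0 ∧ u1 = -s * (3 * c1) ∧ u2 = -s * (3 * c2)) ∨
      ∃ s, v0 = -s * c0 ∧ v1 = -s * (3 * c1) ∧ v2 = -s * (3 * c2) := by
  have hpos := sq_add_sq_pos hc
  set x0 : ℝ := -(c0 / 3) * c1 / (c1 ^ 2 + c2 ^ 2) with hx0
  set y0 : ℝ := -(c0 / 3) * c2 / (c1 ^ 2 + c2 ^ 2) with hy0
  have hP : ∀ τ : ℝ, c0 + 3 * (c1 * (x0 - τ * c2) + c2 * (y0 + τ * c1)) = 0 := by
    intro τ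
    rw [hx0, hy0]
    field_simp
    ring
  set α : ℝ := u0 + u1 * x0 + u2 * y0 with hα
  set β : ℝ := -u1 * c2 + u2 * c1 with hβ
  set γ : ℝ := v0 + v1 * x0 + v2 * y0 with hγ
  set δ : ℝ := -v1 * c2 + v2 * c1 with hδ
  have hpr : ∀ τ : ℝ, (α + τ * β) * (γ + τ * δ) = 0 := by
    intro τ
    have := h _ _ (hP τ)
    rw [hα, hβ, hγ, hδ]
    linear_combination this
  have h0 : α * γ = 0 := by linear_combination hpr 0
  have h1 : β * δ = 0 := by linear_combination (hpr 1 + hpr (-1)) / 2 - h0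
  have h2 : α * δ + β * γ = 0 := by linear_combination (hpr 1 - hpr (-1)) / 2
  have hu : α = 0 → β = 0 →
      ∃ s, u0 = -s * c0 ∧ u1 = -s * (3 * c1) ∧ u2 = -s * (3 * c2) := by
    intro ha hb
    refine mult_of_two hc ?_ (hP 0) (hP 1) (by linear_combination ha)
      (by linear_combination ha + hb)
    rintro ⟨h1, h2⟩
    exact hc ⟨by linear_combination -h2, by linear_combination h1⟩
  have hv : γ = 0 → δ = 0 →
      ∃ s, v0 = -s * c0 ∧ v1 = -s * (3 * c1) ∧ v2 = -s * (3 * c2) := by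
    intro ha hb
    refine mult_of_two hc ?_ (hP 0) (hP 1) (by linear_combination ha)
      (by linear_combination ha + hb)
    rintro ⟨h1, h2⟩
    exact hc ⟨by linear_combination -h2, by linear_combination h1⟩
  rcases eq_or_ne β 0 with hb | hb
  · rcases eq_or_ne δ 0 with hd | hd
    · rcases mul_eq_zero.1 h0 with ha | hg
      · exact Or.inl (hu ha hb)
      · exact Or.inr (hv hg hd)
    · rw [hb, zero_mul, add_zero] at h2
      exact Or.inl (hu ((mul_eq_zero.1 h2).resolve_right hd) hb)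
  · have hd : δ = 0 := (mul_eq_zero.1 h1).resolve_left hb
    rw [hd, mul_zero, zero_add] at h2
    exact Or.inr (hv ((mul_eq_zero.1 h2).resolve_left hb) hd)

theorem two_nonzero {b : Fin n → ℝ} (hs : ∑ i, b i = 0) {j : Fin n} (hj : b j ≠ 0) :
    ∃ k, k ≠ j ∧ b k ≠ 0 := by
  by_contra hcon
  push Not at hcon
  apply hj
  rw [← hs]
  exact (Finset.sum_eq_single j (fun k _ hk => hcon k hk) (fun h => absurd (mem_univ j) h)).symm

theorem sum_two {b : Fin n → ℝ} {s : ℝ} {j k : Fin n} (hjk : k ≠ j) (hj : b j = 2 * s)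
    (hk : b k = 2 * s) (ho : ∀ i, i ≠ j → i ≠ k → b i = s) (hs : ∑ i, b i = 0) : s = 0 := by
  have h1 : ∀ i, b i = s + (if i = j then s else 0) + (if i = k then s else 0) := by
    intro i
    by_cases hij : i = j
    · subst hij
      have : i ≠ k := hjk.symm
      simp only [if_true, if_neg this, hj]
      ring
    · by_cases hik : i = k
      · subst hik
        simp only [if_true, if_neg hij, hk]
        ring
      · simp only [if_neg hij, if_neg hik, ho i hij hik]
        ring
  have h2 : ∑ i, b i = (n + 2 : ℝ) * s := by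
    simp only [h1, Finset.sum_add_distrib, Finset.sum_ite_eq', mem_univ, if_true, sum_const,
      card_univ, Fintype.card_fin, nsmul_eq_mul]
    ring
  rw [hs] at h2
  have h3 : (n + 2 : ℝ) ≠ 0 := by positivity
  exact (mul_eq_zero.1 h2.symm).resolve_left h3

section Cases

variable {p q : Fin n → ℝ} {c0 c1 c2 u0 u1 u2 v0 v1 v2 w0 w1 w2 : ℝ} {a b : Fin n → ℝ}

theorem caseA_aux (hn : 0 < n) (h : Sys p q c0 c1 c2 u0 u1 u2 v0 v1 v2 w0 w1 w2 a b)
    (hc0 : c0 ≠ 0) (h1 : c1 = 0) (h2 : c2 = 0) (hu1 : u1 = 0) (hu2 : u2 = 0) (i : Fin n) :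
    a i = 0 := by
  have ha : ∀ i, a i = -u0 / c0 := by
    intro i
    have := h.e1 i
    rw [h1, h2, hu1, hu2] at this
    field_simp
    linear_combination this
  have hs := h.sa
  simp only [ha, sum_const, card_univ, Fintype.card_fin, nsmul_eq_mul] at hs
  have hn' : (n : ℝ) ≠ 0 := by positivity
  rw [ha i]
  exact (mul_eq_zero.1 hs).resolve_left hn'

theorem caseA (hn : 0 < n) (hg : GenPts p q)
    (h : Sys p q c0 c1 c2 u0 u1 u2 v0 v1 v2 w0 w1 w2 a b)
    (hc0 : c0 ≠ 0) (h1 : c1 = 0) (h2 : c2 = 0) : (∀ i, a i = 0) ∨ ∀ i, b i = 0 := by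
  have hI : ∀ x y : ℝ, c0 * (w0 + w1 * x + w2 * y) =
      (u0 + 3 * (u1 * x + u2 * y)) * (v0 + v1 * x + v2 * y) +
      (v0 + 3 * (v1 * x + v2 * y)) * (u0 + u1 * x + u2 * y) := by
    intro x y
    have := h.ident hg x y
    rw [h1, h2] at this
    apply mul_left_cancel₀ hc0
    linear_combination this
  have hUV : ∀ x y : ℝ, (u1 * x + u2 * y) * (v1 * x + v2 * y) = 0 := by
    intro x y
    linear_combination -(hI x y + hI (-x) (-y) - 2 * hI 0 0) / 12
  have e1 : u1 * v1 = 0 := by linear_combination hUV 1 0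
  have e2 : u2 * v2 = 0 := by linear_combination hUV 0 1
  have e3 : u1 * v2 + u2 * v1 = 0 := by linear_combination hUV 1 1 - e1 - e2
  by_cases hu : u1 = 0 ∧ u2 = 0
  · exact Or.inl (caseA_aux hn h hc0 h1 h2 hu.1 hu.2)
  · right
    have hv : v1 = 0 ∧ v2 = 0 := by
      rcases eq_or_ne u1 0 with hu1 | hu1
      · have hu2 : u2 ≠ 0 := fun h => hu ⟨hu1, h⟩
        rw [hu1, zero_mul, zero_add] at e3
        exact ⟨(mul_eq_zero.1 e3).resolve_left hu2, (mul_eq_zero.1 e2).resolve_left hu2⟩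
      · have hv1 := (mul_eq_zero.1 e1).resolve_left hu1
        rw [hv1, mul_zero, add_zero] at e3
        exact ⟨hv1, (mul_eq_zero.1 e3).resolve_left hu1⟩
    exact caseA_aux hn h.symm hc0 h1 h2 hv.1 hv.2

theorem caseB (hn : 0 < n) (hg : GenPts p q)
    (h : Sys p q c0 c1 c2 u0 u1 u2 v0 v1 v2 w0 w1 w2 a b)
    (hc0 : c0 ≠ 0) (hc : ¬ (c1 = 0 ∧ c2 = 0)) {s : ℝ} (hu0 : u0 = -s * c0)
    (hu1 : u1 = -s * (3 * c1)) (hu2 : u2 = -s * (3 * c2)) :
    (∀ i, a i = 0) ∨ ∀ i, b i = 0 := by
  have hZ : ∀ j k, k ≠ j → c0 + 3 * (c1 * p j + c2 * q j) = 0 →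
      c0 + 3 * (c1 * p k + c2 * q k) = 0 → ∀ i, i ≠ j → i ≠ k →
      c0 + 3 * (c1 * p i + c2 * q i) ≠ 0 := by
    intro j k hkj hj hk i hij hik hi
    exact hg.aff c0 (3 * c1) (3 * c2) (fun hh => hc0 hh.1) i j k hij hik hkj.symm
      (by linear_combination hi) (by linear_combination hj) (by linear_combination hk)
  have hcontL : ∀ r0 r1 r2 : ℝ, Continuous fun z : ℝ × ℝ => r0 + r1 * z.1 + r2 * z.2 := by
    intro r0 r1 r2
    fun_prop
  rcases eq_or_ne s 0 with hs | hs
  · -- `u = 0`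
    have hu0' : u0 = 0 := by rw [hu0, hs]; ring
    have hu1' : u1 = 0 := by rw [hu1, hs]; ring
    have hu2' : u2 = 0 := by rw [hu2, hs]; ring
    have hw : ∀ x y, w0 + w1 * x + w2 * y = 0 := by
      intro x y
      refine div_aff (c0 := c0) hc (Q := fun x y => w0 + w1 * x + w2 * y) (hcontL _ _ _) ?_ x y
      intro x y
      refine div_aff (c0 := c0) hc
        (Q := fun x y => (c0 + 3 * (c1 * x + c2 * y)) * (w0 + w1 * x + w2 * y)) ?_ ?_ x y
      · fun_prop
      · intro x y
        have := h.ident hg x y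
        rw [hu0', hu1', hu2'] at this
        linear_combination this
    by_cases ha : ∀ i, a i = 0
    · exact Or.inl ha
    right
    push Not at ha
    obtain ⟨j, hj⟩ := ha
    obtain ⟨k, hkj, hk⟩ := two_nonzero h.sa hj
    have hH : ∀ i, a i ≠ 0 → c0 + 3 * (c1 * p i + c2 * q i) = 0 := by
      intro i hi
      have := h.e1 i
      rw [hu0', hu1', hu2'] at this
      have h2 : (c0 + 3 * (c1 * p i + c2 * q i)) * a i = 0 := by linear_combination this
      exact (mul_eq_zero.1 h2).resolve_right hi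
    have hv : ∀ i, a i ≠ 0 → v0 + v1 * p i + v2 * q i = 0 := by
      intro i hi
      have := h.e2 i
      rw [hH i hi] at this
      linear_combination this
    have hb : ∀ i, a i ≠ 0 → v0 + 3 * (v1 * p i + v2 * q i) + 3 * (c1 * p i + c2 * q i) * b i = 0 := by
      intro i hi
      have h1 := h.e3 i
      have h2 := hw (p i) (q i)
      rw [hu0', hu1', hu2'] at h1
      have h3 : a i * (v0 + 3 * (v1 * p i + v2 * q i) + 3 * (c1 * p i + c2 * q i) * b i) = 0 := by
        linear_combination h1 - h2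
      exact (mul_eq_zero.1 h3).resolve_left hi
    obtain ⟨s', hv0, hv1, hv2⟩ := mult_of_two hc (fun hh => hg.ne k j hkj hh.1) (hH k hk) (hH j hj)
      (hv k hk) (hv j hj)
    have hb2 : ∀ i, a i ≠ 0 → b i = 2 * s' := by
      intro i hi
      have h1 := hb i hi
      have h2 := hH i hi
      have hB : c1 * p i + c2 * q i ≠ 0 := by
        intro h3
        apply hc0
        linear_combination h2 - 3 * h3
      apply mul_left_cancel₀ hB
      rw [hv0, hv1, hv2] at h1
      linear_combination (h1 + s' * h2) / 3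
    have hbo : ∀ i, i ≠ j → i ≠ k → b i = s' := by
      intro i hij hik
      have hHi := hZ j k hkj (hH j hj) (hH k hk) i hij hik
      have h1 := h.e2 i
      apply mul_left_cancel₀ hHi
      rw [hv0, hv1, hv2] at h1
      linear_combination h1
    have hs' := sum_two hkj (hb2 j hj) (hb2 k hk) hbo h.sb
    intro i
    by_cases hij : i = j
    · rw [hij, hb2 j hj, hs', mul_zero]
    · by_cases hik : i = k
      · rw [hik, hb2 k hk, hs', mul_zero]
      · rw [hbo i hij hik, hs']
  · -- `s ≠ 0`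
    have hQ1 : ∀ x y, (c0 + 3 * (c1 * x + c2 * y)) * (w0 + w1 * x + w2 * y) -
        3 * s * (c1 * x + c2 * y) * (v0 + v1 * x + v2 * y) +
        s * (c0 + 9 * (c1 * x + c2 * y)) * (v0 + v1 * x + v2 * y) +
        s * (c0 + 3 * (c1 * x + c2 * y)) * (v0 + 3 * (v1 * x + v2 * y)) = 0 := by
      intro x y
      refine div_aff (c0 := c0) hc (Q := fun x y =>
        (c0 + 3 * (c1 * x + c2 * y)) * (w0 + w1 * x + w2 * y) -
        3 * s * (c1 * x + c2 * y) * (v0 + v1 * x + v2 * y) +
        s * (c0 + 9 * (c1 * x + c2 * y)) * (v0 + v1 * x + v2 * y) +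
        s * (c0 + 3 * (c1 * x + c2 * y)) * (v0 + 3 * (v1 * x + v2 * y))) ?_ ?_ x y
      · fun_prop
      · intro x y
        have := h.ident hg x y
        rw [hu0, hu1, hu2] at this
        linear_combination this
    obtain ⟨s', hv0, hv1, hv2⟩ := mult_of_line (v0 := v0) (v1 := v1) (v2 := v2) hc (c0 := c0) (by
      intro x y hxy
      have h1 := hQ1 x y
      have hB : c1 * x + c2 * y ≠ 0 := by
        intro h3
        apply hc0
        linear_combination hxy - 3 * h3
      have h2 : (s * (c1 * x + c2 * y)) * (v0 + v1 * x + v2 * y) = 0 := by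
        linear_combination (h1 - (w0 + w1 * x + w2 * y + s * (v0 + v1 * x + v2 * y) +
          s * (v0 + 3 * (v1 * x + v2 * y))) * hxy) / 3
      exact (mul_eq_zero.1 h2).resolve_left (mul_ne_zero hs hB))
    have hw : ∀ x y, w0 + w1 * x + w2 * y - s * s' * (2 * c0 + 15 * (c1 * x + c2 * y)) = 0 := by
      intro x y
      refine div_aff (c0 := c0) hc (Q := fun x y =>
        w0 + w1 * x + w2 * y - s * s' * (2 * c0 + 15 * (c1 * x + c2 * y))) ?_ ?_ x y
      · fun_prop
      · intro x y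
        have := hQ1 x y
        rw [hv0, hv1, hv2] at this
        linear_combination this
    have hall : ∀ i, a i * b i - 2 * s * b i - 2 * s' * a i + 3 * s * s' = 0 := by
      intro i
      by_cases hHi : c0 + 3 * (c1 * p i + c2 * q i) = 0
      · have h3 := h.e3 i
        have h4 := hw (p i) (q i)
        have hB : c1 * p i + c2 * q i ≠ 0 := by
          intro h3
          apply hc0
          linear_combination hHi - 3 * h3
        apply mul_left_cancel₀ hB
        rw [hu0, hu1, hu2, hv0, hv1, hv2] at h3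
        linear_combination (h3 - h4 + (s * b i + s' * a i - 2 * s * s') * hHi) / 3
      · have h1 := h.e1 i
        have h2 := h.e2 i
        have ha : a i = s := by
          apply mul_left_cancel₀ hHi
          rw [hu0, hu1, hu2] at h1
          linear_combination h1
        have hb : b i = s' := by
          apply mul_left_cancel₀ hHi
          rw [hv0, hv1, hv2] at h2
          linear_combination h2
        rw [ha, hb]
        ring
    have hsum : (3 * n : ℝ) * (s * s') = 0 := by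
      have h1 : ∑ i, (a i * b i - 2 * s * b i - 2 * s' * a i + 3 * s * s') = 0 :=
        Finset.sum_eq_zero fun i _ => hall i
      simp only [Finset.sum_add_distrib, Finset.sum_sub_distrib, ← Finset.mul_sum, h.sab, h.sa,
        h.sb, sum_const, card_univ, Fintype.card_fin, nsmul_eq_mul] at h1
      linear_combination h1
    have hn' : (3 * n : ℝ) ≠ 0 := by positivity
    have hs' : s' = 0 := (mul_eq_zero.1 ((mul_eq_zero.1 hsum).resolve_left hn')).resolve_left hs
    by_cases hb : ∀ i, b i = 0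
    · exact Or.inr hb
    exfalso
    push Not at hb
    obtain ⟨j, hj⟩ := hb
    obtain ⟨k, hkj, hk⟩ := two_nonzero h.sb hj
    have hH : ∀ i, b i ≠ 0 → c0 + 3 * (c1 * p i + c2 * q i) = 0 := by
      intro i hi
      have h2 := h.e2 i
      rw [hv0, hv1, hv2, hs'] at h2
      have h3 : (c0 + 3 * (c1 * p i + c2 * q i)) * b i = 0 := by linear_combination h2
      exact (mul_eq_zero.1 h3).resolve_right hi
    have ha2 : ∀ i, b i ≠ 0 → a i = 2 * s := by
      intro i hi
      have h1 := hall i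
      rw [hs'] at h1
      apply mul_right_cancel₀ hi
      linear_combination h1
    have hao : ∀ i, i ≠ j → i ≠ k → a i = s := by
      intro i hij hik
      have hHi := hZ j k hkj (hH j hj) (hH k hk) i hij hik
      have h1 := h.e1 i
      apply mul_left_cancel₀ hHi
      rw [hu0, hu1, hu2] at h1
      linear_combination h1
    exact hs (sum_two hkj (ha2 j hj) (ha2 k hk) hao h.sa)

theorem point_ne (hn : 2 ≤ n) (hg : GenPts p q) (z : Fin n) : ¬ (p z = 0 ∧ q z = 0) := by
  rintro ⟨h1, h2⟩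
  obtain ⟨j, hj⟩ : ∃ j : Fin n, z ≠ j := by
    by_contra hcon
    push Not at hcon
    have : Fintype.card (Fin n) ≤ 1 := Fintype.card_le_one_iff.2 fun a b => (hcon a).symm.trans (hcon b)
    rw [Fintype.card_fin] at this
    omega
  by_cases hP : p j = 0 ∧ q j = 0
  · exact hg.lin 1 0 (fun h => one_ne_zero h.1) z j hj (by rw [h1]; ring) (by rw [hP.1]; ring)
  · exact hg.lin (q j) (-p j) (fun h => hP ⟨neg_eq_zero.1 h.2, h.1⟩) z j hj (by rw [h1, h2]; ring)
      (by ring)

theorem caseC (hn : 2 ≤ n) (hg : GenPts p q)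
    (h : Sys p q c0 c1 c2 u0 u1 u2 v0 v1 v2 w0 w1 w2 a b)
    (hc0 : c0 = 0) (hc : ¬ (c1 = 0 ∧ c2 = 0)) {s : ℝ} (hu0 : u0 = 0)
    (hu1 : u1 = -s * (3 * c1)) (hu2 : u2 = -s * (3 * c2)) :
    (∀ i, a i = 0) ∨ ∀ i, b i = 0 := by
  have hn' : (n : ℝ) ≠ 0 := by positivity
  have hw : ∀ x y, w0 + w1 * x + w2 * y + 2 * s * (v0 + v1 * x + v2 * y) +
      s * (v0 + 3 * (v1 * x + v2 * y)) = 0 := by
    intro x y
    refine div_aff (c0 := 0) hc (Q := fun x y => w0 + w1 * x + w2 * y +
      2 * s * (v0 + v1 * x + v2 * y) + s * (v0 + 3 * (v1 * x + v2 * y))) (by fun_prop) ?_ x y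
    intro x y
    refine div_aff (c0 := 0) hc (Q := fun x y => (0 + 3 * (c1 * x + c2 * y)) *
      (w0 + w1 * x + w2 * y + 2 * s * (v0 + v1 * x + v2 * y) +
      s * (v0 + 3 * (v1 * x + v2 * y)))) (by fun_prop) ?_ x y
    intro x y
    have := h.ident hg x y
    rw [hc0, hu0, hu1, hu2] at this
    linear_combination this
  by_cases hB : ∀ i, c1 * p i + c2 * q i ≠ 0
  · left
    have ha : ∀ i, a i = s := by
      intro i
      have h1 := h.e1 i
      rw [hc0, hu0, hu1, hu2] at h1
      apply mul_left_cancel₀ (hB i)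
      linear_combination h1 / 3
    have hs := h.sa
    simp only [ha, sum_const, card_univ, Fintype.card_fin, nsmul_eq_mul] at hs
    intro i
    rw [ha i]
    exact (mul_eq_zero.1 hs).resolve_left hn'
  push Not at hB
  obtain ⟨z, hz⟩ := hB
  have hBo : ∀ i, i ≠ z → c1 * p i + c2 * q i ≠ 0 := fun i hi h0 => hg.lin c1 c2 hc i z hi h0 hz
  have ha : ∀ i, i ≠ z → a i = s := by
    intro i hi
    have h1 := h.e1 i
    rw [hc0, hu0, hu1, hu2] at h1
    apply mul_left_cancel₀ (hBo i hi)
    linear_combination h1 / 3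
  have key : ∀ (d : Fin n → ℝ) (r : ℝ), (∀ i, i ≠ z → d i = r) →
      ∑ i, d i = n * r + (d z - r) := by
    intro d r hd
    have h1 : ∀ i, d i = r + if i = z then d z - r else 0 := by
      intro i
      by_cases hi : i = z
      · rw [if_pos hi, hi]
        ring
      · rw [if_neg hi, hd i hi, add_zero]
    calc ∑ i, d i = ∑ i, (r + if i = z then d z - r else 0) := Finset.sum_congr rfl fun i _ => h1 i
      _ = _ := by
        simp only [Finset.sum_add_distrib, Finset.sum_ite_eq', mem_univ, if_true, sum_const,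
          card_univ, Fintype.card_fin, nsmul_eq_mul]
  have haz : a z - s = -(n * s) := by
    have := key a s ha
    rw [h.sa] at this
    linear_combination -this
  rcases eq_or_ne s 0 with hs | hs
  · left
    intro i
    by_cases hi : i = z
    · rw [hi]
      rw [hs] at haz
      linear_combination haz
    · rw [ha i hi, hs]
  right
  have hLz : v0 + v1 * p z + v2 * q z = 0 := by
    have h2 := h.e2 z
    rw [hc0] at h2
    linear_combination h2 - 3 * b z * hz
  have hHz : v0 + 3 * (v1 * p z + v2 * q z) = 0 := by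
    have h3 := h.e3 z
    have h4 := hw (p z) (q z)
    rw [hu0, hu1, hu2] at h3
    have h5 : (v0 + 3 * (v1 * p z + v2 * q z)) * (a z - s) = 0 := by
      linear_combination h3 - h4 + 2 * s * hLz + (9 * s * b z - 3 * a z * b z) * hz
    rw [haz] at h5
    exact (mul_eq_zero.1 h5).resolve_right (neg_ne_zero.2 (mul_ne_zero hn' hs))
  have hv0 : v0 = 0 := by linear_combination (3 * hLz - hHz) / 2
  have hVz : v1 * p z + v2 * q z = 0 := by linear_combination hLz - hv0
  have hPz := point_ne hn hg z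
  have hcross : v1 * c2 - v2 * c1 = 0 := by
    by_contra hne
    have e1 : (v1 * c2 - v2 * c1) * p z = 0 := by linear_combination c2 * hVz - v2 * hz
    have e2 : (v1 * c2 - v2 * c1) * q z = 0 := by linear_combination v1 * hz - c1 * hVz
    exact hPz ⟨(mul_eq_zero.1 e1).resolve_left hne, (mul_eq_zero.1 e2).resolve_left hne⟩
  have hpos := sq_add_sq_pos hc
  obtain ⟨s', hv1, hv2⟩ : ∃ s', v1 = -s' * (3 * c1) ∧ v2 = -s' * (3 * c2) := by
    refine ⟨-((v1 * c1 + v2 * c2) / (3 * (c1 ^ 2 + c2 ^ 2))), ?_, ?_⟩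
    · field_simp
      linear_combination c2 * hcross
    · field_simp
      linear_combination -c1 * hcross
  have hb : ∀ i, i ≠ z → b i = s' := by
    intro i hi
    have h1 := h.e2 i
    rw [hc0, hv0, hv1, hv2] at h1
    apply mul_left_cancel₀ (hBo i hi)
    linear_combination h1 / 3
  have hbz : b z - s' = -(n * s') := by
    have := key b s' hb
    rw [h.sb] at this
    linear_combination -this
  have hab : ∑ i, a i * b i = n * (s * s') + (a z * b z - s * s') :=
    key (fun i => a i * b i) (s * s') fun i hi => by rw [ha i hi, hb i hi]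
  rw [h.sab] at hab
  have haz' : a z = s - n * s := by linear_combination haz
  have hbz' : b z = s' - n * s' := by linear_combination hbz
  rw [haz', hbz'] at hab
  have h6 : (n * (n - 1) : ℝ) * (s * s') = 0 := by linear_combination -hab
  have hn1 : (n * (n - 1) : ℝ) ≠ 0 := by
    have : (2 : ℝ) ≤ n := by exact_mod_cast hn
    have h7 : (0 : ℝ) < n - 1 := by linarith
    positivity
  have hs' : s' = 0 := (mul_eq_zero.1 ((mul_eq_zero.1 h6).resolve_left hn1)).resolve_left hs
  intro i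
  by_cases hi : i = z
  · rw [hi, hbz', hs']
    ring
  · rw [hb i hi, hs']

/-- **The algebraic core**: for points in general position the system has no solution with `a`, `b`
and `c` different from zero. -/
theorem no_solution (hn : 2 ≤ n) (hg : GenPts p q)
    (h : Sys p q c0 c1 c2 u0 u1 u2 v0 v1 v2 w0 w1 w2 a b)
    (hcne : ¬ (c0 = 0 ∧ c1 = 0 ∧ c2 = 0)) : (∀ i, a i = 0) ∨ ∀ i, b i = 0 := by
  have hn0 : 0 < n := by omega
  by_cases hc : c1 = 0 ∧ c2 = 0
  · exact caseA hn0 hg h (fun h0 => hcne ⟨h0, hc.1, hc.2⟩) hc.1 hc.2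
  rcases eq_or_ne c0 0 with hc0 | hc0
  · have hI : ∀ x y, (c1 * x + c2 * y) * (3 * (w0 + w1 * x + w2 * y)) +
        (u0 + u1 * x + u2 * y) * (v0 + v1 * x + v2 * y) -
        (u0 + 3 * (u1 * x + u2 * y)) * (v0 + v1 * x + v2 * y) -
        (v0 + 3 * (v1 * x + v2 * y)) * (u0 + u1 * x + u2 * y) = 0 := by
      intro x y
      refine div_aff (c0 := 0) hc (Q := fun x y =>
        (c1 * x + c2 * y) * (3 * (w0 + w1 * x + w2 * y)) +
        (u0 + u1 * x + u2 * y) * (v0 + v1 * x + v2 * y) -
        (u0 + 3 * (u1 * x + u2 * y)) * (v0 + v1 * x + v2 * y) -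
        (v0 + 3 * (v1 * x + v2 * y)) * (u0 + u1 * x + u2 * y)) (by fun_prop) ?_ x y
      intro x y
      have := h.ident hg x y
      rw [hc0] at this
      linear_combination this
    have huv : u0 * v0 = 0 := by linear_combination -hI 0 0
    have hpos := sq_add_sq_pos hc
    -- one of the two constant terms vanishes
    have main : ∀ {u0 u1 u2 v0 v1 v2 : ℝ} {a b : Fin n → ℝ},
        Sys p q c0 c1 c2 u0 u1 u2 v0 v1 v2 w0 w1 w2 a b →
        (∀ x y, (c1 * x + c2 * y) * (3 * (w0 + w1 * x + w2 * y)) +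
        (u0 + u1 * x + u2 * y) * (v0 + v1 * x + v2 * y) -
        (u0 + 3 * (u1 * x + u2 * y)) * (v0 + v1 * x + v2 * y) -
        (v0 + 3 * (v1 * x + v2 * y)) * (u0 + u1 * x + u2 * y) = 0) → u0 = 0 →
        (∀ i, a i = 0) ∨ ∀ i, b i = 0 := by
      intro u0 u1 u2 v0 v1 v2 a b h hI hu0
      have e1 := hI (-c2) c1
      have e2 := hI c2 (-c1)
      rw [hu0] at e1 e2
      have e3 : (-u1 * c2 + u2 * c1) * v0 = 0 := by linear_combination (e2 - e1) / 6
      have e4 : (-u1 * c2 + u2 * c1) * (-v1 * c2 + v2 * c1) = 0 := by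
        linear_combination -(e1 + e2) / 10
      have prop : ∀ r1 r2 : ℝ, -r1 * c2 + r2 * c1 = 0 →
          ∃ s, r1 = -s * (3 * c1) ∧ r2 = -s * (3 * c2) := by
        intro r1 r2 hr
        refine ⟨-((r1 * c1 + r2 * c2) / (3 * (c1 ^ 2 + c2 ^ 2))), ?_, ?_⟩
        · field_simp
          linear_combination -c2 * hr
        · field_simp
          linear_combination c1 * hr
      by_cases hU : -u1 * c2 + u2 * c1 = 0
      · obtain ⟨s, h1, h2⟩ := prop u1 u2 hU
        exact caseC hn hg h hc0 hc hu0 h1 h2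
      · obtain ⟨s, h1, h2⟩ := prop v1 v2 ((mul_eq_zero.1 e4).resolve_left hU)
        exact (caseC hn hg h.symm hc0 hc ((mul_eq_zero.1 e3).resolve_left hU) h1 h2).symm
    rcases mul_eq_zero.1 huv with hu0 | hv0
    · exact main h hI hu0
    · exact (main h.symm (fun x y => by linear_combination hI x y) hv0).symm
  · have hline : ∀ x y, c0 + 3 * (c1 * x + c2 * y) = 0 →
        (u0 + u1 * x + u2 * y) * (v0 + v1 * x + v2 * y) = 0 := by
      intro x y hxy
      have h1 := h.ident hg x y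
      rw [hxy] at h1
      have hB : c1 * x + c2 * y ≠ 0 := by
        intro h3
        apply hc0
        linear_combination hxy - 3 * h3
      apply (mul_eq_zero.1 (_ : (c1 * x + c2 * y) * ((u0 + u1 * x + u2 * y) *
        (v0 + v1 * x + v2 * y)) = 0)).resolve_left hB
      linear_combination h1 / 3
    rcases prod_line hc hline with ⟨s, h1, h2, h3⟩ | ⟨s, h1, h2, h3⟩
    · exact caseB hn0 hg h hc0 hc h1 h2 h3
    · exact (caseB hn0 hg h.symm hc0 hc h1 h2 h3).symm

end Cases

end Algebra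

section Points

open Polynomial

/-- Descartes: the number of positive zeros is smaller than the number of monomials. -/
theorem signVariations_lt (c : ℕ) : ∀ P : ℝ[X], P ≠ 0 → #P.support = c → P.signVariations + 1 ≤ c := by
  induction c with
  | zero =>
    intro P hP hc
    exact absurd (Polynomial.support_eq_empty.1 (Finset.card_eq_zero.1 hc)) hP
  | succ c ih =>
    intro P hP hc
    by_cases h0 : P.eraseLead = 0
    · have h1 : P = monomial P.natDegree P.leadingCoeff := by
        conv_lhs => rw [← eraseLead_add_monomial_natDegree_leadingCoeff P, h0, zero_add]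
      rw [h1, signVariations_monomial]
      omega
    · have h1 := ih P.eraseLead h0 (card_support_eraseLead' hc)
      have h2 := signVariations_le_eraseLead_succ (P := P)
      omega

theorem card_lt_support {P : ℝ[X]} (hP : P ≠ 0) {S : Finset ℝ}
    (hS : ∀ t ∈ S, 0 < t ∧ P.eval t = 0) : #S < #P.support := by
  have h1 := signVariations_lt _ P hP rfl
  have h2 := roots_countP_pos_le_signVariations (P := P)
  have h3 : #S ≤ P.roots.countP (0 < ·) := by
    rw [Multiset.countP_eq_card_filter]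
    have hsub : S ⊆ (P.roots.filter (0 < ·)).toFinset := by
      intro t ht
      rw [Multiset.mem_toFinset, Multiset.mem_filter, mem_roots hP]
      exact ⟨(hS t ht).2, (hS t ht).1⟩
    exact (Finset.card_le_card hsub).trans (Multiset.toFinset_card_le _)
  omega

/-- Generalised Vandermonde. -/
theorem vand {m : ℕ} (e : Fin m → ℕ) (he : Function.Injective e) (f : Fin m → ℝ) {S : Finset ℝ}
    (hS : ∀ t ∈ S, 0 < t) (hcard : m ≤ #S) (h : ∀ t ∈ S, ∑ j, f j * t ^ (e j) = 0) (j : Fin m) :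
    f j = 0 := by
  set P : ℝ[X] := ∑ j, monomial (e j) (f j) with hPd
  have heval : ∀ t, P.eval t = ∑ j, f j * t ^ (e j) := by
    intro t
    rw [hPd, eval_finsetSum]
    simp
  have hcoeff : ∀ k, P.coeff k = ∑ j, if e j = k then f j else 0 := by
    intro k
    rw [hPd, finsetSum_coeff]
    simp [coeff_monomial]
  have hP0 : P = 0 := by
    by_contra hP
    have h1 := card_lt_support hP (S := S) fun t ht => ⟨hS t ht, by rw [heval, h t ht]⟩
    have h2 : P.support ⊆ Finset.univ.image e := by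
      intro k hk
      rw [mem_support_iff, hcoeff] at hk
      by_contra hcon
      apply hk
      refine Finset.sum_eq_zero fun j _ => ?_
      rw [if_neg]
      rintro rfl
      exact hcon (Finset.mem_image_of_mem e (Finset.mem_univ j))
    have h3 := (Finset.card_le_card h2).trans Finset.card_image_le
    rw [Finset.card_univ, Fintype.card_fin] at h3
    omega
  have h1 := hcoeff (e j)
  rw [hP0, coeff_zero, Finset.sum_eq_single j] at h1
  · simpa using h1.symm
  · intro i _ hi
    rw [if_neg (fun hh => hi (he hh))]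
  · intro h
    exact absurd (Finset.mem_univ j) h

/-- The first coordinates. -/
noncomputable def pp {n : ℕ} (i : Fin n) : ℝ := (i : ℝ) + 1

/-- The second coordinates. -/
noncomputable def qq {n : ℕ} (i : Fin n) : ℝ := ((i : ℝ) + 1) ^ 4

theorem pp_pos {n : ℕ} (i : Fin n) : 0 < pp i := by
  unfold pp
  positivity

theorem pp_ne {n : ℕ} {i j : Fin n} (h : i ≠ j) : pp i ≠ pp j := by
  unfold pp
  intro hh
  apply h
  have : ((i : ℕ) : ℝ) = ((j : ℕ) : ℝ) := by linarith
  exact Fin.ext (by exact_mod_cast this)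

theorem gen_points {n : ℕ} (hn : 10 ≤ n) : GenPts (n := n) pp qq where
  cub := by
    rintro F ⟨f0, f1, f2, f3, f4, f5, f6, f7, f8, f9, hF⟩ hz x y
    have he : Function.Injective ![0, 1, 4, 2, 5, 8, 3, 6, 9, 12] := by decide
    have h := vand ![0, 1, 4, 2, 5, 8, 3, 6, 9, 12] he ![f0, f1, f2, f3, f4, f5, f6, f7, f8, f9]
      (S := Finset.univ.image (pp (n := n))) (by
        intro t ht
        obtain ⟨i, -, rfl⟩ := Finset.mem_image.1 ht
        exact pp_pos i) (by
        rw [Finset.card_image_of_injective _ fun i j hij => by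
          by_contra hne
          exact pp_ne hne hij, Finset.card_univ, Fintype.card_fin]
        exact hn) (by
        intro t ht
        obtain ⟨i, -, rfl⟩ := Finset.mem_image.1 ht
        have h1 := hz i
        rw [hF] at h1
        simp only [Fin.sum_univ_succ, Fin.sum_univ_zero, Matrix.cons_val_zero, Matrix.cons_val_succ]
        unfold qq at h1
        unfold pp at h1 ⊢
        linear_combination h1)
    have g0 := h 0
    have g1 := h 1
    have g2 := h 2
    have g3 := h 3
    have g4 := h 4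
    have g5 := h 5
    have g6 := h 6
    have g7 := h 7
    have g8 := h 8
    have g9 := h 9
    simp at g0 g1 g2 g3 g4 g5 g6 g7 g8 g9
    rw [hF, g0, g1, g2, g3, g4, g5, g6, g7, g8, g9]
    ring
  aff := by
    intro a0 a1 a2 hne i j k hij hik hjk h1 h2 h3
    have he : Function.Injective ![0, 1, 4] := by decide
    have h := vand ![0, 1, 4] he ![a0, a1, a2] (S := {pp i, pp j, pp k}) (by
        intro t ht
        simp only [Finset.mem_insert, Finset.mem_singleton] at ht
        rcases ht with rfl | rfl | rfl <;> exact pp_pos _) (by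
        rw [Finset.card_insert_of_notMem, Finset.card_insert_of_notMem, Finset.card_singleton]
        · simp only [Finset.mem_singleton]
          exact pp_ne hjk
        · simp only [Finset.mem_insert, Finset.mem_singleton, not_or]
          exact ⟨pp_ne hij, pp_ne hik⟩) (by
        intro t ht
        simp only [Fin.sum_univ_succ, Fin.sum_univ_zero, Matrix.cons_val_zero, Matrix.cons_val_succ,
          Matrix.cons_val_fin_one]
        unfold qq at h1 h2 h3
        unfold pp at h1 h2 h3 ht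
        simp only [Finset.mem_insert, Finset.mem_singleton] at ht
        rcases ht with rfl | rfl | rfl
        · linear_combination h1
        · linear_combination h2
        · linear_combination h3)
    have g0 := h 0
    have g1 := h 1
    have g2 := h 2
    simp at g0 g1 g2
    exact hne ⟨g0, g1, g2⟩
  lin := by
    intro a1 a2 hne i j hij h1 h2
    have he : Function.Injective ![1, 4] := by decide
    have h := vand ![1, 4] he ![a1, a2] (S := {pp i, pp j}) (by
        intro t ht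
        simp only [Finset.mem_insert, Finset.mem_singleton] at ht
        rcases ht with rfl | rfl <;> exact pp_pos _) (by
        rw [Finset.card_insert_of_notMem, Finset.card_singleton]
        simp only [Finset.mem_singleton]
        exact pp_ne hij) (by
        intro t ht
        simp only [Fin.sum_univ_succ, Fin.sum_univ_zero, Matrix.cons_val_zero, Matrix.cons_val_succ,
          Matrix.cons_val_fin_one]
        unfold qq at h1 h2
        unfold pp at h1 h2 ht
        simp only [Finset.mem_insert, Finset.mem_singleton] at ht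
        rcases ht with rfl | rfl
        · linear_combination h1
        · linear_combination h2)
    have g0 := h 0
    have g1 := h 1
    simp at g0 g1
    exact hne ⟨g0, g1⟩
  ne := fun i j hij => pp_ne hij

end Points

section Derivatives

variable {n : ℕ}

theorem proj_app (i : Fin n) (v : E n) : (EuclideanSpace.proj i : E n →L[ℝ] ℝ) v = v i := rfl

theorem hasF {F : Type*} [NormedAddCommGroup F] [NormedSpace ℝ F] {g g' : Fin n → ℝ → ℝ}
    (hg : ∀ i t, HasDerivAt (g i) (g' i t) t) (L : Fin n → F) (x : E n) :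
    HasFDerivAt (fun y : E n => ∑ i, g i (y i) • L i)
      (∑ i, g' i (x i) • (EuclideanSpace.proj i : E n →L[ℝ] ℝ).smulRight (L i)) x := by
  apply HasFDerivAt.fun_sum
  intro i _
  have h1 : HasFDerivAt (fun y : E n => y i) (EuclideanSpace.proj i : E n →L[ℝ] ℝ) x :=
    (EuclideanSpace.proj i : E n →L[ℝ] ℝ).hasFDerivAt
  have h2 := ((hg i (x i)).comp_hasFDerivAt x h1).smul_const (L i)
  refine h2.congr_fderiv ?_
  ext v
  simp [smul_smul]

/-- The separable function with coefficients `A`, `b`. -/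
noncomputable def sep (A N : ℝ) (b : Fin n → ℝ) (x : E n) : ℝ :=
  ∑ i, (A / 2 * x i ^ 2 + b i * (N * x i ^ 3 - x i))

theorem sep1 (A N : ℝ) (b : Fin n → ℝ) : fderiv ℝ (sep A N b) = fun x : E n =>
    ∑ i, (A * x i + b i * (3 * N * x i ^ 2 - 1)) • (EuclideanSpace.proj i : E n →L[ℝ] ℝ) := by
  funext x
  have h := hasF (g := fun i t => A / 2 * t ^ 2 + b i * (N * t ^ 3 - t))
    (g' := fun i t => A * t + b i * (3 * N * t ^ 2 - 1)) (by
      intro i t
      have h1 := (((hasDerivAt_pow 2 t).const_mul (A / 2)).add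
        ((((hasDerivAt_pow 3 t).const_mul N).sub (hasDerivAt_id t)).const_mul (b i)))
      refine h1.congr_deriv ?_
      simp
      ring) (fun _ => (1 : ℝ)) x
  have e : sep A N b = fun y : E n => ∑ i, (A / 2 * y i ^ 2 + b i * (N * y i ^ 3 - y i)) • (1 : ℝ) := by
    funext y
    simp [sep]
  rw [e, h.fderiv]
  refine Finset.sum_congr rfl fun i _ => ?_
  congr 1
  ext v
  simp

theorem sep2 (A N : ℝ) (b : Fin n → ℝ) : fderiv ℝ (fderiv ℝ (sep A N b)) = fun x : E n =>
    ∑ i, (A + 6 * N * b i * x i) • (EuclideanSpace.proj i : E n →L[ℝ] ℝ).smulRight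
      (EuclideanSpace.proj i : E n →L[ℝ] ℝ) := by
  rw [sep1]
  funext x
  exact (hasF (g := fun i t => A * t + b i * (3 * N * t ^ 2 - 1))
    (g' := fun i t => A + 6 * N * b i * t) (by
      intro i t
      have h1 := (((hasDerivAt_id t).const_mul A).add
        ((((hasDerivAt_pow 2 t).const_mul (3 * N)).sub_const 1).const_mul (b i)))
      refine h1.congr_deriv ?_
      simp
      ring) (fun i => (EuclideanSpace.proj i : E n →L[ℝ] ℝ)) x).fderiv

theorem sep3 (A N : ℝ) (b : Fin n → ℝ) : fderiv ℝ (fderiv ℝ (fderiv ℝ (sep A N b))) = fun _ : E n =>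
    ∑ i, (6 * N * b i) • (EuclideanSpace.proj i : E n →L[ℝ] ℝ).smulRight
      ((EuclideanSpace.proj i : E n →L[ℝ] ℝ).smulRight
      (EuclideanSpace.proj i : E n →L[ℝ] ℝ)) := by
  rw [sep2]
  funext x
  exact (hasF (g := fun i t => A + 6 * N * b i * t)
    (g' := fun i t => 6 * N * b i) (by
      intro i t
      have h1 := ((hasDerivAt_id t).const_mul (6 * N * b i)).const_add A
      refine h1.congr_deriv ?_
      simp) (fun i => (EuclideanSpace.proj i : E n →L[ℝ] ℝ).smulRight
        (EuclideanSpace.proj i : E n →L[ℝ] ℝ)) x).fderiv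

end Derivatives

end EX

open EX

/-- Two separable cubic phases. -/
noncomputable def phi2 (n : ℕ) (x : E n) : E 2 :=
  WithLp.toLp 2 ![∑ i : Fin n, ((i : ℝ) + 1) * (n * x i ^ 3 - x i),
    ∑ i : Fin n, ((i : ℝ) + 1) ^ 4 * (n * x i ^ 3 - x i)]

/-- The point `(1, …, 1) / √n`. -/
noncomputable def one_pt (n : ℕ) : E n := WithLp.toLp 2 fun _ => 1 / √(n : ℝ)

theorem phi2_contDiff (n : ℕ) {N : WithTop ℕ∞} : ContDiff ℝ N (phi2 n) := by
  rw [contDiff_euclidean]
  intro j
  have hc : ∀ i : Fin n, ContDiff ℝ N fun x : E n => x i := fun i =>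
    (EuclideanSpace.proj i : E n →L[ℝ] ℝ).contDiff
  have h1 : ∀ f : Fin n → ℝ, ContDiff ℝ N fun x : E n => ∑ i, f i * (n * x i ^ 3 - x i) := fun f =>
    ContDiff.sum fun i _ => contDiff_const.mul ((contDiff_const.mul ((hc i).pow 3)).sub (hc i))
  fin_cases j
  · exact h1 fun i => (i : ℝ) + 1
  · exact h1 fun i => ((i : ℝ) + 1) ^ 4

theorem phc_phi2 (n : ℕ) (c : ℝ × E 2) :
    Phc (phi2 n) c = sep c.1 n fun i => c.2 0 * pp i + c.2 1 * qq i := by
  funext x
  simp only [Phc, phi2, sep, EuclideanSpace.norm_sq_eq, PiLp.inner_apply, Fin.sum_univ_two]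
  simp only [Matrix.cons_val_zero, Matrix.cons_val_one, Real.norm_eq_abs, sq_abs, Finset.mul_sum,
    RCLike.inner_apply, conj_trivial, pp, qq, Finset.sum_mul]
  rw [← Finset.sum_add_distrib, ← Finset.sum_add_distrib]
  refine Finset.sum_congr rfl fun i _ => ?_
  ring

theorem norm_one_pt {n : ℕ} (hn : 1 ≤ n) : ‖one_pt n‖ = 1 := by
  have hn' : (0 : ℝ) < n := by exact_mod_cast hn
  have h : ‖one_pt n‖ ^ 2 = 1 := by
    rw [EuclideanSpace.norm_sq_eq]
    simp only [one_pt, Real.norm_eq_abs, sq_abs, sum_const, card_univ, Fintype.card_fin,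
      nsmul_eq_mul, div_pow, one_pow, Real.sq_sqrt hn'.le]
    field_simp
  have h2 := norm_nonneg (one_pt n)
  nlinarith

theorem gen_phi2 {n : ℕ} (hn : 10 ≤ n) : Gen (phi2 n) (one_pt n) := by
  have hg := gen_points hn
  have hn0 : (0 : ℝ) < n := by
    have : 0 < n := by omega
    exact_mod_cast this
  set r : ℝ := √(n : ℝ) with hr
  have hr0 : 0 < r := Real.sqrt_pos.2 hn0
  have hrr : r * r = n := Real.mul_self_sqrt hn0.le
  have hx : ∀ i, one_pt n i = 1 / r := fun i => rfl
  -- the derivatives at the point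
  have hD1 : ∀ (c : ℝ × E 2) (v : E n), fderiv ℝ (Phc (phi2 n) c) (one_pt n) v =
      ∑ i, (c.1 / r + 2 * (c.2 0 * pp i + c.2 1 * qq i)) * v i := by
    intro c v
    rw [phc_phi2, sep1]
    simp only [hx, FunLike.coe_sum, Finset.sum_apply, FunLike.coe_smul,
      Pi.smul_apply, proj_app, smul_eq_mul]
    refine Finset.sum_congr rfl fun i _ => ?_
    rw [← hrr]
    field_simp
    ring
  have hD2 : ∀ (c : ℝ × E 2) (v w : E n), fderiv ℝ (fderiv ℝ (Phc (phi2 n) c)) (one_pt n) v w =
      ∑ i, (c.1 + 6 * r * (c.2 0 * pp i + c.2 1 * qq i)) * v i * w i := by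
    intro c v w
    rw [phc_phi2, sep2]
    simp only [hx, FunLike.coe_sum, Finset.sum_apply, FunLike.coe_smul,
      Pi.smul_apply, proj_app, smul_eq_mul, ContinuousLinearMap.smulRight_apply]
    refine Finset.sum_congr rfl fun i _ => ?_
    rw [← hrr]
    field_simp
  have hD3 : ∀ (c : ℝ × E 2) (u v w : E n),
      fderiv ℝ (fderiv ℝ (fderiv ℝ (Phc (phi2 n) c))) (one_pt n) u v w =
      ∑ i, 6 * r ^ 2 * (c.2 0 * pp i + c.2 1 * qq i) * u i * v i * w i := by
    intro c u v w
    rw [phc_phi2, sep3]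
    simp only [FunLike.coe_sum, Finset.sum_apply, FunLike.coe_smul,
      Pi.smul_apply, proj_app, smul_eq_mul, ContinuousLinearMap.smulRight_apply]
    refine Finset.sum_congr rfl fun i _ => ?_
    rw [← hrr]
    ring
  have htest : ∀ (f : Fin n → ℝ) (i : Fin n), (∀ y : E n, ∑ j, f j * y j = 0) → f i = 0 := by
    intro f i h
    have := h (EuclideanSpace.single i 1)
    simpa using this
  have hcz : ∀ c : ℝ × E 2, (∀ i : Fin n, c.1 / r + 2 * (c.2 0 * pp i + c.2 1 * qq i) = 0) → c = 0 := by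
    intro c hc
    by_contra hne
    have h3 : ∀ i : Fin n, c.1 / r + 2 * c.2 0 * pp i + 2 * c.2 1 * qq i = 0 := fun i => by
      linear_combination hc i
    refine hg.aff (c.1 / r) (2 * c.2 0) (2 * c.2 1) ?_ ⟨0, by omega⟩ ⟨1, by omega⟩ ⟨2, by omega⟩
      (by simp) (by simp) (by simp) (h3 _) (h3 _) (h3 _)
    rintro ⟨h4, h5, h6⟩
    apply hne
    have h7 : c.1 = 0 := by
      rw [div_eq_zero_iff] at h4
      exact h4.resolve_right hr0.ne'
    refine Prod.ext h7 ?_
    ext j
    fin_cases j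
    · simpa using h5
    · simpa using h6
  refine ⟨?_, ?_⟩
  · intro c hc
    apply hcz c
    intro i
    apply htest (fun i => c.1 / r + 2 * (c.2 0 * pp i + c.2 1 * qq i)) i
    intro y
    rw [← hD1, hc]
    rfl
  · intro c c1 c2 c3 a b hc ha hb hax hbx hab h1 h2
    by_contra hcon
    push Not at hcon
    have e1 : ∀ i : Fin n, (c.1 + 6 * r * (c.2 0 * pp i + c.2 1 * qq i)) * a i +
        (c1.1 / r + 2 * (c1.2 0 * pp i + c1.2 1 * qq i)) = 0 := by
      intro i
      apply htest (fun i => (c.1 + 6 * r * (c.2 0 * pp i + c.2 1 * qq i)) * a i +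
        (c1.1 / r + 2 * (c1.2 0 * pp i + c1.2 1 * qq i))) i
      intro y
      have := h1 y
      rw [hD2, hD1, ← Finset.sum_add_distrib] at this
      rw [← this]
      exact Finset.sum_congr rfl fun j _ => by ring
    have e2 : ∀ i : Fin n, (c.1 + 6 * r * (c.2 0 * pp i + c.2 1 * qq i)) * b i +
        (c2.1 / r + 2 * (c2.2 0 * pp i + c2.2 1 * qq i)) = 0 := by
      intro i
      apply htest (fun i => (c.1 + 6 * r * (c.2 0 * pp i + c.2 1 * qq i)) * b i +
        (c2.1 / r + 2 * (c2.2 0 * pp i + c2.2 1 * qq i))) i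
      intro y
      have := h2 y
      rw [hD2, hD1, ← Finset.sum_add_distrib] at this
      rw [← this]
      exact Finset.sum_congr rfl fun j _ => by ring
    have e3 : ∀ i : Fin n, 6 * r ^ 2 * (c.2 0 * pp i + c.2 1 * qq i) * a i * b i +
        (c1.1 + 6 * r * (c1.2 0 * pp i + c1.2 1 * qq i)) * b i +
        (c2.1 + 6 * r * (c2.2 0 * pp i + c2.2 1 * qq i)) * a i +
        (c3.1 / r + 2 * (c3.2 0 * pp i + c3.2 1 * qq i)) = 0 := by
      intro i
      apply htest (fun i => 6 * r ^ 2 * (c.2 0 * pp i + c.2 1 * qq i) * a i * b i +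
        (c1.1 + 6 * r * (c1.2 0 * pp i + c1.2 1 * qq i)) * b i +
        (c2.1 + 6 * r * (c2.2 0 * pp i + c2.2 1 * qq i)) * a i +
        (c3.1 / r + 2 * (c3.2 0 * pp i + c3.2 1 * qq i))) i
      intro y
      have := hcon y
      rw [hD3, hD2, hD2, hD1, ← Finset.sum_add_distrib, ← Finset.sum_add_distrib,
        ← Finset.sum_add_distrib] at this
      rw [← this]
      exact Finset.sum_congr rfl fun j _ => by ring
    have hsa : ∀ v : E n, ⟪v, one_pt n⟫ = 0 → ∑ i, v i = 0 := by
      intro v hv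
      rw [PiLp.inner_apply] at hv
      simp only [hx, RCLike.inner_apply, conj_trivial] at hv
      rw [← Finset.mul_sum] at hv
      exact (mul_eq_zero.1 hv).resolve_left (by positivity)
    have hsab : ∑ i, a i * b i = 0 := by
      rw [PiLp.inner_apply] at hab
      rw [← hab]
      refine Finset.sum_congr rfl fun i _ => ?_
      simp [mul_comm]
    have hS : Sys (n := n) pp qq c.1 (2 * r * c.2 0) (2 * r * c.2 1) (c1.1 / r) (2 * c1.2 0)
        (2 * c1.2 1) (c2.1 / r) (2 * c2.2 0) (2 * c2.2 1) (c3.1 / r ^ 2) (2 * c3.2 0 / r)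
        (2 * c3.2 1 / r) (fun i => a i) (fun i => b i) := by
      refine ⟨fun i => ?_, fun i => ?_, fun i => ?_, hsa a hax, hsa b hbx, hsab⟩
      · linear_combination e1 i
      · linear_combination e2 i
      · have h3 := e3 i
        have h4 : r ≠ 0 := hr0.ne'
        have : (6 * r ^ 2 * (c.2 0 * pp i + c.2 1 * qq i) * a i * b i +
          (c1.1 + 6 * r * (c1.2 0 * pp i + c1.2 1 * qq i)) * b i +
          (c2.1 + 6 * r * (c2.2 0 * pp i + c2.2 1 * qq i)) * a i +
          (c3.1 / r + 2 * (c3.2 0 * pp i + c3.2 1 * qq i))) / r = 0 := by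
          rw [h3, zero_div]
        rw [← this]
        field_simp
        ring
    rcases no_solution (by omega) hg hS (by
        rintro ⟨h3, h4, h5⟩
        apply hc
        have h6 : c.2 0 = 0 := by
          have := mul_eq_zero.1 h4
          exact this.resolve_left (by positivity)
        have h7 : c.2 1 = 0 := by
          have := mul_eq_zero.1 h5
          exact this.resolve_left (by positivity)
        refine Prod.ext h3 ?_
        ext j
        fin_cases j
        · simpa using h6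
        · simpa using h7) with h3 | h3
    · apply ha
      ext i
      exact h3 i
    · apply hb
      ext i
      exact h3 i

end Pool.Agent.LFK
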