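import Pool.Agent.LF.NSP0

/-!
LEAFK row FAR0: non-stationary phase, all hypotheses on the phase only near the support of the
amplitude.
-/

set_option autoImplicit false

namespace Pool.Agent.LFK

open MeasureTheory Set Metric Pool.Agent.MP_6cbfb8_an Pool.Agent.LF
open scoped Real ContDiff RealInnerProductSpace

/-- Non-stationary phase at the scale `l`, all hypotheses on the phase near the support of the
amplitude. -/
theorem nspw_g (m N : ℕ) : ∃ C : ℝ, 0 ≤ C ∧ ∀ (Bd M l ρ Y : ℝ) (A : E m → ℂ) (Φ : E m → ℝ)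
    (zc : E m), 0 ≤ Bd → 1 ≤ M → 0 < l → l ≤ 1 → l ≤ ρ → 0 < Y → ContDiff ℝ N A →
    ContDiff ℝ ∞ Φ → (∀ z, ρ < ‖z - zc‖ → A z = 0) →
    (∀ j ≤ N, ∀ z, ‖iteratedFDeriv ℝ j A z‖ ≤ Bd * (l ^ j)⁻¹) →
    (∀ j, 2 ≤ j → j ≤ N + 2 → ∀ z, (∃ z', A z' ≠ 0 ∧ ‖z - z'‖ ≤ 2 * l) →
      ‖iteratedFDeriv ℝ j Φ z‖ ≤ M * (l ^ 2)⁻¹) →
    (∀ y, (∃ z', A z' ≠ 0 ∧ ‖y - z'‖ ≤ l) → Y ≤ 1 + l * ‖fderiv ℝ Φ y‖) →
    ‖∫ z : E m, A z * Complex.exp ((Φ z : ℂ) * Complex.I)‖ ≤
      C * Bd * M ^ N * ρ ^ m * (1 / Y) ^ N := by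
  obtain ⟨C, hC, hcore⟩ := nsp_core m N 1 le_rfl
  obtain ⟨f, hf⟩ : ∃ f : ContDiffBump (0 : E m), f.rOut = 1 :=
    ⟨⟨1 / 2, 1, by norm_num, by norm_num⟩, rfl⟩
  set χ : E m → ℝ := f.normed volume with hχ
  have hχN : ContDiff ℝ (N : ℕ) χ := by
    have := f.contDiff_normed (μ := (volume : Measure (E m))) (n := (N : ℕ∞))
    exact_mod_cast this
  have hχs : ∀ u, 1 < ‖u‖ → χ u = 0 := by
    intro u hu
    have h1 : u ∉ Function.support χ := by
      rw [hχ, f.support_normed_eq, hf, mem_ball, dist_zero_right]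
      exact not_lt.2 hu.le
    exact Function.notMem_support.1 h1
  have hχi : ∫ u, χ u = 1 := f.integral_normed
  have hχb : ∃ Cχ : ℝ, 0 ≤ Cχ ∧ ∀ j ≤ N, ∀ u, ‖iteratedFDeriv ℝ j χ u‖ ≤ Cχ := by
    have h1 : ∀ j : ℕ, ∃ c : ℝ, 0 ≤ c ∧ (j ≤ N → ∀ u, ‖iteratedFDeriv ℝ j χ u‖ ≤ c) := by
      intro j
      by_cases hj : j ≤ N
      · obtain ⟨c, hc⟩ := ((f.hasCompactSupport_normed (μ := volume)).iteratedFDeriv
          (𝕜 := ℝ) j).exists_bound_of_continuous
          (hχN.continuous_iteratedFDeriv (by exact_mod_cast hj))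
        exact ⟨max c 0, le_max_right _ _, fun _ u => (hc u).trans (le_max_left _ _)⟩
      · exact ⟨0, le_rfl, fun h => absurd h hj⟩
    choose c hc0 hc using h1
    refine ⟨∑ j ∈ Finset.range (N + 1), c j, Finset.sum_nonneg fun j _ => hc0 j,
      fun j hj u => (hc j hj u).trans ?_⟩
    exact Finset.single_le_sum (fun i _ => hc0 i) (Finset.mem_range.2 (by omega))
  obtain ⟨Cχ, hCχ, hχb⟩ := hχb
  set vB : ℝ := (volume : Measure (E m)).real (ball 0 1) with hvB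
  have hvB0 : 0 ≤ vB := measureReal_nonneg
  refine ⟨C * (2 ^ N * Cχ) * (2 ^ m * vB), by positivity, ?_⟩
  intro Bd M l ρ Y A Φ zc hBd hM hl hl1 hlρ hY hA hΦ hAs hAb hΦb hYb
  have hρ : 0 < ρ := hl.trans_le hlρ
  set g : E m → ℂ := fun z => A z * Complex.exp ((Φ z : ℂ) * Complex.I) with hg
  have hgc : Continuous g := by
    have h1 : Continuous A := hA.continuous
    have h2 : Continuous Φ := hΦ.continuous
    fun_prop
  have hgs : ∀ z, ρ < ‖z - zc‖ → g z = 0 := by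
    intro z hz
    simp only [hg]
    rw [hAs z hz, zero_mul]
  have hχc : Continuous χ := hχN.continuous
  -- the cut-off at `y`
  have hcut : ∀ y z : E m, χ (l⁻¹ • z - l⁻¹ • y) ≠ 0 → ‖z - y‖ ≤ l := by
    intro y z h
    by_contra hcon
    rw [not_le] at hcon
    refine h (hχs _ ?_)
    rw [← smul_sub, norm_smul, norm_inv, Real.norm_of_nonneg hl.le, ← div_eq_inv_mul, lt_div_iff₀ hl,
      one_mul]
    exact hcon
  -- the partition
  have hpart : ∀ z : E m, ∫ y : E m, χ (l⁻¹ • z - l⁻¹ • y) = l ^ m := by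
    intro z
    have h1 := Measure.integral_comp_inv_smul_of_nonneg (volume : Measure (E m))
      (fun u => χ (l⁻¹ • z - u)) hl.le
    rw [h1, integral_sub_left_eq_self χ volume (l⁻¹ • z), hχi, finrank_euclideanSpace_fin,
      smul_eq_mul, mul_one]
  have hint : Integrable (Function.uncurry fun z y : E m => χ (l⁻¹ • z - l⁻¹ • y) • g z)
      (volume.prod volume) := by
    rw [← Measure.volume_eq_prod]
    refine Continuous.integrable_of_hasCompactSupport ?_ ?_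
    · unfold Function.uncurry
      fun_prop
    · refine HasCompactSupport.intro ((isCompact_closedBall zc ρ).prod
        (isCompact_closedBall zc (2 * ρ))) ?_
      rintro ⟨z, y⟩ h
      simp only [Function.uncurry]
      by_contra hcon
      rw [smul_eq_zero, not_or] at hcon
      refine h ⟨?_, ?_⟩
      · rw [mem_closedBall_iff_norm]
        by_contra hz
        exact hcon.2 (hgs z (not_le.1 hz))
      · have h1 := hcut y z hcon.1
        have h2 : ‖z - zc‖ ≤ ρ := by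
          by_contra hz
          exact hcon.2 (hgs z (not_le.1 hz))
        rw [mem_closedBall_iff_norm]
        calc ‖y - zc‖ = ‖(z - zc) - (z - y)‖ := by congr 1; abel
          _ ≤ ‖z - zc‖ + ‖z - y‖ := norm_sub_le _ _
          _ ≤ 2 * ρ := by linarith
  have hI : (l ^ m : ℝ) • ∫ z, g z = ∫ y : E m, ∫ z : E m, χ (l⁻¹ • z - l⁻¹ • y) • g z := by
    rw [← integral_integral_swap hint, ← integral_smul]
    refine integral_congr_ae (Filter.Eventually.of_forall fun z => ?_)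
    simp only
    rw [integral_smul_const, hpart]
  -- the bound for one `y`
  have hone : ∀ y, ‖∫ z : E m, χ (l⁻¹ • z - l⁻¹ • y) • g z‖ ≤
      C * (2 ^ N * Cχ * Bd) * M ^ N * l ^ m * (1 / Y) ^ N := by
    intro y
    by_cases hex : ∃ z', A z' ≠ 0 ∧ ‖y - z'‖ ≤ l
    swap
    · have h0 : ∀ z : E m, χ (l⁻¹ • z - l⁻¹ • y) • g z = 0 := by
        intro z
        by_contra hcon
        rw [smul_eq_zero, not_or] at hcon
        refine hex ⟨z, fun hz => hcon.2 ?_, ?_⟩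
        · simp only [hg]
          rw [hz, zero_mul]
        · rw [norm_sub_rev]
          exact hcut y z hcon.1
      simp only [h0, integral_zero, norm_zero]
      positivity
    have hχy : ContDiff ℝ N fun z : E m => χ (-(l⁻¹ • y) + l⁻¹ • z) :=
      hχN.comp (contDiff_const.add (contDiff_id.const_smul l⁻¹))
    have e1 : ∀ z : E m, χ (l⁻¹ • z - l⁻¹ • y) = χ (-(l⁻¹ • y) + l⁻¹ • z) := by
      intro z
      congr 1
      abel
    have e2 : ∫ z : E m, χ (l⁻¹ • z - l⁻¹ • y) • g z =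
        ∫ z : E m, (χ (-(l⁻¹ • y) + l⁻¹ • z) • A z) * Complex.exp ((Φ z : ℂ) * Complex.I) := by
      refine integral_congr_ae (Filter.Eventually.of_forall fun z => ?_)
      simp only [hg]
      rw [e1, smul_mul_assoc]
    rw [e2]
    have h1 := hcore (2 ^ N * Cχ * Bd) M l (fun z => χ (-(l⁻¹ • y) + l⁻¹ • z) • A z) Φ y
      (by positivity) hM hl hl1 (hχy.smul hA) hΦ (fun z hz => by
        have : χ (l⁻¹ • z - l⁻¹ • y) = 0 := by
          by_contra hne
          exact absurd (hcut y z hne) (not_le.2 (by rwa [one_mul] at hz))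
        rw [← e1, this, zero_smul]) (fun j hj z => by
        refine (norm_iteratedFDeriv_smul_le hχy hA z (by exact_mod_cast hj)).trans ?_
        have h3 : ∀ i ∈ Finset.range (j + 1), (j.choose i : ℝ) *
            ‖iteratedFDeriv ℝ i (fun z : E m => χ (-(l⁻¹ • y) + l⁻¹ • z)) z‖ *
              ‖iteratedFDeriv ℝ (j - i) A z‖ ≤ (j.choose i : ℝ) * (Cχ * Bd * (l ^ j)⁻¹) := by
          intro i hi
          have hij : i ≤ j := Nat.lt_succ_iff.1 (Finset.mem_range.1 hi)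
          have h4 : ‖iteratedFDeriv ℝ i (fun z : E m => χ (-(l⁻¹ • y) + l⁻¹ • z)) z‖ ≤
              Cχ * (l⁻¹) ^ i := by
            refine (nsp_comp (hχN.of_le (by exact_mod_cast hij.trans hj)) _
              (inv_nonneg.2 hl.le) z).trans ?_
            exact mul_le_mul_of_nonneg_right (hχb i (hij.trans hj) _) (by positivity)
          have h5 := hAb (j - i) ((Nat.sub_le j i).trans hj) z
          have h6 : (l⁻¹) ^ i * (l ^ (j - i))⁻¹ = (l ^ j)⁻¹ := by
            rw [inv_pow, ← mul_inv, ← pow_add, Nat.add_sub_cancel' hij]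
          calc (j.choose i : ℝ) *
              ‖iteratedFDeriv ℝ i (fun z : E m => χ (-(l⁻¹ • y) + l⁻¹ • z)) z‖ *
                ‖iteratedFDeriv ℝ (j - i) A z‖ ≤
              (j.choose i : ℝ) * (Cχ * (l⁻¹) ^ i) * (Bd * (l ^ (j - i))⁻¹) := by gcongr
            _ = (j.choose i : ℝ) * (Cχ * Bd * ((l⁻¹) ^ i * (l ^ (j - i))⁻¹)) := by ring
            _ = _ := by rw [h6]
        refine (Finset.sum_le_sum h3).trans ?_
        rw [← Finset.sum_mul]
        have h7 : (∑ i ∈ Finset.range (j + 1), (j.choose i : ℝ)) = 2 ^ j := by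
          rw [← Nat.cast_sum, Nat.sum_range_choose]
          norm_num
        rw [h7]
        calc (2 : ℝ) ^ j * (Cχ * Bd * (l ^ j)⁻¹) ≤ 2 ^ N * (Cχ * Bd * (l ^ j)⁻¹) := by
              refine mul_le_mul_of_nonneg_right (pow_le_pow_right₀ (by norm_num) hj) (by positivity)
          _ = 2 ^ N * Cχ * Bd * (l ^ j)⁻¹ := by ring)
      (fun j hj1 hj2 z hz => hΦb j hj1 hj2 z (by
        obtain ⟨z', hz', hzy⟩ := hex
        refine ⟨z', hz', ?_⟩
        rw [one_mul] at hz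
        calc ‖z - z'‖ = ‖(z - y) + (y - z')‖ := by congr 1; abel
          _ ≤ ‖z - y‖ + ‖y - z'‖ := norm_add_le _ _
          _ ≤ 2 * l := by linarith))
    refine h1.trans ?_
    have h8 : 1 / (1 + l * ‖fderiv ℝ Φ y‖) ≤ 1 / Y := one_div_le_one_div_of_le hY (hYb y hex)
    have h9 : (1 / (1 + l * ‖fderiv ℝ Φ y‖)) ^ N ≤ (1 / Y) ^ N :=
      pow_le_pow_left₀ (by positivity) h8 N
    exact mul_le_mul_of_nonneg_left h9 (by positivity)
  -- the integral over `y`
  have hout : ∀ y, y ∉ closedBall zc (2 * ρ) → ∫ z : E m, χ (l⁻¹ • z - l⁻¹ • y) • g z = 0 := by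
    intro y hy
    rw [mem_closedBall_iff_norm, not_le] at hy
    have : ∀ z : E m, χ (l⁻¹ • z - l⁻¹ • y) • g z = 0 := by
      intro z
      by_contra hcon
      rw [smul_eq_zero, not_or] at hcon
      have h1 := hcut y z hcon.1
      have h2 : ‖z - zc‖ ≤ ρ := by
        by_contra hz
        exact hcon.2 (hgs z (not_le.1 hz))
      have h3 : ‖y - zc‖ ≤ ‖z - zc‖ + ‖z - y‖ := by
        calc ‖y - zc‖ = ‖(z - zc) - (z - y)‖ := by congr 1; abel
          _ ≤ ‖z - zc‖ + ‖z - y‖ := norm_sub_le _ _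
      linarith
    simp [this]
  have hlm : 0 < l ^ m := by positivity
  have h1 : l ^ m * ‖∫ z, g z‖ ≤
      C * (2 ^ N * Cχ * Bd) * M ^ N * l ^ m * (1 / Y) ^ N * ((2 * ρ) ^ m * vB) := by
    have h2 : l ^ m * ‖∫ z, g z‖ = ‖(l ^ m : ℝ) • ∫ z, g z‖ := by
      rw [norm_smul, Real.norm_of_nonneg hlm.le]
    rw [h2, hI, ← setIntegral_eq_integral_of_forall_compl_eq_zero hout]
    refine (norm_setIntegral_le_of_norm_le_const measure_closedBall_lt_top
      fun y _ => hone y).trans (le_of_eq ?_)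
    rw [Measure.addHaar_real_closedBall _ _ (by positivity), finrank_euclideanSpace_fin]
  have h3 : l ^ m * ‖∫ z, g z‖ ≤
      l ^ m * (C * (2 ^ N * Cχ) * (2 ^ m * vB) * Bd * M ^ N * ρ ^ m * (1 / Y) ^ N) := by
    refine h1.trans (le_of_eq ?_)
    rw [mul_pow]
    ring
  exact le_of_mul_le_mul_left h3 hlm

/-- Non-stationary phase for an amplitude at the scale `l0`: the gradient of the phase is at least
`c lam` on the support of the amplitude, and the derivatives of order at least `2` of the phase are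
at most `M lam / l0` near the support. -/
theorem far_l (d N : ℕ) (c M : ℝ) (hc : 0 < c) (hM : 1 ≤ M) : ∃ C : ℝ, 0 ≤ C ∧
    ∀ (Bd lam l0 ρ : ℝ) (A : E d → ℂ) (F : E d → ℝ) (z0 : E d), 0 ≤ Bd → 0 < l0 → l0 ≤ 1 →
    l0 ≤ ρ → 1 ≤ lam * l0 → ContDiff ℝ (2 * N : ℕ) A → ContDiff ℝ ∞ F →
    (∀ z, ρ < ‖z - z0‖ → A z = 0) →
    (∀ j ≤ 2 * N, ∀ z, ‖iteratedFDeriv ℝ j A z‖ ≤ Bd * (l0 ^ j)⁻¹) →
    (∀ j, 2 ≤ j → j ≤ 2 * N + 2 → ∀ z, (∃ z', A z' ≠ 0 ∧ ‖z - z'‖ ≤ 2 * l0) →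
      ‖iteratedFDeriv ℝ j F z‖ ≤ M * (lam / l0)) →
    (∀ z, A z ≠ 0 → c * lam ≤ ‖fderiv ℝ F z‖) →
    ‖∫ z : E d, A z * Complex.exp ((F z : ℂ) * Complex.I)‖ ≤
      C * Bd * ρ ^ d * (1 / (lam * l0)) ^ N := by
  obtain ⟨C, hC, hg⟩ := nspw_g d (2 * N)
  set vB : ℝ := (volume : Measure (E d)).real (ball 0 1) with hvB
  have hvB0 : 0 ≤ vB := measureReal_nonneg
  refine ⟨C * M ^ (2 * N) * (2 / c) ^ (2 * N) + vB * (2 * M / c) ^ (2 * N), by positivity, ?_⟩
  intro Bd lam l0 ρ A F z0 hBd hl0 hl01 hlρ hlam hA hF hAs hAb hFb hgrad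
  have hρ : 0 < ρ := hl0.trans_le hlρ
  set Λ : ℝ := lam * l0 with hΛ
  have hΛ0 : 0 < Λ := by linarith
  have hlam0 : 0 < lam := by
    by_contra h
    have : Λ ≤ 0 := mul_nonpos_of_nonpos_of_nonneg (not_lt.1 h) hl0.le
    linarith
  have hsΛ : 1 ≤ √Λ := by
    rw [← Real.sqrt_one]; exact Real.sqrt_le_sqrt hlam
  have hsΛ0 : 0 < √Λ := by linarith
  have hsq : √Λ ^ 2 = Λ := Real.sq_sqrt hΛ0.le
  have hpow : ∀ x : ℝ, x ^ (2 * N) = (x ^ 2) ^ N := fun x => pow_mul x 2 N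
  by_cases hbig : 2 * M / c ≤ √Λ
  · -- large parameter
    set l : ℝ := l0 / √Λ with hl
    have hlpos : 0 < l := by positivity
    have hll0 : l ≤ l0 := div_le_self hl0.le hsΛ
    have hl2 : (l ^ 2)⁻¹ = lam / l0 := by
      rw [hl, div_pow, hsq, hΛ]
      field_simp
    have hY0 : 0 < c * √Λ / 2 := by positivity
    have h1 := hg Bd M l ρ (c * √Λ / 2) A F z0 hBd hM hlpos (hll0.trans hl01) (hll0.trans hlρ)
      hY0 hA hF hAs ?_ ?_ ?_
    · refine h1.trans ?_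
      have e1 : (1 / (c * √Λ / 2)) ^ (2 * N) = (2 / c) ^ (2 * N) * (1 / Λ) ^ N := by
        rw [hpow (1 / _), hpow (2 / c), ← mul_pow]
        congr 1
        have : c ≠ 0 := hc.ne'
        rw [div_pow, div_pow, mul_pow, hsq]
        field_simp
      rw [e1]
      have h2 : 0 ≤ vB * (2 * M / c) ^ (2 * N) * Bd * ρ ^ d * (1 / Λ) ^ N := by positivity
      calc C * Bd * M ^ (2 * N) * ρ ^ d * ((2 / c) ^ (2 * N) * (1 / Λ) ^ N) ≤
            C * M ^ (2 * N) * (2 / c) ^ (2 * N) * Bd * ρ ^ d * (1 / Λ) ^ N +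
              vB * (2 * M / c) ^ (2 * N) * Bd * ρ ^ d * (1 / Λ) ^ N := by
            refine le_trans (le_of_eq ?_) (le_add_of_nonneg_right h2)
            ring
        _ = _ := by ring
    · intro j hj z
      refine (hAb j hj z).trans (mul_le_mul_of_nonneg_left ?_ hBd)
      exact inv_anti₀ (by positivity) (pow_le_pow_left₀ hlpos.le hll0 j)
    · rintro j hj1 hj2 z ⟨z', hz', hzz⟩
      rw [hl2]
      exact hFb j hj1 hj2 z ⟨z', hz', hzz.trans (by linarith)⟩
    · rintro y ⟨z', hz', hyz⟩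
      have h3 : ‖fderiv ℝ F y - fderiv ℝ F z'‖ ≤ M * (lam / l0) * ‖y - z'‖ := by
        refine (convex_closedBall z' l).norm_image_sub_le_of_norm_fderiv_le (𝕜 := ℝ)
          (fun z _ => (hF.fderiv_right (m := 1) (by norm_cast)).differentiable (by simp) z)
          (fun z hz => ?_) (mem_closedBall_self hlpos.le) ?_
        · have h7 : ‖fderiv ℝ (fderiv ℝ F) z‖ = ‖iteratedFDeriv ℝ 2 F z‖ := by
            rw [← norm_iteratedFDeriv_fderiv, ← norm_iteratedFDeriv_fderiv,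
              norm_iteratedFDeriv_zero]
          rw [h7]
          refine hFb 2 le_rfl (by omega) z ⟨z', hz', ?_⟩
          rw [mem_closedBall_iff_norm] at hz
          linarith
        · rwa [mem_closedBall_iff_norm]
      have h4 : M * (lam / l0) * ‖y - z'‖ ≤ c * lam / 2 := by
        calc M * (lam / l0) * ‖y - z'‖ ≤ M * (lam / l0) * l := by gcongr
          _ = M * lam / √Λ := by rw [hl]; field_simp
          _ ≤ c * lam / 2 := by
              rw [div_le_iff₀ hc] at hbig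
              rw [div_le_div_iff₀ hsΛ0 (by norm_num)]
              nlinarith
      have h5 := hgrad z' hz'
      have h6 : ‖fderiv ℝ F z'‖ ≤ ‖fderiv ℝ F y‖ + ‖fderiv ℝ F y - fderiv ℝ F z'‖ := by
        have := norm_sub_norm_le (fderiv ℝ F z') (fderiv ℝ F y)
        rw [norm_sub_rev] at this
        linarith
      have h7 : c * lam / 2 ≤ ‖fderiv ℝ F y‖ := by linarith
      have h8 : c * √Λ / 2 = l * (c * lam / 2) := by
        have : √Λ * √Λ = lam * l0 := by rw [← sq, hsq]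
        rw [hl]
        field_simp
        linear_combination this
      rw [h8]
      have := mul_le_mul_of_nonneg_left h7 hlpos.le
      linarith
  · -- small parameter
    rw [not_le] at hbig
    have h1 : ‖∫ z : E d, A z * Complex.exp ((F z : ℂ) * Complex.I)‖ ≤ Bd * (ρ ^ d * vB) := by
      have hout : ∀ z, z ∉ closedBall z0 ρ → A z * Complex.exp ((F z : ℂ) * Complex.I) = 0 := by
        intro z hz
        rw [mem_closedBall_iff_norm, not_le] at hz
        rw [hAs z hz, zero_mul]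
      rw [← setIntegral_eq_integral_of_forall_compl_eq_zero hout]
      refine (norm_setIntegral_le_of_norm_le_const (C := Bd) measure_closedBall_lt_top
        fun z _ => ?_).trans (le_of_eq ?_)
      · rw [norm_mul, Complex.norm_exp_ofReal_mul_I, mul_one]
        have := hAb 0 (Nat.zero_le _) z
        simpa using this
      · rw [Measure.addHaar_real_closedBall _ _ hρ.le, finrank_euclideanSpace_fin]
    refine h1.trans ?_
    have h2 : 1 ≤ (2 * M / c) ^ (2 * N) * (1 / Λ) ^ N := by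
      rw [hpow, ← mul_pow]
      refine one_le_pow₀ ?_
      rw [mul_one_div, one_le_div hΛ0, ← hsq]
      exact pow_le_pow_left₀ hsΛ0.le hbig.le 2
    have h3 : 0 ≤ C * M ^ (2 * N) * (2 / c) ^ (2 * N) * Bd * ρ ^ d * (1 / Λ) ^ N := by positivity
    calc Bd * (ρ ^ d * vB) = Bd * ρ ^ d * vB * 1 := by ring
      _ ≤ Bd * ρ ^ d * vB * ((2 * M / c) ^ (2 * N) * (1 / Λ) ^ N) :=
          mul_le_mul_of_nonneg_left h2 (by positivity)
      _ ≤ C * M ^ (2 * N) * (2 / c) ^ (2 * N) * Bd * ρ ^ d * (1 / Λ) ^ N +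
            Bd * ρ ^ d * vB * ((2 * M / c) ^ (2 * N) * (1 / Λ) ^ N) :=
          le_add_of_nonneg_left h3
      _ = _ := by ring

/-- The same in a space `W` with coordinates `e`. -/
theorem far_equiv (d N : ℕ) (c M k : ℝ) (hc : 0 < c) (hM : 1 ≤ M) (hk : 1 ≤ k) : ∃ C : ℝ, 0 ≤ C ∧
    ∀ (W : Type) [NormedAddCommGroup W] [NormedSpace ℝ W] [MeasurableSpace W] [BorelSpace W]
    (μ : Measure W) (e : E d ≃L[ℝ] W), MeasurePreserving e volume μ →
    ‖(e : E d →L[ℝ] W)‖ ≤ 1 → ‖(e.symm : W →L[ℝ] E d)‖ ≤ k →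
    ∀ (Bd lam l0 ρ : ℝ) (A : W → ℂ) (F : W → ℝ) (z0 : W), 0 ≤ Bd → 0 < l0 → l0 ≤ 1 →
    l0 ≤ ρ → 1 ≤ lam * l0 → ContDiff ℝ (2 * N : ℕ) A → ContDiff ℝ ∞ F →
    (∀ z, ρ < ‖z - z0‖ → A z = 0) →
    (∀ j ≤ 2 * N, ∀ z, ‖iteratedFDeriv ℝ j A z‖ ≤ Bd * (l0 ^ j)⁻¹) →
    (∀ j, 2 ≤ j → j ≤ 2 * N + 2 → ∀ z, (∃ z', A z' ≠ 0 ∧ ‖z - z'‖ ≤ 2 * l0) →
      ‖iteratedFDeriv ℝ j F z‖ ≤ M * (lam / l0)) →
    (∀ z, A z ≠ 0 → c * lam ≤ ‖fderiv ℝ F z‖) →
    ‖∫ z : W, A z * Complex.exp ((F z : ℂ) * Complex.I) ∂μ‖ ≤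
      C * Bd * ρ ^ d * (1 / (lam * l0)) ^ N := by
  obtain ⟨C, hC, hfar⟩ := far_l d N (c / k) M (by positivity) hM
  refine ⟨C * k ^ d, by positivity, ?_⟩
  intro W _ _ _ _ μ e he hen hek Bd lam l0 ρ A F z0 hBd hl0 hl01 hlρ hlam hA hF hAs hAb hFb hgrad
  have hρ : 0 < ρ := hl0.trans_le hlρ
  have hcomp : ∀ {Y : Type} [NormedAddCommGroup Y] [NormedSpace ℝ Y] (G : W → Y) (j : ℕ),
      ContDiff ℝ j G → ∀ z : E d, ‖iteratedFDeriv ℝ j (fun z => G (e z)) z‖ ≤
        ‖iteratedFDeriv ℝ j G (e z)‖ := by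
    intro Y _ _ G j hG z
    have h0 : (fun z => G (e z)) = G ∘ (e : E d →L[ℝ] W) := rfl
    rw [h0, ContinuousLinearMap.iteratedFDeriv_comp_right _ hG z le_rfl]
    refine (ContinuousMultilinearMap.norm_compContinuousLinearMap_le _ _).trans ?_
    rw [Finset.prod_const, Finset.card_univ, Fintype.card_fin]
    exact mul_le_of_le_one_right (norm_nonneg _) (pow_le_one₀ (norm_nonneg _) hen)
  have hlip : ∀ z z' : E d, ‖e z - e z'‖ ≤ ‖z - z'‖ := by
    intro z z'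
    rw [← map_sub]
    exact ((e : E d →L[ℝ] W).le_opNorm _).trans (mul_le_of_le_one_left (norm_nonneg _) hen)
  have hint : ∫ z : W, A z * Complex.exp ((F z : ℂ) * Complex.I) ∂μ =
      ∫ z : E d, A (e z) * Complex.exp ((F (e z) : ℂ) * Complex.I) := by
    rw [← he.integral_comp e.toHomeomorph.measurableEmbedding]
  rw [hint]
  have h1 := hfar Bd lam l0 (k * ρ) (fun z => A (e z)) (fun z => F (e z)) (e.symm z0) hBd hl0 hl01
    (hlρ.trans (le_mul_of_one_le_left hρ.le hk)) hlam (hA.comp e.contDiff) (hF.comp e.contDiff)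
    ?_ ?_ ?_ ?_
  · refine h1.trans (le_of_eq ?_)
    rw [mul_pow]
    ring
  · intro z hz
    refine hAs _ ?_
    by_contra hcon
    rw [not_lt] at hcon
    have : ‖z - e.symm z0‖ ≤ k * ‖e z - z0‖ := by
      have h2 : z - e.symm z0 = e.symm (e z - z0) := by simp
      rw [h2]
      exact ((e.symm : W →L[ℝ] E d).le_opNorm _).trans (mul_le_mul_of_nonneg_right hek
        (norm_nonneg _))
    have h3 : k * ‖e z - z0‖ ≤ k * ρ := mul_le_mul_of_nonneg_left hcon (by linarith)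
    linarith
  · intro j hj z
    exact (hcomp A j (hA.of_le (by exact_mod_cast hj)) z).trans (hAb j hj _)
  · rintro j hj1 hj2 z ⟨z', hz', hzz⟩
    exact (hcomp F j (hF.of_le (by exact_mod_cast le_top)) z).trans
      (hFb j hj1 hj2 _ ⟨e z', hz', (hlip z z').trans hzz⟩)
  · intro z hz
    have h2 : fderiv ℝ (fun z => F (e z)) z = (fderiv ℝ F (e z)).comp (e : E d →L[ℝ] W) := by
      have hd := (hF.differentiable (by simp) (e z)).hasFDerivAt
      exact (hd.comp z (e : E d →L[ℝ] W).hasFDerivAt).fderiv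
    have h3 : fderiv ℝ F (e z) = (fderiv ℝ (fun z => F (e z)) z).comp
        (e.symm : W →L[ℝ] E d) := by
      rw [h2]
      ext v
      simp
    have h4 : ‖fderiv ℝ F (e z)‖ ≤ ‖fderiv ℝ (fun z => F (e z)) z‖ * k := by
      rw [h3]
      exact (ContinuousLinearMap.opNorm_comp_le _ _).trans
        (mul_le_mul_of_nonneg_left hek (norm_nonneg _))
    have h5 := hgrad _ hz
    rw [div_mul_eq_mul_div, div_le_iff₀ (by linarith)]
    linarith

/-- Coordinates on the product of two Euclidean spaces. -/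
theorem prod_coord (n m : ℕ) : ∃ e : E (n + m) ≃L[ℝ] (E n × E m),
    MeasurePreserving e volume volume ∧ ‖(e : E (n + m) →L[ℝ] (E n × E m))‖ ≤ 1 ∧
      ‖(e.symm : (E n × E m) →L[ℝ] E (n + m))‖ ≤ 2 := by
  have hfr : Module.finrank ℝ (WithLp 2 (E n × E m)) = n + m := by
    have h := (WithLp.prodContinuousLinearEquiv 2 ℝ (E n) (E m)).toLinearEquiv.finrank_eq
    rw [h, Module.finrank_prod, finrank_euclideanSpace_fin, finrank_euclideanSpace_fin]
  set b : OrthonormalBasis (Fin (n + m)) ℝ (WithLp 2 (E n × E m)) :=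
    (stdOrthonormalBasis ℝ (WithLp 2 (E n × E m))).reindex (finCongr hfr)
  refine ⟨b.repr.symm.toContinuousLinearEquiv.trans
    (WithLp.prodContinuousLinearEquiv 2 ℝ (E n) (E m)), ?_, ?_, ?_⟩
  · have h1 := b.measurePreserving_repr_symm
    have h2 := WithLp.volume_preserving_ofLp (U := E n) (V := E m)
    exact h2.comp h1
  · refine ContinuousLinearMap.opNorm_le_bound _ zero_le_one fun v => ?_
    rw [one_mul]
    have h1 : ‖b.repr.symm v‖ = ‖v‖ := b.repr.symm.norm_map v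
    rw [← h1]
    set u := b.repr.symm v
    have h2 : ‖u‖ ^ 2 = ‖u.fst‖ ^ 2 + ‖u.snd‖ ^ 2 := WithLp.prod_norm_sq_eq_of_L2 u
    refine max_le ?_ ?_
    · change ‖u.fst‖ ≤ ‖u‖
      exact abs_le_of_sq_le_sq' (by nlinarith [sq_nonneg ‖u.snd‖]) (norm_nonneg _) |>.2
    · change ‖u.snd‖ ≤ ‖u‖
      exact abs_le_of_sq_le_sq' (by nlinarith [sq_nonneg ‖u.fst‖]) (norm_nonneg _) |>.2
  · refine ContinuousLinearMap.opNorm_le_bound _ (by norm_num) fun q => ?_
    have h1 : ‖(b.repr.symm.toContinuousLinearEquiv.trans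
        (WithLp.prodContinuousLinearEquiv 2 ℝ (E n) (E m))).symm q‖ = ‖WithLp.toLp 2 q‖ :=
      b.repr.norm_map _
    refine le_trans (le_of_eq h1) ?_
    have h2 : ‖WithLp.toLp 2 q‖ ^ 2 = ‖q.1‖ ^ 2 + ‖q.2‖ ^ 2 :=
      WithLp.prod_norm_sq_eq_of_L2 (WithLp.toLp 2 q)
    have h3 : ‖q.1‖ ≤ ‖q‖ := norm_fst_le q
    have h4 : ‖q.2‖ ≤ ‖q‖ := norm_snd_le q
    refine abs_le_of_sq_le_sq' ?_ (by positivity) |>.2
    nlinarith [norm_nonneg q.1, norm_nonneg q.2, norm_nonneg q]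

/-- ROW FAR0. Non-stationary phase in `(w, z)` for an amplitude at the scale one: if the gradient of
the phase is at least `c Λ` on the support of the amplitude and the derivatives of order at least
`2` of the phase are at most `M Λ` near the support, the integral is `O(Λ^{-N})`. -/
theorem far0 (n m N : ℕ) (c M ρ : ℝ) (hc : 0 < c) (hM : 1 ≤ M) (hρ : 1 ≤ ρ) : ∃ C : ℝ, 0 ≤ C ∧
    ∀ (Bd Λ : ℝ) (A : E n × E m → ℂ) (F : E n × E m → ℝ) (q0 : E n × E m), 0 ≤ Bd → 1 ≤ Λ →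
    ContDiff ℝ (2 * N : ℕ) A → ContDiff ℝ ∞ F → (∀ q, ρ < ‖q - q0‖ → A q = 0) →
    (∀ j ≤ 2 * N, ∀ q, ‖iteratedFDeriv ℝ j A q‖ ≤ Bd) →
    (∀ j, 2 ≤ j → j ≤ 2 * N + 2 → ∀ q, (∃ q', A q' ≠ 0 ∧ ‖q - q'‖ ≤ 2) →
      ‖iteratedFDeriv ℝ j F q‖ ≤ M * Λ) →
    (∀ q, A q ≠ 0 → c * Λ ≤ ‖fderiv ℝ F q‖) →
    ‖∫ q : E n × E m, A q * Complex.exp ((F q : ℂ) * Complex.I)‖ ≤ C * Bd * (1 / Λ) ^ N := by
  obtain ⟨C, hC, hfar⟩ := far_equiv (n + m) N c M 2 hc hM (by norm_num)
  obtain ⟨e, he, hen, hek⟩ := prod_coord n m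
  refine ⟨C * ρ ^ (n + m), by positivity, ?_⟩
  intro Bd Λ A F q0 hBd hΛ hA hF hAs hAb hFb hgrad
  have h1 := hfar (E n × E m) volume e he hen hek Bd Λ 1 ρ A F q0 hBd one_pos le_rfl hρ
    (by rwa [mul_one]) hA hF hAs (by simpa using hAb) (by simpa using hFb) hgrad
  refine h1.trans (le_of_eq ?_)
  rw [mul_one]
  ring

end Pool.Agent.LFK
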