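import Pool.Agent.LFK.SD
import Pool.Agent.LFK.FAR0
import Pool.Agent.LFK.Df0

/-!
LEAFK row FAR1: the far part of the fourfold integral, where the gradients and the second differences
are controlled by the compactness statement: integration by parts in `(w, z)`, at the scale one.
-/

set_option autoImplicit false
set_option maxSynthPendingDepth 3

namespace Pool.Agent.LFK

open MeasureTheory Set Metric Pool.Agent.MP_6cbfb8_an
open scoped Real ContDiff RealInnerProductSpace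

section SecondDifferences

variable {P F : Type*} [NormedAddCommGroup P] [NormedSpace ℝ P] [NormedAddCommGroup F]
  [NormedSpace ℝ F]

theorem sdf_contDiff {n : WithTop ℕ∞} {G : P → F} (hG : ContDiff ℝ n G) (a b d : P) :
    ContDiff ℝ n (sdf G a b d) := by
  unfold sdf
  fun_prop

/-- The derivatives of a second difference. -/
theorem sdf_iter {G : P → F} {j : ℕ} (hG : ContDiff ℝ j G) (a b d p : P) :
    iteratedFDeriv ℝ j (sdf G a b d) p = sdf (iteratedFDeriv ℝ j G) a b d p := by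
  have e0 : ∀ c x : P, iteratedFDeriv ℝ j (fun p => G (p + c)) x = iteratedFDeriv ℝ j G (x + c) := by
    intro c x
    rw [iteratedFDeriv_comp_add_right]
  have hs : ∀ c : P, ContDiff ℝ j fun p => G (p + c) := fun c => hG.comp (contDiff_id.add contDiff_const)
  have e1 : sdf G a b d = ((G + fun p => G (p + (-a - b + d))) - fun p => G (p + -a)) -
      fun p => G (p + -b) := by
    funext p
    simp only [sdf, Pi.add_apply, Pi.sub_apply]
    rw [show p - a - b + d = p + (-a - b + d) by abel, sub_eq_add_neg p a, sub_eq_add_neg p b]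
  have h1 := hG.add (hs (-a - b + d))
  have h2 := h1.sub (hs (-a))
  rw [e1, iteratedFDeriv_sub_apply (f := (G + fun p => G (p + (-a - b + d))) - fun p => G (p + -a))
      h2.contDiffAt (hs _).contDiffAt,
    iteratedFDeriv_sub_apply (f := G + fun p => G (p + (-a - b + d))) h1.contDiffAt
      (hs _).contDiffAt,
    iteratedFDeriv_add_apply hG.contDiffAt (hs _).contDiffAt, e0, e0, e0]
  unfold sdf
  rw [show p + (-a - b + d) = p - a - b + d by abel, ← sub_eq_add_neg, ← sub_eq_add_neg]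

/-- The second derivative of an iterated derivative. -/
theorem iter_fd2 {G : P → F} (j : ℕ) (p : P) :
    ‖fderiv ℝ (fderiv ℝ (iteratedFDeriv ℝ j G)) p‖ = ‖iteratedFDeriv ℝ (j + 2) G p‖ := by
  have h1 : fderiv ℝ (iteratedFDeriv ℝ j G) =
      (continuousMultilinearCurryLeftEquiv ℝ (fun _ : Fin (j + 1) => P) F) ∘
        iteratedFDeriv ℝ (j + 1) G := by
    rw [iteratedFDeriv_succ_eq_comp_left]
    funext x
    simp
  rw [h1, ← norm_iteratedFDeriv_one, LinearIsometryEquiv.norm_iteratedFDeriv_comp_left,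
    norm_iteratedFDeriv_one, norm_fderiv_iteratedFDeriv]

theorem sdf_iter_le {G : P → F} (hG : ContDiff ℝ ∞ G) {A : ℕ → ℝ}
    (hA : ∀ j p, ‖iteratedFDeriv ℝ j G p‖ ≤ A j) (a b d p : P) (j : ℕ) :
    ‖iteratedFDeriv ℝ j (sdf G a b d) p‖ ≤ A (j + 2) * (‖a‖ * ‖b‖) + A (j + 1) * ‖d‖ := by
  rw [sdf_iter (hG.of_le (by exact_mod_cast le_top))]
  have h1 : ContDiff ℝ ∞ (iteratedFDeriv ℝ j G) :=
    hG.iteratedFDeriv_right (m := ∞) (i := j) (by norm_cast)
  have h2 : ContDiff ℝ ∞ (fderiv ℝ (iteratedFDeriv ℝ j G)) := h1.fderiv_right (m := ∞) (by simp)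
  exact sdf_le (h1.differentiable (by simp)) (h2.differentiable (by simp))
    (fun p => (norm_fderiv_iteratedFDeriv).le.trans (hA _ _))
    (fun p => (iter_fd2 j p).le.trans (hA _ _)) a b d p

/-- The expansion of a second difference, in terms of the iterated derivatives. -/
theorem sdf_exp_iter {G : P → F} (hG : ContDiff ℝ ∞ G) {K : ℝ}
    (h2 : ∀ p, ‖iteratedFDeriv ℝ 2 G p‖ ≤ K) (h3 : ∀ p, ‖iteratedFDeriv ℝ 3 G p‖ ≤ K)
    (a b d p : P) :
    ‖sdf G a b d p - (fderiv ℝ (fderiv ℝ G) p b a + fderiv ℝ G p d)‖ ≤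
      K * ((‖a‖ + ‖b‖ + ‖d‖) * (‖a‖ * ‖b‖ + ‖d‖)) := by
  have hK : 0 ≤ K := (norm_nonneg _).trans (h2 p)
  have hG1 : ContDiff ℝ ∞ (fderiv ℝ G) := hG.fderiv_right (m := ∞) (by simp)
  have hG2 : ContDiff ℝ ∞ (fderiv ℝ (fderiv ℝ G)) := hG1.fderiv_right (m := ∞) (by simp)
  have k2 : ∀ p, ‖fderiv ℝ (fderiv ℝ G) p‖ ≤ K := by
    intro p
    rw [← norm_iteratedFDeriv_one, norm_iteratedFDeriv_fderiv]
    exact h2 p
  have k3 : ∀ p q, ‖fderiv ℝ (fderiv ℝ G) p - fderiv ℝ (fderiv ℝ G) q‖ ≤ K * ‖p - q‖ := by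
    intro p q
    refine sd_lip (hG2.differentiable (by simp)) (fun x => ?_) p q
    rw [← norm_iteratedFDeriv_one, norm_iteratedFDeriv_fderiv, norm_iteratedFDeriv_fderiv]
    exact h3 x
  refine (sdf_exp (hG.differentiable (by simp)) (hG1.differentiable (by simp)) hK k2 k3
    a b d p).trans ?_
  have na := norm_nonneg a
  have nb := norm_nonneg b
  have nd := norm_nonneg d
  have e1 : ‖a‖ * ‖b‖ * (‖a‖ + ‖b‖) ≤ ‖a‖ * ‖b‖ * (‖a‖ + ‖b‖ + ‖d‖) :=
    mul_le_mul_of_nonneg_left (by linarith) (by positivity)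
  calc K * (‖a‖ * ‖b‖ * (‖a‖ + ‖b‖)) + K * ((‖a‖ + ‖b‖ + ‖d‖) * ‖d‖) ≤
      K * (‖a‖ * ‖b‖ * (‖a‖ + ‖b‖ + ‖d‖)) + K * ((‖a‖ + ‖b‖ + ‖d‖) * ‖d‖) :=
        add_le_add_left (mul_le_mul_of_nonneg_left e1 hK) _
    _ = _ := by ring

end SecondDifferences

section Gradients

variable {k m n : ℕ}

/-- The gradient in `z` of `w · X` as a linear function of the derivative of `X`. -/
noncomputable def Lw (w : E n) : (E k × E m →L[ℝ] E n) →L[ℝ] E m :=
  LinearMap.mkContinuous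
    { toFun := fun T => ContinuousLinearMap.adjoint
        (T.comp (ContinuousLinearMap.inr ℝ (E k) (E m))) w
      map_add' := fun T T' => by
        rw [ContinuousLinearMap.add_comp, map_add, add_apply]
      map_smul' := fun c T => by
        rw [ContinuousLinearMap.smul_comp, map_smulₛₗ]
        simp } ‖w‖ (fun T => by
    simp only [LinearMap.coe_mk, AddHom.coe_mk]
    refine (ContinuousLinearMap.le_opNorm _ _).trans ?_
    rw [mul_comm]
    refine mul_le_mul_of_nonneg_left ?_ (norm_nonneg _)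
    rw [LinearIsometryEquiv.norm_map]
    refine (ContinuousLinearMap.opNorm_comp_le _ _).trans ?_
    exact mul_le_of_le_one_right (norm_nonneg _)
      (ContinuousLinearMap.norm_inr_le_one ℝ (E k) (E m)))

theorem Lw_apply (w : E n) (T : E k × E m →L[ℝ] E n) :
    Lw w T = ContinuousLinearMap.adjoint (T.comp (ContinuousLinearMap.inr ℝ (E k) (E m))) w := rfl

theorem norm_Lw_le (w : E n) : ‖(Lw w : (E k × E m →L[ℝ] E n) →L[ℝ] E m)‖ ≤ ‖w‖ :=
  LinearMap.mkContinuous_norm_le _ (norm_nonneg _) _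

theorem Vw_eq (X : E k × E m → E n) (w : E n) : Vw X w = fun p => Lw w (fderiv ℝ X p) := rfl

theorem Vw_contDiff {X : E k × E m → E n} (hX : ContDiff ℝ ∞ X) (w : E n) :
    ContDiff ℝ ∞ (Vw X w) := by
  rw [Vw_eq]
  exact (Lw w).contDiff.comp (hX.fderiv_right (m := ∞) (by simp))

theorem Vw_iter_le {X : E k × E m → E n} (hX : ContDiff ℝ ∞ X) {A : ℕ → ℝ}
    (hA : ∀ j p, ‖iteratedFDeriv ℝ j X p‖ ≤ A j) (w : E n) (j : ℕ) (p : E k × E m) :
    ‖iteratedFDeriv ℝ j (Vw X w) p‖ ≤ ‖w‖ * A (j + 1) := by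
  have h1 : ContDiff ℝ ∞ (fderiv ℝ X) := hX.fderiv_right (m := ∞) (by simp)
  have h2 := (Lw w : (E k × E m →L[ℝ] E n) →L[ℝ] E m).norm_iteratedFDeriv_comp_left
    (f := fderiv ℝ X) (x := p) (N := ∞) (n := j) h1.contDiffAt (by exact_mod_cast le_top)
  rw [Vw_eq]
  refine h2.trans ?_
  rw [norm_iteratedFDeriv_fderiv]
  exact mul_le_mul (norm_Lw_le w) (hA _ _) (norm_nonneg _) (norm_nonneg _)

/-- The gradient in `z` of the product of `w` with the second difference. -/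
theorem Lw_sdf {X : E k × E m → E n} (hX : ContDiff ℝ ∞ X) (w : E n) (a b d p : E k × E m) :
    Lw w (fderiv ℝ (sdf X a b d) p) = sdf (Vw X w) a b d p := by
  have hd := hX.differentiable (by simp)
  have hs : ∀ c : E k × E m, HasFDerivAt (fun p => X (p + c)) (fderiv ℝ X (p + c)) p := by
    intro c
    have h1 := (hd (p + c)).hasFDerivAt.comp p ((hasFDerivAt_id p).add_const c)
    simpa [Function.comp_def] using h1
  have e1 : sdf X a b d = fun p => X p + X (p + (-a - b + d)) - X (p + -a) - X (p + -b) := by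
    funext p
    unfold sdf
    rw [show p - a - b + d = p + (-a - b + d) by abel, sub_eq_add_neg p a, sub_eq_add_neg p b]
  have h2 : HasFDerivAt (sdf X a b d) (fderiv ℝ X p + fderiv ℝ X (p + (-a - b + d)) -
      fderiv ℝ X (p + -a) - fderiv ℝ X (p + -b)) p := by
    rw [e1]
    exact (((hd p).hasFDerivAt.add (hs _)).sub (hs _)).sub (hs _)
  rw [h2.fderiv, map_sub, map_sub, map_add, Vw_eq]
  unfold sdf
  rw [show p - a - b + d = p + (-a - b + d) by abel, sub_eq_add_neg p a, sub_eq_add_neg p b]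

/-- The derivatives along a slice. -/
theorem slice_iter_le {F : Type*} [NormedAddCommGroup F] [NormedSpace ℝ F] {G : E k × E m → F}
    (hG : ContDiff ℝ ∞ G) (j : ℕ) (t : E k) (z : E m) :
    ‖iteratedFDeriv ℝ j (fun z => G (t, z)) z‖ ≤ ‖iteratedFDeriv ℝ j G (t, z)‖ := by
  have h1 : (fun z => G (t, z)) = (fun p => G (p + (t, 0))) ∘
      (ContinuousLinearMap.inr ℝ (E k) (E m)) := by
    funext z
    simp
  have h2 : ContDiff ℝ ∞ fun p : E k × E m => G (p + (t, 0)) :=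
    hG.comp (contDiff_id.add contDiff_const)
  rw [h1, ContinuousLinearMap.iteratedFDeriv_comp_right _ h2 z (i := j) (by exact_mod_cast le_top)]
  refine (ContinuousMultilinearMap.norm_compContinuousLinearMap_le _ _).trans ?_
  rw [Finset.prod_const, Finset.card_univ, Fintype.card_fin]
  refine (mul_le_of_le_one_right (norm_nonneg _) (pow_le_one₀ (norm_nonneg _)
    (ContinuousLinearMap.norm_inr_le_one ℝ (E k) (E m)))).trans ?_
  rw [iteratedFDeriv_comp_add_right]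
  simp

/-- The phase `R ⟨w, G z⟩`: the derivatives. -/
theorem phase_iter_le {G : E m → E n} (hG : ContDiff ℝ ∞ G) (R K : ℝ) (j : ℕ)
    (hK : ∀ i ≤ j, ∀ z, ‖iteratedFDeriv ℝ i G z‖ ≤ K) (q : E n × E m) (hq : ‖q.1‖ ≤ 10) :
    ‖iteratedFDeriv ℝ j (fun q : E n × E m => R * ⟪q.1, G q.2⟫) q‖ ≤ |R| * (10 * 2 ^ j * K) := by
  have hK0 : 0 ≤ K := (norm_nonneg _).trans (hK 0 (Nat.zero_le _) 0)
  have hf : ContDiff ℝ ∞ fun q : E n × E m => q.1 := contDiff_fst
  have hg : ContDiff ℝ ∞ fun q : E n × E m => G q.2 := hG.comp contDiff_snd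
  have h1 := ContinuousLinearMap.norm_iteratedFDeriv_le_of_bilinear_of_le_one (innerSL ℝ (E := E n))
    hf hg q (n := j) (by exact_mod_cast le_top) (norm_innerSL_le ℝ)
  have hin : ContDiff ℝ ∞ fun q : E n × E m => ⟪q.1, G q.2⟫ := hf.inner ℝ hg
  have h2 : iteratedFDeriv ℝ j (fun q : E n × E m => R * ⟪q.1, G q.2⟫) q =
      R • iteratedFDeriv ℝ j (fun q : E n × E m => ⟪q.1, G q.2⟫) q := by
    have := iteratedFDeriv_const_smul_apply (𝕜 := ℝ) (i := j) (a := R) (x := q)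
      (f := fun q : E n × E m => ⟪q.1, G q.2⟫) (hin.of_le (by exact_mod_cast le_top)).contDiffAt
    exact this
  rw [h2, norm_smul, Real.norm_eq_abs]
  refine mul_le_mul_of_nonneg_left ?_ (abs_nonneg _)
  refine h1.trans ?_
  have hb1 : ∀ i, ‖iteratedFDeriv ℝ i (fun q : E n × E m => q.1) q‖ ≤ 10 := by
    intro i
    rcases i with _ | i
    · rw [norm_iteratedFDeriv_zero]
      exact hq
    · rw [← norm_iteratedFDeriv_fderiv]
      have e1 : fderiv ℝ (fun q : E n × E m => q.1) = fun _ => ContinuousLinearMap.fst ℝ (E n) (E m) := by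
        funext x
        exact (ContinuousLinearMap.fst ℝ (E n) (E m)).fderiv
      rw [e1]
      rcases i with _ | i
      · rw [norm_iteratedFDeriv_zero]
        exact (ContinuousLinearMap.norm_fst_le ℝ (E n) (E m)).trans (by norm_num)
      · rw [iteratedFDeriv_const_of_ne (Nat.succ_ne_zero i)]
        simp
  have hb2 : ∀ i ≤ j, ‖iteratedFDeriv ℝ i (fun q : E n × E m => G q.2) q‖ ≤ K := by
    intro i hi
    have e1 : (fun q : E n × E m => G q.2) = G ∘ (ContinuousLinearMap.snd ℝ (E n) (E m)) := rfl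
    rw [e1, ContinuousLinearMap.iteratedFDeriv_comp_right _ hG q (i := i) (by exact_mod_cast le_top)]
    refine (ContinuousMultilinearMap.norm_compContinuousLinearMap_le _ _).trans ?_
    rw [Finset.prod_const, Finset.card_univ, Fintype.card_fin]
    exact (mul_le_of_le_one_right (norm_nonneg _) (pow_le_one₀ (norm_nonneg _)
      (ContinuousLinearMap.norm_snd_le ℝ (E n) (E m)))).trans (hK i hi _)
  calc ∑ i ∈ Finset.range (j + 1), (j.choose i : ℝ) *
        ‖iteratedFDeriv ℝ i (fun q : E n × E m => q.1) q‖ *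
          ‖iteratedFDeriv ℝ (j - i) (fun q : E n × E m => G q.2) q‖ ≤
      ∑ i ∈ Finset.range (j + 1), (j.choose i : ℝ) * 10 * K := by
        refine Finset.sum_le_sum fun i _ => ?_
        gcongr
        · exact hb1 i
        · exact hb2 _ (Nat.sub_le j i)
    _ = 10 * 2 ^ j * K := by
        rw [← Finset.sum_mul, ← Finset.sum_mul, ← Nat.cast_sum, Nat.sum_range_choose]
        push_cast
        ring

/-- The phase `R ⟨w, G z⟩`: the gradient. -/
theorem phase_grad {G : E m → E n} (hG : Differentiable ℝ G) (R : ℝ) (q : E n × E m) :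
    |R| * (‖G q.2‖ + ‖ContinuousLinearMap.adjoint (fderiv ℝ G q.2) q.1‖) ≤
      2 * ‖fderiv ℝ (fun q : E n × E m => R * ⟪q.1, G q.2⟫) q‖ := by
  have hd : HasFDerivAt (fun q : E n × E m => ⟪q.1, G q.2⟫)
      ((fderivInnerCLM ℝ (q.1, G q.2)).comp ((ContinuousLinearMap.fst ℝ (E n) (E m)).prod
        ((fderiv ℝ G q.2).comp (ContinuousLinearMap.snd ℝ (E n) (E m))))) q :=
    HasFDerivAt.inner ℝ hasFDerivAt_fst ((hG q.2).hasFDerivAt.comp q hasFDerivAt_snd)
  have hd2 := hd.const_mul R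
  have hap : ∀ (v : E n) (u : E m), fderiv ℝ (fun q : E n × E m => R * ⟪q.1, G q.2⟫) q (v, u) =
      R * (⟪q.1, fderiv ℝ G q.2 u⟫ + ⟪v, G q.2⟫) := by
    intro v u
    rw [hd2.fderiv]
    simp [fderivInnerCLM_apply]
  set D := fderiv ℝ (fun q : E n × E m => R * ⟪q.1, G q.2⟫) q with hD
  have key : ∀ x : ℝ, 0 ≤ x → ∀ r : ℝ, r * x ^ 2 ≤ ‖D‖ * x → r * x ≤ ‖D‖ := by
    intro x hx r h
    rcases hx.eq_or_lt with h0 | h0
    · rw [← h0, mul_zero]
      exact norm_nonneg _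
    · refine le_of_mul_le_mul_right ?_ h0
      calc r * x * x = r * x ^ 2 := by ring
        _ ≤ _ := h
  have h1 : |R| * ‖G q.2‖ ≤ ‖D‖ := by
    refine key _ (norm_nonneg _) _ ?_
    have h2 := D.le_opNorm (G q.2, 0)
    rw [hap, map_zero, inner_zero_right, zero_add, real_inner_self_eq_norm_sq, norm_mul,
      Real.norm_eq_abs, norm_pow, norm_norm] at h2
    refine h2.trans (mul_le_mul_of_nonneg_left ?_ (norm_nonneg _))
    rw [Prod.norm_mk, norm_zero]
    exact max_le le_rfl (norm_nonneg _)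
  have h3 : |R| * ‖ContinuousLinearMap.adjoint (fderiv ℝ G q.2) q.1‖ ≤ ‖D‖ := by
    refine key _ (norm_nonneg _) _ ?_
    set h := ContinuousLinearMap.adjoint (fderiv ℝ G q.2) q.1 with hh
    have h2 := D.le_opNorm (0, h)
    rw [hap, inner_zero_left, add_zero, ← ContinuousLinearMap.adjoint_inner_left, ← hh,
      real_inner_self_eq_norm_sq, norm_mul, Real.norm_eq_abs, norm_pow, norm_norm] at h2
    refine h2.trans (mul_le_mul_of_nonneg_left ?_ (norm_nonneg _))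
    rw [Prod.norm_mk, norm_zero]
    exact max_le (norm_nonneg _) le_rfl
  linarith

end Gradients

/-- ROW FAR1. The part of the far integral where the gradient in `z` and the differences are
controlled by the compactness statement: integration by parts in `(w, z)` at the scale one. -/
theorem far1 {k m n : ℕ} {X : E k × E m → E n} (hX : ContDiff ℝ ∞ X) {A : ℕ → ℝ}
    (hA : ∀ j p, ‖iteratedFDeriv ℝ j X p‖ ≤ A j) {p0 : E k × E m} {κ : ℝ} (hκ : 0 < κ)
    (hκ1 : κ ≤ 1)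
    (hH : ∀ p w, ‖p - p0‖ ≤ κ → 1 / 4 ≤ ‖w‖ → ‖w‖ ≤ 8 → ‖Vw X w p‖ ≤ κ →
      ∀ u v, ‖fderiv ℝ (Vw X w) p u‖ ≤ κ * ‖u‖ → ‖fderiv ℝ (Vw X w) p v‖ ≤ κ * ‖v‖ → ∀ d,
        κ * (‖u‖ * ‖v‖ + ‖d‖) ≤ ‖fderiv ℝ X p d + fderiv ℝ (fderiv ℝ X) p u v‖ +
          ‖fderiv ℝ (Vw X w) p d + fderiv ℝ (fderiv ℝ (Vw X w)) p u v‖) :
    ∃ δ : ℝ, 0 < δ ∧ ∀ N : ℕ, ∃ C : ℝ, 0 ≤ C ∧ ∀ (Bd R : ℝ) (t : E k) (a b d : E k × E m)
      (Am : E n × E m → ℂ), 0 ≤ Bd → ‖a‖ + ‖b‖ + ‖d‖ ≤ δ → 1 ≤ |R| * (‖a‖ * ‖b‖ + ‖d‖) →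
      ContDiff ℝ (2 * N : ℕ) Am → (∀ j ≤ 2 * N, ∀ q, ‖iteratedFDeriv ℝ j Am q‖ ≤ Bd) →
      (∀ q, Am q ≠ 0 → ‖(t, q.2) - p0‖ ≤ κ ∧ 1 / 4 ≤ ‖q.1‖ ∧ ‖q.1‖ ≤ 8 ∧
        ‖Vw X q.1 (t, q.2)‖ ≤ κ ∧ ‖fderiv ℝ (Vw X q.1) (t, q.2) a‖ ≤ κ * ‖a‖ ∧
        ‖fderiv ℝ (Vw X q.1) (t, q.2) b‖ ≤ κ * ‖b‖) →
      ‖∫ q : E n × E m, Am q *
          Complex.exp (((R * ⟪q.1, sdf X a b d (t, q.2)⟫ : ℝ) : ℂ) * Complex.I)‖ ≤
        C * Bd * (1 / (|R| * (‖a‖ * ‖b‖ + ‖d‖))) ^ N := by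
  set KX : ℝ := |A 2| + |A 3| with hKX
  set KV : ℝ := 8 * (|A 3| + |A 4|) with hKV
  have hKX0 : 0 ≤ KX := by positivity
  have hKV0 : 0 ≤ KV := by positivity
  refine ⟨κ / (2 * (KX + KV + 1)), by positivity, fun N => ?_⟩
  set A' : ℝ := ∑ i ∈ Finset.range (2 * N + 5), |A i| with hA'
  have hA'0 : 0 ≤ A' := Finset.sum_nonneg fun i _ => abs_nonneg _
  have hAA : ∀ i ≤ 2 * N + 4, A i ≤ A' := fun i hi => (le_abs_self _).trans
    (Finset.single_le_sum (f := fun i => |A i|) (fun i _ => abs_nonneg _)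
      (Finset.mem_range.2 (by omega)))
  set M : ℝ := max 1 (10 * 2 ^ (2 * N + 2) * A') with hM
  obtain ⟨C, hC, hfar⟩ := far0 n m N (κ / 4) M 8 (by positivity) (le_max_left _ _) (by norm_num)
  refine ⟨C, hC, ?_⟩
  intro Bd R t a b d Am hBd hδ hΛ hAm hAmb hsupp
  have na := norm_nonneg a
  have nb := norm_nonneg b
  have nd := norm_nonneg d
  set σ : ℝ := ‖a‖ * ‖b‖ + ‖d‖ with hσ
  have hσ0 : 0 ≤ σ := by positivity
  have hG : ContDiff ℝ ∞ fun z : E m => sdf X a b d (t, z) :=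
    (sdf_contDiff hX a b d).comp (contDiff_const.prodMk contDiff_id)
  have hiter : ∀ i ≤ 2 * N + 2, ∀ z : E m,
      ‖iteratedFDeriv ℝ i (fun z : E m => sdf X a b d (t, z)) z‖ ≤ A' * σ := by
    intro i hi z
    refine (slice_iter_le (sdf_contDiff hX a b d) i t z).trans
      ((sdf_iter_le hX hA a b d _ i).trans ?_)
    rw [hσ, mul_add]
    exact add_le_add (mul_le_mul_of_nonneg_right (hAA _ (by omega)) (by positivity))
      (mul_le_mul_of_nonneg_right (hAA _ (by omega)) nd)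
  have hF : ContDiff ℝ ∞ fun q : E n × E m => R * ⟪q.1, sdf X a b d (t, q.2)⟫ :=
    contDiff_const.mul (contDiff_fst.inner ℝ (hG.comp contDiff_snd))
  refine hfar Bd (|R| * σ) Am (fun q => R * ⟪q.1, sdf X a b d (t, q.2)⟫) (0, p0.2) hBd hΛ hAm hF
    ?_ hAmb ?_ ?_
  · intro q hq
    by_contra hne
    obtain ⟨h1, -, h3, -⟩ := hsupp q hne
    have h4 : ‖q.2 - p0.2‖ ≤ 1 := by
      refine le_trans ?_ (h1.trans hκ1)
      exact norm_snd_le ((t, q.2) - p0)
    have h5 : ‖q - (0, p0.2)‖ ≤ 8 := by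
      have e1 : q - ((0 : E n), p0.2) = (q.1, q.2 - p0.2) := by
        ext1
        · simp
        · rfl
      rw [e1, Prod.norm_mk]
      exact max_le h3 (by linarith)
    linarith
  · rintro j hj1 hj2 q ⟨q', hq', hqq⟩
    obtain ⟨-, -, h3, -⟩ := hsupp q' hq'
    have h4 : ‖q.1‖ ≤ 10 := by
      have h5 : ‖q.1 - q'.1‖ ≤ 2 := (norm_fst_le (q - q')).trans hqq
      calc ‖q.1‖ = ‖(q.1 - q'.1) + q'.1‖ := by rw [sub_add_cancel]
        _ ≤ ‖q.1 - q'.1‖ + ‖q'.1‖ := norm_add_le _ _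
        _ ≤ 10 := by linarith
    refine (phase_iter_le hG R (A' * σ) j (fun i hi z => hiter i (hi.trans hj2) z) q h4).trans ?_
    have h6 : (10 : ℝ) * 2 ^ j * A' ≤ M := by
      refine le_trans ?_ (le_max_right _ _)
      gcongr
      · norm_num
    calc |R| * (10 * 2 ^ j * (A' * σ)) = (10 * 2 ^ j * A') * (|R| * σ) := by ring
      _ ≤ M * (|R| * σ) := mul_le_mul_of_nonneg_right h6 (by positivity)
  · intro q hq
    obtain ⟨h1, h2, h3, h4, h5, h6⟩ := hsupp q hq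
    have hgrad := phase_grad (hG.differentiable (by simp)) R q
    -- the gradient in `z`
    have e1 : ContinuousLinearMap.adjoint (fderiv ℝ (fun z : E m => sdf X a b d (t, z)) q.2) q.1 =
        sdf (Vw X q.1) a b d (t, q.2) := by
      rw [← Lw_sdf hX]
      have e2 : fderiv ℝ (fun z : E m => sdf X a b d (t, z)) q.2 =
          (fderiv ℝ (sdf X a b d) (t, q.2)).comp (ContinuousLinearMap.inr ℝ (E k) (E m)) := by
        have h7 : HasFDerivAt (fun z : E m => (t, z)) (ContinuousLinearMap.inr ℝ (E k) (E m)) q.2 :=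
          hasFDerivAt_prodMk_right t q.2
        exact ((((sdf_contDiff hX a b d).differentiable (by simp) (t, q.2)).hasFDerivAt).comp q.2
          h7).fderiv
      rw [e2, Lw_apply]
    rw [e1] at hgrad
    -- the expansions
    have hx := sdf_exp_iter hX (K := KX)
      (fun p => (hA 2 p).trans ((le_abs_self _).trans (le_add_of_nonneg_right (abs_nonneg _))))
      (fun p => (hA 3 p).trans ((le_abs_self _).trans (le_add_of_nonneg_left (abs_nonneg _))))
      a b d (t, q.2)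
    have hb8 : ∀ i p, ‖iteratedFDeriv ℝ i (Vw X q.1) p‖ ≤ 8 * |A (i + 1)| := by
      intro i p
      refine (Vw_iter_le hX hA q.1 i p).trans ?_
      exact mul_le_mul h3 (le_abs_self _) ((norm_nonneg _).trans (hA _ p)) (by norm_num)
    have hv := sdf_exp_iter (Vw_contDiff hX q.1) (K := KV)
      (fun p => (hb8 2 p).trans (by rw [hKV]; nlinarith [abs_nonneg (A 4)]))
      (fun p => (hb8 3 p).trans (by rw [hKV]; nlinarith [abs_nonneg (A 3)]))
      a b d (t, q.2)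
    have hlow := hH (t, q.2) q.1 h1 h2 h3 h4 b a h6 h5 d
    have e3 : ‖b‖ * ‖a‖ + ‖d‖ = σ := by rw [hσ, mul_comm]
    rw [e3] at hlow
    have t1 : ‖fderiv ℝ X (t, q.2) d + fderiv ℝ (fderiv ℝ X) (t, q.2) b a‖ ≤
        ‖sdf X a b d (t, q.2)‖ + KX * ((‖a‖ + ‖b‖ + ‖d‖) * σ) := by
      have h7 := norm_sub_norm_le (fderiv ℝ (fderiv ℝ X) (t, q.2) b a + fderiv ℝ X (t, q.2) d)
        (sdf X a b d (t, q.2))
      rw [norm_sub_rev] at h7
      rw [add_comm (fderiv ℝ X (t, q.2) d)]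
      linarith
    have t2 : ‖fderiv ℝ (Vw X q.1) (t, q.2) d + fderiv ℝ (fderiv ℝ (Vw X q.1)) (t, q.2) b a‖ ≤
        ‖sdf (Vw X q.1) a b d (t, q.2)‖ + KV * ((‖a‖ + ‖b‖ + ‖d‖) * σ) := by
      have h7 := norm_sub_norm_le (fderiv ℝ (fderiv ℝ (Vw X q.1)) (t, q.2) b a +
        fderiv ℝ (Vw X q.1) (t, q.2) d) (sdf (Vw X q.1) a b d (t, q.2))
      rw [norm_sub_rev] at h7
      rw [add_comm (fderiv ℝ (Vw X q.1) (t, q.2) d)]
      linarith
    have h8 : (KX + KV) * ((‖a‖ + ‖b‖ + ‖d‖) * σ) ≤ κ / 2 * σ := by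
      have h9 : (KX + KV) * (‖a‖ + ‖b‖ + ‖d‖) ≤ κ / 2 := by
        calc (KX + KV) * (‖a‖ + ‖b‖ + ‖d‖) ≤ (KX + KV + 1) * (κ / (2 * (KX + KV + 1))) :=
              mul_le_mul (by linarith) hδ (by positivity) (by positivity)
          _ = κ / 2 := by field_simp
      calc (KX + KV) * ((‖a‖ + ‖b‖ + ‖d‖) * σ) = (KX + KV) * (‖a‖ + ‖b‖ + ‖d‖) * σ := by ring
        _ ≤ κ / 2 * σ := mul_le_mul_of_nonneg_right h9 hσ0
    have h10 : κ / 2 * σ ≤ ‖sdf X a b d (t, q.2)‖ + ‖sdf (Vw X q.1) a b d (t, q.2)‖ := by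
      nlinarith
    have h11 := mul_le_mul_of_nonneg_left h10 (abs_nonneg R)
    have h12 := h11.trans hgrad
    have e4 : κ / 4 * (|R| * σ) = |R| * (κ / 2 * σ) / 2 := by ring
    rw [e4]
    linarith

/-- The second difference along the chart, in the parameters. -/
theorem sdf_chart {k m : ℕ} {F : Type*} [NormedAddCommGroup F] [NormedSpace ℝ F]
    (X : E k × E m → F) (t1 t2 t3 t4 : E k) (y2 y3 y4 z : E m) :
    X (t1, z) + X (t2, z + y2) - X (t3, z + y3) - X (t4, z + y4) =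
      sdf X (t1 - t3, -y3) (t1 - t4, -y4) (t1 + t2 - t3 - t4, y2 - y3 - y4) (t1, z) := by
  unfold sdf
  have e1 : ((t1, z) : E k × E m) - (t1 - t3, -y3) - (t1 - t4, -y4) +
      (t1 + t2 - t3 - t4, y2 - y3 - y4) = (t2, z + y2) := by
    ext1
    · simp only [Prod.fst_sub, Prod.fst_add]
      abel
    · simp only [Prod.snd_sub, Prod.snd_add]
      abel
  have e2 : ((t1, z) : E k × E m) - (t1 - t3, -y3) = (t3, z + y3) := by
    ext1
    · simp
    · simp
  have e3 : ((t1, z) : E k × E m) - (t1 - t4, -y4) = (t4, z + y4) := by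
    ext1
    · simp
    · simp
  rw [e1, e2, e3]

end Pool.Agent.LFK
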