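import Pool.Agent.LFK.FARdf
import Pool.Agent.LFK.FAR1

/-!
LEAFK, the far part, row F1: three nearly critical points far from each other.
-/

set_option autoImplicit false

namespace Pool.Agent.LFK.FR

open MeasureTheory Set Filter Topology Pool.Agent.MP_6cbfb8_an Metric
open scoped ENNReal Real RealInnerProductSpace ContDiff ComplexConjugate

variable {k m n : ℕ}

theorem f1_taylor {P F : Type*} [NormedAddCommGroup P] [NormedSpace ℝ P] [NormedAddCommGroup F]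
    [NormedSpace ℝ F] {V : P → F} (hV : ContDiff ℝ 2 V) {A : ℝ}
    (hA : ∀ p, ‖fderiv ℝ (fderiv ℝ V) p‖ ≤ A) (p q : P) :
    ‖V q - V p - fderiv ℝ V p (q - p)‖ ≤ A * ‖q - p‖ ^ 2 := by
  have h1 : ∀ x ∈ closedBall p ‖q - p‖, ‖fderiv ℝ V x - fderiv ℝ V p‖ ≤ A * ‖q - p‖ := by
    intro x hx
    have h2 := Convex.norm_image_sub_le_of_norm_fderiv_le (𝕜 := ℝ) (f := fderiv ℝ V) (s := univ)
      (x := p) (y := x) (C := A)
      (fun y _ => (hV.fderiv_right (m := 1) (by norm_num)).differentiable (by simp) y)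
      (fun y _ => hA y) convex_univ (mem_univ _) (mem_univ _)
    have h3 : ‖x - p‖ ≤ ‖q - p‖ := by simpa [dist_eq_norm] using hx
    exact h2.trans (mul_le_mul_of_nonneg_left h3
      ((norm_nonneg (fderiv ℝ (fderiv ℝ V) p)).trans (hA p)))
  have h4 := Convex.norm_image_sub_le_of_norm_fderiv_le' (𝕜 := ℝ) (f := V) (φ := fderiv ℝ V p)
    (s := closedBall p ‖q - p‖) (x := p) (y := q) (C := A * ‖q - p‖)
    (fun y _ => hV.differentiable (by norm_num) y) h1 (convex_closedBall _ _)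
    (mem_closedBall_self (norm_nonneg _)) (by simp [dist_eq_norm])
  nlinarith [h4]

theorem f1_third {k m n : ℕ} {X : E k × E m → E n} (hX : ContDiff ℝ ∞ X) {A : ℕ → ℝ}
    (hA : ∀ j p, ‖iteratedFDeriv ℝ j X p‖ ≤ A j) (w : E n) (p : E k × E m) :
    ‖fderiv ℝ (fderiv ℝ (Vw X w)) p‖ ≤ A 3 * ‖w‖ := by
  have h := Vw_iter_le hX hA w 2 p
  rw [← norm_iteratedFDeriv_fderiv, norm_iteratedFDeriv_one] at h
  rw [mul_comm]
  exact h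


theorem f1_norm_le {k m : ℕ} (x : E k × E m) : ‖x‖ ≤ √(1 + ‖x.1‖ ^ 2 + ‖x.2‖ ^ 2) := by
  refine Real.le_sqrt_of_sq_le ?_
  rw [Prod.norm_def]
  rcases le_total ‖x.1‖ ‖x.2‖ with h | h
  · rw [max_eq_right h]; nlinarith [sq_nonneg ‖x.1‖]
  · rw [max_eq_left h]; nlinarith [sq_nonneg ‖x.2‖]

theorem f1_dir {k m n : ℕ} {X : E k × E m → E n} (hX : ContDiff ℝ ∞ X) {A : ℕ → ℝ}
    (hA : ∀ j p, ‖iteratedFDeriv ℝ j X p‖ ≤ A j) {w : E n} {p q : E k × E m} {r μ ρ : ℝ} (hr : 0 < r)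
    (hpq : r ≤ ‖p - q‖) (h1 : ‖Vw X w p‖ ≤ μ * r) (h2 : ‖Vw X w q‖ ≤ μ * r) (hμ : 0 ≤ μ)
    (hρ : ‖p - q‖ ≤ ρ) :
    ‖fderiv ℝ (Vw X w) p (Ub (r⁻¹ • (p - q)))‖ ≤ 2 * μ + A 3 * ‖w‖ * ρ := by
  have hA0 : 0 ≤ A 3 := (norm_nonneg _).trans (hA 3 p)
  have h3 := f1_taylor (V := Vw X w) (contDiff_infty.1 (Vw_contDiff hX w) 2)
    (f1_third hX hA w) p q
  rw [norm_sub_rev q p] at h3
  set a := p - q with ha
  have h4 : q - p = -a := by rw [ha]; abel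
  rw [h4, map_neg] at h3
  have h5 : ‖fderiv ℝ (Vw X w) p a‖ ≤ 2 * μ * r + A 3 * ‖w‖ * ‖a‖ ^ 2 := by
    have h6 : fderiv ℝ (Vw X w) p a = (Vw X w q - Vw X w p - -fderiv ℝ (Vw X w) p a) -
      Vw X w q + Vw X w p := by abel
    rw [h6]
    refine (norm_add_le _ _).trans ?_
    have := (norm_sub_le (Vw X w q - Vw X w p - -fderiv ℝ (Vw X w) p a) (Vw X w q))
    linarith
  have ha0 : 0 < ‖a‖ := hr.trans_le hpq
  have h7 : Ub (r⁻¹ • a) = ((√(1 + ‖(r⁻¹ • a).1‖ ^ 2 + ‖(r⁻¹ • a).2‖ ^ 2))⁻¹ * r⁻¹) • a := by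
    rw [Ub, smul_smul]
  rw [h7, map_smul, norm_smul]
  set S := √(1 + ‖(r⁻¹ • a).1‖ ^ 2 + ‖(r⁻¹ • a).2‖ ^ 2) with hS
  have h8 : r⁻¹ * ‖a‖ ≤ S := by
    have := f1_norm_le (r⁻¹ • a)
    rwa [norm_smul, norm_inv, Real.norm_of_nonneg hr.le] at this
  have hS0 : 0 < S := lt_of_lt_of_le (by positivity) h8
  have h9 : ‖S⁻¹ * r⁻¹‖ ≤ ‖a‖⁻¹ := by
    rw [Real.norm_of_nonneg (by positivity), ← mul_inv]
    refine inv_anti₀ ha0 ?_
    calc ‖a‖ = r * (r⁻¹ * ‖a‖) := by field_simp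
      _ ≤ r * S := by gcongr
      _ = S * r := mul_comm _ _
  calc ‖S⁻¹ * r⁻¹‖ * ‖fderiv ℝ (Vw X w) p a‖
      ≤ ‖a‖⁻¹ * (2 * μ * r + A 3 * ‖w‖ * ‖a‖ ^ 2) := by gcongr
    _ = 2 * μ * (r / ‖a‖) + A 3 * ‖w‖ * ‖a‖ := by field_simp
    _ ≤ 2 * μ * 1 + A 3 * ‖w‖ * ρ := by
        gcongr
        exact (div_le_one ha0).2 hpq
    _ = _ := by ring

/-- Three nearly critical points far from each other are in the set where `AA = 1`. -/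
theorem geo0 {X : E k × E m → E n} {A : ℕ → ℝ} {p0 : E k × E m} {κ : ℝ} (h : Ch X A p0 κ)
    {th : E m → ℝ} (hth : Th th) (κ' : ℝ) (hκ' : 0 < κ') :
    ∃ δ1 c0 : ℝ, 0 < δ1 ∧ 0 < c0 ∧ ∀ (w : E n) (r : ℝ) (p1 p3 p4 : E k × E m), 0 < r →
      r ≤ 1 → ‖w‖ ≤ 8 → ‖p1 - p3‖ ≤ δ1 → ‖p1 - p4‖ ≤ δ1 → r ≤ ‖p1 - p3‖ → r ≤ ‖p1 - p4‖ →
      ‖Vw X w p1‖ ≤ c0 * r → ‖Vw X w p3‖ ≤ c0 * r → ‖Vw X w p4‖ ≤ c0 * r →
      AA X th κ' r w p1 (p1 - p3) (p1 - p4) = 1 := by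
  have hX := h.hX
  have hA := h.hA
  have hA0 : 0 ≤ A 3 := (norm_nonneg _).trans (hA 3 p0)
  refine ⟨κ' / (32 * (1 + A 3)), κ' / 8, by positivity, by positivity, ?_⟩
  intro w r p1 p3 p4 hr hr1 hw hd3 hd4 h13 h14 hV1 hV3 hV4
  have hone : ∀ x : E m, ‖x‖ ≤ κ' / 2 → th (κ'⁻¹ • x) = 1 := by
    intro x hx
    apply hth.2.2.2.1
    rw [norm_smul, norm_inv, Real.norm_of_nonneg hκ'.le]
    calc κ'⁻¹ * ‖x‖ ≤ κ'⁻¹ * (κ' / 2) := by gcongr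
      _ = 1 / 2 := by field_simp
  have hfin : 2 * (κ' / 8) + A 3 * ‖w‖ * (κ' / (32 * (1 + A 3))) ≤ κ' / 2 := by
    have h1 : A 3 * ‖w‖ * (κ' / (32 * (1 + A 3))) ≤ κ' / 4 := by
      calc A 3 * ‖w‖ * (κ' / (32 * (1 + A 3))) ≤ A 3 * 8 * (κ' / (32 * (1 + A 3))) := by gcongr
        _ = κ' / 4 * (A 3 / (1 + A 3)) := by field_simp; ring
        _ ≤ κ' / 4 * 1 := by
            gcongr
            exact (div_le_one (by positivity)).2 (by linarith)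
        _ = _ := mul_one _
    linarith
  have e1 : th (κ'⁻¹ • Vw X w p1) = 1 := by
    refine hone _ (hV1.trans ?_)
    calc κ' / 8 * r ≤ κ' / 8 * 1 := by gcongr
      _ ≤ κ' / 2 := by linarith
  have e2 := hone _ ((f1_dir hX hA hr h13 hV1 hV3 (by positivity) hd3).trans hfin)
  have e3 := hone _ ((f1_dir hX hA hr h14 hV1 hV4 (by positivity) hd4).trans hfin)
  rw [AA, e1, e2, e3]
  norm_num

end Pool.Agent.LFK.FR
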