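import Pool.Agent.LFK.FRc

/-!
LEAFK row F2: the amplitude of the first kind is smooth at the scale one.
-/

set_option autoImplicit false
set_option maxSynthPendingDepth 3

namespace Pool.Agent.LFK.FR

open MeasureTheory Set Filter Topology Metric Pool.Agent.MP_6cbfb8_an
open scoped ENNReal Real RealInnerProductSpace ContDiff ComplexConjugate

variable {k m n : ℕ}

/-- The derivative of the gradient. -/
theorem fderiv_Vw {X : E k × E m → E n} (hX : ContDiff ℝ ∞ X) (w : E n) (p U : E k × E m) :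
    fderiv ℝ (Vw X w) p U = Lw w (fderiv ℝ (fderiv ℝ X) p U) := by
  have h1 : ContDiff ℝ ∞ (fderiv ℝ X) := hX.fderiv_right (m := ∞) (by simp)
  have h2 : HasFDerivAt (Vw X w) ((Lw w).comp (fderiv ℝ (fderiv ℝ X) p)) p := by
    rw [Vw_eq]
    exact (Lw w).hasFDerivAt.comp p (h1.differentiable (by simp) p).hasFDerivAt
  rw [h2.fderiv]
  rfl

theorem T1_bd {X : E k × E m → E n} (hX : ContDiff ℝ ∞ X) {A : ℕ → ℝ}
    (hA : ∀ j p, ‖iteratedFDeriv ℝ j X p‖ ≤ A j) (t : E k) :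
    (ContDiff ℝ ∞ fun z => fderiv ℝ X (t, z)) ∧
    ∀ i z, ‖iteratedFDeriv ℝ i (fun z => fderiv ℝ X (t, z)) z‖ ≤ A (i + 1) := by
  have h1 : ContDiff ℝ ∞ (fderiv ℝ X) := hX.fderiv_right (m := ∞) (by simp)
  refine ⟨h1.comp (contDiff_const.prodMk contDiff_id), fun i z => ?_⟩
  refine (slice_iter_le h1 i t z).trans ?_
  rw [norm_iteratedFDeriv_fderiv]
  exact hA _ _

theorem T2_bd {X : E k × E m → E n} (hX : ContDiff ℝ ∞ X) {A : ℕ → ℝ}
    (hA : ∀ j p, ‖iteratedFDeriv ℝ j X p‖ ≤ A j) (t : E k) (U : E k × E m) (hU : ‖U‖ ≤ 1) :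
    (ContDiff ℝ ∞ fun z => fderiv ℝ (fderiv ℝ X) (t, z) U) ∧
    ∀ i z, ‖iteratedFDeriv ℝ i (fun z => fderiv ℝ (fderiv ℝ X) (t, z) U) z‖ ≤ A (i + 2) := by
  have h1 : ContDiff ℝ ∞ (fderiv ℝ X) := hX.fderiv_right (m := ∞) (by simp)
  have h2 : ContDiff ℝ ∞ (fderiv ℝ (fderiv ℝ X)) := h1.fderiv_right (m := ∞) (by simp)
  have h3 : ContDiff ℝ ∞ fun p => fderiv ℝ (fderiv ℝ X) p U := h2.clm_apply contDiff_const
  refine ⟨h3.comp (contDiff_const.prodMk contDiff_id), fun i z => ?_⟩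
  refine (slice_iter_le h3 i t z).trans ?_
  have h4 := (ContinuousLinearMap.apply ℝ (E k × E m →L[ℝ] E n) U).norm_iteratedFDeriv_comp_left
    (f := fderiv ℝ (fderiv ℝ X)) (x := (t, z)) (N := ∞) (n := i) h2.contDiffAt
    (by exact_mod_cast le_top)
  refine h4.trans ?_
  rw [norm_iteratedFDeriv_fderiv, norm_iteratedFDeriv_fderiv]
  have h5 : ‖ContinuousLinearMap.apply ℝ (E k × E m →L[ℝ] E n) U‖ ≤ 1 := by
    refine ContinuousLinearMap.opNorm_le_bound _ zero_le_one fun T => ?_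
    rw [one_mul, ContinuousLinearMap.apply_apply]
    exact (T.le_opNorm U).trans (mul_le_of_le_one_right (norm_nonneg _) hU)
  exact (mul_le_of_le_one_left (norm_nonneg _) h5).trans (hA _ _)

theorem norm_Ub_le (x : E k × E m) : ‖Ub x‖ ≤ 1 := by
  unfold Ub
  have h0 : 0 < 1 + ‖x.1‖ ^ 2 + ‖x.2‖ ^ 2 := by positivity
  have h1 : ‖x‖ ≤ √(1 + ‖x.1‖ ^ 2 + ‖x.2‖ ^ 2) := by
    refine max_le ?_ ?_
    · refine Real.le_sqrt_of_sq_le ?_
      nlinarith [sq_nonneg ‖x.2‖]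
    · refine Real.le_sqrt_of_sq_le ?_
      nlinarith [sq_nonneg ‖x.1‖]
  rw [norm_smul, norm_inv, Real.norm_of_nonneg (Real.sqrt_nonneg _), inv_mul_le_iff₀
    (Real.sqrt_pos.2 h0), mul_one]
  exact h1

/-- The slices of the density. -/
theorem slice_b {p0 : E k × E m} {δ : ℝ} {B : ℕ → ℝ} {b : E k × E m → ℂ} (hb : Dn p0 δ B b)
    (t : E k) (c : E k × E m) :
    (ContDiff ℝ ∞ fun q : E n × E m => b ((t, q.2) + c)) ∧
    ∀ q : E n × E m, BA B (fun q : E n × E m => b ((t, q.2) + c)) q := by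
  have h1 : ContDiff ℝ ∞ fun z => b (t + c.1, z) := hb.2.1 _
  have h2 : ContDiff ℝ ∞ fun z => b (t + c.1, z + c.2) := h1.comp (contDiff_id.add contDiff_const)
  have e1 : (fun q : E n × E m => b ((t, q.2) + c)) =
      fun q : E n × E m => (fun z => b (t + c.1, z + c.2)) q.2 := by
    funext q
    rfl
  rw [e1]
  refine ⟨h2.comp contDiff_snd, fun q => BA.snd h2 q ?_⟩
  exact BA.translate (f := fun z => b (t + c.1, z)) c.2 q.2 fun j => hb.2.2.1 _ j _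

/-- The product of the four slices. -/
theorem Bf_BA {p0 : E k × E m} {δ : ℝ} {B : ℕ → ℝ} {b : E k × E m → ℂ} (hb : Dn p0 δ B b)
    (t : E k) (u v d : E k × E m) :
    (ContDiff ℝ ∞ fun q : E n × E m => Bf b (t, q.2) ((t, q.2) - u - v + d) ((t, q.2) - u)
      ((t, q.2) - v)) ∧
    ∀ q : E n × E m, BA (mD (mD B B) (mD B B)) (fun q : E n × E m => Bf b (t, q.2)
      ((t, q.2) - u - v + d) ((t, q.2) - u) ((t, q.2) - v)) q := by
  have e1 : (fun q : E n × E m => Bf b (t, q.2) ((t, q.2) - u - v + d) ((t, q.2) - u)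
      ((t, q.2) - v)) = fun q : E n × E m => b ((t, q.2) + 0) * b ((t, q.2) + (-u - v + d)) *
        (conj (b ((t, q.2) + -u)) * conj (b ((t, q.2) + -v))) := by
    funext q
    unfold Bf
    rw [add_zero, show (t, q.2) - u - v + d = (t, q.2) + (-u - v + d) by abel,
      sub_eq_add_neg (t, q.2) u, sub_eq_add_neg (t, q.2) v]
  rw [e1]
  obtain ⟨s1, b1⟩ := slice_b (n := n) hb t 0
  obtain ⟨s2, b2⟩ := slice_b (n := n) hb t (-u - v + d)
  obtain ⟨s3, b3⟩ := slice_b (n := n) hb t (-u)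
  obtain ⟨s4, b4⟩ := slice_b (n := n) hb t (-v)
  have c3 := contDiff_conj s3
  have c4 := contDiff_conj s4
  exact ⟨(s1.mul s2).mul (c3.mul c4), fun q => BA.mul (s1.mul s2) (c3.mul c4)
    (BA.mul s1 s2 (b1 q) (b2 q)) (BA.mul c3 c4 (b3 q).conj (b4 q).conj)⟩

/-- F2 (module FR2). The amplitude of the first kind, as a function of `(w, z)`: scale one. -/
theorem symA {X : E k × E m → E n} {A : ℕ → ℝ} {p0 : E k × E m} {κ : ℝ} (h : Ch X A p0 κ)
    {th : E m → ℝ} (hth : Th th) {η : E n → ℝ} (hη : Et η) {N0 : E k × E m → ℝ} (hN : Nz N0)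
    (κ' : ℝ) (hκ' : 0 < κ') (δ : ℝ) (B : ℕ → ℝ) :
    ∃ D : ℕ → ℝ, ∀ (b : E k × E m → ℂ), Dn p0 δ B b → ∀ (r : ℝ) (t : E k)
      (u v d : E k × E m), 0 < r → r ≤ 1 →
      ContDiff ℝ ∞ (fun q : E n × E m =>
        ((η q.1 : ℝ) : ℂ) * G0 X th N0 κ' b r q.1 (t, q.2) u v d) ∧
      ∀ j q, ‖iteratedFDeriv ℝ j (fun q : E n × E m =>
        ((η q.1 : ℝ) : ℂ) * G0 X th N0 κ' b r q.1 (t, q.2) u v d) q‖ ≤ D j := by
  obtain ⟨Ct, hCt⟩ := exists_BA hth.1 (ρ := 1) hth.2.2.2.2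
  obtain ⟨Ce, hCe⟩ := exists_BA hη.1 (ρ := 5) (fun x hx => by
    by_contra hne
    have := (hη.2.2.2.2 x hne).2
    linarith)
  set D1 : ℕ → ℝ := cD Ct (fun j => |κ'⁻¹| * mD (fun _ => 8) (fun i => A (i + 1)) j) with hD1
  set D2 : ℕ → ℝ := cD Ct (fun j => |κ'⁻¹| * mD (fun _ => 8) (fun i => A (i + 2)) j) with hD2
  set DA : ℕ → ℝ := mD (mD D1 D2) D2 with hDA
  set DB : ℕ → ℝ := mD (mD B B) (mD B B) with hDB
  refine ⟨fun j => |mD Ce (mD (fun j => 4 * DA j) DB) j|, ?_⟩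
  intro b hb r t u v d hr hr1
  obtain ⟨hT1, hT1b⟩ := T1_bd h.hX h.hA t
  obtain ⟨hTu, hTub⟩ := T2_bd h.hX h.hA t (Ub (r⁻¹ • u)) (norm_Ub_le _)
  obtain ⟨hTv, hTvb⟩ := T2_bd h.hX h.hA t (Ub (r⁻¹ • v)) (norm_Ub_le _)
  obtain ⟨s1, b1⟩ := crit_BA (n := n) hth.1 hCt κ' hT1 hT1b
  obtain ⟨s2, b2⟩ := crit_BA (n := n) hth.1 hCt κ' hTu hTub
  obtain ⟨s3, b3⟩ := crit_BA (n := n) hth.1 hCt κ' hTv hTvb
  obtain ⟨s4, b4⟩ := Bf_BA (n := n) hb t u v d
  -- the real part of the amplitude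
  have eA : ∀ q : E n × E m, AA X th κ' r q.1 (t, q.2) u v =
      th (κ'⁻¹ • Lw q.1 (fderiv ℝ X (t, q.2))) *
        th (κ'⁻¹ • Lw q.1 (fderiv ℝ (fderiv ℝ X) (t, q.2) (Ub (r⁻¹ • u)))) *
          th (κ'⁻¹ • Lw q.1 (fderiv ℝ (fderiv ℝ X) (t, q.2) (Ub (r⁻¹ • v)))) := by
    intro q
    unfold AA
    rw [fderiv_Vw h.hX, fderiv_Vw h.hX]
    rfl
  have sA : ContDiff ℝ ∞ fun q : E n × E m => AA X th κ' r q.1 (t, q.2) u v := by
    simp only [eA]
    exact (s1.mul s2).mul s3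
  have bA : ∀ q : E n × E m, ‖q.1‖ ≤ 8 →
      BA DA (fun q : E n × E m => AA X th κ' r q.1 (t, q.2) u v) q := by
    intro q hq
    simp only [eA]
    exact BA.mul (s1.mul s2) s3 (BA.mul s1 s2 (b1 q hq) (b2 q hq)) (b3 q hq)
  have hNf : |Nf N0 r u v| ≤ 4 := by
    unfold Nf
    rw [abs_mul]
    have h1 : ∀ x, |1 - N0 x| ≤ 2 := by
      intro x
      have := hN.2.1 x
      rw [abs_le] at this ⊢
      constructor <;> linarith [this.1, this.2]
    calc |1 - N0 (r⁻¹ • u)| * |1 - N0 (r⁻¹ • v)| ≤ 2 * 2 :=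
          mul_le_mul (h1 _) (h1 _) (abs_nonneg _) (by norm_num)
      _ = 4 := by norm_num
  have sR : ContDiff ℝ ∞ fun q : E n × E m => AA X th κ' r q.1 (t, q.2) u v * Nf N0 r u v :=
    sA.mul contDiff_const
  have bR : ∀ q : E n × E m, ‖q.1‖ ≤ 8 → BA (fun j => 4 * DA j)
      (fun q : E n × E m => AA X th κ' r q.1 (t, q.2) u v * Nf N0 r u v) q := by
    intro q hq j
    have e1 : (fun q : E n × E m => AA X th κ' r q.1 (t, q.2) u v * Nf N0 r u v) =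
        fun q : E n × E m => (Nf N0 r u v) • AA X th κ' r q.1 (t, q.2) u v := by
      funext q
      rw [smul_eq_mul, mul_comm]
    rw [e1]
    exact ((bA q hq).const_smul sA (Nf N0 r u v) j).trans
      (mul_le_mul_of_nonneg_right hNf ((bA q hq).nonneg j))
  have sE : ContDiff ℝ ∞ fun q : E n × E m => η q.1 := hη.1.comp contDiff_fst
  have sG : ContDiff ℝ ∞ fun q : E n × E m => G0 X th N0 κ' b r q.1 (t, q.2) u v d :=
    (contDiff_ofReal sR).mul s4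
  refine ⟨(contDiff_ofReal sE).mul sG, fun j q => ?_⟩
  rcases le_or_gt ‖q.1‖ 8 with hq | hq
  · have h1 := BA.mul (contDiff_ofReal sE) sG
      ((BA.fst (Q := E m) hη.1 q (D := Ce) fun j => hCe j _).ofReal sE)
      (BA.mul (contDiff_ofReal sR) s4 ((bR q hq).ofReal sR) (b4 q)) j
    exact h1.trans (le_abs_self _)
  · refine BA.of_eventually (D := fun j => |mD Ce (mD (fun j => 4 * DA j) DB) j|)
      (fun j => abs_nonneg _) ?_ j
    have h1 : ∀ᶠ x : E n × E m in 𝓝 q, 8 < ‖x.1‖ :=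
      (continuous_fst.norm.tendsto q).eventually (lt_mem_nhds hq)
    filter_upwards [h1] with x hx
    have h2 : η x.1 = 0 := by
      by_contra hne
      have := (hη.2.2.2.2 x.1 hne).2
      linarith
    rw [h2, Complex.ofReal_zero, zero_mul]

end Pool.Agent.LFK.FR
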