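import Pool.Agent.LFK.FARdf
import Pool.Agent.LFK.FAR1

/-!
LEAFK row F3: the amplitudes of the far part in one variable `z_j` are smooth at the scale `r`.
-/

set_option autoImplicit false

namespace Pool.Agent.LFK.FR

open MeasureTheory Set Filter Topology Pool.Agent.MP_6cbfb8_an
open scoped ENNReal Real RealInnerProductSpace ContDiff ComplexConjugate

namespace S3

section Sy

variable {P F G H : Type*} [NormedAddCommGroup P] [NormedSpace ℝ P] [NormedAddCommGroup F]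
  [NormedSpace ℝ F] [NormedAddCommGroup G] [NormedSpace ℝ G] [NormedAddCommGroup H] [NormedSpace ℝ H]

/-- Functions smooth at the scale `r`, to the order `J`, with the constant `K`. -/
def Sy (J : ℕ) (K r : ℝ) (f : P → F) : Prop :=
  ContDiff ℝ J f ∧ ∀ j ≤ J, ∀ z, ‖iteratedFDeriv ℝ j f z‖ ≤ K * (r ^ j)⁻¹

theorem Sy.bd {J : ℕ} {K r : ℝ} {f : P → F} (h : Sy J K r f) (z : P) : ‖f z‖ ≤ K := by
  have h1 := h.2 0 (Nat.zero_le _) z
  rw [norm_iteratedFDeriv_zero, pow_zero, inv_one, mul_one] at h1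
  exact h1

theorem Sy.nonneg {J : ℕ} {K r : ℝ} {f : P → F} (h : Sy J K r f) : 0 ≤ K :=
  (norm_nonneg _).trans (h.bd 0)

theorem Sy.mono {J : ℕ} {K K' r : ℝ} (hr : 0 < r) {f : P → F} (h : Sy J K r f) (hK : K ≤ K') :
    Sy J K' r f :=
  ⟨h.1, fun j hj z => (h.2 j hj z).trans (mul_le_mul_of_nonneg_right hK (by positivity))⟩

theorem Sy.order {J J' : ℕ} {K r : ℝ} {f : P → F} (h : Sy J K r f) (hJ : J' ≤ J) :
    Sy J' K r f :=
  ⟨h.1.of_le (by exact_mod_cast hJ), fun j hj z => h.2 j (hj.trans hJ) z⟩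

theorem sy_const {J : ℕ} {K r : ℝ} (hr : 0 < r) {c : F} (hK : ‖c‖ ≤ K) :
    Sy J K r (fun _ : P => c) := by
  refine ⟨contDiff_const, fun j _ z => ?_⟩
  have hK0 : 0 ≤ K := (norm_nonneg c).trans hK
  rcases Nat.eq_zero_or_pos j with rfl | hj
  · rw [norm_iteratedFDeriv_zero, pow_zero, inv_one, mul_one]
    exact hK
  · rw [iteratedFDeriv_const_of_ne hj.ne']
    simp only [Pi.zero_apply, norm_zero]
    positivity

/-- Scale one implies scale `r ≤ 1`. -/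
theorem sy_one {J : ℕ} {K r : ℝ} (hr : 0 < r) (hr1 : r ≤ 1) {f : P → F} (hf : ContDiff ℝ J f)
    (hK : ∀ j ≤ J, ∀ z, ‖iteratedFDeriv ℝ j f z‖ ≤ K) : Sy J K r f := by
  refine ⟨hf, fun j hj z => (hK j hj z).trans ?_⟩
  have hK0 : 0 ≤ K := (norm_nonneg _).trans (hK j hj z)
  refine le_mul_of_one_le_right hK0 ?_
  rw [one_le_inv₀ (by positivity)]
  exact pow_le_one₀ hr.le hr1

/-- Bilinear products. -/
theorem Sy.bil {J : ℕ} {K K' r : ℝ} (hr : 0 < r) (B : F →L[ℝ] G →L[ℝ] H) (hB : ‖B‖ ≤ 1)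
    {f : P → F} {g : P → G} (hf : Sy J K r f) (hg : Sy J K' r g) :
    Sy J (2 ^ J * (K * K')) r (fun z => B (f z) (g z)) := by
  have hK := hf.nonneg
  have hK' := hg.nonneg
  refine ⟨B.isBoundedBilinearMap.contDiff.comp₂ hf.1 hg.1, fun j hj z => ?_⟩
  refine (B.norm_iteratedFDeriv_le_of_bilinear_of_le_one hf.1 hg.1 z (n := j)
    (by exact_mod_cast hj) hB).trans ?_
  calc ∑ i ∈ Finset.range (j + 1), (j.choose i : ℝ) * ‖iteratedFDeriv ℝ i f z‖ *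
        ‖iteratedFDeriv ℝ (j - i) g z‖ ≤
        ∑ i ∈ Finset.range (j + 1), (j.choose i : ℝ) * (K * K' * (r ^ j)⁻¹) := by
        refine Finset.sum_le_sum fun i hi => ?_
        have hi' : i ≤ j := Nat.lt_succ_iff.1 (Finset.mem_range.1 hi)
        rw [mul_assoc]
        refine mul_le_mul_of_nonneg_left ?_ (Nat.cast_nonneg _)
        calc ‖iteratedFDeriv ℝ i f z‖ * ‖iteratedFDeriv ℝ (j - i) g z‖ ≤
              (K * (r ^ i)⁻¹) * (K' * (r ^ (j - i))⁻¹) :=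
              mul_le_mul (hf.2 i (hi'.trans hj) z) (hg.2 (j - i) ((Nat.sub_le _ _).trans hj) z)
                (norm_nonneg _) (by positivity)
          _ = K * K' * (r ^ j)⁻¹ := by
              have h1 : r ^ j = r ^ i * r ^ (j - i) := by rw [← pow_add, Nat.add_sub_of_le hi']
              rw [h1, mul_inv]
              ring
    _ = 2 ^ j * (K * K' * (r ^ j)⁻¹) := by
        rw [← Finset.sum_mul]
        norm_cast
        rw [Nat.sum_range_choose]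
    _ ≤ 2 ^ J * (K * K') * (r ^ j)⁻¹ := by
        rw [← mul_assoc]
        have h2 : (2 : ℝ) ^ j ≤ 2 ^ J := pow_le_pow_right₀ (by norm_num) hj
        have h3 : 0 ≤ K * K' := by positivity
        exact mul_le_mul_of_nonneg_right (mul_le_mul_of_nonneg_right h2 h3) (by positivity)

/-- Products of complex functions. -/
theorem Sy.mulC {J : ℕ} {K K' r : ℝ} (hr : 0 < r) {f g : P → ℂ} (hf : Sy J K r f)
    (hg : Sy J K' r g) : Sy J (2 ^ J * (K * K')) r (fun z => f z * g z) :=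
  hf.bil hr (ContinuousLinearMap.mul ℝ ℂ) (ContinuousLinearMap.opNorm_mul_le _ _) hg

/-- Products of real functions. -/
theorem Sy.mulR {J : ℕ} {K K' r : ℝ} (hr : 0 < r) {f g : P → ℝ} (hf : Sy J K r f)
    (hg : Sy J K' r g) : Sy J (2 ^ J * (K * K')) r (fun z => f z * g z) :=
  hf.bil hr (ContinuousLinearMap.mul ℝ ℝ) (ContinuousLinearMap.opNorm_mul_le _ _) hg

/-- Images under a linear map. -/
theorem Sy.clm {J : ℕ} {K r M : ℝ} (hr : 0 < r) {f : P → F} (hf : Sy J K r f) (L : F →L[ℝ] G)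
    (hL : ‖L‖ ≤ M) : Sy J (M * K) r (fun z => L (f z)) := by
  have hM : 0 ≤ M := (norm_nonneg _).trans hL
  refine ⟨L.contDiff.comp hf.1, fun j hj z => ?_⟩
  refine (L.norm_iteratedFDeriv_comp_left (f := f) (x := z) (N := J) hf.1.contDiffAt
    (by exact_mod_cast hj)).trans ?_
  rw [mul_assoc]
  exact mul_le_mul hL (hf.2 j hj z) (norm_nonneg _) hM

theorem Sy.ofReal {J : ℕ} {K r : ℝ} (hr : 0 < r) {f : P → ℝ} (hf : Sy J K r f) :
    Sy J K r (fun z => ((f z : ℝ) : ℂ)) := by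
  have h := hf.clm hr Complex.ofRealCLM Complex.ofRealCLM_norm.le
  rw [one_mul] at h
  exact h

theorem Sy.add {J : ℕ} {K K' r : ℝ} {f g : P → F} (hf : Sy J K r f) (hg : Sy J K' r g) :
    Sy J (K + K') r (fun z => f z + g z) := by
  refine ⟨hf.1.add hg.1, fun j hj z => ?_⟩
  have h : iteratedFDeriv ℝ j (fun z => f z + g z) z = iteratedFDeriv ℝ j f z +
      iteratedFDeriv ℝ j g z :=
    iteratedFDeriv_add_apply (hf.1.of_le (by exact_mod_cast hj)).contDiffAt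
      (hg.1.of_le (by exact_mod_cast hj)).contDiffAt
  rw [h, add_mul]
  exact (norm_add_le _ _).trans (add_le_add (hf.2 j hj z) (hg.2 j hj z))

theorem Sy.neg {J : ℕ} {K r : ℝ} {f : P → F} (hf : Sy J K r f) : Sy J K r (fun z => -f z) := by
  refine ⟨hf.1.neg, fun j hj z => ?_⟩
  have h : iteratedFDeriv ℝ j (fun z => -f z) z = -iteratedFDeriv ℝ j f z :=
    iteratedFDeriv_neg_apply
  rw [h, norm_neg]
  exact hf.2 j hj z

theorem Sy.sub {J : ℕ} {K K' r : ℝ} {f g : P → F} (hf : Sy J K r f) (hg : Sy J K' r g) :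
    Sy J (K + K') r (fun z => f z - g z) := by
  have h := hf.add hg.neg
  simpa only [← sub_eq_add_neg] using h

theorem Sy.one_sub {J : ℕ} {K r : ℝ} (hr : 0 < r) {f : P → ℝ} (hf : Sy J K r f) :
    Sy J (1 + K) r (fun z => 1 - f z) :=
  (sy_const hr (by norm_num)).sub hf

/-- Compositions. -/
theorem sy_comp {J : ℕ} {K r C : ℝ} (hK : 1 ≤ K) (hr : 0 < r) {g : F → G} {f : P → F}
    (hg : ContDiff ℝ J g) (hgC : ∀ i ≤ J, ∀ y, ‖iteratedFDeriv ℝ i g y‖ ≤ C)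
    (hf : ContDiff ℝ J f)
    (hfK : ∀ j, 1 ≤ j → j ≤ J → ∀ z, ‖iteratedFDeriv ℝ j f z‖ ≤ K * (r ^ j)⁻¹) :
    Sy J (J.factorial * C * K ^ J) r (fun z => g (f z)) := by
  refine ⟨hg.comp hf, fun j hj z => ?_⟩
  have hC : 0 ≤ C := (norm_nonneg _).trans (hgC 0 (Nat.zero_le _) (f z))
  have h := norm_iteratedFDeriv_comp_le (n := j) (N := J) (D := K / r) (C := C) hg hf
    (by exact_mod_cast hj) z (fun i hi => hgC i (hi.trans hj) _) (fun i h1 hi => by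
      refine (hfK i h1 (hi.trans hj) z).trans ?_
      rw [div_pow, div_eq_mul_inv]
      exact mul_le_mul_of_nonneg_right (le_self_pow₀ hK (by omega)) (by positivity))
  refine h.trans ?_
  rw [div_pow, div_eq_mul_inv, ← mul_assoc]
  refine mul_le_mul_of_nonneg_right ?_ (by positivity)
  have h1 : (j.factorial : ℝ) ≤ J.factorial := by exact_mod_cast Nat.factorial_le hj
  have h2 : K ^ j ≤ K ^ J := pow_le_pow_right₀ hK hj
  exact mul_le_mul (mul_le_mul_of_nonneg_right h1 hC) h2 (by positivity) (by positivity)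

theorem Sy.comp {J : ℕ} {K r C : ℝ} (hr : 0 < r) {g : F → G} {f : P → F}
    (hf : Sy J K r f) (hg : ContDiff ℝ J g) (hgC : ∀ i ≤ J, ∀ y, ‖iteratedFDeriv ℝ i g y‖ ≤ C) :
    Sy J (J.factorial * C * (1 + K) ^ J) r (fun z => g (f z)) :=
  sy_comp (by linarith [hf.nonneg]) hr hg hgC hf.1 fun j _ hj z => (hf.2 j hj z).trans
    (mul_le_mul_of_nonneg_right (by linarith) (by positivity))

/-- An affine map of size `1/r` inside a fixed function. -/
theorem sy_aff {J : ℕ} {K r : ℝ} (hr : 0 < r) {U : F → G} (hU : ContDiff ℝ J U)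
    (hUK : ∀ j ≤ J, ∀ y, ‖iteratedFDeriv ℝ j U y‖ ≤ K) (q : F) (L : P →L[ℝ] F) (hL : ‖L‖ ≤ r⁻¹) :
    Sy J K r (fun z => U (q + L z)) := by
  have h1 : ContDiff ℝ J (fun x => U (q + x)) := hU.comp (contDiff_const.add contDiff_id)
  refine ⟨h1.comp L.contDiff, fun j hj z => ?_⟩
  have h2 : (fun z => U (q + L z)) = (fun x => U (q + x)) ∘ L := rfl
  rw [h2, ContinuousLinearMap.iteratedFDeriv_comp_right _ h1 z (by exact_mod_cast hj)]
  refine (ContinuousMultilinearMap.norm_compContinuousLinearMap_le _ _).trans ?_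
  rw [iteratedFDeriv_comp_add_left, Finset.prod_const, Finset.card_univ, Fintype.card_fin,
    ← inv_pow]
  exact mul_le_mul (hUK j hj _) (pow_le_pow_left₀ (norm_nonneg _) hL j) (by positivity)
    ((norm_nonneg _).trans (hUK j hj (q + L z)))

end Sy

/-- A bounded map which solves an autonomous smooth first order system has bounded derivatives. -/
theorem ode_bdd {P W : Type*} [NormedAddCommGroup P] [NormedSpace ℝ P] [NormedAddCommGroup W]
    [NormedSpace ℝ W] {f : P → W} {Q : W → P →L[ℝ] W} (hf : ContDiff ℝ ∞ f)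
    (hQ : ContDiff ℝ ∞ Q) {K : Set W} (hK : IsCompact K) (hfK : ∀ x, f x ∈ K)
    (hd : ∀ x, fderiv ℝ f x = Q (f x)) (J : ℕ) :
    ∃ C : ℝ, 0 ≤ C ∧ ∀ j ≤ J, ∀ x, ‖iteratedFDeriv ℝ j f x‖ ≤ C := by
  induction J with
  | zero =>
    obtain ⟨C, hC⟩ := hK.exists_bound_of_continuousOn (f := fun y : W => y) continuousOn_id
    refine ⟨|C|, abs_nonneg _, fun j hj x => ?_⟩
    obtain rfl : j = 0 := Nat.le_zero.1 hj
    rw [norm_iteratedFDeriv_zero]
    exact (hC _ (hfK x)).trans (le_abs_self C)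
  | succ J ih =>
    obtain ⟨C, hC0, hC⟩ := ih
    have hQb : ∀ i : ℕ, ∃ c, ∀ y ∈ K, ‖iteratedFDeriv ℝ i Q y‖ ≤ c := fun i =>
      hK.exists_bound_of_continuousOn
        (hQ.continuous_iteratedFDeriv (m := i) (by exact_mod_cast le_top)).continuousOn
    choose c hc using hQb
    set CQ : ℝ := ∑ i ∈ Finset.range (J + 1), |c i| with hCQ
    have hcq : ∀ i ≤ J, ∀ y ∈ K, ‖iteratedFDeriv ℝ i Q y‖ ≤ CQ := by
      intro i hi y hy
      refine (hc i y hy).trans ((le_abs_self _).trans ?_)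
      exact Finset.single_le_sum (f := fun i => |c i|) (fun i _ => abs_nonneg (c i))
        (Finset.mem_range.2 (Nat.lt_succ_of_le hi))
    have hCQ0 : 0 ≤ CQ := Finset.sum_nonneg fun i _ => abs_nonneg _
    refine ⟨C + J.factorial * CQ * (1 + C) ^ J, by positivity, fun j hj x => ?_⟩
    rcases Nat.lt_or_ge J j with h | h
    · obtain rfl : j = J + 1 := by omega
      rw [← norm_iteratedFDeriv_fderiv]
      have h1 : fderiv ℝ f = Q ∘ f := funext hd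
      rw [h1]
      have h2 := norm_iteratedFDeriv_comp_le (n := J) (N := ∞) (g := Q) (f := f) (C := CQ)
        (D := 1 + C) hQ hf (by exact_mod_cast le_top) x (fun i hi => hcq i hi _ (hfK x))
        (fun i h1 hi => (hC i hi x).trans ((by linarith : C ≤ 1 + C).trans
          (le_self_pow₀ (by linarith) (by omega))))
      linarith
    · have h3 : 0 ≤ J.factorial * CQ * (1 + C) ^ J := by positivity
      linarith [hC j h x]

section Ub

variable {k m : ℕ}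

/-- The sum of the two inner products. -/
noncomputable def ipp (v : E k × E m) : E k × E m →L[ℝ] ℝ :=
  (innerSL ℝ v.1).comp (ContinuousLinearMap.fst ℝ (E k) (E m)) +
    (innerSL ℝ v.2).comp (ContinuousLinearMap.snd ℝ (E k) (E m))

theorem ipp_apply (v x : E k × E m) : ipp v x = ⟪v.1, x.1⟫ + ⟪v.2, x.2⟫ := by
  simp only [ipp, add_apply, ContinuousLinearMap.comp_apply,
    ContinuousLinearMap.coe_fst', ContinuousLinearMap.coe_snd', innerSL_apply_apply]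

theorem ipp_smul (s : ℝ) (v : E k × E m) : ipp (s • v) = s • ipp v := by
  refine ContinuousLinearMap.ext fun x => ?_
  rw [smul_apply, ipp_apply, ipp_apply, Prod.smul_fst, Prod.smul_snd,
    real_inner_smul_left, real_inner_smul_left, smul_eq_mul, mul_add]

theorem hasFDerivAt_qd (x : E k × E m) :
    HasFDerivAt (fun x : E k × E m => 1 + ‖x.1‖ ^ 2 + ‖x.2‖ ^ 2) ((2 : ℝ) • ipp x) x := by
  have h1 : HasFDerivAt (fun x : E k × E m => ‖x.1‖ ^ 2)
      (2 • (innerSL ℝ x.1).comp (ContinuousLinearMap.fst ℝ (E k) (E m))) x :=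
    (hasFDerivAt_fst (𝕜 := ℝ) (p := x)).norm_sq
  have h2 : HasFDerivAt (fun x : E k × E m => ‖x.2‖ ^ 2)
      (2 • (innerSL ℝ x.2).comp (ContinuousLinearMap.snd ℝ (E k) (E m))) x :=
    (hasFDerivAt_snd (𝕜 := ℝ) (p := x)).norm_sq
  have h3 := (h1.const_add 1).add h2
  refine h3.congr_fderiv ?_
  refine ContinuousLinearMap.ext fun y => ?_
  rw [smul_apply, ipp_apply]
  simp only [add_apply, smul_apply, ContinuousLinearMap.comp_apply,
    ContinuousLinearMap.coe_fst', ContinuousLinearMap.coe_snd', innerSL_apply_apply, nsmul_eq_mul,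
    smul_eq_mul]
  push_cast
  ring

theorem qd_pos (x : E k × E m) : 0 < 1 + ‖x.1‖ ^ 2 + ‖x.2‖ ^ 2 := by positivity

theorem qd_contDiff : ContDiff ℝ ∞ fun x : E k × E m => 1 + ‖x.1‖ ^ 2 + ‖x.2‖ ^ 2 :=
  (contDiff_const.add (contDiff_fst.norm_sq ℝ)).add (contDiff_snd.norm_sq ℝ)

theorem ipp_contDiff : ContDiff ℝ ∞ (ipp : E k × E m → E k × E m →L[ℝ] ℝ) := by
  have h : (ipp : E k × E m → E k × E m →L[ℝ] ℝ) = fun x => (1 / 2 : ℝ) •
      fderiv ℝ (fun x : E k × E m => 1 + ‖x.1‖ ^ 2 + ‖x.2‖ ^ 2) x := by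
    funext x
    rw [(hasFDerivAt_qd x).fderiv, smul_smul]
    norm_num
  rw [h]
  exact (qd_contDiff.fderiv_right (m := ∞) (by simp)).const_smul (1 / 2 : ℝ)

/-- `(1 + |x|²)^(-1/2)`. -/
noncomputable def gb (x : E k × E m) : ℝ := (√(1 + ‖x.1‖ ^ 2 + ‖x.2‖ ^ 2))⁻¹

theorem gb_contDiff : ContDiff ℝ ∞ (gb : E k × E m → ℝ) :=
  (qd_contDiff.sqrt fun x => (qd_pos x).ne').inv fun x => (Real.sqrt_pos.2 (qd_pos x)).ne'

theorem gb_pos (x : E k × E m) : 0 < gb x := inv_pos.2 (Real.sqrt_pos.2 (qd_pos x))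

theorem gb_le_one (x : E k × E m) : gb x ≤ 1 := by
  refine inv_le_one_of_one_le₀ (Real.one_le_sqrt.2 ?_)
  have h1 := sq_nonneg ‖x.1‖
  have h2 := sq_nonneg ‖x.2‖
  linarith

theorem Ub_eq (x : E k × E m) : Ub x = gb x • x := rfl

theorem Ub_le (x : E k × E m) : ‖Ub x‖ ≤ 1 := by
  have h0 : 0 < √(1 + ‖x.1‖ ^ 2 + ‖x.2‖ ^ 2) := Real.sqrt_pos.2 (qd_pos x)
  rw [Ub_eq, norm_smul, Real.norm_eq_abs, abs_of_pos (gb_pos x), gb, inv_mul_le_iff₀ h0, mul_one,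
    Prod.norm_def]
  refine max_le (Real.le_sqrt_of_sq_le ?_) (Real.le_sqrt_of_sq_le ?_)
  · nlinarith [sq_nonneg ‖x.2‖]
  · nlinarith [sq_nonneg ‖x.1‖]

theorem hasFDerivAt_gb (x : E k × E m) : HasFDerivAt gb (-(gb x ^ 2) • ipp (Ub x)) x := by
  have hs : √(1 + ‖x.1‖ ^ 2 + ‖x.2‖ ^ 2) ≠ 0 := (Real.sqrt_pos.2 (qd_pos x)).ne'
  have h1 := (hasFDerivAt_qd x).sqrt (qd_pos x).ne'
  have h2 := (hasDerivAt_inv hs).comp_hasFDerivAt x h1
  refine h2.congr_fderiv ?_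
  rw [Ub_eq, ipp_smul, smul_smul, smul_smul, smul_smul]
  congr 1
  unfold gb
  field_simp

theorem hasFDerivAt_Ub (x : E k × E m) :
    HasFDerivAt Ub (gb x • ContinuousLinearMap.id ℝ (E k × E m) -
      gb x • (ipp (Ub x)).smulRight (Ub x)) x := by
  have h := (hasFDerivAt_gb x).smul (hasFDerivAt_id x)
  refine h.congr_fderiv ?_
  refine ContinuousLinearMap.ext fun y => ?_
  simp only [add_apply, smul_apply, sub_apply, ContinuousLinearMap.smulRight_apply,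
    ContinuousLinearMap.id_apply, smul_eq_mul, id]
  generalize hT : ipp (Ub x) y = T
  rw [Ub_eq]
  module

/-- The system. -/
noncomputable def Qb (y : ℝ × (E k × E m)) : (E k × E m) →L[ℝ] (ℝ × (E k × E m)) :=
  (-(y.1 ^ 2) • ipp y.2).prod (y.1 • ContinuousLinearMap.id ℝ (E k × E m) -
    y.1 • (ipp y.2).smulRight y.2)

theorem Qb_contDiff : ContDiff ℝ ∞ (Qb : ℝ × (E k × E m) → _) := by
  have h1 : ContDiff ℝ ∞ fun y : ℝ × (E k × E m) => ipp y.2 := ipp_contDiff.comp contDiff_snd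
  have h2 : ContDiff ℝ ∞ fun y : ℝ × (E k × E m) => -(y.1 ^ 2) • ipp y.2 :=
    (contDiff_fst.pow 2).neg.smul h1
  have h3 : ContDiff ℝ ∞ fun y : ℝ × (E k × E m) =>
      y.1 • ContinuousLinearMap.id ℝ (E k × E m) - y.1 • (ipp y.2).smulRight y.2 :=
    (contDiff_fst.smul contDiff_const).sub (contDiff_fst.smul (h1.smulRight contDiff_snd))
  exact (ContinuousLinearMap.prodₗᵢ ℝ (𝕜 := ℝ) (E := E k × E m) (F := ℝ)
    (G := E k × E m)).contDiff.comp (h2.prodMk h3)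

/-- All derivatives of `Ub` are bounded. -/
theorem Ub_bdd (k m J : ℕ) : ∃ C : ℝ, 0 ≤ C ∧ ∀ j ≤ J, ∀ x : E k × E m,
    ‖iteratedFDeriv ℝ j Ub x‖ ≤ C := by
  have hU : ContDiff ℝ ∞ (Ub : E k × E m → E k × E m) := gb_contDiff.smul contDiff_id
  have hW : ContDiff ℝ ∞ (fun x : E k × E m => (gb x, Ub x)) := gb_contDiff.prodMk hU
  obtain ⟨C, hC0, hC⟩ := ode_bdd hW Qb_contDiff (K := Metric.closedBall 0 1)
    (isCompact_closedBall 0 1)
    (fun x => by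
      rw [mem_closedBall_zero_iff, Prod.norm_mk, Real.norm_eq_abs, abs_of_pos (gb_pos x)]
      exact max_le (gb_le_one x) (Ub_le x))
    (fun x => ((hasFDerivAt_gb x).prodMk (hasFDerivAt_Ub x)).fderiv) J
  refine ⟨C, hC0, fun j hj x => ?_⟩
  have h1 := (ContinuousLinearMap.snd ℝ ℝ (E k × E m)).norm_iteratedFDeriv_comp_left
    (f := fun x : E k × E m => (gb x, Ub x)) (x := x) (N := ∞) (n := j) hW.contDiffAt
    (by exact_mod_cast le_top)
  have h2 : ‖ContinuousLinearMap.snd ℝ ℝ (E k × E m)‖ ≤ 1 :=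
    ContinuousLinearMap.norm_snd_le ..
  refine h1.trans ?_
  calc ‖ContinuousLinearMap.snd ℝ ℝ (E k × E m)‖ *
        ‖iteratedFDeriv ℝ j (fun x : E k × E m => (gb x, Ub x)) x‖ ≤ 1 * C :=
        mul_le_mul h2 (hC j hj x) (norm_nonneg _) zero_le_one
    _ = C := one_mul C

end Ub

/-- All derivatives of a function with compact support are bounded. -/
theorem cs_bdd {P F : Type*} [NormedAddCommGroup P] [NormedSpace ℝ P] [NormedAddCommGroup F]
    [NormedSpace ℝ F] {f : P → F} (hf : ContDiff ℝ ∞ f) (hs : HasCompactSupport f) (J : ℕ) :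
    ∃ C : ℝ, 0 ≤ C ∧ ∀ j ≤ J, ∀ x, ‖iteratedFDeriv ℝ j f x‖ ≤ C := by
  have h : ∀ j : ℕ, ∃ c, ∀ x, ‖iteratedFDeriv ℝ j f x‖ ≤ c := fun j =>
    (hf.continuous_iteratedFDeriv (m := j)
      (by exact_mod_cast le_top)).bounded_above_of_compact_support (hs.iteratedFDeriv j)
  choose c hc using h
  refine ⟨∑ i ∈ Finset.range (J + 1), |c i|, Finset.sum_nonneg fun i _ => abs_nonneg _,
    fun j hj x => (hc j x).trans ((le_abs_self _).trans ?_)⟩
  exact Finset.single_le_sum (f := fun i => |c i|) (fun i _ => abs_nonneg (c i))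
    (Finset.mem_range.2 (Nat.lt_succ_of_le hj))

theorem le_sumA {A : ℕ → ℝ} {J i : ℕ} (hi : i ≤ J) :
    |A i| ≤ ∑ i ∈ Finset.range (J + 1), |A i| :=
  Finset.single_le_sum (f := fun i => |A i|) (fun i _ => abs_nonneg (A i))
    (Finset.mem_range.2 (Nat.lt_succ_of_le hi))

section amp

variable {k m n : ℕ}

theorem Sy.csmul {P F : Type*} [NormedAddCommGroup P] [NormedSpace ℝ P] [NormedAddCommGroup F]
    [NormedSpace ℝ F] {J : ℕ} {K r : ℝ} (hr : 0 < r) {f : P → F} (hf : Sy J K r f) (c : ℝ) :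
    Sy J (|c| * K) r (fun z => c • f z) :=
  hf.clm hr (c • ContinuousLinearMap.id ℝ F) (by
    rw [norm_smul, Real.norm_eq_abs]
    exact mul_le_of_le_one_right (abs_nonneg c) ContinuousLinearMap.norm_id_le)

/-- A fixed function of a difference over `r`. -/
theorem sy_dif {P G : Type*} [NormedAddCommGroup P] [NormedSpace ℝ P] [NormedAddCommGroup G]
    [NormedSpace ℝ G] {J : ℕ} {K r : ℝ} (hr : 0 < r) {U : P → G} (hU : ContDiff ℝ J U)
    (hUK : ∀ j ≤ J, ∀ y, ‖iteratedFDeriv ℝ j U y‖ ≤ K) {a : E m → P} {q : P} {L : E m →L[ℝ] P}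
    (hL : ‖L‖ ≤ 1) (ha : ∀ z, a z = q + L z) : Sy J K r (fun z => U (r⁻¹ • a z)) := by
  have h1 : (fun z => U (r⁻¹ • a z)) = fun z => U (r⁻¹ • q + (r⁻¹ • L) z) := by
    funext z
    rw [ha z, smul_add, smul_apply]
  rw [h1]
  refine sy_aff hr hU hUK _ _ ?_
  rw [norm_smul, Real.norm_eq_abs, abs_of_pos (inv_pos.2 hr)]
  exact mul_le_of_le_one_right (inv_pos.2 hr).le hL

/-- The amplitude `AA`. -/
theorem syAA (J : ℕ) (Ct KV KU κ' : ℝ) : ∃ K : ℝ, ∀ (X : E k × E m → E n) (th : E m → ℝ) (r : ℝ)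
    (w : E n) (p a b : E m → E k × E m), 0 < r → ContDiff ℝ J th →
    (∀ i ≤ J, ∀ y, ‖iteratedFDeriv ℝ i th y‖ ≤ Ct) →
    Sy J KV r (fun z => Vw X w (p z)) → Sy J KV r (fun z => fderiv ℝ (Vw X w) (p z)) →
    Sy J KU r (fun z => Ub (r⁻¹ • a z)) → Sy J KU r (fun z => Ub (r⁻¹ • b z)) →
    Sy J K r (fun z => AA X th κ' r w (p z) (a z) (b z)) :=
  ⟨_, fun X th r w p a b hr hth hC h1 h2 h3 h4 =>
    Sy.mulR hr (Sy.mulR hr ((h1.csmul hr κ'⁻¹).comp hr hth hC)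
      (((Sy.bil hr (ContinuousLinearMap.id ℝ (E k × E m →L[ℝ] E m))
        ContinuousLinearMap.norm_id_le h2 h3).csmul hr κ'⁻¹).comp hr hth hC))
      (((Sy.bil hr (ContinuousLinearMap.id ℝ (E k × E m →L[ℝ] E m))
        ContinuousLinearMap.norm_id_le h2 h4).csmul hr κ'⁻¹).comp hr hth hC)⟩

/-- The amplitude `ZZ`. -/
theorem syZZ (J : ℕ) (Ct KV c0 : ℝ) (hKV : 0 ≤ KV) (hc0 : 0 < c0) : ∃ K : ℝ,
    ∀ (X : E k × E m → E n) (th : E m → ℝ) (r : ℝ) (w : E n) (t : E k), 0 < r → r ≤ 1 →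
    ContDiff ℝ J th → (∀ i ≤ J, ∀ y, ‖iteratedFDeriv ℝ i th y‖ ≤ Ct) →
    ContDiff ℝ J (fun z => Vw X w (t, z)) →
    (∀ i ≤ J, ∀ z, ‖iteratedFDeriv ℝ i (fun z => Vw X w (t, z)) z‖ ≤ KV) →
    Sy J K r (fun z => ZZ X th c0 r w (t, z)) := by
  refine ⟨J.factorial * Ct * (1 + c0⁻¹ * KV) ^ J, fun X th r w t hr hr1 hth hC hV hVK => ?_⟩
  have hK : 1 ≤ 1 + c0⁻¹ * KV := by
    have : 0 ≤ c0⁻¹ * KV := by positivity
    linarith
  refine sy_comp (f := fun z => (c0 * r)⁻¹ • Vw X w (t, z)) hK hr hth hC (hV.const_smul _)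
    fun j h1 hj z => ?_
  have h2 : iteratedFDeriv ℝ j (fun z => (c0 * r)⁻¹ • Vw X w (t, z)) z =
      (c0 * r)⁻¹ • iteratedFDeriv ℝ j (fun z => Vw X w (t, z)) z :=
    iteratedFDeriv_const_smul_apply (a := (c0 * r)⁻¹) (f := fun z => Vw X w (t, z)) (x := z)
      (hV.of_le (by exact_mod_cast hj)).contDiffAt
  rw [h2, norm_smul, Real.norm_eq_abs, abs_of_pos (by positivity)]
  calc (c0 * r)⁻¹ * ‖iteratedFDeriv ℝ j (fun z => Vw X w (t, z)) z‖ ≤ (c0 * r)⁻¹ * KV :=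
        mul_le_mul_of_nonneg_left (hVK j hj z) (by positivity)
    _ = c0⁻¹ * KV * r⁻¹ := by
        rw [mul_inv]
        ring
    _ ≤ (1 + c0⁻¹ * KV) * (r ^ j)⁻¹ := by
        refine mul_le_mul (by linarith) ?_ (by positivity) (by linarith)
        refine inv_anti₀ (by positivity) ?_
        exact pow_le_of_le_one hr.le hr1 (by omega)

/-- The product of the densities. -/
theorem syB (m J : ℕ) (KB : ℝ) : ∃ K : ℝ, ∀ (r : ℝ) (f1 f2 f3 f4 : E m → ℂ), 0 < r →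
    Sy J KB r f1 → Sy J KB r f2 → Sy J KB r f3 → Sy J KB r f4 →
    Sy J K r (fun z => f1 z * f2 z * (conj (f3 z) * conj (f4 z))) :=
  ⟨_, fun r f1 f2 f3 f4 hr h1 h2 h3 h4 => Sy.mulC hr (Sy.mulC hr h1 h2)
    (Sy.mulC hr (h3.clm hr (Complex.conjCLE : ℂ →L[ℝ] ℂ) Complex.conjCLE_norm.le)
      (h4.clm hr (Complex.conjCLE : ℂ →L[ℝ] ℂ) Complex.conjCLE_norm.le))⟩

end amp

section fin

variable {k m n : ℕ}

theorem sy_dm {G : Type*} [NormedAddCommGroup G] [NormedSpace ℝ G] {J : ℕ} {K r : ℝ} (hr : 0 < r)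
    {U : E k × E m → G} (hU : ContDiff ℝ J U) (hUK : ∀ j ≤ J, ∀ y, ‖iteratedFDeriv ℝ j U y‖ ≤ K)
    (t : E k) (p : E k × E m) : Sy J K r (fun z : E m => U (r⁻¹ • ((t, z) - p))) :=
  sy_dif hr hU hUK (a := fun z : E m => (t, z) - p) (q := (t, 0) - p)
    (L := ContinuousLinearMap.inr ℝ (E k) (E m)) (ContinuousLinearMap.norm_inr_le_one ℝ (E k) (E m))
    fun z => Prod.ext (show t - p.1 = t - p.1 + 0 from (add_zero _).symm)
      (show z - p.2 = 0 - p.2 + z by abel)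

theorem sy_dm' {G : Type*} [NormedAddCommGroup G] [NormedSpace ℝ G] {J : ℕ} {K r : ℝ} (hr : 0 < r)
    {U : E k × E m → G} (hU : ContDiff ℝ J U) (hUK : ∀ j ≤ J, ∀ y, ‖iteratedFDeriv ℝ j U y‖ ≤ K)
    (t : E k) (p : E k × E m) : Sy J K r (fun z : E m => U (r⁻¹ • (p - (t, z)))) :=
  sy_dif hr hU hUK (a := fun z : E m => p - (t, z)) (q := p - (t, 0))
    (L := -ContinuousLinearMap.inr ℝ (E k) (E m))
    (by rw [norm_neg]; exact ContinuousLinearMap.norm_inr_le_one ℝ (E k) (E m))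
    fun z => Prod.ext (show p.1 - t = p.1 - t + -(0 : E k) by rw [neg_zero, add_zero])
      (show p.2 - z = p.2 - 0 + -z by abel)

theorem sy_dc {G : Type*} [NormedAddCommGroup G] [NormedSpace ℝ G] {J : ℕ} {K r : ℝ} (hr : 0 < r)
    {U : E k × E m → G} (hUK : ∀ j ≤ J, ∀ y, ‖iteratedFDeriv ℝ j U y‖ ≤ K)
    (p : E k × E m) : Sy J K r (fun _ : E m => U (r⁻¹ • p)) :=
  sy_const hr (by
    have h := hUK 0 (Nat.zero_le _) (r⁻¹ • p)
    rwa [norm_iteratedFDeriv_zero] at h)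

theorem symBJ {X : E k × E m → E n} {A : ℕ → ℝ} {p0 : E k × E m} {κ : ℝ} (h : Ch X A p0 κ)
    {th : E m → ℝ} (hth : Th th) {N0 : E k × E m → ℝ} (hN : Nz N0)
    (κ' c0 : ℝ) (hc0 : 0 < c0) (δ : ℝ) (B : ℕ → ℝ) (J : ℕ) :
    ∃ K : ℝ, ∀ (b : E k × E m → ℂ), Dn p0 δ B b → ∀ (r : ℝ) (w : E n) (t : E k)
      (p1 p2 p3 p4 : E k × E m), 0 < r → r ≤ 1 → ‖w‖ ≤ 8 →
      Sy J K r (fun z => G1 X th N0 κ' c0 b r w (t, z) p2 p3 p4) ∧
      Sy J K r (fun z => G3 X th N0 κ' c0 b r w p1 p2 (t, z) p4) ∧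
      Sy J K r (fun z => G4 X th N0 κ' c0 b r w p1 p2 p3 (t, z)) := by
  obtain ⟨hths, hth0, hth1, -, hthz⟩ := hth
  obtain ⟨hNs, -, -, hN8⟩ := hN
  have hthc : HasCompactSupport th := HasCompactSupport.intro (isCompact_closedBall 0 1)
    fun x hx => hthz x (by
      rw [mem_closedBall_zero_iff, not_le] at hx
      exact hx.le)
  have hNc : HasCompactSupport N0 := HasCompactSupport.intro (isCompact_closedBall 0 8)
    fun x hx => hN8 x (by
      rw [mem_closedBall_zero_iff, not_le] at hx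
      exact hx.le)
  obtain ⟨Ct, -, hCt⟩ := cs_bdd hths hthc J
  obtain ⟨CN, -, hCN⟩ := cs_bdd hNs hNc J
  obtain ⟨KU, -, hKU⟩ := Ub_bdd k m J
  have hthJ : ContDiff ℝ J th := hths.of_le (by exact_mod_cast le_top)
  have hNJ : ContDiff ℝ J N0 := hNs.of_le (by exact_mod_cast le_top)
  have hUJ : ContDiff ℝ J (Ub : E k × E m → E k × E m) :=
    (gb_contDiff.smul contDiff_id).of_le (by exact_mod_cast le_top)
  obtain ⟨KV, hKV⟩ : ∃ KV : ℝ, KV = 8 * ∑ i ∈ Finset.range (J + 2 + 1), |A i| := ⟨_, rfl⟩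
  obtain ⟨KB, hKB⟩ : ∃ KB : ℝ, KB = ∑ i ∈ Finset.range (J + 1), |B i| := ⟨_, rfl⟩
  have hKV0 : 0 ≤ KV := by
    rw [hKV]
    exact mul_nonneg (by norm_num) (Finset.sum_nonneg fun i _ => abs_nonneg _)
  have hV : ∀ w, ContDiff ℝ ∞ (Vw X w) := Vw_contDiff h.hX
  have hVs : ∀ w : E n, ‖w‖ ≤ 8 → ∀ i ≤ J + 1, ∀ p, ‖iteratedFDeriv ℝ i (Vw X w) p‖ ≤ KV := by
    intro w hw i hi p
    refine (Vw_iter_le h.hX h.hA w i p).trans ?_
    rw [hKV]
    exact mul_le_mul hw ((le_abs_self _).trans (le_sumA (J := J + 2) (by omega)))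
      ((norm_nonneg _).trans (h.hA _ p)) (by norm_num)
  have hsl : ∀ t : E k, ContDiff ℝ ∞ fun z : E m => (t, z) := fun t =>
    contDiff_const.prodMk contDiff_id
  have hVz : ∀ (w : E n) (t : E k), ContDiff ℝ J fun z => Vw X w (t, z) := fun w t =>
    ((hV w).comp (hsl t)).of_le (by exact_mod_cast le_top)
  have hVzK : ∀ w : E n, ‖w‖ ≤ 8 → ∀ t : E k, ∀ i ≤ J, ∀ z,
      ‖iteratedFDeriv ℝ i (fun z => Vw X w (t, z)) z‖ ≤ KV := fun w hw t i hi z =>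
    (slice_iter_le (hV w) i t z).trans (hVs w hw i (by omega) _)
  have hM : ∀ w, ContDiff ℝ ∞ (fderiv ℝ (Vw X w)) := fun w => (hV w).fderiv_right (m := ∞) (by simp)
  have syV : ∀ (r : ℝ) (w : E n) (t : E k), 0 < r → r ≤ 1 → ‖w‖ ≤ 8 →
      Sy J KV r (fun z => Vw X w (t, z)) := fun r w t hr hr1 hw =>
    sy_one hr hr1 (hVz w t) (hVzK w hw t)
  have syM : ∀ (r : ℝ) (w : E n) (t : E k), 0 < r → r ≤ 1 → ‖w‖ ≤ 8 →
      Sy J KV r (fun z => fderiv ℝ (Vw X w) (t, z)) := fun r w t hr hr1 hw =>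
    sy_one hr hr1 (((hM w).comp (hsl t)).of_le (by exact_mod_cast le_top)) fun i hi z => by
      refine (slice_iter_le (hM w) i t z).trans ?_
      rw [norm_iteratedFDeriv_fderiv]
      exact hVs w hw (i + 1) (by omega) _
  have syVc : ∀ (r : ℝ) (w : E n) (p : E k × E m), 0 < r → ‖w‖ ≤ 8 →
      Sy J KV r (fun _ : E m => Vw X w p) := fun r w p hr hw => sy_const hr (by
    have h1 := hVs w hw 0 (Nat.zero_le _) p
    rwa [norm_iteratedFDeriv_zero] at h1)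
  have syMc : ∀ (r : ℝ) (w : E n) (p : E k × E m), 0 < r → ‖w‖ ≤ 8 →
      Sy J KV r (fun _ : E m => fderiv ℝ (Vw X w) p) := fun r w p hr hw => sy_const hr (by
    have h1 := hVs w hw 1 (by omega) p
    rwa [norm_iteratedFDeriv_one] at h1)
  obtain ⟨KA, hKA⟩ := syAA (k := k) (m := m) (n := n) J Ct KV KU κ'
  obtain ⟨KZ, hKZ⟩ := syZZ (k := k) (m := m) (n := n) J Ct KV c0 hKV0 hc0
  obtain ⟨KD, hKD⟩ := syB m J KB
  have hz : ∀ (r : ℝ) (w : E n) (p : E k × E m), 0 < r →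
      Sy J 1 r (fun _ : E m => ZZ X th c0 r w p) := fun r w p hr => sy_const hr (by
    rw [Real.norm_eq_abs, ZZ, abs_of_nonneg (hth0 _)]
    exact hth1 _)
  refine ⟨|2 ^ J * ((2 ^ J * ((1 + KA) * (1 + KZ))) * (2 ^ J * ((2 ^ J * ((1 + CN) * (1 + CN))) *
      KD)))| +
    |2 ^ J * ((2 ^ J * ((2 ^ J * ((1 + KA) * 1)) * (1 + KZ))) * (2 ^ J * ((2 ^ J * ((1 + CN) *
      (1 + CN))) * KD)))| +
    |2 ^ J * ((2 ^ J * ((2 ^ J * ((2 ^ J * ((1 + KA) * 1)) * 1)) * (1 + KZ))) * (2 ^ J * ((2 ^ J *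
      ((1 + CN) * (1 + CN))) * KD)))|, ?_⟩
  intro b hb r w t p1 p2 p3 p4 hr hr1 hw
  obtain ⟨-, hbs, hbB, -⟩ := hb
  have hbt : Sy J KB r (fun z => b (t, z)) :=
    sy_one hr hr1 ((hbs t).of_le (by exact_mod_cast le_top)) fun j hj z =>
      (hbB t j z).trans ((le_abs_self _).trans ((le_sumA hj).trans hKB.symm.le))
  have hbc : ∀ p : E k × E m, Sy J KB r (fun _ : E m => b p) := fun p => sy_const hr (by
    have h1 := hbB p.1 0 p.2
    rw [norm_iteratedFDeriv_zero] at h1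
    exact h1.trans ((le_abs_self _).trans ((le_sumA (Nat.zero_le J)).trans hKB.symm.le)))
  have hUK : ∀ j ≤ J, ∀ y : E k × E m, ‖iteratedFDeriv ℝ j Ub y‖ ≤ KU := hKU
  have hZt := hKZ X th r w t hr hr1 hthJ hCt (hVz w t) (hVzK w hw t)
  refine ⟨?_, ?_, ?_⟩
  · have hA1 := hKA X th r w (fun z => (t, z)) (fun z => (t, z) - p3) (fun z => (t, z) - p4) hr
      hthJ hCt (syV r w t hr hr1 hw) (syM r w t hr hr1 hw) (sy_dm hr hUJ hUK t p3)
      (sy_dm hr hUJ hUK t p4)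
    have hG := Sy.mulC hr (Sy.ofReal hr (Sy.mulR hr (Sy.one_sub hr hA1) (Sy.one_sub hr hZt)))
      (Sy.mulC hr (Sy.ofReal hr (Sy.mulR hr (Sy.one_sub hr (sy_dm hr hNJ hCN t p3))
        (Sy.one_sub hr (sy_dm hr hNJ hCN t p4)))) (hKD r _ _ _ _ hr hbt (hbc p2) (hbc p3) (hbc p4)))
    refine Sy.mono hr hG ?_
    refine (le_abs_self _).trans ?_
    rw [add_assoc]
    exact le_add_of_nonneg_right (by positivity)
  · have hA1 := hKA X th r w (fun _ => p1) (fun z => p1 - (t, z)) (fun _ => p1 - p4) hr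
      hthJ hCt (syVc r w p1 hr hw) (syMc r w p1 hr hw) (sy_dm' hr hUJ hUK t p1)
      (sy_dc hr hUK (p1 - p4))
    have hG := Sy.mulC hr (Sy.ofReal hr (Sy.mulR hr (Sy.mulR hr (Sy.one_sub hr hA1) (hz r w p1 hr))
      (Sy.one_sub hr hZt)))
      (Sy.mulC hr (Sy.ofReal hr (Sy.mulR hr (Sy.one_sub hr (sy_dm' hr hNJ hCN t p1))
        (Sy.one_sub hr (sy_dc hr hCN (p1 - p4)))))
        (hKD r _ _ _ _ hr (hbc p1) (hbc p2) hbt (hbc p4)))
    refine Sy.mono hr hG ?_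
    refine (le_abs_self _).trans ?_
    rw [add_comm (|_|) (|2 ^ J * ((2 ^ J * ((2 ^ J * ((1 + KA) * 1)) * (1 + KZ))) * _)|), add_assoc]
    exact le_add_of_nonneg_right (by positivity)
  · have hA1 := hKA X th r w (fun _ => p1) (fun _ => p1 - p3) (fun z => p1 - (t, z)) hr
      hthJ hCt (syVc r w p1 hr hw) (syMc r w p1 hr hw) (sy_dc hr hUK (p1 - p3))
      (sy_dm' hr hUJ hUK t p1)
    have hG := Sy.mulC hr (Sy.ofReal hr (Sy.mulR hr (Sy.mulR hr (Sy.mulR hr (Sy.one_sub hr hA1)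
      (hz r w p1 hr)) (hz r w p3 hr)) (Sy.one_sub hr hZt)))
      (Sy.mulC hr (Sy.ofReal hr (Sy.mulR hr (Sy.one_sub hr (sy_dc hr hCN (p1 - p3)))
        (Sy.one_sub hr (sy_dm' hr hNJ hCN t p1))))
        (hKD r _ _ _ _ hr (hbc p1) (hbc p2) (hbc p3) hbt))
    refine Sy.mono hr hG ?_
    refine (le_abs_self _).trans ?_
    exact le_add_of_nonneg_left (by positivity)

end fin

end S3

variable {k m n : ℕ}

/-- ROW F3. The amplitudes `G1`, `G3`, `G4` in one variable: scale `r`. -/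
theorem symB {X : E k × E m → E n} {A : ℕ → ℝ} {p0 : E k × E m} {κ : ℝ} (h : Ch X A p0 κ)
    {th : E m → ℝ} (hth : Th th) {N0 : E k × E m → ℝ} (hN : Nz N0)
    (κ' c0 : ℝ) (hκ' : 0 < κ') (hc0 : 0 < c0) (δ : ℝ) (B : ℕ → ℝ) :
    ∃ D : ℕ → ℝ, ∀ (b : E k × E m → ℂ), Dn p0 δ B b → ∀ (r : ℝ) (w : E n) (t : E k)
      (p1 p2 p3 p4 : E k × E m), 0 < r → r ≤ 1 → ‖w‖ ≤ 8 →
      (ContDiff ℝ ∞ (fun z => G1 X th N0 κ' c0 b r w (t, z) p2 p3 p4) ∧
      ∀ j z, ‖iteratedFDeriv ℝ j (fun z => G1 X th N0 κ' c0 b r w (t, z) p2 p3 p4) z‖ ≤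
        D j * (r ^ j)⁻¹) ∧
      (ContDiff ℝ ∞ (fun z => G3 X th N0 κ' c0 b r w p1 p2 (t, z) p4) ∧
      ∀ j z, ‖iteratedFDeriv ℝ j (fun z => G3 X th N0 κ' c0 b r w p1 p2 (t, z) p4) z‖ ≤
        D j * (r ^ j)⁻¹) ∧
      (ContDiff ℝ ∞ (fun z => G4 X th N0 κ' c0 b r w p1 p2 p3 (t, z)) ∧
      ∀ j z, ‖iteratedFDeriv ℝ j (fun z => G4 X th N0 κ' c0 b r w p1 p2 p3 (t, z)) z‖ ≤
        D j * (r ^ j)⁻¹) := by
  choose D hD using S3.symBJ h hth hN κ' c0 hc0 δ B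
  refine ⟨D, fun b hb r w t p1 p2 p3 p4 hr hr1 hw => ?_⟩
  have H := fun J => hD J b hb r w t p1 p2 p3 p4 hr hr1 hw
  exact ⟨⟨contDiff_infty.2 fun J => (H J).1.1, fun j z => (H j).1.2 j le_rfl z⟩,
    ⟨contDiff_infty.2 fun J => (H J).2.1.1, fun j z => (H j).2.1.2 j le_rfl z⟩,
    ⟨contDiff_infty.2 fun J => (H J).2.2.1, fun j z => (H j).2.2.2 j le_rfl z⟩⟩

end Pool.Agent.LFK.FR
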