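import Pool.Agent.LFK.FR1
import Pool.Agent.LFK.FR2

/-!
LEAFK, the far part, row F6: the cut-off functions are continuous, with values in `[0, 1]`, and the
splitting of the amplitude.
-/

set_option autoImplicit false
set_option maxSynthPendingDepth 3

namespace Pool.Agent.LFK.FR

open MeasureTheory Set Filter Topology Metric Pool.Agent.MP_6cbfb8_an
open scoped ENNReal Real RealInnerProductSpace ContDiff ComplexConjugate

variable {k m n : ℕ}

theorem vw_joint {X : E k × E m → E n} (hX : ContDiff ℝ ∞ X) {α : Type*} [TopologicalSpace α]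
    {f : α → E n} {g : α → E k × E m} (hf : Continuous f) (hg : Continuous g) :
    Continuous fun x => Vw X (f x) (g x) := by
  have h1 : Continuous fun p => fderiv ℝ X p := (hX.fderiv_right (m := ∞) (by simp)).continuous
  have h2 : (fun x => Vw X (f x) (g x)) =
      fun x => (LwB : E n →L[ℝ] (E k × E m →L[ℝ] E n) →L[ℝ] E m) (f x) (fderiv ℝ X (g x)) := rfl
  rw [h2]
  exact ((LwB : E n →L[ℝ] (E k × E m →L[ℝ] E n) →L[ℝ] E m).continuous.comp hf).clm_apply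
    (h1.comp hg)

theorem mw_joint {X : E k × E m → E n} (hX : ContDiff ℝ ∞ X) {α : Type*} [TopologicalSpace α]
    {f : α → E n} {g h : α → E k × E m} (hf : Continuous f) (hg : Continuous g)
    (hh : Continuous h) : Continuous fun x => fderiv ℝ (Vw X (f x)) (g x) (h x) := by
  have h1 : Continuous fun p => fderiv ℝ (fderiv ℝ X) p :=
    ((hX.fderiv_right (m := ∞) (by simp)).fderiv_right (m := ∞) (by simp)).continuous
  have h2 : (fun x => fderiv ℝ (Vw X (f x)) (g x) (h x)) =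
      fun x => (LwB : E n →L[ℝ] (E k × E m →L[ℝ] E n) →L[ℝ] E m) (f x)
        (fderiv ℝ (fderiv ℝ X) (g x) (h x)) := by
    funext x
    rw [fderiv_Vw hX]
    rfl
  rw [h2]
  exact ((LwB : E n →L[ℝ] (E k × E m →L[ℝ] E n) →L[ℝ] E m).continuous.comp hf).clm_apply
    ((h1.comp hg).clm_apply hh)

theorem ub_cont : Continuous (Ub : E k × E m → E k × E m) := by
  have h0 : Continuous fun x : E k × E m => 1 + ‖x.1‖ ^ 2 + ‖x.2‖ ^ 2 := by fun_prop
  have h1 : Continuous fun x : E k × E m => √(1 + ‖x.1‖ ^ 2 + ‖x.2‖ ^ 2) :=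
    Real.continuous_sqrt.comp h0
  have h2 : Continuous fun x : E k × E m => (√(1 + ‖x.1‖ ^ 2 + ‖x.2‖ ^ 2))⁻¹ :=
    h1.inv₀ fun x => (Real.sqrt_pos.2 (by positivity)).ne'
  exact h2.smul continuous_id

theorem aa_cont {X : E k × E m → E n} (hX : ContDiff ℝ ∞ X) {th : E m → ℝ} (hth : Th th)
    (κ' r : ℝ) : Continuous fun x : E n × (E k × E m) × (E k × E m) × (E k × E m) =>
      AA X th κ' r x.1 x.2.1 x.2.2.1 x.2.2.2 := by
  have hθ := hth.1.continuous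
  have g0 : Continuous fun x : E n × (E k × E m) × (E k × E m) × (E k × E m) => x.1 :=
    continuous_fst
  have g1 : Continuous fun x : E n × (E k × E m) × (E k × E m) × (E k × E m) => x.2.1 :=
    continuous_fst.comp continuous_snd
  have g2 : Continuous fun x : E n × (E k × E m) × (E k × E m) × (E k × E m) =>
      r⁻¹ • x.2.2.1 :=
    (continuous_const_smul r⁻¹).comp (continuous_fst.comp (continuous_snd.comp continuous_snd))
  have g3 : Continuous fun x : E n × (E k × E m) × (E k × E m) × (E k × E m) =>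
      r⁻¹ • x.2.2.2 :=
    (continuous_const_smul r⁻¹).comp (continuous_snd.comp (continuous_snd.comp continuous_snd))
  have e1 := vw_joint hX g0 g1
  have e2 := mw_joint hX g0 g1 (ub_cont.comp g2)
  have e3 := mw_joint hX g0 g1 (ub_cont.comp g3)
  have f1 : Continuous fun x : E n × (E k × E m) × (E k × E m) × (E k × E m) =>
      κ'⁻¹ • Vw X x.1 x.2.1 := (continuous_const_smul κ'⁻¹).comp e1
  have f2 : Continuous fun x : E n × (E k × E m) × (E k × E m) × (E k × E m) =>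
      κ'⁻¹ • fderiv ℝ (Vw X x.1) x.2.1 (Ub (r⁻¹ • x.2.2.1)) :=
    (continuous_const_smul κ'⁻¹).comp e2
  have f3 : Continuous fun x : E n × (E k × E m) × (E k × E m) × (E k × E m) =>
      κ'⁻¹ • fderiv ℝ (Vw X x.1) x.2.1 (Ub (r⁻¹ • x.2.2.2)) :=
    (continuous_const_smul κ'⁻¹).comp e3
  exact ((hθ.comp f1).mul (hθ.comp f2)).mul (hθ.comp f3)

theorem zz_cont {X : E k × E m → E n} (hX : ContDiff ℝ ∞ X) {th : E m → ℝ} (hth : Th th)
    (c0 r : ℝ) : Continuous fun x : E n × (E k × E m) => ZZ X th c0 r x.1 x.2 := by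
  have h1 := vw_joint hX (continuous_fst : Continuous fun x : E n × (E k × E m) => x.1)
    continuous_snd
  have h2 : Continuous fun x : E n × (E k × E m) => (c0 * r)⁻¹ • Vw X x.1 x.2 :=
    (continuous_const_smul (c0 * r)⁻¹).comp h1
  exact hth.1.continuous.comp h2

theorem aa_mem (X : E k × E m → E n) {th : E m → ℝ} (hth : Th th) (κ' r : ℝ) (w : E n)
    (p a b : E k × E m) : 0 ≤ AA X th κ' r w p a b ∧ AA X th κ' r w p a b ≤ 1 := by
  obtain ⟨-, h0, h1, -, -⟩ := hth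
  unfold AA
  exact ⟨mul_nonneg (mul_nonneg (h0 _) (h0 _)) (h0 _),
    mul_le_one₀ (mul_le_one₀ (h1 _) (h0 _) (h1 _)) (h0 _) (h1 _)⟩

theorem zz_mem (X : E k × E m → E n) {th : E m → ℝ} (hth : Th th) (c0 r : ℝ) (w : E n)
    (p : E k × E m) : 0 ≤ ZZ X th c0 r w p ∧ ZZ X th c0 r w p ≤ 1 := by
  obtain ⟨-, h0, h1, -, -⟩ := hth
  exact ⟨h0 _, h1 _⟩

theorem zz_small {X : E k × E m → E n} {th : E m → ℝ} (hth : Th th) {c0 r : ℝ} (hc0 : 0 < c0)
    (hr : 0 < r) {w : E n} {p : E k × E m} (h : ZZ X th c0 r w p ≠ 0) :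
    ‖Vw X w p‖ ≤ c0 * r := by
  by_contra hc
  refine h (hth.2.2.2.2 _ ?_)
  have h1 : 0 < c0 * r := by positivity
  rw [norm_smul, norm_inv, Real.norm_of_nonneg h1.le, ← div_eq_inv_mul, le_div_iff₀ h1, one_mul]
  exact (not_le.1 hc).le

theorem nf_far {N0 : E k × E m → ℝ} (hN : Nz N0) {r : ℝ} (hr : 0 < r) {a : E k × E m}
    (h : 1 - N0 (r⁻¹ • a) ≠ 0) : r ≤ ‖a‖ := by
  by_contra hc
  refine h ?_
  rw [hN.2.2.1 _ ?_, sub_self]
  rw [norm_smul, norm_inv, Real.norm_of_nonneg hr.le, ← div_eq_inv_mul, div_le_one hr]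
  exact (not_le.1 hc).le

theorem split {X : E k × E m → E n} {A : ℕ → ℝ} {p0 : E k × E m} {κ : ℝ} (h : Ch X A p0 κ)
    {th : E m → ℝ} (hth : Th th) {η : E n → ℝ} (hη : Et η) {N0 : E k × E m → ℝ} (hN : Nz N0)
    (κ' : ℝ) (hκ' : 0 < κ') : ∃ δ1 c0 : ℝ, 0 < δ1 ∧ 0 < c0 ∧ ∀ δ : ℝ, 0 < δ → δ ≤ δ1 →
    ∀ (B : ℕ → ℝ) (b : E k × E m → ℂ), Dn p0 δ B b → ∀ (r : ℝ) (w : E n)
      (p1 p2 p3 p4 : E k × E m), 0 < r → r ≤ 1 →
      ((η w : ℝ) : ℂ) * Fa N0 b r p1 p2 p3 p4 =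
        ((η w : ℝ) : ℂ) * G0 X th N0 κ' b r w p1 (p1 - p3) (p1 - p4) (p1 + p2 - p3 - p4) +
        ((η w : ℝ) : ℂ) * G1 X th N0 κ' c0 b r w p1 p2 p3 p4 +
        ((η w : ℝ) : ℂ) * G3 X th N0 κ' c0 b r w p1 p2 p3 p4 +
        ((η w : ℝ) : ℂ) * G4 X th N0 κ' c0 b r w p1 p2 p3 p4 := by
  obtain ⟨δ1, c0, hδ1, hc0, hg⟩ := geo0 h hth κ' hκ'
  refine ⟨δ1 / 2, c0, by positivity, hc0, ?_⟩
  intro δ hδ hδδ B b hb r w p1 p2 p3 p4 hr hr1
  have hG0 : G0 X th N0 κ' b r w p1 (p1 - p3) (p1 - p4) (p1 + p2 - p3 - p4) =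
      ((AA X th κ' r w p1 (p1 - p3) (p1 - p4) : ℝ) : ℂ) * Fa N0 b r p1 p2 p3 p4 := by
    unfold G0 Fa
    have e2 : p1 - (p1 - p3) - (p1 - p4) + (p1 + p2 - p3 - p4) = p2 := by abel
    rw [e2, sub_sub_cancel, sub_sub_cancel]
    push_cast
    ring
  have key : ((η w : ℝ) : ℂ) * Fa N0 b r p1 p2 p3 p4 *
      (((1 - AA X th κ' r w p1 (p1 - p3) (p1 - p4)) * (ZZ X th c0 r w p1 * ZZ X th c0 r w p3 *
        ZZ X th c0 r w p4) : ℝ) : ℂ) = 0 := by
    by_contra hne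
    have hη0 : η w ≠ 0 := by
      intro h0
      exact hne (by simp [h0])
    have hF0 : Fa N0 b r p1 p2 p3 p4 ≠ 0 := by
      intro h0
      exact hne (by simp [h0])
    have hz0 : (1 - AA X th κ' r w p1 (p1 - p3) (p1 - p4)) * (ZZ X th c0 r w p1 *
        ZZ X th c0 r w p3 * ZZ X th c0 r w p4) ≠ 0 := by
      intro h0
      exact hne (by rw [h0]; simp)
    have hw8 : ‖w‖ ≤ 8 := by linarith [(hη.2.2.2.2 w hη0).2]
    have hz1 : ZZ X th c0 r w p1 ≠ 0 := by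
      intro h0
      exact hz0 (by rw [h0]; ring)
    have hz3 : ZZ X th c0 r w p3 ≠ 0 := by
      intro h0
      exact hz0 (by rw [h0]; ring)
    have hz4 : ZZ X th c0 r w p4 ≠ 0 := by
      intro h0
      exact hz0 (by rw [h0]; ring)
    have hn3 : 1 - N0 (r⁻¹ • (p1 - p3)) ≠ 0 := by
      intro h0
      exact hF0 (by unfold Fa Nf; rw [h0]; simp)
    have hn4 : 1 - N0 (r⁻¹ • (p1 - p4)) ≠ 0 := by
      intro h0
      exact hF0 (by unfold Fa Nf; rw [h0]; simp)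
    have hb1 : ‖p1 - p0‖ < δ := by
      by_contra hc
      exact hF0 (by unfold Fa Bf; rw [hb.2.2.2 p1 (not_lt.1 hc)]; simp)
    have hb3 : ‖p3 - p0‖ < δ := by
      by_contra hc
      exact hF0 (by unfold Fa Bf; rw [hb.2.2.2 p3 (not_lt.1 hc)]; simp)
    have hb4 : ‖p4 - p0‖ < δ := by
      by_contra hc
      exact hF0 (by unfold Fa Bf; rw [hb.2.2.2 p4 (not_lt.1 hc)]; simp)
    have hd : ∀ q : E k × E m, ‖q - p0‖ < δ → ‖p1 - q‖ ≤ δ1 := by
      intro q hq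
      have h1 : p1 - q = (p1 - p0) - (q - p0) := by abel
      rw [h1]
      linarith [norm_sub_le (p1 - p0) (q - p0)]
    have h1 := hg w r p1 p3 p4 hr hr1 hw8 (hd p3 hb3) (hd p4 hb4) (nf_far hN hr hn3)
      (nf_far hN hr hn4) (zz_small hth hc0 hr hz1) (zz_small hth hc0 hr hz3)
      (zz_small hth hc0 hr hz4)
    exact hz0 (by rw [h1]; ring)
  rw [hG0]
  unfold G1 G3 G4
  push_cast at key ⊢
  linear_combination key

end Pool.Agent.LFK.FR
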