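import Pool.Agent.LFK.FR6a
import Pool.Agent.LFK.NICE

/-!
[LEAFK] Row F6: the reduction of the far part and bounds of iterated integrals.
-/

set_option autoImplicit false

namespace Pool.Agent.LFK.FR

open MeasureTheory Set Filter Topology Pool.Agent.MP_6cbfb8_an
open scoped ENNReal Real RealInnerProductSpace ContDiff ComplexConjugate

section bounds

variable {α β γ : Type*} [NormedAddCommGroup α] [NormedSpace ℝ α] [MeasureSpace α] [Leb α]
  [NormedAddCommGroup β] [NormedSpace ℝ β] [MeasureSpace β] [Leb β]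
  [NormedAddCommGroup γ] [NormedSpace ℝ γ] [MeasureSpace γ] [Leb γ]

/-- The volume of a ball. -/
noncomputable def vb (α : Type*) [NormedAddCommGroup α] [MeasureSpace α] (ρ : ℝ) : ℝ :=
  (volume : Measure α).real (Metric.closedBall 0 ρ)

theorem vb_nonneg (α : Type*) [NormedAddCommGroup α] [MeasureSpace α] (ρ : ℝ) : 0 ≤ vb α ρ :=
  measureReal_nonneg

theorem bnd_left {f : α × β → ℂ} (h : Nice f) {M ρ : ℝ} (hM : ∀ a, ‖∫ b, f (a, b)‖ ≤ M)
    (hρ : ∀ x, ρ < ‖x‖ → f x = 0) : ‖∫ x, f x‖ ≤ M * vb α ρ := by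
  rw [h.integral_prod]
  refine norm_int_le hM fun a ha => ?_
  have h1 : ∀ b, f (a, b) = 0 := fun b => hρ _ (ha.trans_le (norm_fst_le (a, b)))
  simp [h1]

theorem bnd_right {f : α × β → ℂ} (h : Nice f) {M ρ : ℝ} (hM : ∀ b, ‖∫ a, f (a, b)‖ ≤ M)
    (hρ : ∀ x, ρ < ‖x‖ → f x = 0) : ‖∫ x, f x‖ ≤ M * vb β ρ := by
  rw [h.integral_prod']
  refine norm_int_le hM fun b hb => ?_
  have h1 : ∀ a, f (a, b) = 0 := fun a => hρ _ (hb.trans_le (norm_snd_le (a, b)))
  simp [h1]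

end bounds

variable {k m n : ℕ}

theorem ex_norm (X : E k × E m → E n) (ξ : E n) (p : E k × E m) : ‖ex X ξ p‖ = 1 :=
  Complex.norm_exp_ofReal_mul_I _

theorem Ex_norm (X : E k × E m → E n) (ξ : E n) (p1 p2 p3 p4 : E k × E m) :
    ‖Ex X ξ p1 p2 p3 p4‖ = 1 :=
  Complex.norm_exp_ofReal_mul_I _

theorem conj_ex (X : E k × E m → E n) (ξ : E n) (p : E k × E m) :
    conj (ex X ξ p) = Complex.exp (((⟪ξ, X p⟫ : ℝ) : ℂ) * Complex.I) := by
  rw [ex, ← Complex.exp_conj]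
  congr 1
  simp

theorem Ex_eq (X : E k × E m → E n) (ξ : E n) (p1 p2 p3 p4 : E k × E m) :
    Ex X ξ p1 p2 p3 p4 = ex X ξ p1 * ex X ξ p2 * (conj (ex X ξ p3) * conj (ex X ξ p4)) := by
  rw [conj_ex, conj_ex, ex, ex, Ex, ← Complex.exp_add, ← Complex.exp_add, ← Complex.exp_add]
  congr 1
  rw [inner_sub_right, inner_sub_right, inner_add_right]
  push_cast
  ring

theorem ex_meas {X : E k × E m → E n} (hX : Continuous X) (ξ : E n) :
    Measurable (ex X ξ) := by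
  unfold ex
  refine Continuous.measurable ?_
  fun_prop

/-- The space of the variables `((w, p1), (p2, (p3, p4)))`. -/
abbrev Om (k m n : ℕ) := (E n × (E k × E m)) × ((E k × E m) × ((E k × E m) × (E k × E m)))

noncomputable instance instMSOm (k m n : ℕ) : MeasureSpace (Om k m n) := Measure.prod.measureSpace

/-- The integrand with the real factor `K`. -/
noncomputable def Kf (η : E n → ℝ) (b : E k × E m → ℂ) (X : E k × E m → E n) (R : ℝ)
    (K : Om k m n → ℝ) (x : Om k m n) : ℂ :=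
  ((η x.1.1 : ℝ) : ℂ) * (((K x : ℝ) : ℂ) * Bf b x.1.2 x.2.1 x.2.2.1 x.2.2.2) *
    Ex X (R • x.1.1) x.1.2 x.2.1 x.2.2.1 x.2.2.2

theorem dn_bound {p0 : E k × E m} {δ : ℝ} {B : ℕ → ℝ} {b : E k × E m → ℂ} (hb : Dn p0 δ B b)
    (p : E k × E m) : ‖b p‖ ≤ B 0 := by
  have h := hb.2.2.1 p.1 0 p.2
  rwa [norm_iteratedFDeriv_zero] at h

theorem dn_zero {p0 : E k × E m} {δ : ℝ} {B : ℕ → ℝ} {b : E k × E m → ℂ} (hb : Dn p0 δ B b)
    {ρ : ℝ} (hρ : ‖p0‖ + δ ≤ ρ) {p : E k × E m} (hp : ρ < ‖p‖) : b p = 0 := by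
  refine hb.2.2.2 p ?_
  have h1 : ‖p‖ ≤ ‖p - p0‖ + ‖p0‖ := by
    calc ‖p‖ = ‖(p - p0) + p0‖ := by rw [sub_add_cancel]
      _ ≤ _ := norm_add_le _ _
  linarith

theorem kf_zero {η : E n → ℝ} (hη : Et η) {p0 : E k × E m} {δ : ℝ} {B : ℕ → ℝ}
    {b : E k × E m → ℂ} (hb : Dn p0 δ B b) (X : E k × E m → E n) (R : ℝ) (K : Om k m n → ℝ)
    {ρ : ℝ} (hρ : ‖p0‖ + δ ≤ ρ) (hρ4 : 4 ≤ ρ) (x : Om k m n) (hx : ρ < ‖x‖) :
    Kf η b X R K x = 0 := by
  obtain ⟨⟨w, p1⟩, p2, p3, p4⟩ := x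
  simp only [Prod.norm_def, lt_max_iff] at hx
  unfold Kf Bf
  have hb0 : ∀ p : E k × E m, (ρ < ‖p.1‖ ∨ ρ < ‖p.2‖) → b p = 0 := fun p hp =>
    dn_zero hb hρ (by rw [Prod.norm_def]; exact lt_max_iff.2 hp)
  rcases hx with (h | h) | h | h | h
  · have h1 : η w = 0 := by
      by_contra hc
      exact absurd (hη.2.2.2.2 w hc).2 (by linarith [hρ4.trans_lt h])
    simp only [h1]
    simp
  · simp only [hb0 p1 h]
    simp
  · simp only [hb0 p2 h]
    simp
  · simp only [hb0 p3 h]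
    simp
  · simp only [hb0 p4 h]
    simp

theorem kf_nice {η : E n → ℝ} (hη : Et η) {p0 : E k × E m} {δ : ℝ} {B : ℕ → ℝ}
    {b : E k × E m → ℂ} (hb : Dn p0 δ B b) {X : E k × E m → E n} (hX : Continuous X) (R : ℝ)
    {K : Om k m n → ℝ} (hK : Measurable K) {c : ℝ} (hc : ∀ x, |K x| ≤ c) :
    Nice (Kf η b X R K) := by
  refine ⟨?_, c * (B 0 * B 0 * (B 0 * B 0)), max 4 (‖p0‖ + δ), fun x => ?_, fun x hx =>
    kf_zero hη hb X R K (le_max_right _ _) (le_max_left _ _) x hx⟩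
  · have hbm := hb.1
    have h1 : Measurable fun x : Om k m n => ((η x.1.1 : ℝ) : ℂ) :=
      Complex.measurable_ofReal.comp (hη.1.continuous.measurable.comp measurable_fst.fst)
    have h2 : Measurable fun x : Om k m n => ((K x : ℝ) : ℂ) := Complex.measurable_ofReal.comp hK
    have h3 : Measurable fun x : Om k m n => Bf b x.1.2 x.2.1 x.2.2.1 x.2.2.2 := by
      unfold Bf
      exact ((hbm.comp measurable_fst.snd).mul (hbm.comp measurable_snd.fst)).mul
        ((Complex.continuous_conj.measurable.comp (hbm.comp measurable_snd.snd.fst)).mul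
          (Complex.continuous_conj.measurable.comp (hbm.comp measurable_snd.snd.snd)))
    have h4 : Measurable fun x : Om k m n =>
        Ex X (R • x.1.1) x.1.2 x.2.1 x.2.2.1 x.2.2.2 := by
      unfold Ex
      refine Continuous.measurable ?_
      fun_prop
    exact (h1.mul (h2.mul h3)).mul h4
  · unfold Kf Bf
    rw [norm_mul, Ex_norm, mul_one, norm_mul, norm_mul, norm_mul, norm_mul, norm_mul,
      RCLike.norm_conj, RCLike.norm_conj, Complex.norm_real, Complex.norm_real]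
    have h1 : ‖η x.1.1‖ ≤ 1 := by
      rw [Real.norm_of_nonneg (hη.2.1 _)]
      exact hη.2.2.1 _
    have h2 : ‖K x‖ ≤ c := hc x
    have h3 : 0 ≤ c := (norm_nonneg _).trans h2
    have h4 := fun p => dn_bound hb p
    have h5 : 0 ≤ B 0 := (norm_nonneg _).trans (h4 p0)
    calc ‖η x.1.1‖ * (‖K x‖ * (‖b x.1.2‖ * ‖b x.2.1‖ * (‖b x.2.2.1‖ * ‖b x.2.2.2‖)))
        ≤ 1 * (c * (B 0 * B 0 * (B 0 * B 0))) := by
          gcongr
          all_goals exact h4 _
      _ = _ := one_mul _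

/-- The reduction of the integral. -/
theorem far_red {η : E n → ℝ} (hη : Et η) {p0 : E k × E m} {δ : ℝ} {B : ℕ → ℝ}
    {b : E k × E m → ℂ} (hb : Dn p0 δ B b) {X : E k × E m → E n} (hX : Continuous X)
    {N0 : E k × E m → ℝ} (hN : Nz N0) {R : ℝ} (hR : 0 < R) (r : ℝ) :
    ‖∫ ξ, (∫ p, b p * ex X ξ p) * (∫ p, b p * ex X ξ p *
        (∫ p', ((1 - N0 (r⁻¹ • (p - p')) : ℝ) : ℂ) * conj (b p' * ex X ξ p')) ^ 2) ∂(mu η R)‖ ≤
      R ^ n * ‖∫ x : Om k m n, Kf η b X R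
        (fun x => Nf N0 r (x.1.2 - x.2.2.1) (x.1.2 - x.2.2.2)) x‖ := by
  obtain ⟨g, hg⟩ : ∃ g : E n → ℂ, g = fun ξ => (∫ p, b p * ex X ξ p) * (∫ p, b p * ex X ξ p *
        (∫ p', ((1 - N0 (r⁻¹ • (p - p')) : ℝ) : ℂ) * conj (b p' * ex X ξ p')) ^ 2) := ⟨_, rfl⟩
  have h1 : ∫ ξ, g ξ ∂(mu η R) = (R ^ n : ℝ) • ∫ w, ((η w : ℝ) : ℂ) * g (R • w) := by
    have h2 : Measurable fun ξ : E n => ENNReal.ofReal (η (R⁻¹ • ξ)) :=
      ENNReal.measurable_ofReal.comp (hη.1.continuous.measurable.comp (measurable_const_smul _))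
    have h3 : ∫ ξ, g ξ ∂(mu η R) = ∫ ξ, (ENNReal.ofReal (η (R⁻¹ • ξ))).toReal • g ξ := by
      unfold mu
      exact integral_withDensity_eq_integral_toReal_smul h2
        (Filter.Eventually.of_forall fun _ => ENNReal.ofReal_lt_top) _
    have h4 : ∫ ξ, (ENNReal.ofReal (η (R⁻¹ • ξ))).toReal • g ξ =
        ∫ ξ, (fun w => ((η w : ℝ) : ℂ) * g (R • w)) (R⁻¹ • ξ) := by
      refine integral_congr_ae (Filter.Eventually.of_forall fun ξ => ?_)
      simp only
      rw [ENNReal.toReal_ofReal (hη.2.1 _), smul_smul, mul_inv_cancel₀ hR.ne', one_smul,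
        Complex.real_smul]
    have h4' := Measure.integral_comp_inv_smul_of_nonneg (volume : Measure (E n))
      (fun w => ((η w : ℝ) : ℂ) * g (R • w)) hR.le
    rw [finrank_euclideanSpace_fin] at h4'
    rw [h3, h4, ← h4']
  have hKm : Measurable fun x : Om k m n => Nf N0 r (x.1.2 - x.2.2.1) (x.1.2 - x.2.2.2) := by
    unfold Nf
    have := hN.1.continuous
    refine Continuous.measurable ?_
    fun_prop
  have hKb : ∀ x : Om k m n, |Nf N0 r (x.1.2 - x.2.2.1) (x.1.2 - x.2.2.2)| ≤ 2 * 2 := by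
    intro x
    unfold Nf
    rw [abs_mul]
    have h2 : ∀ y, |1 - N0 y| ≤ 2 := fun y => by
      have h3 := abs_le.1 (hN.2.1 y)
      rw [abs_le]
      constructor <;> linarith
    exact mul_le_mul (h2 _) (h2 _) (abs_nonneg _) (by norm_num)
  have hK := kf_nice hη hb hX R hKm hKb
  have h5 : ∀ w, ((η w : ℝ) : ℂ) * g (R • w) = ∫ p1, ∫ q, Kf η b X R
      (fun x => Nf N0 r (x.1.2 - x.2.2.1) (x.1.2 - x.2.2.2)) ((w, p1), q) := by
    intro w
    rw [hg]
    simp only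
    rw [← mul_assoc, ← integral_const_mul]
    refine integral_congr_ae (Filter.Eventually.of_forall fun p1 => ?_)
    simp only
    obtain ⟨f3, hf3⟩ : ∃ f3 : E k × E m → ℂ, f3 = fun p' =>
      ((1 - N0 (r⁻¹ • (p1 - p')) : ℝ) : ℂ) * conj (b p' * ex X (R • w) p') := ⟨_, rfl⟩
    have h6 : ∫ q : (E k × E m) × ((E k × E m) × (E k × E m)),
        (b q.1 * ex X (R • w) q.1) * (f3 q.2.1 * f3 q.2.2) =
        (∫ p, b p * ex X (R • w) p) * ((∫ p, f3 p) * ∫ p, f3 p) := by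
      rw [Measure.volume_eq_prod, Measure.volume_eq_prod (E k × E m) (E k × E m)]
      rw [← integral_prod_mul (μ := (volume : Measure (E k × E m)))
        (ν := (volume : Measure (E k × E m))) f3 f3, ← integral_prod_mul]
    have h7 : (∫ p', ((1 - N0 (r⁻¹ • (p1 - p')) : ℝ) : ℂ) * conj (b p' * ex X (R • w) p')) =
        ∫ p, f3 p := by rw [hf3]
    rw [h7]
    calc ((η w : ℝ) : ℂ) * (∫ p, b p * ex X (R • w) p) *
          (b p1 * ex X (R • w) p1 * (∫ p, f3 p) ^ 2)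
        = (((η w : ℝ) : ℂ) * (b p1 * ex X (R • w) p1)) *
          ((∫ p, b p * ex X (R • w) p) * ((∫ p, f3 p) * ∫ p, f3 p)) := by ring
      _ = ∫ q : (E k × E m) × ((E k × E m) × (E k × E m)),
          (((η w : ℝ) : ℂ) * (b p1 * ex X (R • w) p1)) *
            ((b q.1 * ex X (R • w) q.1) * (f3 q.2.1 * f3 q.2.2)) := by
          rw [← h6, ← integral_const_mul]
      _ = _ := by
          refine integral_congr_ae (Filter.Eventually.of_forall fun q => ?_)
          simp only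
          rw [hf3]
          unfold Kf Nf Bf
          simp only
          rw [Ex_eq, map_mul, map_mul]
          push_cast
          ring
  rw [hg] at h1
  simp only at h1
  rw [h1, norm_smul, Real.norm_of_nonneg (by positivity)]
  refine mul_le_mul_of_nonneg_left (le_of_eq ?_) (by positivity)
  congr 1
  have h8 : (∫ w, ((η w : ℝ) : ℂ) * g (R • w)) = ∫ x : Om k m n, Kf η b X R
      (fun x => Nf N0 r (x.1.2 - x.2.2.1) (x.1.2 - x.2.2.2)) x := by
    rw [hK.integral_prod]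
    simp_rw [h5]
    have h9 := hK.integrable_left
    have := leb_sf (α := E n)
    have := leb_sf (α := E k × E m)
    rw [Measure.volume_eq_prod] at h9
    conv_rhs => rw [Measure.volume_eq_prod]
    exact (MeasureTheory.integral_prod _ h9).symm
  rw [← h8, hg]

/-- Iterated integrals. -/
theorem om_iter {f : Om k m n → ℂ} (h : Nice f) : ∫ x, f x =
    ∫ w : E n, ∫ p1 : E k × E m, ∫ p2 : E k × E m, ∫ p3 : E k × E m, ∫ p4 : E k × E m,
      f ((w, p1), (p2, (p3, p4))) := by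
  rw [h.integral_prod]
  have h9 := h.integrable_left
  have := leb_sf (α := E n)
  have := leb_sf (α := E k × E m)
  rw [Measure.volume_eq_prod] at h9
  have h1 : ∫ x : E n × (E k × E m), ∫ q, f (x, q) =
      ∫ w : E n, ∫ p1 : E k × E m, ∫ q, f ((w, p1), q) := by
    rw [Measure.volume_eq_prod]
    exact MeasureTheory.integral_prod _ h9
  rw [h1]
  refine integral_congr_ae (Filter.Eventually.of_forall fun w => ?_)
  refine integral_congr_ae (Filter.Eventually.of_forall fun p1 => ?_)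
  simp only
  rw [(h.left (w, p1)).integral_prod]
  refine integral_congr_ae (Filter.Eventually.of_forall fun p2 => ?_)
  simp only
  rw [((h.left (w, p1)).left p2).integral_prod]

/-- The bound by the inner integral in `z1`. -/
theorem bnd1 {f : Om k m n → ℂ} (h : Nice f) {M ρ : ℝ}
    (hM : ∀ (w : E n) (t : E k) q, ‖∫ z, f ((w, (t, z)), q)‖ ≤ M)
    (hρ : ∀ x, ρ < ‖x‖ → f x = 0) : ‖∫ x, f x‖ ≤ M * vb (E k) ρ * vb (E n) ρ *
      vb ((E k × E m) × ((E k × E m) × (E k × E m))) ρ := by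
  refine bnd_right h (fun q => ?_) hρ
  have h1 : ∀ x : E n × (E k × E m), ρ < ‖x‖ → f (x, q) = 0 := fun x hx =>
    hρ _ (hx.trans_le (norm_fst_le (x, q)))
  refine bnd_left (h.right q) (fun w => ?_) h1
  exact bnd_left ((h.right q).left w) (fun t => hM w t q) fun p hp =>
    h1 _ (hp.trans_le (norm_snd_le (w, p)))

/-- The bound by the inner integral in `z3`. -/
theorem bnd3 {f : Om k m n → ℂ} (h : Nice f) {M ρ : ℝ}
    (hM : ∀ (x : E n × (E k × E m)) (p2 p4 : E k × E m) (t : E k),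
      ‖∫ z, f (x, (p2, ((t, z), p4)))‖ ≤ M)
    (hρ : ∀ x, ρ < ‖x‖ → f x = 0) : ‖∫ x, f x‖ ≤ M * vb (E k) ρ * vb (E k × E m) ρ *
      vb (E k × E m) ρ * vb (E n × (E k × E m)) ρ := by
  refine bnd_left h (fun x => ?_) hρ
  have h1 : ∀ q, ρ < ‖q‖ → f (x, q) = 0 := fun q hq => hρ _ (hq.trans_le (norm_snd_le (x, q)))
  refine bnd_left (h.left x) (fun p2 => ?_) h1
  have h2 : ∀ q : (E k × E m) × (E k × E m), ρ < ‖q‖ → f (x, (p2, q)) = 0 := fun q hq =>
    h1 _ (hq.trans_le (norm_snd_le (p2, q)))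
  refine bnd_right ((h.left x).left p2) (fun p4 => ?_) h2
  exact bnd_left (((h.left x).left p2).right p4) (fun t => hM x p2 p4 t) fun p hp =>
    h2 _ (hp.trans_le (norm_fst_le (p, p4)))

/-- The bound by the inner integral in `z4`. -/
theorem bnd4 {f : Om k m n → ℂ} (h : Nice f) {M ρ : ℝ}
    (hM : ∀ (x : E n × (E k × E m)) (p2 p3 : E k × E m) (t : E k),
      ‖∫ z, f (x, (p2, (p3, (t, z))))‖ ≤ M)
    (hρ : ∀ x, ρ < ‖x‖ → f x = 0) : ‖∫ x, f x‖ ≤ M * vb (E k) ρ * vb (E k × E m) ρ *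
      vb (E k × E m) ρ * vb (E n × (E k × E m)) ρ := by
  refine bnd_left h (fun x => ?_) hρ
  have h1 : ∀ q, ρ < ‖q‖ → f (x, q) = 0 := fun q hq => hρ _ (hq.trans_le (norm_snd_le (x, q)))
  refine bnd_left (h.left x) (fun p2 => ?_) h1
  have h2 : ∀ q : (E k × E m) × (E k × E m), ρ < ‖q‖ → f (x, (p2, q)) = 0 := fun q hq =>
    h1 _ (hq.trans_le (norm_snd_le (p2, q)))
  refine bnd_left ((h.left x).left p2) (fun p3 => ?_) h2
  exact bnd_left (((h.left x).left p2).left p3) (fun t => hM x p2 p3 t) fun p hp =>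
    h2 _ (hp.trans_le (norm_snd_le (p3, p)))

theorem exists_th (m : ℕ) : ∃ th : E m → ℝ, Th th := by
  let f : ContDiffBump (0 : E m) := ⟨1 / 2, 1, by norm_num, by norm_num⟩
  refine ⟨f, f.contDiff, fun x => f.nonneg, fun x => f.le_one, fun x hx => ?_, fun x hx => ?_⟩
  · exact f.one_of_mem_closedBall (by rwa [Metric.mem_closedBall, dist_zero_right])
  · exact f.zero_of_le_dist (by rwa [dist_zero_right])

theorem dn_mono {p0 : E k × E m} {δ δ' : ℝ} (h : δ ≤ δ') {B : ℕ → ℝ} {b : E k × E m → ℂ}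
    (hb : Dn p0 δ B b) : Dn p0 δ' B b :=
  ⟨hb.1, hb.2.1, hb.2.2.1, fun p hp => hb.2.2.2 p (h.trans hp)⟩

end Pool.Agent.LFK.FR
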