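import Pool.Agent.LFK.FARdf
import Pool.Agent.LFK.FAR1

/-!
LEAFK, rows F2 and F3: bounds of all derivatives at a point (products, compositions, slices).
-/

set_option autoImplicit false
set_option maxSynthPendingDepth 3

namespace Pool.Agent.LFK.FR

open MeasureTheory Set Filter Topology Metric Pool.Agent.MP_6cbfb8_an
open scoped ENNReal Real RealInnerProductSpace ContDiff ComplexConjugate

section Calculus

variable {Q F G : Type*} [NormedAddCommGroup Q] [NormedSpace ℝ Q] [NormedAddCommGroup F]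
  [NormedSpace ℝ F] [NormedAddCommGroup G] [NormedSpace ℝ G]

/-- Bounds of all derivatives at a point. -/
def BA (D : ℕ → ℝ) (f : Q → F) (q : Q) : Prop := ∀ j, ‖iteratedFDeriv ℝ j f q‖ ≤ D j

/-- The bounds for a product. -/
noncomputable def mD (D D' : ℕ → ℝ) (j : ℕ) : ℝ :=
  ∑ i ∈ Finset.range (j + 1), (j.choose i : ℝ) * D i * D' (j - i)

/-- The bounds for a composition. -/
noncomputable def cD (C D : ℕ → ℝ) (j : ℕ) : ℝ :=
  (j.factorial : ℝ) * (∑ i ∈ Finset.range (j + 1), |C i|) *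
    (1 + ∑ i ∈ Finset.range (j + 1), |D i|) ^ j

theorem BA.nonneg {D : ℕ → ℝ} {f : Q → F} {q : Q} (h : BA D f q) (j : ℕ) : 0 ≤ D j :=
  (norm_nonneg _).trans (h j)

theorem BA.mul {R : Type*} [NormedRing R] [NormedAlgebra ℝ R] {D D' : ℕ → ℝ} {f g : Q → R} {q : Q}
    (hf : ContDiff ℝ ∞ f) (hg : ContDiff ℝ ∞ g) (h1 : BA D f q) (h2 : BA D' g q) :
    BA (mD D D') (fun x => f x * g x) q := by
  intro j
  refine (norm_iteratedFDeriv_mul_le hf hg q (n := j) (by exact_mod_cast le_top)).trans ?_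
  unfold mD
  refine Finset.sum_le_sum fun i _ => ?_
  have := h1.nonneg i
  gcongr
  · exact h1 i
  · exact h2 _

theorem BA.comp {C D : ℕ → ℝ} {g : F → G} {f : Q → F} {q : Q} (hg : ContDiff ℝ ∞ g)
    (hf : ContDiff ℝ ∞ f) (hC : ∀ i x, ‖iteratedFDeriv ℝ i g x‖ ≤ C i) (h : BA D f q) :
    BA (cD C D) (fun x => g (f x)) q := by
  intro j
  have h1 := norm_iteratedFDeriv_comp_le hg hf (n := j) (by exact_mod_cast le_top) q
    (C := ∑ i ∈ Finset.range (j + 1), |C i|) (D := 1 + ∑ i ∈ Finset.range (j + 1), |D i|)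
    (fun i hi => (hC i _).trans ((le_abs_self _).trans
      (Finset.single_le_sum (f := fun i => |C i|) (fun i _ => abs_nonneg _)
        (Finset.mem_range.2 (by omega)))))
    (fun i hi1 hi2 => by
      have h2 : |D i| ≤ ∑ i ∈ Finset.range (j + 1), |D i| :=
        Finset.single_le_sum (f := fun i => |D i|) (fun i _ => abs_nonneg _)
          (Finset.mem_range.2 (by omega))
      have h3 : (1 : ℝ) ≤ 1 + ∑ i ∈ Finset.range (j + 1), |D i| := by
        have := Finset.sum_nonneg (s := Finset.range (j + 1)) (f := fun i => |D i|)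
          fun i _ => abs_nonneg _
        linarith
      refine (h i).trans ((le_abs_self _).trans (h2.trans ?_))
      refine le_trans (by linarith) (le_self_pow₀ h3 (by omega)))
  exact h1

theorem BA.const_smul {D : ℕ → ℝ} {f : Q → F} {q : Q} (hf : ContDiff ℝ ∞ f) (h : BA D f q)
    (c : ℝ) : BA (fun j => |c| * D j) (fun x => c • f x) q := by
  intro j
  have h1 : iteratedFDeriv ℝ j (fun x => c • f x) q = c • iteratedFDeriv ℝ j f q :=
    iteratedFDeriv_const_smul_apply (𝕜 := ℝ) (i := j) (a := c) (x := q)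
      (hf.of_le (by exact_mod_cast le_top)).contDiffAt
  rw [h1, norm_smul, Real.norm_eq_abs]
  exact mul_le_mul_of_nonneg_left (h j) (abs_nonneg _)

theorem BA.ofReal {D : ℕ → ℝ} {f : Q → ℝ} {q : Q} (hf : ContDiff ℝ ∞ f) (h : BA D f q) :
    BA D (fun x => ((f x : ℝ) : ℂ)) q := by
  intro j
  have h1 := Complex.ofRealLI.norm_iteratedFDeriv_comp_left (f := f) (x := q) (n := ∞) (i := j)
    hf.contDiffAt (by exact_mod_cast le_top)
  have h2 : (Complex.ofRealLI : ℝ → ℂ) ∘ f = fun x => ((f x : ℝ) : ℂ) := rfl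
  rw [← h2, h1]
  exact h j

theorem BA.conj {D : ℕ → ℝ} {f : Q → ℂ} {q : Q} (h : BA D f q) :
    BA D (fun x => conj (f x)) q := by
  intro j
  have h1 := Complex.conjLIE.norm_iteratedFDeriv_comp_left f q j
  have h2 : (Complex.conjLIE : ℂ → ℂ) ∘ f = fun x => conj (f x) := rfl
  rw [← h2, h1]
  exact h j

theorem contDiff_conj {f : Q → ℂ} (hf : ContDiff ℝ ∞ f) : ContDiff ℝ ∞ fun x => conj (f x) :=
  Complex.conjLIE.toContinuousLinearEquiv.contDiff.comp hf

theorem contDiff_ofReal {f : Q → ℝ} (hf : ContDiff ℝ ∞ f) :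
    ContDiff ℝ ∞ fun x => ((f x : ℝ) : ℂ) :=
  Complex.ofRealCLM.contDiff.comp hf

/-- A function of the second variable. -/
theorem BA.snd {W : Type*} [NormedAddCommGroup W] [NormedSpace ℝ W] {D : ℕ → ℝ} {f : Q → F}
    (hf : ContDiff ℝ ∞ f) (q : W × Q) (h : BA D f q.2) : BA D (fun x : W × Q => f x.2) q := by
  intro j
  have e1 : (fun q : W × Q => f q.2) = f ∘ (ContinuousLinearMap.snd ℝ W Q) := rfl
  rw [e1, ContinuousLinearMap.iteratedFDeriv_comp_right _ hf q (i := j) (by exact_mod_cast le_top)]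
  refine (ContinuousMultilinearMap.norm_compContinuousLinearMap_le _ _).trans ?_
  rw [Finset.prod_const, Finset.card_univ, Fintype.card_fin]
  exact (mul_le_of_le_one_right (norm_nonneg _) (pow_le_one₀ (norm_nonneg _)
    (ContinuousLinearMap.norm_snd_le ℝ W Q))).trans (h j)

/-- A function of the first variable. -/
theorem BA.fst {W : Type*} [NormedAddCommGroup W] [NormedSpace ℝ W] {D : ℕ → ℝ} {f : W → F}
    (hf : ContDiff ℝ ∞ f) (q : W × Q) (h : BA D f q.1) : BA D (fun x : W × Q => f x.1) q := by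
  intro j
  have e1 : (fun q : W × Q => f q.1) = f ∘ (ContinuousLinearMap.fst ℝ W Q) := rfl
  rw [e1, ContinuousLinearMap.iteratedFDeriv_comp_right _ hf q (i := j) (by exact_mod_cast le_top)]
  refine (ContinuousMultilinearMap.norm_compContinuousLinearMap_le _ _).trans ?_
  rw [Finset.prod_const, Finset.card_univ, Fintype.card_fin]
  exact (mul_le_of_le_one_right (norm_nonneg _) (pow_le_one₀ (norm_nonneg _)
    (ContinuousLinearMap.norm_fst_le ℝ W Q))).trans (h j)

/-- The identity. -/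
theorem BA.id {c : ℝ} (hc : 1 ≤ c) (q : Q) (hq : ‖q‖ ≤ c) :
    BA (fun _ => c) (fun x : Q => x) q := by
  intro i
  rcases i with _ | i
  · rw [norm_iteratedFDeriv_zero]
    exact hq
  · rw [← norm_iteratedFDeriv_fderiv]
    have e1 : fderiv ℝ (fun x : Q => x) = fun _ => ContinuousLinearMap.id ℝ Q := by
      funext x
      exact fderiv_id
    rw [e1]
    rcases i with _ | i
    · rw [norm_iteratedFDeriv_zero]
      exact (ContinuousLinearMap.norm_id_le).trans hc
    · rw [iteratedFDeriv_const_of_ne (Nat.succ_ne_zero i)]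
      simp
      linarith

/-- A translate. -/
theorem BA.translate {D : ℕ → ℝ} {f : Q → F} (y q : Q) (h : BA D f (q + y)) :
    BA D (fun x => f (x + y)) q := by
  intro j
  rw [iteratedFDeriv_comp_add_right]
  exact h j

/-- A function which vanishes near a point. -/
theorem BA.of_eventually {D : ℕ → ℝ} {f : Q → F} {q : Q} (hD : ∀ j, 0 ≤ D j)
    (h : ∀ᶠ x in 𝓝 q, f x = 0) : BA D f q := by
  intro j
  have h1 : f =ᶠ[𝓝 q] fun _ => 0 := h
  have h2 := (h1.iteratedFDeriv ℝ j).eq_of_nhds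
  rw [h2]
  simp [hD j]

/-- A smooth function with compact support. -/
theorem exists_BA [FiniteDimensional ℝ Q] {f : Q → ℝ} (hf : ContDiff ℝ ∞ f) {ρ : ℝ}
    (hs : ∀ x, ρ ≤ ‖x‖ → f x = 0) :
    ∃ D : ℕ → ℝ, ∀ j x, ‖iteratedFDeriv ℝ j f x‖ ≤ D j := by
  have : ProperSpace Q := FiniteDimensional.proper ℝ Q
  have hcs : HasCompactSupport f := HasCompactSupport.intro (isCompact_closedBall (0 : Q) ρ)
    fun x hx => hs x (by
      rw [mem_closedBall_zero_iff, not_le] at hx
      exact hx.le)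
  have h1 : ∀ j : ℕ, ∃ c : ℝ, ∀ x, ‖iteratedFDeriv ℝ j f x‖ ≤ c := by
    intro j
    exact (hcs.iteratedFDeriv (𝕜 := ℝ) j).exists_bound_of_continuous
      (hf.continuous_iteratedFDeriv (by exact_mod_cast le_top))
  choose D hD using h1
  exact ⟨D, hD⟩

end Calculus

variable {k m n : ℕ}

/-- `Lw` as a bilinear map. -/
noncomputable def LwB : E n →L[ℝ] (E k × E m →L[ℝ] E n) →L[ℝ] E m :=
  LinearMap.mkContinuous₂ (LinearMap.mk₂ ℝ (fun w T => Lw w T)
    (fun w w' T => by rw [Lw_apply, Lw_apply, Lw_apply, map_add])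
    (fun c w T => by rw [Lw_apply, Lw_apply, map_smul])
    (fun w T T' => map_add _ _ _) (fun c w T => map_smul _ _ _)) 1 (fun w T => by
      rw [one_mul]
      exact ((Lw w).le_opNorm T).trans (mul_le_mul_of_nonneg_right (norm_Lw_le w) (norm_nonneg _)))

theorem LwB_apply (w : E n) (T : E k × E m →L[ℝ] E n) : LwB w T = Lw w T := rfl

theorem norm_LwB_le : ‖(LwB : E n →L[ℝ] (E k × E m →L[ℝ] E n) →L[ℝ] E m)‖ ≤ 1 :=
  LinearMap.mkContinuous₂_norm_le _ zero_le_one _

/-- `Lw w (T z)` as a function of `(w, z)`. -/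
theorem lw_contDiff {T : E m → (E k × E m →L[ℝ] E n)} (hT : ContDiff ℝ ∞ T) :
    ContDiff ℝ ∞ fun q : E n × E m => Lw q.1 (T q.2) := by
  have h1 : (fun q : E n × E m => Lw q.1 (T q.2)) = fun q => LwB q.1 (T q.2) := rfl
  rw [h1]
  exact (LwB.contDiff.comp contDiff_fst).clm_apply (hT.comp contDiff_snd)

theorem lw_BA {T : E m → (E k × E m →L[ℝ] E n)} (hT : ContDiff ℝ ∞ T) {A' : ℕ → ℝ}
    (hA : ∀ i z, ‖iteratedFDeriv ℝ i T z‖ ≤ A' i) (q : E n × E m) (hq : ‖q.1‖ ≤ 8) :
    BA (mD (fun _ => 8) A') (fun q : E n × E m => Lw q.1 (T q.2)) q := by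
  intro j
  have h1 := ContinuousLinearMap.norm_iteratedFDeriv_le_of_bilinear_of_le_one
    (LwB : E n →L[ℝ] (E k × E m →L[ℝ] E n) →L[ℝ] E m)
    (f := fun q : E n × E m => q.1) (g := fun q : E n × E m => T q.2)
    (N := ∞) contDiff_fst (hT.comp contDiff_snd) q (n := j) (by exact_mod_cast le_top) norm_LwB_le
  refine h1.trans ?_
  unfold mD
  refine Finset.sum_le_sum fun i _ => ?_
  have k1 := BA.fst (Q := E m) contDiff_id q (BA.id (c := 8) (by norm_num) q.1 hq) i
  have k2 := BA.snd (W := E n) hT q (fun i => hA i q.2) (j - i)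
  exact mul_le_mul (mul_le_mul_of_nonneg_left k1 (Nat.cast_nonneg _)) k2 (norm_nonneg _)
    (by positivity)

/-- The cut-off functions at scale one. -/
theorem crit_BA {th : E m → ℝ} (hth : ContDiff ℝ ∞ th) {C : ℕ → ℝ}
    (hC : ∀ i x, ‖iteratedFDeriv ℝ i th x‖ ≤ C i) (κ : ℝ)
    {T : E m → (E k × E m →L[ℝ] E n)} (hT : ContDiff ℝ ∞ T) {A' : ℕ → ℝ}
    (hA : ∀ i z, ‖iteratedFDeriv ℝ i T z‖ ≤ A' i) :
    (ContDiff ℝ ∞ fun q : E n × E m => th (κ⁻¹ • Lw q.1 (T q.2))) ∧
    ∀ q : E n × E m, ‖q.1‖ ≤ 8 → BA (cD C (fun j => |κ⁻¹| * mD (fun _ => 8) A' j))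
      (fun q : E n × E m => th (κ⁻¹ • Lw q.1 (T q.2))) q := by
  have h1 := lw_contDiff (n := n) hT
  refine ⟨hth.comp (h1.const_smul _), fun q hq => ?_⟩
  exact BA.comp hth (h1.const_smul _) hC ((lw_BA hT hA q hq).const_smul h1 κ⁻¹)

end Pool.Agent.LFK.FR
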