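import Mathlib

/-!
# [LEAFK GEN] ALG: symmetrised arrays; every vector is reached.
-/

set_option autoImplicit false

namespace Pool.Agent.LFK.GA

variable {n k : ℕ}

/-- The symmetrised quadratic array applied to a vector. -/
def syc (q : Fin n → Fin n → ℝ) (u : Fin n → ℝ) (i : Fin n) : ℝ := ∑ l, (q i l + q l i) * u l

/-- The symmetrised cubic array applied to two vectors. -/
def stc (t : Fin n → Fin n → Fin n → ℝ) (u v : Fin n → ℝ) (i : Fin n) : ℝ :=
  ∑ l, ∑ m, (t i l m + t i m l + t l i m + t m i l + t l m i + t m l i) * (u l * v m)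

theorem syc_add (q r : Fin n → Fin n → ℝ) (u : Fin n → ℝ) (i : Fin n) :
    syc (q + r) u i = syc q u i + syc r u i := by
  unfold syc
  rw [← Finset.sum_add_distrib]
  refine Finset.sum_congr rfl fun l _ => ?_
  simp only [Pi.add_apply]
  ring

theorem syc_smul (x : ℝ) (q : Fin n → Fin n → ℝ) (u : Fin n → ℝ) (i : Fin n) :
    syc (x • q) u i = x * syc q u i := by
  unfold syc
  rw [Finset.mul_sum]
  refine Finset.sum_congr rfl fun l _ => ?_
  simp only [Pi.smul_apply, smul_eq_mul]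
  ring

theorem stc_add (q r : Fin n → Fin n → Fin n → ℝ) (u v : Fin n → ℝ) (i : Fin n) :
    stc (q + r) u v i = stc q u v i + stc r u v i := by
  unfold stc
  rw [← Finset.sum_add_distrib]
  refine Finset.sum_congr rfl fun l _ => ?_
  rw [← Finset.sum_add_distrib]
  refine Finset.sum_congr rfl fun m _ => ?_
  simp only [Pi.add_apply]
  ring

theorem stc_smul (x : ℝ) (q : Fin n → Fin n → Fin n → ℝ) (u v : Fin n → ℝ) (i : Fin n) :
    stc (x • q) u v i = x * stc q u v i := by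
  unfold stc
  rw [Finset.mul_sum]
  refine Finset.sum_congr rfl fun l _ => ?_
  rw [Finset.mul_sum]
  refine Finset.sum_congr rfl fun m _ => ?_
  simp only [Pi.smul_apply, smul_eq_mul]
  ring

/-- The dot product. -/
def dt (u v : Fin n → ℝ) : ℝ := ∑ i, u i * v i

theorem dt_comm (u v : Fin n → ℝ) : dt u v = dt v u := by
  unfold dt
  exact Finset.sum_congr rfl fun i _ => mul_comm _ _

/-- Rank one quadratic arrays. -/
def r2 (x y : Fin n → ℝ) : Fin n → Fin n → ℝ := fun i l => x i * y l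

/-- Rank one cubic arrays. -/
def r3 (x y z : Fin n → ℝ) : Fin n → Fin n → Fin n → ℝ := fun i l m => x i * y l * z m

theorem syc_r2 (x y u : Fin n → ℝ) (i : Fin n) :
    syc (r2 x y) u i = x i * dt y u + y i * dt x u := by
  unfold syc r2 dt
  rw [Finset.mul_sum, Finset.mul_sum, ← Finset.sum_add_distrib]
  refine Finset.sum_congr rfl fun l _ => ?_
  ring

theorem dt_mul (f g u v : Fin n → ℝ) :
    ∑ l, ∑ m, (f l * u l) * (g m * v m) = dt f u * dt g v := by
  unfold dt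
  rw [Finset.sum_mul_sum]

theorem stc_r3 (x y z u v : Fin n → ℝ) (i : Fin n) :
    stc (r3 x y z) u v i = x i * (dt y u * dt z v) + x i * (dt z u * dt y v) +
      y i * (dt x u * dt z v) + y i * (dt z u * dt x v) +
      z i * (dt x u * dt y v) + z i * (dt y u * dt x v) := by
  rw [← dt_mul y z u v, ← dt_mul z y u v, ← dt_mul x z u v, ← dt_mul z x u v, ← dt_mul x y u v,
    ← dt_mul y x u v]
  unfold stc r3
  simp only [Finset.mul_sum, ← Finset.sum_add_distrib]
  refine Finset.sum_congr rfl fun l _ => Finset.sum_congr rfl fun m _ => ?_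
  ring

theorem dt_smul (x : ℝ) (u v : Fin n → ℝ) : dt (x • u) v = x * dt u v := by
  unfold dt
  rw [Finset.mul_sum]
  refine Finset.sum_congr rfl fun l _ => ?_
  simp only [Pi.smul_apply, smul_eq_mul]
  ring

theorem dt_add (u w v : Fin n → ℝ) : dt (u + w) v = dt u v + dt w v := by
  unfold dt
  rw [← Finset.sum_add_distrib]
  refine Finset.sum_congr rfl fun l _ => ?_
  simp only [Pi.add_apply]
  ring

theorem dt_self_ne {u : Fin n → ℝ} (hu : u ≠ 0) : dt u u ≠ 0 := by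
  intro h
  refine hu (funext fun i => ?_)
  unfold dt at h
  have h1 := (Finset.sum_eq_zero_iff_of_nonneg (fun i _ => mul_self_nonneg (u i))).1 h i
    (Finset.mem_univ i)
  exact mul_self_eq_zero.1 h1

/-- One vector. -/
theorem onto_one {e : Fin n → ℝ} (he : e ≠ 0) (u : Fin n → ℝ) :
    ∃ q : Fin n → Fin n → ℝ, ∀ i, syc q e i = u i := by
  have h0 := dt_self_ne he
  set f : Fin n → ℝ := (dt e e)⁻¹ • e with hf
  have hfe : dt f e = 1 := by rw [hf, dt_smul, inv_mul_cancel₀ h0]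
  refine ⟨r2 u f + (-(dt u e / 2)) • r2 f f, fun i => ?_⟩
  rw [syc_add, syc_smul, syc_r2, syc_r2, hfe]
  ring

/-- The dual pair. -/
theorem dual_pair {a b : Fin n → ℝ} (ha : a ≠ 0) (hb : b ≠ 0) (hab : dt a b = 0) :
    ∃ f g : Fin n → ℝ, dt f a = 1 ∧ dt f b = 0 ∧ dt g b = 1 ∧ dt g a = 0 := by
  have ha0 := dt_self_ne ha
  have hb0 := dt_self_ne hb
  have hba : dt b a = 0 := by rw [dt_comm, hab]
  refine ⟨(dt a a)⁻¹ • a, (dt b b)⁻¹ • b, ?_, ?_, ?_, ?_⟩
  · rw [dt_smul, inv_mul_cancel₀ ha0]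
  · rw [dt_smul, hab, mul_zero]
  · rw [dt_smul, inv_mul_cancel₀ hb0]
  · rw [dt_smul, hba, mul_zero]

/-- Two orthogonal vectors. -/
theorem onto_two {a b : Fin n → ℝ} (ha : a ≠ 0) (hb : b ≠ 0) (hab : dt a b = 0)
    (u v : Fin n → ℝ) (huv : dt v a = dt u b) :
    ∃ q : Fin n → Fin n → ℝ, (∀ i, syc q a i = u i) ∧ ∀ i, syc q b i = v i := by
  obtain ⟨f, g, hfa, hfb, hgb, hga⟩ := dual_pair ha hb hab
  refine ⟨r2 u f + (-(dt u a / 2)) • r2 f f + r2 v g + (-(dt v b / 2)) • r2 g g +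
    (-(dt u b)) • r2 f g, fun i => ?_, fun i => ?_⟩
  · simp only [syc_add, syc_smul, syc_r2, hfa, hga, huv]
    ring
  · simp only [syc_add, syc_smul, syc_r2, hfb, hgb]
    ring

/-- The cubic array. -/
theorem onto_cub {a b : Fin n → ℝ} (ha : a ≠ 0) (hb : b ≠ 0) (hab : dt a b = 0)
    (w : Fin n → ℝ) : ∃ t : Fin n → Fin n → Fin n → ℝ, ∀ i, stc t a b i = w i := by
  obtain ⟨f, g, hfa, hfb, hgb, hga⟩ := dual_pair ha hb hab
  obtain ⟨z, hz⟩ : ∃ z : Fin n → ℝ, z = w + (-(dt w a / 2)) • f + (-(dt w b / 2)) • g := ⟨_, rfl⟩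
  have hza : dt z a = dt w a / 2 := by
    rw [hz, dt_add, dt_add, dt_smul, dt_smul, hfa, hga]
    ring
  have hzb : dt z b = dt w b / 2 := by
    rw [hz, dt_add, dt_add, dt_smul, dt_smul, hfb, hgb]
    ring
  refine ⟨r3 f g z, fun i => ?_⟩
  rw [stc_r3, hfa, hfb, hgb, hga, hza, hzb, hz]
  simp only [Pi.add_apply, Pi.smul_apply, smul_eq_mul]
  ring

end Pool.Agent.LFK.GA
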