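import Pool.Agent.LFK.GCase
import Pool.Agent.MP_6cbfb8_an.Defs

/-!
# [LEAFK GEN] ARR: for almost all coefficient arrays the equations have no solution.
-/

set_option autoImplicit false

namespace Pool.Agent.LFK.GA

open Module MeasureTheory Pool.Agent.MP_6cbfb8_an

variable {n k : ℕ}

/-- The dot product with a vector. -/
def dtl (x0 : Fin n → ℝ) : (Fin n → ℝ) →ₗ[ℝ] ℝ where
  toFun v := dt v x0
  map_add' u v := dt_add u v x0
  map_smul' r u := dt_smul r u x0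

theorem finrank_ker_functional {V : Type*} [AddCommGroup V] [Module ℝ V] [FiniteDimensional ℝ V]
    (f : V →ₗ[ℝ] ℝ) (v : V) (hv : f v = 1) : finrank ℝ (LinearMap.ker f) + 1 = finrank ℝ V := by
  have h1 := LinearMap.finrank_range_add_finrank_ker f
  have h2 : LinearMap.range f = ⊤ := by
    rw [LinearMap.range_eq_top]
    intro r
    exact ⟨r • v, by rw [map_smul, hv, smul_eq_mul, mul_one]⟩
  rw [h2, finrank_top, Module.finrank_self] at h1
  omega

/-- The vectors orthogonal to `x0` with vanishing coordinate. -/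
def VV (x0 : Fin n → ℝ) (i : Fin n) : Submodule ℝ (Fin n → ℝ) :=
  LinearMap.ker (dtl x0) ⊓ LinearMap.ker (LinearMap.proj i : (Fin n → ℝ) →ₗ[ℝ] ℝ)

theorem finrank_VV {x0 : Fin n → ℝ} (hx : dt x0 x0 = 1) (i : Fin n) {v : Fin n → ℝ}
    (hv : dt v x0 = 0) (hvi : v i = 1) : finrank ℝ (VV x0 i) + 2 ≤ n := by
  have h1 : finrank ℝ (LinearMap.ker (dtl x0)) + 1 = finrank ℝ (Fin n → ℝ) :=
    finrank_ker_functional (dtl x0) x0 hx
  rw [Module.finrank_fin_fun] at h1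
  have h2 : VV x0 i < LinearMap.ker (dtl x0) := by
    refine lt_of_le_of_ne inf_le_left fun h => ?_
    have h3 : v ∈ VV x0 i := by
      rw [h]
      exact hv
    have h4 : v i = 0 := h3.2
    rw [hvi] at h4
    exact one_ne_zero h4
  have h5 := Submodule.finrank_lt_finrank_of_lt h2
  omega

/-- The coefficients with vanishing `c_(j0)`. -/
def CC (k : ℕ) (j0 : Fin k) : Submodule ℝ (Cf k) :=
  LinearMap.ker ((LinearMap.proj j0 : (Fin k → ℝ) →ₗ[ℝ] ℝ).comp (LinearMap.snd ℝ ℝ (Fin k → ℝ)))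

theorem finrank_CC (j0 : Fin k) : finrank ℝ (CC k j0) = k := by
  have h1 := finrank_ker_functional
    ((LinearMap.proj j0 : (Fin k → ℝ) →ₗ[ℝ] ℝ).comp (LinearMap.snd ℝ ℝ (Fin k → ℝ)))
    ((0 : ℝ), (Pi.single j0 1 : Fin k → ℝ)) (by simp)
  rw [Module.finrank_prod, Module.finrank_self, Module.finrank_fin_fun] at h1
  have h2 : finrank ℝ (CC k j0) + 1 = 1 + k := h1
  omega

theorem caseA (hn : 4 * k < n) {x0 : Fin n → ℝ} (hx : dt x0 x0 = 1) (g : Fin k → Fin n → ℝ)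
    (s0 : Fin k → Fin n → Fin n → ℝ) (t0 : Fin k → Fin n → Fin n → Fin n → ℝ) (i0 i1 : Fin n)
    (j0 : Fin k) : ∀ᵐ y : Arr n k, ∀ (c c1 c2 c3 : Cf k) (a b : Fin n → ℝ), c.2 j0 = 1 →
      a i0 = 1 → b i1 = 1 → dt a x0 = 0 → dt b x0 = 0 → dt a b = 0 →
      ¬ EqH x0 g s0 t0 y c c1 c2 c3 a b := by
  by_cases h0 : ∃ v, dt v x0 = 0 ∧ v i0 = 1
  swap
  · exact Filter.Eventually.of_forall fun y c c1 c2 c3 a b _ ha _ hax => absurd ⟨a, hax, ha⟩ h0
  by_cases h1 : ∃ v, dt v x0 = 0 ∧ v i1 = 1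
  swap
  · exact Filter.Eventually.of_forall fun y c c1 c2 c3 a b _ _ hb _ hbx => absurd ⟨b, hbx, hb⟩ h1
  obtain ⟨v0, hv0, hv0i⟩ := h0
  obtain ⟨v1, hv1, hv1i⟩ := h1
  have e0 := finrank_VV hx i0 hv0 hv0i
  have e1 := finrank_VV hx i1 hv1 hv1i
  have e2 := finrank_CC j0
  have key := nullA i0 j0 (CC k j0).subtypeL (VV x0 i0).subtypeL (VV x0 i1).subtypeL
    ((0 : ℝ), (Pi.single j0 1 : Fin k → ℝ)) v0 v1 (by omega) x0 g s0 t0
  rw [measure_eq_zero_iff_ae_notMem] at key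
  filter_upwards [key] with y hy c c1 c2 c3 a b hc ha hb hax hbx hab hE
  apply hy
  have m0 : c - ((0 : ℝ), (Pi.single j0 1 : Fin k → ℝ)) ∈ CC k j0 := by
    unfold CC
    rw [LinearMap.mem_ker]
    simp [hc]
  have ma : a - v0 ∈ VV x0 i0 := by
    refine ⟨?_, ?_⟩
    · show dtl x0 (a - v0) = 0
      rw [map_sub]
      show dt a x0 - dt v0 x0 = 0
      rw [hax, hv0, sub_zero]
    · show (a - v0) i0 = 0
      rw [Pi.sub_apply, ha, hv0i, sub_self]
  have mb : b - v1 ∈ VV x0 i1 := by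
    refine ⟨?_, ?_⟩
    · show dtl x0 (b - v1) = 0
      rw [map_sub]
      show dt b x0 - dt v1 x0 = 0
      rw [hbx, hv1, sub_zero]
    · show (b - v1) i1 = 0
      rw [Pi.sub_apply, hb, hv1i, sub_self]
  have q0 : ((0 : ℝ), (Pi.single j0 1 : Fin k → ℝ)) + (CC k j0).subtypeL ⟨_, m0⟩ = c :=
    add_sub_cancel _ _
  have qa : v0 + (VV x0 i0).subtypeL ⟨_, ma⟩ = a := add_sub_cancel _ _
  have qb : v1 + (VV x0 i1).subtypeL ⟨_, mb⟩ = b := add_sub_cancel _ _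
  refine ⟨⟨_, m0⟩, ⟨_, ma⟩, ⟨_, mb⟩, c1, c2, c3, ?_⟩
  rw [q0, qa, qb]
  refine ⟨hc, ?_, ?_, hab, ?_, hE⟩
  · rintro rfl
    exact zero_ne_one ha
  · rintro rfl
    exact zero_ne_one hb
  · rw [ha]
    exact one_ne_zero

theorem dt_gr (x0 : Fin n → ℝ) (hx : dt x0 x0 = 1) (g : Fin k → Fin n → ℝ) (c : Cf k) :
    dt (gr x0 g c) x0 = c.1 + ∑ j, c.2 j * dt (g j) x0 := by
  have h1 : dt (gr x0 g c) x0 = c.1 * dt x0 x0 + ∑ j, c.2 j * dt (g j) x0 := by
    unfold dt gr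
    simp only [add_mul, Finset.sum_add_distrib, Finset.sum_mul, Finset.mul_sum]
    rw [Finset.sum_comm (s := Finset.univ (α := Fin n))]
    congr 1
    · exact Finset.sum_congr rfl fun i _ => by ring
    · exact Finset.sum_congr rfl fun i _ => Finset.sum_congr rfl fun j _ => by ring
  rw [h1, hx, mul_one]

theorem caseB (hn : 4 * k < n) {x0 : Fin n → ℝ} (hx : dt x0 x0 = 1) (g : Fin k → Fin n → ℝ)
    (s0 : Fin k → Fin n → Fin n → ℝ) (t0 : Fin k → Fin n → Fin n → Fin n → ℝ) :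
    ∀ᵐ y : Arr n k, ∀ (c1 c2 c3 : Cf k) (a b : Fin n → ℝ), a ≠ 0 → b ≠ 0 → dt a x0 = 0 →
      dt b x0 = 0 → dt a b = 0 → ¬ EqH x0 g s0 t0 y (1, 0) c1 c2 c3 a b := by
  -- the two facts on one equation
  have fact : ∀ (c1 : Cf k) (a : Fin n → ℝ), a ≠ 0 → dt a x0 = 0 →
      (∀ i, a i + gr x0 g c1 i = 0) →
      c1.1 = -∑ j, c1.2 j * dt (g j) x0 ∧ ∃ j0, c1.2 j0 ≠ 0 := by
    intro c1 a ha hax hE
    have e1 : a = (-1 : ℝ) • gr x0 g c1 := by
      funext i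
      have := hE i
      simp only [Pi.smul_apply, smul_eq_mul]
      linarith
    have e2 : dt a x0 = -(c1.1 + ∑ j, c1.2 j * dt (g j) x0) := by
      rw [e1, dt_smul, dt_gr x0 hx g c1]
      ring
    rw [hax] at e2
    have e3 : c1.1 = -∑ j, c1.2 j * dt (g j) x0 := by linarith
    refine ⟨e3, ?_⟩
    by_contra hcon
    push Not at hcon
    have e4 : c1.1 = 0 := by
      rw [e3]
      simp [hcon]
    refine ha (funext fun i => ?_)
    have := hE i
    unfold gr at this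
    rw [e4] at this
    simp only [hcon, zero_mul, Finset.sum_const_zero, add_zero] at this
    exact this
  have conv : ∀ (y : Arr n k) (c1 c2 c3 : Cf k) (a b : Fin n → ℝ),
      EqH x0 g s0 t0 y (1, 0) c1 c2 c3 a b →
      (∀ i, a i + gr x0 g c1 i = 0) ∧ ∀ i, b i + gr x0 g c2 i = 0 := by
    intro y c1 c2 c3 a b hE
    obtain ⟨E1, E2, -⟩ := hE
    refine ⟨fun i => ?_, fun i => ?_⟩
    · have := E1 i
      simpa using this
    · have := E2 i
      simpa using this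
  by_cases hk : k = 0
  · subst hk
    refine Filter.Eventually.of_forall fun y c1 c2 c3 a b ha _ hax _ _ hE => ?_
    obtain ⟨-, j0, -⟩ := fact c1 a ha hax (conv y c1 c2 c3 a b hE).1
    exact j0.elim0
  have key := nullB (by omega) x0 g s0 t0
  rw [measure_eq_zero_iff_ae_notMem] at key
  filter_upwards [key] with y hy c1 c2 c3 a b ha hb hax hbx hab hE
  obtain ⟨c, d⟩ := conv y c1 c2 c3 a b hE
  obtain ⟨f1, f2⟩ := fact c1 a ha hax c
  exact hy ⟨c1, c2, c3, a, b, f1, (fact c2 b hb hbx d).1, hb, hab, f2, hE⟩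

/-- The coordinate form. -/
theorem gen_coord (hn : 4 * k < n) {x0 : Fin n → ℝ} (hx : dt x0 x0 = 1) (g : Fin k → Fin n → ℝ)
    (s0 : Fin k → Fin n → Fin n → ℝ) (t0 : Fin k → Fin n → Fin n → Fin n → ℝ) :
    ∀ᵐ y : Arr n k, ∀ (c c1 c2 c3 : Cf k) (a b : Fin n → ℝ), c ≠ 0 → a ≠ 0 → b ≠ 0 →
      dt a x0 = 0 → dt b x0 = 0 → dt a b = 0 → ¬ EqH x0 g s0 t0 y c c1 c2 c3 a b := by
  have hA : ∀ᵐ y : Arr n k, ∀ (i0 i1 : Fin n) (j0 : Fin k) (c c1 c2 c3 : Cf k)
      (a b : Fin n → ℝ), c.2 j0 = 1 → a i0 = 1 → b i1 = 1 → dt a x0 = 0 → dt b x0 = 0 →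
      dt a b = 0 → ¬ EqH x0 g s0 t0 y c c1 c2 c3 a b := by
    rw [ae_all_iff]
    intro i0
    rw [ae_all_iff]
    intro i1
    rw [ae_all_iff]
    intro j0
    exact caseA hn hx g s0 t0 i0 i1 j0
  filter_upwards [hA, caseB hn hx g s0 t0] with y hyA hyB c c1 c2 c3 a b hc ha hb hax hbx hab hE
  obtain ⟨i0, hi0⟩ : ∃ i, a i ≠ 0 := Function.ne_iff.1 ha
  obtain ⟨i1, hi1⟩ : ∃ i, b i ≠ 0 := Function.ne_iff.1 hb
  by_cases hcj : ∃ j, c.2 j ≠ 0
  · obtain ⟨j0, hj0⟩ := hcj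
    refine hyA i0 i1 j0 _ _ _ _ _ _ ?_ ?_ ?_ ?_ ?_ ?_
      (EqH_scale hE (c.2 j0)⁻¹ (a i0)⁻¹ (b i1)⁻¹)
    · show (c.2 j0)⁻¹ * c.2 j0 = 1
      exact inv_mul_cancel₀ hj0
    · exact inv_mul_cancel₀ hi0
    · exact inv_mul_cancel₀ hi1
    · rw [dt_smul, hax, mul_zero]
    · rw [dt_smul, hbx, mul_zero]
    · rw [dt_smul, dt_comm, dt_smul, dt_comm, hab, mul_zero, mul_zero]
  · push Not at hcj
    have hc1 : c.1 ≠ 0 := fun h => hc (Prod.ext h (funext hcj))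
    have e1 : (c.1)⁻¹ • c = ((1 : ℝ), (0 : Fin k → ℝ)) := by
      refine Prod.ext (inv_mul_cancel₀ hc1) (funext fun j => ?_)
      show (c.1)⁻¹ * c.2 j = 0
      rw [hcj j, mul_zero]
    have h1 := EqH_scale hE (c.1)⁻¹ 1 1
    rw [e1, one_smul, one_smul] at h1
    exact hyB _ _ _ _ _ ha hb hax hbx hab h1

theorem clm_coord (S : E n →L[ℝ] E n) (u : E n) (i : Fin n) :
    S u i = mv (fun i l => S (EuclideanSpace.single l 1) i) (fun l => u l) i := by
  have h1 : u = ∑ l, u l • (EuclideanSpace.single l (1 : ℝ) : E n) := by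
    have := (EuclideanSpace.basisFun (Fin n) ℝ).sum_repr u
    simpa using this.symm
  have h2 : S u = ∑ l, u l • S (EuclideanSpace.single l (1 : ℝ)) := by
    conv_lhs => rw [h1]
    rw [map_sum]
    simp only [map_smul]
  rw [h2]
  unfold mv
  simp only [WithLp.ofLp_sum, WithLp.ofLp_smul, Finset.sum_apply, Pi.smul_apply, smul_eq_mul]
  exact Finset.sum_congr rfl fun l _ => mul_comm _ _

theorem clm2_coord (T : E n →L[ℝ] E n →L[ℝ] E n) (u v : E n) (i : Fin n) :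
    T u v i = mt (fun i l m => T (EuclideanSpace.single l 1) (EuclideanSpace.single m 1) i)
      (fun l => u l) (fun l => v l) i := by
  have h1 : u = ∑ l, u l • (EuclideanSpace.single l (1 : ℝ) : E n) := by
    have := (EuclideanSpace.basisFun (Fin n) ℝ).sum_repr u
    simpa using this.symm
  have h2 : T u v = ∑ l, u l • T (EuclideanSpace.single l (1 : ℝ)) v := by
    conv_lhs => rw [h1]
    rw [map_sum, _root_.sum_apply]
    simp only [map_smul, _root_.smul_apply]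
  rw [h2]
  unfold mt
  simp only [WithLp.ofLp_sum, WithLp.ofLp_smul, Finset.sum_apply, Pi.smul_apply, smul_eq_mul]
  refine Finset.sum_congr rfl fun l _ => ?_
  rw [clm_coord (T (EuclideanSpace.single l (1 : ℝ))) v i]
  unfold mv
  rw [Finset.mul_sum]
  refine Finset.sum_congr rfl fun m _ => ?_
  ring

theorem inner_dt (u v : E n) : inner ℝ u v = dt (fun i => u i) (fun i => v i) := by
  unfold dt
  rw [PiLp.inner_apply]
  refine Finset.sum_congr rfl fun i _ => ?_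
  simp [mul_comm]

end Pool.Agent.LFK.GA
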