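import Pool.Agent.LFK.GLin

/-!
# [LEAFK GEN] CASE: the equations in coordinates, the null sets.
-/

set_option autoImplicit false

namespace Pool.Agent.LFK.GA

open Module MeasureTheory
open scoped ContDiff

variable {n k : ℕ}

theorem haar_pi (ι : Type*) [Fintype ι] (X : Type*) [AddGroup X] [TopologicalSpace X]
    [MeasureSpace X] [MeasurableAdd X] [SigmaFinite (volume : Measure X)]
    [h : (volume : Measure X).IsAddHaarMeasure] :
    (volume : Measure (ι → X)).IsAddHaarMeasure :=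
  Measure.pi.isAddHaarMeasure _

theorem sf_pi (ι : Type*) [Fintype ι] (X : Type*) [MeasureSpace X]
    [h : SigmaFinite (volume : Measure X)] : SigmaFinite (volume : Measure (ι → X)) :=
  Measure.pi.sigmaFinite _

theorem arr_haar : (volume : Measure (Arr n k)).IsAddHaarMeasure := by
  have h1 : (volume : Measure (Fin n → ℝ)).IsAddHaarMeasure := haar_pi _ _
  have h2 : (volume : Measure (Fin n → Fin n → ℝ)).IsAddHaarMeasure := haar_pi _ _
  have h3 : (volume : Measure (Fin n → Fin n → Fin n → ℝ)).IsAddHaarMeasure := haar_pi _ _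
  have h4 : (volume : Measure (Fin k → Fin n → Fin n → ℝ)).IsAddHaarMeasure := haar_pi _ _
  have h5 : (volume : Measure (Fin k → Fin n → Fin n → Fin n → ℝ)).IsAddHaarMeasure :=
    haar_pi _ _
  have k1 : SigmaFinite (volume : Measure (Fin n → ℝ)) := sf_pi _ _
  have k2 : SigmaFinite (volume : Measure (Fin n → Fin n → ℝ)) := sf_pi _ _
  have k3 : SigmaFinite (volume : Measure (Fin n → Fin n → Fin n → ℝ)) := sf_pi _ _
  have k4 : SigmaFinite (volume : Measure (Fin k → Fin n → Fin n → ℝ)) := sf_pi _ _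
  have k5 : SigmaFinite (volume : Measure (Fin k → Fin n → Fin n → Fin n → ℝ)) := sf_pi _ _
  have e : (volume : Measure (Arr n k)) =
      (volume : Measure (Fin k → Fin n → Fin n → ℝ)).prod
        (volume : Measure (Fin k → Fin n → Fin n → Fin n → ℝ)) := rfl
  rw [e]
  exact Measure.prod.instIsAddHaarMeasure _ _

/-- A matrix applied to a vector. -/
def mv (s : Fin n → Fin n → ℝ) (u : Fin n → ℝ) (i : Fin n) : ℝ := ∑ l, s i l * u l

/-- A cubic array applied to two vectors. -/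
def mt (t : Fin n → Fin n → Fin n → ℝ) (u v : Fin n → ℝ) (i : Fin n) : ℝ :=
  ∑ l, ∑ m, t i l m * (u l * v m)

/-- The gradient. -/
def gr (x0 : Fin n → ℝ) (g : Fin k → Fin n → ℝ) (c : Cf k) (i : Fin n) : ℝ :=
  c.1 * x0 i + ∑ j, c.2 j * g j i

/-- The equations. -/
def EqH (x0 : Fin n → ℝ) (g : Fin k → Fin n → ℝ) (s0 : Fin k → Fin n → Fin n → ℝ)
    (t0 : Fin k → Fin n → Fin n → Fin n → ℝ) (y : Arr n k) (c c1 c2 c3 : Cf k)
    (a b : Fin n → ℝ) : Prop :=
  (∀ i, c.1 * a i + ∑ j, c.2 j * (mv (s0 j) a i + syc (y.1 j) a i) + gr x0 g c1 i = 0) ∧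
  (∀ i, c.1 * b i + ∑ j, c.2 j * (mv (s0 j) b i + syc (y.1 j) b i) + gr x0 g c2 i = 0) ∧
  ∀ i, ∑ j, c.2 j * (mt (t0 j) a b i + stc (y.2 j) a b i) +
    (c1.1 * b i + ∑ j, c1.2 j * (mv (s0 j) b i + syc (y.1 j) b i)) +
    (c2.1 * a i + ∑ j, c2.2 j * (mv (s0 j) a i + syc (y.1 j) a i)) + gr x0 g c3 i = 0

theorem mv_smul (s : Fin n → Fin n → ℝ) (x : ℝ) (u : Fin n → ℝ) (i : Fin n) :
    mv s (x • u) i = x * mv s u i := by
  unfold mv
  rw [Finset.mul_sum]
  refine Finset.sum_congr rfl fun l _ => ?_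
  simp only [Pi.smul_apply, smul_eq_mul]
  ring

theorem syc_smulv (s : Fin n → Fin n → ℝ) (x : ℝ) (u : Fin n → ℝ) (i : Fin n) :
    syc s (x • u) i = x * syc s u i := by
  unfold syc
  rw [Finset.mul_sum]
  refine Finset.sum_congr rfl fun l _ => ?_
  simp only [Pi.smul_apply, smul_eq_mul]
  ring

theorem mt_smul (t : Fin n → Fin n → Fin n → ℝ) (x y : ℝ) (u v : Fin n → ℝ) (i : Fin n) :
    mt t (x • u) (y • v) i = x * y * mt t u v i := by
  unfold mt
  rw [Finset.mul_sum]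
  refine Finset.sum_congr rfl fun l _ => ?_
  rw [Finset.mul_sum]
  refine Finset.sum_congr rfl fun m _ => ?_
  simp only [Pi.smul_apply, smul_eq_mul]
  ring

theorem stc_smulv (t : Fin n → Fin n → Fin n → ℝ) (x y : ℝ) (u v : Fin n → ℝ) (i : Fin n) :
    stc t (x • u) (y • v) i = x * y * stc t u v i := by
  unfold stc
  rw [Finset.mul_sum]
  refine Finset.sum_congr rfl fun l _ => ?_
  rw [Finset.mul_sum]
  refine Finset.sum_congr rfl fun m _ => ?_
  simp only [Pi.smul_apply, smul_eq_mul]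
  ring

theorem gr_smul (x0 : Fin n → ℝ) (g : Fin k → Fin n → ℝ) (x : ℝ) (c : Cf k) (i : Fin n) :
    gr x0 g (x • c) i = x * gr x0 g c i := by
  unfold gr
  rw [mul_add, Finset.mul_sum]
  congr 1
  · simp only [Prod.smul_fst, smul_eq_mul]
    ring
  · refine Finset.sum_congr rfl fun l _ => ?_
    simp only [Prod.smul_snd, Pi.smul_apply, smul_eq_mul]
    ring

theorem sum_scale (x y : ℝ) (c : Cf k) (f f' : Fin k → ℝ) (hf : ∀ j, f' j = y * f j) :
    ∑ j, (x • c).2 j * f' j = x * y * ∑ j, c.2 j * f j := by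
  rw [Finset.mul_sum]
  refine Finset.sum_congr rfl fun j _ => ?_
  rw [hf]
  simp only [Prod.smul_snd, Pi.smul_apply, smul_eq_mul]
  ring

theorem EqH_scale {x0 : Fin n → ℝ} {g : Fin k → Fin n → ℝ} {s0 : Fin k → Fin n → Fin n → ℝ}
    {t0 : Fin k → Fin n → Fin n → Fin n → ℝ} {y : Arr n k} {c c1 c2 c3 : Cf k}
    {a b : Fin n → ℝ} (h : EqH x0 g s0 t0 y c c1 c2 c3 a b) (r α β : ℝ) :
    EqH x0 g s0 t0 y (r • c) ((r * α) • c1) ((r * β) • c2) ((r * α * β) • c3) (α • a) (β • b) := by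
  obtain ⟨h1, h2, h3⟩ := h
  have ea : ∀ j i, mv (s0 j) (α • a) i + syc (y.1 j) (α • a) i =
      α * (mv (s0 j) a i + syc (y.1 j) a i) := fun j i => by
    rw [mv_smul, syc_smulv]
    ring
  have eb : ∀ j i, mv (s0 j) (β • b) i + syc (y.1 j) (β • b) i =
      β * (mv (s0 j) b i + syc (y.1 j) b i) := fun j i => by
    rw [mv_smul, syc_smulv]
    ring
  have ec : ∀ j i, mt (t0 j) (α • a) (β • b) i + stc (y.2 j) (α • a) (β • b) i =
      α * β * (mt (t0 j) a b i + stc (y.2 j) a b i) := fun j i => by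
    rw [mt_smul, stc_smulv]
    ring
  refine ⟨fun i => ?_, fun i => ?_, fun i => ?_⟩
  · rw [sum_scale r α c (fun j => mv (s0 j) a i + syc (y.1 j) a i)
      (fun j => mv (s0 j) (α • a) i + syc (y.1 j) (α • a) i) (fun j => ea j i), gr_smul]
    simp only [Prod.smul_fst, Pi.smul_apply, smul_eq_mul]
    linear_combination (r * α) * h1 i
  · rw [sum_scale r β c (fun j => mv (s0 j) b i + syc (y.1 j) b i)
      (fun j => mv (s0 j) (β • b) i + syc (y.1 j) (β • b) i) (fun j => eb j i), gr_smul]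
    simp only [Prod.smul_fst, Pi.smul_apply, smul_eq_mul]
    linear_combination (r * β) * h2 i
  · rw [sum_scale r (α * β) c (fun j => mt (t0 j) a b i + stc (y.2 j) a b i)
      (fun j => mt (t0 j) (α • a) (β • b) i + stc (y.2 j) (α • a) (β • b) i) (fun j => ec j i),
      sum_scale (r * α) β c1 (fun j => mv (s0 j) b i + syc (y.1 j) b i)
      (fun j => mv (s0 j) (β • b) i + syc (y.1 j) (β • b) i) (fun j => eb j i),
      sum_scale (r * β) α c2 (fun j => mv (s0 j) a i + syc (y.1 j) a i)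
      (fun j => mv (s0 j) (α • a) i + syc (y.1 j) (α • a) i) (fun j => ea j i), gr_smul]
    simp only [Prod.smul_fst, Pi.smul_apply, smul_eq_mul]
    linear_combination (r * α * β) * h3 i

section smooth

variable {P : Type*} [NormedAddCommGroup P] [NormedSpace ℝ P]

theorem gr_smooth (x0 : Fin n → ℝ) (g : Fin k → Fin n → ℝ) {c : P → Cf k} (hc : ContDiff ℝ 1 c)
    (i : Fin n) : ContDiff ℝ 1 fun p => gr x0 g (c p) i := by
  unfold gr
  exact (hc.fst.mul contDiff_const).add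
    (ContDiff.sum fun j _ => ((contDiff_pi.1 hc.snd) j).mul contDiff_const)

theorem mv_smooth (s : Fin n → Fin n → ℝ) {a : P → Fin n → ℝ} (ha : ContDiff ℝ 1 a) (i : Fin n) :
    ContDiff ℝ 1 fun p => mv s (a p) i := by
  unfold mv
  exact ContDiff.sum fun l _ => contDiff_const.mul ((contDiff_pi.1 ha) l)

theorem mt_smooth (t : Fin n → Fin n → Fin n → ℝ) {a b : P → Fin n → ℝ} (ha : ContDiff ℝ 1 a)
    (hb : ContDiff ℝ 1 b) (i : Fin n) : ContDiff ℝ 1 fun p => mt t (a p) (b p) i := by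
  unfold mt
  exact ContDiff.sum fun l _ => ContDiff.sum fun m _ =>
    contDiff_const.mul (((contDiff_pi.1 ha) l).mul ((contDiff_pi.1 hb) m))

theorem cs_smooth {c : P → Cf k} (hc : ContDiff ℝ 1 c) {f : Fin k → P → ℝ}
    (hf : ∀ j, ContDiff ℝ 1 (f j)) : ContDiff ℝ 1 fun p => ∑ j, (c p).2 j * f j p :=
  ContDiff.sum fun j _ => ((contDiff_pi.1 hc.snd) j).mul (hf j)

end smooth

/-- Null set, `c ≠ 0` in the last components. -/
theorem nullA {W0 Wa Wb : Type*} [NormedAddCommGroup W0] [NormedSpace ℝ W0]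
    [FiniteDimensional ℝ W0] [NormedAddCommGroup Wa] [NormedSpace ℝ Wa] [FiniteDimensional ℝ Wa]
    [NormedAddCommGroup Wb] [NormedSpace ℝ Wb] [FiniteDimensional ℝ Wb]
    (i0 : Fin n) (j0 : Fin k) (ι0 : W0 →L[ℝ] Cf k) (ιa : Wa →L[ℝ] (Fin n → ℝ))
    (ιb : Wb →L[ℝ] (Fin n → ℝ)) (c0 : Cf k) (a0 b0 : Fin n → ℝ)
    (hdim : finrank ℝ W0 + finrank ℝ Wa + finrank ℝ Wb + 3 * (k + 1) < 3 * n - 1)
    (x0 : Fin n → ℝ) (g : Fin k → Fin n → ℝ) (s0 : Fin k → Fin n → Fin n → ℝ)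
    (t0 : Fin k → Fin n → Fin n → Fin n → ℝ) :
    (volume : Measure (Arr n k)) {y | ∃ (x : W0) (u : Wa) (v : Wb) (c1 c2 c3 : Cf k),
      (c0 + ι0 x).2 j0 = 1 ∧ a0 + ιa u ≠ 0 ∧ b0 + ιb v ≠ 0 ∧ dt (a0 + ιa u) (b0 + ιb v) = 0 ∧
      (a0 + ιa u) i0 ≠ 0 ∧ EqH x0 g s0 t0 y (c0 + ι0 x) c1 c2 c3 (a0 + ιa u) (b0 + ιb v)} = 0 := by
  classical
  let PP : Type _ := W0 × Wa × Wb × Cf k × Cf k × Cf k
  set c : PP → Cf k := fun p => c0 + ι0 p.1 with hcdef
  set a : PP → Fin n → ℝ := fun p => a0 + ιa p.2.1 with hadef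
  set b : PP → Fin n → ℝ := fun p => b0 + ιb p.2.2.1 with hbdef
  set c1 : PP → Cf k := fun p => p.2.2.2.1 with hc1def
  set c2 : PP → Cf k := fun p => p.2.2.2.2.1 with hc2def
  set c3 : PP → Cf k := fun p => p.2.2.2.2.2 with hc3def
  have hc : ContDiff ℝ 1 c := contDiff_const.add (ι0.contDiff.comp contDiff_fst)
  have ha : ContDiff ℝ 1 a := contDiff_const.add (ιa.contDiff.comp (contDiff_fst.comp contDiff_snd))
  have hb : ContDiff ℝ 1 b := contDiff_const.add
    (ιb.contDiff.comp (contDiff_fst.comp (contDiff_snd.comp contDiff_snd)))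
  have h2222 : ContDiff ℝ 1 (fun p : PP => p.2.2.2) :=
    contDiff_snd.comp (contDiff_snd.comp contDiff_snd)
  have hc1 : ContDiff ℝ 1 c1 := contDiff_fst.comp h2222
  have hc2 : ContDiff ℝ 1 c2 := contDiff_fst.comp (contDiff_snd.comp h2222)
  have hc3 : ContDiff ℝ 1 c3 := contDiff_snd.comp (contDiff_snd.comp h2222)
  set h : PP → RA n i0 := fun p =>
    (fun i => -((c p).1 * a p i + ∑ j, (c p).2 j * mv (s0 j) (a p) i + gr x0 g (c1 p) i),
     fun l => -((c p).1 * b p l + ∑ j, (c p).2 j * mv (s0 j) (b p) l + gr x0 g (c2 p) l),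
     fun i => -(∑ j, (c p).2 j * mt (t0 j) (a p) (b p) i +
      ((c1 p).1 * b p i + ∑ j, (c1 p).2 j * mv (s0 j) (b p) i) +
      ((c2 p).1 * a p i + ∑ j, (c2 p).2 j * mv (s0 j) (a p) i) + gr x0 g (c3 p) i)) with hh
  have hai : ∀ i, ContDiff ℝ 1 fun p => a p i := fun i => (contDiff_pi.1 ha) i
  have hbi : ∀ i, ContDiff ℝ 1 fun p => b p i := fun i => (contDiff_pi.1 hb) i
  have hhs : ContDiff ℝ 1 h := by
    refine ContDiff.prodMk ?_ (ContDiff.prodMk ?_ ?_)
    · exact contDiff_pi.2 fun i => (((hc.fst.mul (hai i)).add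
        (cs_smooth hc fun j => mv_smooth _ ha i)).add (gr_smooth _ _ hc1 i)).neg
    · exact contDiff_pi.2 fun i => (((hc.fst.mul (hbi i)).add
        (cs_smooth hc fun j => mv_smooth (s0 j) hb (i : Fin n))).add (gr_smooth x0 g hc2 (i : Fin n))).neg
    · exact contDiff_pi.2 fun i => ((((cs_smooth hc fun j => mt_smooth _ ha hb i).add
        ((hc1.fst.mul (hbi i)).add (cs_smooth hc1 fun j => mv_smooth _ hb i))).add
        ((hc2.fst.mul (hai i)).add (cs_smooth hc2 fun j => mv_smooth _ ha i))).add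
        (gr_smooth _ _ hc3 i)).neg
  have hrank : finrank ℝ PP < finrank ℝ (RA n i0) := by
    have e1 : finrank ℝ PP = finrank ℝ W0 + (finrank ℝ Wa + (finrank ℝ Wb +
        (finrank ℝ (Cf k) + (finrank ℝ (Cf k) + finrank ℝ (Cf k))))) := by
      simp only [PP, Module.finrank_prod]
    have e2 : finrank ℝ (Cf k) = k + 1 := by
      rw [Module.finrank_prod, Module.finrank_self, Module.finrank_fin_fun]
      omega
    have e3 : finrank ℝ (RA n i0) = n + ((n - 1) + n) := by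
      rw [Module.finrank_prod, Module.finrank_prod, Module.finrank_fin_fun,
        Module.finrank_fintype_fun_eq_card]
      congr 2
      rw [Fintype.card_subtype_compl, Fintype.card_fin, Fintype.card_subtype_eq]
    have hn : 0 < n := i0.pos
    rw [e1, e2, e3]
    omega
  have := arr_haar (n := n) (k := k)
  have key := nul (volume : Measure (Arr n k)) (U := (Set.univ : Set PP)) isOpen_univ
    (fun p => LinearMap.toContinuousLinearMap (LA i0 (c p) (a p) (b p) (c1 p) (c2 p))) h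
    (LA_smooth i0 hc hc1 hc2 ha hb).contDiffOn hhs.contDiffOn hrank
  refine measure_mono_null ?_ key
  rintro y ⟨x, u, v, d1, d2, d3, e1, e2, e3, e4, e5, E1, E2, E3⟩
  refine ⟨(x, u, v, d1, d2, d3), Set.mem_univ _, LA_surj i0 _ j0 e1 e2 e3 e4 e5 d1 d2, ?_⟩
  refine Prod.ext (funext fun i => ?_) (Prod.ext (funext fun l => ?_) (funext fun i => ?_))
  · have := E1 i
    simp only [mul_add, Finset.sum_add_distrib] at this
    show ∑ j, (c0 + ι0 x).2 j * syc (y.1 j) (a0 + ιa u) i =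
      -((c0 + ι0 x).1 * (a0 + ιa u) i + ∑ j, (c0 + ι0 x).2 j * mv (s0 j) (a0 + ιa u) i +
        gr x0 g d1 i)
    linarith
  · have := E2 l
    simp only [mul_add, Finset.sum_add_distrib] at this
    show ∑ j, (c0 + ι0 x).2 j * syc (y.1 j) (b0 + ιb v) l =
      -((c0 + ι0 x).1 * (b0 + ιb v) l + ∑ j, (c0 + ι0 x).2 j * mv (s0 j) (b0 + ιb v) l +
        gr x0 g d2 l)
    linarith
  · have := E3 i
    simp only [mul_add, Finset.sum_add_distrib] at this
    show ∑ j, ((c0 + ι0 x).2 j * stc (y.2 j) (a0 + ιa u) (b0 + ιb v) i +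
        d1.2 j * syc (y.1 j) (b0 + ιb v) i + d2.2 j * syc (y.1 j) (a0 + ιa u) i) =
      -(∑ j, (c0 + ι0 x).2 j * mt (t0 j) (a0 + ιa u) (b0 + ιb v) i +
      (d1.1 * (b0 + ιb v) i + ∑ j, d1.2 j * mv (s0 j) (b0 + ιb v) i) +
      (d2.1 * (a0 + ιa u) i + ∑ j, d2.2 j * mv (s0 j) (a0 + ιa u) i) + gr x0 g d3 i)
    simp only [Finset.sum_add_distrib]
    linarith

/-- Null set, `c = (1, 0)`. -/
theorem nullB (hn : 3 * k + 1 < n) (x0 : Fin n → ℝ) (g : Fin k → Fin n → ℝ)
    (s0 : Fin k → Fin n → Fin n → ℝ) (t0 : Fin k → Fin n → Fin n → Fin n → ℝ) :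
    (volume : Measure (Arr n k)) {y | ∃ (c1 c2 c3 : Cf k) (a b : Fin n → ℝ),
      c1.1 = -∑ j, c1.2 j * dt (g j) x0 ∧ c2.1 = -∑ j, c2.2 j * dt (g j) x0 ∧
      b ≠ 0 ∧ dt a b = 0 ∧ (∃ j0, c1.2 j0 ≠ 0) ∧
      EqH x0 g s0 t0 y (1, 0) c1 c2 c3 a b} = 0 := by
  classical
  let PP : Type := (Fin k → ℝ) × (Fin k → ℝ) × Cf k
  set e : (Fin k → ℝ) → Cf k := fun v => (-∑ j, v j * dt (g j) x0, v) with hedef
  have he : ContDiff ℝ 1 e := by
    refine ContDiff.prodMk ?_ contDiff_id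
    exact (ContDiff.sum fun j _ => (contDiff_apply ℝ ℝ j).mul contDiff_const).neg
  set c1 : PP → Cf k := fun p => e p.1 with hc1def
  set c2 : PP → Cf k := fun p => e p.2.1 with hc2def
  set c3 : PP → Cf k := fun p => p.2.2 with hc3def
  set a : PP → Fin n → ℝ := fun p i => -gr x0 g (c1 p) i with hadef
  set b : PP → Fin n → ℝ := fun p i => -gr x0 g (c2 p) i with hbdef
  have hc1 : ContDiff ℝ 1 c1 := he.comp contDiff_fst
  have hc2 : ContDiff ℝ 1 c2 := he.comp (contDiff_fst.comp contDiff_snd)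
  have hc3 : ContDiff ℝ 1 c3 := contDiff_snd.comp contDiff_snd
  have ha : ContDiff ℝ 1 a := contDiff_pi.2 fun i => (gr_smooth _ _ hc1 i).neg
  have hb : ContDiff ℝ 1 b := contDiff_pi.2 fun i => (gr_smooth _ _ hc2 i).neg
  set h : PP → (Fin n → ℝ) := fun p i => -(((c1 p).1 * b p i + ∑ j, (c1 p).2 j * mv (s0 j) (b p) i) +
      ((c2 p).1 * a p i + ∑ j, (c2 p).2 j * mv (s0 j) (a p) i) + gr x0 g (c3 p) i) with hh
  have hai : ∀ i, ContDiff ℝ 1 fun p => a p i := fun i => (contDiff_pi.1 ha) i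
  have hbi : ∀ i, ContDiff ℝ 1 fun p => b p i := fun i => (contDiff_pi.1 hb) i
  have hhs : ContDiff ℝ 1 h := contDiff_pi.2 fun i =>
    ((((hc1.fst.mul (hbi i)).add (cs_smooth hc1 fun j => mv_smooth _ hb i)).add
        ((hc2.fst.mul (hai i)).add (cs_smooth hc2 fun j => mv_smooth _ ha i))).add
        (gr_smooth _ _ hc3 i)).neg
  have hrank : finrank ℝ PP < finrank ℝ (Fin n → ℝ) := by
    simp only [PP, Module.finrank_prod, Module.finrank_self, Module.finrank_fin_fun]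
    omega
  have := arr_haar (n := n) (k := k)
  have key := nul (volume : Measure (Arr n k)) (U := (Set.univ : Set PP)) isOpen_univ
    (fun p => LinearMap.toContinuousLinearMap (LB (a p) (b p) (c1 p) (c2 p))) h
    (LB_smooth hc1 hc2 ha hb).contDiffOn hhs.contDiffOn hrank
  refine measure_mono_null ?_ key
  rintro y ⟨d1, d2, d3, a', b', f1, f2, hb0, hab, ⟨j0, hj0⟩, E1, E2, E3⟩
  have g1 : c1 (d1.2, d2.2, d3) = d1 := Prod.ext f1.symm rfl
  have g2 : c2 (d1.2, d2.2, d3) = d2 := Prod.ext f2.symm rfl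
  have ga : a (d1.2, d2.2, d3) = a' := by
    funext i
    have := E1 i
    simp only [one_mul, Pi.zero_apply, zero_mul, Finset.sum_const_zero, add_zero] at this
    show -gr x0 g (c1 (d1.2, d2.2, d3)) i = a' i
    rw [g1]
    linarith
  have gb : b (d1.2, d2.2, d3) = b' := by
    funext i
    have := E2 i
    simp only [one_mul, Pi.zero_apply, zero_mul, Finset.sum_const_zero, add_zero] at this
    show -gr x0 g (c2 (d1.2, d2.2, d3)) i = b' i
    rw [g2]
    linarith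
  refine ⟨(d1.2, d2.2, d3), Set.mem_univ _, ?_, ?_⟩
  · show Function.Surjective (LB (a (d1.2, d2.2, d3)) (b (d1.2, d2.2, d3))
      (c1 (d1.2, d2.2, d3)) (c2 (d1.2, d2.2, d3)))
    rw [ga, gb, g1, g2]
    exact LB_surj hb0 hab d1 d2 j0 hj0
  · show (LB (a (d1.2, d2.2, d3)) (b (d1.2, d2.2, d3))
      (c1 (d1.2, d2.2, d3)) (c2 (d1.2, d2.2, d3))) y = h (d1.2, d2.2, d3)
    rw [hh]
    simp only
    rw [ga, gb, g1, g2]
    funext i
    have := E3 i
    simp only [Pi.zero_apply, zero_mul, Finset.sum_const_zero, zero_add, mul_add,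
      Finset.sum_add_distrib] at this
    show ∑ j, (d1.2 j * syc (y.1 j) b' i + d2.2 j * syc (y.1 j) a' i) =
      -((d1.1 * b' i + ∑ j, d1.2 j * mv (s0 j) b' i) +
      (d2.1 * a' i + ∑ j, d2.2 j * mv (s0 j) a' i) + gr x0 g d3 i)
    simp only [Finset.sum_add_distrib]
    linarith

end Pool.Agent.LFK.GA
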