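import Mathlib

/-! Derivatives of quadratic and cubic polynomials at their centre. -/

set_option autoImplicit false

namespace Pool.Agent.LFK.GEN

open MeasureTheory Set Metric
open scoped ENNReal ContDiff RealInnerProductSpace

/-- `R^n`. -/
abbrev V (n : ℕ) : Type := EuclideanSpace ℝ (Fin n)

/-- The quadratic form with the array `q`, as a function of `x - x0`. -/
noncomputable def p2 {n : ℕ} (q : Fin n → Fin n → ℝ) (x0 x : V n) : ℝ :=
  ∑ i, ∑ l, q i l * ((x i - x0 i) * (x l - x0 l))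

/-- The cubic form with the array `t`, as a function of `x - x0`. -/
noncomputable def p3 {n : ℕ} (t : Fin n → Fin n → Fin n → ℝ) (x0 x : V n) : ℝ :=
  ∑ i, ∑ l, ∑ m, t i l m * ((x i - x0 i) * (x l - x0 l) * (x m - x0 m))

/-- The vector `(q + q^T) u`. -/
noncomputable def sy {n : ℕ} (q : Fin n → Fin n → ℝ) (u : V n) : V n :=
  WithLp.toLp 2 (fun i => ∑ l, (q i l + q l i) * u l)

/-- The vector of the symmetrised array `t` at `u`, `v`. -/
noncomputable def st {n : ℕ} (t : Fin n → Fin n → Fin n → ℝ) (u v : V n) : V n :=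
  WithLp.toLp 2 (fun i => ∑ l, ∑ m,
    (t i l m + t i m l + t l i m + t m i l + t l m i + t m l i) * (u l * v m))

variable {n : ℕ}

theorem fd_lin (x0 x : V n) (i : Fin n) :
    HasFDerivAt (fun x : V n => x i - x0 i) (EuclideanSpace.proj i : V n →L[ℝ] ℝ) x :=
  ((EuclideanSpace.proj i : V n →L[ℝ] ℝ).hasFDerivAt).sub_const _

theorem contDiff_lin (x0 : V n) (i : Fin n) : ContDiff ℝ ∞ (fun x : V n => x i - x0 i) :=
  ((EuclideanSpace.proj i : V n →L[ℝ] ℝ).contDiff).sub contDiff_const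

theorem contDiff_p2 (q : Fin n → Fin n → ℝ) (x0 : V n) : ContDiff ℝ ∞ (p2 q x0) := by
  unfold p2
  refine ContDiff.sum fun i _ => ContDiff.sum fun l _ => contDiff_const.mul ?_
  exact (contDiff_lin x0 i).mul (contDiff_lin x0 l)

theorem contDiff_p3 (t : Fin n → Fin n → Fin n → ℝ) (x0 : V n) : ContDiff ℝ ∞ (p3 t x0) := by
  unfold p3
  refine ContDiff.sum fun i _ => ContDiff.sum fun l _ => ContDiff.sum fun m _ =>
    contDiff_const.mul ?_
  exact ((contDiff_lin x0 i).mul (contDiff_lin x0 l)).mul (contDiff_lin x0 m)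

/-- Iterated derivatives as directional derivatives. -/
theorem iter_dir {f : V n → ℝ} (hf : ContDiff ℝ ∞ f) {k : ℕ} (x : V n) (m : Fin (k + 1) → V n) :
    iteratedFDeriv ℝ (k + 1) f x m =
      fderiv ℝ (fun y => iteratedFDeriv ℝ k f y (Fin.tail m)) x (m 0) := by
  refine DifferentiableAt.iteratedFDeriv_succ_apply_left' ?_
  exact (hf.differentiable_iteratedFDeriv (by exact_mod_cast (WithTop.coe_lt_top k))) x

theorem p2_d1 (q : Fin n → Fin n → ℝ) (x0 x v : V n) :
    fderiv ℝ (p2 q x0) x v = ∑ i, ∑ l, q i l * (v i * (x l - x0 l) + (x i - x0 i) * v l) := by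
  have h : HasFDerivAt (p2 q x0) (∑ i, ∑ l, q i l • ((x i - x0 i) •
      (EuclideanSpace.proj l : V n →L[ℝ] ℝ) + (x l - x0 l) •
      (EuclideanSpace.proj i : V n →L[ℝ] ℝ))) x := by
    unfold p2
    refine HasFDerivAt.fun_sum fun i _ => HasFDerivAt.fun_sum fun l _ => ?_
    exact ((fd_lin x0 x i).mul (fd_lin x0 x l)).const_mul _
  rw [h.fderiv]
  simp only [FunLike.coe_sum, Finset.sum_apply, FunLike.coe_smul,
    Pi.smul_apply, add_apply, PiLp.proj_apply, smul_eq_mul]
  refine Finset.sum_congr rfl fun i _ => Finset.sum_congr rfl fun l _ => ?_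
  ring

theorem p2_d2 (q : Fin n → Fin n → ℝ) (x0 x u v : V n) :
    iteratedFDeriv ℝ 2 (p2 q x0) x ![u, v] = ∑ i, ∑ l, q i l * (v i * u l + u i * v l) := by
  rw [iter_dir (contDiff_p2 q x0)]
  have h1 : (fun y => iteratedFDeriv ℝ 1 (p2 q x0) y (Fin.tail ![u, v])) = fun y =>
      ∑ i, ∑ l, q i l * (v i * (y l - x0 l) + (y i - x0 i) * v l) := by
    funext y
    rw [iteratedFDeriv_one_apply, ← p2_d1]
    rfl
  rw [h1]
  have h : HasFDerivAt (fun y : V n => ∑ i, ∑ l, q i l * (v i * (y l - x0 l) + (y i - x0 i) * v l))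
      (∑ i, ∑ l, q i l • (v i • (EuclideanSpace.proj l : V n →L[ℝ] ℝ) + v l •
      (EuclideanSpace.proj i : V n →L[ℝ] ℝ))) x := by
    refine HasFDerivAt.fun_sum fun i _ => HasFDerivAt.fun_sum fun l _ => ?_
    exact (((fd_lin x0 x l).const_mul _).add ((fd_lin x0 x i).mul_const _)).const_mul _
  rw [h.fderiv]
  simp only [FunLike.coe_sum, Finset.sum_apply, FunLike.coe_smul,
    Pi.smul_apply, add_apply, PiLp.proj_apply, smul_eq_mul,
    Matrix.cons_val_zero]
  refine Finset.sum_congr rfl fun i _ => Finset.sum_congr rfl fun l _ => ?_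
  ring

theorem p2_d3 (q : Fin n → Fin n → ℝ) (x0 x : V n) (m : Fin 3 → V n) :
    iteratedFDeriv ℝ 3 (p2 q x0) x m = 0 := by
  rw [iter_dir (contDiff_p2 q x0)]
  have h1 : (fun y => iteratedFDeriv ℝ 2 (p2 q x0) y (Fin.tail m)) = fun y =>
      ∑ i, ∑ l, q i l * (m 2 i * m 1 l + m 1 i * m 2 l) := by
    funext y
    rw [← p2_d2 q x0 y]
    congr 1
    funext i
    fin_cases i <;> rfl
  rw [h1]
  simp

theorem p3_d1 (t : Fin n → Fin n → Fin n → ℝ) (x0 x v : V n) :
    fderiv ℝ (p3 t x0) x v = ∑ i, ∑ l, ∑ m, t i l m * (v i * ((x l - x0 l) * (x m - x0 m)) +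
      v l * ((x i - x0 i) * (x m - x0 m)) + v m * ((x i - x0 i) * (x l - x0 l))) := by
  have h : HasFDerivAt (p3 t x0) (∑ i, ∑ l, ∑ m, t i l m • (((x i - x0 i) * (x l - x0 l)) •
      (EuclideanSpace.proj m : V n →L[ℝ] ℝ) + (x m - x0 m) • ((x i - x0 i) •
      (EuclideanSpace.proj l : V n →L[ℝ] ℝ) + (x l - x0 l) •
      (EuclideanSpace.proj i : V n →L[ℝ] ℝ)))) x := by
    unfold p3
    refine HasFDerivAt.fun_sum fun i _ => HasFDerivAt.fun_sum fun l _ =>
      HasFDerivAt.fun_sum fun m _ => ?_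
    exact (((fd_lin x0 x i).mul (fd_lin x0 x l)).mul (fd_lin x0 x m)).const_mul _
  rw [h.fderiv]
  simp only [FunLike.coe_sum, Finset.sum_apply, FunLike.coe_smul,
    Pi.smul_apply, add_apply, PiLp.proj_apply, smul_eq_mul]
  refine Finset.sum_congr rfl fun i _ => Finset.sum_congr rfl fun l _ =>
    Finset.sum_congr rfl fun m _ => ?_
  ring

theorem p3_d2 (t : Fin n → Fin n → Fin n → ℝ) (x0 x u v : V n) :
    iteratedFDeriv ℝ 2 (p3 t x0) x ![u, v] = ∑ i, ∑ l, ∑ m, t i l m *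
      (v i * (u l * (x m - x0 m) + (x l - x0 l) * u m) +
      v l * (u i * (x m - x0 m) + (x i - x0 i) * u m) +
      v m * (u i * (x l - x0 l) + (x i - x0 i) * u l)) := by
  rw [iter_dir (contDiff_p3 t x0)]
  have h1 : (fun y => iteratedFDeriv ℝ 1 (p3 t x0) y (Fin.tail ![u, v])) = fun y =>
      ∑ i, ∑ l, ∑ m, t i l m * (v i * ((y l - x0 l) * (y m - x0 m)) +
      v l * ((y i - x0 i) * (y m - x0 m)) + v m * ((y i - x0 i) * (y l - x0 l))) := by
    funext y
    rw [iteratedFDeriv_one_apply, ← p3_d1]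
    rfl
  rw [h1]
  have h : HasFDerivAt (fun y : V n => ∑ i, ∑ l, ∑ m, t i l m *
      (v i * ((y l - x0 l) * (y m - x0 m)) +
      v l * ((y i - x0 i) * (y m - x0 m)) + v m * ((y i - x0 i) * (y l - x0 l))))
      (∑ i, ∑ l, ∑ m, t i l m • (
        v i • ((x l - x0 l) • (EuclideanSpace.proj m : V n →L[ℝ] ℝ) + (x m - x0 m) •
          (EuclideanSpace.proj l : V n →L[ℝ] ℝ)) +
        v l • ((x i - x0 i) • (EuclideanSpace.proj m : V n →L[ℝ] ℝ) + (x m - x0 m) •
          (EuclideanSpace.proj i : V n →L[ℝ] ℝ)) +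
        v m • ((x i - x0 i) • (EuclideanSpace.proj l : V n →L[ℝ] ℝ) + (x l - x0 l) •
          (EuclideanSpace.proj i : V n →L[ℝ] ℝ)))) x := by
    refine HasFDerivAt.fun_sum fun i _ => HasFDerivAt.fun_sum fun l _ =>
      HasFDerivAt.fun_sum fun m _ => ?_
    exact (((((fd_lin x0 x l).mul (fd_lin x0 x m)).const_mul _).add
      (((fd_lin x0 x i).mul (fd_lin x0 x m)).const_mul _)).add
      (((fd_lin x0 x i).mul (fd_lin x0 x l)).const_mul _)).const_mul _
  rw [h.fderiv]
  simp only [FunLike.coe_sum, Finset.sum_apply, FunLike.coe_smul,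
    Pi.smul_apply, add_apply, PiLp.proj_apply, smul_eq_mul,
    Matrix.cons_val_zero]
  refine Finset.sum_congr rfl fun i _ => Finset.sum_congr rfl fun l _ =>
    Finset.sum_congr rfl fun m _ => ?_
  ring

theorem p3_d3 (t : Fin n → Fin n → Fin n → ℝ) (x0 x u v w : V n) :
    iteratedFDeriv ℝ 3 (p3 t x0) x ![u, v, w] = ∑ i, ∑ l, ∑ m, t i l m *
      (w i * (v l * u m + u l * v m) + w l * (v i * u m + u i * v m) +
      w m * (v i * u l + u i * v l)) := by
  rw [iter_dir (contDiff_p3 t x0)]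
  have h1 : (fun y => iteratedFDeriv ℝ 2 (p3 t x0) y (Fin.tail ![u, v, w])) = fun y =>
      ∑ i, ∑ l, ∑ m, t i l m *
      (w i * (v l * (y m - x0 m) + (y l - x0 l) * v m) +
      w l * (v i * (y m - x0 m) + (y i - x0 i) * v m) +
      w m * (v i * (y l - x0 l) + (y i - x0 i) * v l)) := by
    funext y
    rw [← p3_d2 t x0 y]
    rfl
  rw [h1]
  have h : HasFDerivAt (fun y : V n => ∑ i, ∑ l, ∑ m, t i l m *
      (w i * (v l * (y m - x0 m) + (y l - x0 l) * v m) +
      w l * (v i * (y m - x0 m) + (y i - x0 i) * v m) +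
      w m * (v i * (y l - x0 l) + (y i - x0 i) * v l)))
      (∑ i, ∑ l, ∑ m, t i l m • (
        w i • (v l • (EuclideanSpace.proj m : V n →L[ℝ] ℝ) + v m •
          (EuclideanSpace.proj l : V n →L[ℝ] ℝ)) +
        w l • (v i • (EuclideanSpace.proj m : V n →L[ℝ] ℝ) + v m •
          (EuclideanSpace.proj i : V n →L[ℝ] ℝ)) +
        w m • (v i • (EuclideanSpace.proj l : V n →L[ℝ] ℝ) + v l •
          (EuclideanSpace.proj i : V n →L[ℝ] ℝ)))) x := by
    refine HasFDerivAt.fun_sum fun i _ => HasFDerivAt.fun_sum fun l _ =>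
      HasFDerivAt.fun_sum fun m _ => ?_
    have e := fun (i : Fin n) => fd_lin x0 x i
    exact ((((((e m).const_mul _).add ((e l).mul_const _)).const_mul _).add
      ((((e m).const_mul _).add ((e i).mul_const _)).const_mul _)).add
      ((((e l).const_mul _).add ((e i).mul_const _)).const_mul _)).const_mul _
  rw [h.fderiv]
  simp only [FunLike.coe_sum, Finset.sum_apply, FunLike.coe_smul,
    Pi.smul_apply, add_apply, PiLp.proj_apply, smul_eq_mul,
    Matrix.cons_val_zero]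
  refine Finset.sum_congr rfl fun i _ => Finset.sum_congr rfl fun l _ =>
    Finset.sum_congr rfl fun m _ => ?_
  ring

end Pool.Agent.LFK.GEN
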