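import Pool.Agent.LFK.GArr
import Pool.Agent.LFK.JET

/-!
# [LEAFK GEN] FIN: the two null sets of coefficient arrays.
-/

set_option autoImplicit false

namespace Pool.Agent.LFK.GA

open Module MeasureTheory Pool.Agent.MP_6cbfb8_an
open Pool.Agent.LFK.GEN (sy st)

variable {n k : ℕ}

/-- Projections of countable unions of closed sets. -/
theorem meas_proj {X Y : Type*} [TopologicalSpace X] [TopologicalSpace Y] [MeasurableSpace X]
    [OpensMeasurableSpace X] [T2Space X] [SigmaCompactSpace (X × Y)] (F : ℕ → Set (X × Y))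
    (hF : ∀ m, IsClosed (F m)) : MeasurableSet {x | ∃ y, ∃ m, (x, y) ∈ F m} := by
  have h1 : {x | ∃ y, ∃ m, (x, y) ∈ F m} = ⋃ m, Prod.fst '' F m := by
    ext x
    simp only [Set.mem_ofPred_eq, Set.mem_iUnion, Set.mem_image, Prod.exists, exists_and_right,
      exists_eq_right]
    exact exists_comm
  rw [h1]
  refine MeasurableSet.iUnion fun m => ?_
  obtain ⟨K, hK, hKu⟩ := (isSigmaCompact_univ.of_isClosed_subset (hF m)
    (Set.subset_univ _)).image continuous_fst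
  rw [← hKu]
  exact MeasurableSet.iUnion fun i => (hK i).isClosed.measurableSet

theorem sc_of_fd (V : Type*) [NormedAddCommGroup V] [NormedSpace ℝ V] [FiniteDimensional ℝ V] :
    SigmaCompactSpace V := by
  have := FiniteDimensional.proper_real V
  infer_instance

/-- The gradients shifted. -/
def sh (g l : Fin k → Fin n → ℝ) : Fin k → Fin n → ℝ := fun j i => g j i + l j i

/-- The bad arrays. -/
def Bad (x0 : Fin n → ℝ) (g : Fin k → Fin n → ℝ) (s0 : Fin k → Fin n → Fin n → ℝ)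
    (t0 : Fin k → Fin n → Fin n → Fin n → ℝ) (y : (Fin k → Fin n → ℝ) × Arr n k) : Prop :=
  ∃ (c c1 c2 c3 : Cf k) (a b : Fin n → ℝ), c ≠ 0 ∧ a ≠ 0 ∧ b ≠ 0 ∧
      dt a x0 = 0 ∧ dt b x0 = 0 ∧ dt a b = 0 ∧ EqH x0 (sh g y.1) s0 t0 y.2 c c1 c2 c3 a b

theorem ne_zero_iff_m {X : Type*} [NormedAddCommGroup X] (x : X) :
    x ≠ 0 ↔ ∃ m0 : ℕ, ∀ m : ℕ, m0 ≤ m → ((m : ℝ) + 1)⁻¹ ≤ ‖x‖ := by
  constructor
  · intro hx
    obtain ⟨m0, hm⟩ := exists_nat_one_div_lt (norm_pos_iff.2 hx)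
    refine ⟨m0, fun m h => ?_⟩
    have h1 : ((m : ℝ) + 1)⁻¹ ≤ ((m0 : ℝ) + 1)⁻¹ := by
      apply inv_anti₀ (by positivity)
      have : (m0 : ℝ) ≤ m := by exact_mod_cast h
      linarith
    rw [one_div] at hm
    linarith
  · rintro ⟨m0, hm⟩ rfl
    have := hm m0 le_rfl
    rw [norm_zero] at this
    have h2 : (0 : ℝ) < ((m0 : ℝ) + 1)⁻¹ := by positivity
    linarith

/-- The parameters. -/
abbrev TT (n k : ℕ) : Type := Cf k × Cf k × Cf k × Cf k × (Fin n → ℝ) × (Fin n → ℝ)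

/-- The closed pieces of the incidence set. -/
def FF (x0 : Fin n → ℝ) (g : Fin k → Fin n → ℝ) (s0 : Fin k → Fin n → Fin n → ℝ)
    (t0 : Fin k → Fin n → Fin n → Fin n → ℝ) (m : ℕ) :
    Set (((Fin k → Fin n → ℝ) × Arr n k) × TT n k) :=
  {z | ((m : ℝ) + 1)⁻¹ ≤ ‖z.2.1‖ ∧ ((m : ℝ) + 1)⁻¹ ≤ ‖z.2.2.2.2.2.1‖ ∧
      ((m : ℝ) + 1)⁻¹ ≤ ‖z.2.2.2.2.2.2‖ ∧ dt z.2.2.2.2.2.1 x0 = 0 ∧ dt z.2.2.2.2.2.2 x0 = 0 ∧
      dt z.2.2.2.2.2.1 z.2.2.2.2.2.2 = 0 ∧
      EqH x0 (sh g z.1.1) s0 t0 z.1.2 z.2.1 z.2.2.1 z.2.2.2.1 z.2.2.2.2.1 z.2.2.2.2.2.1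
        z.2.2.2.2.2.2}

theorem FF_closed (x0 : Fin n → ℝ) (g : Fin k → Fin n → ℝ) (s0 : Fin k → Fin n → Fin n → ℝ)
    (t0 : Fin k → Fin n → Fin n → Fin n → ℝ) (m : ℕ) : IsClosed (FF x0 g s0 t0 m) := by
  have c1 : Continuous fun z : ((Fin k → Fin n → ℝ) × Arr n k) × TT n k => ‖z.2.1‖ := by fun_prop
  have c2 : Continuous fun z : ((Fin k → Fin n → ℝ) × Arr n k) × TT n k =>
    ‖z.2.2.2.2.2.1‖ := by fun_prop
  have c3 : Continuous fun z : ((Fin k → Fin n → ℝ) × Arr n k) × TT n k =>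
    ‖z.2.2.2.2.2.2‖ := by fun_prop
  have d1 : Continuous fun z : ((Fin k → Fin n → ℝ) × Arr n k) × TT n k =>
    dt z.2.2.2.2.2.1 x0 := by
    unfold dt
    fun_prop
  have d2 : Continuous fun z : ((Fin k → Fin n → ℝ) × Arr n k) × TT n k =>
    dt z.2.2.2.2.2.2 x0 := by
    unfold dt
    fun_prop
  have d3 : Continuous fun z : ((Fin k → Fin n → ℝ) × Arr n k) × TT n k =>
    dt z.2.2.2.2.2.1 z.2.2.2.2.2.2 := by
    unfold dt
    fun_prop
  have e1 : IsClosed {z : ((Fin k → Fin n → ℝ) × Arr n k) × TT n k |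
      EqH x0 (sh g z.1.1) s0 t0 z.1.2 z.2.1 z.2.2.1 z.2.2.2.1 z.2.2.2.2.1 z.2.2.2.2.2.1
        z.2.2.2.2.2.2} := by
    unfold EqH mv mt syc stc gr sh
    simp only [Set.ofPred_and, Set.ofPred_forall]
    refine IsClosed.inter (isClosed_iInter fun i => isClosed_eq ?_ continuous_const) <|
      IsClosed.inter (isClosed_iInter fun i => isClosed_eq ?_ continuous_const)
      (isClosed_iInter fun i => isClosed_eq ?_ continuous_const)
    · fun_prop
    · fun_prop
    · fun_prop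
  exact (isClosed_le continuous_const c1).inter ((isClosed_le continuous_const c2).inter
    ((isClosed_le continuous_const c3).inter ((isClosed_eq d1 continuous_const).inter
    ((isClosed_eq d2 continuous_const).inter ((isClosed_eq d3 continuous_const).inter e1)))))

theorem bad_meas (x0 : Fin n → ℝ) (g : Fin k → Fin n → ℝ) (s0 : Fin k → Fin n → Fin n → ℝ)
    (t0 : Fin k → Fin n → Fin n → Fin n → ℝ) : MeasurableSet {y | Bad x0 g s0 t0 y} := by
  have hset : {y | Bad x0 g s0 t0 y} = {y | ∃ t : TT n k, ∃ m, (y, t) ∈ FF x0 g s0 t0 m} := by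
    ext y
    constructor
    · rintro ⟨c, c1, c2, c3, a, b, hc, ha, hb, h1, h2, h3, h4⟩
      obtain ⟨m1, e1⟩ := (ne_zero_iff_m c).1 hc
      obtain ⟨m2, e2⟩ := (ne_zero_iff_m a).1 ha
      obtain ⟨m3, e3⟩ := (ne_zero_iff_m b).1 hb
      exact ⟨(c, c1, c2, c3, a, b), m1 + m2 + m3, e1 _ (by omega), e2 _ (by omega),
        e3 _ (by omega), h1, h2, h3, h4⟩
    · rintro ⟨⟨c, c1, c2, c3, a, b⟩, m, e1, e2, e3, h1, h2, h3, h4⟩
      have hm : (0 : ℝ) < ((m : ℝ) + 1)⁻¹ := by positivity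
      exact ⟨c, c1, c2, c3, a, b, norm_pos_iff.1 (hm.trans_le e1),
        norm_pos_iff.1 (hm.trans_le e2), norm_pos_iff.1 (hm.trans_le e3), h1, h2, h3, h4⟩
  rw [hset]
  have : SigmaCompactSpace (((Fin k → Fin n → ℝ) × Arr n k) × TT n k) := sc_of_fd _
  exact meas_proj _ (FF_closed x0 g s0 t0)

/-- The coordinate form with the linear part. -/
theorem gen_coord2 (hn : 4 * k < n) {x0 : Fin n → ℝ} (hx : dt x0 x0 = 1) (g : Fin k → Fin n → ℝ)
    (s0 : Fin k → Fin n → Fin n → ℝ) (t0 : Fin k → Fin n → Fin n → Fin n → ℝ) :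
    ∀ᵐ y : (Fin k → Fin n → ℝ) × Arr n k, ¬ Bad x0 g s0 t0 y := by
  have k1 : SigmaFinite (volume : Measure (Fin n → ℝ)) := sf_pi _ _
  have k2 : SigmaFinite (volume : Measure (Fin n → Fin n → ℝ)) := sf_pi _ _
  have k3 : SigmaFinite (volume : Measure (Fin n → Fin n → Fin n → ℝ)) := sf_pi _ _
  have k4 : SigmaFinite (volume : Measure (Fin k → Fin n → Fin n → ℝ)) := sf_pi _ _
  have k5 : SigmaFinite (volume : Measure (Fin k → Fin n → Fin n → Fin n → ℝ)) := sf_pi _ _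
  have k6 : SigmaFinite (volume : Measure (Fin k → Fin n → ℝ)) := sf_pi _ _
  have k7 : SigmaFinite (volume : Measure (Arr n k)) := by
    show SigmaFinite ((volume : Measure (Fin k → Fin n → Fin n → ℝ)).prod
        (volume : Measure (Fin k → Fin n → Fin n → Fin n → ℝ)))
    infer_instance
  have e : (volume : Measure ((Fin k → Fin n → ℝ) × Arr n k)) =
      (volume : Measure (Fin k → Fin n → ℝ)).prod (volume : Measure (Arr n k)) := rfl
  rw [e]
  refine (Measure.ae_prod_iff_ae_ae (p := fun y => ¬ Bad x0 g s0 t0 y)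
    (bad_meas x0 g s0 t0).compl).2 ?_
  refine Filter.Eventually.of_forall fun l => ?_
  filter_upwards [gen_coord hn hx (sh g l) s0 t0] with y hy
  rintro ⟨c, c1, c2, c3, a, b, hc, ha, hb, h1, h2, h3, h4⟩
  exact hy c c1 c2 c3 a b hc ha hb h1 h2 h3 h4

theorem coord_ne {u : E n} (hu : u ≠ 0) : (fun i => u i) ≠ (0 : Fin n → ℝ) := by
  intro h
  refine hu (PiLp.ext fun i => ?_)
  exact congrFun h i

/-- For almost all coefficient arrays the equations have no solution. -/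
theorem gen_arrays (n k : ℕ) (hn : 4 * k < n) (x0 : E n) (hx : ‖x0‖ = 1) (g : Fin k → E n)
    (S0 : Fin k → E n →L[ℝ] E n) (T0 : Fin k → E n →L[ℝ] E n →L[ℝ] E n) :
    ∀ᵐ y : (Fin k → Fin n → ℝ) × (Fin k → Fin n → Fin n → ℝ) ×
        (Fin k → Fin n → Fin n → Fin n → ℝ),
      ∀ (c c1 c2 c3 : ℝ × (Fin k → ℝ)) (a b : E n), c ≠ 0 → a ≠ 0 → b ≠ 0 →
      inner ℝ a x0 = 0 → inner ℝ b x0 = 0 → inner ℝ a b = 0 →
      c.1 • a + ∑ j, c.2 j • (S0 j a + sy (y.2.1 j) a) +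
        (c1.1 • x0 + ∑ j, c1.2 j • (g j + WithLp.toLp 2 (y.1 j))) = 0 →
      c.1 • b + ∑ j, c.2 j • (S0 j b + sy (y.2.1 j) b) +
        (c2.1 • x0 + ∑ j, c2.2 j • (g j + WithLp.toLp 2 (y.1 j))) = 0 →
      ∑ j, c.2 j • (T0 j a b + st (y.2.2 j) a b) +
        (c1.1 • b + ∑ j, c1.2 j • (S0 j b + sy (y.2.1 j) b)) +
        (c2.1 • a + ∑ j, c2.2 j • (S0 j a + sy (y.2.1 j) a)) +
        (c3.1 • x0 + ∑ j, c3.2 j • (g j + WithLp.toLp 2 (y.1 j))) = 0 → False := by
  have hx' : dt (fun i => x0 i) (fun i => x0 i) = 1 := by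
    rw [← inner_dt, real_inner_self_eq_norm_sq, hx, one_pow]
  have key := gen_coord2 hn hx' (fun j i => g j i)
    (fun j i l => S0 j (EuclideanSpace.single l 1) i)
    (fun j i l m => T0 j (EuclideanSpace.single l 1) (EuclideanSpace.single m 1) i)
  filter_upwards [key] with y hy c c1 c2 c3 a b hc ha hb hax hbx hab h1 h2 h3
  refine hy ⟨c, c1, c2, c3, fun i => a i, fun i => b i, hc, coord_ne ha, coord_ne hb,
    by rw [← inner_dt, hax], by rw [← inner_dt, hbx], by rw [← inner_dt, hab],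
    fun i => ?_, fun i => ?_, fun i => ?_⟩
  · have e := congrArg (fun u : E n => u i) h1
    simp only [WithLp.ofLp_add, WithLp.ofLp_sum, WithLp.ofLp_smul, Finset.sum_apply, Pi.add_apply,
      Pi.smul_apply, smul_eq_mul, WithLp.ofLp_zero, Pi.zero_apply] at e
    simp only [fun j => clm_coord (S0 j) a i] at e
    exact e
  · have e := congrArg (fun u : E n => u i) h2
    simp only [WithLp.ofLp_add, WithLp.ofLp_sum, WithLp.ofLp_smul, Finset.sum_apply, Pi.add_apply,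
      Pi.smul_apply, smul_eq_mul, WithLp.ofLp_zero, Pi.zero_apply] at e
    simp only [fun j => clm_coord (S0 j) b i] at e
    exact e
  · have e := congrArg (fun u : E n => u i) h3
    simp only [WithLp.ofLp_add, WithLp.ofLp_sum, WithLp.ofLp_smul, Finset.sum_apply, Pi.add_apply,
      Pi.smul_apply, smul_eq_mul, WithLp.ofLp_zero, Pi.zero_apply] at e
    simp only [fun j => clm2_coord (T0 j) a b i, fun j => clm_coord (S0 j) a i,
      fun j => clm_coord (S0 j) b i] at e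
    exact e

/-- The linear part of the equation of dependence. -/
def LI (c : Cf k) : (Fin k → Fin n → ℝ) →ₗ[ℝ] (Fin n → ℝ) where
  toFun l := fun i => ∑ j, c.2 j * l j i
  map_add' x y := by
    refine funext fun i => ?_
    simp only [Pi.add_apply, mul_add, Finset.sum_add_distrib]
  map_smul' r y := by
    refine funext fun i => ?_
    simp only [Pi.smul_apply, smul_eq_mul, RingHom.id_apply, Finset.mul_sum]
    exact Finset.sum_congr rfl fun j _ => by ring

theorem LI_surj (c : Cf k) (j0 : Fin k) (hc : c.2 j0 = 1) :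
    Function.Surjective (LI (n := n) c) := by
  classical
  intro u
  refine ⟨Pi.single j0 u, funext fun i => ?_⟩
  show ∑ j, c.2 j * (Pi.single j0 u : Fin k → Fin n → ℝ) j i = u i
  rw [Finset.sum_eq_single j0]
  · rw [Pi.single_eq_same, hc, one_mul]
  · intro j _ hj
    rw [Pi.single_eq_of_ne hj, Pi.zero_apply, mul_zero]
  · intro h
    exact absurd (Finset.mem_univ j0) h

theorem indep_one (hn : k < n) (x0 : Fin n → ℝ) (g : Fin k → Fin n → ℝ) (j0 : Fin k) :
    ∀ᵐ l : Fin k → Fin n → ℝ, ∀ c : Cf k, c.2 j0 = 1 → ¬ ∀ i, gr x0 (sh g l) c i = 0 := by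
  have i1 : (volume : Measure (Fin n → ℝ)).IsAddHaarMeasure := haar_pi _ _
  have k1 : SigmaFinite (volume : Measure (Fin n → ℝ)) := sf_pi _ _
  have i2 : (volume : Measure (Fin k → Fin n → ℝ)).IsAddHaarMeasure := haar_pi _ _
  set c : CC k j0 → Cf k := fun p => ((0 : ℝ), (Pi.single j0 1 : Fin k → ℝ)) +
    (CC k j0).subtypeL p with hcdef
  have hc : ContDiff ℝ 1 c := contDiff_const.add (CC k j0).subtypeL.contDiff
  set A : CC k j0 → (Fin k → Fin n → ℝ) →L[ℝ] (Fin n → ℝ) := fun p =>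
    LinearMap.toContinuousLinearMap (LI (c p)) with hA
  set h : CC k j0 → (Fin n → ℝ) := fun p i => -gr x0 g (c p) i with hh
  have hAs : ContDiff ℝ 1 A := by
    rw [hA, contDiff_clm_apply_iff]
    intro y
    show ContDiff ℝ 1 fun p => (fun i => ∑ j, (c p).2 j * y j i : Fin n → ℝ)
    exact contDiff_pi.2 fun i => ContDiff.sum fun j _ =>
      ((contDiff_pi.1 hc.snd) j).mul contDiff_const
  have hhs : ContDiff ℝ 1 h := contDiff_pi.2 fun i => (gr_smooth _ _ hc i).neg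
  have hrank : finrank ℝ (CC k j0) < finrank ℝ (Fin n → ℝ) := by
    rw [finrank_CC, Module.finrank_fin_fun]
    exact hn
  have key := nul (volume : Measure (Fin k → Fin n → ℝ)) (U := (Set.univ : Set (CC k j0)))
    isOpen_univ A h hAs.contDiffOn hhs.contDiffOn hrank
  rw [measure_eq_zero_iff_ae_notMem] at key
  filter_upwards [key] with l hl d hd hcon
  apply hl
  have m0 : d - ((0 : ℝ), (Pi.single j0 1 : Fin k → ℝ)) ∈ CC k j0 := by
    unfold CC
    rw [LinearMap.mem_ker]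
    simp [hd]
  have q0 : c ⟨_, m0⟩ = d := add_sub_cancel _ _
  refine ⟨⟨_, m0⟩, Set.mem_univ _, ?_, ?_⟩
  · show Function.Surjective (LI (c ⟨_, m0⟩))
    rw [q0]
    exact LI_surj d j0 hd
  · show LI (c ⟨_, m0⟩) l = fun i => -gr x0 g (c ⟨_, m0⟩) i
    rw [q0]
    funext i
    have := hcon i
    unfold gr sh at this
    simp only [mul_add, Finset.sum_add_distrib] at this
    show ∑ j, d.2 j * l j i = -(d.1 * x0 i + ∑ j, d.2 j * g j i)
    linarith

/-- For almost all linear parts the gradients are independent. -/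
theorem indep_arrays (n k : ℕ) (hn : k < n) (x0 : E n) (hx : ‖x0‖ = 1) (g : Fin k → E n) :
    ∀ᵐ l : Fin k → Fin n → ℝ, ∀ c : ℝ × (Fin k → ℝ),
      c.1 • x0 + ∑ j, c.2 j • (g j + WithLp.toLp 2 (l j)) = 0 → c = 0 := by
  have hall : ∀ᵐ l : Fin k → Fin n → ℝ, ∀ (j0 : Fin k) (c : Cf k), c.2 j0 = 1 →
      ¬ ∀ i, gr (fun i => x0 i) (sh (fun j i => g j i) l) c i = 0 := by
    rw [ae_all_iff]
    exact fun j0 => indep_one hn _ _ j0
  filter_upwards [hall] with l hl c hc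
  have e : ∀ i, gr (fun i => x0 i) (sh (fun j i => g j i) l) c i = 0 := by
    intro i
    have e := congrArg (fun u : E n => u i) hc
    simp only [WithLp.ofLp_add, WithLp.ofLp_sum, WithLp.ofLp_smul, Finset.sum_apply, Pi.add_apply,
      Pi.smul_apply, smul_eq_mul, WithLp.ofLp_zero, Pi.zero_apply] at e
    exact e
  have h2 : ∀ j, c.2 j = 0 := by
    intro j
    by_contra hj
    refine hl j ((c.2 j)⁻¹ • c) (inv_mul_cancel₀ hj) fun i => ?_
    rw [gr_smul, e i, mul_zero]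
  have h1 : c.1 = 0 := by
    have h3 : c.1 • x0 = 0 := by
      rw [← hc]
      simp [h2]
    rcases smul_eq_zero.1 h3 with h4 | h4
    · exact h4
    · rw [h4, norm_zero] at hx
      exact absurd hx zero_ne_one
  exact Prod.ext h1 (funext h2)

end Pool.Agent.LFK.GA
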