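import Pool.Agent.LFK.GENF
import Pool.Agent.LFK.GFin

/-!
# [LEAFK], row GEN: for almost all cubic perturbations the phases are in general position.
-/

set_option autoImplicit false

namespace Pool.Agent.LFK.GEN

open MeasureTheory Pool.Agent.MP_6cbfb8_an

/-- For almost all coefficients of the cubic perturbation the phases are in general position. -/
theorem gen_ae (n k : ℕ) (hn : 4 * k < n) (φ : E n → E k) (x0 : E n) (hx : ‖x0‖ = 1)
    (hφ : ContDiffAt ℝ 3 φ x0) : ∀ᵐ y : Arr n k, Gen (fun x => φ x + pert y x0 x) x0 := by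
  have k1 : SigmaFinite (volume : Measure (Fin n → ℝ)) := GA.sf_pi _ _
  have k2 : SigmaFinite (volume : Measure (Fin n → Fin n → ℝ)) := GA.sf_pi _ _
  have k3 : SigmaFinite (volume : Measure (Fin n → Fin n → Fin n → ℝ)) := GA.sf_pi _ _
  have k4 : SigmaFinite (volume : Measure (Fin k → Fin n → Fin n → ℝ)) := GA.sf_pi _ _
  have k5 : SigmaFinite (volume : Measure (Fin k → Fin n → Fin n → Fin n → ℝ)) := GA.sf_pi _ _
  have k6 : SigmaFinite (volume : Measure (Fin k → Fin n → ℝ)) := GA.sf_pi _ _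
  have k7 : SigmaFinite (volume : Measure
      ((Fin k → Fin n → Fin n → ℝ) × (Fin k → Fin n → Fin n → Fin n → ℝ))) := by
    show SigmaFinite ((volume : Measure (Fin k → Fin n → Fin n → ℝ)).prod
        (volume : Measure (Fin k → Fin n → Fin n → Fin n → ℝ)))
    infer_instance
  have h1 := GA.indep_arrays n k (by omega) x0 hx (G0 φ x0)
  have h2 : ∀ᵐ y : Arr n k, ∀ c : ℝ × (Fin k → ℝ),
      c.1 • x0 + ∑ j, c.2 j • (G0 φ x0 j + WithLp.toLp 2 (y.1 j)) = 0 → c = 0 :=
    (Measure.quasiMeasurePreserving_fst (μ := (volume : Measure (Fin k → Fin n → ℝ)))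
      (ν := (volume : Measure
      ((Fin k → Fin n → Fin n → ℝ) × (Fin k → Fin n → Fin n → Fin n → ℝ))))).ae h1
  filter_upwards [h2, GA.gen_arrays n k hn x0 hx (G0 φ x0) (H0 φ x0) (K0 φ x0)] with y hI hA
  exact gen_of hφ y hI hA

/-- Arbitrarily small cubic perturbations put the phases in general position. -/
theorem gen_small (n k : ℕ) (hn : 4 * k < n) (φ : E n → E k) (x0 : E n) (hx : ‖x0‖ = 1)
    (hφ : ContDiffAt ℝ 3 φ x0) {ε : ℝ} (hε : 0 < ε) :
    ∃ y : Arr n k, ‖y‖ < ε ∧ Gen (fun x => φ x + pert y x0 x) x0 := by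
  have h1 : (volume : Measure (Fin n → ℝ)).IsAddHaarMeasure := GA.haar_pi _ _
  have k1 : SigmaFinite (volume : Measure (Fin n → ℝ)) := GA.sf_pi _ _
  have h2 : (volume : Measure (Fin k → Fin n → ℝ)).IsAddHaarMeasure := GA.haar_pi _ _
  have k2 : SigmaFinite (volume : Measure (Fin k → Fin n → ℝ)) := GA.sf_pi _ _
  have h3 := GA.arr_haar (n := n) (k := k)
  have e : (volume : Measure (Arr n k)) = (volume : Measure (Fin k → Fin n → ℝ)).prod
    (volume : Measure (GA.Arr n k)) := rfl
  have k7 : SigmaFinite (volume : Measure (GA.Arr n k)) := inferInstance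
  have h4 : (volume : Measure (Arr n k)).IsOpenPosMeasure := by
    rw [e]
    exact Measure.prod.instIsOpenPosMeasure
  obtain ⟨y, hy, hG⟩ := (Measure.dense_of_ae (gen_ae n k hn φ x0 hx hφ)).exists_mem_open
    (Metric.isOpen_ball (x := (0 : Arr n k)) (ε := ε)) ⟨0, Metric.mem_ball_self hε⟩
  exact ⟨y, by simpa using hG, hy⟩

end Pool.Agent.LFK.GEN
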