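import Pool.Agent.LFK.CH2
import Pool.Agent.LFK.JET

/-!
[LEAFK], row GEN: almost all cubic perturbations are in general position.
-/

set_option autoImplicit false

namespace Pool.Agent.LFK.GEN

open MeasureTheory Set Metric Pool.Agent.MP_6cbfb8_an
open scoped ContDiff RealInnerProductSpace

variable {n k : ℕ}

/-- Second derivatives. -/
theorem it2 (f : E n → ℝ) (x a y : E n) :
    fderiv ℝ (fderiv ℝ f) x a y = iteratedFDeriv ℝ 2 f x ![a, y] := by
  rw [iteratedFDeriv_two_apply]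
  rfl

/-- Third derivatives. -/
theorem it3 (f : E n → ℝ) (x a b y : E n) :
    fderiv ℝ (fderiv ℝ (fderiv ℝ f)) x a b y = iteratedFDeriv ℝ 3 f x ![a, b, y] := by
  rw [iteratedFDeriv_succ_apply_right, iteratedFDeriv_two_apply]
  rfl

/-- The linear form with the array `l`, as a function of `x - x0`. -/
noncomputable def p1 (l : Fin n → ℝ) (x0 x : E n) : ℝ := ∑ i, l i * (x i - x0 i)

theorem contDiff_p1 (l : Fin n → ℝ) (x0 : E n) : ContDiff ℝ ∞ (p1 l x0) := by
  unfold p1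
  exact ContDiff.sum fun i _ => contDiff_const.mul (contDiff_lin x0 i)

theorem p1_d1 (l : Fin n → ℝ) (x0 x v : E n) : fderiv ℝ (p1 l x0) x v = ∑ i, l i * v i := by
  have h : HasFDerivAt (p1 l x0) (∑ i, l i • (EuclideanSpace.proj i : E n →L[ℝ] ℝ)) x := by
    unfold p1
    exact HasFDerivAt.fun_sum fun i _ => (fd_lin x0 x i).const_mul _
  rw [h.fderiv]
  simp

theorem p1_d2 (l : Fin n → ℝ) (x0 x : E n) (m : Fin 2 → E n) :
    iteratedFDeriv ℝ 2 (p1 l x0) x m = 0 := by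
  rw [iter_dir (contDiff_p1 l x0)]
  have h1 : (fun y => iteratedFDeriv ℝ 1 (p1 l x0) y (Fin.tail m)) = fun _ =>
      ∑ i, l i * (m 1) i := by
    funext y
    rw [iteratedFDeriv_one_apply, ← p1_d1 l x0 y]
    rfl
  rw [h1]
  simp

theorem p1_d3 (l : Fin n → ℝ) (x0 x : E n) (m : Fin 3 → E n) :
    iteratedFDeriv ℝ 3 (p1 l x0) x m = 0 := by
  rw [iter_dir (contDiff_p1 l x0)]
  have h1 : (fun y => iteratedFDeriv ℝ 2 (p1 l x0) y (Fin.tail m)) = fun _ => 0 := by
    funext y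
    exact p1_d2 l x0 y _
  rw [h1]
  simp

/-- The cubic polynomials with the coefficients `y`, centred at `x0`. -/
noncomputable def pert (y : (Fin k → Fin n → ℝ) × (Fin k → Fin n → Fin n → ℝ) ×
    (Fin k → Fin n → Fin n → Fin n → ℝ)) (x0 x : E n) : E k :=
  WithLp.toLp 2 fun j => p1 (y.1 j) x0 x + p2 (y.2.1 j) x0 x + p3 (y.2.2 j) x0 x

theorem inner_eq (a b : E n) : ⟪a, b⟫ = ∑ i, a i * b i := by
  simp [PiLp.inner_apply, mul_comm]

theorem inner_sy (q : Fin n → Fin n → ℝ) (u v : E n) :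
    ⟪sy q u, v⟫ = ∑ i, ∑ l, q i l * (v i * u l + u i * v l) := by
  rw [inner_eq]
  have h1 : ∀ i, (sy q u) i * v i = ∑ l, (q i l * (u l * v i) + q l i * (u l * v i)) := by
    intro i
    show (∑ l, (q i l + q l i) * u l) * v i = _
    rw [Finset.sum_mul]
    exact Finset.sum_congr rfl fun l _ => by ring
  simp only [h1, Finset.sum_add_distrib]
  rw [Finset.sum_comm (f := fun i l => q l i * (u l * v i)), ← Finset.sum_add_distrib]
  refine Finset.sum_congr rfl fun i _ => ?_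
  rw [← Finset.sum_add_distrib]
  exact Finset.sum_congr rfl fun l _ => by ring

/-- The triple sum. -/
def S3 (F : Fin n → Fin n → Fin n → ℝ) : ℝ := ∑ i, ∑ l, ∑ m, F i l m

theorem S3_in (F : Fin n → Fin n → Fin n → ℝ) : S3 (fun i l m => F i m l) = S3 F :=
  Finset.sum_congr rfl fun _ _ => Finset.sum_comm

theorem S3_out (F : Fin n → Fin n → Fin n → ℝ) : S3 (fun i l m => F l i m) = S3 F :=
  Finset.sum_comm

theorem S3_4 (F : Fin n → Fin n → Fin n → ℝ) : S3 (fun i l m => F m i l) = S3 F :=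
  (S3_in fun i l m => F l i m).trans (S3_out F)

theorem S3_5 (F : Fin n → Fin n → Fin n → ℝ) : S3 (fun i l m => F l m i) = S3 F :=
  (S3_out fun a b c => F a c b).trans (S3_in F)

theorem S3_6 (F : Fin n → Fin n → Fin n → ℝ) : S3 (fun i l m => F m l i) = S3 F :=
  (S3_in fun a b c => F b c a).trans (S3_5 F)

theorem S3_add (F G : Fin n → Fin n → Fin n → ℝ) :
    S3 (fun i l m => F i l m + G i l m) = S3 F + S3 G := by
  unfold S3
  simp only [Finset.sum_add_distrib]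

theorem inner_st (t : Fin n → Fin n → Fin n → ℝ) (u v w : E n) :
    ⟪st t u v, w⟫ = ∑ i, ∑ l, ∑ m, t i l m *
      (w i * (v l * u m + u l * v m) + w l * (v i * u m + u i * v m) +
      w m * (v i * u l + u i * v l)) := by
  rw [inner_eq]
  have h1 : ∑ i, (st t u v) i * w i = S3 fun i l m =>
      t i l m * (u l * v m * w i) + t i m l * (u l * v m * w i) + t l i m * (u l * v m * w i) +
      t m i l * (u l * v m * w i) + t l m i * (u l * v m * w i) + t m l i * (u l * v m * w i) := by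
    unfold S3
    refine Finset.sum_congr rfl fun i _ => ?_
    show (∑ l, ∑ m, (t i l m + t i m l + t l i m + t m i l + t l m i + t m l i) *
      (u l * v m)) * w i = _
    rw [Finset.sum_mul]
    refine Finset.sum_congr rfl fun l _ => ?_
    rw [Finset.sum_mul]
    exact Finset.sum_congr rfl fun m _ => by ring
  rw [h1, S3_add, S3_add, S3_add, S3_add, S3_add,
    S3_in (fun i l m => t i l m * (u m * v l * w i)),
    S3_out (fun i l m => t i l m * (u i * v m * w l)),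
    S3_4 (fun i l m => t i l m * (u m * v i * w l)),
    S3_5 (fun i l m => t i l m * (u i * v l * w m)),
    S3_6 (fun i l m => t i l m * (u l * v i * w m)), ← S3_add, ← S3_add, ← S3_add, ← S3_add,
    ← S3_add]
  unfold S3
  refine Finset.sum_congr rfl fun i _ => Finset.sum_congr rfl fun l _ =>
    Finset.sum_congr rfl fun m _ => ?_
  ring

/-- Derivatives of linear combinations. -/
theorem iter_comb {i : ℕ} {f0 : E n → ℝ} {F : Fin k → E n → ℝ} {x : E n}
    (hf0 : ContDiffAt ℝ i f0 x) (hF : ∀ j, ContDiffAt ℝ i (F j) x) (c : Fin k → ℝ)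
    (m : Fin i → E n) :
    iteratedFDeriv ℝ i (fun x => f0 x + ∑ j, c j * F j x) x m =
      iteratedFDeriv ℝ i f0 x m + ∑ j, c j * iteratedFDeriv ℝ i (F j) x m := by
  have hs : ∀ j, ContDiffAt ℝ i (fun x => c j * F j x) x := fun j =>
    contDiffAt_const.mul (hF j)
  rw [fun_iteratedFDeriv_add_apply hf0 (ContDiffAt.sum fun j _ => hs j),
    _root_.add_apply, iteratedFDeriv_fun_sum_apply fun j _ => hs j,
    _root_.sum_apply]
  congr 1
  refine Finset.sum_congr rfl fun j _ => ?_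
  have h1 : (fun x => c j * F j x) = c j • F j := rfl
  rw [h1, iteratedFDeriv_const_smul_apply (hF j)]
  rfl

/-- Derivatives of sums of four functions. -/
theorem iter_add4 {i : ℕ} {f g h r : E n → ℝ} {x : E n} (hf : ContDiffAt ℝ i f x)
    (hg : ContDiffAt ℝ i g x) (hh : ContDiffAt ℝ i h x) (hr : ContDiffAt ℝ i r x)
    (m : Fin i → E n) :
    iteratedFDeriv ℝ i (fun x => f x + (g x + h x + r x)) x m =
      iteratedFDeriv ℝ i f x m + (iteratedFDeriv ℝ i g x m + iteratedFDeriv ℝ i h x m +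
        iteratedFDeriv ℝ i r x m) := by
  rw [fun_iteratedFDeriv_add_apply hf ((hg.add hh).add hr), _root_.add_apply,
    fun_iteratedFDeriv_add_apply (hg.add hh) hr, _root_.add_apply,
    fun_iteratedFDeriv_add_apply hg hh, _root_.add_apply]

/-- The array of `c |x|²`. -/
def dg (n : ℕ) (c : ℝ) : Fin n → Fin n → ℝ := fun i l => if i = l then c else 0

theorem p2_dg (c : ℝ) (x : E n) : p2 (dg n c) 0 x = c * ‖x‖ ^ 2 := by
  unfold p2 dg
  rw [EuclideanSpace.norm_sq_eq, Finset.mul_sum]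
  refine Finset.sum_congr rfl fun i _ => ?_
  simp [sq]

theorem sum_dg (c : ℝ) (u v : E n) : ∑ i, ∑ l, dg n c i l * (v i * u l + u i * v l) =
    2 * c * ⟪u, v⟫ := by
  unfold dg
  rw [inner_eq, Finset.mul_sum]
  refine Finset.sum_congr rfl fun i _ => ?_
  simp
  ring

/-- The components of `φ` and the perturbation. -/
noncomputable def cmp (φ : E n → E k) (y : (Fin k → Fin n → ℝ) × (Fin k → Fin n → Fin n → ℝ) ×
    (Fin k → Fin n → Fin n → Fin n → ℝ)) (x0 : E n) (j : Fin k) (x : E n) : ℝ :=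
  (φ x) j + (p1 (y.1 j) x0 x + p2 (y.2.1 j) x0 x + p3 (y.2.2 j) x0 x)

theorem phc_eq (φ : E n → E k) (y : (Fin k → Fin n → ℝ) × (Fin k → Fin n → Fin n → ℝ) ×
    (Fin k → Fin n → Fin n → Fin n → ℝ)) (x0 : E n) (c : ℝ × E k) :
    Phc (fun x => φ x + pert y x0 x) c =
      fun x => p2 (dg n (c.1 / 2)) 0 x + ∑ j, c.2 j * cmp φ y x0 j x := by
  funext x
  unfold Phc
  rw [p2_dg, inner_eq]
  rfl

theorem phc_iter {i : ℕ} {φ : E n → E k} {x0 : E n} (hφ : ContDiffAt ℝ i φ x0)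
    (y : (Fin k → Fin n → ℝ) × (Fin k → Fin n → Fin n → ℝ) ×
    (Fin k → Fin n → Fin n → Fin n → ℝ)) (c : ℝ × E k) (m : Fin i → E n) :
    iteratedFDeriv ℝ i (Phc (fun x => φ x + pert y x0 x) c) x0 m =
      iteratedFDeriv ℝ i (p2 (dg n (c.1 / 2)) 0) x0 m + ∑ j, c.2 j *
        (iteratedFDeriv ℝ i (fun x => (φ x) j) x0 m + (iteratedFDeriv ℝ i (p1 (y.1 j) x0) x0 m +
          iteratedFDeriv ℝ i (p2 (y.2.1 j) x0) x0 m +
          iteratedFDeriv ℝ i (p3 (y.2.2 j) x0) x0 m)) := by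
  have h1 : ∀ j, ContDiffAt ℝ i (fun x => (φ x) j) x0 := fun j =>
    (EuclideanSpace.proj j : E k →L[ℝ] ℝ).contDiff.contDiffAt.comp x0 hφ
  have hi : ((i : ℕ∞) : WithTop ℕ∞) ≤ ∞ := by exact_mod_cast le_top
  have h2 : ∀ j, ContDiffAt ℝ i (cmp φ y x0 j) x0 := fun j =>
    (h1 j).add ((((contDiff_p1 _ _).contDiffAt.of_le hi).add
      ((contDiff_p2 _ _).contDiffAt.of_le hi)).add ((contDiff_p3 _ _).contDiffAt.of_le hi))
  rw [phc_eq, iter_comb ((contDiff_p2 _ _).contDiffAt.of_le hi) h2 (fun j => c.2 j) m]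
  congr 1
  refine Finset.sum_congr rfl fun j _ => ?_
  congr 1
  exact iter_add4 (h1 j) ((contDiff_p1 _ _).contDiffAt.of_le hi)
    ((contDiff_p2 _ _).contDiffAt.of_le hi) ((contDiff_p3 _ _).contDiffAt.of_le hi) m

/-- The coefficients of the polynomials of degree three. -/
abbrev Arr (n k : ℕ) : Type := (Fin k → Fin n → ℝ) × (Fin k → Fin n → Fin n → ℝ) ×
    (Fin k → Fin n → Fin n → Fin n → ℝ)

/-- The vector of a linear form. -/
noncomputable def vecL (n : ℕ) : (E n →L[ℝ] ℝ) →L[ℝ] E n :=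
  (PiLp.continuousLinearEquiv 2 ℝ (fun _ : Fin n => ℝ)).symm.toContinuousLinearMap.comp
    (ContinuousLinearMap.pi fun i => ContinuousLinearMap.apply ℝ ℝ (EuclideanSpace.single i 1))

theorem inner_vecL (L : E n →L[ℝ] ℝ) (v : E n) : ⟪vecL n L, v⟫ = L v := by
  rw [inner_eq]
  have h1 : ∀ i, (vecL n L) i = L (EuclideanSpace.single i 1) := fun i => rfl
  simp only [h1]
  have h2 : v = ∑ i, v i • EuclideanSpace.single i (1 : ℝ) := by
    ext l
    simp [Finset.sum_apply, Pi.single_apply]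
  conv_rhs => rw [h2]
  rw [map_sum]
  refine Finset.sum_congr rfl fun i _ => ?_
  rw [map_smul, smul_eq_mul, mul_comm]

/-- The gradients, Hessians and third derivatives of the components of `φ` at `x0`. -/
noncomputable def G0 (φ : E n → E k) (x0 : E n) (j : Fin k) : E n :=
  vecL n (fderiv ℝ (fun x => (φ x) j) x0)

noncomputable def H0 (φ : E n → E k) (x0 : E n) (j : Fin k) : E n →L[ℝ] E n :=
  (vecL n).comp (fderiv ℝ (fderiv ℝ (fun x => (φ x) j)) x0)

noncomputable def K0 (φ : E n → E k) (x0 : E n) (j : Fin k) : E n →L[ℝ] E n →L[ℝ] E n :=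
  (ContinuousLinearMap.compL ℝ (E n) (E n →L[ℝ] ℝ) (E n) (vecL n)).comp
    (fderiv ℝ (fderiv ℝ (fderiv ℝ (fun x => (φ x) j))) x0)

variable {φ : E n → E k} {x0 : E n}

theorem k1 (hφ : ContDiffAt ℝ 3 φ x0) (y : Arr n k) (c : ℝ × E k) (v : E n) :
    fderiv ℝ (Phc (fun x => φ x + pert y x0 x) c) x0 v =
      ⟪c.1 • x0 + ∑ j, c.2 j • (G0 φ x0 j + WithLp.toLp 2 (y.1 j)), v⟫ := by
  have h1 := phc_iter (i := 1) (hφ.of_le (by norm_num)) y c ![v]
  simp only [iteratedFDeriv_one_apply, Matrix.cons_val_zero] at h1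
  rw [h1, inner_add_left, inner_smul_left, sum_inner]
  have h2 : fderiv ℝ (p2 (dg n (c.1 / 2)) 0) x0 v = c.1 * ⟪x0, v⟫ := by
    rw [p2_d1]
    have := sum_dg (c.1 / 2) x0 v
    simp only [PiLp.zero_apply, sub_zero]
    rw [this]
    ring
  rw [h2]
  congr 1
  refine Finset.sum_congr rfl fun j _ => ?_
  rw [inner_smul_left, inner_add_left, G0, inner_vecL, p1_d1, p2_d1, p3_d1, inner_eq]
  simp

theorem k2 (hφ : ContDiffAt ℝ 3 φ x0) (y : Arr n k) (c : ℝ × E k) (a v : E n) :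
    fderiv ℝ (fderiv ℝ (Phc (fun x => φ x + pert y x0 x) c)) x0 a v =
      ⟪c.1 • a + ∑ j, c.2 j • (H0 φ x0 j a + sy (y.2.1 j) a), v⟫ := by
  rw [it2, phc_iter (i := 2) (hφ.of_le (by norm_num)) y c, inner_add_left, inner_smul_left,
    sum_inner, p2_d2, sum_dg]
  congr 1
  · rw [conj_trivial]
    ring
  refine Finset.sum_congr rfl fun j _ => ?_
  rw [inner_smul_left, inner_add_left, H0, ContinuousLinearMap.comp_apply, inner_vecL, p1_d2,
    p2_d2, p3_d2, inner_sy, it2]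
  simp

theorem k3 (hφ : ContDiffAt ℝ 3 φ x0) (y : Arr n k) (c : ℝ × E k) (a b v : E n) :
    fderiv ℝ (fderiv ℝ (fderiv ℝ (Phc (fun x => φ x + pert y x0 x) c))) x0 a b v =
      ⟪∑ j, c.2 j • (K0 φ x0 j a b + st (y.2.2 j) a b), v⟫ := by
  rw [it3, phc_iter (i := 3) hφ y c, sum_inner, p2_d3, zero_add]
  refine Finset.sum_congr rfl fun j _ => ?_
  rw [inner_smul_left, inner_add_left, K0, ContinuousLinearMap.comp_apply,
    ContinuousLinearMap.compL_apply, ContinuousLinearMap.comp_apply, inner_vecL, p1_d3,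
    p2_d3, p3_d3, inner_st, it3]
  simp

/-- Row GEN, over the two null sets. -/
theorem gen_of (hφ : ContDiffAt ℝ 3 φ x0) (y : Arr n k)
    (hI : ∀ c : ℝ × (Fin k → ℝ), c.1 • x0 + ∑ j, c.2 j • (G0 φ x0 j + WithLp.toLp 2 (y.1 j)) = 0 →
      c = 0)
    (hA : ∀ (c c1 c2 c3 : ℝ × (Fin k → ℝ)) (a b : E n), c ≠ 0 → a ≠ 0 → b ≠ 0 →
      inner ℝ a x0 = 0 → inner ℝ b x0 = 0 → inner ℝ a b = 0 →
      c.1 • a + ∑ j, c.2 j • (H0 φ x0 j a + sy (y.2.1 j) a) +
        (c1.1 • x0 + ∑ j, c1.2 j • (G0 φ x0 j + WithLp.toLp 2 (y.1 j))) = 0 →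
      c.1 • b + ∑ j, c.2 j • (H0 φ x0 j b + sy (y.2.1 j) b) +
        (c2.1 • x0 + ∑ j, c2.2 j • (G0 φ x0 j + WithLp.toLp 2 (y.1 j))) = 0 →
      ∑ j, c.2 j • (K0 φ x0 j a b + st (y.2.2 j) a b) +
        (c1.1 • b + ∑ j, c1.2 j • (H0 φ x0 j b + sy (y.2.1 j) b)) +
        (c2.1 • a + ∑ j, c2.2 j • (H0 φ x0 j a + sy (y.2.1 j) a)) +
        (c3.1 • x0 + ∑ j, c3.2 j • (G0 φ x0 j + WithLp.toLp 2 (y.1 j))) = 0 → False) :
    Gen (fun x => φ x + pert y x0 x) x0 := by
  have hz : ∀ u : E n, (∀ v, ⟪u, v⟫ = 0) → u = 0 := fun u hu => inner_self_eq_zero.1 (hu u)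
  have hne : ∀ c : ℝ × E k, ((c.1, fun j => c.2 j) : ℝ × (Fin k → ℝ)) = 0 → c = 0 := by
    intro c hc
    have h1 := congrArg Prod.fst hc
    have h2 := congrArg Prod.snd hc
    refine Prod.ext h1 ?_
    ext j
    exact congrFun h2 j
  refine ⟨fun c hc => hne c (hI (c.1, fun j => c.2 j) (hz _ fun v => ?_)), ?_⟩
  · rw [← k1 hφ y c v, hc]
    rfl
  intro c c1 c2 c3 a b hc ha hb hax hbx hab h1 h2
  by_contra hcon
  push Not at hcon
  refine hA (c.1, fun j => c.2 j) (c1.1, fun j => c1.2 j) (c2.1, fun j => c2.2 j)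
    (c3.1, fun j => c3.2 j) a b (fun h => hc (hne c h)) ha hb hax hbx hab (hz _ fun v => ?_)
    (hz _ fun v => ?_) (hz _ fun v => ?_)
  · have := h1 v
    rw [k2 hφ, k1 hφ] at this
    rw [inner_add_left]
    exact this
  · have := h2 v
    rw [k2 hφ, k1 hφ] at this
    rw [inner_add_left]
    exact this
  · have := hcon v
    rw [k3 hφ, k2 hφ, k2 hφ, k1 hφ] at this
    rw [inner_add_left, inner_add_left, inner_add_left]
    exact this

end Pool.Agent.LFK.GEN
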