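import Pool.Agent.LFK.GLUEk

/-!
Densities which are rough in `k` directions, bounds with a gain at infinity: from neighbourhoods of
the points of a compact set to a neighbourhood of the compact set.
-/

namespace Pool.Agent.LFK

open MeasureTheory Set Pool.Agent.MP_6cbfb8_an Pool.Agent.LF
open scoped ENNReal Real RealInnerProductSpace ContDiff Topology

/-- Bound for the densities `x ↦ G (φ x) x`, with a gain at infinity. -/
def RBt {n k : ℕ} (φ : E n → E k) (p : ℝ) (U : Set (E n)) : Prop :=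
  ∃ η : ℝ, 0 < η ∧ ∀ B : ℕ → ℝ, ∃ C : ℝ≥0∞, C ≠ ⊤ ∧ ∀ G, Clk U B G → ∀ S : ℝ, 1 ≤ S →
    ∫⁻ ξ in {ξ | S ≤ ‖ξ‖}, ‖extn (fun x => G (φ x) x) ξ‖ₑ ^ p ≤ C * ENNReal.ofReal (S ^ (-η))

theorem RBt.mono {n k : ℕ} {φ : E n → E k} {p : ℝ} {U V : Set (E n)} (h : RBt φ p U)
    (hVU : V ⊆ U) : RBt φ p V := by
  obtain ⟨η, hη, h⟩ := h
  refine ⟨η, hη, fun B => ?_⟩
  obtain ⟨C, hC, h'⟩ := h B
  exact ⟨C, hC, fun G hG => h' G (hG.mono hVU)⟩

/-- The exponent of the gain may be made smaller. -/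
theorem rbt_le {S η η' : ℝ} (hS : 1 ≤ S) (h : η' ≤ η) {a C : ℝ≥0∞}
    (ha : a ≤ C * ENNReal.ofReal (S ^ (-η))) : a ≤ C * ENNReal.ofReal (S ^ (-η')) := by
  refine ha.trans (mul_le_mul_right (ENNReal.ofReal_le_ofReal ?_) _)
  exact Real.rpow_le_rpow_of_exponent_le hS (by linarith)

theorem rbt_empty {n k : ℕ} (φ : E n → E k) {p : ℝ} (hp : 0 < p) : RBt φ p ∅ := by
  refine ⟨1, one_pos, fun B => ⟨0, ENNReal.zero_ne_top, fun G hG S hS => ?_⟩⟩
  have h : ∀ ξ, extn (fun x => G (φ x) x) ξ = 0 := by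
    intro ξ
    rw [lf_extn_congr (g := fun _ => 0) (fun x hx => hG.2.2.2 _ x hx (notMem_empty x))]
    unfold extn
    simp
  simp [h, ENNReal.zero_rpow_of_pos hp]

/-- The phase may be changed away from `V`. -/
theorem rbt_congr {n k : ℕ} {φ ψ : E n → E k} {V U : Set (E n)} (hφ : ∀ x ∈ V, φ x = ψ x)
    (hU : U ⊆ V) {p : ℝ} (h : RBt φ p U) : RBt ψ p U := by
  obtain ⟨η, hη, h⟩ := h
  refine ⟨η, hη, fun B => ?_⟩
  obtain ⟨C, hC, h'⟩ := h B
  refine ⟨C, hC, fun G hG S hS => le_trans (le_of_eq ?_) (h' G hG S hS)⟩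
  refine lintegral_congr fun ξ => ?_
  rw [lf_extn_congr fun x hx => ?_]
  by_cases hxU : x ∈ U
  · rw [hφ x (hU hxU)]
  · rw [hG.2.2.2 _ x hx hxU, hG.2.2.2 _ x hx hxU]

/-- Two sets. -/
theorem rbt_union {n k : ℕ} {φ : E n → E k} (hφ : Measurable φ) {p : ℝ} (hp : 1 ≤ p)
    {L₁ V₁ W₂ : Set (E n)} (hL₁ : IsCompact L₁) (hV₁ : IsOpen V₁)
    (hLV₁ : L₁ ⊆ V₁) (h₁ : RBt φ p V₁) (h₂ : RBt φ p W₂) :
    RBt φ p (L₁ ∪ W₂) := by
  obtain ⟨L, hL, hL₁L, hLV⟩ := exists_compact_between hL₁ hV₁ hLV₁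
  obtain ⟨χ', hχ0, hχ1, hχ⟩ := exists_contMDiffMap_zero_one_of_isClosed (n := (⊤ : ℕ∞))
    (modelWithCornersSelf ℝ (E n))
    (s := (interior L)ᶜ) (t := L₁) isOpen_interior.isClosed_compl hL₁.isClosed
    (disjoint_left.2 fun x hx hx' => hx (hL₁L hx'))
  set χ : E n → ℝ := fun x => χ' x with hχd
  have hχs : ContDiff ℝ ∞ χ := χ'.contMDiff.contDiff
  have hχsupp : ∀ x, x ∉ L → χ x = 0 := fun x hx => hχ0 fun h => hx (interior_subset h)
  have hcomp : HasCompactSupport χ := by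
    refine HasCompactSupport.intro hL hχsupp
  have hM : ∀ i : ℕ, ∃ M : ℝ, ∀ x, ‖iteratedFDeriv ℝ i χ x‖ ≤ M := by
    intro i
    have hc : Continuous (iteratedFDeriv ℝ i χ) :=
      hχs.continuous_iteratedFDeriv (by exact_mod_cast le_top)
    have hs : HasCompactSupport (iteratedFDeriv ℝ i χ) := hcomp.iteratedFDeriv i
    exact hs.exists_bound_of_continuous hc
  choose M hM using hM
  obtain ⟨η₁, hη₁, h₁⟩ := h₁
  obtain ⟨η₂, hη₂, h₂⟩ := h₂
  refine ⟨min η₁ η₂, lt_min hη₁ hη₂, fun B => ?_⟩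
  set B₁ : ℕ → ℝ := fun j => ∑ i ∈ Finset.range (j + 1), (j.choose i : ℝ) * M i * B (j - i) with hB₁
  obtain ⟨C₁, hC₁, hb₁⟩ := h₁ B₁
  obtain ⟨C₂, hC₂, hb₂⟩ := h₂ (fun j => B j + B₁ j)
  refine ⟨2 ^ (p - 1) * (C₁ + C₂), ?_, fun G hG S hS => ?_⟩
  · exact ENNReal.mul_ne_top (ENNReal.rpow_ne_top_of_nonneg (by linarith) (by simp))
      (ENNReal.add_ne_top.2 ⟨hC₁, hC₂⟩)
  obtain ⟨hGm, hGs, hGb, hG0⟩ := hG
  have hM0 : ∀ i, 0 ≤ M i := fun i => (norm_nonneg _).trans (hM i 0)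
  have hbd₁ : ∀ j t x, ‖iteratedFDeriv ℝ j (fun y => χ y • G t y) x‖ ≤ B₁ j := by
    intro j t x
    refine (norm_iteratedFDeriv_smul_le (N := ∞) hχs (hGs t) x
      (by exact_mod_cast le_top)).trans ?_
    refine Finset.sum_le_sum fun i _ => ?_
    have h1 := hM i x
    have h2 := hGb (j - i) t x
    have h3 := hM0 i
    gcongr
  have hr₁ : Clk V₁ B₁ fun t x => χ x • G t x := by
    refine ⟨?_, fun t => hχs.smul (hGs t), hbd₁, fun t x _ hx => ?_⟩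
    · exact (hχs.continuous.measurable.comp measurable_snd).smul hGm
    · simp only
      rw [hχsupp x fun h => hx (hLV h), zero_smul]
  have hr₂ : Clk W₂ (fun j => B j + B₁ j) fun t x => G t x - χ x • G t x := by
    refine ⟨?_, fun t => (hGs t).sub (hχs.smul (hGs t)), ?_, fun t x hx1 hx => ?_⟩
    · exact hGm.sub ((hχs.continuous.measurable.comp measurable_snd).smul hGm)
    · intro j t x
      have h1 : iteratedFDeriv ℝ j (fun y => G t y - χ y • G t y) x =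
          iteratedFDeriv ℝ j (G t) x - iteratedFDeriv ℝ j (fun y => χ y • G t y) x := by
        have h2 := iteratedFDeriv_sub_apply (𝕜 := ℝ) (i := j) (x := x) (f := G t)
          (g := fun y => χ y • G t y)
          ((hGs t).of_le (by exact_mod_cast le_top)).contDiffAt
          ((hχs.smul (hGs t)).of_le (by exact_mod_cast le_top)).contDiffAt
        exact h2
      rw [h1]
      exact (norm_sub_le _ _).trans (add_le_add (hGb j t x) (hbd₁ j t x))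
    · by_cases hx₁ : x ∈ L₁
      · have h1 : χ x = 1 := hχ1 hx₁
        simp only
        rw [h1, one_smul, sub_self]
      · simp only
        rw [hG0 t x hx1 fun h => h.elim hx₁ hx, smul_zero, sub_self]
  have hm₁ := hr₁.measurable hφ
  have hm₂ := hr₂.measurable hφ
  have hsum : ∀ ξ, extn (fun x => G (φ x) x) ξ =
      extn (fun x => χ x • G (φ x) x) ξ + extn (fun x => G (φ x) x - χ x • G (φ x) x) ξ := by
    intro ξ
    unfold extn
    rw [← integral_add (lf_integrable_extn hm₁ (fun x => hr₁.norm_le (φ x) x) ξ)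
      (lf_integrable_extn hm₂ (fun x => hr₂.norm_le (φ x) x) ξ)]
    refine integral_congr_ae (Filter.Eventually.of_forall fun x => ?_)
    simp only
    ring
  calc ∫⁻ ξ in {ξ | S ≤ ‖ξ‖}, ‖extn (fun x => G (φ x) x) ξ‖ₑ ^ p
      ≤ ∫⁻ ξ in {ξ | S ≤ ‖ξ‖}, 2 ^ (p - 1) * (‖extn (fun x => χ x • G (φ x) x) ξ‖ₑ ^ p +
          ‖extn (fun x => G (φ x) x - χ x • G (φ x) x) ξ‖ₑ ^ p) := by
        refine lintegral_mono fun ξ => ?_
        rw [hsum]
        refine (ENNReal.rpow_le_rpow (enorm_add_le _ _) (by linarith)).trans ?_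
        exact ENNReal.rpow_add_le_mul_rpow_add_rpow _ _ hp
    _ = 2 ^ (p - 1) * ((∫⁻ ξ in {ξ | S ≤ ‖ξ‖}, ‖extn (fun x => χ x • G (φ x) x) ξ‖ₑ ^ p) +
          ∫⁻ ξ in {ξ | S ≤ ‖ξ‖}, ‖extn (fun x => G (φ x) x - χ x • G (φ x) x) ξ‖ₑ ^ p) := by
        rw [lintegral_const_mul', lintegral_add_left]
        · exact (STAux.measurable_extn _ hm₁).enorm.pow_const p
        · exact ENNReal.rpow_ne_top_of_nonneg (by linarith) (by simp)
    _ ≤ 2 ^ (p - 1) * (C₁ * ENNReal.ofReal (S ^ (-min η₁ η₂)) +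
          C₂ * ENNReal.ofReal (S ^ (-min η₁ η₂))) :=
        mul_le_mul_right (add_le_add (rbt_le hS (min_le_left _ _) (hb₁ _ hr₁ S hS))
          (rbt_le hS (min_le_right _ _) (hb₂ _ hr₂ S hS))) _
    _ = _ := by ring

/-- From the neighbourhoods of the points of a compact set to a neighbourhood of the compact
set, for all exponents in `P` at a time. -/
theorem rbt_compact {n k : ℕ} {φ : E n → E k} {P : Set ℝ} (hP : ∀ p ∈ P, 1 ≤ p) {V : Set (E n)}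
    (hV : IsOpen V) (hφ : ContinuousOn φ V) {K : Set (E n)} (hK : IsCompact K) (hKV : K ⊆ V)
    (hloc : ∀ x ∈ K, ∃ U ∈ 𝓝 x, ∀ p ∈ P, RBt φ p U) :
    ∃ U, IsOpen U ∧ K ⊆ U ∧ ∀ p ∈ P, RBt φ p U := by
  classical
  have hm : Measurable (V.piecewise φ fun _ => 0) :=
    ContinuousOn.measurable_piecewise hφ continuousOn_const hV.measurableSet
  set φ' : E n → E k := V.piecewise φ fun _ => 0 with hφ'
  have hφV : ∀ x ∈ V, φ x = φ' x := fun x hx => (Set.piecewise_eq_of_mem _ _ _ hx).symm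
  have key : ∃ L, IsCompact L ∧ K ⊆ L ∧ ∃ U, IsOpen U ∧ L ⊆ U ∧ U ⊆ V ∧
      ∀ p ∈ P, RBt φ' p U := by
    refine hK.induction_on (p := fun s => ∃ L, IsCompact L ∧ s ⊆ L ∧ ∃ U, IsOpen U ∧ L ⊆ U ∧
      U ⊆ V ∧ ∀ p ∈ P, RBt φ' p U) ?_ ?_ ?_ ?_
    · exact ⟨∅, isCompact_empty, subset_rfl, ∅, isOpen_empty, subset_rfl, empty_subset _,
        fun p hp => rbt_empty φ' (by linarith [hP p hp])⟩
    · rintro s t hst ⟨L, hL, htL, h⟩
      exact ⟨L, hL, hst.trans htL, h⟩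
    · rintro s t ⟨L₁, hL₁, hs, V₁, hV₁, hLV₁, hVV₁, h₁⟩ ⟨L₂, hL₂, ht, V₂, hV₂, hLV₂, hVV₂, h₂⟩
      obtain ⟨L, hL, hL₁L, hLV⟩ := exists_compact_between hL₁ hV₁ hLV₁
      refine ⟨L₁ ∪ L₂, hL₁.union hL₂, union_subset_union hs ht, interior L ∪ V₂,
        isOpen_interior.union hV₂, union_subset_union hL₁L hLV₂,
        union_subset (interior_subset.trans (hLV.trans hVV₁)) hVV₂, fun p hp => ?_⟩
      exact (rbt_union hm (hP p hp) hL hV₁ hLV (h₁ p hp) (h₂ p hp)).mono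
        (union_subset_union_left _ interior_subset)
    · intro x hx
      obtain ⟨U, hU, h⟩ := hloc x hx
      have hUV : interior U ∩ V ∈ 𝓝 x :=
        Filter.inter_mem (interior_mem_nhds.2 hU) (hV.mem_nhds (hKV hx))
      obtain ⟨L, hL, hxL, hLU⟩ := exists_compact_subset (isOpen_interior.inter hV)
        (mem_of_mem_nhds hUV)
      refine ⟨L, mem_nhdsWithin_of_mem_nhds (mem_interior_iff_mem_nhds.1 hxL), L, hL, subset_rfl,
        interior U ∩ V, isOpen_interior.inter hV, hLU, inter_subset_right, fun p hp => ?_⟩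
      exact rbt_congr hφV inter_subset_right
        ((h p hp).mono (inter_subset_left.trans interior_subset))
  obtain ⟨L, -, hKL, U, hU, hLU, hUV, h⟩ := key
  exact ⟨U, hU, hKL.trans hLU, fun p hp => rbt_congr (fun x hx => (hφV x hx).symm) hUV (h p hp)⟩

/-- The statement at a point, for a condition `Hyp`. -/
def LeafAtT (n k : ℕ) (Hyp : (E n → E k) → E n → Prop) : Prop :=
  ∀ (φ : E n → E k) (x0 : E n), ‖x0‖ = 1 → (∀ᶠ x in 𝓝 x0, ContDiffAt ℝ ∞ φ x) → Hyp φ x0 →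
    ∃ U, IsOpen U ∧ x0 ∈ U ∧ ∀ p : ℝ, 2 * (n : ℝ) / (n - 1) < p → RBt φ p U

/-- Compact sets of points of the sphere where the condition holds: one neighbourhood of the
compact set and one constant. -/
theorem gluet {n k : ℕ} (hn : 3 ≤ n) {Hyp : (E n → E k) → E n → Prop} (H : LeafAtT n k Hyp)
    (φ : E n → E k) {K : Set (E n)} (hK : IsCompact K)
    (hc : ∀ x ∈ K, ‖x‖ = 1 ∧ (∀ᶠ y in 𝓝 x, ContDiffAt ℝ ∞ φ y) ∧ Hyp φ x) :
    ∃ U, IsOpen U ∧ K ⊆ U ∧ ∀ p : ℝ, 2 * (n : ℝ) / (n - 1) < p → RBt φ p U := by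
  set V : Set (E n) := {x | ∀ᶠ y in 𝓝 x, ContDiffAt ℝ ∞ φ y} with hV
  have hVo : IsOpen V := isOpen_setOfPred_eventually_nhds
  have hcont : ContinuousOn φ V := fun x hx =>
    (hx.self_of_nhds : ContDiffAt ℝ ∞ φ x).continuousAt.continuousWithinAt
  have hP : ∀ p ∈ {p : ℝ | 2 * (n : ℝ) / (n - 1) < p}, 1 ≤ p := by
    intro p hp
    have hn3 : (3 : ℝ) ≤ n := by exact_mod_cast hn
    have h1 : (1 : ℝ) ≤ 2 * (n : ℝ) / (n - 1) := by
      rw [le_div_iff₀ (by linarith)]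
      linarith
    exact h1.trans (le_of_lt hp)
  obtain ⟨U, hU, hKU, h⟩ := rbt_compact hP hVo hcont hK (fun x hx => (hc x hx).2.1) fun x hx => by
    obtain ⟨U, hU, hxU, h⟩ := H φ x (hc x hx).1 (hc x hx).2.1 (hc x hx).2.2
    exact ⟨U, hU.mem_nhds hxU, h⟩
  exact ⟨U, hU, hKU, h⟩

end Pool.Agent.LFK
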