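import Pool.Agent.LFK.GNul
import Pool.Agent.LFK.GAlg

/-!
# [LEAFK GEN] LIN: the linear maps in the arrays, onto and smooth in the parameters.
-/

set_option autoImplicit false

namespace Pool.Agent.LFK.GA

open Module
open scoped ContDiff

variable {n k : ℕ}

/-- The coefficient arrays. -/
abbrev Arr (n k : ℕ) : Type :=
  (Fin k → Fin n → Fin n → ℝ) × (Fin k → Fin n → Fin n → Fin n → ℝ)

/-- The coefficients `c_0` and `c_1, …, c_k`. -/
abbrev Cf (k : ℕ) : Type := ℝ × (Fin k → ℝ)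

/-- The target: the second equation without one coordinate. -/
abbrev RA (n : ℕ) (i0 : Fin n) : Type :=
  (Fin n → ℝ) × ({l : Fin n // l ≠ i0} → ℝ) × (Fin n → ℝ)

/-- The linear part. -/
def LA (i0 : Fin n) (c : Cf k) (a b : Fin n → ℝ) (c1 c2 : Cf k) : Arr n k →ₗ[ℝ] RA n i0 where
  toFun y := (fun i => ∑ j, c.2 j * syc (y.1 j) a i, fun l => ∑ j, c.2 j * syc (y.1 j) b l,
    fun i => ∑ j, (c.2 j * stc (y.2 j) a b i + c1.2 j * syc (y.1 j) b i +
      c2.2 j * syc (y.1 j) a i))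
  map_add' x y := by
    refine Prod.ext (funext fun i => ?_) (Prod.ext (funext fun l => ?_) (funext fun i => ?_))
    · show ∑ j, c.2 j * syc (x.1 j + y.1 j) a i =
        (∑ j, c.2 j * syc (x.1 j) a i) + ∑ j, c.2 j * syc (y.1 j) a i
      simp only [syc_add, mul_add, Finset.sum_add_distrib]
    · show ∑ j, c.2 j * syc (x.1 j + y.1 j) b l =
        (∑ j, c.2 j * syc (x.1 j) b l) + ∑ j, c.2 j * syc (y.1 j) b l
      simp only [syc_add, mul_add, Finset.sum_add_distrib]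
    · show ∑ j, (c.2 j * stc (x.2 j + y.2 j) a b i + c1.2 j * syc (x.1 j + y.1 j) b i +
          c2.2 j * syc (x.1 j + y.1 j) a i) =
        (∑ j, (c.2 j * stc (x.2 j) a b i + c1.2 j * syc (x.1 j) b i + c2.2 j * syc (x.1 j) a i)) +
        ∑ j, (c.2 j * stc (y.2 j) a b i + c1.2 j * syc (y.1 j) b i + c2.2 j * syc (y.1 j) a i)
      rw [← Finset.sum_add_distrib]
      refine Finset.sum_congr rfl fun j _ => ?_
      rw [syc_add, syc_add, stc_add]
      ring
  map_smul' r y := by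
    refine Prod.ext (funext fun i => ?_) (Prod.ext (funext fun l => ?_) (funext fun i => ?_))
    · show ∑ j, c.2 j * syc (r • y.1 j) a i = r * ∑ j, c.2 j * syc (y.1 j) a i
      rw [Finset.mul_sum]
      refine Finset.sum_congr rfl fun j _ => ?_
      rw [syc_smul]
      ring
    · show ∑ j, c.2 j * syc (r • y.1 j) b l = r * ∑ j, c.2 j * syc (y.1 j) b l
      rw [Finset.mul_sum]
      refine Finset.sum_congr rfl fun j _ => ?_
      rw [syc_smul]
      ring
    · show ∑ j, (c.2 j * stc (r • y.2 j) a b i + c1.2 j * syc (r • y.1 j) b i +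
          c2.2 j * syc (r • y.1 j) a i) =
        r * ∑ j, (c.2 j * stc (y.2 j) a b i + c1.2 j * syc (y.1 j) b i + c2.2 j * syc (y.1 j) a i)
      rw [Finset.mul_sum]
      refine Finset.sum_congr rfl fun j _ => ?_
      rw [syc_smul, syc_smul, stc_smul]
      ring

theorem syc_zero (u : Fin n → ℝ) (i : Fin n) : syc (0 : Fin n → Fin n → ℝ) u i = 0 := by
  have := syc_smul 0 (0 : Fin n → Fin n → ℝ) u i
  rwa [smul_zero, zero_mul] at this

theorem stc_zero (u v : Fin n → ℝ) (i : Fin n) :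
    stc (0 : Fin n → Fin n → Fin n → ℝ) u v i = 0 := by
  have := stc_smul 0 (0 : Fin n → Fin n → Fin n → ℝ) u v i
  rwa [smul_zero, zero_mul] at this

theorem dt_single (i0 : Fin n) (x : ℝ) (a : Fin n → ℝ) : dt (Pi.single i0 x) a = x * a i0 := by
  unfold dt
  rw [Finset.sum_eq_single i0]
  · rw [Pi.single_eq_same]
  · intro l _ hl
    rw [Pi.single_eq_of_ne hl, zero_mul]
  · intro h
    exact absurd (Finset.mem_univ i0) h

theorem LA_surj (i0 : Fin n) (c : Cf k) (j0 : Fin k) (hc : c.2 j0 = 1) {a b : Fin n → ℝ}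
    (ha : a ≠ 0) (hb : b ≠ 0) (hab : dt a b = 0) (hai : a i0 ≠ 0) (c1 c2 : Cf k) :
    Function.Surjective (LA i0 c a b c1 c2) := by
  classical
  rintro ⟨u, v', w⟩
  obtain ⟨v0, hv0⟩ : ∃ v0 : Fin n → ℝ, ∀ l (h : l ≠ i0), v0 l = v' ⟨l, h⟩ :=
    ⟨fun l => if h : l ≠ i0 then v' ⟨l, h⟩ else 0, fun l h => by simp [h]⟩
  obtain ⟨v, hv⟩ : ∃ v : Fin n → ℝ, v = v0 + Pi.single i0 ((dt u b - dt v0 a) / a i0) := ⟨_, rfl⟩
  have hvl : ∀ l (h : l ≠ i0), v l = v' ⟨l, h⟩ := fun l h => by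
    rw [hv, Pi.add_apply, Pi.single_eq_of_ne h, add_zero, hv0 l h]
  have hva : dt v a = dt u b := by
    rw [hv, dt_add, dt_single, div_mul_cancel₀ _ hai]
    ring
  obtain ⟨q, hqa, hqb⟩ := onto_two ha hb hab u v hva
  obtain ⟨t, ht⟩ := onto_cub ha hb hab (fun i => w i - c1.2 j0 * v i - c2.2 j0 * u i)
  refine ⟨(Pi.single j0 q, Pi.single j0 t), ?_⟩
  have hne : ∀ j, j ≠ j0 → (Pi.single j0 q : Fin k → Fin n → Fin n → ℝ) j = 0 ∧
      (Pi.single j0 t : Fin k → Fin n → Fin n → Fin n → ℝ) j = 0 := fun j hj =>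
    ⟨Pi.single_eq_of_ne hj _, Pi.single_eq_of_ne hj _⟩
  refine Prod.ext (funext fun i => ?_) (Prod.ext (funext fun l => ?_) (funext fun i => ?_))
  · show ∑ j, c.2 j * syc ((Pi.single j0 q : Fin k → Fin n → Fin n → ℝ) j) a i = u i
    rw [Finset.sum_eq_single j0]
    · rw [Pi.single_eq_same, hc, one_mul, hqa]
    · intro j _ hj
      rw [(hne j hj).1, syc_zero, mul_zero]
    · intro h
      exact absurd (Finset.mem_univ j0) h
  · show ∑ j, c.2 j * syc ((Pi.single j0 q : Fin k → Fin n → Fin n → ℝ) j) b l = v' l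
    rw [Finset.sum_eq_single j0]
    · rw [Pi.single_eq_same, hc, one_mul, hqb]
      exact hvl l.1 l.2
    · intro j _ hj
      rw [(hne j hj).1, syc_zero, mul_zero]
    · intro h
      exact absurd (Finset.mem_univ j0) h
  · show ∑ j, (c.2 j * stc ((Pi.single j0 t : Fin k → Fin n → Fin n → Fin n → ℝ) j) a b i +
      c1.2 j * syc ((Pi.single j0 q : Fin k → Fin n → Fin n → ℝ) j) b i +
      c2.2 j * syc ((Pi.single j0 q : Fin k → Fin n → Fin n → ℝ) j) a i) = w i
    rw [Finset.sum_eq_single j0]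
    · rw [Pi.single_eq_same, Pi.single_eq_same, hc, one_mul, hqa, hqb, ht]
      ring
    · intro j _ hj
      rw [(hne j hj).1, (hne j hj).2, syc_zero, syc_zero, stc_zero, mul_zero, mul_zero, mul_zero,
        add_zero, add_zero]
    · intro h
      exact absurd (Finset.mem_univ j0) h

/-- The linear part for `c = (1, 0)`. -/
def LB (a b : Fin n → ℝ) (c1 c2 : Cf k) : Arr n k →ₗ[ℝ] (Fin n → ℝ) where
  toFun y := fun i => ∑ j, (c1.2 j * syc (y.1 j) b i + c2.2 j * syc (y.1 j) a i)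
  map_add' x y := by
    refine funext fun i => ?_
    show ∑ j, (c1.2 j * syc (x.1 j + y.1 j) b i + c2.2 j * syc (x.1 j + y.1 j) a i) =
      (∑ j, (c1.2 j * syc (x.1 j) b i + c2.2 j * syc (x.1 j) a i)) +
      ∑ j, (c1.2 j * syc (y.1 j) b i + c2.2 j * syc (y.1 j) a i)
    rw [← Finset.sum_add_distrib]
    refine Finset.sum_congr rfl fun j _ => ?_
    rw [syc_add, syc_add]
    ring
  map_smul' r y := by
    refine funext fun i => ?_
    show ∑ j, (c1.2 j * syc (r • y.1 j) b i + c2.2 j * syc (r • y.1 j) a i) =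
      r * ∑ j, (c1.2 j * syc (y.1 j) b i + c2.2 j * syc (y.1 j) a i)
    rw [Finset.mul_sum]
    refine Finset.sum_congr rfl fun j _ => ?_
    rw [syc_smul, syc_smul]
    ring

theorem syc_comb (q : Fin n → Fin n → ℝ) (x y : ℝ) (u v : Fin n → ℝ) (i : Fin n) :
    syc q (x • u + y • v) i = x * syc q u i + y * syc q v i := by
  unfold syc
  rw [Finset.mul_sum, Finset.mul_sum, ← Finset.sum_add_distrib]
  refine Finset.sum_congr rfl fun l _ => ?_
  simp only [Pi.add_apply, Pi.smul_apply, smul_eq_mul]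
  ring

theorem LB_surj {a b : Fin n → ℝ} (hb : b ≠ 0) (hab : dt a b = 0) (c1 c2 : Cf k) (j0 : Fin k)
    (hc : c1.2 j0 ≠ 0) : Function.Surjective (LB a b c1 c2) := by
  classical
  intro u
  have he : c1.2 j0 • b + c2.2 j0 • a ≠ 0 := by
    intro h
    have h1 : dt (c1.2 j0 • b + c2.2 j0 • a) b = 0 := by
      rw [h]
      simp [dt]
    rw [dt_add, dt_smul, dt_smul, hab, mul_zero, add_zero] at h1
    rcases mul_eq_zero.1 h1 with h2 | h2
    · exact hc h2
    · exact dt_self_ne hb h2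
  obtain ⟨q, hq⟩ := onto_one he u
  refine ⟨(Pi.single j0 q, 0), funext fun i => ?_⟩
  show ∑ j, (c1.2 j * syc ((Pi.single j0 q : Fin k → Fin n → Fin n → ℝ) j) b i +
      c2.2 j * syc ((Pi.single j0 q : Fin k → Fin n → Fin n → ℝ) j) a i) = u i
  rw [Finset.sum_eq_single j0]
  · rw [Pi.single_eq_same, ← syc_comb, hq]
  · intro j _ hj
    rw [Pi.single_eq_of_ne hj, syc_zero, syc_zero, mul_zero, mul_zero, add_zero]
  · intro h
    exact absurd (Finset.mem_univ j0) h

section smooth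

variable {P : Type*} [NormedAddCommGroup P] [NormedSpace ℝ P]

theorem LA_smooth (i0 : Fin n) {c c1 c2 : P → Cf k} {a b : P → Fin n → ℝ} (hc : ContDiff ℝ 1 c)
    (hc1 : ContDiff ℝ 1 c1) (hc2 : ContDiff ℝ 1 c2) (ha : ContDiff ℝ 1 a) (hb : ContDiff ℝ 1 b) :
    ContDiff ℝ 1 fun p => LinearMap.toContinuousLinearMap (LA i0 (c p) (a p) (b p) (c1 p) (c2 p)) := by
  rw [contDiff_clm_apply_iff]
  intro y
  have hcj : ∀ j, ContDiff ℝ 1 fun p => (c p).2 j := fun j => (contDiff_pi.1 hc.snd) j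
  have hc1j : ∀ j, ContDiff ℝ 1 fun p => (c1 p).2 j := fun j => (contDiff_pi.1 hc1.snd) j
  have hc2j : ∀ j, ContDiff ℝ 1 fun p => (c2 p).2 j := fun j => (contDiff_pi.1 hc2.snd) j
  have haj : ∀ j, ContDiff ℝ 1 fun p => a p j := fun j => (contDiff_pi.1 ha) j
  have hbj : ∀ j, ContDiff ℝ 1 fun p => b p j := fun j => (contDiff_pi.1 hb) j
  have hsa : ∀ (q : Fin n → Fin n → ℝ) i, ContDiff ℝ 1 fun p => syc q (a p) i := fun q i => by
    unfold syc
    exact ContDiff.sum fun l _ => contDiff_const.mul (haj l)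
  have hsb : ∀ (q : Fin n → Fin n → ℝ) i, ContDiff ℝ 1 fun p => syc q (b p) i := fun q i => by
    unfold syc
    exact ContDiff.sum fun l _ => contDiff_const.mul (hbj l)
  have hst : ∀ (q : Fin n → Fin n → Fin n → ℝ) i, ContDiff ℝ 1 fun p => stc q (a p) (b p) i :=
    fun q i => by
      unfold stc
      exact ContDiff.sum fun l _ => ContDiff.sum fun m _ =>
        contDiff_const.mul ((haj l).mul (hbj m))
  show ContDiff ℝ 1 fun p => ((fun i => ∑ j, (c p).2 j * syc (y.1 j) (a p) i,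
    fun l : {l : Fin n // l ≠ i0} => ∑ j, (c p).2 j * syc (y.1 j) (b p) l,
    fun i => ∑ j, ((c p).2 j * stc (y.2 j) (a p) (b p) i + (c1 p).2 j * syc (y.1 j) (b p) i +
      (c2 p).2 j * syc (y.1 j) (a p) i)) : RA n i0)
  refine ContDiff.prodMk ?_ (ContDiff.prodMk ?_ ?_)
  · exact contDiff_pi.2 fun i => ContDiff.sum fun j _ => (hcj j).mul (hsa _ _)
  · exact contDiff_pi.2 fun i => ContDiff.sum fun j _ => (hcj j).mul (hsb _ _)
  · exact contDiff_pi.2 fun i => ContDiff.sum fun j _ =>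
      (((hcj j).mul (hst _ _)).add ((hc1j j).mul (hsb _ _))).add ((hc2j j).mul (hsa _ _))

theorem LB_smooth {c1 c2 : P → Cf k} {a b : P → Fin n → ℝ}
    (hc1 : ContDiff ℝ 1 c1) (hc2 : ContDiff ℝ 1 c2) (ha : ContDiff ℝ 1 a) (hb : ContDiff ℝ 1 b) :
    ContDiff ℝ 1 fun p => LinearMap.toContinuousLinearMap (LB (a p) (b p) (c1 p) (c2 p)) := by
  rw [contDiff_clm_apply_iff]
  intro y
  have hc1j : ∀ j, ContDiff ℝ 1 fun p => (c1 p).2 j := fun j => (contDiff_pi.1 hc1.snd) j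
  have hc2j : ∀ j, ContDiff ℝ 1 fun p => (c2 p).2 j := fun j => (contDiff_pi.1 hc2.snd) j
  have haj : ∀ j, ContDiff ℝ 1 fun p => a p j := fun j => (contDiff_pi.1 ha) j
  have hbj : ∀ j, ContDiff ℝ 1 fun p => b p j := fun j => (contDiff_pi.1 hb) j
  have hsa : ∀ (q : Fin n → Fin n → ℝ) i, ContDiff ℝ 1 fun p => syc q (a p) i := fun q i => by
    unfold syc
    exact ContDiff.sum fun l _ => contDiff_const.mul (haj l)
  have hsb : ∀ (q : Fin n → Fin n → ℝ) i, ContDiff ℝ 1 fun p => syc q (b p) i := fun q i => by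
    unfold syc
    exact ContDiff.sum fun l _ => contDiff_const.mul (hbj l)
  show ContDiff ℝ 1 fun p => (fun i => ∑ j, ((c1 p).2 j * syc (y.1 j) (b p) i +
      (c2 p).2 j * syc (y.1 j) (a p) i) : Fin n → ℝ)
  exact contDiff_pi.2 fun i => ContDiff.sum fun j _ =>
      ((hc1j j).mul (hsb _ _)).add ((hc2j j).mul (hsa _ _))

end smooth

end Pool.Agent.LFK.GA
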