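import Pool.Agent.LFK.GArr

/-!
# [LEAFK GEN] GN1: null sets with fewer parameters.
-/

set_option autoImplicit false

namespace Pool.Agent.LFK.GA1

open Module MeasureTheory Pool.Agent.LFK.GA
open scoped ContDiff

variable {n k : ℕ}

/-- The tuples `(c, a, b, c1, c2, c3)`. -/
abbrev TU (n k : ℕ) : Type := Cf k × (Fin n → ℝ) × (Fin n → ℝ) × Cf k × Cf k × Cf k

theorem LA_on {P : Type*} [NormedAddCommGroup P] [NormedSpace ℝ P] (i0 : Fin n) {U : Set P}
    {T : P → TU n k} (hT : ContDiffOn ℝ 1 T U) :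
    ContDiffOn ℝ 1 (fun p => LinearMap.toContinuousLinearMap
      (LA i0 (T p).1 (T p).2.1 (T p).2.2.1 (T p).2.2.2.1 (T p).2.2.2.2.1)) U := by
  have h0 : ContDiff ℝ 1 fun t : TU n k => LinearMap.toContinuousLinearMap
      (LA i0 t.1 t.2.1 t.2.2.1 t.2.2.2.1 t.2.2.2.2.1) :=
    LA_smooth i0 contDiff_fst
      (contDiff_fst.comp (contDiff_snd.comp (contDiff_snd.comp contDiff_snd)))
      (contDiff_fst.comp (contDiff_snd.comp (contDiff_snd.comp (contDiff_snd.comp contDiff_snd))))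
      (contDiff_fst.comp contDiff_snd) (contDiff_fst.comp (contDiff_snd.comp contDiff_snd))
  exact h0.comp_contDiffOn hT

/-- The right side of the equations. -/
def hv (x0 : Fin n → ℝ) (g : Fin k → Fin n → ℝ) (s0 : Fin k → Fin n → Fin n → ℝ)
    (t0 : Fin k → Fin n → Fin n → Fin n → ℝ) (i0 : Fin n) (t : TU n k) : RA n i0 :=
  (fun i => -(t.1.1 * t.2.1 i + ∑ j, t.1.2 j * mv (s0 j) t.2.1 i + gr x0 g t.2.2.2.1 i),
   fun l => -(t.1.1 * t.2.2.1 l + ∑ j, t.1.2 j * mv (s0 j) t.2.2.1 l + gr x0 g t.2.2.2.2.1 l),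
   fun i => -(∑ j, t.1.2 j * mt (t0 j) t.2.1 t.2.2.1 i +
      (t.2.2.2.1.1 * t.2.2.1 i + ∑ j, t.2.2.2.1.2 j * mv (s0 j) t.2.2.1 i) +
      (t.2.2.2.2.1.1 * t.2.1 i + ∑ j, t.2.2.2.2.1.2 j * mv (s0 j) t.2.1 i) +
      gr x0 g t.2.2.2.2.2 i))

theorem hv_smooth (x0 : Fin n → ℝ) (g : Fin k → Fin n → ℝ) (s0 : Fin k → Fin n → Fin n → ℝ)
    (t0 : Fin k → Fin n → Fin n → Fin n → ℝ) (i0 : Fin n) :
    ContDiff ℝ 1 (hv x0 g s0 t0 i0) := by
  have hc : ContDiff ℝ 1 fun t : TU n k => t.1 := contDiff_fst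
  have ha : ContDiff ℝ 1 fun t : TU n k => t.2.1 := contDiff_fst.comp contDiff_snd
  have hb : ContDiff ℝ 1 fun t : TU n k => t.2.2.1 :=
    contDiff_fst.comp (contDiff_snd.comp contDiff_snd)
  have h3 : ContDiff ℝ 1 fun t : TU n k => t.2.2.2 :=
    contDiff_snd.comp (contDiff_snd.comp contDiff_snd)
  have hc1 : ContDiff ℝ 1 fun t : TU n k => t.2.2.2.1 := contDiff_fst.comp h3
  have hc2 : ContDiff ℝ 1 fun t : TU n k => t.2.2.2.2.1 :=
    contDiff_fst.comp (contDiff_snd.comp h3)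
  have hc3 : ContDiff ℝ 1 fun t : TU n k => t.2.2.2.2.2 :=
    contDiff_snd.comp (contDiff_snd.comp h3)
  have hai : ∀ i, ContDiff ℝ 1 fun t : TU n k => t.2.1 i := fun i => (contDiff_pi.1 ha) i
  have hbi : ∀ i, ContDiff ℝ 1 fun t : TU n k => t.2.2.1 i := fun i => (contDiff_pi.1 hb) i
  unfold hv
  refine ContDiff.prodMk ?_ (ContDiff.prodMk ?_ ?_)
  · exact contDiff_pi.2 fun i => (((hc.fst.mul (hai i)).add
      (cs_smooth hc fun j => mv_smooth (s0 j) ha i)).add (gr_smooth x0 g hc1 i)).neg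
  · exact contDiff_pi.2 fun i => (((hc.fst.mul (hbi i)).add
      (cs_smooth hc fun j => mv_smooth (s0 j) hb (i : Fin n))).add
        (gr_smooth x0 g hc2 (i : Fin n))).neg
  · exact contDiff_pi.2 fun i => ((((cs_smooth hc fun j => mt_smooth (t0 j) ha hb i).add
      ((hc1.fst.mul (hbi i)).add (cs_smooth hc1 fun j => mv_smooth (s0 j) hb i))).add
      ((hc2.fst.mul (hai i)).add (cs_smooth hc2 fun j => mv_smooth (s0 j) ha i))).add
      (gr_smooth x0 g hc3 i)).neg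

/-- **The null set of a family of tuples.** -/
theorem nullG {P : Type*} [NormedAddCommGroup P] [NormedSpace ℝ P] [FiniteDimensional ℝ P]
    (i0 : Fin n) (j0 : Fin k) {U : Set P} (hU : IsOpen U) (T : P → TU n k)
    (hT : ContDiffOn ℝ 1 T U) (hdim : finrank ℝ P < 3 * n - 1)
    (x0 : Fin n → ℝ) (g : Fin k → Fin n → ℝ) (s0 : Fin k → Fin n → Fin n → ℝ)
    (t0 : Fin k → Fin n → Fin n → Fin n → ℝ) :
    (volume : Measure (Arr n k)) {y | ∃ p ∈ U, ∃ (c c1 c2 c3 : Cf k) (a b : Fin n → ℝ),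
      T p = (c, a, b, c1, c2, c3) ∧ c.2 j0 = 1 ∧ a ≠ 0 ∧ b ≠ 0 ∧ dt a b = 0 ∧
      a i0 ≠ 0 ∧ EqH x0 g s0 t0 y c c1 c2 c3 a b} = 0 := by
  classical
  have hrank : finrank ℝ P < finrank ℝ (RA n i0) := by
    have e3 : finrank ℝ (RA n i0) = n + ((n - 1) + n) := by
      rw [Module.finrank_prod, Module.finrank_prod, Module.finrank_fin_fun,
        Module.finrank_fintype_fun_eq_card]
      congr 2
      rw [Fintype.card_subtype_compl, Fintype.card_fin, Fintype.card_subtype_eq]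
    have hn : 0 < n := i0.pos
    rw [e3]
    omega
  have := arr_haar (n := n) (k := k)
  have key := nul (volume : Measure (Arr n k)) hU
    (fun p => LinearMap.toContinuousLinearMap
      (LA i0 (T p).1 (T p).2.1 (T p).2.2.1 (T p).2.2.2.1 (T p).2.2.2.2.1))
    (fun p => hv x0 g s0 t0 i0 (T p)) (LA_on i0 hT)
    ((hv_smooth x0 g s0 t0 i0).comp_contDiffOn hT) hrank
  refine measure_mono_null ?_ key
  rintro y ⟨p, hp, c, c1, c2, c3, a, b, hTp, e1, e2, e3, e4, e5, E1, E2, E3⟩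
  refine ⟨p, hp, ?_, ?_⟩
  · rw [hTp]
    exact LA_surj i0 c j0 e1 e2 e3 e4 e5 c1 c2
  · rw [hTp]
    refine Prod.ext (funext fun i => ?_) (Prod.ext (funext fun l => ?_) (funext fun i => ?_))
    · have := E1 i
      simp only [mul_add, Finset.sum_add_distrib] at this
      show ∑ j, c.2 j * syc (y.1 j) a i =
        -(c.1 * a i + ∑ j, c.2 j * mv (s0 j) a i + gr x0 g c1 i)
      linarith
    · have := E2 l
      simp only [mul_add, Finset.sum_add_distrib] at this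
      show ∑ j, c.2 j * syc (y.1 j) b l =
        -(c.1 * b l + ∑ j, c.2 j * mv (s0 j) b l + gr x0 g c2 l)
      linarith
    · have := E3 i
      simp only [mul_add, Finset.sum_add_distrib] at this
      show ∑ j, (c.2 j * stc (y.2 j) a b i + c1.2 j * syc (y.1 j) b i +
          c2.2 j * syc (y.1 j) a i) =
        -(∑ j, c.2 j * mt (t0 j) a b i +
        (c1.1 * b i + ∑ j, c1.2 j * mv (s0 j) b i) +
        (c2.1 * a i + ∑ j, c2.2 j * mv (s0 j) a i) + gr x0 g c3 i)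
      simp only [Finset.sum_add_distrib]
      linarith

theorem dt_syc (q : Fin n → Fin n → ℝ) (a b : Fin n → ℝ) : dt (syc q a) b = dt (syc q b) a := by
  unfold dt syc
  simp only [Finset.sum_mul]
  rw [Finset.sum_comm]
  exact Finset.sum_congr rfl fun i _ => Finset.sum_congr rfl fun l _ => by ring

theorem dt_big (c : ℝ) (a b : Fin n → ℝ) (d : Fin k → ℝ) (f h : Fin k → Fin n → ℝ) :
    dt (fun i => -(c * a i + ∑ j, d j * (f j i + h j i))) b =
      -(c * dt a b + ∑ j, d j * (dt (f j) b + dt (h j) b)) := by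
  have h1 : ∑ j, d j * (dt (f j) b + dt (h j) b) = ∑ i, (∑ j, d j * (f j i + h j i)) * b i := by
    unfold dt
    simp only [← Finset.sum_add_distrib, Finset.mul_sum, Finset.sum_mul]
    rw [Finset.sum_comm]
    exact Finset.sum_congr rfl fun i _ => Finset.sum_congr rfl fun j _ => by ring
  rw [h1]
  unfold dt
  rw [Finset.mul_sum, ← Finset.sum_add_distrib, ← Finset.sum_neg_distrib]
  exact Finset.sum_congr rfl fun i _ => by ring

/-- The compatibility condition. -/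
theorem EqH_compat {x0 : Fin n → ℝ} {g : Fin k → Fin n → ℝ} {s0 : Fin k → Fin n → Fin n → ℝ}
    {t0 : Fin k → Fin n → Fin n → Fin n → ℝ} {y : Arr n k} {c c1 c2 c3 : Cf k}
    {a b : Fin n → ℝ} (h : EqH x0 g s0 t0 y c c1 c2 c3 a b) :
    dt (gr x0 g c1) b = dt (gr x0 g c2) a -
      ∑ j, c.2 j * (dt (mv (s0 j) a) b - dt (mv (s0 j) b) a) := by
  obtain ⟨h1, h2, -⟩ := h
  have e1 : gr x0 g c1 = fun i => -(c.1 * a i + ∑ j, c.2 j * (mv (s0 j) a i +
      syc (y.1 j) a i)) := funext fun i => by linarith [h1 i]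
  have e2 : gr x0 g c2 = fun i => -(c.1 * b i + ∑ j, c.2 j * (mv (s0 j) b i +
      syc (y.1 j) b i)) := funext fun i => by linarith [h2 i]
  have f1 : dt (gr x0 g c1) b = -(c.1 * dt a b + ∑ j, c.2 j * (dt (mv (s0 j) a) b +
      dt (syc (y.1 j) a) b)) := by
    rw [e1]
    exact dt_big c.1 a b c.2 (fun j => mv (s0 j) a) (fun j => syc (y.1 j) a)
  have f2 : dt (gr x0 g c2) a = -(c.1 * dt b a + ∑ j, c.2 j * (dt (mv (s0 j) b) a +
      dt (syc (y.1 j) b) a)) := by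
    rw [e2]
    exact dt_big c.1 b a c.2 (fun j => mv (s0 j) b) (fun j => syc (y.1 j) b)
  rw [f1, f2, dt_comm b a]
  simp only [dt_syc _ b a, mul_add, mul_sub, Finset.sum_add_distrib, Finset.sum_sub_distrib]
  ring

/-- Interchange of the two vectors. -/
theorem EqH_swap {x0 : Fin n → ℝ} {g : Fin k → Fin n → ℝ} {s0 : Fin k → Fin n → Fin n → ℝ}
    {t0 : Fin k → Fin n → Fin n → Fin n → ℝ} {y : Arr n k} {c c1 c2 c3 : Cf k}
    {a b : Fin n → ℝ} (h : EqH x0 g s0 t0 y c c1 c2 c3 a b) :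
    EqH x0 g s0 (fun j i l m => t0 j i m l) y c c2 c1 c3 b a := by
  obtain ⟨h1, h2, h3⟩ := h
  refine ⟨h2, h1, fun i => ?_⟩
  have e1 : ∀ j, GA.mt (fun i l m => t0 j i m l) b a i = GA.mt (t0 j) a b i := fun j => by
    unfold GA.mt
    rw [Finset.sum_comm]
    exact Finset.sum_congr rfl fun l _ => Finset.sum_congr rfl fun m _ => by ring
  have e2 : ∀ j, stc (y.2 j) b a i = stc (y.2 j) a b i := fun j => by
    unfold stc
    rw [Finset.sum_comm]
    exact Finset.sum_congr rfl fun l _ => Finset.sum_congr rfl fun m _ => by ring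
  have := h3 i
  simp only [e1, e2]
  linarith

theorem dt_smooth {P : Type*} [NormedAddCommGroup P] [NormedSpace ℝ P] {a b : P → Fin n → ℝ}
    (ha : ContDiff ℝ 1 a) (hb : ContDiff ℝ 1 b) : ContDiff ℝ 1 fun p => dt (a p) (b p) := by
  unfold dt
  exact ContDiff.sum fun i _ => ((contDiff_pi.1 ha) i).mul ((contDiff_pi.1 hb) i)

theorem dt_sub (u w v : Fin n → ℝ) : dt (u - w) v = dt u v - dt w v := by
  have h := dt_add (u - w) w v
  rw [sub_add_cancel] at h
  linarith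

/-- The vectors orthogonal to `x0` with two vanishing coordinates. -/
def WW (x0 : Fin n → ℝ) (i0 i1 : Fin n) : Submodule ℝ (Fin n → ℝ) :=
  VV x0 i0 ⊓ LinearMap.ker (LinearMap.proj i1 : (Fin n → ℝ) →ₗ[ℝ] ℝ)

theorem finrank_WW {x0 : Fin n → ℝ} (hx : dt x0 x0 = 1) (i0 i1 : Fin n) {v w : Fin n → ℝ}
    (hv : dt v x0 = 0) (hvi : v i0 = 1) (hw : w ∈ VV x0 i0) (hwi : w i1 = 1) :
    finrank ℝ (WW x0 i0 i1) + 3 ≤ n := by
  have h1 := finrank_VV hx i0 hv hvi
  have h2 : WW x0 i0 i1 < VV x0 i0 := by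
    refine lt_of_le_of_ne inf_le_left fun h => ?_
    have h3 : w ∈ WW x0 i0 i1 := by
      rw [h]
      exact hw
    have h4 : w i1 = 0 := h3.2
    rw [hwi] at h4
    exact one_ne_zero h4
  have h5 := Submodule.finrank_lt_finrank_of_lt h2
  omega

end Pool.Agent.LFK.GA1
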