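import Pool.Agent.LFK.GN1

/-!
# [LEAFK GEN] GN2: a gradient is not orthogonal to one of the vectors.
-/

set_option autoImplicit false

namespace Pool.Agent.LFK.GA1

open Module MeasureTheory Pool.Agent.LFK.GA
open scoped ContDiff

variable {n k : ℕ}

/-- The coefficient vector `e_j`. -/
def ej (j : Fin k) : Cf k := ((0 : ℝ), (Pi.single j 1 : Fin k → ℝ))

theorem ej_same (j : Fin k) : (ej j).2 j = 1 := by simp [ej]

theorem mem_CC {j : Fin k} {c : Cf k} : c ∈ CC k j ↔ c.2 j = 0 := Iff.rfl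

theorem dt_gr_add (x0 : Fin n → ℝ) (g : Fin k → Fin n → ℝ) (c : Cf k) (s : ℝ) (j : Fin k)
    (b : Fin n → ℝ) : dt (gr x0 g (c + s • ej j)) b = dt (gr x0 g c) b + s * dt (g j) b := by
  have h1 : gr x0 g (c + s • ej j) = gr x0 g c + s • g j := by
    funext i
    unfold gr ej
    simp only [Prod.fst_add, Prod.smul_fst, smul_zero, add_zero, Prod.snd_add, Prod.smul_snd,
      Pi.add_apply, Pi.smul_apply, smul_eq_mul, add_mul, Finset.sum_add_distrib]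
    rw [Finset.sum_eq_single (f := fun x => s * (Pi.single j 1 : Fin k → ℝ) x * g x i) j]
    · simp
      ring
    · intro l _ hl
      rw [Pi.single_eq_of_ne hl]
      ring
    · intro h
      exact absurd (Finset.mem_univ j) h
  rw [h1, dt_add, dt_smul]

section

variable (x0 : Fin n → ℝ) (g : Fin k → Fin n → ℝ) (s0 : Fin k → Fin n → Fin n → ℝ)

/-- The parameters. -/
abbrev PX (x0 : Fin n → ℝ) (k : ℕ) (i0 i1 : Fin n) (j0 j1 : Fin k) : Type :=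
  CC k j0 × VV x0 i0 × WW x0 i0 i1 × CC k j1 × Cf k × Cf k

variable {x0}

/-- `c`. -/
def pc {i0 i1 : Fin n} {j0 j1 : Fin k} (p : PX x0 k i0 i1 j0 j1) : Cf k := ej j0 + (p.1 : Cf k)

/-- `a`. -/
def pa (v0 : Fin n → ℝ) {i0 i1 : Fin n} {j0 j1 : Fin k} (p : PX x0 k i0 i1 j0 j1) :
    Fin n → ℝ := v0 + (p.2.1 : Fin n → ℝ)

/-- `b` before the projection. -/
def pb' (v1 : Fin n → ℝ) {i0 i1 : Fin n} {j0 j1 : Fin k} (p : PX x0 k i0 i1 j0 j1) :
    Fin n → ℝ := v1 + (p.2.2.1 : Fin n → ℝ)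

/-- `b`. -/
noncomputable def pb (v0 v1 : Fin n → ℝ) {i0 i1 : Fin n} {j0 j1 : Fin k}
    (p : PX x0 k i0 i1 j0 j1) : Fin n → ℝ :=
  pb' v1 p - (dt (pa v0 p) (pb' v1 p) / dt (pa v0 p) (pa v0 p)) • pa v0 p

/-- The numerator. -/
noncomputable def pN (v0 v1 : Fin n → ℝ) {i0 i1 : Fin n} {j0 j1 : Fin k}
    (p : PX x0 k i0 i1 j0 j1) : ℝ :=
  dt (gr x0 g p.2.2.2.2.1) (pa v0 p) -
    ∑ j, (pc p).2 j * (dt (mv (s0 j) (pa v0 p)) (pb v0 v1 p) -
      dt (mv (s0 j) (pb v0 v1 p)) (pa v0 p)) - dt (gr x0 g (p.2.2.2.1 : Cf k)) (pb v0 v1 p)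

/-- `c1`. -/
noncomputable def pc1 (v0 v1 : Fin n → ℝ) {i0 i1 : Fin n} {j0 j1 : Fin k}
    (p : PX x0 k i0 i1 j0 j1) : Cf k :=
  (p.2.2.2.1 : Cf k) + (pN g s0 v0 v1 p / dt (g j1) (pb v0 v1 p)) • ej j1

/-- The tuple. -/
noncomputable def pT (v0 v1 : Fin n → ℝ) {i0 i1 : Fin n} {j0 j1 : Fin k}
    (p : PX x0 k i0 i1 j0 j1) : TU n k :=
  (pc p, pa v0 p, pb v0 v1 p, pc1 g s0 v0 v1 p, p.2.2.2.2.1, p.2.2.2.2.2)

variable {v0 v1 : Fin n → ℝ} {i0 i1 : Fin n} {j0 j1 : Fin k}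

theorem pc_smooth : ContDiff ℝ 1 (pc : PX x0 k i0 i1 j0 j1 → Cf k) :=
  contDiff_const.add ((CC k j0).subtypeL.contDiff.comp contDiff_fst)

theorem pa_smooth : ContDiff ℝ 1 (pa v0 : PX x0 k i0 i1 j0 j1 → Fin n → ℝ) :=
  contDiff_const.add ((VV x0 i0).subtypeL.contDiff.comp (contDiff_fst.comp contDiff_snd))

theorem pb'_smooth : ContDiff ℝ 1 (pb' v1 : PX x0 k i0 i1 j0 j1 → Fin n → ℝ) :=
  contDiff_const.add ((WW x0 i0 i1).subtypeL.contDiff.comp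
    (contDiff_fst.comp (contDiff_snd.comp contDiff_snd)))

theorem pa_ne (h0 : v0 i0 = 1) (p : PX x0 k i0 i1 j0 j1) :
    dt (pa v0 p) (pa v0 p) ≠ 0 := by
  refine dt_self_ne fun h => ?_
  have h1 : pa v0 p i0 = 1 := by
    have h2 : (p.2.1 : Fin n → ℝ) i0 = 0 := p.2.1.2.2
    show v0 i0 + (p.2.1 : Fin n → ℝ) i0 = 1
    rw [h0, h2, add_zero]
  rw [h] at h1
  exact zero_ne_one h1

theorem pb_smooth (h0 : v0 i0 = 1) :
    ContDiff ℝ 1 (pb v0 v1 : PX x0 k i0 i1 j0 j1 → Fin n → ℝ) :=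
  pb'_smooth.sub (((dt_smooth pa_smooth pb'_smooth).div (dt_smooth pa_smooth pa_smooth)
    (pa_ne h0)).smul pa_smooth)

theorem mvv_smooth {P : Type*} [NormedAddCommGroup P] [NormedSpace ℝ P] (s : Fin n → Fin n → ℝ)
    {a : P → Fin n → ℝ} (ha : ContDiff ℝ 1 a) : ContDiff ℝ 1 fun p => mv s (a p) :=
  contDiff_pi.2 fun i => mv_smooth s ha i

theorem grv_smooth {P : Type*} [NormedAddCommGroup P] [NormedSpace ℝ P] (x0 : Fin n → ℝ)
    (g : Fin k → Fin n → ℝ) {c : P → Cf k} (hc : ContDiff ℝ 1 c) :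
    ContDiff ℝ 1 fun p => gr x0 g (c p) :=
  contDiff_pi.2 fun i => gr_smooth x0 g hc i

theorem pN_smooth (h0 : v0 i0 = 1) :
    ContDiff ℝ 1 (pN g s0 v0 v1 : PX x0 k i0 i1 j0 j1 → ℝ) := by
  have h3 : ContDiff ℝ 1 fun p : PX x0 k i0 i1 j0 j1 => p.2.2.2 :=
    contDiff_snd.comp (contDiff_snd.comp contDiff_snd)
  have hc2 : ContDiff ℝ 1 fun p : PX x0 k i0 i1 j0 j1 => p.2.2.2.2.1 :=
    contDiff_fst.comp (contDiff_snd.comp h3)
  have hc1 : ContDiff ℝ 1 fun p : PX x0 k i0 i1 j0 j1 => (p.2.2.2.1 : Cf k) :=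
    (CC k j1).subtypeL.contDiff.comp (contDiff_fst.comp h3)
  have hb := pb_smooth (x0 := x0) (k := k) (v1 := v1) (i1 := i1) (j0 := j0) (j1 := j1) h0
  exact ((dt_smooth (grv_smooth x0 g hc2) pa_smooth).sub (cs_smooth pc_smooth fun j =>
    (dt_smooth (mvv_smooth (s0 j) pa_smooth) hb).sub
      (dt_smooth (mvv_smooth (s0 j) hb) pa_smooth))).sub (dt_smooth (grv_smooth x0 g hc1) hb)

theorem pT_smooth (h0 : v0 i0 = 1) :
    ContDiffOn ℝ 1 (pT g s0 v0 v1 : PX x0 k i0 i1 j0 j1 → TU n k)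
      {p | dt (g j1) (pb v0 v1 p) ≠ 0} := by
  have h3 : ContDiff ℝ 1 fun p : PX x0 k i0 i1 j0 j1 => p.2.2.2 :=
    contDiff_snd.comp (contDiff_snd.comp contDiff_snd)
  have hc2 : ContDiff ℝ 1 fun p : PX x0 k i0 i1 j0 j1 => p.2.2.2.2.1 :=
    contDiff_fst.comp (contDiff_snd.comp h3)
  have hc3 : ContDiff ℝ 1 fun p : PX x0 k i0 i1 j0 j1 => p.2.2.2.2.2 :=
    contDiff_snd.comp (contDiff_snd.comp h3)
  have hc1 : ContDiff ℝ 1 fun p : PX x0 k i0 i1 j0 j1 => (p.2.2.2.1 : Cf k) :=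
    (CC k j1).subtypeL.contDiff.comp (contDiff_fst.comp h3)
  have hb := pb_smooth (x0 := x0) (k := k) (v1 := v1) (i1 := i1) (j0 := j0) (j1 := j1) h0
  have hd : ContDiff ℝ 1 fun p : PX x0 k i0 i1 j0 j1 => dt (g j1) (pb v0 v1 p) :=
    dt_smooth contDiff_const hb
  have hq : ContDiffOn ℝ 1 (fun p : PX x0 k i0 i1 j0 j1 =>
      pN g s0 v0 v1 p / dt (g j1) (pb v0 v1 p)) {p | dt (g j1) (pb v0 v1 p) ≠ 0} :=
    (pN_smooth g s0 h0).contDiffOn.div hd.contDiffOn fun p hp => hp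
  exact pc_smooth.contDiffOn.prodMk (pa_smooth.contDiffOn.prodMk (hb.contDiffOn.prodMk
    ((hc1.contDiffOn.add (hq.smul contDiffOn_const)).prodMk
      (hc2.contDiffOn.prodMk hc3.contDiffOn))))

/-- The first case, normalised. -/
theorem caseA1 (hn : 4 * k ≤ n + 1) (hx : dt x0 x0 = 1)
    (t0 : Fin k → Fin n → Fin n → Fin n → ℝ) (i0 i1 : Fin n) (j0 j1 : Fin k) :
    ∀ᵐ y : Arr n k, ∀ (c c1 c2 c3 : Cf k) (a b : Fin n → ℝ), c.2 j0 = 1 →
      a i0 = 1 → (b - b i0 • a) i1 = 1 → dt a x0 = 0 → dt b x0 = 0 → dt a b = 0 →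
      dt (g j1) b ≠ 0 → ¬ EqH x0 g s0 t0 y c c1 c2 c3 a b := by
  by_cases h0 : ∃ v, dt v x0 = 0 ∧ v i0 = 1
  swap
  · exact Filter.Eventually.of_forall fun y c c1 c2 c3 a b _ ha _ hax => absurd ⟨a, hax, ha⟩ h0
  have memb : ∀ a b : Fin n → ℝ, a i0 = 1 → dt a x0 = 0 → dt b x0 = 0 →
      b - b i0 • a ∈ VV x0 i0 := fun a b ha hax hbx => by
    refine ⟨?_, ?_⟩
    · show dt (b - b i0 • a) x0 = 0
      rw [dt_sub, dt_smul, hax, hbx, mul_zero, sub_zero]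
    · show (b - b i0 • a) i0 = 0
      rw [Pi.sub_apply, Pi.smul_apply, ha, smul_eq_mul, mul_one, sub_self]
  by_cases h1 : ∃ v ∈ VV x0 i0, v i1 = 1
  swap
  · exact Filter.Eventually.of_forall fun y c c1 c2 c3 a b _ ha hb hax hbx =>
      absurd ⟨_, memb a b ha hax hbx, hb⟩ h1
  obtain ⟨v0, hv0, hv0i⟩ := h0
  obtain ⟨v1, hv1, hv1i⟩ := h1
  have e0 := finrank_VV hx i0 hv0 hv0i
  have e1 := finrank_WW hx i0 i1 hv0 hv0i hv1 hv1i
  have e2 := finrank_CC j0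
  have e2' := finrank_CC j1
  have hdim : finrank ℝ (PX x0 k i0 i1 j0 j1) < 3 * n - 1 := by
    have e3 : finrank ℝ (Cf k) = k + 1 := by
      rw [Module.finrank_prod, Module.finrank_self, Module.finrank_fin_fun]
      omega
    simp only [PX, Module.finrank_prod (M' := VV x0 i0 × WW x0 i0 i1 × CC k j1 × Cf k × Cf k),
      Module.finrank_prod (M' := WW x0 i0 i1 × CC k j1 × Cf k × Cf k),
      Module.finrank_prod (M' := CC k j1 × Cf k × Cf k),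
      Module.finrank_prod (M' := Cf k × Cf k), Module.finrank_prod (M := Cf k) (M' := Cf k)]
    rw [e3]
    omega
  have hb := pb_smooth (x0 := x0) (k := k) (v1 := v1) (i1 := i1) (j0 := j0) (j1 := j1) hv0i
  have hU : IsOpen {p : PX x0 k i0 i1 j0 j1 | dt (g j1) (pb v0 v1 p) ≠ 0} :=
    isOpen_ne_fun (dt_smooth contDiff_const hb).continuous continuous_const
  have key := nullG i0 j0 hU (pT g s0 v0 v1) (pT_smooth g s0 hv0i) hdim x0 g s0 t0
  rw [measure_eq_zero_iff_ae_notMem] at key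
  filter_upwards [key] with y hy c c1 c2 c3 a b hc ha hbi hax hbx hab hgb hE
  apply hy
  have m0 : c - ej j0 ∈ CC k j0 := by
    rw [mem_CC]
    show c.2 j0 - (ej j0).2 j0 = 0
    rw [hc, ej_same, sub_self]
  have ma : a - v0 ∈ VV x0 i0 := by
    refine ⟨?_, ?_⟩
    · show dt (a - v0) x0 = 0
      rw [dt_sub, hax, hv0, sub_zero]
    · show (a - v0) i0 = 0
      rw [Pi.sub_apply, ha, hv0i, sub_self]
  have mb : (b - b i0 • a) - v1 ∈ WW x0 i0 i1 := by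
    refine ⟨Submodule.sub_mem _ (memb a b ha hax hbx) hv1, ?_⟩
    show ((b - b i0 • a) - v1) i1 = 0
    rw [Pi.sub_apply, hbi, hv1i, sub_self]
  have m1 : c1 - c1.2 j1 • ej j1 ∈ CC k j1 := by
    rw [mem_CC]
    show c1.2 j1 - c1.2 j1 * (ej j1).2 j1 = 0
    rw [ej_same, mul_one, sub_self]
  have ha0 : a ≠ 0 := by
    rintro rfl
    exact zero_ne_one ha
  have hb0 : b ≠ 0 := by
    rintro rfl
    apply hgb
    simp [dt]
  obtain ⟨p, hp⟩ : ∃ p : PX x0 k i0 i1 j0 j1, p = (⟨_, m0⟩, ⟨_, ma⟩, ⟨_, mb⟩, ⟨_, m1⟩, c2, c3) :=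
    ⟨_, rfl⟩
  have qc : pc p = c := by
    rw [hp]
    show ej j0 + (c - ej j0) = c
    abel
  have qa : pa v0 p = a := by
    rw [hp]
    show v0 + (a - v0) = a
    abel
  have qb' : pb' v1 p = b - b i0 • a := by
    rw [hp]
    show v1 + ((b - b i0 • a) - v1) = b - b i0 • a
    abel
  have haa := dt_self_ne ha0
  have qb : pb v0 v1 p = b := by
    unfold pb
    rw [qa, qb', dt_comm a (b - b i0 • a), dt_sub, dt_smul, dt_comm b a, hab, zero_sub, neg_div,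
      mul_div_assoc, div_self haa, mul_one, neg_smul, sub_neg_eq_add, sub_add_cancel]
  have qc1 : pc1 g s0 v0 v1 p = c1 := by
    have q1 : ((p.2.2.2.1 : CC k j1) : Cf k) = c1 - c1.2 j1 • ej j1 := by rw [hp]
    have q2 : p.2.2.2.2.1 = c2 := by rw [hp]
    have q3 : pN g s0 v0 v1 p = c1.2 j1 * dt (g j1) b := by
      unfold pN
      rw [qa, qb, qc, q1, q2]
      have w1 := EqH_compat hE
      have w2 := dt_gr_add x0 g (c1 - c1.2 j1 • ej j1) (c1.2 j1) j1 b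
      rw [sub_add_cancel] at w2
      rw [← w1, w2]
      ring
    unfold pc1
    rw [q3, qb, mul_div_assoc, div_self hgb, mul_one, q1, sub_add_cancel]
  refine ⟨p, ?_, c, c1, c2, c3, a, b, ?_, hc, ha0, hb0, hab, ?_, hE⟩
  · show dt (g j1) (pb v0 v1 p) ≠ 0
    rw [qb]
    exact hgb
  · unfold pT
    rw [qc, qa, qb, qc1, hp]
  · rw [ha]
    exact one_ne_zero

end

end Pool.Agent.LFK.GA1
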