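import Pool.Agent.LFK.GArr

/-!
# [LEAFK GEN] the two easy strata of the sharp count.
-/

set_option autoImplicit false

namespace Pool.Agent.LFK.GA

open Module MeasureTheory
open scoped ContDiff

variable {n k : ℕ}

/-- Null set, `c ≠ 0` in the last components, `c1`, `c2` in given subspaces. -/
theorem gsh2_nullA {W0 Wa Wb W1 W2 : Type*} [NormedAddCommGroup W0] [NormedSpace ℝ W0]
    [FiniteDimensional ℝ W0] [NormedAddCommGroup Wa] [NormedSpace ℝ Wa] [FiniteDimensional ℝ Wa]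
    [NormedAddCommGroup Wb] [NormedSpace ℝ Wb] [FiniteDimensional ℝ Wb]
    [NormedAddCommGroup W1] [NormedSpace ℝ W1] [FiniteDimensional ℝ W1]
    [NormedAddCommGroup W2] [NormedSpace ℝ W2] [FiniteDimensional ℝ W2]
    (i0 : Fin n) (j0 : Fin k) (ι0 : W0 →L[ℝ] Cf k) (ιa : Wa →L[ℝ] (Fin n → ℝ))
    (ιb : Wb →L[ℝ] (Fin n → ℝ)) (ι1 : W1 →L[ℝ] Cf k) (ι2 : W2 →L[ℝ] Cf k)
    (c0 : Cf k) (a0 b0 : Fin n → ℝ)
    (hdim : finrank ℝ W0 + finrank ℝ Wa + finrank ℝ Wb + finrank ℝ W1 + finrank ℝ W2 + (k + 1) <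
      3 * n - 1)
    (x0 : Fin n → ℝ) (g : Fin k → Fin n → ℝ) (s0 : Fin k → Fin n → Fin n → ℝ)
    (t0 : Fin k → Fin n → Fin n → Fin n → ℝ) :
    (volume : Measure (Arr n k)) {y | ∃ (x : W0) (u : Wa) (v : Wb) (d1 : W1) (d2 : W2) (c3 : Cf k),
      (c0 + ι0 x).2 j0 = 1 ∧ a0 + ιa u ≠ 0 ∧ b0 + ιb v ≠ 0 ∧ dt (a0 + ιa u) (b0 + ιb v) = 0 ∧
      (a0 + ιa u) i0 ≠ 0 ∧
      EqH x0 g s0 t0 y (c0 + ι0 x) (ι1 d1) (ι2 d2) c3 (a0 + ιa u) (b0 + ιb v)} = 0 := by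
  classical
  let PP : Type _ := W0 × Wa × Wb × W1 × W2 × Cf k
  set c : PP → Cf k := fun p => c0 + ι0 p.1 with hcdef
  set a : PP → Fin n → ℝ := fun p => a0 + ιa p.2.1 with hadef
  set b : PP → Fin n → ℝ := fun p => b0 + ιb p.2.2.1 with hbdef
  set c1 : PP → Cf k := fun p => ι1 p.2.2.2.1 with hc1def
  set c2 : PP → Cf k := fun p => ι2 p.2.2.2.2.1 with hc2def
  set c3 : PP → Cf k := fun p => p.2.2.2.2.2 with hc3def
  have hc : ContDiff ℝ 1 c := contDiff_const.add (ι0.contDiff.comp contDiff_fst)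
  have ha : ContDiff ℝ 1 a := contDiff_const.add (ιa.contDiff.comp (contDiff_fst.comp contDiff_snd))
  have hb : ContDiff ℝ 1 b := contDiff_const.add
    (ιb.contDiff.comp (contDiff_fst.comp (contDiff_snd.comp contDiff_snd)))
  have h2222 : ContDiff ℝ 1 (fun p : PP => p.2.2.2) :=
    contDiff_snd.comp (contDiff_snd.comp contDiff_snd)
  have hc1 : ContDiff ℝ 1 c1 := ι1.contDiff.comp (contDiff_fst.comp h2222)
  have hc2 : ContDiff ℝ 1 c2 := ι2.contDiff.comp (contDiff_fst.comp (contDiff_snd.comp h2222))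
  have hc3 : ContDiff ℝ 1 c3 := contDiff_snd.comp (contDiff_snd.comp h2222)
  set h : PP → RA n i0 := fun p =>
    (fun i => -((c p).1 * a p i + ∑ j, (c p).2 j * mv (s0 j) (a p) i + gr x0 g (c1 p) i),
     fun l => -((c p).1 * b p l + ∑ j, (c p).2 j * mv (s0 j) (b p) l + gr x0 g (c2 p) l),
     fun i => -(∑ j, (c p).2 j * mt (t0 j) (a p) (b p) i +
      ((c1 p).1 * b p i + ∑ j, (c1 p).2 j * mv (s0 j) (b p) i) +
      ((c2 p).1 * a p i + ∑ j, (c2 p).2 j * mv (s0 j) (a p) i) + gr x0 g (c3 p) i)) with hh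
  have hai : ∀ i, ContDiff ℝ 1 fun p => a p i := fun i => (contDiff_pi.1 ha) i
  have hbi : ∀ i, ContDiff ℝ 1 fun p => b p i := fun i => (contDiff_pi.1 hb) i
  have hhs : ContDiff ℝ 1 h := by
    refine ContDiff.prodMk ?_ (ContDiff.prodMk ?_ ?_)
    · exact contDiff_pi.2 fun i => (((hc.fst.mul (hai i)).add
        (cs_smooth hc fun j => mv_smooth _ ha i)).add (gr_smooth _ _ hc1 i)).neg
    · exact contDiff_pi.2 fun i => (((hc.fst.mul (hbi i)).add
        (cs_smooth hc fun j => mv_smooth (s0 j) hb (i : Fin n))).add (gr_smooth x0 g hc2 (i : Fin n))).neg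
    · exact contDiff_pi.2 fun i => ((((cs_smooth hc fun j => mt_smooth _ ha hb i).add
        ((hc1.fst.mul (hbi i)).add (cs_smooth hc1 fun j => mv_smooth _ hb i))).add
        ((hc2.fst.mul (hai i)).add (cs_smooth hc2 fun j => mv_smooth _ ha i))).add
        (gr_smooth _ _ hc3 i)).neg
  have hrank : finrank ℝ PP < finrank ℝ (RA n i0) := by
    have e1 : finrank ℝ PP = finrank ℝ W0 + (finrank ℝ Wa + (finrank ℝ Wb +
        (finrank ℝ W1 + (finrank ℝ W2 + finrank ℝ (Cf k))))) := by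
      simp only [PP, Module.finrank_prod]
    have e2 : finrank ℝ (Cf k) = k + 1 := by
      rw [Module.finrank_prod, Module.finrank_self, Module.finrank_fin_fun]
      omega
    have e3 : finrank ℝ (RA n i0) = n + ((n - 1) + n) := by
      rw [Module.finrank_prod, Module.finrank_prod, Module.finrank_fin_fun,
        Module.finrank_fintype_fun_eq_card]
      congr 2
      rw [Fintype.card_subtype_compl, Fintype.card_fin, Fintype.card_subtype_eq]
    have hn : 0 < n := i0.pos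
    rw [e1, e2, e3]
    omega
  have := arr_haar (n := n) (k := k)
  have key := nul (volume : Measure (Arr n k)) (U := (Set.univ : Set PP)) isOpen_univ
    (fun p => LinearMap.toContinuousLinearMap (LA i0 (c p) (a p) (b p) (c1 p) (c2 p))) h
    (LA_smooth i0 hc hc1 hc2 ha hb).contDiffOn hhs.contDiffOn hrank
  refine measure_mono_null ?_ key
  rintro y ⟨x, u, v, d1, d2, d3, e1, e2, e3, e4, e5, E1, E2, E3⟩
  refine ⟨(x, u, v, d1, d2, d3), Set.mem_univ _, LA_surj i0 _ j0 e1 e2 e3 e4 e5 (ι1 d1) (ι2 d2), ?_⟩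
  refine Prod.ext (funext fun i => ?_) (Prod.ext (funext fun l => ?_) (funext fun i => ?_))
  · have := E1 i
    simp only [mul_add, Finset.sum_add_distrib] at this
    show ∑ j, (c0 + ι0 x).2 j * syc (y.1 j) (a0 + ιa u) i =
      -((c0 + ι0 x).1 * (a0 + ιa u) i + ∑ j, (c0 + ι0 x).2 j * mv (s0 j) (a0 + ιa u) i +
        gr x0 g (ι1 d1) i)
    linarith
  · have := E2 l
    simp only [mul_add, Finset.sum_add_distrib] at this
    show ∑ j, (c0 + ι0 x).2 j * syc (y.1 j) (b0 + ιb v) l =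
      -((c0 + ι0 x).1 * (b0 + ιb v) l + ∑ j, (c0 + ι0 x).2 j * mv (s0 j) (b0 + ιb v) l +
        gr x0 g (ι2 d2) l)
    linarith
  · have := E3 i
    simp only [mul_add, Finset.sum_add_distrib] at this
    show ∑ j, ((c0 + ι0 x).2 j * stc (y.2 j) (a0 + ιa u) (b0 + ιb v) i +
        (ι1 d1).2 j * syc (y.1 j) (b0 + ιb v) i + (ι2 d2).2 j * syc (y.1 j) (a0 + ιa u) i) =
      -(∑ j, (c0 + ι0 x).2 j * mt (t0 j) (a0 + ιa u) (b0 + ιb v) i +
      ((ι1 d1).1 * (b0 + ιb v) i + ∑ j, (ι1 d1).2 j * mv (s0 j) (b0 + ιb v) i) +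
      ((ι2 d2).1 * (a0 + ιa u) i + ∑ j, (ι2 d2).2 j * mv (s0 j) (a0 + ιa u) i) + gr x0 g d3 i)
    simp only [Finset.sum_add_distrib]
    linarith

theorem caseII (hn : 2 * k < n) {x0 : Fin n → ℝ} (hx : dt x0 x0 = 1) (g : Fin k → Fin n → ℝ)
    (s0 : Fin k → Fin n → Fin n → ℝ) (t0 : Fin k → Fin n → Fin n → Fin n → ℝ) (i0 i1 : Fin n)
    (j0 : Fin k) : ∀ᵐ y : Arr n k, ∀ (c c3 : Cf k) (z1 z2 : ℝ) (a b : Fin n → ℝ), c.2 j0 = 1 →
      a i0 = 1 → b i1 = 1 → dt a x0 = 0 → dt b x0 = 0 → dt a b = 0 →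
      ¬ EqH x0 g s0 t0 y c (z1, 0) (z2, 0) c3 a b := by
  by_cases h0 : ∃ v, dt v x0 = 0 ∧ v i0 = 1
  swap
  · exact Filter.Eventually.of_forall fun y c c3 z1 z2 a b _ ha _ hax => absurd ⟨a, hax, ha⟩ h0
  by_cases h1 : ∃ v, dt v x0 = 0 ∧ v i1 = 1
  swap
  · exact Filter.Eventually.of_forall fun y c c3 z1 z2 a b _ _ hb _ hbx => absurd ⟨b, hbx, hb⟩ h1
  obtain ⟨v0, hv0, hv0i⟩ := h0
  obtain ⟨v1, hv1, hv1i⟩ := h1
  have e0 := finrank_VV hx i0 hv0 hv0i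
  have e1 := finrank_VV hx i1 hv1 hv1i
  have e2 := finrank_CC j0
  have e3 : finrank ℝ ℝ = 1 := Module.finrank_self ℝ
  have key := gsh2_nullA i0 j0 (CC k j0).subtypeL (VV x0 i0).subtypeL (VV x0 i1).subtypeL
    (ContinuousLinearMap.inl ℝ ℝ (Fin k → ℝ)) (ContinuousLinearMap.inl ℝ ℝ (Fin k → ℝ))
    ((0 : ℝ), (Pi.single j0 1 : Fin k → ℝ)) v0 v1 (by omega) x0 g s0 t0
  rw [measure_eq_zero_iff_ae_notMem] at key
  filter_upwards [key] with y hy c c3 z1 z2 a b hc ha hb hax hbx hab hE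
  apply hy
  have m0 : c - ((0 : ℝ), (Pi.single j0 1 : Fin k → ℝ)) ∈ CC k j0 := by
    unfold CC
    rw [LinearMap.mem_ker]
    simp [hc]
  have ma : a - v0 ∈ VV x0 i0 := by
    refine ⟨?_, ?_⟩
    · show dtl x0 (a - v0) = 0
      rw [map_sub]
      show dt a x0 - dt v0 x0 = 0
      rw [hax, hv0, sub_zero]
    · show (a - v0) i0 = 0
      rw [Pi.sub_apply, ha, hv0i, sub_self]
  have mb : b - v1 ∈ VV x0 i1 := by
    refine ⟨?_, ?_⟩
    · show dtl x0 (b - v1) = 0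
      rw [map_sub]
      show dt b x0 - dt v1 x0 = 0
      rw [hbx, hv1, sub_zero]
    · show (b - v1) i1 = 0
      rw [Pi.sub_apply, hb, hv1i, sub_self]
  have q0 : ((0 : ℝ), (Pi.single j0 1 : Fin k → ℝ)) + (CC k j0).subtypeL ⟨_, m0⟩ = c :=
    add_sub_cancel _ _
  have qa : v0 + (VV x0 i0).subtypeL ⟨_, ma⟩ = a := add_sub_cancel _ _
  have qb : v1 + (VV x0 i1).subtypeL ⟨_, mb⟩ = b := add_sub_cancel _ _
  have q1 : ContinuousLinearMap.inl ℝ ℝ (Fin k → ℝ) z1 = (z1, 0) := rfl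
  have q2 : ContinuousLinearMap.inl ℝ ℝ (Fin k → ℝ) z2 = (z2, 0) := rfl
  refine ⟨⟨_, m0⟩, ⟨_, ma⟩, ⟨_, mb⟩, z1, z2, c3, ?_⟩
  rw [q0, qa, qb, q1, q2]
  refine ⟨hc, ?_, ?_, hab, ?_, hE⟩
  · rintro rfl
    exact zero_ne_one ha
  · rintro rfl
    exact zero_ne_one hb
  · rw [ha]
    exact one_ne_zero

/-- Null set, `c = (1, 0)`, `c1`, `c2` in given affine subspaces. -/
theorem gsh2_nullB {W1 W2 : Type*} [NormedAddCommGroup W1] [NormedSpace ℝ W1]
    [FiniteDimensional ℝ W1] [NormedAddCommGroup W2] [NormedSpace ℝ W2] [FiniteDimensional ℝ W2]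
    (ι1 : W1 →L[ℝ] (Fin k → ℝ)) (ι2 : W2 →L[ℝ] (Fin k → ℝ)) (v1 v2 : Fin k → ℝ)
    (hdim : finrank ℝ W1 + finrank ℝ W2 + (k + 1) < n) (x0 : Fin n → ℝ) (g : Fin k → Fin n → ℝ)
    (s0 : Fin k → Fin n → Fin n → ℝ) (t0 : Fin k → Fin n → Fin n → Fin n → ℝ) :
    (volume : Measure (Arr n k)) {y | ∃ (u : W1) (v : W2) (c1 c2 c3 : Cf k) (a b : Fin n → ℝ),
      c1.2 = v1 + ι1 u ∧ c2.2 = v2 + ι2 v ∧
      c1.1 = -∑ j, c1.2 j * dt (g j) x0 ∧ c2.1 = -∑ j, c2.2 j * dt (g j) x0 ∧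
      b ≠ 0 ∧ dt a b = 0 ∧ (∃ j0, c1.2 j0 ≠ 0) ∧
      EqH x0 g s0 t0 y (1, 0) c1 c2 c3 a b} = 0 := by
  classical
  let PP : Type _ := W1 × W2 × Cf k
  set e : (Fin k → ℝ) → Cf k := fun v => (-∑ j, v j * dt (g j) x0, v) with hedef
  have he : ContDiff ℝ 1 e := by
    refine ContDiff.prodMk ?_ contDiff_id
    exact (ContDiff.sum fun j _ => (contDiff_apply ℝ ℝ j).mul contDiff_const).neg
  set c1 : PP → Cf k := fun p => e (v1 + ι1 p.1) with hc1def
  set c2 : PP → Cf k := fun p => e (v2 + ι2 p.2.1) with hc2def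
  set c3 : PP → Cf k := fun p => p.2.2 with hc3def
  set a : PP → Fin n → ℝ := fun p i => -gr x0 g (c1 p) i with hadef
  set b : PP → Fin n → ℝ := fun p i => -gr x0 g (c2 p) i with hbdef
  have hc1 : ContDiff ℝ 1 c1 := he.comp (contDiff_const.add (ι1.contDiff.comp contDiff_fst))
  have hc2 : ContDiff ℝ 1 c2 :=
    he.comp (contDiff_const.add (ι2.contDiff.comp (contDiff_fst.comp contDiff_snd)))
  have hc3 : ContDiff ℝ 1 c3 := contDiff_snd.comp contDiff_snd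
  have ha : ContDiff ℝ 1 a := contDiff_pi.2 fun i => (gr_smooth _ _ hc1 i).neg
  have hb : ContDiff ℝ 1 b := contDiff_pi.2 fun i => (gr_smooth _ _ hc2 i).neg
  set h : PP → (Fin n → ℝ) := fun p i => -(((c1 p).1 * b p i + ∑ j, (c1 p).2 j * mv (s0 j) (b p) i) +
      ((c2 p).1 * a p i + ∑ j, (c2 p).2 j * mv (s0 j) (a p) i) + gr x0 g (c3 p) i) with hh
  have hai : ∀ i, ContDiff ℝ 1 fun p => a p i := fun i => (contDiff_pi.1 ha) i
  have hbi : ∀ i, ContDiff ℝ 1 fun p => b p i := fun i => (contDiff_pi.1 hb) i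
  have hhs : ContDiff ℝ 1 h := contDiff_pi.2 fun i =>
    ((((hc1.fst.mul (hbi i)).add (cs_smooth hc1 fun j => mv_smooth _ hb i)).add
        ((hc2.fst.mul (hai i)).add (cs_smooth hc2 fun j => mv_smooth _ ha i))).add
        (gr_smooth _ _ hc3 i)).neg
  have hrank : finrank ℝ PP < finrank ℝ (Fin n → ℝ) := by
    simp only [PP, Module.finrank_prod, Module.finrank_self, Module.finrank_fin_fun]
    omega
  have := arr_haar (n := n) (k := k)
  have key := nul (volume : Measure (Arr n k)) (U := (Set.univ : Set PP)) isOpen_univ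
    (fun p => LinearMap.toContinuousLinearMap (LB (a p) (b p) (c1 p) (c2 p))) h
    (LB_smooth hc1 hc2 ha hb).contDiffOn hhs.contDiffOn hrank
  refine measure_mono_null ?_ key
  rintro y ⟨u, v, d1, d2, d3, a', b', p1, p2, f1, f2, hb0, hab, ⟨j0, hj0⟩, E1, E2, E3⟩
  have g1 : c1 (u, v, d3) = d1 := by
    refine Prod.ext ?_ p1.symm
    show -∑ j, (v1 + ι1 u) j * dt (g j) x0 = d1.1
    rw [f1, p1]
  have g2 : c2 (u, v, d3) = d2 := by
    refine Prod.ext ?_ p2.symm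
    show -∑ j, (v2 + ι2 v) j * dt (g j) x0 = d2.1
    rw [f2, p2]
  have ga : a (u, v, d3) = a' := by
    funext i
    have := E1 i
    simp only [one_mul, Pi.zero_apply, zero_mul, Finset.sum_const_zero, add_zero] at this
    show -gr x0 g (c1 (u, v, d3)) i = a' i
    rw [g1]
    linarith
  have gb : b (u, v, d3) = b' := by
    funext i
    have := E2 i
    simp only [one_mul, Pi.zero_apply, zero_mul, Finset.sum_const_zero, add_zero] at this
    show -gr x0 g (c2 (u, v, d3)) i = b' i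
    rw [g2]
    linarith
  refine ⟨(u, v, d3), Set.mem_univ _, ?_, ?_⟩
  · show Function.Surjective (LB (a (u, v, d3)) (b (u, v, d3)) (c1 (u, v, d3)) (c2 (u, v, d3)))
    rw [ga, gb, g1, g2]
    exact LB_surj hb0 hab d1 d2 j0 hj0
  · show (LB (a (u, v, d3)) (b (u, v, d3)) (c1 (u, v, d3)) (c2 (u, v, d3))) y = h (u, v, d3)
    rw [hh]
    simp only
    rw [ga, gb, g1, g2]
    funext i
    have := E3 i
    simp only [Pi.zero_apply, zero_mul, Finset.sum_const_zero, zero_add, mul_add,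
      Finset.sum_add_distrib] at this
    show ∑ j, (d1.2 j * syc (y.1 j) b' i + d2.2 j * syc (y.1 j) a' i) =
      -((d1.1 * b' i + ∑ j, d1.2 j * mv (s0 j) b' i) +
      (d2.1 * a' i + ∑ j, d2.2 j * mv (s0 j) a' i) + gr x0 g d3 i)
    simp only [Finset.sum_add_distrib]
    linarith

theorem caseBs (hn : 3 * k < n + 1) {x0 : Fin n → ℝ} (hx : dt x0 x0 = 1) (g : Fin k → Fin n → ℝ)
    (s0 : Fin k → Fin n → Fin n → ℝ) (t0 : Fin k → Fin n → Fin n → Fin n → ℝ) :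
    ∀ᵐ y : Arr n k, ∀ (c1 c2 c3 : Cf k) (a b : Fin n → ℝ), a ≠ 0 → b ≠ 0 → dt a x0 = 0 →
      dt b x0 = 0 → dt a b = 0 → ¬ EqH x0 g s0 t0 y (1, 0) c1 c2 c3 a b := by
  -- the two facts on one equation
  have fact : ∀ (c1 : Cf k) (a : Fin n → ℝ), a ≠ 0 → dt a x0 = 0 →
      (∀ i, a i + gr x0 g c1 i = 0) →
      c1.1 = -∑ j, c1.2 j * dt (g j) x0 ∧ ∃ j0, c1.2 j0 ≠ 0 := by
    intro c1 a ha hax hE
    have e1 : a = (-1 : ℝ) • gr x0 g c1 := by
      funext i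
      have := hE i
      simp only [Pi.smul_apply, smul_eq_mul]
      linarith
    have e2 : dt a x0 = -(c1.1 + ∑ j, c1.2 j * dt (g j) x0) := by
      rw [e1, dt_smul, dt_gr x0 hx g c1]
      ring
    rw [hax] at e2
    have e3 : c1.1 = -∑ j, c1.2 j * dt (g j) x0 := by linarith
    refine ⟨e3, ?_⟩
    by_contra hcon
    push Not at hcon
    have e4 : c1.1 = 0 := by
      rw [e3]
      simp [hcon]
    refine ha (funext fun i => ?_)
    have := hE i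
    unfold gr at this
    rw [e4] at this
    simp only [hcon, zero_mul, Finset.sum_const_zero, add_zero] at this
    exact this
  have conv : ∀ (y : Arr n k) (c1 c2 c3 : Cf k) (a b : Fin n → ℝ),
      EqH x0 g s0 t0 y (1, 0) c1 c2 c3 a b →
      (∀ i, a i + gr x0 g c1 i = 0) ∧ ∀ i, b i + gr x0 g c2 i = 0 := by
    intro y c1 c2 c3 a b hE
    obtain ⟨E1, E2, -⟩ := hE
    refine ⟨fun i => ?_, fun i => ?_⟩
    · have := E1 i
      simpa using this
    · have := E2 i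
      simpa using this
  have hA : ∀ᵐ y : Arr n k, ∀ (j0 j1 : Fin k) (c1 c2 c3 : Cf k) (a b : Fin n → ℝ),
      c1.2 j0 = 1 → c2.2 j1 = 1 → a ≠ 0 → b ≠ 0 → dt a x0 = 0 → dt b x0 = 0 → dt a b = 0 →
      ¬ EqH x0 g s0 t0 y (1, 0) c1 c2 c3 a b := by
    rw [ae_all_iff]
    intro j0
    rw [ae_all_iff]
    intro j1
    set K0 : Submodule ℝ (Fin k → ℝ) := LinearMap.ker (LinearMap.proj j0 : (Fin k → ℝ) →ₗ[ℝ] ℝ)
    set K1 : Submodule ℝ (Fin k → ℝ) := LinearMap.ker (LinearMap.proj j1 : (Fin k → ℝ) →ₗ[ℝ] ℝ)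
    have r0 : finrank ℝ K0 + 1 = k := by
      have := finrank_ker_functional (LinearMap.proj j0 : (Fin k → ℝ) →ₗ[ℝ] ℝ)
        (Pi.single j0 1 : Fin k → ℝ) (by simp)
      rwa [Module.finrank_fin_fun] at this
    have r1 : finrank ℝ K1 + 1 = k := by
      have := finrank_ker_functional (LinearMap.proj j1 : (Fin k → ℝ) →ₗ[ℝ] ℝ)
        (Pi.single j1 1 : Fin k → ℝ) (by simp)
      rwa [Module.finrank_fin_fun] at this
    have key := gsh2_nullB K0.subtypeL K1.subtypeL (Pi.single j0 1 : Fin k → ℝ)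
      (Pi.single j1 1 : Fin k → ℝ) (by omega) x0 g s0 t0
    rw [measure_eq_zero_iff_ae_notMem] at key
    filter_upwards [key] with y hy c1 c2 c3 a b h1 h2 ha hb hax hbx hab hE
    obtain ⟨c, d⟩ := conv y c1 c2 c3 a b hE
    obtain ⟨f1, f2⟩ := fact c1 a ha hax c
    have m0 : c1.2 - (Pi.single j0 1 : Fin k → ℝ) ∈ K0 := by
      show (c1.2 - (Pi.single j0 1 : Fin k → ℝ)) j0 = 0
      simp [h1]
    have m1 : c2.2 - (Pi.single j1 1 : Fin k → ℝ) ∈ K1 := by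
      show (c2.2 - (Pi.single j1 1 : Fin k → ℝ)) j1 = 0
      simp [h2]
    exact hy ⟨⟨_, m0⟩, ⟨_, m1⟩, c1, c2, c3, a, b, (add_sub_cancel _ _).symm,
      (add_sub_cancel _ _).symm, f1, (fact c2 b hb hbx d).1, hb, hab, f2, hE⟩
  filter_upwards [hA] with y hy c1 c2 c3 a b ha hb hax hbx hab hE
  obtain ⟨c, d⟩ := conv y c1 c2 c3 a b hE
  obtain ⟨-, j0, hj0⟩ := fact c1 a ha hax c
  obtain ⟨-, j1, hj1⟩ := fact c2 b hb hbx d
  have h1 := EqH_scale hE 1 (c1.2 j0)⁻¹ (c2.2 j1)⁻¹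
  rw [one_smul, one_mul, one_mul] at h1
  refine hy j0 j1 _ _ _ _ _ ?_ ?_ ?_ ?_ ?_ ?_ ?_ h1
  · exact inv_mul_cancel₀ hj0
  · exact inv_mul_cancel₀ hj1
  · exact smul_ne_zero (inv_ne_zero hj0) ha
  · exact smul_ne_zero (inv_ne_zero hj1) hb
  · rw [dt_smul, hax, mul_zero]
  · rw [dt_smul, hbx, mul_zero]
  · rw [dt_smul, dt_comm, dt_smul, dt_comm, hab, mul_zero, mul_zero]

end Pool.Agent.LFK.GA
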