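import Pool.Agent.LFK.GN2
import Pool.Agent.LFK.GSH2
import Pool.Agent.LFK.GFin
import Pool.Agent.LFK.GEN

/-!
# [LEAFK GEN] GN3: the sharp count, `n ≥ 4 k - 1`.
-/

set_option autoImplicit false

namespace Pool.Agent.LFK.GA1

open Module MeasureTheory Pool.Agent.LFK.GA Pool.Agent.MP_6cbfb8_an
open Pool.Agent.LFK.GEN (sy st)

variable {n k : ℕ}

/-- The products with the gradients. -/
def TG (x0 : Fin n → ℝ) (g : Fin k → Fin n → ℝ) : (Fin n → ℝ) →ₗ[ℝ] Cf k where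
  toFun v := (dt v x0, fun j => dt v (g j))
  map_add' u v := Prod.ext (dt_add u v x0) (funext fun j => dt_add u v (g j))
  map_smul' r u := Prod.ext (dt_smul r u x0) (funext fun j => dt_smul r u (g j))

theorem dt_gr_self (x0 : Fin n → ℝ) (g : Fin k → Fin n → ℝ) (c : Cf k) (v : Fin n → ℝ) :
    dt v (gr x0 g c) = c.1 * dt v x0 + ∑ j, c.2 j * dt v (g j) := by
  unfold gr dt
  simp only [mul_add, Finset.sum_add_distrib, Finset.mul_sum]
  congr 1
  · exact Finset.sum_congr rfl fun i _ => by ring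
  · rw [Finset.sum_comm]
    exact Finset.sum_congr rfl fun j _ => Finset.sum_congr rfl fun i _ => by ring

/-- The gradient as a linear map. -/
def grL (x0 : Fin n → ℝ) (g : Fin k → Fin n → ℝ) : Cf k →ₗ[ℝ] (Fin n → ℝ) where
  toFun c := gr x0 g c
  map_add' c d := by
    funext i
    unfold gr
    simp only [Prod.fst_add, Prod.snd_add, Pi.add_apply, add_mul, Finset.sum_add_distrib]
    ring
  map_smul' r c := by
    funext i
    exact gr_smul x0 g r c i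

theorem finrank_TG {x0 : Fin n → ℝ} {g : Fin k → Fin n → ℝ}
    (hI : ∀ c : Cf k, (∀ i, gr x0 g c i = 0) → c = 0) :
    finrank ℝ (LinearMap.ker (TG x0 g)) + (k + 1) = n := by
  have h1 : Function.Injective ((TG x0 g).comp (grL x0 g)) := by
    rw [← LinearMap.ker_eq_bot, LinearMap.ker_eq_bot']
    intro c hc
    refine hI c fun i => ?_
    have h2 : dt (gr x0 g c) x0 = 0 := congrArg Prod.fst hc
    have h3 : ∀ j, dt (gr x0 g c) (g j) = 0 := fun j => congrFun (congrArg Prod.snd hc) j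
    have h4 : dt (gr x0 g c) (gr x0 g c) = 0 := by
      rw [dt_gr_self, h2]
      simp [h3]
    by_contra hne
    exact dt_self_ne (fun h => hne (congrFun h i)) h4
  have h2 : Function.Surjective ((TG x0 g).comp (grL x0 g)) :=
    LinearMap.injective_iff_surjective.1 h1
  have h3 : LinearMap.range (TG x0 g) = ⊤ := by
    rw [LinearMap.range_eq_top]
    intro c
    obtain ⟨d, hd⟩ := h2 c
    exact ⟨_, hd⟩
  have h4 := LinearMap.finrank_range_add_finrank_ker (TG x0 g)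
  rw [h3, finrank_top, Module.finrank_prod, Module.finrank_self, Module.finrank_fin_fun,
    Module.finrank_fin_fun] at h4
  omega

/-- The vectors orthogonal to the gradients with a vanishing coordinate. -/
def V2 (x0 : Fin n → ℝ) (g : Fin k → Fin n → ℝ) (i : Fin n) : Submodule ℝ (Fin n → ℝ) :=
  LinearMap.ker (TG x0 g) ⊓ LinearMap.ker (LinearMap.proj i : (Fin n → ℝ) →ₗ[ℝ] ℝ)

theorem mem_TG {x0 : Fin n → ℝ} {g : Fin k → Fin n → ℝ} {v : Fin n → ℝ} :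
    v ∈ LinearMap.ker (TG x0 g) ↔ dt v x0 = 0 ∧ ∀ j, dt v (g j) = 0 := by
  rw [LinearMap.mem_ker]
  constructor
  · intro h
    exact ⟨congrArg Prod.fst h, fun j => congrFun (congrArg Prod.snd h) j⟩
  · rintro ⟨h1, h2⟩
    exact Prod.ext h1 (funext h2)

theorem finrank_V2 {x0 : Fin n → ℝ} {g : Fin k → Fin n → ℝ}
    (hI : ∀ c : Cf k, (∀ i, gr x0 g c i = 0) → c = 0) (i : Fin n) {v : Fin n → ℝ}
    (hv : v ∈ LinearMap.ker (TG x0 g)) (hvi : v i = 1) : finrank ℝ (V2 x0 g i) + (k + 2) ≤ n := by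
  have h1 := finrank_TG hI
  have h2 : V2 x0 g i < LinearMap.ker (TG x0 g) := by
    refine lt_of_le_of_ne inf_le_left fun h => ?_
    have h3 : v ∈ V2 x0 g i := by
      rw [h]
      exact hv
    have h4 : v i = 0 := h3.2
    rw [hvi] at h4
    exact one_ne_zero h4
  have h5 := Submodule.finrank_lt_finrank_of_lt h2
  omega

/-- The second case, normalised: all gradients are orthogonal to both vectors. -/
theorem caseA2 (hn : 2 * k < n) {x0 : Fin n → ℝ} {g : Fin k → Fin n → ℝ}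
    (hI : ∀ c : Cf k, (∀ i, gr x0 g c i = 0) → c = 0)
    (s0 : Fin k → Fin n → Fin n → ℝ) (t0 : Fin k → Fin n → Fin n → Fin n → ℝ) (i0 i1 : Fin n)
    (j0 : Fin k) : ∀ᵐ y : Arr n k, ∀ (c c1 c2 c3 : Cf k) (a b : Fin n → ℝ), c.2 j0 = 1 →
      a i0 = 1 → b i1 = 1 → dt a x0 = 0 → (∀ j, dt a (g j) = 0) → dt b x0 = 0 →
      (∀ j, dt b (g j) = 0) → dt a b = 0 → ¬ EqH x0 g s0 t0 y c c1 c2 c3 a b := by
  by_cases h0 : ∃ v ∈ LinearMap.ker (TG x0 g), v i0 = 1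
  swap
  · exact Filter.Eventually.of_forall fun y c c1 c2 c3 a b _ ha _ hax hag =>
      absurd ⟨a, mem_TG.2 ⟨hax, hag⟩, ha⟩ h0
  by_cases h1 : ∃ v ∈ LinearMap.ker (TG x0 g), v i1 = 1
  swap
  · exact Filter.Eventually.of_forall fun y c c1 c2 c3 a b _ _ hb _ _ hbx hbg =>
      absurd ⟨b, mem_TG.2 ⟨hbx, hbg⟩, hb⟩ h1
  obtain ⟨v0, hv0, hv0i⟩ := h0
  obtain ⟨v1, hv1, hv1i⟩ := h1
  have e0 := finrank_V2 hI i0 hv0 hv0i
  have e1 := finrank_V2 hI i1 hv1 hv1i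
  have e2 := finrank_CC j0
  have key := nullA i0 j0 (CC k j0).subtypeL (V2 x0 g i0).subtypeL (V2 x0 g i1).subtypeL
    (ej j0) v0 v1 (by omega) x0 g s0 t0
  rw [measure_eq_zero_iff_ae_notMem] at key
  filter_upwards [key] with y hy c c1 c2 c3 a b hc ha hb hax hag hbx hbg hab hE
  apply hy
  have m0 : c - ej j0 ∈ CC k j0 := by
    rw [mem_CC]
    show c.2 j0 - (ej j0).2 j0 = 0
    rw [hc, ej_same, sub_self]
  have ma : a - v0 ∈ V2 x0 g i0 := by
    refine ⟨Submodule.sub_mem _ (mem_TG.2 ⟨hax, hag⟩) hv0, ?_⟩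
    show (a - v0) i0 = 0
    rw [Pi.sub_apply, ha, hv0i, sub_self]
  have mb : b - v1 ∈ V2 x0 g i1 := by
    refine ⟨Submodule.sub_mem _ (mem_TG.2 ⟨hbx, hbg⟩) hv1, ?_⟩
    show (b - v1) i1 = 0
    rw [Pi.sub_apply, hb, hv1i, sub_self]
  have q0 : ej j0 + (CC k j0).subtypeL ⟨_, m0⟩ = c := add_sub_cancel _ _
  have qa : v0 + (V2 x0 g i0).subtypeL ⟨_, ma⟩ = a := add_sub_cancel _ _
  have qb : v1 + (V2 x0 g i1).subtypeL ⟨_, mb⟩ = b := add_sub_cancel _ _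
  refine ⟨⟨_, m0⟩, ⟨_, ma⟩, ⟨_, mb⟩, c1, c2, c3, ?_⟩
  rw [q0, qa, qb]
  refine ⟨hc, ?_, ?_, hab, ?_, hE⟩
  · rintro rfl
    exact zero_ne_one ha
  · rintro rfl
    exact zero_ne_one hb
  · rw [ha]
    exact one_ne_zero

theorem dt_smul_r (x : ℝ) (u v : Fin n → ℝ) : dt u (x • v) = x * dt u v := by
  rw [dt_comm, dt_smul, dt_comm]

/-- The first case. -/
theorem caseA1' (hn : 4 * k ≤ n + 1) {x0 : Fin n → ℝ} (hx : dt x0 x0 = 1)
    (g : Fin k → Fin n → ℝ) (s0 : Fin k → Fin n → Fin n → ℝ)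
    (t0 : Fin k → Fin n → Fin n → Fin n → ℝ) :
    ∀ᵐ y : Arr n k, ∀ (j0 j1 : Fin k) (c c1 c2 c3 : Cf k) (a b : Fin n → ℝ), c.2 j0 ≠ 0 →
      a ≠ 0 → b ≠ 0 → dt a x0 = 0 → dt b x0 = 0 → dt a b = 0 →
      dt (g j1) b ≠ 0 → ¬ EqH x0 g s0 t0 y c c1 c2 c3 a b := by
  have hA : ∀ᵐ y : Arr n k, ∀ (i0 i1 : Fin n) (j0 j1 : Fin k) (c c1 c2 c3 : Cf k)
      (a b : Fin n → ℝ), c.2 j0 = 1 →
      a i0 = 1 → (b - b i0 • a) i1 = 1 → dt a x0 = 0 → dt b x0 = 0 → dt a b = 0 →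
      dt (g j1) b ≠ 0 → ¬ EqH x0 g s0 t0 y c c1 c2 c3 a b := by
    rw [ae_all_iff]
    intro i0
    rw [ae_all_iff]
    intro i1
    rw [ae_all_iff]
    intro j0
    rw [ae_all_iff]
    intro j1
    exact caseA1 g s0 hn hx t0 i0 i1 j0 j1
  filter_upwards [hA] with y hy j0 j1 c c1 c2 c3 a b hc ha hb hax hbx hab hgb hE
  obtain ⟨i0, hi0⟩ : ∃ i, a i ≠ 0 := Function.ne_iff.1 ha
  have hb' : b - (b i0 / a i0) • a ≠ 0 := by
    intro h
    have h1 : dt (b - (b i0 / a i0) • a) b = 0 := by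
      rw [h]
      simp [dt]
    rw [dt_sub, dt_smul, hab, mul_zero, sub_zero] at h1
    exact dt_self_ne hb h1
  obtain ⟨i1, hi1⟩ : ∃ i, (b - (b i0 / a i0) • a) i ≠ 0 := Function.ne_iff.1 hb'
  set β : ℝ := ((b - (b i0 / a i0) • a) i1)⁻¹ with hβ
  have hβ0 : β ≠ 0 := inv_ne_zero hi1
  refine hy i0 i1 j0 j1 _ _ _ _ _ _ ?_ ?_ ?_ ?_ ?_ ?_ ?_
    (EqH_scale hE (c.2 j0)⁻¹ (a i0)⁻¹ β)
  · exact inv_mul_cancel₀ hc
  · exact inv_mul_cancel₀ hi0
  · have e1 : β • b - (β • b) i0 • (a i0)⁻¹ • a = β • (b - (b i0 / a i0) • a) := by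
      funext i
      simp only [Pi.sub_apply, Pi.smul_apply, smul_eq_mul]
      field_simp
    rw [e1]
    exact inv_mul_cancel₀ hi1
  · rw [dt_smul, hax, mul_zero]
  · rw [dt_smul, hbx, mul_zero]
  · rw [dt_smul, dt_smul_r, hab, mul_zero, mul_zero]
  · rw [dt_smul_r]
    exact mul_ne_zero hβ0 hgb

/-- The coordinate form. -/
theorem gen_coord1 (hk : 1 ≤ k) (hn : 4 * k ≤ n + 1) {x0 : Fin n → ℝ} (hx : dt x0 x0 = 1)
    (g : Fin k → Fin n → ℝ) (hI : ∀ c : Cf k, (∀ i, gr x0 g c i = 0) → c = 0)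
    (s0 : Fin k → Fin n → Fin n → ℝ) (t0 : Fin k → Fin n → Fin n → Fin n → ℝ) :
    ∀ᵐ y : Arr n k, ∀ (c c1 c2 c3 : Cf k) (a b : Fin n → ℝ), c ≠ 0 → a ≠ 0 → b ≠ 0 →
      dt a x0 = 0 → dt b x0 = 0 → dt a b = 0 → ¬ EqH x0 g s0 t0 y c c1 c2 c3 a b := by
  have hA2 : ∀ᵐ y : Arr n k, ∀ (i0 i1 : Fin n) (j0 : Fin k) (c c1 c2 c3 : Cf k)
      (a b : Fin n → ℝ), c.2 j0 = 1 → a i0 = 1 → b i1 = 1 → dt a x0 = 0 →
      (∀ j, dt a (g j) = 0) → dt b x0 = 0 → (∀ j, dt b (g j) = 0) → dt a b = 0 →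
      ¬ EqH x0 g s0 t0 y c c1 c2 c3 a b := by
    rw [ae_all_iff]
    intro i0
    rw [ae_all_iff]
    intro i1
    rw [ae_all_iff]
    intro j0
    exact caseA2 (by omega) hI s0 t0 i0 i1 j0
  filter_upwards [hA2, caseBs (by omega) hx g s0 t0, caseA1' hn hx g s0 t0,
    caseA1' hn hx g s0 (fun j i l m => t0 j i m l)] with y hyA hyB hy1 hy2 c c1 c2 c3 a b hc ha hb
    hax hbx hab hE
  obtain ⟨i0, hi0⟩ : ∃ i, a i ≠ 0 := Function.ne_iff.1 ha
  obtain ⟨i1, hi1⟩ : ∃ i, b i ≠ 0 := Function.ne_iff.1 hb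
  by_cases hcj : ∃ j, c.2 j ≠ 0
  · obtain ⟨j0, hj0⟩ := hcj
    by_cases hgb : ∃ j1, dt (g j1) b ≠ 0
    · obtain ⟨j1, hj1⟩ := hgb
      exact hy1 j0 j1 c c1 c2 c3 a b hj0 ha hb hax hbx hab hj1 hE
    by_cases hga : ∃ j1, dt (g j1) a ≠ 0
    · obtain ⟨j1, hj1⟩ := hga
      exact hy2 j0 j1 c c2 c1 c3 b a hj0 hb ha hbx hax (by rw [dt_comm]; exact hab) hj1
        (EqH_swap hE)
    push Not at hgb hga
    refine hyA i0 i1 j0 _ _ _ _ _ _ ?_ ?_ ?_ ?_ (fun j => ?_) ?_ (fun j => ?_) ?_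
      (EqH_scale hE (c.2 j0)⁻¹ (a i0)⁻¹ (b i1)⁻¹)
    · exact inv_mul_cancel₀ hj0
    · exact inv_mul_cancel₀ hi0
    · exact inv_mul_cancel₀ hi1
    · rw [dt_smul, hax, mul_zero]
    · rw [dt_smul, dt_comm, hga j, mul_zero]
    · rw [dt_smul, hbx, mul_zero]
    · rw [dt_smul, dt_comm, hgb j, mul_zero]
    · rw [dt_smul, dt_smul_r, hab, mul_zero, mul_zero]
  · push Not at hcj
    have hc1 : c.1 ≠ 0 := fun h => hc (Prod.ext h (funext hcj))
    have e1 : (c.1)⁻¹ • c = ((1 : ℝ), (0 : Fin k → ℝ)) := by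
      refine Prod.ext (inv_mul_cancel₀ hc1) (funext fun j => ?_)
      show (c.1)⁻¹ * c.2 j = 0
      rw [hcj j, mul_zero]
    have h1 := EqH_scale hE (c.1)⁻¹ 1 1
    rw [e1, one_smul, one_smul] at h1
    exact hyB _ _ _ _ _ ha hb hax hbx hab h1

/-- The gradients are independent. -/
theorem indep2 (hn : k < n) {x0 : Fin n → ℝ} (hx : dt x0 x0 = 1) (g : Fin k → Fin n → ℝ) :
    ∀ᵐ l : Fin k → Fin n → ℝ, ∀ c : Cf k, (∀ i, gr x0 (sh g l) c i = 0) → c = 0 := by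
  have hall : ∀ᵐ l : Fin k → Fin n → ℝ, ∀ (j0 : Fin k) (c : Cf k), c.2 j0 = 1 →
      ¬ ∀ i, gr x0 (sh g l) c i = 0 := by
    rw [ae_all_iff]
    exact fun j0 => indep_one hn _ _ j0
  filter_upwards [hall] with l hl c e
  have h2 : ∀ j, c.2 j = 0 := by
    intro j
    by_contra hj
    refine hl j ((c.2 j)⁻¹ • c) (inv_mul_cancel₀ hj) fun i => ?_
    rw [gr_smul, e i, mul_zero]
  have h1 : c.1 = 0 := by
    have h3 : dt (gr x0 (sh g l) c) x0 = 0 := by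
      rw [show gr x0 (sh g l) c = 0 from funext e]
      simp [dt]
    rw [dt_gr x0 hx] at h3
    simpa [h2] using h3
  exact Prod.ext h1 (funext h2)

/-- The coordinate form with the linear part. -/
theorem gen_coord2' (hk : 1 ≤ k) (hn : 4 * k ≤ n + 1) {x0 : Fin n → ℝ} (hx : dt x0 x0 = 1)
    (g : Fin k → Fin n → ℝ)
    (s0 : Fin k → Fin n → Fin n → ℝ) (t0 : Fin k → Fin n → Fin n → Fin n → ℝ) :
    ∀ᵐ y : (Fin k → Fin n → ℝ) × Arr n k, ¬ Bad x0 g s0 t0 y := by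
  have k1 : SigmaFinite (volume : Measure (Fin n → ℝ)) := sf_pi _ _
  have k2 : SigmaFinite (volume : Measure (Fin n → Fin n → ℝ)) := sf_pi _ _
  have k3 : SigmaFinite (volume : Measure (Fin n → Fin n → Fin n → ℝ)) := sf_pi _ _
  have k4 : SigmaFinite (volume : Measure (Fin k → Fin n → Fin n → ℝ)) := sf_pi _ _
  have k5 : SigmaFinite (volume : Measure (Fin k → Fin n → Fin n → Fin n → ℝ)) := sf_pi _ _
  have k6 : SigmaFinite (volume : Measure (Fin k → Fin n → ℝ)) := sf_pi _ _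
  have k7 : SigmaFinite (volume : Measure (Arr n k)) := by
    show SigmaFinite ((volume : Measure (Fin k → Fin n → Fin n → ℝ)).prod
        (volume : Measure (Fin k → Fin n → Fin n → Fin n → ℝ)))
    infer_instance
  have e : (volume : Measure ((Fin k → Fin n → ℝ) × Arr n k)) =
      (volume : Measure (Fin k → Fin n → ℝ)).prod (volume : Measure (Arr n k)) := rfl
  rw [e]
  refine (Measure.ae_prod_iff_ae_ae (p := fun y => ¬ Bad x0 g s0 t0 y)
    (bad_meas x0 g s0 t0).compl).2 ?_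
  filter_upwards [indep2 (by omega) hx g] with l hl
  filter_upwards [gen_coord1 hk hn hx (sh g l) hl s0 t0] with y hy
  rintro ⟨c, c1, c2, c3, a, b, hc, ha, hb, h1, h2, h3, h4⟩
  exact hy c c1 c2 c3 a b hc ha hb h1 h2 h3 h4

/-- For almost all coefficient arrays the equations have no solution. -/
theorem gen_arrays1 (n k : ℕ) (hk : 1 ≤ k) (hn : 4 * k ≤ n + 1) (x0 : E n) (hx : ‖x0‖ = 1)
    (g : Fin k → E n)
    (S0 : Fin k → E n →L[ℝ] E n) (T0 : Fin k → E n →L[ℝ] E n →L[ℝ] E n) :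
    ∀ᵐ y : (Fin k → Fin n → ℝ) × (Fin k → Fin n → Fin n → ℝ) ×
        (Fin k → Fin n → Fin n → Fin n → ℝ),
      ∀ (c c1 c2 c3 : ℝ × (Fin k → ℝ)) (a b : E n), c ≠ 0 → a ≠ 0 → b ≠ 0 →
      inner ℝ a x0 = 0 → inner ℝ b x0 = 0 → inner ℝ a b = 0 →
      c.1 • a + ∑ j, c.2 j • (S0 j a + sy (y.2.1 j) a) +
        (c1.1 • x0 + ∑ j, c1.2 j • (g j + WithLp.toLp 2 (y.1 j))) = 0 →
      c.1 • b + ∑ j, c.2 j • (S0 j b + sy (y.2.1 j) b) +
        (c2.1 • x0 + ∑ j, c2.2 j • (g j + WithLp.toLp 2 (y.1 j))) = 0 →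
      ∑ j, c.2 j • (T0 j a b + st (y.2.2 j) a b) +
        (c1.1 • b + ∑ j, c1.2 j • (S0 j b + sy (y.2.1 j) b)) +
        (c2.1 • a + ∑ j, c2.2 j • (S0 j a + sy (y.2.1 j) a)) +
        (c3.1 • x0 + ∑ j, c3.2 j • (g j + WithLp.toLp 2 (y.1 j))) = 0 → False := by
  have hx' : dt (fun i => x0 i) (fun i => x0 i) = 1 := by
    rw [← inner_dt, real_inner_self_eq_norm_sq, hx, one_pow]
  have key := gen_coord2' hk hn hx' (fun j i => g j i)
    (fun j i l => S0 j (EuclideanSpace.single l 1) i)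
    (fun j i l m => T0 j (EuclideanSpace.single l 1) (EuclideanSpace.single m 1) i)
  filter_upwards [key] with y hy c c1 c2 c3 a b hc ha hb hax hbx hab h1 h2 h3
  refine hy ⟨c, c1, c2, c3, fun i => a i, fun i => b i, hc, coord_ne ha, coord_ne hb,
    by rw [← inner_dt, hax], by rw [← inner_dt, hbx], by rw [← inner_dt, hab],
    fun i => ?_, fun i => ?_, fun i => ?_⟩
  · have e := congrArg (fun u : E n => u i) h1
    simp only [WithLp.ofLp_add, WithLp.ofLp_sum, WithLp.ofLp_smul, Finset.sum_apply, Pi.add_apply,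
      Pi.smul_apply, smul_eq_mul, WithLp.ofLp_zero, Pi.zero_apply] at e
    simp only [fun j => clm_coord (S0 j) a i] at e
    exact e
  · have e := congrArg (fun u : E n => u i) h2
    simp only [WithLp.ofLp_add, WithLp.ofLp_sum, WithLp.ofLp_smul, Finset.sum_apply, Pi.add_apply,
      Pi.smul_apply, smul_eq_mul, WithLp.ofLp_zero, Pi.zero_apply] at e
    simp only [fun j => clm_coord (S0 j) b i] at e
    exact e
  · have e := congrArg (fun u : E n => u i) h3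
    simp only [WithLp.ofLp_add, WithLp.ofLp_sum, WithLp.ofLp_smul, Finset.sum_apply, Pi.add_apply,
      Pi.smul_apply, smul_eq_mul, WithLp.ofLp_zero, Pi.zero_apply] at e
    simp only [fun j => clm2_coord (T0 j) a b i, fun j => clm_coord (S0 j) a i,
      fun j => clm_coord (S0 j) b i] at e
    exact e

/-- **For almost all coefficients of the cubic perturbation the phases are in general position**,
if `n ≥ 4 k - 1`. -/
theorem gen_ae1 (n k : ℕ) (hn : 4 * k ≤ n + 1) (φ : E n → E k) (x0 : E n) (hx : ‖x0‖ = 1)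
    (hφ : ContDiffAt ℝ 3 φ x0) :
    ∀ᵐ y : GEN.Arr n k, Gen (fun x => φ x + GEN.pert y x0 x) x0 := by
  rcases Nat.eq_zero_or_pos k with rfl | hk
  · have hn0 : 0 < n := by
      rcases Nat.eq_zero_or_pos n with rfl | h
      · have h1 : x0 = 0 := Subsingleton.elim _ _
        rw [h1, norm_zero] at hx
        exact absurd hx zero_ne_one
      · exact h
    exact GEN.gen_ae n 0 (by omega) φ x0 hx hφ
  have k1 : SigmaFinite (volume : Measure (Fin n → ℝ)) := GA.sf_pi _ _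
  have k2 : SigmaFinite (volume : Measure (Fin n → Fin n → ℝ)) := GA.sf_pi _ _
  have k3 : SigmaFinite (volume : Measure (Fin n → Fin n → Fin n → ℝ)) := GA.sf_pi _ _
  have k4 : SigmaFinite (volume : Measure (Fin k → Fin n → Fin n → ℝ)) := GA.sf_pi _ _
  have k5 : SigmaFinite (volume : Measure (Fin k → Fin n → Fin n → Fin n → ℝ)) := GA.sf_pi _ _
  have k6 : SigmaFinite (volume : Measure (Fin k → Fin n → ℝ)) := GA.sf_pi _ _
  have k7 : SigmaFinite (volume : Measure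
      ((Fin k → Fin n → Fin n → ℝ) × (Fin k → Fin n → Fin n → Fin n → ℝ))) := by
    show SigmaFinite ((volume : Measure (Fin k → Fin n → Fin n → ℝ)).prod
        (volume : Measure (Fin k → Fin n → Fin n → Fin n → ℝ)))
    infer_instance
  have h1 := GA.indep_arrays n k (by omega) x0 hx (GEN.G0 φ x0)
  have h2 : ∀ᵐ y : GEN.Arr n k, ∀ c : ℝ × (Fin k → ℝ),
      c.1 • x0 + ∑ j, c.2 j • (GEN.G0 φ x0 j + WithLp.toLp 2 (y.1 j)) = 0 → c = 0 :=
    (Measure.quasiMeasurePreserving_fst (μ := (volume : Measure (Fin k → Fin n → ℝ)))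
      (ν := (volume : Measure
      ((Fin k → Fin n → Fin n → ℝ) × (Fin k → Fin n → Fin n → Fin n → ℝ))))).ae h1
  filter_upwards [h2, gen_arrays1 n k hk hn x0 hx (GEN.G0 φ x0) (GEN.H0 φ x0) (GEN.K0 φ x0)] with
    y hI hA
  exact GEN.gen_of hφ y hI hA

end Pool.Agent.LFK.GA1
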