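import Mathlib

/-!
# [LEAFK GEN] NUL: few parameters and many linear equations have a null set of solutions.
-/

set_option autoImplicit false

namespace Pool.Agent.LFK.GA

open MeasureTheory Set Module
open scoped ENNReal Topology ContDiff

section

variable {P Q R : Type*} [NormedAddCommGroup P] [NormedSpace ℝ P] [FiniteDimensional ℝ P]
  [NormedAddCommGroup Q] [NormedSpace ℝ Q] [FiniteDimensional ℝ Q]
  [NormedAddCommGroup R] [NormedSpace ℝ R] [FiniteDimensional ℝ R]

/-- Near one parameter. -/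
theorem nul_local {U : Set P} (hU : IsOpen U) (A : P → Q →L[ℝ] R) (h : P → R)
    (hA : ContDiffOn ℝ 1 A U) (hh : ContDiffOn ℝ 1 h U)
    (hd : finrank ℝ P < finrank ℝ R) (p0 : P) (hp0 : p0 ∈ U) (hs : Function.Surjective (A p0)) :
    ∃ V ∈ 𝓝 p0, dimH {q : Q | ∃ p ∈ V, A p q = h p} < finrank ℝ Q := by
  have : CompleteSpace R := FiniteDimensional.complete ℝ R
  -- the right inverse
  obtain ⟨l, hl⟩ := (A p0 : Q →ₗ[ℝ] R).exists_rightInverse_of_surjective
    (LinearMap.range_eq_top.2 hs)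
  set L : R →L[ℝ] Q := LinearMap.toContinuousLinearMap l with hL
  have hAL : ∀ y, A p0 (L y) = y := fun y => by
    have := LinearMap.congr_fun hl y
    simpa [hL] using this
  set M : P → (R →L[ℝ] R) := fun p => (A p).comp L with hM
  have hMc : ContDiffOn ℝ 1 M U := hA.clm_comp contDiffOn_const
  have hM0 : M p0 = 1 := by
    ext y
    simp [hM, hAL]
  have hopen : {p | p ∈ U ∧ IsUnit (M p)} ∈ 𝓝 p0 := by
    have h1 : ContinuousAt M p0 := (hMc.continuousOn p0 hp0).continuousAt (hU.mem_nhds hp0)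
    have h2 : {T : R →L[ℝ] R | IsUnit T} ∈ 𝓝 (M p0) := by
      refine Units.isOpen.mem_nhds ?_
      rw [hM0]
      exact isUnit_one
    exact Filter.inter_mem (hU.mem_nhds hp0) (h1 h2)
  obtain ⟨r, hr, hball⟩ := Metric.mem_nhds_iff.1 hopen
  refine ⟨Metric.ball p0 r, Metric.ball_mem_nhds p0 hr, ?_⟩
  set K : Submodule ℝ Q := LinearMap.ker (A p0 : Q →ₗ[ℝ] R) with hK
  set Ψ : P × K → Q := fun x =>
    (x.2 : Q) + L (Ring.inverse (M x.1) (h x.1 - A x.1 (x.2 : Q))) with hΨ
  set s : Set (P × K) := Metric.ball p0 r ×ˢ univ with hs'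
  have hfst : ContDiffOn ℝ 1 (fun x : P × K => x.1) s := contDiff_fst.contDiffOn
  have hsub : ∀ x ∈ s, x.1 ∈ U := fun x hx => (hball hx.1).1
  have hk : ContDiff ℝ 1 (fun x : P × K => (x.2 : Q)) :=
    (K.subtypeL.contDiff).comp contDiff_snd
  have hΨc : ContDiffOn ℝ 1 Ψ s := by
    have h1 : ContDiffOn ℝ 1 (fun x : P × K => M x.1) s := hMc.comp hfst hsub
    have h2 : ContDiffOn ℝ 1 (fun x : P × K => Ring.inverse (M x.1)) s := by
      intro x hx
      obtain ⟨u, hu⟩ := (hball hx.1).2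
      have h3 := contDiffAt_ringInverse ℝ (n := 1) u
      rw [hu] at h3
      exact h3.comp_contDiffWithinAt x (h1 x hx)
    have h4 : ContDiffOn ℝ 1 (fun x : P × K => h x.1 - A x.1 (x.2 : Q)) s :=
      (hh.comp hfst hsub).sub ((hA.comp hfst hsub).clm_apply hk.contDiffOn)
    exact hk.contDiffOn.add ((L.contDiff.contDiffOn (s := univ)).comp (h2.clm_apply h4)
      (fun _ _ => mem_univ _))
  have hcov : {q : Q | ∃ p ∈ Metric.ball p0 r, A p q = h p} ⊆ Ψ '' s := by
    rintro q ⟨p, hp, hq⟩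
    have hk0 : q - L (A p0 q) ∈ K := by
      rw [hK, LinearMap.mem_ker]
      simp [hAL]
    refine ⟨(p, ⟨q - L (A p0 q), hk0⟩), ⟨hp, mem_univ _⟩, ?_⟩
    have hu : IsUnit (M p) := (hball hp).2
    have h1 : h p - A p (q - L (A p0 q)) = M p (A p0 q) := by
      rw [← hq, map_sub, hM]
      simp
    have h2 : Ring.inverse (M p) (M p (A p0 q)) = A p0 q := by
      have h3 := Ring.inverse_mul_cancel (M p) hu
      have h4 := congrArg (fun T : R →L[ℝ] R => T (A p0 q)) h3
      simpa using h4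
    show (q - L (A p0 q)) + L (Ring.inverse (M p) (h p - A p (q - L (A p0 q)))) = q
    rw [h1, h2]
    abel
  have hconv : Convex ℝ s := (convex_ball p0 r).prod convex_univ
  have hdim : dimH {q : Q | ∃ p ∈ Metric.ball p0 r, A p q = h p} ≤ finrank ℝ (P × K) :=
    calc dimH {q : Q | ∃ p ∈ Metric.ball p0 r, A p q = h p} ≤ dimH (Ψ '' s) := dimH_mono hcov
      _ ≤ dimH s := hΨc.dimH_image_le hconv Subset.rfl
      _ ≤ dimH (univ : Set (P × K)) := dimH_mono (subset_univ _)
      _ = finrank ℝ (P × K) := Real.dimH_univ_eq_finrank _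
  refine hdim.trans_lt ?_
  have hrank := LinearMap.finrank_range_add_finrank_ker (A p0 : Q →ₗ[ℝ] R)
  rw [LinearMap.range_eq_top.2 hs, finrank_top] at hrank
  rw [Module.finrank_prod]
  have : finrank ℝ P + finrank ℝ K < finrank ℝ Q := by
    rw [hK]
    omega
  exact_mod_cast this

/-- The set of the solutions is a null set. -/
theorem nul [MeasurableSpace Q] [BorelSpace Q] (μ : Measure Q) [μ.IsAddHaarMeasure]
    {U : Set P} (hU : IsOpen U) (A : P → Q →L[ℝ] R) (h : P → R)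
    (hA : ContDiffOn ℝ 1 A U) (hh : ContDiffOn ℝ 1 h U) (hd : finrank ℝ P < finrank ℝ R) :
    μ {q : Q | ∃ p ∈ U, Function.Surjective (A p) ∧ A p q = h p} = 0 := by
  have : ProperSpace P := FiniteDimensional.proper_real P
  set s : Set P := {p | p ∈ U ∧ Function.Surjective (A p)} with hs
  choose! V hV hdim using fun p (hp : p ∈ s) => nul_local hU A h hA hh hd p hp.1 hp.2
  obtain ⟨t, htU, htc, hcov⟩ := TopologicalSpace.countable_cover_nhdsWithin
    (f := V) (s := s) (fun p hp => mem_nhdsWithin_of_mem_nhds (hV p hp))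
  have hsub : {q : Q | ∃ p ∈ U, Function.Surjective (A p) ∧ A p q = h p} ⊆
      ⋃ p0 ∈ t, {q : Q | ∃ p ∈ V p0, A p q = h p} := by
    rintro q ⟨p, hp, hps, hq⟩
    obtain ⟨p0, hp0, hpV⟩ := mem_iUnion₂.1 (hcov ⟨hp, hps⟩)
    exact mem_iUnion₂.2 ⟨p0, hp0, p, hpV, hq⟩
  refine measure_mono_null hsub ((measure_biUnion_null_iff htc).2 fun p0 hp0 => ?_)
  refine measure_zero_of_dimH_lt (d := (finrank ℝ Q : ℕ)) ?_ ?_
  · rw [NNReal.coe_natCast]
    exact Measure.absolutelyContinuous_isAddHaarMeasure μ _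
  · exact_mod_cast hdim p0 (htU hp0)

end

end Pool.Agent.LFK.GA
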