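import Pool.Agent.LFK.GLUET
import Pool.Agent.LF2.MIX2
import Pool.Agent.HSL.H

/-!
Densities which are rough in `k` directions, cut by half-spaces whose position is any measurable
function of the rough variables.
-/

set_option autoImplicit false

namespace Pool.Agent.LFK

open MeasureTheory Set Pool.Agent.MP_6cbfb8_an Pool.Agent.LF
open scoped ENNReal Real RealInnerProductSpace ContDiff Topology

/-- The class is stable under multiplication by functions of the rough variables. -/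
theorem clk_mul {n k : ℕ} {K : Set (E n)} {B : ℕ → ℝ} {G : E k → E n → ℂ} (hG : Clk K B G)
    {F : E k → ℂ} (hF : Measurable F) (h1 : ∀ t, ‖F t‖ ≤ 1) :
    Clk K B fun t x => F t * G t x := by
  obtain ⟨ha, hb, hc, hd⟩ := hG
  refine ⟨(hF.comp measurable_fst).mul ha, fun t => contDiff_const.mul (hb t),
    fun j t x => ?_, fun t x hx hx' => ?_⟩
  swap
  · simp only
    rw [hd t x hx hx', mul_zero]
  have h2 : iteratedFDeriv ℝ j (F t • G t) x = F t • iteratedFDeriv ℝ j (G t) x :=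
    iteratedFDeriv_const_smul_apply ((hb t).of_le (by exact_mod_cast le_top)).contDiffAt
  have h3 : (fun x => F t * G t x) = F t • G t := rfl
  simp only
  rw [h3, h2, norm_smul]
  calc ‖F t‖ * ‖iteratedFDeriv ℝ j (G t) x‖ ≤ 1 * ‖iteratedFDeriv ℝ j (G t) x‖ :=
        mul_le_mul_of_nonneg_right (h1 t) (norm_nonneg _)
    _ ≤ B j := by rw [one_mul]; exact hc j t x

theorem hsk_extn_mul {n : ℕ} (d : ℂ) (g : E n → ℂ) (ξ : E n) :
    extn (fun x => d * g x) ξ = d * extn g ξ := by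
  unfold extn
  rw [← integral_const_mul]
  refine integral_congr_ae (Filter.Eventually.of_forall fun x => ?_)
  simp only
  ring

/-- The set where `J` inequalities hold. -/
def Hs {n k J : ℕ} (φ : E n → E k) (l : Fin J → E n) (w : Fin J → E k → ℝ) : Set (E n) :=
  {x | ∀ j, w j (φ x) < inner ℝ (l j) x}

/-- **Half-spaces**: tails and the whole space. -/
theorem hsk {n k : ℕ} {φ : E n → E k} (hφ : Measurable φ) {U : Set (E n)} {p : ℝ} (hp : 1 < p)
    (h : RBt φ p U) (J : ℕ) (B : ℕ → ℝ) :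
    ∃ C η : ℝ, 0 < η ∧ ∀ G, Clk U B G → ∀ l : Fin J → E n, (∀ j, ‖l j‖ = 1) →
      ∀ w : Fin J → E k → ℝ, (∀ j, Measurable (w j)) →
      (∀ R : ℝ, 1 ≤ R → ∫⁻ ξ in {ξ : E n | R ≤ ‖ξ‖},
        ‖extn ((Hs φ l w).indicator fun x => G (φ x) x) ξ‖ₑ ^ p ≤
          ENNReal.ofReal (C * R ^ (-η))) ∧
      ∫⁻ ξ, ‖extn ((Hs φ l w).indicator fun x => G (φ x) x) ξ‖ₑ ^ p ≤ ENNReal.ofReal C := by
  obtain ⟨η, hη, h⟩ := h
  obtain ⟨C, hC, h⟩ := h B
  have hp0 : 0 < p := by linarith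
  obtain ⟨C', η', hη', H⟩ := HSL.halfspaces n J (C := C.toReal) hp hη
  obtain ⟨C0, hC0, H0⟩ := HSL.tail_all n (C := |C'|) hp0 hη' (abs_nonneg _)
  set M : ℝ := max 1 (B 0) with hM
  have hM1 : 1 ≤ M := le_max_left _ _
  have hM0 : 0 < M := by linarith
  set c : ℂ := ((M⁻¹ : ℝ) : ℂ) with hc'
  have hMc : ‖c‖ = M⁻¹ := by
    rw [hc', Complex.norm_real, Real.norm_eq_abs, abs_of_pos (inv_pos.2 hM0)]
  have hMcc : ((M : ℝ) : ℂ) * c = 1 := by
    rw [hc', ← Complex.ofReal_mul, mul_inv_cancel₀ hM0.ne', Complex.ofReal_one]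
  have hMe : ‖((M : ℝ) : ℂ)‖ₑ ^ p = ENNReal.ofReal (M ^ p) := by
    rw [← ofReal_norm, Complex.norm_real, Real.norm_eq_abs, abs_of_pos hM0,
      ENNReal.ofReal_rpow_of_pos hM0]
  have hcls : ∀ G, Clk U B G → ∀ x, ‖c * G (φ x) x‖ ≤ 1 := by
    intro G hG x
    rw [norm_mul, hMc]
    calc M⁻¹ * ‖G (φ x) x‖ ≤ M⁻¹ * M := by
          refine mul_le_mul_of_nonneg_left ?_ (inv_nonneg.2 hM0.le)
          exact (hG.norm_le _ _).trans (le_max_right _ _)
      _ = 1 := inv_mul_cancel₀ hM0.ne'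
  refine ⟨M ^ p * (|C'| + C0), η', hη', fun G hG l hl w hw => ?_⟩
  have hset : MeasurableSet (Hs φ l w) := by
    have : Hs φ l w = ⋂ j, {x : E n | w j (φ x) < inner ℝ (l j) x} := by
      ext x
      simp [Hs]
    rw [this]
    exact MeasurableSet.iInter fun j => measurableSet_lt ((hw j).comp hφ)
      (Measurable.inner measurable_const measurable_id)
  have hT : ∀ R : ℝ, 1 ≤ R → ∫⁻ ξ in {ξ : E n | R ≤ ‖ξ‖},
      ‖extn ((Hs φ l w).indicator fun x => c * G (φ x) x) ξ‖ₑ ^ p ≤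
        ENNReal.ofReal (|C'| * R ^ (-η')) := by
    intro R hR
    refine (H φ (fun f => ∃ G, Clk U B G ∧ f = fun x => c * G (φ x) x) hφ ?_ ?_ ?_ ?_
      (fun x => c * G (φ x) x) ⟨G, hG, rfl⟩ l hl w hw R hR).trans ?_
    · rintro f ⟨G, hG, rfl⟩
      exact measurable_const.mul (hG.measurable hφ)
    · rintro f ⟨G, hG, rfl⟩ x
      exact hcls G hG x
    · rintro f ⟨G, hG, rfl⟩ F hF hF1
      refine ⟨fun t x => F t * G t x, clk_mul hG hF fun t => (hF1 t).le, ?_⟩
      funext x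
      ring
    · rintro f ⟨G, hG, rfl⟩ R hR
      calc ∫⁻ ξ in {ξ : E n | R ≤ ‖ξ‖}, ‖extn (fun x => c * G (φ x) x) ξ‖ₑ ^ p
          ≤ ∫⁻ ξ in {ξ : E n | R ≤ ‖ξ‖}, ‖extn (fun x => G (φ x) x) ξ‖ₑ ^ p := by
            refine lintegral_mono fun ξ => ENNReal.rpow_le_rpow ?_ hp0.le
            rw [hsk_extn_mul, enorm_mul]
            have h1 : ‖c‖ₑ ≤ 1 := by
              rw [← ofReal_norm, hMc, ← ENNReal.ofReal_one]
              exact ENNReal.ofReal_le_ofReal (inv_le_one_of_one_le₀ hM1)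
            calc ‖c‖ₑ * ‖extn (fun x => G (φ x) x) ξ‖ₑ
                ≤ 1 * ‖extn (fun x => G (φ x) x) ξ‖ₑ := mul_le_mul_left h1 _
              _ = _ := one_mul _
        _ ≤ C * ENNReal.ofReal (R ^ (-η)) := h G hG R hR
        _ = ENNReal.ofReal (C.toReal * R ^ (-η)) := by
            rw [ENNReal.ofReal_mul ENNReal.toReal_nonneg, ENNReal.ofReal_toReal hC]
    · refine ENNReal.ofReal_le_ofReal ?_
      exact mul_le_mul_of_nonneg_right (le_abs_self _) (by positivity)
  have hsc : ∀ ξ, ‖extn ((Hs φ l w).indicator fun x => G (φ x) x) ξ‖ₑ ^ p =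
      ENNReal.ofReal (M ^ p) *
        ‖extn ((Hs φ l w).indicator fun x => c * G (φ x) x) ξ‖ₑ ^ p := by
    intro ξ
    have h1 : ((Hs φ l w).indicator fun x => G (φ x) x) = fun x =>
        ((M : ℝ) : ℂ) * ((Hs φ l w).indicator fun x => c * G (φ x) x) x := by
      funext x
      by_cases hx : x ∈ Hs φ l w
      · rw [indicator_of_mem hx, indicator_of_mem hx, ← mul_assoc, hMcc, one_mul]
      · rw [indicator_of_notMem hx, indicator_of_notMem hx, mul_zero]
    rw [h1, hsk_extn_mul, enorm_mul, ENNReal.mul_rpow_of_nonneg _ _ hp0.le, hMe]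
  have hMp : 0 ≤ M ^ p := by positivity
  constructor
  · intro R hR
    simp_rw [hsc]
    rw [lintegral_const_mul' _ _ ENNReal.ofReal_ne_top]
    refine (mul_le_mul_right (hT R hR) _).trans ?_
    rw [← ENNReal.ofReal_mul hMp]
    refine ENNReal.ofReal_le_ofReal ?_
    rw [← mul_assoc]
    refine mul_le_mul_of_nonneg_right ?_ (by positivity)
    exact mul_le_mul_of_nonneg_left (by linarith) hMp
  · simp_rw [hsc]
    rw [lintegral_const_mul' _ _ ENNReal.ofReal_ne_top]
    have h2 := (H0 ((Hs φ l w).indicator fun x => c * G (φ x) x) (fun x =>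
      (norm_indicator_le_norm_self _ _).trans (hcls G hG x)) hT).2
    refine (mul_le_mul_right h2 _).trans ?_
    rw [← ENNReal.ofReal_mul hMp]
    exact ENNReal.ofReal_le_ofReal (mul_le_mul_of_nonneg_left (by linarith [abs_nonneg C']) hMp)

/-- **Superpositions of densities cut by half-spaces**, with a neighbourhood of the compact set. -/
theorem hsk_mixU {n k : ℕ} (hn : 3 ≤ n) {Hyp : (E n → E k) → E n → Prop} (H : LeafAtT n k Hyp)
    (φ : E n → E k) {K : Set (E n)} (hK : IsCompact K)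
    (hc : ∀ x ∈ K, ‖x‖ = 1 ∧ (∀ᶠ y in 𝓝 x, ContDiffAt ℝ ∞ φ y) ∧ Hyp φ x) :
    ∃ U : Set (E n), IsOpen U ∧ K ⊆ U ∧ ∀ p : ℝ, 2 * (n : ℝ) / (n - 1) < p →
    ∀ (B : ℕ → ℝ) (J : ℕ), ∃ C : ℝ≥0∞, C ≠ ⊤ ∧
      ∀ (W : Type) [MeasurableSpace W] (ν : Measure W) [IsFiniteMeasure ν]
      (R : W → (E n ≃ₗᵢ[ℝ] E n)) (η : W → E n) (G : W → E k → E n → ℂ)
      (l : W → Fin J → E n) (w : W → Fin J → E k → ℝ),
      (Measurable fun q : W × E n => R q.1 q.2) → Measurable η →
      (Measurable fun q : W × E k × E n => G q.1 q.2.1 q.2.2) → (∀ a, Clk U B (G a)) →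
      (∀ j, Measurable fun a => l a j) → (∀ a j, ‖l a j‖ = 1) →
      (∀ j, Measurable fun q : W × E k => w q.1 j q.2) →
      ∫⁻ ξ, ‖extn (mix ν R η (fun a => (Hs φ (l a) (w a)).indicator fun x => G a (φ x) x)) ξ‖ₑ ^ p
        ≤ C * ν univ ^ p := by
  classical
  obtain ⟨U, hUo, hKU, hU⟩ := gluet hn H φ hK hc
  set V : Set (E n) := {x | ∀ᶠ y in 𝓝 x, ContDiffAt ℝ ∞ φ y} with hV
  have hVo : IsOpen V := isOpen_setOfPred_eventually_nhds
  have hcont : ContinuousOn φ V := fun x hx =>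
    (hx.self_of_nhds : ContDiffAt ℝ ∞ φ x).continuousAt.continuousWithinAt
  have hKV : ∀ x ∈ K, x ∈ V := fun x hx => (hc x hx).2.1
  refine ⟨U ∩ V, hUo.inter hVo, fun x hx => ⟨hKU hx, hKV x hx⟩, fun p hp B J => ?_⟩
  have hp1 : 1 < p := by
    have hn3 : (3 : ℝ) ≤ n := by exact_mod_cast hn
    refine lt_of_le_of_lt ?_ hp
    rw [le_div_iff₀ (by linarith)]
    linarith
  set ψ : E n → E k := V.piecewise φ (fun _ => 0) with hψ
  have hψm : Measurable ψ := hcont.measurable_piecewise continuousOn_const hVo.measurableSet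
  have hψV : ∀ x ∈ V, φ x = ψ x := fun x hx => (piecewise_eq_of_mem _ _ _ hx).symm
  have hR0 : RBt ψ p (U ∩ V) := rbt_congr hψV inter_subset_right ((hU p hp).mono inter_subset_left)
  obtain ⟨C, _, _, hC⟩ := hsk hψm hp1 hR0 J B
  have hψe : ∀ (G : E k → E n → ℂ), Clk (U ∩ V) B G → ∀ (l : Fin J → E n)
      (w : Fin J → E k → ℝ), ∀ x, ‖x‖ = 1 → (Hs ψ l w).indicator (fun x => G (ψ x) x) x =
        (Hs φ l w).indicator (fun x => G (φ x) x) x := by
    intro G hG l w x hx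
    by_cases hxV : x ∈ V
    · have h1 : x ∈ Hs ψ l w ↔ x ∈ Hs φ l w := by
        unfold Hs
        rw [mem_ofPred_eq, mem_ofPred_eq, hψV x hxV]
      by_cases h2 : x ∈ Hs φ l w
      · rw [indicator_of_mem h2, indicator_of_mem (h1.2 h2), hψV x hxV]
      · rw [indicator_of_notMem h2, indicator_of_notMem fun h => h2 (h1.1 h)]
    · have h0 : ∀ t, G t x = 0 := fun t => hG.2.2.2 t x hx fun h => hxV h.2
      have h3 : ∀ (S : Set (E n)) (θ : E n → E k), S.indicator (fun x => G (θ x) x) x = 0 := by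
        intro S θ
        by_cases h2 : x ∈ S
        · rw [indicator_of_mem h2, h0]
        · rw [indicator_of_notMem h2]
      rw [h3, h3]
  refine ⟨ENNReal.ofReal C, ENNReal.ofReal_ne_top,
    fun W _ ν _ R η G l w hR hη hG hcl hl hl1 hw => ?_⟩
  have hhm : Measurable (Function.uncurry fun a x =>
      (Hs ψ (l a) (w a)).indicator (fun x => G a (ψ x) x) x) := by
    have h1 : Measurable fun q : W × E n => G q.1 (ψ q.2) q.2 :=
      hG.comp (f := fun q : W × E n => (q.1, ψ q.2, q.2))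
        (measurable_fst.prodMk ((hψm.comp measurable_snd).prodMk measurable_snd))
    have h2 : MeasurableSet {q : W × E n | ∀ j, w q.1 j (ψ q.2) < inner ℝ (l q.1 j) q.2} := by
      have h3 : {q : W × E n | ∀ j, w q.1 j (ψ q.2) < inner ℝ (l q.1 j) q.2} =
          ⋂ j, {q : W × E n | w q.1 j (ψ q.2) < inner ℝ (l q.1 j) q.2} := by
        ext q
        simp
      rw [h3]
      refine MeasurableSet.iInter fun j => measurableSet_lt ?_ ?_
      · exact (hw j).comp (f := fun q : W × E n => (q.1, ψ q.2))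
          (measurable_fst.prodMk (hψm.comp measurable_snd))
      · exact ((hl j).comp measurable_fst).inner measurable_snd
    exact h1.indicator h2
  have h3 := mix_le hp1.le (C := ENNReal.ofReal C) (M := max 1 (B 0)) (by positivity)
    (fun g => ∃ G : E k → E n → ℂ, Clk (U ∩ V) B G ∧ ∃ l : Fin J → E n, (∀ j, ‖l j‖ = 1) ∧
      ∃ w : Fin J → E k → ℝ, (∀ j, Measurable (w j)) ∧
        g = (Hs ψ l w).indicator fun x => G (ψ x) x)
    (fun g _ _ ⟨G, hG, l, hl, w, hw, hg⟩ => by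
      rw [hg]
      exact (hC G hG l hl w hw).2)
    ν R η (fun a x => (Hs ψ (l a) (w a)).indicator (fun x => G a (ψ x) x) x) hR hη hhm
    (fun a x => (norm_indicator_le_norm_self _ _).trans
      (((hcl a).norm_le _ _).trans (le_max_right _ _)))
    (fun a => ⟨G a, hcl a, l a, hl1 a, w a, fun j =>
      (hw j).comp (f := fun t : E k => (a, t)) measurable_prodMk_left, rfl⟩)
  refine le_trans (le_of_eq ?_) h3
  refine lintegral_congr fun ξ => ?_
  rw [lf_extn_congr (g := mix ν R η fun a x =>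
    (Hs ψ (l a) (w a)).indicator (fun x => G a (ψ x) x) x) fun x hx => ?_]
  unfold mix
  refine integral_congr_ae (Filter.Eventually.of_forall fun a => ?_)
  simp only
  rw [hψe (G a) (hcl a) (l a) (w a) (R a x) (by rw [LinearIsometryEquiv.norm_map, hx])]

end Pool.Agent.LFK
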