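import Pool.Agent.LFK.ASM
import Pool.Agent.LFK.HSK

/-!
The result for `k` rough directions, with half-spaces.
-/

set_option autoImplicit false

namespace Pool.Agent.LFK

open MeasureTheory Set Filter Topology Pool.Agent.MP_6cbfb8_an
open scoped ENNReal Real RealInnerProductSpace ContDiff

/-- The statement at a point, with a gain at infinity. -/
theorem leafAtT_gen {n k : ℕ} (hk : 1 ≤ k) (hkn : k + 2 ≤ n) : LeafAtT n k Gen := by
  intro φ x0 hx0 hφ hg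
  obtain ⟨m, hm⟩ : ∃ m, n = k + m + 1 := ⟨n - k - 1, by omega⟩
  obtain ⟨U, hU, hxU, H⟩ := leaf_tail hk (by omega : 1 ≤ m) hm.symm φ x0 hx0 hφ hg
  refine ⟨U, hU, hxU, fun p hp => ?_⟩
  obtain ⟨η, hη, H⟩ := H p hp
  refine ⟨η, hη, fun B => ?_⟩
  obtain ⟨C, D, H⟩ := H B
  refine ⟨ENNReal.ofReal |C|, ENNReal.ofReal_ne_top, fun G hG S hS => ?_⟩
  refine ((H G hG).2 S hS).trans ?_
  rw [← ENNReal.ofReal_mul (abs_nonneg _)]
  exact ENNReal.ofReal_le_ofReal (mul_le_mul_of_nonneg_right (le_abs_self C) (by positivity))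

/-- **Superpositions** of densities which are only measurable in `k` directions and cut by
half-spaces. -/
theorem resH {n k : ℕ} (hk : 1 ≤ k) (hkn : k + 2 ≤ n) (φ : E n → E k) {K : Set (E n)}
    (hK : IsCompact K)
    (hc : ∀ x ∈ K, ‖x‖ = 1 ∧ (∀ᶠ y in 𝓝 x, ContDiffAt ℝ ∞ φ y) ∧ Gen φ x) :
    ∃ U : Set (E n), IsOpen U ∧ K ⊆ U ∧ ∀ p : ℝ, 2 * (n : ℝ) / (n - 1) < p →
    ∀ (B : ℕ → ℝ) (J : ℕ), ∃ C : ℝ≥0∞, C ≠ ⊤ ∧
      ∀ (W : Type) [MeasurableSpace W] (ν : Measure W) [IsFiniteMeasure ν]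
      (R : W → (E n ≃ₗᵢ[ℝ] E n)) (η : W → E n) (G : W → E k → E n → ℂ)
      (l : W → Fin J → E n) (w : W → Fin J → E k → ℝ),
      (Measurable fun q : W × E n => R q.1 q.2) → Measurable η →
      (Measurable fun q : W × E k × E n => G q.1 q.2.1 q.2.2) → (∀ a, Clk U B (G a)) →
      (∀ j, Measurable fun a => l a j) → (∀ a j, ‖l a j‖ = 1) →
      (∀ j, Measurable fun q : W × E k => w q.1 j q.2) →
      ∫⁻ ξ, ‖extn (mix ν R η (fun a => (Hs φ (l a) (w a)).indicator fun x => G a (φ x) x)) ξ‖ₑ ^ p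
        ≤ C * ν univ ^ p :=
  hsk_mixU (by omega) (leafAtT_gen hk hkn) φ hK hc

end Pool.Agent.LFK
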