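import Pool.Agent.LFK.HSK
import Pool.Agent.HSL.V

/-!
Densities which are rough in `k` directions, multiplied by finitely many factors which are monotone
in a linear function of `x` and only measurable in the rough variables.
-/

set_option autoImplicit false

namespace Pool.Agent.LFK

open MeasureTheory Set Pool.Agent.MP_6cbfb8_an Pool.Agent.LF
open scoped ENNReal Real RealInnerProductSpace ContDiff Topology

/-- A measurable family of monotone functions with values in `[0, 1]`. -/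
structure Mf {T : Type*} [MeasurableSpace T] (V : T → ℝ → ℝ) : Prop where
  m : Measurable (Function.uncurry V)
  z : ∀ t s, 0 ≤ V t s
  o : ∀ t s, V t s ≤ 1
  u : ∀ t, Monotone (V t)

/-- The product of the factors. -/
noncomputable def Pf {n J : ℕ} {T : Type*} (Φ : E n → T) (l : Fin J → E n)
    (V : Fin J → T → ℝ → ℝ) (x : E n) : ℝ :=
  ∏ j, V j (Φ x) (inner ℝ (l j) x)

theorem pf_nonneg {n J : ℕ} {T : Type*} [MeasurableSpace T] (Φ : E n → T) (l : Fin J → E n)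
    {V : Fin J → T → ℝ → ℝ} (hV : ∀ j, Mf (V j)) (x : E n) : 0 ≤ Pf Φ l V x :=
  Finset.prod_nonneg fun j _ => (hV j).z _ _

theorem pf_le {n J : ℕ} {T : Type*} [MeasurableSpace T] (Φ : E n → T) (l : Fin J → E n)
    {V : Fin J → T → ℝ → ℝ} (hV : ∀ j, Mf (V j)) (x : E n) : Pf Φ l V x ≤ 1 :=
  Finset.prod_le_one (fun j _ => (hV j).z _ _) fun j _ => (hV j).o _ _

theorem pf_norm {n J : ℕ} {T : Type*} [MeasurableSpace T] (Φ : E n → T) (l : Fin J → E n)
    {V : Fin J → T → ℝ → ℝ} (hV : ∀ j, Mf (V j)) (x : E n) : ‖(Pf Φ l V x : ℂ)‖ ≤ 1 := by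
  rw [Complex.norm_real, Real.norm_eq_abs, abs_of_nonneg (pf_nonneg Φ l hV x)]
  exact pf_le Φ l hV x

theorem pf_meas {n J : ℕ} {T : Type*} [MeasurableSpace T] {Φ : E n → T} (hΦ : Measurable Φ)
    (l : Fin J → E n) {V : Fin J → T → ℝ → ℝ} (hV : ∀ j, Mf (V j)) :
    Measurable (Pf Φ l V) :=
  Finset.measurable_prod _ fun j _ => (hV j).m.comp (f := fun x : E n => (Φ x, inner ℝ (l j) x))
    (hΦ.prodMk (Measurable.inner measurable_const measurable_id))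

/-- **Finitely many monotone factors.** -/
theorem monofacs (n J : ℕ) {p η C : ℝ} (hp : 1 < p) (hη : 0 < η) :
    ∃ C' η' : ℝ, 0 < η' ∧ ∀ {T : Type*} [MeasurableSpace T] (Φ : E n → T)
      (Cl : (E n → ℂ) → Prop), HSL.Tl Φ p η C Cl → ∀ f, Cl f → ∀ l : Fin J → E n,
      (∀ j, ‖l j‖ = 1) → ∀ V : Fin J → T → ℝ → ℝ, (∀ j, Mf (V j)) → ∀ R : ℝ, 1 ≤ R →
      ∫⁻ ξ in {ξ : E n | R ≤ ‖ξ‖}, ‖extn (fun x => f x * (Pf Φ l V x : ℂ)) ξ‖ₑ ^ p ≤
        ENNReal.ofReal (C' * R ^ (-η')) := by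
  induction J with
  | zero =>
    refine ⟨C, η, hη, fun {T} _ Φ Cl hT f hf l hl V hV R hR => ?_⟩
    have : (fun x => f x * (Pf Φ l V x : ℂ)) = f := by
      funext x
      simp [Pf]
    rw [this]
    exact hT.t f hf R hR
  | succ J ih =>
    obtain ⟨C1, η1, hη1, h1⟩ := ih
    obtain ⟨C2, η2, hη2, h2⟩ := HSL.monofac n (C := C1) hp hη1
    refine ⟨C2, η2, hη2, fun {T} _ Φ Cl hT f hf l hl V hV R hR => ?_⟩
    have h3 := h2 Φ (fun g => ∃ f, Cl f ∧ ∃ l : Fin J → E n, (∀ j, ‖l j‖ = 1) ∧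
      ∃ V : Fin J → T → ℝ → ℝ, (∀ j, Mf (V j)) ∧ g = fun x => f x * (Pf Φ l V x : ℂ)) ?_
      (fun x => f x * (Pf Φ (fun j => l j.succ) (fun j => V j.succ) x : ℂ))
      ⟨f, hf, fun j => l j.succ, fun j => hl _, fun j => V j.succ, fun j => hV _, rfl⟩
      (l 0) (hl 0) (V 0) (hV 0).m (hV 0).z (hV 0).o (hV 0).u R hR
    · have h4 : (fun x => f x * (Pf Φ l V x : ℂ)) = fun x =>
          f x * (Pf Φ (fun j => l j.succ) (fun j => V j.succ) x : ℂ) *
            (V 0 (Φ x) (inner ℝ (l 0) x) : ℂ) := by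
        funext x
        unfold Pf
        rw [Fin.prod_univ_succ]
        push_cast
        ring
      rw [h4]
      exact h3
    · refine ⟨hT.mΦ, ?_, ?_, ?_, ?_⟩
      · rintro g ⟨f, hf, l, hl, V, hV, rfl⟩
        exact (hT.m f hf).mul (Complex.measurable_ofReal.comp (pf_meas hT.mΦ l hV))
      · rintro g ⟨f, hf, l, hl, V, hV, rfl⟩ x
        rw [norm_mul]
        exact mul_le_one₀ (hT.b f hf x) (norm_nonneg _) (pf_norm Φ l hV x)
      · rintro g ⟨f, hf, l, hl, V, hV, rfl⟩ F hF hF1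
        refine ⟨fun x => f x * F (Φ x), hT.s f hf F hF hF1, l, hl, V, hV, ?_⟩
        funext x
        ring
      · rintro g ⟨f, hf, l, hl, V, hV, rfl⟩ R hR
        exact h1 Φ Cl hT f hf l hl V hV R hR

/-- **Monotone factors**: tails and the whole space. -/
theorem hsv {n k : ℕ} {φ : E n → E k} (hφ : Measurable φ) {U : Set (E n)} {p : ℝ} (hp : 1 < p)
    (h : RBt φ p U) (J : ℕ) (B : ℕ → ℝ) :
    ∃ C η : ℝ, 0 < η ∧ ∀ G, Clk U B G → ∀ l : Fin J → E n, (∀ j, ‖l j‖ = 1) →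
      ∀ V : Fin J → E k → ℝ → ℝ, (∀ j, Mf (V j)) →
      (∀ R : ℝ, 1 ≤ R → ∫⁻ ξ in {ξ : E n | R ≤ ‖ξ‖},
        ‖extn (fun x => G (φ x) x * (Pf φ l V x : ℂ)) ξ‖ₑ ^ p ≤
          ENNReal.ofReal (C * R ^ (-η))) ∧
      ∫⁻ ξ, ‖extn (fun x => G (φ x) x * (Pf φ l V x : ℂ)) ξ‖ₑ ^ p ≤ ENNReal.ofReal C := by
  obtain ⟨η, hη, h⟩ := h
  obtain ⟨C, hC, h⟩ := h B
  have hp0 : 0 < p := by linarith
  obtain ⟨C', η', hη', H⟩ := monofacs n J (C := C.toReal) hp hη
  obtain ⟨C0, hC0, H0⟩ := HSL.tail_all n (C := |C'|) hp0 hη' (abs_nonneg _)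
  set M : ℝ := max 1 (B 0) with hM
  have hM1 : 1 ≤ M := le_max_left _ _
  have hM0 : 0 < M := by linarith
  set c : ℂ := ((M⁻¹ : ℝ) : ℂ) with hc'
  have hMc : ‖c‖ = M⁻¹ := by
    rw [hc', Complex.norm_real, Real.norm_eq_abs, abs_of_pos (inv_pos.2 hM0)]
  have hMcc : ((M : ℝ) : ℂ) * c = 1 := by
    rw [hc', ← Complex.ofReal_mul, mul_inv_cancel₀ hM0.ne', Complex.ofReal_one]
  have hMe : ‖((M : ℝ) : ℂ)‖ₑ ^ p = ENNReal.ofReal (M ^ p) := by
    rw [← ofReal_norm, Complex.norm_real, Real.norm_eq_abs, abs_of_pos hM0,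
      ENNReal.ofReal_rpow_of_pos hM0]
  have hcls : ∀ G, Clk U B G → ∀ x, ‖c * G (φ x) x‖ ≤ 1 := by
    intro G hG x
    rw [norm_mul, hMc]
    calc M⁻¹ * ‖G (φ x) x‖ ≤ M⁻¹ * M := by
          refine mul_le_mul_of_nonneg_left ?_ (inv_nonneg.2 hM0.le)
          exact (hG.norm_le _ _).trans (le_max_right _ _)
      _ = 1 := inv_mul_cancel₀ hM0.ne'
  have hTl : HSL.Tl φ p η C.toReal (fun f => ∃ G, Clk U B G ∧ f = fun x => c * G (φ x) x) := by
    refine ⟨hφ, ?_, ?_, ?_, ?_⟩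
    · rintro f ⟨G, hG, rfl⟩
      exact measurable_const.mul (hG.measurable hφ)
    · rintro f ⟨G, hG, rfl⟩ x
      exact hcls G hG x
    · rintro f ⟨G, hG, rfl⟩ F hF hF1
      refine ⟨fun t x => F t * G t x, clk_mul hG hF fun t => (hF1 t).le, ?_⟩
      funext x
      ring
    · rintro f ⟨G, hG, rfl⟩ R hR
      calc ∫⁻ ξ in {ξ : E n | R ≤ ‖ξ‖}, ‖extn (fun x => c * G (φ x) x) ξ‖ₑ ^ p
          ≤ ∫⁻ ξ in {ξ : E n | R ≤ ‖ξ‖}, ‖extn (fun x => G (φ x) x) ξ‖ₑ ^ p := by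
            refine lintegral_mono fun ξ => ENNReal.rpow_le_rpow ?_ hp0.le
            rw [hsk_extn_mul, enorm_mul]
            have h1 : ‖c‖ₑ ≤ 1 := by
              rw [← ofReal_norm, hMc, ← ENNReal.ofReal_one]
              exact ENNReal.ofReal_le_ofReal (inv_le_one_of_one_le₀ hM1)
            calc ‖c‖ₑ * ‖extn (fun x => G (φ x) x) ξ‖ₑ
                ≤ 1 * ‖extn (fun x => G (φ x) x) ξ‖ₑ := mul_le_mul_left h1 _
              _ = _ := one_mul _
        _ ≤ C * ENNReal.ofReal (R ^ (-η)) := h G hG R hR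
        _ = ENNReal.ofReal (C.toReal * R ^ (-η)) := by
            rw [ENNReal.ofReal_mul ENNReal.toReal_nonneg, ENNReal.ofReal_toReal hC]
  refine ⟨M ^ p * (|C'| + C0), η', hη', fun G hG l hl V hV => ?_⟩
  have hT : ∀ R : ℝ, 1 ≤ R → ∫⁻ ξ in {ξ : E n | R ≤ ‖ξ‖},
      ‖extn (fun x => c * G (φ x) x * (Pf φ l V x : ℂ)) ξ‖ₑ ^ p ≤
        ENNReal.ofReal (|C'| * R ^ (-η')) := by
    intro R hR
    refine (H φ _ hTl (fun x => c * G (φ x) x) ⟨G, hG, rfl⟩ l hl V hV R hR).trans ?_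
    refine ENNReal.ofReal_le_ofReal ?_
    exact mul_le_mul_of_nonneg_right (le_abs_self _) (by positivity)
  have hsc : ∀ ξ, ‖extn (fun x => G (φ x) x * (Pf φ l V x : ℂ)) ξ‖ₑ ^ p =
      ENNReal.ofReal (M ^ p) *
        ‖extn (fun x => c * G (φ x) x * (Pf φ l V x : ℂ)) ξ‖ₑ ^ p := by
    intro ξ
    have h1 : (fun x => G (φ x) x * (Pf φ l V x : ℂ)) = fun x =>
        ((M : ℝ) : ℂ) * (c * G (φ x) x * (Pf φ l V x : ℂ)) := by
      funext x
      rw [mul_assoc c, ← mul_assoc, hMcc, one_mul]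
    rw [h1, hsk_extn_mul, enorm_mul, ENNReal.mul_rpow_of_nonneg _ _ hp0.le, hMe]
  have hMp : 0 ≤ M ^ p := by positivity
  constructor
  · intro R hR
    simp_rw [hsc]
    rw [lintegral_const_mul' _ _ ENNReal.ofReal_ne_top]
    refine (mul_le_mul_right (hT R hR) _).trans ?_
    rw [← ENNReal.ofReal_mul hMp]
    refine ENNReal.ofReal_le_ofReal ?_
    rw [← mul_assoc]
    refine mul_le_mul_of_nonneg_right ?_ (by positivity)
    exact mul_le_mul_of_nonneg_left (by linarith) hMp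
  · simp_rw [hsc]
    rw [lintegral_const_mul' _ _ ENNReal.ofReal_ne_top]
    have h2 := (H0 (fun x => c * G (φ x) x * (Pf φ l V x : ℂ)) (fun x => by
      rw [norm_mul]
      exact mul_le_one₀ (hcls G hG x) (norm_nonneg _) (pf_norm φ l hV x)) hT).2
    refine (mul_le_mul_right h2 _).trans ?_
    rw [← ENNReal.ofReal_mul hMp]
    exact ENNReal.ofReal_le_ofReal (mul_le_mul_of_nonneg_left (by linarith [abs_nonneg C']) hMp)

/-- **Superpositions of densities with monotone factors**, with a neighbourhood of the compact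
set. -/
theorem hsv_mixU {n k : ℕ} (hn : 3 ≤ n) {Hyp : (E n → E k) → E n → Prop} (H : LeafAtT n k Hyp)
    (φ : E n → E k) {K : Set (E n)} (hK : IsCompact K)
    (hc : ∀ x ∈ K, ‖x‖ = 1 ∧ (∀ᶠ y in 𝓝 x, ContDiffAt ℝ ∞ φ y) ∧ Hyp φ x) :
    ∃ U : Set (E n), IsOpen U ∧ K ⊆ U ∧ ∀ p : ℝ, 2 * (n : ℝ) / (n - 1) < p →
    ∀ (B : ℕ → ℝ) (J : ℕ), ∃ C : ℝ≥0∞, C ≠ ⊤ ∧
      ∀ (W : Type) [MeasurableSpace W] (ν : Measure W) [IsFiniteMeasure ν]
      (R : W → (E n ≃ₗᵢ[ℝ] E n)) (η : W → E n) (G : W → E k → E n → ℂ)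
      (l : W → Fin J → E n) (V : W → Fin J → E k → ℝ → ℝ),
      (Measurable fun q : W × E n => R q.1 q.2) → Measurable η →
      (Measurable fun q : W × E k × E n => G q.1 q.2.1 q.2.2) → (∀ a, Clk U B (G a)) →
      (∀ j, Measurable fun a => l a j) → (∀ a j, ‖l a j‖ = 1) →
      (∀ j, Measurable fun q : W × E k × ℝ => V q.1 j q.2.1 q.2.2) →
      (∀ a j t s, 0 ≤ V a j t s) → (∀ a j t s, V a j t s ≤ 1) →
      (∀ a j t, Monotone (V a j t)) →
      ∫⁻ ξ, ‖extn (mix ν R η (fun a x => G a (φ x) x *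
        ((∏ j, V a j (φ x) (inner ℝ (l a j) x) : ℝ) : ℂ))) ξ‖ₑ ^ p ≤ C * ν univ ^ p := by
  classical
  obtain ⟨U, hUo, hKU, hU⟩ := gluet hn H φ hK hc
  set O : Set (E n) := {x | ∀ᶠ y in 𝓝 x, ContDiffAt ℝ ∞ φ y} with hO
  have hOo : IsOpen O := isOpen_setOfPred_eventually_nhds
  have hcont : ContinuousOn φ O := fun x hx =>
    (hx.self_of_nhds : ContDiffAt ℝ ∞ φ x).continuousAt.continuousWithinAt
  have hKO : ∀ x ∈ K, x ∈ O := fun x hx => (hc x hx).2.1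
  refine ⟨U ∩ O, hUo.inter hOo, fun x hx => ⟨hKU hx, hKO x hx⟩, fun p hp B J => ?_⟩
  have hp1 : 1 < p := by
    have hn3 : (3 : ℝ) ≤ n := by exact_mod_cast hn
    refine lt_of_le_of_lt ?_ hp
    rw [le_div_iff₀ (by linarith)]
    linarith
  set ψ : E n → E k := O.piecewise φ (fun _ => 0) with hψ
  have hψm : Measurable ψ := hcont.measurable_piecewise continuousOn_const hOo.measurableSet
  have hψO : ∀ x ∈ O, φ x = ψ x := fun x hx => (piecewise_eq_of_mem _ _ _ hx).symm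
  have hR0 : RBt ψ p (U ∩ O) := rbt_congr hψO inter_subset_right ((hU p hp).mono inter_subset_left)
  obtain ⟨C, _, _, hC⟩ := hsv hψm hp1 hR0 J B
  have hψe : ∀ (G : E k → E n → ℂ), Clk (U ∩ O) B G → ∀ (l : Fin J → E n)
      (V : Fin J → E k → ℝ → ℝ), ∀ x, ‖x‖ = 1 → G (ψ x) x * (Pf ψ l V x : ℂ) =
        G (φ x) x * ((∏ j, V j (φ x) (inner ℝ (l j) x) : ℝ) : ℂ) := by
    intro G hG l V x hx
    by_cases hxO : x ∈ O
    · unfold Pf
      rw [hψO x hxO]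
    · have h0 : ∀ t, G t x = 0 := fun t => hG.2.2.2 t x hx fun h => hxO h.2
      rw [h0, h0, zero_mul, zero_mul]
  refine ⟨ENNReal.ofReal C, ENNReal.ofReal_ne_top,
    fun W _ ν _ R η G l V hR hη hG hcl hl hl1 hV hV0 hV1 hVm => ?_⟩
  have hMf : ∀ a j, Mf (V a j) := fun a j => ⟨(hV j).comp (f := fun q : E k × ℝ => (a, q))
    measurable_prodMk_left, hV0 a j, hV1 a j, hVm a j⟩
  have hhm : Measurable (Function.uncurry fun a x =>
      G a (ψ x) x * (Pf ψ (l a) (V a) x : ℂ)) := by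
    have h1 : Measurable fun q : W × E n => G q.1 (ψ q.2) q.2 :=
      hG.comp (f := fun q : W × E n => (q.1, ψ q.2, q.2))
        (measurable_fst.prodMk ((hψm.comp measurable_snd).prodMk measurable_snd))
    have h2 : Measurable fun q : W × E n => Pf ψ (l q.1) (V q.1) q.2 := by
      refine Finset.measurable_prod _ fun j _ => ?_
      exact (hV j).comp (f := fun q : W × E n => (q.1, ψ q.2, inner ℝ (l q.1 j) q.2))
        (measurable_fst.prodMk ((hψm.comp measurable_snd).prodMk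
          (((hl j).comp measurable_fst).inner measurable_snd)))
    exact h1.mul (Complex.measurable_ofReal.comp h2)
  have h3 := mix_le hp1.le (C := ENNReal.ofReal C) (M := max 1 (B 0)) (by positivity)
    (fun g => ∃ G : E k → E n → ℂ, Clk (U ∩ O) B G ∧ ∃ l : Fin J → E n, (∀ j, ‖l j‖ = 1) ∧
      ∃ V : Fin J → E k → ℝ → ℝ, (∀ j, Mf (V j)) ∧
        g = fun x => G (ψ x) x * (Pf ψ l V x : ℂ))
    (fun g _ _ ⟨G, hG, l, hl, V, hV, hg⟩ => by
      rw [hg]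
      exact (hC G hG l hl V hV).2)
    ν R η (fun a x => G a (ψ x) x * (Pf ψ (l a) (V a) x : ℂ)) hR hη hhm
    (fun a x => by
      rw [norm_mul]
      calc ‖G a (ψ x) x‖ * ‖(Pf ψ (l a) (V a) x : ℂ)‖ ≤ ‖G a (ψ x) x‖ * 1 :=
            mul_le_mul_of_nonneg_left (pf_norm ψ (l a) (hMf a) x) (norm_nonneg _)
        _ ≤ max 1 (B 0) := by
            rw [mul_one]
            exact ((hcl a).norm_le _ _).trans (le_max_right _ _))
    (fun a => ⟨G a, hcl a, l a, hl1 a, V a, hMf a, rfl⟩)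
  refine le_trans (le_of_eq ?_) h3
  refine lintegral_congr fun ξ => ?_
  rw [lf_extn_congr (g := mix ν R η fun a x => G a (ψ x) x * (Pf ψ (l a) (V a) x : ℂ))
    fun x hx => ?_]
  unfold mix
  refine integral_congr_ae (Filter.Eventually.of_forall fun a => ?_)
  simp only
  rw [hψe (G a) (hcl a) (l a) (V a) (R a x) (by rw [LinearIsometryEquiv.norm_map, hx])]

end Pool.Agent.LFK
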