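import Pool.Agent.LFK.HSKR
import Pool.Agent.LFK.HSV

/-!
The result for `k` rough directions, with monotone factors.
-/

set_option autoImplicit false

namespace Pool.Agent.LFK

open MeasureTheory Set Filter Topology Pool.Agent.MP_6cbfb8_an
open scoped ENNReal Real RealInnerProductSpace ContDiff

/-- **Superpositions** of densities which are only measurable in `k` directions, multiplied by
factors monotone in a linear function of `x`. -/
theorem resV {n k : ℕ} (hk : 1 ≤ k) (hkn : k + 2 ≤ n) (φ : E n → E k) {K : Set (E n)}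
    (hK : IsCompact K)
    (hc : ∀ x ∈ K, ‖x‖ = 1 ∧ (∀ᶠ y in 𝓝 x, ContDiffAt ℝ ∞ φ y) ∧ Gen φ x) :
    ∃ U : Set (E n), IsOpen U ∧ K ⊆ U ∧ ∀ p : ℝ, 2 * (n : ℝ) / (n - 1) < p →
    ∀ (B : ℕ → ℝ) (J : ℕ), ∃ C : ℝ≥0∞, C ≠ ⊤ ∧
      ∀ (W : Type) [MeasurableSpace W] (ν : Measure W) [IsFiniteMeasure ν]
      (R : W → (E n ≃ₗᵢ[ℝ] E n)) (η : W → E n) (G : W → E k → E n → ℂ)
      (l : W → Fin J → E n) (V : W → Fin J → E k → ℝ → ℝ),
      (Measurable fun q : W × E n => R q.1 q.2) → Measurable η →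
      (Measurable fun q : W × E k × E n => G q.1 q.2.1 q.2.2) → (∀ a, Clk U B (G a)) →
      (∀ j, Measurable fun a => l a j) → (∀ a j, ‖l a j‖ = 1) →
      (∀ j, Measurable fun q : W × E k × ℝ => V q.1 j q.2.1 q.2.2) →
      (∀ a j t s, 0 ≤ V a j t s) → (∀ a j t s, V a j t s ≤ 1) →
      (∀ a j t, Monotone (V a j t)) →
      ∫⁻ ξ, ‖extn (mix ν R η (fun a x => G a (φ x) x *
        ((∏ j, V a j (φ x) (inner ℝ (l a j) x) : ℝ) : ℂ))) ξ‖ₑ ^ p ≤ C * ν univ ^ p :=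
  hsv_mixU (by omega) (leafAtT_gen hk hkn) φ hK hc

end Pool.Agent.LFK
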