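import Pool.Agent.LFK.SUBM
import Pool.Agent.GNP.P0

/-!
The double gradient map in `k + m` variables: derivative, variation, change of variables.
-/

set_option autoImplicit false
set_option maxSynthPendingDepth 3

namespace Pool.Agent.LFK

open MeasureTheory Set Module Pool.Agent.MP_6cbfb8_an Pool.Agent.GNP Pool.Agent.GNP.LF
open scoped ENNReal NNReal RealInnerProductSpace ContDiff

section dq

variable {P F : Type*} [NormedAddCommGroup P] [NormedSpace ℝ P] [NormedAddCommGroup F]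
  [NormedSpace ℝ F]

theorem dq_sub {f : P → F} {f' : P → P →L[ℝ] F} {A : ℝ} (hf : ∀ p, HasFDerivAt f (f' p) p)
    (h1 : ∀ p, ‖f' p‖ ≤ A) (p q : P) : ‖f p - f q‖ ≤ A * ‖p - q‖ :=
  convex_univ.norm_image_sub_le_of_norm_hasFDerivWithin_le (𝕜 := ℝ) (f := f) (f' := f') (C := A)
    (fun z _ => (hf z).hasFDerivWithinAt) (fun z _ => h1 z) (mem_univ q) (mem_univ p)

/-- The difference quotients are Lipschitz. -/
theorem dq_lip {f : P → F} {f' : P → P →L[ℝ] F} {A : ℝ} (hA : 0 ≤ A)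
    (hf : ∀ p, HasFDerivAt f (f' p) p) (h1 : ∀ p, ‖f' p‖ ≤ A)
    (h2 : ∀ p q, ‖f' p - f' q‖ ≤ A * ‖p - q‖) {ρ : ℝ} (hρ : 0 < ρ) (p q h g : P)
    (hh : ‖h‖ ≤ 2 * ρ) :
    ‖ρ⁻¹ • (f (p + h) - f p) - ρ⁻¹ • (f (q + g) - f q)‖ ≤
      2 * A * ‖p - q‖ + A * (ρ⁻¹ * ‖h - g‖) := by
  have e1 : ρ⁻¹ • (f (p + h) - f p) - ρ⁻¹ • (f (q + g) - f q) =
      ρ⁻¹ • ((f (p + h) - f p) - (f (q + h) - f q)) + ρ⁻¹ • (f (q + h) - f (q + g)) := by
    simp only [smul_sub]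
    abel
  have a1 : ‖(f (p + h) - f p) - (f (q + h) - f q)‖ ≤ A * (2 * ρ) * ‖p - q‖ := by
    have h3 : ∀ s, HasFDerivAt (fun s => f (s + h) - f s) (f' (s + h) - f' s) s := by
      intro s
      have h4 : HasFDerivAt (fun s => f (s + h)) (f' (s + h)) s := by
        have h5 : HasFDerivAt (fun s : P => s + h) (ContinuousLinearMap.id ℝ P) s :=
          (hasFDerivAt_id s).add_const h
        have h6 := (hf (s + h)).comp s h5
        rwa [ContinuousLinearMap.comp_id] at h6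
      exact h4.sub (hf s)
    refine dq_sub h3 (fun s => ?_) p q
    refine (h2 _ _).trans ?_
    have : s + h - s = h := by abel
    rw [this]
    gcongr
  have a2 : ‖f (q + h) - f (q + g)‖ ≤ A * ‖h - g‖ := by
    refine (dq_sub hf h1 _ _).trans (le_of_eq ?_)
    congr 2
    abel
  rw [e1]
  refine (norm_add_le _ _).trans ?_
  rw [norm_smul, norm_smul, Real.norm_of_nonneg (by positivity)]
  calc ρ⁻¹ * ‖(f (p + h) - f p) - (f (q + h) - f q)‖ + ρ⁻¹ * ‖f (q + h) - f (q + g)‖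
      ≤ ρ⁻¹ * (A * (2 * ρ) * ‖p - q‖) + ρ⁻¹ * (A * ‖h - g‖) := by gcongr
    _ = _ := by field_simp

theorem dq_bd {f : P → F} {f' : P → P →L[ℝ] F} {A : ℝ} (hA : 0 ≤ A)
    (hf : ∀ p, HasFDerivAt f (f' p) p) (h1 : ∀ p, ‖f' p‖ ≤ A) {ρ : ℝ} (hρ : 0 < ρ) (p h : P)
    (hh : ‖h‖ ≤ 2 * ρ) : ‖ρ⁻¹ • (f (p + h) - f p)‖ ≤ 2 * A := by
  have a2 : ‖f (p + h) - f p‖ ≤ A * (2 * ρ) := by
    refine (dq_sub hf h1 _ _).trans ?_
    have : p + h - p = h := by abel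
    rw [this]
    gcongr
  rw [norm_smul, Real.norm_of_nonneg (by positivity)]
  calc ρ⁻¹ * ‖f (p + h) - f p‖ ≤ ρ⁻¹ * (A * (2 * ρ)) := by gcongr
    _ = 2 * A := by field_simp

/-- The same for a smooth map. -/
theorem dq_smooth {f : P → F} (hf : ContDiff ℝ ∞ f) {A : ℝ}
    (hA : ∀ i p, i ≤ 2 → ‖iteratedFDeriv ℝ i f p‖ ≤ A) {ρ : ℝ} (hρ : 0 < ρ) (p q h g : P)
    (hh : ‖h‖ ≤ 2 * ρ) :
    ‖ρ⁻¹ • (f (p + h) - f p) - ρ⁻¹ • (f (q + g) - f q)‖ ≤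
      2 * A * ‖p - q‖ + A * (ρ⁻¹ * ‖h - g‖) := by
  have hA0 : 0 ≤ A := (norm_nonneg _).trans (hA 0 0 (by norm_num))
  have c1 : ContDiff ℝ ∞ (fderiv ℝ f) := hf.fderiv_right (by simp)
  have k0 : ∀ p, HasFDerivAt f (fderiv ℝ f p) p := fun p =>
    ((hf.differentiable (by simp)) p).hasFDerivAt
  have k1 : ∀ p, HasFDerivAt (fderiv ℝ f) (fderiv ℝ (fderiv ℝ f) p) p := fun p =>
    ((c1.differentiable (by simp)) p).hasFDerivAt
  have m0 : ∀ p, ‖fderiv ℝ f p‖ ≤ A := by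
    intro p
    have h1 := hA 1 p (by norm_num)
    rwa [← norm_iteratedFDeriv_fderiv, norm_iteratedFDeriv_zero] at h1
  have m1 : ∀ p, ‖fderiv ℝ (fderiv ℝ f) p‖ ≤ A := by
    intro p
    have h1 := hA 2 p (by norm_num)
    rwa [← norm_iteratedFDeriv_fderiv, ← norm_iteratedFDeriv_fderiv,
      norm_iteratedFDeriv_zero] at h1
  exact dq_lip hA0 k0 m0 (fun a b => dq_sub k1 m1 a b) hρ p q h g hh

theorem dq_smooth_lip {f : P → F} (hf : ContDiff ℝ ∞ f) {A : ℝ}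
    (hA : ∀ i p, i ≤ 2 → ‖iteratedFDeriv ℝ i f p‖ ≤ A) (p q : P) : ‖f p - f q‖ ≤ A * ‖p - q‖ := by
  have k0 : ∀ p, HasFDerivAt f (fderiv ℝ f p) p := fun p =>
    ((hf.differentiable (by simp)) p).hasFDerivAt
  have m0 : ∀ p, ‖fderiv ℝ f p‖ ≤ A := by
    intro p
    have h1 := hA 1 p (by norm_num)
    rwa [← norm_iteratedFDeriv_fderiv, norm_iteratedFDeriv_zero] at h1
  exact dq_sub k0 m0 p q

end dq

section TH

variable {P Z V W : Type*} [NormedAddCommGroup P] [NormedSpace ℝ P] [NormedAddCommGroup Z]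
  [NormedSpace ℝ Z] [NormedAddCommGroup V] [NormedSpace ℝ V] [NormedAddCommGroup W]
  [NormedSpace ℝ W]

/-- The double gradient map. -/
noncomputable def TH (D : P → V →L[ℝ] W) (j : Z →L[ℝ] P) (t t' : P) (ρ : ℝ) (x : V × Z × Z) :
    W × W :=
  (D (t + j x.2.1) x.1, ρ⁻¹ • (D (t' + j (x.2.1 + ρ • x.2.2)) x.1 - D (t + j x.2.1) x.1))

/-- Its derivative. -/
noncomputable def TH' (D : P → V →L[ℝ] W) (D1 : P → P →L[ℝ] V →L[ℝ] W) (j : Z →L[ℝ] P)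
    (t t' : P) (ρ : ℝ) (x : V × Z × Z) : (V × Z × Z) →L[ℝ] W × W :=
  (((D (t + j x.2.1)).comp (ContinuousLinearMap.fst ℝ V (Z × Z)) +
      ((D1 (t + j x.2.1)).flip x.1).comp (j.comp
        ((ContinuousLinearMap.fst ℝ Z Z).comp (ContinuousLinearMap.snd ℝ V (Z × Z)))))).prod
    ((ρ⁻¹ • (D (t' + j (x.2.1 + ρ • x.2.2)) - D (t + j x.2.1))).comp
        (ContinuousLinearMap.fst ℝ V (Z × Z)) +
      ((ρ⁻¹ • (D1 (t' + j (x.2.1 + ρ • x.2.2)) - D1 (t + j x.2.1))).flip x.1).comp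
        (j.comp ((ContinuousLinearMap.fst ℝ Z Z).comp (ContinuousLinearMap.snd ℝ V (Z × Z)))) +
      ((D1 (t' + j (x.2.1 + ρ • x.2.2))).flip x.1).comp
        (j.comp ((ContinuousLinearMap.snd ℝ Z Z).comp (ContinuousLinearMap.snd ℝ V (Z × Z)))))

theorem TH'_apply (D : P → V →L[ℝ] W) (D1 : P → P →L[ℝ] V →L[ℝ] W) (j : Z →L[ℝ] P)
    (t t' : P) (ρ : ℝ) (x v : V × Z × Z) : TH' D D1 j t t' ρ x v =
      (D (t + j x.2.1) v.1 + D1 (t + j x.2.1) (j v.2.1) x.1,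
        (ρ⁻¹ • (D (t' + j (x.2.1 + ρ • x.2.2)) - D (t + j x.2.1))) v.1 +
          (ρ⁻¹ • (D1 (t' + j (x.2.1 + ρ • x.2.2)) - D1 (t + j x.2.1))) (j v.2.1) x.1 +
          D1 (t' + j (x.2.1 + ρ • x.2.2)) (j v.2.2) x.1) := rfl

theorem TH_deriv {D : P → V →L[ℝ] W} {D1 : P → P →L[ℝ] V →L[ℝ] W}
    (hD : ∀ p, HasFDerivAt D (D1 p) p) (j : Z →L[ℝ] P) (t t' : P) {ρ : ℝ} (hρ : ρ ≠ 0)
    (x : V × Z × Z) : HasFDerivAt (TH D j t t' ρ) (TH' D D1 j t t' ρ x) x := by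
  have p1 : HasFDerivAt (fun x : V × Z × Z => t + j x.2.1) (j.comp
      ((ContinuousLinearMap.fst ℝ Z Z).comp (ContinuousLinearMap.snd ℝ V (Z × Z)))) x :=
    ((j.comp ((ContinuousLinearMap.fst ℝ Z Z).comp
      (ContinuousLinearMap.snd ℝ V (Z × Z)))).hasFDerivAt (x := x)).const_add t
  have p2 : HasFDerivAt (fun x : V × Z × Z => t' + j (x.2.1 + ρ • x.2.2)) (j.comp
      ((ContinuousLinearMap.fst ℝ Z Z).comp (ContinuousLinearMap.snd ℝ V (Z × Z)) +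
        ρ • (ContinuousLinearMap.snd ℝ Z Z).comp (ContinuousLinearMap.snd ℝ V (Z × Z)))) x :=
    ((j.comp ((ContinuousLinearMap.fst ℝ Z Z).comp (ContinuousLinearMap.snd ℝ V (Z × Z)) +
      ρ • (ContinuousLinearMap.snd ℝ Z Z).comp
        (ContinuousLinearMap.snd ℝ V (Z × Z)))).hasFDerivAt (x := x)).const_add t'
  have d1 : HasFDerivAt (fun x : V × Z × Z => D (t + j x.2.1))
      ((D1 (t + j x.2.1)).comp (j.comp
        ((ContinuousLinearMap.fst ℝ Z Z).comp (ContinuousLinearMap.snd ℝ V (Z × Z))))) x :=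
    (hD (t + j x.2.1)).comp x p1
  have d2 : HasFDerivAt (fun x : V × Z × Z => D (t' + j (x.2.1 + ρ • x.2.2)))
      ((D1 (t' + j (x.2.1 + ρ • x.2.2))).comp (j.comp
      ((ContinuousLinearMap.fst ℝ Z Z).comp (ContinuousLinearMap.snd ℝ V (Z × Z)) +
        ρ • (ContinuousLinearMap.snd ℝ Z Z).comp (ContinuousLinearMap.snd ℝ V (Z × Z))))) x :=
    (hD (t' + j (x.2.1 + ρ • x.2.2))).comp x p2
  have w1 := d1.clm_apply (hasFDerivAt_fst (p := x))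
  have w2 := d2.clm_apply (hasFDerivAt_fst (p := x))
  refine (w1.prodMk ((w2.sub w1).const_smul ρ⁻¹)).congr_fderiv ?_
  refine ContinuousLinearMap.ext fun v => ?_
  rw [TH'_apply]
  refine Prod.ext ?_ ?_
  · simp
  · simp only [ContinuousLinearMap.prod_apply, smul_apply, sub_apply, add_apply,
      ContinuousLinearMap.comp_apply, ContinuousLinearMap.coe_fst', ContinuousLinearMap.coe_snd',
      ContinuousLinearMap.flip_apply, map_add, map_smul, smul_sub, smul_add,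
      smul_smul, inv_mul_cancel₀ hρ, one_smul]
    abel

/-- The derivative is Lipschitz. -/
theorem TH_var {D : P → V →L[ℝ] W} {D1 : P → P →L[ℝ] V →L[ℝ] W} {A : ℝ}
    (hA : 0 ≤ A) (hD : ∀ p, HasFDerivAt D (D1 p) p) (b1 : ∀ p, ‖D1 p‖ ≤ A)
    (b2' : ∀ p q, ‖D1 p - D1 q‖ ≤ A * ‖p - q‖)
    (b3 : ∀ ρ : ℝ, 0 < ρ → ∀ p q h g : P, ‖h‖ ≤ 2 * ρ →
      ‖ρ⁻¹ • (D1 (p + h) - D1 p) - ρ⁻¹ • (D1 (q + g) - D1 q)‖ ≤
        2 * A * ‖p - q‖ + A * (ρ⁻¹ * ‖h - g‖))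
    {j : Z →L[ℝ] P} (hj : ∀ z, ‖j z‖ ≤ ‖z‖) {t t' : P} {ρ : ℝ} (hρ : 0 < ρ) (hρ1 : ρ ≤ 1)
    {x x' : V × Z × Z} (ht : ‖t' - t + j (ρ • x.2.2)‖ ≤ 2 * ρ)
    (ht' : ‖t' - t + j (ρ • x'.2.2)‖ ≤ 2 * ρ) (hx1 : ‖x.1‖ ≤ 4) :
    ‖TH' D D1 j t t' ρ x - TH' D D1 j t t' ρ x'‖ ≤ 30 * A * ‖x - x'‖ := by
  set N : ℝ := ‖x - x'‖ with hN
  have hN0 : 0 ≤ N := norm_nonneg _
  have n1 : ‖x.1 - x'.1‖ ≤ N := norm_fst_le (x - x')
  have n2 : ‖x.2.1 - x'.2.1‖ ≤ N := (norm_fst_le (x.2 - x'.2)).trans (norm_snd_le (x - x'))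
  have n3 : ‖x.2.2 - x'.2.2‖ ≤ N := (norm_snd_le (x.2 - x'.2)).trans (norm_snd_le (x - x'))
  set p : P := t + j x.2.1 with hp
  set q : P := t + j x'.2.1 with hq
  set h : P := t' - t + j (ρ • x.2.2) with hh
  set g : P := t' - t + j (ρ • x'.2.2) with hg
  have e1 : t' + j (x.2.1 + ρ • x.2.2) = p + h := by
    rw [hp, hh, map_add]
    abel
  have e2 : t' + j (x'.2.1 + ρ • x'.2.2) = q + g := by
    rw [hq, hg, map_add]
    abel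
  have hpq : ‖p - q‖ ≤ N := by
    have e3 : p - q = j (x.2.1 - x'.2.1) := by
      rw [hp, hq, map_sub]
      abel
    rw [e3]
    exact (hj _).trans n2
  have hhg : ‖h - g‖ ≤ ρ * N := by
    have e3 : h - g = j (ρ • (x.2.2 - x'.2.2)) := by
      rw [hh, hg, smul_sub, map_sub]
      abel
    rw [e3]
    refine (hj _).trans ?_
    rw [norm_smul, Real.norm_of_nonneg hρ.le]
    gcongr
  have hhg' : ρ⁻¹ * ‖h - g‖ ≤ N := by
    calc ρ⁻¹ * ‖h - g‖ ≤ ρ⁻¹ * (ρ * N) := by gcongr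
      _ = N := by field_simp
  have b4 : ‖ρ⁻¹ • (D1 (q + g) - D1 q)‖ ≤ 2 * A := by
    have h1 := b2' (q + g) q
    have h2 : q + g - q = g := by abel
    rw [h2] at h1
    rw [norm_smul, Real.norm_of_nonneg (by positivity)]
    calc ρ⁻¹ * ‖D1 (q + g) - D1 q‖ ≤ ρ⁻¹ * (A * (2 * ρ)) := by
          gcongr
          exact h1.trans (by gcongr)
      _ = 2 * A := by field_simp
  refine ContinuousLinearMap.opNorm_le_bound _ (by positivity) fun v => ?_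
  have v1 : ‖v.1‖ ≤ ‖v‖ := norm_fst_le v
  have v2 : ‖j v.2.1‖ ≤ ‖v‖ := (hj _).trans ((norm_fst_le v.2).trans (norm_snd_le v))
  have v3 : ‖j v.2.2‖ ≤ ‖v‖ := (hj _).trans ((norm_snd_le v.2).trans (norm_snd_le v))
  have hv0 : 0 ≤ ‖v‖ := norm_nonneg _
  -- a trilinear difference
  have tri : ∀ (L L' : P →L[ℝ] V →L[ℝ] W) (u : P) (a b : ℝ),
      ‖L - L'‖ ≤ a → ‖L'‖ ≤ b → ‖u‖ ≤ ‖v‖ →
      ‖L u x.1 - L' u x'.1‖ ≤ (4 * a + b * N) * ‖v‖ := by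
    intro L L' u a b ha hb hu
    have hb0 : 0 ≤ b := (norm_nonneg _).trans hb
    have ha0 : 0 ≤ a := (norm_nonneg _).trans ha
    have e3 : L u x.1 - L' u x'.1 = (L - L') u x.1 + L' u (x.1 - x'.1) := by
      simp only [sub_apply, map_sub]
      abel
    rw [e3]
    have c1 : ‖(L - L') u x.1‖ ≤ a * ‖v‖ * 4 := by
      refine (((L - L') u).le_opNorm _).trans ?_
      have := (L - L').le_opNorm u
      calc ‖(L - L') u‖ * ‖x.1‖ ≤ (‖L - L'‖ * ‖u‖) * ‖x.1‖ := by gcongr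
        _ ≤ a * ‖v‖ * 4 := by gcongr
    have c2 : ‖L' u (x.1 - x'.1)‖ ≤ b * ‖v‖ * N := by
      refine ((L' u).le_opNorm _).trans ?_
      have := L'.le_opNorm u
      calc ‖L' u‖ * ‖x.1 - x'.1‖ ≤ (‖L'‖ * ‖u‖) * ‖x.1 - x'.1‖ := by gcongr
        _ ≤ b * ‖v‖ * N := by gcongr
    refine (norm_add_le _ _).trans ((add_le_add c1 c2).trans (le_of_eq (by ring)))
  have bil : ∀ (L L' : V →L[ℝ] W) (a : ℝ), ‖L - L'‖ ≤ a →
      ‖L v.1 - L' v.1‖ ≤ a * ‖v‖ := by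
    intro L L' a ha
    rw [← sub_apply]
    refine ((L - L').le_opNorm _).trans ?_
    have ha0 : 0 ≤ a := (norm_nonneg _).trans ha
    gcongr
  have r1 : ‖D p v.1 - D q v.1‖ ≤ A * N * ‖v‖ :=
    bil _ _ _ ((dq_sub hD b1 p q).trans (by gcongr))
  have r2 : ‖D1 p (j v.2.1) x.1 - D1 q (j v.2.1) x'.1‖ ≤ (4 * (A * N) + A * N) * ‖v‖ :=
    tri _ _ _ _ _ ((b2' p q).trans (by gcongr)) (b1 q) v2
  have r3 : ‖(ρ⁻¹ • (D (p + h) - D p)) v.1 - (ρ⁻¹ • (D (q + g) - D q)) v.1‖ ≤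
      (3 * A * N) * ‖v‖ := by
    refine bil _ _ _ ((dq_lip hA hD b1 b2' hρ p q h g ht).trans ?_)
    calc 2 * A * ‖p - q‖ + A * (ρ⁻¹ * ‖h - g‖) ≤ 2 * A * N + A * N := by gcongr
      _ = 3 * A * N := by ring
  have r4 : ‖(ρ⁻¹ • (D1 (p + h) - D1 p)) (j v.2.1) x.1 -
      (ρ⁻¹ • (D1 (q + g) - D1 q)) (j v.2.1) x'.1‖ ≤ (4 * (3 * A * N) + 2 * A * N) * ‖v‖ := by
    refine tri _ _ _ _ _ ((b3 ρ hρ p q h g ht).trans ?_) b4 v2
    calc 2 * A * ‖p - q‖ + A * (ρ⁻¹ * ‖h - g‖) ≤ 2 * A * N + A * N := by gcongr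
      _ = 3 * A * N := by ring
  have r5 : ‖D1 (p + h) (j v.2.2) x.1 - D1 (q + g) (j v.2.2) x'.1‖ ≤
      (4 * (2 * A * N) + A * N) * ‖v‖ := by
    refine tri _ _ _ _ _ ((b2' _ _).trans ?_) (b1 _) v3
    have e4 : p + h - (q + g) = (p - q) + (h - g) := by abel
    have h5 : ‖p + h - (q + g)‖ ≤ 2 * N := by
      rw [e4]
      refine (norm_add_le _ _).trans ?_
      have h6 : ρ * N ≤ 1 * N := by gcongr
      linarith
    calc A * ‖p + h - (q + g)‖ ≤ A * (2 * N) := by gcongr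
      _ = 2 * A * N := by ring
  rw [sub_apply, TH'_apply, TH'_apply, e1, e2, Prod.mk_sub_mk, Prod.norm_mk, max_le_iff]
  have hAN : 0 ≤ A * N * ‖v‖ := by positivity
  constructor
  · have e5 : D p v.1 + D1 p (j v.2.1) x.1 - (D q v.1 + D1 q (j v.2.1) x'.1) =
        (D p v.1 - D q v.1) + (D1 p (j v.2.1) x.1 - D1 q (j v.2.1) x'.1) := by abel
    rw [e5]
    refine (norm_add_le _ _).trans ((add_le_add r1 r2).trans ?_)
    linarith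
  · have e6 : ∀ a b c a' b' c' : W, a + b + c - (a' + b' + c') =
        (a - a') + (b - b') + (c - c') := fun a b c a' b' c' => by abel
    rw [e6]
    refine (norm_add_le _ _).trans ((add_le_add ((norm_add_le _ _).trans (add_le_add r3 r4))
      r5).trans ?_)
    linarith

/-- The same for the gradients of a smooth map. -/
theorem XH_var {X : P → V} (hX : ContDiff ℝ ∞ X) (L : (P →L[ℝ] V) →L[ℝ] V →L[ℝ] W) {A : ℝ}
    (hL : ‖L‖ ≤ 1) (hA : ∀ i p, i ≤ 4 → ‖iteratedFDeriv ℝ i X p‖ ≤ A)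
    {j : Z →L[ℝ] P} (hj : ∀ z, ‖j z‖ ≤ ‖z‖) {t t' : P} {ρ : ℝ} (hρ : 0 < ρ) (hρ1 : ρ ≤ 1)
    {x x' : V × Z × Z} (ht : ‖t' - t + j (ρ • x.2.2)‖ ≤ 2 * ρ)
    (ht' : ‖t' - t + j (ρ • x'.2.2)‖ ≤ 2 * ρ) (hx1 : ‖x.1‖ ≤ 4) :
    ‖TH' (fun p => L (fderiv ℝ X p)) (fun p => L.comp (fderiv ℝ (fderiv ℝ X) p)) j t t' ρ x -
      TH' (fun p => L (fderiv ℝ X p)) (fun p => L.comp (fderiv ℝ (fderiv ℝ X) p)) j t t' ρ x'‖ ≤
        30 * A * ‖x - x'‖ := by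
  have hA0 : 0 ≤ A := (norm_nonneg _).trans (hA 0 0 (by norm_num))
  have c1 : ContDiff ℝ ∞ (fderiv ℝ X) := hX.fderiv_right (by simp)
  have c2 : ContDiff ℝ ∞ (fderiv ℝ (fderiv ℝ X)) := c1.fderiv_right (by simp)
  have k1 : ∀ p, HasFDerivAt (fderiv ℝ X) (fderiv ℝ (fderiv ℝ X) p) p := fun p =>
    ((c1.differentiable (by simp)) p).hasFDerivAt
  have m1 : ∀ p, ‖fderiv ℝ (fderiv ℝ X) p‖ ≤ A := by
    intro p
    have h1 := hA 2 p (by norm_num)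
    rw [← norm_iteratedFDeriv_fderiv, ← norm_iteratedFDeriv_fderiv, norm_iteratedFDeriv_zero] at h1
    exact h1
  have hY : ∀ i p, i ≤ 2 → ‖iteratedFDeriv ℝ i (fderiv ℝ (fderiv ℝ X)) p‖ ≤ A := by
    intro i p hi
    have h1 := hA (i + 1 + 1) p (by omega)
    rw [← norm_iteratedFDeriv_fderiv, ← norm_iteratedFDeriv_fderiv] at h1
    exact h1
  have hYL : ∀ p q, ‖fderiv ℝ (fderiv ℝ X) p - fderiv ℝ (fderiv ℝ X) q‖ ≤ A * ‖p - q‖ :=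
    dq_smooth_lip c2 hY
  -- composition with `L`
  let CL : (P →L[ℝ] P →L[ℝ] V) →L[ℝ] (P →L[ℝ] V →L[ℝ] W) :=
    ContinuousLinearMap.compL ℝ P (P →L[ℝ] V) (V →L[ℝ] W) L
  have hCL : ∀ S, ‖CL S‖ ≤ ‖S‖ := by
    intro S
    refine (ContinuousLinearMap.opNorm_comp_le L S).trans ?_
    calc ‖L‖ * ‖S‖ ≤ 1 * ‖S‖ := by gcongr
      _ = ‖S‖ := one_mul _
  refine TH_var hA0 (fun p => L.hasFDerivAt.comp p (k1 p)) (fun p => (hCL _).trans (m1 p))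
    (fun p q => ?_) (fun ρ hρ p q h g hh => ?_) hj hρ hρ1 ht ht' hx1
  · have h2 : L.comp (fderiv ℝ (fderiv ℝ X) p) - L.comp (fderiv ℝ (fderiv ℝ X) q) =
        CL (fderiv ℝ (fderiv ℝ X) p - fderiv ℝ (fderiv ℝ X) q) := by
      rw [map_sub]
      rfl
    rw [h2]
    exact (hCL _).trans (hYL p q)
  · have h2 : ρ⁻¹ • (L.comp (fderiv ℝ (fderiv ℝ X) (p + h)) - L.comp (fderiv ℝ (fderiv ℝ X) p)) -
        ρ⁻¹ • (L.comp (fderiv ℝ (fderiv ℝ X) (q + g)) - L.comp (fderiv ℝ (fderiv ℝ X) q)) =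
        CL (ρ⁻¹ • (fderiv ℝ (fderiv ℝ X) (p + h) - fderiv ℝ (fderiv ℝ X) p) -
          ρ⁻¹ • (fderiv ℝ (fderiv ℝ X) (q + g) - fderiv ℝ (fderiv ℝ X) q)) := by
      rw [map_sub, map_smul, map_smul, map_sub, map_sub]
      rfl
    rw [h2]
    exact (hCL _).trans (dq_smooth c2 hY hρ p q h g hh)

end TH

end Pool.Agent.LFK
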