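import Pool.Agent.LFK.KAKka
import Pool.Agent.LFK.TDf
import Pool.Agent.LFK.COMP

/-!
The dual lower bound for the double gradient map in `k + m` variables.
-/

set_option autoImplicit false
set_option maxSynthPendingDepth 3

namespace Pool.Agent.LFK

open MeasureTheory Set Module Pool.Agent.MP_6cbfb8_an Pool.Agent.GNP Pool.Agent.GNP.LF
open scoped ENNReal NNReal RealInnerProductSpace ContDiff

variable {k m n : ℕ}

/-- The transpose of `T` as a map to `E k × E m`. -/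
noncomputable def Lk (k m n : ℕ) :
    ((E k × E m) →L[ℝ] E n) →L[ℝ] (E n →L[ℝ] (E k × E m)) :=
  LinearMap.mkContinuous
    { toFun := fun T =>
        (ContinuousLinearMap.adjoint (T.comp (ContinuousLinearMap.inl ℝ (E k) (E m)))).prod
          (ContinuousLinearMap.adjoint (T.comp (ContinuousLinearMap.inr ℝ (E k) (E m))))
      map_add' := fun T S => by
        rw [ContinuousLinearMap.add_comp, map_add, ContinuousLinearMap.add_comp, map_add]
        rfl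
      map_smul' := fun a T => by
        rw [ContinuousLinearMap.smul_comp, map_smulₛₗ, ContinuousLinearMap.smul_comp, map_smulₛₗ]
        simp
        rfl } 1 (fun T => by
      rw [one_mul]
      refine ContinuousLinearMap.opNorm_le_bound _ (norm_nonneg _) fun w => ?_
      have h1 : ‖ContinuousLinearMap.adjoint (T.comp (ContinuousLinearMap.inl ℝ (E k) (E m))) w‖ ≤
          ‖T‖ * ‖w‖ := by
        refine (ContinuousLinearMap.le_opNorm _ _).trans ?_
        rw [LinearIsometryEquiv.norm_map]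
        gcongr
        refine ContinuousLinearMap.opNorm_le_bound _ (norm_nonneg _) fun v => ?_
        refine (T.le_opNorm _).trans (le_of_eq ?_)
        simp [Prod.norm_mk]
      have h2 : ‖ContinuousLinearMap.adjoint (T.comp (ContinuousLinearMap.inr ℝ (E k) (E m))) w‖ ≤
          ‖T‖ * ‖w‖ := by
        refine (ContinuousLinearMap.le_opNorm _ _).trans ?_
        rw [LinearIsometryEquiv.norm_map]
        gcongr
        refine ContinuousLinearMap.opNorm_le_bound _ (norm_nonneg _) fun v => ?_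
        refine (T.le_opNorm _).trans (le_of_eq ?_)
        simp [Prod.norm_mk]
      exact max_le h1 h2)

theorem Lk_apply (T : (E k × E m) →L[ℝ] E n) (w : E n) : Lk k m n T w =
    (ContinuousLinearMap.adjoint (T.comp (ContinuousLinearMap.inl ℝ (E k) (E m))) w,
      ContinuousLinearMap.adjoint (T.comp (ContinuousLinearMap.inr ℝ (E k) (E m))) w) := rfl

theorem norm_Lk : ‖Lk k m n‖ ≤ 1 := LinearMap.mkContinuous_norm_le _ zero_le_one _

theorem Lk_Gw (X : E k × E m → E n) (w : E n) (p : E k × E m) :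
    Lk k m n (fderiv ℝ X p) w = Gw X w p := rfl

/-- The pairing of `E k × E m`. -/
noncomputable def pr (a : E k × E m) : (E k × E m) →L[ℝ] ℝ :=
  (innerSL ℝ a.1).comp (ContinuousLinearMap.fst ℝ (E k) (E m)) +
    (innerSL ℝ a.2).comp (ContinuousLinearMap.snd ℝ (E k) (E m))

theorem pr_apply (a x : E k × E m) : pr a x = ⟪a.1, x.1⟫ + ⟪a.2, x.2⟫ := rfl

theorem pr_norm_le (a x : E k × E m) : ‖pr a x‖ ≤ 2 * ‖a‖ * ‖x‖ := by
  rw [pr_apply]
  refine (norm_add_le _ _).trans ?_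
  have h1 : ‖(⟪a.1, x.1⟫ : ℝ)‖ ≤ ‖a‖ * ‖x‖ := by
    refine (norm_inner_le_norm _ _).trans ?_
    have := norm_fst_le a
    have := norm_fst_le x
    gcongr
  have h2 : ‖(⟪a.2, x.2⟫ : ℝ)‖ ≤ ‖a‖ * ‖x‖ := by
    refine (norm_inner_le_norm _ _).trans ?_
    have := norm_snd_le a
    have := norm_snd_le x
    gcongr
  linarith

theorem exists_pr (l : (E k × E m) →L[ℝ] ℝ) : ∃ a : E k × E m, l = pr a := by
  refine ⟨((InnerProductSpace.toDual ℝ (E k)).symm
    (l.comp (ContinuousLinearMap.inl ℝ (E k) (E m))),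
    (InnerProductSpace.toDual ℝ (E m)).symm
    (l.comp (ContinuousLinearMap.inr ℝ (E k) (E m)))), ?_⟩
  refine ContinuousLinearMap.ext fun x => ?_
  rw [pr_apply, InnerProductSpace.toDual_symm_apply, InnerProductSpace.toDual_symm_apply]
  have h1 : x = (x.1, 0) + (0, x.2) := by simp
  conv_lhs => rw [h1, map_add]
  rfl

theorem pr_Lk (a : E k × E m) (T : (E k × E m) →L[ℝ] E n) (w : E n) :
    pr a (Lk k m n T w) = ⟪T a, w⟫ := by
  rw [Lk_apply, pr_apply]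
  simp only
  rw [ContinuousLinearMap.adjoint_inner_right, ContinuousLinearMap.adjoint_inner_right,
    ← inner_add_left]
  have h1 : a = (a.1, 0) + (0, a.2) := by simp
  conv_rhs => rw [h1, map_add]
  rfl

/-- The double gradient map and its derivative. -/
noncomputable def DGk (X : E k × E m → E n) (t t' : E k) (ρ : ℝ) (x : E n × E m × E m) :
    (E k × E m) × (E k × E m) :=
  TH (fun p => Lk k m n (fderiv ℝ X p)) (ContinuousLinearMap.inr ℝ (E k) (E m)) ((t, 0)) ((t', 0))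
    ρ x

/-- Its derivative. -/
noncomputable def DGk' (X : E k × E m → E n) (t t' : E k) (ρ : ℝ) (x : E n × E m × E m) :
    (E n × E m × E m) →L[ℝ] (E k × E m) × (E k × E m) :=
  TH' (fun p => Lk k m n (fderiv ℝ X p)) (fun p => (Lk k m n).comp (fderiv ℝ (fderiv ℝ X) p))
    (ContinuousLinearMap.inr ℝ (E k) (E m)) ((t, 0)) ((t', 0)) ρ x

theorem DGk_apply (X : E k × E m → E n) (t t' : E k) (ρ : ℝ) (x : E n × E m × E m) :
    DGk X t t' ρ x = (Gw X x.1 (t, x.2.1),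
      ρ⁻¹ • (Gw X x.1 (t', x.2.1 + ρ • x.2.2) - Gw X x.1 (t, x.2.1))) := by
  have h1 : ∀ (s : E k) (z : E m), ((s, 0) : E k × E m) + ContinuousLinearMap.inr ℝ (E k) (E m) z =
      (s, z) := by
    intro s z
    simp
  rw [DGk, TH, h1, h1]
  rfl

theorem DGk_deriv {X : E k × E m → E n} (hX : ContDiff ℝ ∞ X) (t t' : E k) {ρ : ℝ} (hρ : 0 < ρ)
    (x : E n × E m × E m) : HasFDerivAt (DGk X t t' ρ) (DGk' X t t' ρ x) x := by
  have c1 : ContDiff ℝ ∞ (fderiv ℝ X) := hX.fderiv_right (by simp)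
  have k1 : ∀ p, HasFDerivAt (fderiv ℝ X) (fderiv ℝ (fderiv ℝ X) p) p := fun p =>
    ((c1.differentiable (by simp)) p).hasFDerivAt
  exact TH_deriv (fun p => (Lk k m n).hasFDerivAt.comp p (k1 p)) _ _ _ hρ.ne' x

theorem DGk_var {X : E k × E m → E n} (hX : ContDiff ℝ ∞ X) {A : ℝ}
    (hA : ∀ i p, i ≤ 4 → ‖iteratedFDeriv ℝ i X p‖ ≤ A) {t t' : E k} {ρ : ℝ} (hρ : 0 < ρ)
    (hρ1 : ρ ≤ 1) (htt : ‖t' - t‖ ≤ 2 * ρ) {x x' : E n × E m × E m} (hx : ‖x.2.2‖ ≤ 2)
    (hx' : ‖x'.2.2‖ ≤ 2) (hx1 : ‖x.1‖ ≤ 4) :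
    ‖DGk' X t t' ρ x - DGk' X t t' ρ x'‖ ≤ 30 * A * ‖x - x'‖ := by
  have h1 : ∀ y : E m, ‖y‖ ≤ 2 → ‖((t', 0) : E k × E m) - (t, 0) +
      ContinuousLinearMap.inr ℝ (E k) (E m) (ρ • y)‖ ≤ 2 * ρ := by
    intro y hy
    have h2 : ((t', 0) : E k × E m) - (t, 0) + ContinuousLinearMap.inr ℝ (E k) (E m) (ρ • y) =
        (t' - t, ρ • y) := by simp
    rw [h2, Prod.norm_mk]
    refine max_le htt ?_
    rw [norm_smul, Real.norm_of_nonneg hρ.le, mul_comm]
    gcongr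
  exact XH_var hX (Lk k m n) norm_Lk hA (fun z => by simp [Prod.norm_mk]) hρ hρ1 (h1 _ hx)
    (h1 _ hx') hx1

/-- The dual form of the derivative. -/
theorem DGk_dual {X : E k × E m → E n} (hX : ContDiff ℝ ∞ X) (t t' : E k) {ρ : ℝ} (a b : E k × E m)
    (x v : E n × E m × E m) :
    pr a (DGk' X t t' ρ x v).1 + pr b (DGk' X t t' ρ x v).2 =
      ⟪fderiv ℝ X (t, x.2.1) a + ρ⁻¹ • (fderiv ℝ X (t', x.2.1 + ρ • x.2.2) b -
        fderiv ℝ X (t, x.2.1) b), v.1⟫ +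
      ⟪v.2.1, fderiv ℝ (Vw X x.1) (t, x.2.1) a + ρ⁻¹ •
        (fderiv ℝ (Vw X x.1) (t', x.2.1 + ρ • x.2.2) b - fderiv ℝ (Vw X x.1) (t, x.2.1) b)⟫ +
      ⟪v.2.2, fderiv ℝ (Vw X x.1) (t', x.2.1 + ρ • x.2.2) b⟫ := by
  have h1 : ∀ (s : E k) (z : E m), ((s, 0) : E k × E m) + ContinuousLinearMap.inr ℝ (E k) (E m) z =
      (s, z) := by
    intro s z
    simp
  have hsy : ∀ p u v, fderiv ℝ (fderiv ℝ X) p u v = fderiv ℝ (fderiv ℝ X) p v u := by
    intro p u v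
    have h3 : minSmoothness ℝ 2 ≤ (∞ : WithTop ℕ∞) := by
      rw [minSmoothness_of_isRCLikeNormedField]
      exact WithTop.coe_le_coe.2 (le_top : (2 : ℕ∞) ≤ ⊤)
    exact (hX.contDiffAt.isSymmSndFDerivAt h3).eq u v
  have h2 : ∀ (c : E k × E m) (p : E k × E m) (z : E m),
      pr c (Lk k m n (fderiv ℝ (fderiv ℝ X) p (ContinuousLinearMap.inr ℝ (E k) (E m) z)) x.1) =
        ⟪z, fderiv ℝ (Vw X x.1) p c⟫ := by
    intro c p z
    rw [pr_Lk, inner_Mw hX, hsy]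
    rfl
  rw [DGk', TH'_apply, h1, h1]
  simp only [map_add, map_smul, map_sub, smul_apply, sub_apply,
    ContinuousLinearMap.comp_apply, h2, pr_Lk, inner_add_left, inner_add_right, inner_smul_left,
    inner_smul_right, inner_sub_left, inner_sub_right, smul_eq_mul, conj_trivial]
  ring

/-- The dual lower bound. -/
theorem DGk_low {X : E k × E m → E n} (hX : ContDiff ℝ ∞ X) {t t' : E k} {ρ c : ℝ} (hc : 0 ≤ c)
    (x : E n × E m × E m)
    (hT : ∀ a b : E k × E m, c * (‖a‖ + ‖b‖) ≤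
      ‖fderiv ℝ X (t, x.2.1) a + ρ⁻¹ • (fderiv ℝ X (t', x.2.1 + ρ • x.2.2) b -
        fderiv ℝ X (t, x.2.1) b)‖ +
      ‖fderiv ℝ (Vw X x.1) (t, x.2.1) a + ρ⁻¹ •
        (fderiv ℝ (Vw X x.1) (t', x.2.1 + ρ • x.2.2) b - fderiv ℝ (Vw X x.1) (t, x.2.1) b)‖ +
      ‖fderiv ℝ (Vw X x.1) (t', x.2.1 + ρ • x.2.2) b‖)
    (l : (E k × E m) × (E k × E m) →L[ℝ] ℝ) :
    c / 6 * ‖l‖ ≤ ‖l.comp (DGk' X t t' ρ x)‖ := by
  obtain ⟨a, ha⟩ := exists_pr (l.comp (ContinuousLinearMap.inl ℝ (E k × E m) (E k × E m)))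
  obtain ⟨b, hb⟩ := exists_pr (l.comp (ContinuousLinearMap.inr ℝ (E k × E m) (E k × E m)))
  have hl : ∀ q, l q = pr a q.1 + pr b q.2 := by
    intro q
    rw [← ha, ← hb]
    simp only [ContinuousLinearMap.comp_apply]
    rw [← map_add]
    simp
  have hln : ‖l‖ ≤ 2 * (‖a‖ + ‖b‖) := by
    refine ContinuousLinearMap.opNorm_le_bound _ (by positivity) fun q => ?_
    rw [hl]
    refine (norm_add_le _ _).trans ((add_le_add (pr_norm_le _ _) (pr_norm_le _ _)).trans ?_)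
    have h1 : 2 * ‖a‖ * ‖q.1‖ ≤ 2 * ‖a‖ * ‖q‖ := by
      have := norm_fst_le q
      gcongr
    have h2 : 2 * ‖b‖ * ‖q.2‖ ≤ 2 * ‖b‖ * ‖q‖ := by
      have := norm_snd_le q
      gcongr
    linarith
  set M : ℝ := ‖l.comp (DGk' X t t' ρ x)‖ with hM
  have hM0 : 0 ≤ M := norm_nonneg _
  have h0 := hT a b
  set v1 := fderiv ℝ X (t, x.2.1) a + ρ⁻¹ • (fderiv ℝ X (t', x.2.1 + ρ • x.2.2) b -
        fderiv ℝ X (t, x.2.1) b) with hv1
  set v2 := fderiv ℝ (Vw X x.1) (t, x.2.1) a + ρ⁻¹ •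
        (fderiv ℝ (Vw X x.1) (t', x.2.1 + ρ • x.2.2) b - fderiv ℝ (Vw X x.1) (t, x.2.1) b) with hv2
  set v3 := fderiv ℝ (Vw X x.1) (t', x.2.1 + ρ • x.2.2) b with hv3
  have hval : ∀ v : E n × E m × E m, ⟪v1, v.1⟫ + ⟪v.2.1, v2⟫ + ⟪v.2.2, v3⟫ ≤ M * ‖v‖ := by
    intro v
    rw [← DGk_dual hX t t' a b x v, ← hl]
    exact (Real.le_norm_self _).trans ((l.comp (DGk' X t t' ρ x)).le_opNorm v)
  have aux : ∀ r : ℝ, 0 ≤ r → r * r ≤ M * r → r ≤ M := by
    intro r hr h1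
    rcases hr.eq_or_lt with h2 | h2
    · rw [← h2]
      exact hM0
    · exact le_of_mul_le_mul_right h1 h2
  have k1 : ‖v1‖ ≤ M := by
    refine aux _ (norm_nonneg _) ?_
    have h1 := hval (v1, 0, 0)
    simp only [inner_zero_left, add_zero, real_inner_self_eq_norm_mul_norm] at h1
    refine h1.trans (le_of_eq ?_)
    congr 1
    simp [Prod.norm_mk]
  have k2 : ‖v2‖ ≤ M := by
    refine aux _ (norm_nonneg _) ?_
    have h1 := hval (0, v2, 0)
    simp only [inner_zero_left, inner_zero_right, add_zero, zero_add,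
      real_inner_self_eq_norm_mul_norm] at h1
    refine h1.trans (le_of_eq ?_)
    congr 1
    simp [Prod.norm_mk]
  have k3 : ‖v3‖ ≤ M := by
    refine aux _ (norm_nonneg _) ?_
    have h1 := hval (0, 0, v3)
    simp only [inner_zero_left, inner_zero_right, zero_add,
      real_inner_self_eq_norm_mul_norm] at h1
    refine h1.trans (le_of_eq ?_)
    congr 1
    simp [Prod.norm_mk]
  calc c / 6 * ‖l‖ ≤ c / 6 * (2 * (‖a‖ + ‖b‖)) := by gcongr
    _ = 1 / 3 * (c * (‖a‖ + ‖b‖)) := by ring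
    _ ≤ 1 / 3 * (‖v1‖ + ‖v2‖ + ‖v3‖) := by gcongr
    _ ≤ M := by linarith

end Pool.Agent.LFK
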