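import Pool.Agent.GNP.LFI

/-!
Change of variables for submersions with uniform constants.
-/

set_option autoImplicit false

namespace Pool.Agent.LFK

open MeasureTheory Set Module
open scoped ENNReal NNReal Real RealInnerProductSpace InnerProductSpace

/-- Complement of a surjective map between Euclidean spaces. -/
theorem subm_compl {a b : ℕ} (T : EuclideanSpace ℝ (Fin a) →L[ℝ] EuclideanSpace ℝ (Fin b))
    (c : ℝ) (hc : 0 < c) (hT : ∀ w, c * ‖w‖ ≤ ‖ContinuousLinearMap.adjoint T w‖) :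
    b ≤ a ∧ ∃ L : EuclideanSpace ℝ (Fin a) →L[ℝ] EuclideanSpace ℝ (Fin (a - b)),
      ∀ v, min c 1 / 2 * ‖v‖ ≤ ‖(T v, L v)‖ ∧ ‖L v‖ ≤ ‖v‖ := by
  set Tl : EuclideanSpace ℝ (Fin a) →ₗ[ℝ] EuclideanSpace ℝ (Fin b) := T.toLinearMap with hTl
  set K : Submodule ℝ (EuclideanSpace ℝ (Fin a)) := LinearMap.ker Tl with hK
  have hadj : ∀ w, LinearMap.adjoint Tl w = ContinuousLinearMap.adjoint T w := by
    intro w
    refine ext_inner_right ℝ fun v => ?_
    rw [LinearMap.adjoint_inner_left, ContinuousLinearMap.adjoint_inner_left]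
    rfl
  have hlow : ∀ u ∈ Kᗮ, c * ‖u‖ ≤ ‖T u‖ := by
    intro u hu
    rw [hK, LinearMap.orthogonal_ker] at hu
    obtain ⟨w, hw⟩ := hu
    rw [hadj] at hw
    have h1 : ‖u‖ ^ 2 = ⟪w, T u⟫ := by
      rw [← real_inner_self_eq_norm_sq]
      conv_lhs => rw [← hw]
      rw [ContinuousLinearMap.adjoint_inner_left, hw]
    have h2 : ‖u‖ ^ 2 ≤ ‖w‖ * ‖T u‖ := by
      rw [h1]
      exact real_inner_le_norm _ _
    have h3 : c * ‖w‖ ≤ ‖u‖ := by
      rw [← hw]
      exact hT w
    rcases (norm_nonneg u).eq_or_lt with h0 | h0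
    · rw [← h0, mul_zero]
      exact norm_nonneg _
    · have h4 : c * ‖u‖ ^ 2 ≤ ‖u‖ * ‖T u‖ := by
        calc c * ‖u‖ ^ 2 ≤ c * (‖w‖ * ‖T u‖) := by gcongr
          _ = c * ‖w‖ * ‖T u‖ := by ring
          _ ≤ ‖u‖ * ‖T u‖ := by gcongr
      have h5 : ‖u‖ * (c * ‖u‖) ≤ ‖u‖ * ‖T u‖ := by
        rw [← mul_assoc, mul_comm ‖u‖ c, mul_assoc, ← sq]
        exact h4
      exact le_of_mul_le_mul_left h5 h0
  have hsurj : LinearMap.range Tl = ⊤ := by
    rw [← Submodule.orthogonal_eq_bot_iff, Submodule.eq_bot_iff]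
    intro w hw
    have h1 : ContinuousLinearMap.adjoint T w = 0 := by
      refine ext_inner_right ℝ fun v => ?_
      rw [ContinuousLinearMap.adjoint_inner_left, inner_zero_left, real_inner_comm]
      exact (Submodule.mem_orthogonal _ w).1 hw (T v) ⟨v, rfl⟩
    have h2 := hT w
    rw [h1, norm_zero] at h2
    by_contra h3
    exact absurd h2 (not_le.2 (mul_pos hc (norm_pos_iff.2 h3)))
  have hdim : finrank ℝ K + b = a := by
    have h1 := LinearMap.finrank_range_add_finrank_ker Tl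
    rw [hsurj, finrank_top, finrank_euclideanSpace, finrank_euclideanSpace, Fintype.card_fin,
      Fintype.card_fin] at h1
    have h2 : finrank ℝ K = finrank ℝ (LinearMap.ker Tl) := rfl
    omega
  refine ⟨by omega, ?_⟩
  have hd : finrank ℝ K = a - b := by omega
  let e : K ≃ₗᵢ[ℝ] EuclideanSpace ℝ (Fin (a - b)) :=
    ((stdOrthonormalBasis ℝ K).reindex (finCongr hd)).repr
  set L : EuclideanSpace ℝ (Fin a) →L[ℝ] EuclideanSpace ℝ (Fin (a - b)) :=
    e.toContinuousLinearEquiv.toContinuousLinearMap.comp K.orthogonalProjectionOnto with hL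
  refine ⟨L, fun v => ?_⟩
  set k : K := K.orthogonalProjectionOnto v with hk
  set u : EuclideanSpace ℝ (Fin a) := v - k with hu
  have huK : u ∈ Kᗮ := K.sub_starProjection_mem_orthogonal v
  have hTu : T u = T v := by
    rw [hu, map_sub]
    have h1 : T (k : EuclideanSpace ℝ (Fin a)) = 0 := k.2
    rw [h1, sub_zero]
  have h1 := hlow u huK
  rw [hTu] at h1
  have h2 : ‖v‖ ≤ ‖u‖ + ‖k‖ := by
    have h3 : v = u + k := by
      rw [hu]
      abel
    calc ‖v‖ = ‖u + k‖ := by rw [← h3]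
      _ ≤ _ := norm_add_le _ _
  have h3 : ‖L v‖ = ‖k‖ := by
    have : L v = e k := rfl
    rw [this]
    exact e.norm_map k
  have h4 : ‖T v‖ ≤ ‖(T v, L v)‖ := norm_fst_le (T v, L v)
  have h5 : ‖k‖ ≤ ‖(T v, L v)‖ := by
    rw [← h3]
    exact norm_snd_le (T v, L v)
  have h6 : min c 1 * ‖u‖ ≤ ‖T v‖ :=
    (mul_le_mul_of_nonneg_right (min_le_left _ _) (norm_nonneg _)).trans h1
  have h7 : min c 1 * ‖k‖ ≤ ‖k‖ := by
    have h8 : min c 1 * ‖k‖ ≤ 1 * ‖k‖ :=
      mul_le_mul_of_nonneg_right (min_le_right _ _) (norm_nonneg _)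
    linarith
  have h9 : 0 < min c 1 := lt_min hc one_pos
  refine ⟨by nlinarith, ?_⟩
  rw [h3]
  exact K.norm_orthogonalProjectionOnto_apply_le v

variable {V W : Type*} [NormedAddCommGroup V] [NormedSpace ℝ V] [FiniteDimensional ℝ V]
  [MeasurableSpace V] [BorelSpace V] [NormedAddCommGroup W] [NormedSpace ℝ W]
  [FiniteDimensional ℝ W] [MeasurableSpace W] [BorelSpace W]

omit [MeasurableSpace V] [BorelSpace V] [MeasurableSpace W] [BorelSpace W] in
/-- Complement of a linear map whose transpose is bounded below. -/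
theorem subm_exists (c : ℝ) (hc : 0 < c) : ∃ c' K : ℝ, 0 < c' ∧ 0 < K ∧ ∀ T : V →L[ℝ] W,
    (∀ l : W →L[ℝ] ℝ, c * ‖l‖ ≤ ‖l.comp T‖) → finrank ℝ W ≤ finrank ℝ V ∧
    ∃ L : V →L[ℝ] EuclideanSpace ℝ (Fin (finrank ℝ V - finrank ℝ W)),
      ∀ v, c' * ‖v‖ ≤ ‖(T v, L v)‖ ∧ ‖L v‖ ≤ K * ‖v‖ := by
  let eV : V ≃L[ℝ] EuclideanSpace ℝ (Fin (finrank ℝ V)) := toEuclidean
  let eW : W ≃L[ℝ] EuclideanSpace ℝ (Fin (finrank ℝ W)) := toEuclidean
  let fV : V →L[ℝ] EuclideanSpace ℝ (Fin (finrank ℝ V)) := eV.toContinuousLinearMap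
  let gV : EuclideanSpace ℝ (Fin (finrank ℝ V)) →L[ℝ] V := eV.symm.toContinuousLinearMap
  let fW : W →L[ℝ] EuclideanSpace ℝ (Fin (finrank ℝ W)) := eW.toContinuousLinearMap
  let gW : EuclideanSpace ℝ (Fin (finrank ℝ W)) →L[ℝ] W := eW.symm.toContinuousLinearMap
  have hgfV : ∀ x, gV (fV x) = x := fun x => eV.symm_apply_apply x
  have hfgW : ∀ x, fW (gW x) = x := fun x => eW.apply_symm_apply x
  have hgfW : ∀ x, gW (fW x) = x := fun x => eW.symm_apply_apply x
  set a : ℝ := ‖fV‖ + 1 with ha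
  set a' : ℝ := ‖gV‖ + 1 with ha'
  set b : ℝ := ‖fW‖ + 1 with hb
  set b' : ℝ := ‖gW‖ + 1 with hb'
  have ha0 : 0 < a := by positivity
  have ha0' : 0 < a' := by positivity
  have hb0 : 0 < b := by positivity
  have hb0' : 0 < b' := by positivity
  set c1 : ℝ := c / (a * b') with hc1
  have hc10 : 0 < c1 := by positivity
  refine ⟨min c1 1 / 2 / (a' * b), a, by positivity, ha0, ?_⟩
  intro T hT
  set T' : EuclideanSpace ℝ (Fin (finrank ℝ V)) →L[ℝ] EuclideanSpace ℝ (Fin (finrank ℝ W)) :=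
    fW.comp (T.comp gV) with hT'
  have hadj : ∀ w, c1 * ‖w‖ ≤ ‖ContinuousLinearMap.adjoint T' w‖ := by
    intro w
    set l : W →L[ℝ] ℝ := (innerSL ℝ w).comp fW with hl
    have h1 : ‖w‖ ≤ ‖l‖ * b' := by
      have h2 : ‖innerSL ℝ w‖ = ‖w‖ := innerSL_apply_norm ℝ w
      have h3 : innerSL ℝ w = l.comp gW := by
        refine ContinuousLinearMap.ext fun x => ?_
        rw [hl, ContinuousLinearMap.comp_apply, ContinuousLinearMap.comp_apply, hfgW]
      rw [← h2, h3]
      refine (ContinuousLinearMap.opNorm_comp_le _ _).trans ?_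
      refine mul_le_mul_of_nonneg_left ?_ (norm_nonneg _)
      rw [hb']
      linarith
    have h4 : ‖l.comp T‖ ≤ ‖ContinuousLinearMap.adjoint T' w‖ * a := by
      have h5 : l.comp T = (innerSL ℝ (ContinuousLinearMap.adjoint T' w)).comp fV := by
        refine ContinuousLinearMap.ext fun x => ?_
        simp only [ContinuousLinearMap.comp_apply, innerSL_apply_apply, hl,
          ContinuousLinearMap.adjoint_inner_left, hT', hgfV]
      rw [h5]
      refine (ContinuousLinearMap.opNorm_comp_le _ _).trans ?_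
      rw [innerSL_apply_norm]
      refine mul_le_mul_of_nonneg_left ?_ (norm_nonneg _)
      rw [ha]
      linarith
    have h6 := hT l
    rw [hc1, div_mul_eq_mul_div, div_le_iff₀ (by positivity)]
    calc c * ‖w‖ ≤ c * (‖l‖ * b') := by gcongr
      _ = c * ‖l‖ * b' := by ring
      _ ≤ ‖ContinuousLinearMap.adjoint T' w‖ * a * b' :=
          mul_le_mul_of_nonneg_right (h6.trans h4) hb0'.le
      _ = _ := by ring
  obtain ⟨hdim, L', hL'⟩ := subm_compl T' c1 hc10 hadj
  refine ⟨hdim, L'.comp fV, fun v => ?_⟩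
  obtain ⟨h1, h1b⟩ := hL' (fV v)
  have h2 : T' (fV v) = fW (T v) := by
    rw [hT', ContinuousLinearMap.comp_apply, ContinuousLinearMap.comp_apply, hgfV]
  rw [h2] at h1
  have h3 : ‖v‖ ≤ a' * ‖fV v‖ := by
    calc ‖v‖ = ‖gV (fV v)‖ := by rw [hgfV]
      _ ≤ ‖gV‖ * ‖fV v‖ := ContinuousLinearMap.le_opNorm _ _
      _ ≤ _ := by
          gcongr
          rw [ha']
          linarith
  have h4 : ‖(fW (T v), L' (fV v))‖ ≤ b * ‖(T v, L' (fV v))‖ := by
    rw [Prod.norm_mk]
    refine max_le ?_ ?_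
    · calc ‖fW (T v)‖ ≤ ‖fW‖ * ‖T v‖ := fW.le_opNorm _
        _ ≤ b * ‖(T v, L' (fV v))‖ := by
            refine mul_le_mul (by rw [hb]; linarith) (norm_fst_le (T v, L' (fV v)))
              (norm_nonneg _) hb0.le
    · calc ‖L' (fV v)‖ ≤ ‖(T v, L' (fV v))‖ := norm_snd_le (T v, L' (fV v))
        _ ≤ b * ‖(T v, L' (fV v))‖ := by
            have h5 : 1 ≤ b := by
              rw [hb]
              linarith [norm_nonneg fW]
            exact le_mul_of_one_le_left (norm_nonneg _) h5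
  have h5 : 0 < min c1 1 := lt_min hc10 one_pos
  constructor
  swap
  · rw [ContinuousLinearMap.comp_apply]
    refine h1b.trans ((fV.le_opNorm v).trans ?_)
    refine mul_le_mul_of_nonneg_right ?_ (norm_nonneg _)
    rw [ha]
    linarith
  rw [div_mul_eq_mul_div, div_le_iff₀ (by positivity)]
  calc min c1 1 / 2 * ‖v‖ ≤ min c1 1 / 2 * (a' * ‖fV v‖) := by gcongr
    _ = a' * (min c1 1 / 2 * ‖fV v‖) := by ring
    _ ≤ a' * (b * ‖(T v, L' (fV v))‖) :=
        mul_le_mul_of_nonneg_left (h1.trans h4) ha0'.le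
    _ = _ := by
        rw [ContinuousLinearMap.comp_apply]
        ring

/-- **Submersions**: the change of variables for a map on a bounded convex set whose derivative is
Lipschitz there and has a transpose which is bounded below on the subset. -/
theorem subm_cover (μ : Measure V) [μ.IsAddHaarMeasure] (ν : Measure W) [ν.IsAddHaarMeasure]
    (c A S : ℝ) (hc : 0 < c) : ∃ C : ℝ≥0, ∀ (x0 : V) (Q G : Set V) (F : V → W)
    (F' : V → V →L[ℝ] W), Convex ℝ Q → Q ⊆ Metric.closedBall x0 S → MeasurableSet G → G ⊆ Q →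
    (∀ x ∈ Q, HasFDerivAt F (F' x) x) → (∀ x ∈ Q, ∀ y ∈ Q, ‖F' x - F' y‖ ≤ A * ‖x - y‖) →
    (∀ x ∈ G, ∀ l : W →L[ℝ] ℝ, c * ‖l‖ ≤ ‖l.comp (F' x)‖) → ∀ h : W → ℝ≥0∞, Measurable h →
    ∫⁻ x in G, h (F x) ∂μ ≤ C * ∫⁻ y, h y ∂ν := by
  obtain ⟨c', K, hc', hK, hex⟩ := subm_exists (V := V) (W := W) c hc
  by_cases hdim : finrank ℝ W ≤ finrank ℝ V
  swap
  · refine ⟨0, ?_⟩
    intro x0 Q G F F' hQ hQS hG hGQ hd hv hl h hh
    have hG0 : G = ∅ := by
      rw [Set.eq_empty_iff_forall_notMem]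
      intro x hx
      exact hdim (hex (F' x) (hl x hx)).1
    rw [hG0, Measure.restrict_empty, lintegral_zero_measure]
    exact zero_le
  set d : ℕ := finrank ℝ V - finrank ℝ W with hd0
  have hVW : finrank ℝ V = finrank ℝ (W × EuclideanSpace ℝ (Fin d)) := by
    rw [finrank_prod, finrank_euclideanSpace, Fintype.card_fin]
    omega
  obtain ⟨C, hC⟩ := Pool.Agent.GNP.LF.inj_box μ
    (ν.prod (volume : Measure (EuclideanSpace ℝ (Fin d)))) hVW c' hc'
  set r : ℝ := c' / (4 * (|A| + 1)) with hr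
  have hr0 : 0 < r := by positivity
  obtain ⟨t, -, ht, hcov⟩ := (isCompact_closedBall (0 : V) S).finite_cover_balls hr0
  set B : Set (EuclideanSpace ℝ (Fin d)) := Metric.closedBall 0 (K * (2 * r)) with hB
  have hBm : MeasurableSet B := Metric.isClosed_closedBall.measurableSet
  have hBf : volume B ≠ ⊤ := measure_closedBall_lt_top.ne
  refine ⟨ht.toFinset.card * (C * (volume B).toNNReal), ?_⟩
  intro x0 Q G F F' hQ hQS hG hGQ hd hv hl h hh
  have hpiece : ∀ u : V, ∫⁻ x in G ∩ Metric.closedBall (x0 + u) r, h (F x) ∂μ ≤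
      (C * (volume B).toNNReal : ℝ≥0) * ∫⁻ y, h y ∂ν := by
    intro u
    rcases (G ∩ Metric.closedBall (x0 + u) r).eq_empty_or_nonempty with h0 | ⟨g, hg⟩
    · rw [h0, Measure.restrict_empty, lintegral_zero_measure]
      exact zero_le
    obtain ⟨-, L, hL⟩ := hex (F' g) (hl g hg.1)
    have hdist : ∀ x ∈ Metric.closedBall (x0 + u) r, ‖x - g‖ ≤ 2 * r := by
      intro x hx
      have h3 := hg.2
      rw [Metric.mem_closedBall] at hx h3
      rw [← dist_eq_norm]
      linarith [dist_triangle_right x g (x0 + u)]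
    set F1 : V → W × EuclideanSpace ℝ (Fin d) := fun x => (F x, L (x - g)) with hF1
    set F1' : V → V →L[ℝ] W × EuclideanSpace ℝ (Fin d) := fun x => (F' x).prod L with hF1'
    have hd1 : ∀ x ∈ Q ∩ Metric.closedBall (x0 + u) r, HasFDerivAt F1 (F1' x) x := by
      intro x hx
      refine (hd x hx.1).prodMk ?_
      exact L.hasFDerivAt.comp x ((hasFDerivAt_id x).sub_const g)
    have hmain := hC (Q ∩ Metric.closedBall (x0 + u) r) (G ∩ Metric.closedBall (x0 + u) r) F1 F1'
      (F1' g) (hQ.inter (convex_closedBall _ _)) (hG.inter measurableSet_closedBall)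
      (inter_subset_inter_left _ hGQ) hd1 (fun v => (hL v).1) ?_
      (fun y => h y.1 * B.indicator 1 y.2)
    · have e1 : ∫⁻ x in G ∩ Metric.closedBall (x0 + u) r, h (F x) ∂μ =
          ∫⁻ x in G ∩ Metric.closedBall (x0 + u) r, h (F1 x).1 * B.indicator 1 (F1 x).2 ∂μ := by
        refine setLIntegral_congr_fun (hG.inter measurableSet_closedBall) fun x hx => ?_
        have hxB : L (x - g) ∈ B := by
          rw [hB, mem_closedBall_zero_iff]
          refine (hL (x - g)).2.trans ?_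
          exact mul_le_mul_of_nonneg_left (hdist x hx.2) hK.le
        simp only [hF1]
        rw [indicator_of_mem hxB, Pi.one_apply, mul_one]
      rw [e1]
      refine hmain.trans (le_of_eq ?_)
      have e2 : ∫⁻ y, h y.1 * B.indicator 1 y.2 ∂(ν.prod
          (volume : Measure (EuclideanSpace ℝ (Fin d)))) =
          (∫⁻ y, h y ∂ν) * ∫⁻ s, B.indicator 1 s :=
        lintegral_prod_mul hh.aemeasurable
          ((measurable_one.indicator hBm :
            Measurable (B.indicator (1 : EuclideanSpace ℝ (Fin d) → ℝ≥0∞))).aemeasurable)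
      rw [e2, lintegral_indicator_one hBm, ENNReal.coe_mul, ENNReal.coe_toNNReal hBf, mul_assoc,
        mul_comm (volume B)]
    · intro x hx
      have e3 : ‖F1' x - F1' g‖ ≤ ‖F' x - F' g‖ := by
        refine ContinuousLinearMap.opNorm_le_bound _ (norm_nonneg _) fun v => ?_
        have e4 : (F1' x - F1' g) v = ((F' x - F' g) v, 0) := by
          simp [hF1']
        rw [e4, Prod.norm_mk, norm_zero]
        exact max_le ((F' x - F' g).le_opNorm v) (by positivity)
      refine e3.trans ((hv x hx.1 g (hGQ hg.1)).trans ?_)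
      calc A * ‖x - g‖ ≤ (|A| + 1) * (2 * r) :=
            mul_le_mul (by linarith [le_abs_self A]) (hdist x hx.2) (norm_nonneg _) (by positivity)
        _ = c' / 2 := by
            rw [hr]
            field_simp
            ring
  have hGcov : G ⊆ ⋃ u : {u // u ∈ ht.toFinset}, G ∩ Metric.closedBall (x0 + u) r := by
    intro x hx
    have h1 : x - x0 ∈ Metric.closedBall (0 : V) S := by
      have := hQS (hGQ hx)
      rw [Metric.mem_closedBall, dist_eq_norm] at this
      rwa [mem_closedBall_zero_iff]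
    obtain ⟨u, hu, hxu⟩ := mem_iUnion₂.1 (hcov h1)
    refine mem_iUnion.2 ⟨⟨u, ht.mem_toFinset.2 hu⟩, hx, ?_⟩
    rw [Metric.mem_ball, dist_eq_norm] at hxu
    rw [Metric.mem_closedBall, dist_eq_norm]
    have h2 : x - (x0 + u) = x - x0 - u := by abel
    rw [h2]
    exact hxu.le
  calc ∫⁻ x in G, h (F x) ∂μ ≤
        ∫⁻ x in ⋃ u : {u // u ∈ ht.toFinset}, G ∩ Metric.closedBall (x0 + u) r, h (F x) ∂μ :=
        lintegral_mono_set hGcov
    _ ≤ ∑' u : {u // u ∈ ht.toFinset}, ∫⁻ x in G ∩ Metric.closedBall (x0 + u) r, h (F x) ∂μ :=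
        lintegral_iUnion_le _ _
    _ ≤ ∑' _u : {u // u ∈ ht.toFinset}, (C * (volume B).toNNReal : ℝ≥0) * ∫⁻ y, h y ∂ν :=
        ENNReal.tsum_le_tsum fun u => hpiece u
    _ = _ := by
        rw [tsum_fintype, Finset.sum_const, nsmul_eq_mul, Finset.card_univ, Fintype.card_coe,
          ENNReal.coe_mul (ht.toFinset.card : ℝ≥0), ENNReal.coe_natCast, mul_assoc]

end Pool.Agent.LFK
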