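import Mathlib

/-!
Transversality of a pair of points at distance `ρ`, abstractly: `A1 = DX`, `A2 = D²X`, `V = V_w`,
`M = DV_w`, `V2 = D²V_w`.
-/

set_option autoImplicit false

namespace Pool.Agent.LFK

open Set Filter Topology Function

section

variable {P W F : Type*} [NormedAddCommGroup P] [NormedSpace ℝ P]
  [NormedAddCommGroup W] [NormedSpace ℝ W] [NormedAddCommGroup F] [NormedSpace ℝ F]

/-- First order Taylor expansion of a map with Lipschitz derivative. -/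
theorem trk_tay {f : P → F} {f' : P → P →L[ℝ] F} {A : ℝ} (hf : ∀ p, HasFDerivAt f (f' p) p)
    (hL : ∀ p q, ‖f' p - f' q‖ ≤ A * ‖p - q‖) (hA : 0 ≤ A) (p h : P) :
    ‖f (p + h) - f p - f' p h‖ ≤ A * ‖h‖ * ‖h‖ := by
  have h1 : ∀ x ∈ segment ℝ p (p + h), HasFDerivWithinAt f (f' x) (segment ℝ p (p + h)) x :=
    fun x _ => (hf x).hasFDerivWithinAt
  have h2 : ∀ x ∈ segment ℝ p (p + h), ‖f' x - f' p‖ ≤ A * ‖h‖ := by
    intro x hx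
    obtain ⟨s, ⟨hs0, hs1⟩, rfl⟩ := (segment_eq_image' ℝ p (p + h)).subset hx
    refine (hL _ _).trans (mul_le_mul_of_nonneg_left ?_ hA)
    rw [add_sub_cancel_left, add_sub_cancel_left, norm_smul, Real.norm_of_nonneg hs0]
    exact mul_le_of_le_one_left (norm_nonneg _) hs1
  have h3 := (convex_segment p (p + h)).norm_image_sub_le_of_norm_hasFDerivWithin_le' (φ := f' p)
    h1 h2 (left_mem_segment ℝ p (p + h)) (right_mem_segment ℝ p (p + h))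
  simpa using h3

/-- First order expansion of a field of linear maps, evaluated at `b`, divided by `ρ`. -/
theorem trk_dq {G : Type*} [NormedAddCommGroup G] [NormedSpace ℝ G] {T : P → P →L[ℝ] G}
    {T' : P → P →L[ℝ] P →L[ℝ] G} {A δ ρ : ℝ} (hA : 0 ≤ A) (hT : ∀ p, HasFDerivAt T (T' p) p)
    (hL : ∀ p q, ‖T' p - T' q‖ ≤ A * ‖p - q‖) {p p' : P} (hρ : 0 < ρ) (h2 : ‖p - p'‖ ≤ 2 * ρ)
    (hd : ‖p - p'‖ ≤ 2 * δ) (b : P) :
    ‖ρ⁻¹ • (T p' b - T p b) - T' p (ρ⁻¹ • (p' - p)) b‖ ≤ 4 * A * δ * ‖b‖ := by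
  have h3 := trk_tay hT hL hA p (p' - p)
  rw [add_sub_cancel, norm_sub_rev p' p] at h3
  have h4 : A * ‖p - p'‖ * ‖p - p'‖ ≤ 4 * A * δ * ρ := by
    have h5 : ‖p - p'‖ * ‖p - p'‖ ≤ (2 * δ) * (2 * ρ) :=
      mul_le_mul hd h2 (norm_nonneg _) ((norm_nonneg _).trans hd)
    have h6 := mul_le_mul_of_nonneg_left h5 hA
    nlinarith
  have h7 : ρ⁻¹ • (T p' b - T p b) - T' p (ρ⁻¹ • (p' - p)) b =
      ρ⁻¹ • ((T p' - T p - T' p (p' - p)) b) := by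
    rw [map_smul, smul_apply, ← smul_sub]
    rfl
  rw [h7, norm_smul, norm_inv, Real.norm_of_nonneg hρ.le, inv_mul_le_iff₀ hρ]
  calc ‖(T p' - T p - T' p (p' - p)) b‖ ≤ ‖T p' - T p - T' p (p' - p)‖ * ‖b‖ :=
        ContinuousLinearMap.le_opNorm _ _
    _ ≤ (4 * A * δ * ρ) * ‖b‖ := mul_le_mul_of_nonneg_right (h3.trans h4) (norm_nonneg b)
    _ = ρ * (4 * A * δ * ‖b‖) := by ring

/-- The lower bound of the transposed differential. -/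
theorem trk_abs {A1 : P → P →L[ℝ] W} {A2 : P → P →L[ℝ] P →L[ℝ] W} {V : P → F}
    {M : P → P →L[ℝ] F} {V2 : P → P →L[ℝ] P →L[ℝ] F} {A κ δ : ℝ} (hA : 0 ≤ A) (hκ : 0 < κ)
    (hκ1 : κ ≤ 1) (d1 : ∀ p, HasFDerivAt A1 (A2 p) p) (b1 : ∀ p q, ‖A1 p - A1 q‖ ≤ A * ‖p - q‖)
    (l1 : ∀ p q, ‖A2 p - A2 q‖ ≤ A * ‖p - q‖) (d2 : ∀ p, HasFDerivAt V (M p) p)
    (d3 : ∀ p, HasFDerivAt M (V2 p) p) (l2 : ∀ p q, ‖M p - M q‖ ≤ A * ‖p - q‖)
    (l3 : ∀ p q, ‖V2 p - V2 q‖ ≤ A * ‖p - q‖) {p p' : P} {θ ρ : ℝ} (hθ : ‖V p‖ ≤ θ)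
    (hθ' : ‖V p'‖ ≤ θ) (hρ : 0 < ρ) (h1 : ρ ≤ ‖p - p'‖) (h2 : ‖p - p'‖ ≤ 2 * ρ)
    (hC : 4 / κ * θ ≤ ρ) (hd : ‖p - p'‖ ≤ 2 * δ) (hδ : 32 * A * δ ≤ κ)
    (hlow : ∀ u, κ * ‖u‖ ≤ ‖A1 p u‖)
    (hH : ∀ u v, ‖M p u‖ ≤ κ * ‖u‖ → ‖M p v‖ ≤ κ * ‖v‖ → ∀ d,
      κ * (‖u‖ * ‖v‖ + ‖d‖) ≤ ‖A1 p d + A2 p u v‖ + ‖M p d + V2 p u v‖) (a b : P) :
    κ ^ 2 / (8 * A + 8) * (‖a‖ + ‖b‖) ≤ ‖A1 p a + ρ⁻¹ • (A1 p' b - A1 p b)‖ +
      ‖M p a + ρ⁻¹ • (M p' b - M p b)‖ + ‖M p' b‖ := by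
  set u : P := ρ⁻¹ • (p' - p) with hu
  have nab : 0 ≤ ‖a‖ := norm_nonneg a
  have nbb : 0 ≤ ‖b‖ := norm_nonneg b
  have hδ0 : 0 ≤ δ := by
    have := (norm_nonneg _).trans hd
    linarith
  have hAδ : 0 ≤ A * δ := mul_nonneg hA hδ0
  have hnu : ‖u‖ = ρ⁻¹ * ‖p - p'‖ := by
    rw [hu, norm_smul, norm_inv, Real.norm_of_nonneg hρ.le, norm_sub_rev]
  have hu1 : 1 ≤ ‖u‖ := by
    rw [hnu, ← div_eq_inv_mul, one_le_div hρ]
    exact h1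
  -- the constant
  have hA8 : 0 < 8 * A + 8 := by positivity
  have hc8 : κ ^ 2 / (8 * A + 8) ≤ κ / 8 := by
    rw [div_le_div_iff₀ hA8 (by norm_num)]
    nlinarith
  have hc0 : 0 < κ ^ 2 / (8 * A + 8) := by positivity
  -- `u` is almost in the kernel
  have hMu : ‖M p u‖ ≤ κ * ‖u‖ := by
    have h3 := trk_tay d2 l2 hA p (p' - p)
    rw [add_sub_cancel, norm_sub_rev p' p] at h3
    have h4 : A * ‖p - p'‖ * ‖p - p'‖ ≤ 4 * A * δ * ρ := by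
      have h5 : ‖p - p'‖ * ‖p - p'‖ ≤ (2 * δ) * (2 * ρ) :=
        mul_le_mul hd h2 (norm_nonneg _) ((norm_nonneg _).trans hd)
      have h6 := mul_le_mul_of_nonneg_left h5 hA
      nlinarith
    have h5 : ‖M p (p' - p)‖ ≤ 2 * θ + 4 * A * δ * ρ := by
      have h6 : M p (p' - p) = (V p' - V p) - (V p' - V p - M p (p' - p)) := by abel
      rw [h6]
      refine (norm_sub_le _ _).trans ?_
      have h7 := norm_sub_le (V p') (V p)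
      linarith
    have h6 : ‖M p u‖ = ρ⁻¹ * ‖M p (p' - p)‖ := by
      rw [hu, map_smul, norm_smul, norm_inv, Real.norm_of_nonneg hρ.le]
    have h7 : θ ≤ κ * ρ / 4 := by
      have h8 : 4 / κ * θ = 4 * θ / κ := by ring
      rw [h8, div_le_iff₀ hκ] at hC
      linarith
    have h8 : ‖M p u‖ ≤ κ := by
      rw [h6, inv_mul_le_iff₀ hρ]
      nlinarith
    nlinarith
  have e1 := trk_dq hA d1 l1 hρ h2 hd b
  have e2 := trk_dq hA d3 l3 hρ h2 hd b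
  rw [← hu] at e1 e2
  rcases le_or_gt ‖M p b‖ (κ * ‖b‖) with hMb | hMb
  · have h3 := hH u b hMu hMb a
    have h4 : ‖A1 p a + A2 p u b‖ ≤ ‖A1 p a + ρ⁻¹ • (A1 p' b - A1 p b)‖ + 4 * A * δ * ‖b‖ := by
      have h5 : A1 p a + A2 p u b = (A1 p a + ρ⁻¹ • (A1 p' b - A1 p b)) -
          (ρ⁻¹ • (A1 p' b - A1 p b) - A2 p u b) := by abel
      rw [h5]
      exact (norm_sub_le _ _).trans (add_le_add le_rfl e1)
    have h5 : ‖M p a + V2 p u b‖ ≤ ‖M p a + ρ⁻¹ • (M p' b - M p b)‖ + 4 * A * δ * ‖b‖ := by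
      have h6 : M p a + V2 p u b = (M p a + ρ⁻¹ • (M p' b - M p b)) -
          (ρ⁻¹ • (M p' b - M p b) - V2 p u b) := by abel
      rw [h6]
      exact (norm_sub_le _ _).trans (add_le_add le_rfl e2)
    have h6 : κ * ‖b‖ ≤ κ * (‖u‖ * ‖b‖) := by
      refine mul_le_mul_of_nonneg_left ?_ hκ.le
      nlinarith
    have h7 : 32 * A * δ * ‖b‖ ≤ κ * ‖b‖ := mul_le_mul_of_nonneg_right hδ nbb
    have h8 : κ ^ 2 / (8 * A + 8) * (‖a‖ + ‖b‖) ≤ κ / 8 * (‖a‖ + ‖b‖) :=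
      mul_le_mul_of_nonneg_right hc8 (by positivity)
    have h9 := norm_nonneg (M p' b)
    nlinarith [mul_nonneg hκ.le nab]
  · have h3 : ‖M p b‖ - 2 * A * δ * ‖b‖ ≤ ‖M p' b‖ := by
      have h4 : ‖(M p - M p') b‖ ≤ A * (2 * δ) * ‖b‖ :=
        ((M p - M p').le_opNorm b).trans (mul_le_mul_of_nonneg_right
          ((l2 p p').trans (mul_le_mul_of_nonneg_left hd hA)) nbb)
      have h5 : M p b = M p' b + (M p - M p') b := by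
        rw [sub_apply]
        abel
      have h6 : ‖M p b‖ ≤ ‖M p' b‖ + ‖(M p - M p') b‖ := by
        conv_lhs => rw [h5]
        exact norm_add_le _ _
      linarith
    have h4 : κ * ‖a‖ - 2 * A * ‖b‖ ≤ ‖A1 p a + ρ⁻¹ • (A1 p' b - A1 p b)‖ := by
      have h5 : ‖ρ⁻¹ • (A1 p' b - A1 p b)‖ ≤ 2 * A * ‖b‖ := by
        rw [norm_smul, norm_inv, Real.norm_of_nonneg hρ.le, inv_mul_le_iff₀ hρ]
        have h6 : ‖(A1 p' - A1 p) b‖ ≤ A * (2 * ρ) * ‖b‖ := by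
          refine ((A1 p' - A1 p).le_opNorm b).trans (mul_le_mul_of_nonneg_right
            ((b1 p' p).trans (mul_le_mul_of_nonneg_left ?_ hA)) nbb)
          rw [norm_sub_rev]
          exact h2
        have h7 : A1 p' b - A1 p b = (A1 p' - A1 p) b := rfl
        rw [h7]
        linarith
      have h6 : ‖A1 p a‖ ≤ ‖A1 p a + ρ⁻¹ • (A1 p' b - A1 p b)‖ +
          ‖ρ⁻¹ • (A1 p' b - A1 p b)‖ := by
        have h7 := norm_sub_le (A1 p a + ρ⁻¹ • (A1 p' b - A1 p b)) (ρ⁻¹ • (A1 p' b - A1 p b))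
        rwa [add_sub_cancel_right] at h7
      have h7 := hlow a
      linarith
    set s : ℝ := κ / (8 * A + 8) with hs
    have hs0 : 0 < s := by positivity
    have hs1 : s ≤ 1 := by
      rw [hs, div_le_one hA8]
      linarith
    have hs2 : s * (2 * A) ≤ κ / 4 := by
      rw [hs, div_mul_eq_mul_div, div_le_div_iff₀ hA8 (by norm_num)]
      nlinarith
    have hcs : κ ^ 2 / (8 * A + 8) = s * κ := by
      rw [hs]
      ring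
    have h5 : s * (κ * ‖a‖ - 2 * A * ‖b‖) ≤ ‖A1 p a + ρ⁻¹ • (A1 p' b - A1 p b)‖ := by
      have h6 := norm_nonneg (A1 p a + ρ⁻¹ • (A1 p' b - A1 p b))
      calc s * (κ * ‖a‖ - 2 * A * ‖b‖) ≤ s * ‖A1 p a + ρ⁻¹ • (A1 p' b - A1 p b)‖ :=
            mul_le_mul_of_nonneg_left h4 hs0.le
        _ ≤ 1 * ‖A1 p a + ρ⁻¹ • (A1 p' b - A1 p b)‖ := mul_le_mul_of_nonneg_right hs1 h6
        _ = _ := one_mul _
    have h6 : s * (2 * A) * ‖b‖ ≤ κ / 4 * ‖b‖ := mul_le_mul_of_nonneg_right hs2 nbb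
    have h7 : 32 * A * δ * ‖b‖ ≤ κ * ‖b‖ := mul_le_mul_of_nonneg_right hδ nbb
    have h8 : s * κ * ‖b‖ ≤ κ / 8 * ‖b‖ := by
      rw [← hcs]
      exact mul_le_mul_of_nonneg_right hc8 nbb
    have h9 := norm_nonneg (M p a + ρ⁻¹ • (M p' b - M p b))
    rw [hcs]
    have h10 : 0 ≤ κ * ‖b‖ := mul_nonneg hκ.le nbb
    nlinarith

end

end Pool.Agent.LFK
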