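import Pool.Agent.LFK.TRK0
import Pool.Agent.LFK.COMP0

/-!
Transversality of a pair of points at distance `ρ`, for a smooth map `X` and a field
`V_w(p) = (L (DX(p))) w`.
-/

set_option autoImplicit false
set_option maxSynthPendingDepth 3

namespace Pool.Agent.LFK

open Set Filter Topology Function
open scoped ContDiff

section Gen

variable {P W G : Type*} [NormedAddCommGroup P] [NormedSpace ℝ P]
  [NormedAddCommGroup W] [NormedSpace ℝ W] [NormedAddCommGroup G] [NormedSpace ℝ G]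

/-- A map with bounded derivative is Lipschitz. -/
theorem trk_lip {f : P → G} (hf : Differentiable ℝ f) {A : ℝ}
    (hA : ∀ p, ‖fderiv ℝ f p‖ ≤ A) (p q : P) : ‖f p - f q‖ ≤ A * ‖p - q‖ :=
  convex_univ.norm_image_sub_le_of_norm_hasFDerivWithin_le (f := f) (f' := fderiv ℝ f)
    (fun x _ => (hf x).hasFDerivAt.hasFDerivWithinAt) (fun x _ => hA x) (mem_univ q) (mem_univ p)

theorem trk_nfd2 (X : P → W) (p : P) : ‖fderiv ℝ (fderiv ℝ X) p‖ = ‖iteratedFDeriv ℝ 2 X p‖ := by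
  rw [← norm_iteratedFDeriv_one, norm_iteratedFDeriv_fderiv]

theorem trk_nfd3 (X : P → W) (p : P) :
    ‖fderiv ℝ (fderiv ℝ (fderiv ℝ X)) p‖ = ‖iteratedFDeriv ℝ 3 X p‖ := by
  rw [trk_nfd2, norm_iteratedFDeriv_fderiv]

theorem trk_nfd4 (X : P → W) (p : P) :
    ‖fderiv ℝ (fderiv ℝ (fderiv ℝ (fderiv ℝ X))) p‖ = ‖iteratedFDeriv ℝ 4 X p‖ := by
  rw [trk_nfd3, norm_iteratedFDeriv_fderiv]

theorem trk_lop (L : (P →L[ℝ] W) →L[ℝ] (W →L[ℝ] G)) (T : P →L[ℝ] W) (w : W) {B : ℝ}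
    (hB : ‖T‖ ≤ B) (hw : ‖w‖ ≤ 8) : ‖L T w‖ ≤ 8 * ‖L‖ * B := by
  have h1 : ‖L T w‖ ≤ ‖L T‖ * ‖w‖ := (L T).le_opNorm w
  have h4 : ‖L T‖ ≤ ‖L‖ * B := (L.le_opNorm T).trans (mul_le_mul_of_nonneg_left hB (norm_nonneg L))
  have h5 : ‖L T‖ * ‖w‖ ≤ ‖L‖ * B * 8 :=
    mul_le_mul h4 hw (norm_nonneg _) ((norm_nonneg _).trans h4)
  linarith

variable {X : P → W} {A : ℕ → ℝ} (L : (P →L[ℝ] W) →L[ℝ] (W →L[ℝ] G))

theorem trk_lf (hX : ContDiff ℝ ∞ X) : ContDiff ℝ ∞ (fun p => L (fderiv ℝ X p)) :=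
  L.contDiff.comp (hX.fderiv_right (m := ∞) (by simp))

theorem trk_lw (hX : ContDiff ℝ ∞ X) (w : W) : ContDiff ℝ ∞ (fun p => L (fderiv ℝ X p) w) :=
  (trk_lf L hX).clm_apply contDiff_const

theorem trk_lM (hX : ContDiff ℝ ∞ X) (w : W) (p u : P) :
    fderiv ℝ (fun p => L (fderiv ℝ X p) w) p u = L (fderiv ℝ (fderiv ℝ X) p u) w := by
  have h1 := cm_M_apply (trk_lf L hX) w p u
  have h2 := cm_L1_apply L (g := fderiv ℝ X) (hX.fderiv_right (m := ∞) (by simp)) p u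
  rw [h1, h2]

theorem trk_l2 (hX : ContDiff ℝ ∞ X) (w : W) (p u v : P) :
    fderiv ℝ (fderiv ℝ (fun p => L (fderiv ℝ X p) w)) p u v =
      L (fderiv ℝ (fderiv ℝ (fderiv ℝ X)) p u v) w := by
  have h1 := cm_M2_apply (trk_lf L hX) w p u v
  have h2 := cm_L2_apply L (g := fderiv ℝ X) (hX.fderiv_right (m := ∞) (by simp)) p u v
  rw [h1, h2]

theorem trk_lM_lip (hX : ContDiff ℝ ∞ X) (hA : ∀ j p, ‖iteratedFDeriv ℝ j X p‖ ≤ A j) {w : W}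
    (hw : ‖w‖ ≤ 8) (p q : P) : ‖fderiv ℝ (fun p => L (fderiv ℝ X p) w) p -
      fderiv ℝ (fun p => L (fderiv ℝ X p) w) q‖ ≤ 8 * ‖L‖ * A 3 * ‖p - q‖ := by
  have c1 : ContDiff ℝ ∞ (fderiv ℝ X) := hX.fderiv_right (m := ∞) (by simp)
  have c2 : ContDiff ℝ ∞ (fderiv ℝ (fderiv ℝ X)) := c1.fderiv_right (m := ∞) (by simp)
  have l1 := trk_lip (f := fderiv ℝ (fderiv ℝ X)) (A := A 3) (c2.differentiable (by simp))
    (fun x => (trk_nfd3 X x).trans_le (hA 3 x)) p q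
  have hA3 : 0 ≤ A 3 := (norm_nonneg _).trans (hA 3 p)
  refine ContinuousLinearMap.opNorm_le_bound _ (by positivity) fun u => ?_
  rw [sub_apply, trk_lM L hX, trk_lM L hX]
  have h1 : L (fderiv ℝ (fderiv ℝ X) p u) w - L (fderiv ℝ (fderiv ℝ X) q u) w =
      L ((fderiv ℝ (fderiv ℝ X) p - fderiv ℝ (fderiv ℝ X) q) u) w := by
    rw [sub_apply, map_sub, sub_apply]
  rw [h1]
  have h2 : ‖(fderiv ℝ (fderiv ℝ X) p - fderiv ℝ (fderiv ℝ X) q) u‖ ≤ A 3 * ‖p - q‖ * ‖u‖ :=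
    (ContinuousLinearMap.le_opNorm _ _).trans (mul_le_mul_of_nonneg_right l1 (norm_nonneg u))
  refine (trk_lop L _ w h2 hw).trans_eq ?_
  ring

theorem trk_l2_lip (hX : ContDiff ℝ ∞ X) (hA : ∀ j p, ‖iteratedFDeriv ℝ j X p‖ ≤ A j) {w : W}
    (hw : ‖w‖ ≤ 8) (p q : P) : ‖fderiv ℝ (fderiv ℝ (fun p => L (fderiv ℝ X p) w)) p -
      fderiv ℝ (fderiv ℝ (fun p => L (fderiv ℝ X p) w)) q‖ ≤ 8 * ‖L‖ * A 4 * ‖p - q‖ := by
  have c1 : ContDiff ℝ ∞ (fderiv ℝ X) := hX.fderiv_right (m := ∞) (by simp)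
  have c2 : ContDiff ℝ ∞ (fderiv ℝ (fderiv ℝ X)) := c1.fderiv_right (m := ∞) (by simp)
  have c3 : ContDiff ℝ ∞ (fderiv ℝ (fderiv ℝ (fderiv ℝ X))) :=
    c2.fderiv_right (m := ∞) (by simp)
  have l1 := trk_lip (f := fderiv ℝ (fderiv ℝ (fderiv ℝ X))) (A := A 4)
    (c3.differentiable (by simp)) (fun x => (trk_nfd4 X x).trans_le (hA 4 x)) p q
  have hA4 : 0 ≤ A 4 := (norm_nonneg _).trans (hA 4 p)
  refine ContinuousLinearMap.opNorm_le_bound _ (by positivity) fun u =>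
    ContinuousLinearMap.opNorm_le_bound _ (by positivity) fun v => ?_
  rw [sub_apply, sub_apply, trk_l2 L hX, trk_l2 L hX]
  have h1 : L (fderiv ℝ (fderiv ℝ (fderiv ℝ X)) p u v) w -
      L (fderiv ℝ (fderiv ℝ (fderiv ℝ X)) q u v) w =
      L ((fderiv ℝ (fderiv ℝ (fderiv ℝ X)) p - fderiv ℝ (fderiv ℝ (fderiv ℝ X)) q) u v) w := by
    rw [sub_apply, sub_apply, map_sub, sub_apply]
  rw [h1]
  have h2 : ‖(fderiv ℝ (fderiv ℝ (fderiv ℝ X)) p - fderiv ℝ (fderiv ℝ (fderiv ℝ X)) q) u v‖ ≤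
      A 4 * ‖p - q‖ * ‖u‖ * ‖v‖ := by
    refine (ContinuousLinearMap.le_opNorm _ _).trans
      (mul_le_mul_of_nonneg_right ?_ (norm_nonneg v))
    exact (ContinuousLinearMap.le_opNorm _ _).trans
      (mul_le_mul_of_nonneg_right l1 (norm_nonneg u))
  refine (trk_lop L _ w h2 hw).trans_eq ?_
  ring

/-- **Transversality**, general form. -/
theorem trk_gen (hX : ContDiff ℝ ∞ X) (hA : ∀ j p, ‖iteratedFDeriv ℝ j X p‖ ≤ A j) {p0 : P}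
    {κ : ℝ} (hκ : 0 < κ) (hκ1 : κ ≤ 1)
    (hH : ∀ (p : P) (w : W), ‖p - p0‖ ≤ κ → 1 / 4 ≤ ‖w‖ → ‖w‖ ≤ 8 → ‖L (fderiv ℝ X p) w‖ ≤ κ →
      (∀ u, κ * ‖u‖ ≤ ‖fderiv ℝ X p u‖) ∧
      ∀ u v, ‖fderiv ℝ (fun p => L (fderiv ℝ X p) w) p u‖ ≤ κ * ‖u‖ →
        ‖fderiv ℝ (fun p => L (fderiv ℝ X p) w) p v‖ ≤ κ * ‖v‖ → ∀ d,
        κ * (‖u‖ * ‖v‖ + ‖d‖) ≤ ‖fderiv ℝ X p d + fderiv ℝ (fderiv ℝ X) p u v‖ +
          ‖fderiv ℝ (fun p => L (fderiv ℝ X p) w) p d +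
            fderiv ℝ (fderiv ℝ (fun p => L (fderiv ℝ X p) w)) p u v‖) :
    ∃ δ0 c : ℝ, 0 < δ0 ∧ δ0 ≤ 1 / 4 ∧ 0 < c ∧ ∀ (p p' : P) (w : W) (θ ρ : ℝ), ‖p - p0‖ ≤ δ0 →
      ‖p' - p0‖ ≤ δ0 → 1 / 4 ≤ ‖w‖ → ‖w‖ ≤ 8 → ‖L (fderiv ℝ X p) w‖ ≤ θ →
      ‖L (fderiv ℝ X p') w‖ ≤ θ → 0 < ρ → ρ ≤ ‖p - p'‖ → ‖p - p'‖ ≤ 2 * ρ →
      4 / κ * θ ≤ ρ → ∀ a b : P,
      c * (‖a‖ + ‖b‖) ≤ ‖fderiv ℝ X p a + ρ⁻¹ • (fderiv ℝ X p' b - fderiv ℝ X p b)‖ +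
        ‖fderiv ℝ (fun p => L (fderiv ℝ X p) w) p a + ρ⁻¹ •
          (fderiv ℝ (fun p => L (fderiv ℝ X p) w) p' b -
            fderiv ℝ (fun p => L (fderiv ℝ X p) w) p b)‖ +
        ‖fderiv ℝ (fun p => L (fderiv ℝ X p) w) p' b‖ := by
  have hA2 : 0 ≤ A 2 := (norm_nonneg _).trans (hA 2 p0)
  have hA3 : 0 ≤ A 3 := (norm_nonneg _).trans (hA 3 p0)
  have hA4 : 0 ≤ A 4 := (norm_nonneg _).trans (hA 4 p0)
  have hL0 : 0 ≤ ‖L‖ := norm_nonneg _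
  set B : ℝ := A 2 + A 3 + 8 * ‖L‖ * A 3 + 8 * ‖L‖ * A 4 with hB
  have p1 : 0 ≤ 8 * ‖L‖ * A 3 := by positivity
  have p2 : 0 ≤ 8 * ‖L‖ * A 4 := by positivity
  have hB0 : 0 ≤ B := by positivity
  set δ0 : ℝ := κ / (32 * B + 4) with hδ0
  have hden : 0 < 32 * B + 4 := by positivity
  have hδ00 : 0 < δ0 := by positivity
  have hδ4 : δ0 ≤ κ / 4 := div_le_div_of_nonneg_left hκ.le (by norm_num) (by linarith)
  have hBδ : 32 * B * δ0 ≤ κ := by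
    rw [hδ0, mul_div_assoc', div_le_iff₀ hden]
    nlinarith
  have c1 : ContDiff ℝ ∞ (fderiv ℝ X) := hX.fderiv_right (m := ∞) (by simp)
  have c2 : ContDiff ℝ ∞ (fderiv ℝ (fderiv ℝ X)) := c1.fderiv_right (m := ∞) (by simp)
  have b1 := trk_lip (f := fderiv ℝ X) (A := A 2) (c1.differentiable (by simp))
    (fun x => (trk_nfd2 X x).trans_le (hA 2 x))
  have l1 := trk_lip (f := fderiv ℝ (fderiv ℝ X)) (A := A 3) (c2.differentiable (by simp))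
    (fun x => (trk_nfd3 X x).trans_le (hA 3 x))
  refine ⟨δ0, κ ^ 2 / (8 * B + 8), hδ00, by linarith, by positivity, ?_⟩
  intro p p' w θ ρ hp hp' hw hw8 hθ hθ' hρ r1 r2 hC a b
  have hpδ : ‖p - p'‖ ≤ 2 * δ0 := by
    have e : p - p' = (p - p0) - (p' - p0) := by abel
    rw [e]
    have := norm_sub_le (p - p0) (p' - p0)
    linarith
  have hVκ : ‖L (fderiv ℝ X p) w‖ ≤ κ := by
    have h5 : θ ≤ κ * ρ / 4 := by
      have h8 : 4 / κ * θ = 4 * θ / κ := by ring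
      rw [h8, div_le_iff₀ hκ] at hC
      linarith
    have h6 : ρ ≤ 1 := by linarith
    nlinarith
  obtain ⟨hlow, hH1⟩ := hH p w (by linarith) hw hw8 hVκ
  have cV := trk_lw L hX w
  have cM : ContDiff ℝ ∞ (fderiv ℝ (fun p => L (fderiv ℝ X p) w)) :=
    cV.fderiv_right (m := ∞) (by simp)
  have nn : ∀ x y : P, 0 ≤ ‖x - y‖ := fun x y => norm_nonneg _
  exact trk_abs (A1 := fderiv ℝ X) (A2 := fderiv ℝ (fderiv ℝ X))
    (V := fun p => L (fderiv ℝ X p) w) (M := fderiv ℝ (fun p => L (fderiv ℝ X p) w))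
    (V2 := fderiv ℝ (fderiv ℝ (fun p => L (fderiv ℝ X p) w))) (A := B) (κ := κ) (δ := δ0)
    hB0 hκ hκ1 (fun q => (c1.differentiable (by simp) q).hasFDerivAt)
    (fun x y => (b1 x y).trans (mul_le_mul_of_nonneg_right (by linarith) (nn x y)))
    (fun x y => (l1 x y).trans (mul_le_mul_of_nonneg_right (by linarith) (nn x y)))
    (fun q => (cV.differentiable (by simp) q).hasFDerivAt)
    (fun q => (cM.differentiable (by simp) q).hasFDerivAt)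
    (fun x y => (trk_lM_lip L hX hA hw8 x y).trans
      (mul_le_mul_of_nonneg_right (by linarith) (nn x y)))
    (fun x y => (trk_l2_lip L hX hA hw8 x y).trans
      (mul_le_mul_of_nonneg_right (by linarith) (nn x y)))
    hθ hθ' hρ r1 r2 hC hpδ hBδ hlow hH1 a b

end Gen

end Pool.Agent.LFK
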