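import Pool.Agent.MP_6cbfb8_an.Defs

/-!
The oscillatory integral of a density in a chart `E k × E m → R^n`.
-/

set_option autoImplicit false

namespace Pool.Agent.LFK

open MeasureTheory Pool.Agent.MP_6cbfb8_an
open scoped RealInnerProductSpace

/-- The oscillatory integral of `b` in the chart `X`. -/
noncomputable def Tb {k m n : ℕ} (X : E k × E m → E n) (b : E k × E m → ℂ) (ξ : E n) : ℂ :=
  ∫ p, b p * Complex.exp (((-⟪ξ, X p⟫ : ℝ) : ℂ) * Complex.I)

end Pool.Agent.LFK
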